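import Pool.Agent.Lib.MP_7b5e47_an.Hq.TMon

/-! Boundary estimates at a point touched by a disc. -/

namespace Pool.Agent.Lib.MP_7b5e47_an.Hq

open Set Metric Filter Topology InnerProductSpace

/- Locally `g = re F` (`InnerProductSpace.HarmonicOnNhd.exists_analyticOnNhd_ball_re_eq`), and
`re (F (conj w)) = re (conj (F (conj w)))` with `w ↦ conj (F (conj w))` holomorphic (`HasDerivAt.conj_conj` or
`DifferentiableAt.conj_conj`); `AnalyticAt.harmonicAt_re`. -/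
theorem harm_conj {g : ℂ → ℝ} {φ : ℂ → ℂ} {z : ℂ} (hφ : AnalyticAt ℂ φ z)
    (hg : HarmonicAt g ((starRingEnd ℂ) (φ z))) :
    HarmonicAt (fun w => g ((starRingEnd ℂ) (φ w))) z := by
  obtain ⟨r, hr, h1⟩ := Metric.eventually_nhds_iff_ball.1 hg.eventually
  obtain ⟨F, hF, h2⟩ := HarmonicOnNhd.exists_analyticOnNhd_ball_re_eq h1
  have h3 : ∀ᶠ w in 𝓝 (φ z), (starRingEnd ℂ) w ∈ ball ((starRingEnd ℂ) (φ z)) r :=
    Complex.continuous_conj.continuousAt.eventually (ball_mem_nhds _ hr)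
  have h4 : AnalyticAt ℂ (starRingEnd ℂ ∘ F ∘ starRingEnd ℂ) (φ z) :=
    Complex.analyticAt_iff_eventually_differentiableAt.2 (h3.mono fun w hw =>
      differentiableAt_conj_conj_iff.2 (hF _ hw).differentiableAt)
  refine (harmonicAt_congr_nhds ?_).1 (h4.comp hφ).harmonicAt_re
  filter_upwards [hφ.continuousAt.eventually h3] with w hw
  simpa using h2 hw

theorem AHop_fr {a b : ℂ} {r s : ℝ} {z : ℂ} (hz : z ∈ frontier (closedBall a r \ ball b s)) :
    ‖z - a‖ ≤ r ∧ s ≤ ‖z - b‖ ∧ (‖z - a‖ = r ∨ ‖z - b‖ = s) := by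
  rw [(isClosed_closedBall.sdiff isOpen_ball).frontier_eq] at hz
  obtain ⟨⟨h1, h2⟩, h3⟩ := hz
  rw [mem_closedBall_iff_norm] at h1
  rw [mem_ball_iff_norm, not_lt] at h2
  refine ⟨h1, h2, ?_⟩
  by_contra h
  rw [not_or] at h
  refine h3 (interior_maximal (t := ball a r \ closedBall b s)
    (sdiff_subset_sdiff ball_subset_closedBall ball_subset_closedBall)
    (isOpen_ball.sdiff isClosed_closedBall) ⟨?_, ?_⟩)
  · exact mem_ball_iff_norm.2 (lt_of_le_of_ne h1 h.1)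
  · rw [mem_closedBall_iff_norm, not_le]
    exact lt_of_le_of_ne h2 (Ne.symm h.2)

theorem AHop_refl {a w : ℂ} (hw : w ≠ 0) :
    ‖(starRingEnd ℂ) (((‖a‖ : ℂ)) ^ 2 / w)‖ = ‖a‖ ^ 2 / ‖w‖ ∧
      ‖(starRingEnd ℂ) (((‖a‖ : ℂ)) ^ 2 / w) - a‖ = ‖a‖ * ‖w - a‖ / ‖w‖ ∧
      (‖w‖ = ‖a‖ → (starRingEnd ℂ) (((‖a‖ : ℂ)) ^ 2 / w) = w) := by
  refine ⟨by simp, ?_, fun h => ?_⟩
  · have h1 : (starRingEnd ℂ) (((‖a‖ : ℂ)) ^ 2 / w) - a =
        (starRingEnd ℂ) ((starRingEnd ℂ) a * (a - w) / w) := by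
      rw [← Complex.conj_mul', mul_sub, sub_div, mul_div_cancel_right₀ _ hw, map_sub,
        Complex.conj_conj]
    rw [h1, Complex.norm_conj, norm_div, norm_mul, Complex.norm_conj, norm_sub_rev]
  · rw [← h, ← Complex.conj_mul', mul_div_cancel_right₀ _ hw, Complex.conj_conj]

variable {g : ℂ → ℝ} {b₀ v : ℂ}

/- `mp` on the annulus `d / 2 ≤ ‖z - b₀‖ ≤ d` (`d = ‖v - b₀‖`) for `c' * log (d / ‖z - b₀‖) ≤ g z`, and
`log (d / (d - τ)) ≥ τ / d`. -/
theorem hopf_low (hg : Continuous g) (h0 : ∀ z, 0 ≤ g z) (hh : ∀ z, 0 < g z → HarmonicAt g z)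
    (hv : v ≠ b₀) (hp : ∀ z ∈ ball b₀ ‖v - b₀‖, 0 < g z) : ∃ c : ℝ, 0 < c ∧
      ∀ τ : ℝ, 0 ≤ τ → τ ≤ ‖v - b₀‖ / 2 → c * τ ≤ g (v + τ * ((b₀ - v) / (‖b₀ - v‖ : ℂ))) := by
  set d := ‖v - b₀‖ with hd
  have hd0 : 0 < d := norm_pos_iff.2 (sub_ne_zero.2 hv)
  obtain ⟨y, hy, hm⟩ := (isCompact_sphere b₀ (d / 2)).exists_isMinOn
    (NormedSpace.sphere_nonempty.2 (by positivity)) hg.continuousOn
  have hm0 : 0 < g y := hp y (sphere_subset_ball (by linarith) hy)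
  have hne : ∀ z ∈ closedBall b₀ d \ ball b₀ (d / 2), z - b₀ ≠ 0 := fun z hz h => by
    refine hz.2 ?_
    rw [mem_ball_iff_norm, h, norm_zero]
    positivity
  have key := mp (g := fun z => g y * (Real.log d - Real.log ‖z - b₀‖)) (h := g)
    (K := closedBall b₀ d \ ball b₀ (d / 2)) ((isCompact_closedBall _ _).diff isOpen_ball)
    (continuousOn_const.mul (continuousOn_const.sub (ContinuousOn.log (by fun_prop)
      fun z hz => norm_ne_zero_iff.2 (hne z hz)))) hg.continuousOn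
    (fun z hz => ⟨h0 z, hh z (hp z (by
        rw [← interior_closedBall b₀ hd0.ne']
        exact interior_mono sdiff_subset hz)), fun _ =>
      ((harmonicAt_const (Real.log d)).sub ((analyticAt_id.sub analyticAt_const).harmonicAt_log_norm
        (hne z (interior_subset hz)))).const_smul (c := g y)⟩)
    (fun z hz => by
      obtain ⟨-, -, h | h⟩ := AHop_fr hz
      · simp only [h, sub_self, mul_zero]
        exact h0 z
      · have h1 : Real.log d - Real.log (d / 2) ≤ 1 := by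
          rw [Real.log_div hd0.ne' two_ne_zero]
          linarith [Real.log_le_sub_one_of_pos two_pos]
        simp only [h]
        exact (mul_le_of_le_one_right hm0.le h1).trans (hm (mem_sphere_iff_norm.2 h)))
  refine ⟨g y / d, by positivity, fun τ h1 h2 => ?_⟩
  have h3 : ‖v + τ * ((b₀ - v) / (‖b₀ - v‖ : ℂ)) - b₀‖ = d - τ := by
    have h4 : (d : ℂ) ≠ 0 := Complex.ofReal_ne_zero.2 hd0.ne'
    have h5 : v + τ * ((b₀ - v) / (‖b₀ - v‖ : ℂ)) - b₀ = (((d - τ) / d : ℝ) : ℂ) * (v - b₀) := by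
      rw [norm_sub_rev, ← hd]
      push_cast
      field_simp
      ring
    rw [h5, norm_mul, ← hd, Complex.norm_real, Real.norm_of_nonneg (div_nonneg (by linarith) hd0.le),
      div_mul_cancel₀ _ hd0.ne']
  refine le_trans ?_ (key _ ⟨mem_closedBall_iff_norm.2 (by rw [h3]; linarith), fun h => by
    rw [mem_ball_iff_norm, h3] at h
    linarith⟩)
  have h4 := Real.log_le_sub_one_of_pos (x := (d - τ) / d) (div_pos (by linarith) hd0)
  rw [Real.log_div (show 0 < d - τ by linarith).ne' hd0.ne', sub_div, div_self hd0.ne'] at h4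
  simp only [h3]
  rw [div_mul_eq_mul_div, mul_div_assoc]
  exact mul_le_mul_of_nonneg_left (by linarith) hm0.le

/- For `z` outside the disc let `z' = b₀ + d ^ 2 / conj (z - b₀)`; `‖z' - v‖ = d ‖z - v‖ / ‖z - b₀‖`.  `mp` on
`closedBall v d \ ball b₀ d` with `h z = g z' + A * log (‖z - b'‖ / (d / 2))`, `b' = (b₀ + v) / 2`: the logarithm is
nonnegative outside `ball b₀ d`, at least `log 3 / 2` on `sphere v d` outside `ball b₀ d` (parallelogram law:
`‖z - b'‖ ^ 2 = (‖z - b₀‖ ^ 2 + ‖z - v‖ ^ 2) / 2 - d ^ 2 / 4`), and at most `2 ‖z - v‖ / d`; `harm_conj`. -/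
theorem hopf_up (hg : Continuous g) (h0 : ∀ z, 0 ≤ g z) (hh : ∀ z, 0 < g z → HarmonicAt g z)
    (hv : v ≠ b₀) (hp : ∀ z ∈ ball b₀ ‖v - b₀‖, 0 < g z) : ∃ C : ℝ, 0 ≤ C ∧
      ∀ z, ‖z - v‖ ≤ ‖v - b₀‖ → ∃ z', ‖z' - b₀‖ ≤ ‖v - b₀‖ ∧ ‖z' - v‖ ≤ ‖z - v‖ ∧
        g z ≤ g z' + C * ‖z - v‖ := by
  set d := ‖v - b₀‖ with hd
  have hd0 : 0 < d := norm_pos_iff.2 (sub_ne_zero.2 hv)
  obtain ⟨y, -, hm⟩ := (isCompact_closedBall v d).exists_isMaxOn
    (nonempty_closedBall.2 hd0.le) hg.continuousOn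
  have hl : 0 < Real.log (3 / 2) := Real.log_pos (by norm_num)
  set A := g y / Real.log (3 / 2) with hA
  have hA0 : 0 ≤ A := div_nonneg (h0 y) hl.le
  set φ : ℂ → ℂ := fun z => (starRingEnd ℂ) b₀ + (d : ℂ) ^ 2 / (z - b₀) with hφ
  have hφ1 : ∀ z, (starRingEnd ℂ) (φ z) - b₀ = (starRingEnd ℂ) ((d : ℂ) ^ 2 / (z - b₀)) := fun z => by
    simp only [hφ, map_add, Complex.conj_conj, add_sub_cancel_left]
  have hne : ∀ z : ℂ, d ≤ ‖z - b₀‖ → z - b₀ ≠ 0 := fun z hz h => by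
    rw [h, norm_zero] at hz
    linarith
  have hK : ∀ z ∈ closedBall v d \ ball b₀ d, d ≤ ‖z - b₀‖ := fun z hz =>
    not_lt.1 fun h => hz.2 (mem_ball_iff_norm.2 h)
  have hlow : ∀ z : ℂ, d ≤ ‖z - b₀‖ → d ≤ ‖z - b₀ + (z - v)‖ := fun z hz => by
    have h1 := norm_add_le (z - b₀ + (z - v)) (v - b₀)
    rw [show z - b₀ + (z - v) + (v - b₀) = 2 * (z - b₀) by ring, norm_mul, Complex.norm_two] at h1
    linarith
  have hne' : ∀ z : ℂ, d ≤ ‖z - b₀‖ → z - b₀ + (z - v) ≠ 0 := fun z hz h => by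
    have h1 := hlow z hz
    rw [h, norm_zero] at h1
    linarith
  have hlog : ∀ z : ℂ, d ≤ ‖z - b₀‖ → 0 ≤ Real.log ‖z - b₀ + (z - v)‖ - Real.log d := fun z hz =>
    sub_nonneg.2 (Real.log_le_log hd0 (hlow z hz))
  have han : ∀ z : ℂ, d ≤ ‖z - b₀‖ → AnalyticAt ℂ φ z := fun z hz =>
    analyticAt_const.add (analyticAt_const.div (analyticAt_id.sub analyticAt_const) (hne z hz))
  have key := mp (g := g) (h := fun z => g ((starRingEnd ℂ) (φ z)) +
      A * (Real.log ‖z - b₀ + (z - v)‖ - Real.log d))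
    (K := closedBall v d \ ball b₀ d) ((isCompact_closedBall _ _).diff isOpen_ball) hg.continuousOn
    (ContinuousOn.add (fun z hz => ((hg.comp Complex.continuous_conj).continuousAt.comp
      (han z (hK z hz)).continuousAt).continuousWithinAt)
      (continuousOn_const.mul (ContinuousOn.sub (ContinuousOn.log (by fun_prop)
        fun z hz => norm_ne_zero_iff.2 (hne' z (hK z hz))) continuousOn_const)))
    (fun z hz => by
      have h1 := hK z (interior_subset hz)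
      have h2 : d < ‖z - b₀‖ := by
        have h3 := interior_mono (sdiff_subset_compl _ _) hz
        rw [interior_compl, closure_ball b₀ hd0.ne', mem_compl_iff, mem_closedBall_iff_norm] at h3
        exact not_le.1 h3
      refine ⟨add_nonneg (h0 _) (mul_nonneg hA0 (hlog z h1)), HarmonicAt.add
        (harm_conj (han z h1) (hh _ (hp _ ?_))) ((HarmonicAt.sub (AnalyticAt.harmonicAt_log_norm
          ((analyticAt_id.sub analyticAt_const).add (analyticAt_id.sub analyticAt_const))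
          (hne' z h1)) (harmonicAt_const (Real.log d))).const_smul (c := A)), hh z⟩
      rw [mem_ball_iff_norm, hφ1, (AHop_refl (hne z h1)).1, ← hd, div_lt_iff₀ (hd0.trans h2)]
      nlinarith)
    (fun z hz => by
      obtain ⟨h1, h2, h | h⟩ := AHop_fr hz
      · have h3 := parallelogram_law_with_norm ℝ (z - b₀) (z - v)
        rw [show z - b₀ - (z - v) = v - b₀ by ring, ← hd, h] at h3
        have h4 : 3 / 2 * d ≤ ‖z - b₀ + (z - v)‖ :=
          (pow_le_pow_iff_left₀ (by positivity) (norm_nonneg _) two_ne_zero).1 (by nlinarith)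
        have h5 := Real.log_le_log (by positivity) h4
        rw [Real.log_mul (by norm_num) hd0.ne'] at h5
        have h6 : g y ≤ A * (Real.log ‖z - b₀ + (z - v)‖ - Real.log d) := by
          rw [← div_mul_cancel₀ (g y) hl.ne']
          exact mul_le_mul_of_nonneg_left (by linarith) hA0
        have h7 : g z ≤ g y := hm (mem_closedBall_iff_norm.2 h1)
        have h8 := h0 ((starRingEnd ℂ) (φ z))
        linarith
      · have h3 : (starRingEnd ℂ) (φ z) = z := by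
          have h4 := hφ1 z
          rw [(AHop_refl (hne z h2)).2.2 h] at h4
          exact sub_left_injective h4
        simp only [h3]
        exact le_add_of_nonneg_right (mul_nonneg hA0 (hlog z h2)))
  refine ⟨A * (2 / d), by positivity, fun z hz => ?_⟩
  rcases le_total ‖z - b₀‖ d with h1 | h1
  · exact ⟨z, h1, le_rfl, le_add_of_nonneg_right (by positivity)⟩
  obtain ⟨a1, a2, -⟩ := AHop_refl (a := v - b₀) (hne z h1)
  have h2 : 0 < ‖z - b₀‖ := by linarith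
  refine ⟨(starRingEnd ℂ) (φ z), ?_, ?_, (key z ⟨mem_closedBall_iff_norm.2 hz, fun h =>
    not_lt.2 h1 (mem_ball_iff_norm.1 h)⟩).trans ?_⟩
  · rw [hφ1, a1, ← hd, div_le_iff₀ h2]
    nlinarith
  · rw [← sub_sub_sub_cancel_right _ v b₀, hφ1, a2, ← hd, sub_sub_sub_cancel_right, div_le_iff₀ h2,
      mul_comm]
    exact mul_le_mul_of_nonneg_left h1 (norm_nonneg _)
  · have h3 := norm_add_le (2 * (z - v)) (v - b₀)
    rw [show 2 * (z - v) + (v - b₀) = z - b₀ + (z - v) by ring, norm_mul, Complex.norm_two] at h3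
    have h4 := hlow z h1
    have h5 := Real.log_le_sub_one_of_pos (x := ‖z - b₀ + (z - v)‖ / d) (div_pos (hd0.trans_le h4) hd0)
    rw [Real.log_div (hd0.trans_le h4).ne' hd0.ne'] at h5
    have h6 : ‖z - b₀ + (z - v)‖ / d - 1 ≤ 2 / d * ‖z - v‖ := by
      rw [sub_le_iff_le_add, div_le_iff₀ hd0]
      have : (2 / d * ‖z - v‖ + 1) * d = 2 * ‖z - v‖ + d := by field_simp
      linarith
    rw [mul_assoc]
    exact add_le_add_right (mul_le_mul_of_nonneg_left (h5.trans h6) hA0) _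

theorem hopf (hg : Continuous g) (h0 : ∀ z, 0 ≤ g z) (hh : ∀ z, 0 < g z → HarmonicAt g z)
    (hv : v ≠ b₀) (hp : ∀ z ∈ ball b₀ ‖v - b₀‖, 0 < g z) : ∃ C : ℝ, 0 ≤ C ∧
      ∀ τ : ℝ, 0 ≤ τ → τ ≤ ‖v - b₀‖ / 2 → ∀ z, ‖z - v‖ ≤ τ →
        ∃ z', ‖z' - b₀‖ ≤ ‖v - b₀‖ ∧ ‖z' - v‖ ≤ τ ∧
          g z ≤ g z' + C * g (v + τ * ((b₀ - v) / (‖b₀ - v‖ : ℂ))) := by
  obtain ⟨c, hc, h1⟩ := hopf_low hg h0 hh hv hp
  obtain ⟨C, hC, h2⟩ := hopf_up hg h0 hh hv hp
  refine ⟨C / c, by positivity, fun τ hτ hτ' z hz => ?_⟩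
  obtain ⟨z', a1, a2, a3⟩ := h2 z (by linarith [norm_nonneg (v - b₀)])
  refine ⟨z', a1, a2.trans hz, a3.trans (add_le_add_right ?_ _)⟩
  calc C * ‖z - v‖ ≤ C * τ := mul_le_mul_of_nonneg_left hz hC
    _ = C / c * (c * τ) := by field_simp
    _ ≤ _ := mul_le_mul_of_nonneg_left (h1 τ hτ hτ') (by positivity)

/-- Montel on a ball for curves (`montel_ball` for both components). -/
theorem montel_ball2 {F : ℕ → ℂ → ℂ × ℂ} {c : ℂ} {r B : ℝ}
    (h : ∀ᶠ j in atTop, DifferentiableOn ℂ (F j) (ball c r) ∧ ∀ z ∈ ball c r, ‖F j z‖ ≤ B) :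
    ∃ (φ : ℕ → ℕ) (Ψ : ℂ → ℂ × ℂ), StrictMono φ ∧ DifferentiableOn ℂ Ψ (ball c r) ∧
      (∀ z ∈ ball c r, ‖Ψ z‖ ≤ B) ∧
      TendstoLocallyUniformlyOn (fun j => F (φ j)) Ψ atTop (ball c r) := by
  have h' := h.filter_mono Nat.hyperfilter_le_atTop
  obtain ⟨g, hg, hl⟩ := Hn.montel (hyperfilter ℕ) (f := F) (U := ball c r)
    isOpen_ball (h'.mono fun j hj => hj.1) fun z hz => by
      obtain ⟨ρ, hρ, h2⟩ := Metric.isOpen_iff.1 isOpen_ball z hz
      exact ⟨ρ, hρ, B, h'.mono fun j hj w hw => hj.2 w (h2 hw)⟩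
  obtain ⟨φ, hφ, h3⟩ := TMon_ext isOpen_ball (fun k => closedBall c (r - 1 / ((k : ℝ) + 1)))
    (fun k => TMon_unif hl (sub_lt_self r Nat.one_div_pos_of_nat)) fun L hL hc => by
      obtain ⟨r', hr', h2⟩ := exists_lt_subset_ball hc.isClosed hL
      filter_upwards [(tendsto_one_div_add_atTop_nhds_zero_nat (𝕜 := ℝ)).eventually
        (gt_mem_nhds (sub_pos.2 hr'))] with k hk
      exact h2.trans (ball_subset_closedBall.trans (closedBall_subset_closedBall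
        (le_sub_comm.1 (le_of_lt hk))))
  exact ⟨φ, g, hφ, hg, fun z hz => le_of_tendsto (hl.tendsto_at hz).norm
    (h'.mono fun j hj => hj.2 z hz), h3⟩

theorem tluo_comp {F : ℕ → ℂ → ℂ × ℂ} {Ψ : ℂ → ℂ × ℂ} {O : Set ℂ} (hO : IsOpen O)
    (hΨ : ContinuousOn Ψ O) (h : TendstoLocallyUniformlyOn F Ψ atTop O) {Y : Type}
    [PseudoMetricSpace Y] {u : ℂ × ℂ → Y} (hu : Continuous u) :
    TendstoLocallyUniformlyOn (fun j z => u (F j z)) (fun z => u (Ψ z)) atTop O := by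
  have _ := hO
  rw [tendstoLocallyUniformlyOn_iff_forall_tendsto] at h ⊢
  intro x hx
  have h1 : Tendsto (fun y : ℕ × ℂ => Ψ y.2) (atTop ×ˢ 𝓝[O] x) (𝓝 (Ψ x)) :=
    (hΨ x hx).tendsto.comp tendsto_snd
  have h2 := h1.congr_uniformity (h x hx)
  exact ((hu.continuousAt.tendsto.comp h1).prodMk_nhds
    (hu.continuousAt.tendsto.comp h2)).mono_right (nhds_le_uniformity _)

theorem isPreconnected_annulus (c : ℂ) {r₁ r₂ : ℝ} (h : 0 ≤ r₁) :
    IsPreconnected {z : ℂ | r₁ < ‖z - c‖ ∧ ‖z - c‖ < r₂} := by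
  have h1 : {z : ℂ | r₁ < ‖z - c‖ ∧ ‖z - c‖ < r₂} =
      (fun p : ℝ × ℝ => c + p.1 * Complex.exp (p.2 * Complex.I)) '' (Ioo r₁ r₂ ×ˢ univ) := by
    ext z
    constructor
    · intro hz
      refine ⟨(‖z - c‖, (z - c).arg), ⟨hz, trivial⟩, ?_⟩
      simp only [Complex.norm_mul_exp_arg_mul_I, add_sub_cancel]
    · rintro ⟨p, ⟨hp, -⟩, rfl⟩
      have h2 : ‖c + p.1 * Complex.exp (p.2 * Complex.I) - c‖ = p.1 := by
        rw [add_sub_cancel_left, norm_mul, Complex.norm_exp_ofReal_mul_I, mul_one,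
          Complex.norm_real, Real.norm_of_nonneg (h.trans hp.1.le)]
      simp only [mem_ofPred_eq, h2]
      exact hp
  rw [h1]
  exact (isPreconnected_Ioo.prod isPreconnected_univ).image _ (by fun_prop)

end Pool.Agent.Lib.MP_7b5e47_an.Hq
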