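import Pool.Agent.Lib.MP_7b5e47_an.Hq.Nf

/-! Saddles, their unstable manifolds and parametrizations. -/

namespace Pool.Agent.Lib.MP_7b5e47_an.Hq

open Set Metric Filter Topology
open Pool.Agent.Lib.MP_7b5e47_an.Hn (Kp Jul IsSaddle Wu)

variable {f : Equiv.Perm (ℂ × ℂ)} {d : ℝ} {G H : ℂ × ℂ → ℝ} {p q : ℂ × ℂ} {ψ φ σ : ℂ → ℂ × ℂ}

theorem HD.dif_zpow (hd : HD f d G H) (k : ℤ) : Differentiable ℂ (⇑(f ^ k)) := by
  cases k with
  | ofNat n => simpa using dif_pow hd.df n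
  | negSucc n =>
    rw [zpow_negSucc, ← inv_pow]
    exact dif_pow hd.di _

theorem HD.G_zpow (hd : HD f d G H) (k : ℤ) (z : ℂ × ℂ) : G ((f ^ k) z) = d ^ k * G z := by
  have h0 : d ≠ 0 := (zero_lt_one.trans hd.hd).ne'
  induction k using Int.induction_on with
  | zero => simp
  | succ k ih =>
    rw [add_comm, zpow_one_add, Equiv.Perm.mul_apply, hd.eG, ih, zpow_one_add₀ h0, mul_assoc]
  | pred k ih =>
    have h1 : f ((f ^ (-(k : ℤ) - 1)) z) = (f ^ (-(k : ℤ))) z := by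
      rw [← Equiv.Perm.mul_apply, ← zpow_one_add]
      simp
    have h2 := hd.eG ((f ^ (-(k : ℤ) - 1)) z)
    rw [h1, ih] at h2
    refine mul_left_cancel₀ h0 ?_
    rw [← h2, ← mul_assoc, ← zpow_one_add₀ h0]
    simp

/- `fderiv_inv_eig` for `f ^ N`. -/
theorem saddle_inv (hd : HD f d G H) (h : IsSaddle f p) : IsSaddle f⁻¹ p := by
  obtain ⟨N, hN, hp, l, m, u, s, hu, hs, hl, hm, h1, h2⟩ := h
  obtain ⟨hl0, h3⟩ := fderiv_inv_eig (hd.pow hN).df (hd.pow hN).di hp hu h1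
  obtain ⟨hm0, h4⟩ := fderiv_inv_eig (hd.pow hN).df (hd.pow hN).di hp hs h2
  refine ⟨N, hN, ?_, m⁻¹, l⁻¹, s, u, hs, hu, ?_, ?_, ?_, ?_⟩
  · rw [inv_pow, Equiv.Perm.inv_eq_iff_eq, hp]
  · rw [norm_inv]
    exact (one_lt_inv₀ (norm_pos_iff.2 hm0)).2 hm
  · rw [norm_inv]
    exact inv_lt_one_of_one_lt₀ hl
  · rw [inv_pow]
    exact h4
  · rw [inv_pow]
    exact h3

/- The eigenvectors are moved by the injective map `fderiv ℂ f p`; differentiate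
`f ^ N ∘ f = f ∘ f ^ N`. -/
theorem saddle_map (hd : HD f d G H) (h : IsSaddle f p) : IsSaddle f (f p) := by
  obtain ⟨N, hN, hp, l, m, u, s, hu, hs, hl, hm, h1, h2⟩ := h
  have key : ∀ (c : ℂ) (v : ℂ × ℂ), fderiv ℂ (⇑(f ^ N)) p v = c • v →
      fderiv ℂ (⇑(f ^ N)) (f p) (fderiv ℂ (⇑f) p v) = c • fderiv ℂ (⇑f) p v := fun c v hv => by
    rw [← Hn.BAut_comp (dif_pow hd.df N) hd.df, ← pow_succ, pow_succ',
      Hn.BAut_comp hd.df (dif_pow hd.df N), hp, hv, map_smul]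
  refine ⟨N, hN, ?_, l, m, _, _, fun e => hu (Poi_inj hd.df hd.di e),
    fun e => hs (Poi_inj hd.df hd.di e), hl, hm, key l u h1, key m s h2⟩
  rw [← Equiv.Perm.mul_apply, ← pow_succ, pow_succ', Equiv.Perm.mul_apply, hp]

theorem saddle_zpow (hd : HD f d G H) (h : IsSaddle f p) (k : ℤ) : IsSaddle f ((f ^ k) p) := by
  induction k using Int.induction_on with
  | zero => simpa using h
  | succ k ih =>
    rw [add_comm, zpow_one_add, Equiv.Perm.mul_apply]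
    exact saddle_map hd ih
  | pred k ih =>
    have h1 := saddle_inv hd.symm (saddle_map hd.symm (saddle_inv hd ih))
    rw [inv_inv, ← Equiv.Perm.mul_apply, ← zpow_neg_one, ← zpow_add] at h1
    rwa [sub_eq_neg_add]

theorem saddle_of_pow {N : ℕ} (hN : 0 < N) (h : IsSaddle (f ^ N) p) : IsSaddle f p := by
  obtain ⟨M, hM, h1⟩ := h
  rw [← pow_mul] at h1
  exact ⟨N * M, Nat.mul_pos hN hM, h1⟩

theorem saddle_G (hd : HD f d G H) (h : IsSaddle f p) : G p = 0 := by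
  obtain ⟨N, hN, hp, -⟩ := h
  have h1 := hd.G_pow N p
  rw [hp] at h1
  have h2 : 1 < d ^ N := one_lt_pow₀ hd.hd hN.ne'
  have h3 := hd.nG p
  nlinarith

theorem JS_inv (hd : HD f d G H) : JS f⁻¹ = JS f := by
  have e : {q | IsSaddle f⁻¹ q} = {q | IsSaddle f q} :=
    Set.ext fun q => ⟨fun h => by simpa using saddle_inv hd.symm h, saddle_inv hd⟩
  rw [JS, JS, e]

theorem JS_pow {N : ℕ} (hN : 0 < N) : JS (f ^ N) ⊆ JS f := by
  exact closure_mono fun q h => saddle_of_pow hN h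

theorem JS_zpow (hd : HD f d G H) (h : p ∈ JS f) (k : ℤ) : (f ^ k) p ∈ JS f := by
  exact map_mem_closure (hd.dif_zpow k).continuous h fun q hq => saddle_zpow hd hq k

theorem Sad_per {N : ℕ} (hp : (f ^ N) p = p) (k : ℕ) : (f⁻¹ ^ (N * k)) p = p := by
  rw [pow_mul, inv_pow]
  induction k with
  | zero => simp
  | succ k ih => rw [pow_succ', Equiv.Perm.mul_apply, ih, Equiv.Perm.inv_eq_iff_eq, hp]

theorem Sad_step (z : ℂ × ℂ) : f z ∈ Wu f (f p) ↔ z ∈ Wu f p := by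
  simp only [Wu, mem_ofPred_eq]
  rw [← tendsto_add_atTop_iff_nat 1]
  simp [pow_succ]

/- Write `n = N k + j` with `j < N`; the finitely many maps `f⁻¹ ^ j` are continuous at `p`. -/
theorem Wu_pow (hd : HD f d G H) {N : ℕ} (hN : 0 < N) (hp : (f ^ N) p = p) :
    Wu (f ^ N) p = Wu f p := by
  have hp' : ∀ k : ℕ, (f⁻¹ ^ (N * k)) p = p := Sad_per hp
  ext z
  simp only [Wu, mem_ofPred_eq, ← inv_pow, ← pow_mul]
  refine ⟨fun h => ?_, fun h => h.comp (tendsto_id.const_mul_atTop' hN)⟩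
  simp only [hp'] at h
  have h1 : Tendsto (fun k : ℕ => (f⁻¹ ^ (N * k)) z) atTop (𝓝 p) := tendsto_iff_dist_tendsto_zero.2 h
  refine tendsto_order.2 ⟨fun ε hε => Eventually.of_forall fun n => hε.trans_le dist_nonneg,
    fun ε hε => ?_⟩
  have h2 : ∀ᶠ k : ℕ in atTop, ∀ j ∈ Finset.range N,
      dist ((f⁻¹ ^ j) ((f⁻¹ ^ (N * k)) z)) ((f⁻¹ ^ j) p) < ε := by
    refine (Finset.eventually_all _).2 fun j _ => ?_
    exact Metric.tendsto_nhds.1 (((dif_pow hd.di j).continuous.tendsto p).comp h1) ε hε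
  filter_upwards [(Nat.tendsto_div_const_atTop hN.ne').eventually h2] with n hn
  have h3 := hn (n % N) (Finset.mem_range.2 (Nat.mod_lt n hN))
  have h4 : ∀ y, (f⁻¹ ^ n) y = (f⁻¹ ^ (n % N)) ((f⁻¹ ^ (N * (n / N))) y) := fun y => by
    rw [← Equiv.Perm.mul_apply, ← pow_add, Nat.mod_add_div]
  rwa [h4 z, h4 p, hp']

theorem Wu_zpow (k : ℤ) (z : ℂ × ℂ) : (f ^ k) z ∈ Wu f ((f ^ k) p) ↔ z ∈ Wu f p := by
  induction k using Int.induction_on with
  | zero => simp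
  | succ k ih =>
    rw [add_comm, zpow_one_add, Equiv.Perm.mul_apply, Equiv.Perm.mul_apply, Sad_step, ih]
  | pred k ih =>
    have h1 : ∀ y, f ((f ^ (-(k : ℤ) - 1)) y) = (f ^ (-(k : ℤ))) y := fun y => by
      rw [← Equiv.Perm.mul_apply, ← zpow_one_add]
      simp
    rw [← Sad_step, h1, h1, ih]

theorem Wu_of_tendsto {x y : ℂ × ℂ} (hx : x ∈ Wu f p)
    (h : Tendsto (fun n : ℕ => ‖(f⁻¹ ^ n) y - (f⁻¹ ^ n) x‖) atTop (𝓝 0)) : y ∈ Wu f p := by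
  have h1 := h.add hx
  rw [add_zero] at h1
  refine squeeze_zero (fun _ => dist_nonneg) (fun n => ?_) h1
  rw [← dist_eq_norm]
  exact dist_triangle _ _ _

/- Along the multiples of the product of the periods the distance is constant. -/
theorem Wu_meet (hp : IsSaddle f p) (hq : IsSaddle f q) {x : ℂ × ℂ} (h1 : x ∈ Wu f p)
    (h2 : x ∈ Wu f q) : p = q := by
  obtain ⟨N, hN, hp, -⟩ := hp
  obtain ⟨M, hM, hq, -⟩ := hq
  have h3 := (Tendsto.add h1 h2).comp (tendsto_id.const_mul_atTop' (Nat.mul_pos hN hM))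
  rw [add_zero] at h3
  refine dist_le_zero.1 (ge_of_tendsto' h3 fun k => ?_)
  have e1 : (f⁻¹ ^ (N * M * k)) p = p := by rw [mul_assoc, Sad_per hp]
  have e2 : (f⁻¹ ^ (N * M * k)) q = q := by rw [mul_comm N, mul_assoc, Sad_per hq]
  simp only [Function.comp, id, e1, e2]
  exact dist_triangle_left _ _ _

/- `exists_chart` for `f ^ N`, `Chart.range_u`, `Chart.symm`, `Wu_pow`, `inv_pow`. -/
theorem saddle_chart (hd : HD f d G H) (h : IsSaddle f q) : ∃ (N : ℕ) (ψ σ : ℂ → ℂ × ℂ) (l m : ℂ),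
    0 < N ∧ Chart (f ^ N) q ψ σ l m ∧ Cur f q ψ ∧ Cur f⁻¹ q σ := by
  obtain ⟨N, hN, hp, l, m, u, s, hu, hs, hl, hm, h1, h2⟩ := id h
  have hN' := hd.pow hN
  obtain ⟨ψ, σ, hc⟩ := exists_chart hN'.df hN'.di hp hu hs hl hm h1 h2
  refine ⟨N, ψ, σ, l, m, hN, hc, ⟨h, hc.iu, ?_⟩, saddle_inv hd h, hc.is, ?_⟩
  · rw [hc.range_u hN'.df hN'.di, Wu_pow hd hN hp]
  · rw [(hc.symm hN'.df hN'.di).range_u hN'.symm.df hN'.symm.di, ← inv_pow, Wu_pow hd.symm hN]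
    rw [inv_pow, Equiv.Perm.inv_eq_iff_eq, hp]

theorem Cur.mem (h : Cur f q ψ) : q ∈ range ψ := by
  rw [h.ran]
  simp [Wu]

theorem Cur.zpow (hd : HD f d G H) (h : Cur f q ψ) (k : ℤ) :
    Cur f ((f ^ k) q) fun z => (f ^ k) (ψ z) := by
  have h1 := hd.dif_zpow k
  have h2 : Differentiable ℂ (⇑(f ^ k)⁻¹) := by
    rw [← zpow_neg]
    exact hd.dif_zpow _
  refine ⟨saddle_zpow hd h.sad k, ⟨h1.comp h.imm.dif, (f ^ k).injective.comp h.imm.inj,
    fun z e => h.imm.der z (Poi_inj h1 h2 (z := ψ z) ?_)⟩, ?_⟩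
  · rw [← e]
    exact ((h1 (ψ z)).hasFDerivAt.comp_hasDerivAt z (h.imm.dif z).hasDerivAt).deriv.symm
  · ext y
    obtain ⟨x, rfl⟩ := (f ^ k).surjective y
    rw [Wu_zpow, ← h.ran]
    exact ⟨fun ⟨z, hz⟩ => ⟨z, (f ^ k).injective hz⟩, fun ⟨z, hz⟩ => ⟨z, congrArg _ hz⟩⟩

theorem Cur.aff (h : Cur f q ψ) {a : ℂ} (ha : a ≠ 0) (b : ℂ) : Cur f q fun z => ψ (b + a * z) := by
  have h1 : ∀ z : ℂ, HasDerivAt (fun z => b + a * z) a z := fun z => by
    simpa using ((hasDerivAt_id z).const_mul a).const_add b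
  refine ⟨h.sad, ⟨h.imm.dif.comp fun z => (h1 z).differentiableAt,
    h.imm.inj.comp fun z w e => mul_left_cancel₀ ha (add_left_cancel e), fun z => ?_⟩, ?_⟩
  · have h2 := ((h.imm.dif (b + a * z)).hasDerivAt.scomp z (h1 z)).deriv
    exact fun e => smul_ne_zero ha (h.imm.der (b + a * z)) (h2.symm.trans e)
  · rw [← h.ran]
    refine Function.Surjective.range_comp (f := fun z => b + a * z) (fun y => ⟨(y - b) / a, ?_⟩) ψ
    field_simp
    ring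

/- `Imm.lift` on `univ` and `Hn.affine_of_inj`. -/
theorem Imm.eq_aff (h : Imm ψ) (hφ : Differentiable ℂ φ) (hi : Function.Injective φ)
    (hr : range φ ⊆ range ψ) : ∃ a b : ℂ, a ≠ 0 ∧ ∀ z, φ z = ψ (b + a * z) := by
  obtain ⟨A, hA, h1⟩ := h.lift isOpen_univ hφ.differentiableOn fun z _ => hr (mem_range_self z)
  obtain ⟨c, e, hc, h2⟩ := Hn.affine_of_inj (differentiableOn_univ.1 hA) fun z w e =>
    hi (by rw [h1 z (mem_univ _), h1 w (mem_univ _), e])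
  exact ⟨c, e, hc, fun z => by rw [h1 z (mem_univ _), h2, add_comm]⟩

theorem Cur.meet (h : Cur f p ψ) (h' : Cur f q φ) {a b : ℂ} (hab : ψ a = φ b) :
    range φ ⊆ range ψ := by
  have h1 : ψ a ∈ Wu f p := h.ran ▸ mem_range_self a
  have h2 : φ b ∈ Wu f q := h'.ran ▸ mem_range_self b
  rw [h.ran, h'.ran, Wu_meet h.sad h'.sad h1 (hab ▸ h2)]

/- The backward orbit is bounded; `HD.mem_Kp` for `hd.symm`. -/
theorem Cur.hz (hd : HD f d G H) (h : Cur f q ψ) (z : ℂ) : H (ψ z) = 0 := by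
  have h1 : ψ z ∈ Wu f q := h.ran ▸ mem_range_self z
  obtain ⟨R, hR⟩ := (hd.symm.mem_Kp q).2 (saddle_G hd.symm (saddle_inv hd h.sad))
  obtain ⟨B, hB⟩ := Tendsto.bddAbove_range h1
  refine (hd.symm.mem_Kp _).1 ⟨R + B, fun n => ?_⟩
  have h2 : dist ((f⁻¹ ^ n) (ψ z)) ((f⁻¹ ^ n) q) ≤ B := hB (mem_range_self n)
  rw [dist_eq_norm] at h2
  exact (norm_le_norm_add_norm_sub' _ ((f⁻¹ ^ n) q)).trans (add_le_add (hR n) h2)

theorem Par.hz (hd : HD f d G H) (h : Par f ψ) (z : ℂ) : H (ψ z) = 0 := by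
  obtain ⟨q, hq⟩ := h
  exact hq.hz hd z

theorem Par.norm (hd : HD f d G H) (h : Par f ψ) (k : ℤ) {a : ℂ} (ha : a ≠ 0) (b : ℂ) :
    Par f fun z => (f ^ k) (ψ (b + a * z)) := by
  obtain ⟨q, hq⟩ := h
  exact ⟨_, (hq.aff ha b).zpow hd k⟩

/- `saddle_chart`, `Chart.loc` for `f ^ N` and the point `(f ^ (N * j)) z`, `Chart.pow_s`. -/
theorem Cur.loc (hd : HD f d G H) (h : Cur f⁻¹ q σ) : ∃ ε : ℝ, 0 < ε ∧
    ∀ z, (∀ᶠ n : ℕ in atTop, ‖(f ^ n) z - (f ^ n) q‖ ≤ ε) → z ∈ range σ := by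
  have h0 : IsSaddle f q := by simpa using saddle_inv hd.symm h.sad
  obtain ⟨N, ψ', σ', l, m, hN, hc, -, h1⟩ := saddle_chart hd h0
  obtain ⟨ε, hε, h2⟩ := hc.loc (hd.pow hN).df
  refine ⟨ε, hε, fun z hz => ?_⟩
  obtain ⟨j, hj⟩ := eventually_atTop.1 hz
  have h3 : ∀ n : ℕ, ((f ^ N) ^ n) q = q := fun n => by
    have h4 := hc.pow_u n 0
    rwa [mul_zero, hc.u0] at h4
  obtain ⟨t, ht⟩ := h2 (((f ^ N) ^ j) z) fun n => by
    have h4 := hj (N * (n + j)) ((Nat.le_add_left j n).trans (Nat.le_mul_of_pos_left _ hN))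
    rwa [pow_mul, h3, pow_add, Equiv.Perm.mul_apply] at h4
  rw [h.ran, ← h1.ran]
  refine ⟨(m ^ j)⁻¹ * t, ((f ^ N) ^ j).injective ?_⟩
  rw [hc.pow_s, mul_inv_cancel_left₀ (pow_ne_zero j hc.m0), ht]

theorem Sad_front (hd : HD f d G H) (h : IsSaddle f q) : q ∈ frontier (Kp f) := by
  obtain ⟨N, ψ, σ, l, m, hN, hc, h1, -⟩ := saddle_chart hd h
  have hl : l ≠ 0 := norm_pos_iff.1 (zero_lt_one.trans hc.hl)
  obtain ⟨z, hz⟩ := hd.unbdd hc.iu.dif (h1.hz hd) ⟨1, fun e => one_ne_zero (hc.iu.inj e)⟩ 0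
  rw [frontier_eq_closure_inter_closure]
  refine ⟨subset_closure ((hd.mem_Kp q).2 (saddle_G hd h)), ?_⟩
  have h2 : Tendsto (fun n : ℕ => l⁻¹ ^ n * z) atTop (𝓝 (0 * z)) :=
    (tendsto_pow_atTop_nhds_zero_of_norm_lt_one
      (by rw [norm_inv]; exact inv_lt_one_of_one_lt₀ hc.hl)).mul_const z
  have h3 := (hc.iu.dif.continuous.tendsto _).comp h2
  rw [zero_mul, hc.u0] at h3
  refine mem_closure_of_tendsto h3 (Eventually.of_forall fun n e => hz.ne' ?_)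
  have h4 := (hd.pow hN).G_pow n (ψ (l⁻¹ ^ n * z))
  rw [hc.pow_u, inv_pow, mul_inv_cancel_left₀ (pow_ne_zero n hl), ← inv_pow,
    (hd.mem_Kp (ψ (l⁻¹ ^ n * z))).1 e, mul_zero] at h4
  exact h4

/- With the chart of `f ^ N`: `G (ψ z) > 0` for some `z` (`HD.unbdd`), so `G (ψ (z / l ^ n)) > 0` and these
points tend to `q`.  The same for the inverse.  `Jul f` is closed. -/
theorem JS_sub_Jul (hd : HD f d G H) : JS f ⊆ Jul f := by
  exact closure_minimal (fun q hq => ⟨Sad_front hd hq, Sad_front hd.symm (saddle_inv hd hq)⟩)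
    (isClosed_frontier.inter isClosed_frontier)

theorem bdK_aff {g : ℂ → ℝ} {c : ℝ} (hc : c ≠ 0) {a : ℂ} (ha : a ≠ 0) (b z : ℂ) :
    z ∈ bdK (fun z => c * g (b + a * z)) ↔ b + a * z ∈ bdK g := by
  have h1 := ((Homeomorph.mulLeft₀ a ha).trans (Homeomorph.addLeft b)).preimage_frontier
    {z | g z = 0}
  have h2 : {z | c * g (b + a * z) = 0} =
      ((Homeomorph.mulLeft₀ a ha).trans (Homeomorph.addLeft b)) ⁻¹' {z | g z = 0} := by
    ext y
    simp [hc]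
  rw [bdK, h2, ← h1]
  rfl

theorem bdK_zero {g : ℂ → ℝ} (hg : Continuous g) {w : ℂ} (hw : w ∈ bdK g) : g w = 0 := by
  exact (isClosed_eq hg continuous_const).frontier_subset hw

/-- A connected set on which `g` takes the value zero and a nonzero value meets the boundary. -/
theorem exists_bdK {g : ℂ → ℝ} (hg : Continuous g) {S : Set ℂ} (hS : IsPreconnected S) {z z' : ℂ}
    (hz : z ∈ S) (hz' : z' ∈ S) (h0 : g z = 0) (h1 : g z' ≠ 0) : ∃ w ∈ S, w ∈ bdK g := by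
  by_contra hc
  push Not at hc
  have h2 : ∀ w ∈ S, g w = 0 → w ∈ interior {z | g z = 0} := fun w hw e => by
    by_contra h3
    exact hc w hw ⟨subset_closure e, h3⟩
  have h3 := hS.subset_left_of_subset_union isOpen_interior
    (isClosed_eq hg (continuous_const (y := (0 : ℝ)))).isOpen_compl
    (disjoint_compl_right.mono_left interior_subset)
    (fun w hw => (em (g w = 0)).imp (h2 w hw) id) ⟨z, hz, h2 z hz h0⟩
  exact h1 (interior_subset (s := {y | g y = 0}) (h3 hz'))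

theorem DB.aff {g : ℂ → ℝ} {C c : ℝ} (hc : 0 ≤ c) {a : ℂ} (ha : a ≠ 0) {b z : ℂ}
    (h : DB g (b + a * z) C) : DB (fun z => c * g (b + a * z)) z C := by
  intro r₀
  have h0 : 0 < ‖a‖ := norm_pos_iff.2 ha
  obtain ⟨h1, h2⟩ := h (‖a‖ * r₀)
  refine ⟨by simp only [h1, mul_zero], fun r hr hr' => ?_⟩
  have h3 := h2 (‖a‖ * r) (mul_pos h0 hr) (by nlinarith)
  rw [MM_mul hc, MM_mul hc, MM_aff ha, MM_aff ha, mul_left_comm ‖a‖, mul_left_comm C]
  exact mul_le_mul_of_nonneg_left h3 hc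

/-- Normalization at a boundary point (`MM_pos`, `exists_scale`, `MM_mul`, `MM_aff`). -/
theorem exists_norm (hd : HD f d G H) (hψ : Continuous ψ) {w : ℂ} (hw : w ∈ bdK fun z => G (ψ z))
    {a : ℂ} (ha : a ≠ 0) {x : ℝ} (hx : 0 < x) : ∃ k : ℤ,
      x ≤ MM (fun z => G ((f ^ k) (ψ (w + a * z)))) 0 1 ∧
      MM (fun z => G ((f ^ k) (ψ (w + a * z)))) 0 1 < d * x ∧
      MM (fun z => G ((f ^ k) (ψ (w + a * z)))) 0 1 = d ^ k * MM (fun z => G (ψ z)) w ‖a‖ := by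
  have hM : 0 < MM (fun z => G (ψ z)) w ‖a‖ :=
    MM_pos (hd.cG.comp hψ).continuousOn (fun z => hd.nG _) hw (norm_pos_iff.2 ha)
  obtain ⟨k, h1, h2⟩ := exists_scale hd.hd (div_pos hM hx)
  have e : MM (fun z => G ((f ^ k) (ψ (w + a * z)))) 0 1 = d ^ k * MM (fun z => G (ψ z)) w ‖a‖ := by
    simp only [hd.G_zpow]
    rw [MM_mul (zpow_pos (zero_lt_one.trans hd.hd) k).le, MM_aff (g := fun z => G (ψ z)) ha,
      mul_zero, add_zero, mul_one]
  rw [← mul_div_assoc] at h1 h2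
  refine ⟨k, ?_, ?_, e⟩
  · rw [e]
    exact (one_le_div hx).1 h1
  · rw [e]
    exact (div_lt_iff₀ hx).1 h2

/-- Curves with doubling and a bounded maximum on a disc are bounded on all discs
(`DBl.pow`, `HD.bdd`). -/
theorem HD.db_bdd (hd : HD f d G H) {C : ℝ} (hC : 0 ≤ C) (x R : ℝ) {r : ℝ} (hr : 0 < r) :
    ∃ B : ℝ, ∀ ψ : ℂ → ℂ × ℂ, Continuous ψ → (∀ z, H (ψ z) = 0) → DB (fun z => G (ψ z)) 0 C →
      MM (fun z => G (ψ z)) 0 r ≤ x → ∀ z, ‖z‖ ≤ R → ‖ψ z‖ ≤ B := by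
  obtain ⟨k, hk⟩ := pow_unbounded_of_one_lt (R / r) (by norm_num : (1 : ℝ) < 2)
  rw [div_lt_iff₀ hr] at hk
  obtain ⟨B, hB⟩ := hd.bdd (C ^ k * x)
  refine ⟨B, fun ψ hψ h1 h2 h3 z hz => hB _ (h1 z) ?_⟩
  have h4 : G (ψ z) ≤ MM (fun z => G (ψ z)) 0 (2 ^ k * r) :=
    le_MM (g := fun z => G (ψ z)) (hd.cG.comp hψ).continuousOn
      (mem_closedBall_zero_iff.2 (hz.trans hk.le))
  exact h4.trans (((h2 (2 ^ k * r)).pow hC hr k le_rfl).trans
    (mul_le_mul_of_nonneg_left h3 (pow_nonneg hC k)))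

end Pool.Agent.Lib.MP_7b5e47_an.Hq
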