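import Pool.Agent.Lib.MP_7b5e47_an.Hq.ACh
import Pool.Agent.Lib.MP_7b5e47_an.Hq.AHop
import Pool.Agent.Lib.MP_7b5e47_an.Hq.Sad
import Pool.Agent.Lib.MP_7b5e47_an.Hq.Ann

/-! The blow up at the two base points. -/

namespace Pool.Agent.Lib.MP_7b5e47_an.Hq

open Set Metric Filter Topology InnerProductSpace

variable {f : Equiv.Perm (ℂ × ℂ)} {d C ε ρ₀ : ℝ} {G H : ℂ × ℂ → ℝ} {ψ₀ ψ₁ : ℂ → ℂ × ℂ} {b v b₀ : ℂ}
  {W : Set ℂ} {η : ℂ → ℂ}

/-- Nodes at the scale adapted to the time `N`. -/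
structure Nod (d C : ℝ) (g : ℂ → ℝ) (b v : ℂ) (W : Set ℂ) (η : ℂ → ℂ) (a : ℕ → ℂ) : Prop where
  mem : ∀ N, a N ∈ W
  l0 : Tendsto (fun N => ‖a N - b‖) atTop (𝓝 0)
  l1 : Tendsto (fun N => ‖η (a N) - v‖) atTop (𝓝 0)
  lo : ∀ᶠ N : ℕ in atTop, 1 / C ^ 2 ≤ d ^ N * MM g v ‖η (a N) - v‖
  up : ∀ᶠ N : ℕ in atTop, d ^ N * MM g v ‖η (a N) - v‖ ≤ 1

theorem ABlo_rat {p p' q q' : ℂ} {e s : ℝ} (hp : p ≠ 0) (hq : q ≠ 0)
    (h : ‖p' / p - q' / q‖ ≤ e) (hs : ‖q'‖ = s * ‖q‖) :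
    ‖p'‖ ≤ (s + e) * ‖p‖ ∧ (s - e) * ‖p‖ ≤ ‖p'‖ := by
  have h1 := abs_le.1 ((abs_norm_sub_norm_le _ _).trans h)
  rw [norm_div, norm_div, hs, mul_div_cancel_right₀ _ (norm_ne_zero_iff.2 hq)] at h1
  have h2 := norm_pos_iff.2 hp
  exact ⟨(div_le_iff₀ h2).1 (by linarith [h1.2]), (le_div_iff₀ h2).1 (by linarith [h1.1])⟩

/-- The rescaled curves. -/
theorem ABlo_sc (hd : HD f d G H) {ψ : ℂ → ℂ × ℂ} (h1 : Differentiable ℂ ψ) (h2 : ∀ z, H (ψ z) = 0)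
    {w p : ℂ} (h3 : DB (fun z => G (ψ z)) w C) (hp : p ≠ 0) (N : ℕ) :
    Differentiable ℂ (fun ζ => (f ^ N) (ψ (w + p * ζ))) ∧ (∀ ζ, H ((f ^ N) (ψ (w + p * ζ))) = 0) ∧
      DB (fun ζ => G ((f ^ N) (ψ (w + p * ζ)))) 0 C ∧
      ∀ r, MM (fun ζ => G ((f ^ N) (ψ (w + p * ζ)))) 0 r =
        d ^ N * MM (fun z => G (ψ z)) w (‖p‖ * r) := by
  have h0 : 0 < d ^ N := pow_pos (zero_lt_one.trans hd.hd) N
  refine ⟨(dif_pow hd.df N).comp (h1.comp (by fun_prop)), fun ζ => ?_, ?_, fun r => ?_⟩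
  · exact (mul_eq_zero.1 ((hd.H_pow N _).trans (h2 _))).resolve_left h0.ne'
  · simp only [hd.G_pow]
    exact DB.aff (g := fun z => G (ψ z)) h0.le hp (by simpa using h3)
  · simp only [hd.G_pow]
    rw [MM_mul h0.le, MM_aff (g := fun z => G (ψ z)) hp, mul_zero, add_zero]

theorem ABlo_harm {g : ℂ → ℝ} {φ : ℂ → ℂ} {z : ℂ} (hφ : AnalyticAt ℂ φ z)
    (hg : HarmonicAt g (φ z)) : HarmonicAt (fun w => g (φ w)) z := by
  obtain ⟨r, hr, h1⟩ := Metric.eventually_nhds_iff_ball.1 hg.eventually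
  obtain ⟨F, h2, h3⟩ := HarmonicOnNhd.exists_analyticOnNhd_ball_re_eq (f := g) h1
  refine (harmonicAt_congr_nhds ?_).1 ((h2 _ (mem_ball_self hr)).comp hφ).harmonicAt_re
  filter_upwards [hφ.continuousAt (ball_mem_nhds _ hr)] with w hw
  exact h3 hw

theorem ABlo_sub {X : Type} [UniformSpace X] {F : ℕ → ℂ → X} {Ψ : ℂ → X} {O : Set ℂ}
    (h : TendstoLocallyUniformlyOn F Ψ atTop O) {φ : ℕ → ℕ} (hφ : Tendsto φ atTop atTop) :
    TendstoLocallyUniformlyOn (fun j => F (φ j)) Ψ atTop O := fun u hu x hx =>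
  (h u hu x hx).imp fun _ ht => ⟨ht.1, hφ.eventually ht.2⟩

theorem ABlo_lim {X : Type} [UniformSpace X] {F : ℕ → ℂ → X} {Ψ : ℂ → X}
    (hΨ : ContinuousOn Ψ (ball 0 4)) (h : TendstoLocallyUniformlyOn F Ψ atTop (ball 0 4))
    {ζ : ℕ → ℂ} {x : ℂ} (hx : ‖x‖ < 4) (hζ : Tendsto ζ atTop (𝓝 x)) :
    Tendsto (fun j => F j (ζ j)) atTop (𝓝 (Ψ x)) := by
  have h1 : x ∈ ball (0 : ℂ) 4 := mem_ball_zero_iff.2 hx
  refine h.tendsto_comp (hΨ x h1) h1 ?_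
  rwa [isOpen_ball.nhdsWithin_eq h1]

/- Let `e k ∈ W` with `‖e k - b‖ = ρ₀ / 2 ^ k`, `p k = η (e k) - v`; `rat` gives
`‖p k‖ / 4 ≤ ‖p (k + 1)‖ ≤ 3 ‖p k‖ / 4`.  `x k = MM g v ‖p k‖` is positive (the closed ball meets `ball b₀ ‖v - b₀‖`), tends to
`g v = 0` (`MM_continuousOn`, `MM_zero`), and `x k ≤ C ^ 2 * x (k + 1)` (`DBl.pow`, `MM_mono`).  Let `k N` be the least `k` with
`d ^ N * x k ≤ 1` (`Nat.find`); `k N → ∞` since each `x k` is positive. -/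
theorem BD.nodes (hd : HD f d G H) (hC : 1 ≤ C) (hε : ε ≤ 1 / 4)
    (h : BD f G H C ε ψ₀ ψ₁ b v b₀ W η ρ₀) : ∃ a, Nod d C (fun z => G (ψ₁ z)) b v W η a := by
  have hg : Continuous fun z => G (ψ₁ z) := hd.cG.comp h.d1.continuous
  have hρ := h.hρ
  choose e he he' using fun k : ℕ => h.cir (ρ₀ / 2 ^ k)
    ⟨by positivity, div_le_self hρ.le (one_le_pow₀ one_le_two)⟩
  have hp0 : ∀ k, η (e k) - v ≠ 0 := fun k => sub_ne_zero.2 (h.nb _ (he k)).2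
  have hr : ∀ k, ‖η (e (k + 1)) - v‖ ≤ 3 / 4 * ‖η (e k) - v‖ ∧
      ‖η (e k) - v‖ ≤ 2 ^ 2 * ‖η (e (k + 1)) - v‖ := fun k => by
    have h1 : ‖e (k + 1) - b‖ = 1 / 2 * ‖e k - b‖ := by
      rw [he', he', pow_succ]
      ring
    have h2 := ABlo_rat (hp0 k) (sub_ne_zero.2 (h.nb _ (he k)).1) ((h.rat _ (he k) _ (he (k + 1))
      (by linarith [norm_nonneg (e k - b)])).trans hε) h1
    exact ⟨by linarith [h2.1], by linarith [h2.2]⟩
  have hp1 : Tendsto (fun k => ‖η (e k) - v‖) atTop (𝓝 0) := by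
    have h1 : ∀ k, ‖η (e k) - v‖ ≤ (3 / 4) ^ k * ‖η (e 0) - v‖ := fun k => by
      induction k with
      | zero => simp
      | succ k ih =>
        rw [pow_succ', mul_assoc]
        linarith [(hr k).1]
    refine squeeze_zero (fun _ => norm_nonneg _) h1 ?_
    simpa using (tendsto_pow_atTop_nhds_zero_of_lt_one (by norm_num : (0 : ℝ) ≤ 3 / 4)
      (by norm_num)).mul_const ‖η (e 0) - v‖
  obtain ⟨x, hx⟩ : ∃ x : ℕ → ℝ, ∀ k, x k = MM (fun z => G (ψ₁ z)) v ‖η (e k) - v‖ :=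
    ⟨_, fun _ => rfl⟩
  have hx0 : ∀ k, 0 < x k := fun k => by
    have h1 : v ∈ closure (ball b₀ ‖v - b₀‖) := by
      rw [closure_ball _ (norm_ne_zero_iff.2 (sub_ne_zero.2 h.ne)), mem_closedBall, dist_eq_norm]
    obtain ⟨z, h2, h3⟩ := Metric.mem_closure_iff.1 h1 _ (norm_pos_iff.2 (hp0 k))
    rw [hx]
    exact (h.pos z h2).trans_le (le_MM (g := fun z => G (ψ₁ z)) hg.continuousOn
      (mem_closedBall'.2 h3.le))
  have hx1 : Tendsto x atTop (𝓝 0) := by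
    choose z hz hz' using fun k => exists_MM (w := v) hg.continuousOn (norm_nonneg (η (e k) - v))
    have h1 : Tendsto z atTop (𝓝 v) :=
      tendsto_iff_dist_tendsto_zero.2 (squeeze_zero (fun _ => dist_nonneg) hz hp1)
    have h2 := (hg.tendsto v).comp h1
    rw [show G (ψ₁ v) = 0 from (h.db1 0).1] at h2
    exact h2.congr fun k => (hz' k).trans (hx k).symm
  have hx2 : ∀ k, x k ≤ C ^ 2 * x (k + 1) := fun k => by
    rw [hx, hx]
    exact (MM_mono hg.continuousOn (norm_nonneg _) (closedBall_subset_closedBall (hr k).2)).trans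
      ((h.db1 _).pow (zero_le_one.trans hC) (norm_pos_iff.2 (hp0 _)) 2 le_rfl)
  have hex : ∀ N : ℕ, ∃ k, d ^ N * x k ≤ 1 := fun N => by
    have h1 := hx1.const_mul (d ^ N)
    rw [mul_zero] at h1
    exact (h1.eventually (ge_mem_nhds one_pos)).exists
  have hk : Tendsto (fun N => Nat.find (hex N)) atTop atTop := by
    refine tendsto_atTop.2 fun K => ?_
    have h1 : ∀ᶠ N : ℕ in atTop, ∀ j ∈ Finset.range K, 1 < d ^ N * x j :=
      (Finset.eventually_all _).2 fun j _ =>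
        ((tendsto_pow_atTop_atTop_of_one_lt hd.hd).atTop_mul_const (hx0 j)).eventually_gt_atTop 1
    filter_upwards [h1] with N hN
    exact (Nat.le_find_iff _ _).2 fun j hj => not_le.2 (hN j (Finset.mem_range.2 hj))
  refine ⟨fun N => e (Nat.find (hex N)), fun N => he _, ?_, hp1.comp hk, ?_,
    Eventually.of_forall fun N => hx _ ▸ Nat.find_spec (hex N)⟩
  · have h1 : Tendsto (fun k => ‖e k - b‖) atTop (𝓝 0) := by
      simp only [he']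
      exact tendsto_const_nhds.div_atTop (tendsto_pow_atTop_atTop_of_one_lt one_lt_two)
    exact h1.comp hk
  · filter_upwards [hk.eventually_gt_atTop 0] with N hN
    obtain ⟨j, hj⟩ := Nat.exists_eq_succ_of_ne_zero hN.ne'
    have h1 := not_le.1 (Nat.find_min (hex N) (hj ▸ Nat.lt_succ_self j))
    have h2 := mul_le_mul_of_nonneg_left (hx2 j) (pow_pos (zero_lt_one.trans hd.hd) N).le
    rw [← hx, hj, div_le_iff₀ (by positivity)]
    linarith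

/- Let `B₁` from `HD.db_bdd` (`x = 1`, `r = 1`, `R = 2`), `r₀` from `proper_circle`, and `η₀ = ε₀ ≤ 1 / 4` with
`4 B₁ ε₀ ≤ r₀ / 2`.  Put `q = a N - b`, `p = η (a N) - v`, `Ψ₁ ζ = (f ^ N) (ψ₁ (v + p ζ))`, bounded by `B₁` on `ball 0 2`
(`DB.aff`, `MM_aff`, `HD.G_pow`, `HD.H_pow`), so `‖Ψ₁ ζ - Ψ₁ 0‖ ≤ B₁ ‖ζ‖` (Schwarz).  If the bound fails there is `t ∈ (0, η₀)` with
`d ^ N * MM g₀ b (t ‖q‖) = 1` (intermediate values); `Φ ζ = (f ^ N) (ψ₀ (b + t q ζ))` satisfies the hypotheses of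
`proper_circle`, giving `s ∈ [1 / 2, 1]`.  Take `a' ∈ W` with `‖a' - b‖ = s t ‖q‖`; `ζ₀ = (a' - b) / (t q)` has norm `s`,
`ζ₁ = (η a' - v) / p` has norm at most `η₀ + ε₀`, and `r₀ ≤ ‖Φ ζ₀ - Φ 0‖ ≤ 2 δ + ‖Ψ₁ ζ₁ - Ψ₁ 0‖` with `δ = r₀ / 8` (`asy`). -/
theorem blow_bound (hd : HD f d G H) (hC : 1 ≤ C) : ∃ ε₀ η₀ : ℝ, 0 < ε₀ ∧ 0 < η₀ ∧
    ∀ (ε ρ₀ : ℝ) (ψ₀ ψ₁ : ℂ → ℂ × ℂ) (b v b₀ : ℂ) (W : Set ℂ) (η : ℂ → ℂ) (a : ℕ → ℂ), ε ≤ ε₀ →
      BD f G H C ε ψ₀ ψ₁ b v b₀ W η ρ₀ → Nod d C (fun z => G (ψ₁ z)) b v W η a →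
      ∀ᶠ N : ℕ in atTop, d ^ N * MM (fun z => G (ψ₀ z)) b (η₀ * ‖a N - b‖) ≤ 1 := by
  obtain ⟨B, hB⟩ := hd.db_bdd (zero_le_one.trans hC) 1 2 one_pos
  obtain ⟨r₀, hr₀, hc⟩ := proper_circle hd.gh B
  obtain ⟨e, he0, he1, he2⟩ : ∃ e : ℝ, 0 < e ∧ e ≤ 1 / 2 ∧ |B| * (2 * e) ≤ r₀ / 4 := by
    have h0 := abs_nonneg B
    refine ⟨min (1 / 2) (r₀ / (8 * (|B| + 1))), by positivity, min_le_left _ _, ?_⟩
    have h1 := (le_div_iff₀ (by positivity)).1 (min_le_right (1 / 2) (r₀ / (8 * (|B| + 1))))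
    have h2 : 0 < min (1 / 2) (r₀ / (8 * (|B| + 1))) := by positivity
    nlinarith
  refine ⟨e, e, he0, he0, fun ε ρ₀ ψ₀ ψ₁ b v b₀ W η a hε h hn => ?_⟩
  filter_upwards [hn.up, hn.l0.eventually (ge_mem_nhds h.hρ), h.asy (r₀ / 8) (by positivity)]
    with N h1 h2 h3
  by_contra h4
  have hdN : 0 < d ^ N := pow_pos (zero_lt_one.trans hd.hd) N
  have hq : a N - b ≠ 0 := sub_ne_zero.2 (h.nb _ (hn.mem N)).1
  have hp : η (a N) - v ≠ 0 := sub_ne_zero.2 (h.nb _ (hn.mem N)).2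
  have hq' := norm_pos_iff.2 hq
  have hg : Continuous fun z => G (ψ₀ z) := hd.cG.comp h.d0.continuous
  obtain ⟨τ, hτ, h5⟩ := intermediate_value_Icc (by positivity : 0 ≤ e * ‖a N - b‖)
    (MM_continuousOn (w := b) hg.continuousOn) (show 1 / d ^ N ∈ _ from ⟨by
      rw [MM_zero, show G (ψ₀ b) = 0 from (h.db0 0).1]
      positivity, (div_le_iff₀' hdN).2 (not_le.1 h4).le⟩)
  have hτ0 : 0 < τ := hτ.1.lt_of_ne fun e0 => by
    rw [← e0, MM_zero, show G (ψ₀ b) = 0 from (h.db0 0).1] at h5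
    exact (one_div_pos.2 hdN).ne h5
  have hτ1 : (τ : ℂ) ≠ 0 := Complex.ofReal_ne_zero.2 hτ0.ne'
  have hτ2 : ‖(τ : ℂ)‖ = τ := by rw [Complex.norm_real, Real.norm_of_nonneg hτ0.le]
  obtain ⟨a1, a2, a3, a4⟩ := ABlo_sc hd h.d0 h.h0 h.db0 hτ1 N
  obtain ⟨b1, b2, b3, b4⟩ := ABlo_sc hd h.d1 h.h1 h.db1 hp N
  have a5 := a4 1
  rw [hτ2, mul_one, h5, mul_one_div_cancel hdN.ne'] at a5
  have b5 := hB _ b1.continuous b2 b3 (by rwa [b4, mul_one])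
  obtain ⟨s, hs0, hs1, hs⟩ := hc _ a1.differentiableOn
    (fun ζ hζ => hB _ a1.continuous a2 a3 a5.le ζ (mem_ball_zero_iff.1 hζ).le) (a3 0).1 (by
      obtain ⟨ζ, h6, h7⟩ := exists_MM (w := 0) (hd.cG.comp a1.continuous).continuousOn zero_le_one
      exact ⟨ζ, mem_closedBall_zero_iff.1 h6, (h7.trans a5).ge⟩)
  have h6 : s * τ ≤ e * ‖a N - b‖ := (mul_le_of_le_one_left hτ0.le hs1).trans hτ.2
  have h7 : e * ‖a N - b‖ ≤ ‖a N - b‖ := mul_le_of_le_one_left hq'.le (by linarith)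
  obtain ⟨a', ha', h8⟩ := h.cir (s * τ) ⟨by positivity, (h6.trans h7).trans h2⟩
  have h9 := hs ((a' - b) / τ) (by rw [norm_div, h8, hτ2, mul_div_cancel_right₀ _ hτ0.ne'])
  have c1 : ‖(η a' - v) / (η (a N) - v)‖ ≤ 2 * e := by
    have c2 := h.rat _ (hn.mem N) _ ha' (by linarith)
    have c3 : ‖(a' - b) / (a N - b)‖ ≤ e := by
      rw [norm_div, div_le_iff₀ hq', h8]
      exact h6
    linarith [norm_le_norm_add_norm_sub' ((η a' - v) / (η (a N) - v)) ((a' - b) / (a N - b))]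
  have c4 := Complex.dist_le_div_mul_dist_of_mapsTo_ball (c := 0) (R₁ := 2) (R₂ := |B| * 2)
    (z := (η a' - v) / (η (a N) - v)) b1.differentiableOn (fun ζ hζ => by
      rw [mem_closedBall, dist_eq_norm]
      refine (norm_sub_le _ _).trans ?_
      linarith [b5 ζ (mem_ball_zero_iff.1 hζ).le, b5 0 (by simp), le_abs_self B])
    (mem_ball_zero_iff.2 (lt_of_le_of_lt ?_ one_lt_two))
  · simp only [mul_div_cancel₀ _ hp, mul_div_cancel₀ _ hτ1, add_sub_cancel, mul_zero, add_zero,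
      dist_eq_norm, sub_zero] at c4 h9
    have c5 := mul_le_mul_of_nonneg_left c1 (abs_nonneg B)
    have c6 := h3.2 a' ha'
    have c7 := norm_sub_le_norm_sub_add_norm_sub ((f ^ N) (ψ₀ a')) ((f ^ N) (ψ₁ (η a')))
      ((f ^ N) (ψ₀ b))
    have c8 := norm_sub_le_norm_sub_add_norm_sub ((f ^ N) (ψ₁ (η a'))) ((f ^ N) (ψ₁ v))
      ((f ^ N) (ψ₀ b))
    rw [norm_sub_rev ((f ^ N) (ψ₁ v))] at c8
    linarith [h3.1]
  · linarith

/- `‖v + p ζ - b₀‖ ^ 2 = D ^ 2 - 2 D ‖p‖ re (ζ conj θ') + ‖p‖ ^ 2 ‖ζ‖ ^ 2` with `D = ‖v - b₀‖`, `θ' = dir b₀ v (v + p)`. -/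
theorem half_iff {p ζ : ℂ} (hv : v ≠ b₀) (hp : p ≠ 0) :
    ‖v + p * ζ - b₀‖ ^ 2 = ‖v - b₀‖ ^ 2 -
      2 * ‖v - b₀‖ * ‖p‖ * (ζ * (starRingEnd ℂ) (dir b₀ v (v + p))).re + ‖p‖ ^ 2 * ‖ζ‖ ^ 2 := by
  have h1 : (‖b₀ - v‖ : ℂ) ≠ 0 :=
    Complex.ofReal_ne_zero.2 (norm_ne_zero_iff.2 (sub_ne_zero.2 hv.symm))
  have h2 : (starRingEnd ℂ) p ≠ 0 := (map_ne_zero _).2 hp
  have h3 : (‖p‖ : ℂ) * ‖p‖ = p * (starRingEnd ℂ) p := by
    rw [Complex.mul_conj, Complex.normSq_eq_norm_sq, sq, Complex.ofReal_mul]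
  have h4 : ((‖v - b₀‖ * ‖p‖ : ℝ) : ℂ) * (ζ * (starRingEnd ℂ) (dir b₀ v (v + p))) =
      -(p * ζ * (starRingEnd ℂ) (v - b₀)) := by
    rw [dir, add_sub_cancel_left, norm_sub_rev v, ← neg_sub v b₀, map_mul, map_div₀, map_div₀,
      Complex.conj_ofReal, Complex.conj_ofReal, map_neg, neg_sub, Complex.ofReal_mul]
    field_simp
    linear_combination (-(ζ * (starRingEnd ℂ) (v - b₀))) * h3
  have h5 := congrArg Complex.re h4
  rw [Complex.re_ofReal_mul, Complex.neg_re] at h5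
  rw [show v + p * ζ - b₀ = p * ζ + (v - b₀) by ring, Complex.sq_norm, Complex.normSq_add,
    Complex.normSq_eq_norm_sq, Complex.normSq_eq_norm_sq, norm_mul]
  linear_combination 2 * h5

/- Let `u j ζ = k j * g (v + p j * ζ)`.  On compact subsets of the convex open set `O` of the `ζ ∈ ball 0 4` with
`0 < re (ζ conj θ)` the points `v + p j * ζ` are eventually in `ball b₀ ‖v - b₀‖` (`half_iff`), so `u j` is harmonic
there.  If `u` vanishes at a point of `O` it vanishes on `O` (`lim0'`) and at all `ζ` with `‖ζ‖ ≤ 1`, `0 ≤ re (ζ conj θ)`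
(limits of `ζ + s θ`).  By `hopf` with `τ = ‖p j‖`, `c ≤ u j (ζ j) ≤ u j (ζ' j) + C * u j (θ j)` with `‖ζ' j‖ ≤ 1`,
`0 ≤ re (ζ' j * conj (θ j))` (`half_iff`, `dir_mul`); pass to a convergent subsequence of `ζ' j`. -/
theorem half_pos {g : ℂ → ℝ} (hg : Continuous g) (h0 : ∀ z, 0 ≤ g z)
    (hh : ∀ z, 0 < g z → HarmonicAt g z) (hv : v ≠ b₀) (hp : ∀ z ∈ ball b₀ ‖v - b₀‖, 0 < g z)
    {p : ℕ → ℂ} {k : ℕ → ℝ} (hp0 : ∀ j, p j ≠ 0) (hk : ∀ j, 0 < k j)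
    (hl : Tendsto (fun j => ‖p j‖) atTop (𝓝 0)) {θ : ℂ}
    (hθ : Tendsto (fun j => dir b₀ v (v + p j)) atTop (𝓝 θ)) {u : ℂ → ℝ}
    (hu : TendstoLocallyUniformlyOn (fun j ζ => k j * g (v + p j * ζ)) u atTop (ball 0 4))
    {c : ℝ} (hc : 0 < c) (hlo : ∀ᶠ j in atTop, c ≤ k j * MM g v ‖p j‖) :
    ∀ ζ ∈ ball (0 : ℂ) 4, 0 < (ζ * (starRingEnd ℂ) θ).re → 0 < u ζ := by
  intro ζ₀ hζ₀ hre
  by_contra hne
  have hD : 0 < ‖v - b₀‖ := norm_pos_iff.2 (sub_ne_zero.2 hv)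
  have hv' : ∀ j, v + p j ≠ v := fun j e => hp0 j (add_eq_left.1 e)
  have hθ1 : ‖θ‖ = 1 := tendsto_nhds_unique hθ.norm
    (tendsto_const_nhds.congr fun j => (norm_dir hv (hv' j)).symm)
  have hc' : ContinuousOn u (ball 0 4) := hu.continuousOn (Frequently.of_forall fun j => by fun_prop)
  have hu0 : ∀ ζ ∈ ball (0 : ℂ) 4, 0 ≤ u ζ := fun ζ hζ =>
    ge_of_tendsto' (hu.tendsto_at hζ) fun j => mul_nonneg (hk j).le (h0 _)
  obtain ⟨O, hO⟩ : ∃ O : Set ℂ, O = ball 0 4 ∩ {ζ | 0 < (ζ * (starRingEnd ℂ) θ).re} := ⟨_, rfl⟩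
  have hO1 : O ⊆ ball 0 4 := hO ▸ inter_subset_left
  have hz : ∀ ζ ∈ O, u ζ = 0 := by
    refine lim0' (hO ▸ isOpen_ball.inter (isOpen_lt continuous_const (by fun_prop)))
      (hO ▸ ((convex_ball _ _).inter (convex_halfSpace_gt (𝕜 := ℝ) ⟨fun x y => by
        rw [add_mul, Complex.add_re], fun x y => by
        rw [smul_mul_assoc, Complex.smul_re]⟩ 0)).isPreconnected) (hc'.mono hO1)
      (fun z hz => hu0 z (hO1 hz)) (hu.mono hO1) (fun K hK hK' => ?_) (c := ζ₀) (hO ▸ ⟨hζ₀, hre⟩)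
      (le_antisymm (not_lt.1 hne) (hu0 _ hζ₀))
    have h1 := hK'.eventually_forall_of_forall_eventually (x₀ := ((0 : ℝ), θ))
      (P := fun x ζ => x.1 * ‖ζ‖ ^ 2 < 2 * ‖v - b₀‖ * (ζ * (starRingEnd ℂ) x.2).re) fun y hy =>
        ContinuousAt.eventually_lt (by fun_prop) (by fun_prop) (by
          have h2 : 0 < (y * (starRingEnd ℂ) θ).re := (hO ▸ hK hy).2
          simp only [zero_mul]
          positivity)
    filter_upwards [(hl.prodMk_nhds hθ).eventually h1] with j hj z hz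
    have h2 := mul_lt_mul_of_pos_left (hj z hz) (norm_pos_iff.2 (hp0 j))
    have h3 := half_iff (ζ := z) hv (hp0 j)
    have h4 : v + p j * z ∈ ball b₀ ‖v - b₀‖ := by
      rw [mem_ball, dist_eq_norm]
      exact lt_of_pow_lt_pow_left₀ 2 hD.le (by linarith)
    exact (ABlo_harm (φ := fun ζ => v + p j * ζ) (by fun_prop) (hh _ (hp _ h4))).const_smul
  have hz' : ∀ ζ : ℂ, ‖ζ‖ ≤ 1 → 0 ≤ (ζ * (starRingEnd ℂ) θ).re → u ζ = 0 := fun ζ h1 h2 => by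
    have h3 : Tendsto (fun s : ℝ => ζ + s * θ) (𝓝[>] 0) (𝓝 ζ) :=
      (Continuous.tendsto' (by fun_prop) 0 ζ (by simp)).mono_left nhdsWithin_le_nhds
    have h4 := (hc'.continuousAt (isOpen_ball.mem_nhds (mem_ball_zero_iff.2
      (h1.trans_lt (by norm_num))))).tendsto.comp h3
    refine tendsto_nhds_unique h4 (tendsto_const_nhds.congr' ?_)
    filter_upwards [Ioo_mem_nhdsGT one_pos] with s hs
    refine (hz _ (hO ▸ ⟨mem_ball_zero_iff.2 ((norm_add_le _ _).trans_lt ?_), ?_⟩)).symm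
    · rw [norm_mul, hθ1, Complex.norm_real, Real.norm_of_nonneg hs.1.le]
      linarith [hs.2]
    · show 0 < ((ζ + s * θ) * (starRingEnd ℂ) θ).re
      rw [add_mul, mul_assoc, Complex.mul_conj, Complex.normSq_eq_norm_sq, hθ1, Complex.add_re,
        ← Complex.ofReal_mul, Complex.ofReal_re]
      linarith [hs.1]
  obtain ⟨A, hA, hf⟩ := hopf hg h0 hh hv hp
  obtain ⟨e, he, he'⟩ : ∃ e : ℝ, 0 < e ∧ 2 * e + A * (2 * e) = c :=
    ⟨c / (2 * (1 + A)), by positivity, by field_simp⟩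
  have h1 := (isCompact_closedBall (0 : ℂ) 1).eventually_forall_of_forall_eventually (x₀ := θ)
    (P := fun x ζ => 0 ≤ (ζ * (starRingEnd ℂ) x).re → u ζ < e) fun y hy => by
      rw [mem_closedBall_zero_iff] at hy
      by_cases h2 : 0 ≤ (y * (starRingEnd ℂ) θ).re
      · have h3 : ContinuousAt (fun z : ℂ × ℂ => u z.2) (θ, y) :=
          ContinuousAt.comp (f := Prod.snd) (hc'.continuousAt (isOpen_ball.mem_nhds
            (mem_ball_zero_iff.2 (hy.trans_lt (by norm_num))))) continuousAt_snd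
        exact (h3.eventually_lt continuousAt_const (by simpa only [hz' y hy h2] using he)).mono
          fun z hz _ => hz
      · exact (ContinuousAt.eventually_lt (f := fun z : ℂ × ℂ => (z.2 * (starRingEnd ℂ) z.1).re)
          (by fun_prop) continuousAt_const (not_le.1 h2)).mono fun z hz h3 => absurd h3 (not_le.2 hz)
  obtain ⟨j, ⟨j1, j2⟩, j3, j4⟩ := (((hθ.eventually h1).and (Metric.tendstoUniformlyOn_iff.1
    (TMon_unif hu (by norm_num : (1 : ℝ) < 4)) e he)).and (hlo.and (hl.eventually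
      (ge_mem_nhds (_root_.half_pos hD))))).exists
  have h2 : ∀ ζ : ℂ, ‖ζ‖ ≤ 1 → 0 ≤ (ζ * (starRingEnd ℂ) (dir b₀ v (v + p j))).re →
      k j * g (v + p j * ζ) < 2 * e := fun ζ h2 h3 => by
    have h4 := j1 ζ (mem_closedBall_zero_iff.2 h2) h3
    have h5 := j2 ζ (mem_closedBall_zero_iff.2 h2)
    rw [Real.dist_eq] at h5
    linarith [(abs_lt.1 h5).1]
  have hpj := norm_pos_iff.2 (hp0 j)
  obtain ⟨z, hz1, hz2⟩ := exists_MM (w := v) hg.continuousOn hpj.le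
  obtain ⟨z', h3, h4, h5⟩ := hf _ hpj.le j4 z (mem_closedBall_iff_norm.1 hz1)
  have h6 : v + p j * ((z' - v) / p j) = z' := by rw [mul_div_cancel₀ _ (hp0 j), add_sub_cancel]
  have h7 := h2 ((z' - v) / p j) (by rwa [norm_div, div_le_one hpj]) (by
    have h7 := half_iff (ζ := (z' - v) / p j) hv (hp0 j)
    rw [h6] at h7
    have h8 := pow_le_pow_left₀ (norm_nonneg _) h3 2
    refine nonneg_of_mul_nonneg_right (a := 2 * ‖v - b₀‖ * ‖p j‖) ?_ (by positivity)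
    linarith [mul_nonneg (sq_nonneg ‖p j‖) (sq_nonneg ‖(z' - v) / p j‖)])
  have h8 := h2 _ (norm_dir hv (hv' j)).le (by
    rw [Complex.mul_conj, Complex.ofReal_re]
    exact Complex.normSq_nonneg _)
  have h9 := dir_mul (b₀ := b₀) (hv' j)
  rw [add_sub_cancel_left, mul_comm, mul_comm _ (‖p j‖ : ℂ)] at h9
  rw [h6] at h7
  rw [h9] at h8
  rw [← hz2] at j3
  nlinarith [mul_le_mul_of_nonneg_left h5 (hk j).le, mul_le_mul_of_nonneg_left h8.le hA]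

/- `BD.nodes`, `blow_bound`; `Ψ₀ N ζ = (f ^ N) (ψ₀ (b + q N * ζ))`, `Ψ₁ N ζ = (f ^ N) (ψ₁ (v + p N * ζ))` are eventually bounded on
`ball 0 4` (`HD.db_bdd` with `r = η₀` and `r = 1`); `montel_ball2` twice and a convergent subsequence of the unit numbers
`dir b₀ v (η (a N))`; `half_pos`, `tluo_comp`; for `pair` take `a' N ∈ W` with `‖a' N - b‖ = r ‖q N‖` and a convergent
subsequence of `((a' N - b) / q N, (η (a' N) - v) / p N)`. -/
theorem blow (hd : HD f d G H) (hC : 1 ≤ C) : ∃ ε₀ B : ℝ, 0 < ε₀ ∧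
    ∀ (ε ρ₀ : ℝ) (ψ₀ ψ₁ : ℂ → ℂ × ℂ) (b v b₀ : ℂ) (W : Set ℂ) (η : ℂ → ℂ), ε ≤ ε₀ →
      BD f G H C ε ψ₀ ψ₁ b v b₀ W η ρ₀ → ∃ Ψ₀ Ψ₁ θ, BL G B (1 / C ^ 2) ε Ψ₀ Ψ₁ θ := by
  obtain ⟨e₀, η₀, he₀, hη₀, hb⟩ := blow_bound hd hC
  obtain ⟨B₀, hB₀⟩ := hd.db_bdd (zero_le_one.trans hC) 1 4 hη₀
  obtain ⟨B₁, hB₁⟩ := hd.db_bdd (zero_le_one.trans hC) 1 4 one_pos
  refine ⟨min e₀ (1 / 4), max B₀ B₁, by positivity, fun ε ρ₀ ψ₀ ψ₁ b v b₀ W η hε h => ?_⟩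
  have hε1 : ε ≤ 1 / 4 := hε.trans (min_le_right _ _)
  obtain ⟨a, hn⟩ := h.nodes hd hC hε1
  have hq : ∀ N, a N - b ≠ 0 := fun N => sub_ne_zero.2 (h.nb _ (hn.mem N)).1
  have hp : ∀ N, η (a N) - v ≠ 0 := fun N => sub_ne_zero.2 (h.nb _ (hn.mem N)).2
  have s0 := fun N => ABlo_sc hd h.d0 h.h0 h.db0 (hq N) N
  have s1 := fun N => ABlo_sc hd h.d1 h.h1 h.db1 (hp N) N
  obtain ⟨φ₁, Ψ₀, m1, d0, b0, l0⟩ := montel_ball2 (c := 0) (r := 4) (B := max B₀ B₁)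
    (F := fun N ζ => (f ^ N) (ψ₀ (b + (a N - b) * ζ))) (by
      filter_upwards [hb ε ρ₀ ψ₀ ψ₁ b v b₀ W η a (hε.trans (min_le_left _ _)) h hn] with N hN
      obtain ⟨a1, a2, a3, a4⟩ := s0 N
      exact ⟨a1.differentiableOn, fun z hz => (hB₀ _ a1.continuous a2 a3
        (by rwa [a4, mul_comm _ η₀]) z (mem_ball_zero_iff.1 hz).le).trans (le_max_left _ _)⟩)
  obtain ⟨φ₂, Ψ₁, m2, d1, b1, l1⟩ := montel_ball2 (c := 0) (r := 4) (B := max B₀ B₁)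
    (F := fun j ζ => (f ^ φ₁ j) (ψ₁ (v + (η (a (φ₁ j)) - v) * ζ))) (by
      filter_upwards [m1.tendsto_atTop.eventually hn.up] with j hN
      obtain ⟨a1, a2, a3, a4⟩ := s1 (φ₁ j)
      exact ⟨a1.differentiableOn, fun z hz => (hB₁ _ a1.continuous a2 a3
        (by rwa [a4, mul_one]) z (mem_ball_zero_iff.1 hz).le).trans (le_max_right _ _)⟩)
  obtain ⟨θ, hθ, φ₃, m3, l2⟩ := (isCompact_sphere (0 : ℂ) 1).tendsto_subseq
    (x := fun j => dir b₀ v (η (a (φ₁ (φ₂ j))))) fun j =>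
      mem_sphere_zero_iff_norm.2 (norm_dir h.ne (h.nb _ (hn.mem _)).2)
  rw [mem_sphere_zero_iff_norm] at hθ
  obtain ⟨φ, hφ, l0, l1, l2⟩ : ∃ φ : ℕ → ℕ, Tendsto φ atTop atTop ∧
      TendstoLocallyUniformlyOn (fun j ζ => (f ^ φ j) (ψ₀ (b + (a (φ j) - b) * ζ))) Ψ₀ atTop
        (ball 0 4) ∧
      TendstoLocallyUniformlyOn (fun j ζ => (f ^ φ j) (ψ₁ (v + (η (a (φ j)) - v) * ζ))) Ψ₁ atTop
        (ball 0 4) ∧ Tendsto (fun j => dir b₀ v (η (a (φ j)))) atTop (𝓝 θ) :=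
    ⟨fun j => φ₁ (φ₂ (φ₃ j)), (m1.comp (m2.comp m3)).tendsto_atTop,
      ABlo_sub l0 (m2.comp m3).tendsto_atTop, ABlo_sub l1 m3.tendsto_atTop, l2⟩
  have g0 := tluo_comp isOpen_ball d0.continuousOn l0 hd.cG
  have g1 := tluo_comp isOpen_ball d1.continuousOn l1 hd.cG
  have c1 : ContinuousOn (fun z => G (Ψ₁ z)) (closedBall 0 1) :=
    (hd.cG.comp_continuousOn d1.continuousOn).mono (closedBall_subset_ball (by norm_num))
  refine ⟨Ψ₀, Ψ₁, θ, d0, d1, b0, b1, hθ, ?_, ?_, ?_, fun x hx => ?_, fun r hr => ?_⟩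
  · exact tendsto_nhds_unique (g1.tendsto_at (mem_ball_self (by norm_num)))
      (tendsto_const_nhds.congr fun j => ((s1 (φ j)).2.2.1 0).1.symm)
  · obtain ⟨ζ, h1, h2⟩ := exists_MM c1 zero_le_one
    refine ⟨ζ, mem_closedBall_zero_iff.1 h1, h2 ▸ le_of_forall_pos_le_add fun e he => ?_⟩
    obtain ⟨j, j1, j2⟩ := ((hφ.eventually hn.lo).and (Metric.tendstoUniformlyOn_iff.1
      (TMon_unif g1 (by norm_num : (1 : ℝ) < 4)) e he)).exists
    have h3 := (s1 (φ j)).2.2.2 1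
    rw [mul_one] at h3
    refine (j1.trans_eq h3.symm).trans (MM_le zero_le_one fun z hz => ?_)
    have h4 := j2 z hz
    rw [Real.dist_eq] at h4
    linarith [(abs_lt.1 h4).1, le_MM c1 hz]
  · refine half_pos (g := fun z => G (ψ₁ z)) (hd.cG.comp h.d1.continuous) (fun z => hd.nG _)
      (fun z hz => hd.hG ψ₁ z (h.d1.analyticAt z) hz) h.ne h.pos (fun j => hp (φ j))
      (fun j => pow_pos (zero_lt_one.trans hd.hd) (φ j)) (hn.l1.comp hφ)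
      (by simpa only [add_sub_cancel] using l2) (by simpa only [hd.G_pow] using g1)
      (by positivity) (hφ.eventually hn.lo)
  · refine tendsto_nhds_unique (ABlo_lim (hd.cG.comp_continuousOn d0.continuousOn) g0 ?_
      (l2.const_mul (x : ℂ))) (tendsto_const_nhds.congr fun j => ?_)
    · rw [norm_mul, hθ, Complex.norm_real, Real.norm_of_nonneg (zero_le_one.trans hx.1)]
      linarith [hx.2]
    · rw [hd.G_pow, mul_left_comm (a (φ j) - b), ← mul_assoc (x : ℂ), h.cone _ (hn.mem _) x hx,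
        mul_zero]
  · have hex : ∀ j, ∃ a' ∈ W, ‖a (φ j) - b‖ ≤ ρ₀ / 2 → ‖a' - b‖ = r * ‖a (φ j) - b‖ := fun j => by
      by_cases hj : ‖a (φ j) - b‖ ≤ ρ₀ / 2
      · have h1 := norm_pos_iff.2 (hq (φ j))
        obtain ⟨a', h2, h3⟩ := h.cir (r * ‖a (φ j) - b‖)
          ⟨mul_pos (zero_lt_one.trans_le hr.1) h1, by nlinarith [hr.2]⟩
        exact ⟨a', h2, fun _ => h3⟩
      · exact ⟨_, hn.mem 0, fun h1 => absurd h1 hj⟩
    choose a' ha' ha'' using hex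
    obtain ⟨⟨ζ₀, w⟩, ⟨h1, h2⟩, μ, m4, l3⟩ :=
      ((isCompact_sphere (0 : ℂ) r).prod (isCompact_closedBall (0 : ℂ) ε)).tendsto_subseq'
      (x := fun j => ((a' j - b) / (a (φ j) - b),
        (η (a' j) - v) / (η (a (φ j)) - v) - (a' j - b) / (a (φ j) - b))) (Eventually.frequently (by
      filter_upwards [(hn.l0.comp hφ).eventually (ge_mem_nhds (_root_.half_pos h.hρ))] with j hj
      have h1 := ha'' j hj
      have h2 := norm_pos_iff.2 (hq (φ j))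
      refine ⟨mem_sphere_zero_iff_norm.2 ?_, mem_closedBall_zero_iff.2
        (h.rat _ (hn.mem _) _ (ha' j) (by nlinarith [hr.2]))⟩
      rw [norm_div, h1, mul_div_cancel_right₀ _ h2.ne']))
    rw [mem_sphere_zero_iff_norm] at h1
    rw [mem_closedBall_zero_iff] at h2
    simp only at h1 h2
    have t0 := ABlo_lim d0.continuousOn (ABlo_sub l0 m4.tendsto_atTop) (x := ζ₀)
      (by linarith [hr.2]) l3.fst_nhds
    have t1 := ABlo_lim d1.continuousOn (ABlo_sub l1 m4.tendsto_atTop) (x := ζ₀ + w)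
      (by linarith [hr.2, norm_add_le ζ₀ w]) (l3.fst_nhds.add l3.snd_nhds)
    simp only [Function.comp, add_sub_cancel, mul_div_cancel₀ _ (hp _), mul_div_cancel₀ _ (hq _)]
      at t0 t1
    refine ⟨ζ₀, ζ₀ + w, h1, by rwa [add_sub_cancel_left], sub_eq_zero.1 (norm_le_zero_iff.1
      (le_of_forall_pos_le_add fun δ hδ => ?_))⟩
    rw [zero_add]
    refine le_of_tendsto (t0.sub t1).norm ?_
    filter_upwards [(hφ.comp m4.tendsto_atTop).eventually (h.asy δ hδ)] with j hj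
    exact hj.2 _ (ha' _)

end Pool.Agent.Lib.MP_7b5e47_an.Hq
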