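import Pool.Agent.Lib.MP_7b5e47_an.Hq.ADef

/-! A chain of cones in the plane. -/

namespace Pool.Agent.Lib.MP_7b5e47_an.Hq

open Set Metric Filter Topology

theorem norm_dir {b₀ v η : ℂ} (h : v ≠ b₀) (h' : η ≠ v) : ‖dir b₀ v η‖ = 1 := by
  simp [dir, sub_ne_zero.2 h.symm, sub_ne_zero.2 h']

theorem dir_mul {b₀ v η : ℂ} (h' : η ≠ v) :
    dir b₀ v η * (η - v) = (b₀ - v) / (‖b₀ - v‖ : ℂ) * (‖η - v‖ : ℂ) := by
  rw [dir, mul_assoc, div_mul_cancel₀ _ (sub_ne_zero.2 h')]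

/-- A connected set which meets an open set and not its frontier lies in it. -/
theorem sub_of_disjoint_frontier {Ω S : Set ℂ} (hΩ : IsOpen Ω) (hS : IsPreconnected S)
    (h : ∀ z ∈ S, z ∉ frontier Ω) {z : ℂ} (hz : z ∈ S) (hz' : z ∈ Ω) : S ⊆ Ω := by
  refine hS.subset_of_closure_inter_subset hΩ ⟨z, hz, hz'⟩ fun w hw => by_contra fun e => ?_
  exact h w hw.2 (hΩ.frontier_eq ▸ ⟨hw.1, e⟩)

/-- The hypotheses of the chain lemma. -/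
structure CH (Ω : Set ℂ) (b₀ b v : ℂ) (d₀ : ℝ) (η : ℂ → ℂ) : Prop where
  opn : IsOpen Ω
  pos : 0 < d₀
  one : d₀ ≤ 1
  ball : ball b₀ d₀ ⊆ Ω
  hv : |‖v - b₀‖ - d₀| ≤ d₀ / 1000
  hb : ‖b - v‖ ≤ d₀ / 1000
  cir : ∀ a ∈ frontier Ω, ∀ r ∈ Ioo (0 : ℝ) 1, ∃ a' ∈ frontier Ω, ‖a' - a‖ = r
  hη : ∀ a ∈ frontier Ω, ‖a - b‖ ≤ d₀ → a ≠ b →
    ‖η a - a‖ ≤ d₀ / 1000 ∧ η a ≠ v ∧ ‖v - b₀‖ ≤ ‖η a - b₀‖
  rat : ∀ a ∈ frontier Ω, ∀ a' ∈ frontier Ω, ‖a - b‖ ≤ d₀ → ‖a' - b‖ ≤ d₀ → a ≠ b → a' ≠ b →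
    ‖a' - b‖ ≤ 8 * ‖a - b‖ → ‖(η a' - v) / (η a - v) - (a' - b) / (a - b)‖ ≤ 1 / 16

variable {Ω : Set ℂ} {b₀ b v : ℂ} {d₀ : ℝ} {η : ℂ → ℂ}

theorem ACh_ne (h : CH Ω b₀ b v d₀ η) : v ≠ b₀ := fun e => by
  have h1 := (abs_le.1 h.hv).1
  rw [e, sub_self, norm_zero] at h1
  linarith [h.pos]

theorem ACh_pq (h : CH Ω b₀ b v d₀ η) {a : ℂ} (ha : a ∈ frontier Ω) (hab : a ≠ b)
    (hd : ‖a - b‖ ≤ d₀) : ‖η a - v - (a - b)‖ ≤ d₀ / 500 := by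
  rw [show η a - v - (a - b) = (η a - a) + (b - v) by ring]
  linarith [norm_add_le (η a - a) (b - v), (h.hη a ha hd hab).1, h.hb]

theorem ACh_pt {y : ℂ} (h : v ≠ b₀) (h' : y ≠ v) {x : ℝ} (hx : x * ‖y - v‖ ≤ ‖v - b₀‖) :
    ‖v + x * (dir b₀ v y * (y - v)) - b₀‖ = ‖v - b₀‖ - x * ‖y - v‖ := by
  have h1 : ‖v - b₀‖ ≠ 0 := norm_ne_zero_iff.2 (sub_ne_zero.2 h)
  have h2 : v + x * (dir b₀ v y * (y - v)) - b₀ =
      (v - b₀) / (‖v - b₀‖ : ℂ) * ((‖v - b₀‖ - x * ‖y - v‖ : ℝ) : ℂ) := by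
    have := Complex.ofReal_ne_zero.2 h1
    rw [dir_mul h', norm_sub_rev b₀]
    push_cast
    field_simp
    ring
  rw [h2, norm_mul, norm_div, Complex.norm_real, norm_norm, div_self h1, one_mul,
    Complex.norm_real, Real.norm_of_nonneg (sub_nonneg.2 hx)]

/- Write `q = a - b`, `p = η a - v`, `θ = dir b₀ v (η a)`, `e = (b₀ - v) / ‖b₀ - v‖`, `θ p = e ‖p‖`.  If `a'` is in the frontier
and in the ball then `a' ≠ b`, `‖a' - b‖ ≤ 6 ‖q‖`, `‖(a' - b) / q - x θ‖ < x / 2`, so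
`‖η a' - v - x e ‖p‖‖ < (x / 2 + 1 / 16) ‖p‖ ≤ x ‖p‖`.  As `x ‖p‖ ≤ ‖v - b₀‖`, the point `v + x e ‖p‖` is at distance
`‖v - b₀‖ - x ‖p‖` from `b₀`, so `‖η a' - b₀‖ < ‖v - b₀‖`. -/
theorem CH.avoid (h : CH Ω b₀ b v d₀ η) {a : ℂ} (ha : a ∈ frontier Ω) (hab : a ≠ b)
    (hd : ‖a - b‖ ≤ d₀ / 10) {x : ℝ} (hx : x ∈ Icc (1 / 8 : ℝ) 4) :
    ∀ z ∈ Metric.ball (b + x * (a - b) * dir b₀ v (η a)) (x * ‖a - b‖ / 2), z ∉ frontier Ω := by
  intro z hz hz'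
  have h0 := h.pos
  have h1 : ‖a - b‖ ≤ d₀ := by linarith
  obtain ⟨-, h2, -⟩ := h.hη a ha h1 hab
  have h3 := norm_dir (ACh_ne h) h2
  have h4 : 0 < ‖a - b‖ := norm_sub_pos_iff.2 hab
  have h5 : 0 < ‖η a - v‖ := norm_sub_pos_iff.2 h2
  have h6 : ‖x * (a - b) * dir b₀ v (η a)‖ = x * ‖a - b‖ := by
    rw [norm_mul, norm_mul, h3, mul_one, Complex.norm_real, Real.norm_of_nonneg (by linarith [hx.1])]
  rw [mem_ball_iff_norm, ← sub_sub] at hz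
  have h7 := norm_le_norm_sub_add (z - b) (x * (a - b) * dir b₀ v (η a))
  have h8 : x * ‖a - b‖ ≤ 4 * ‖a - b‖ := mul_le_mul_of_nonneg_right hx.2 h4.le
  have h9 : z ≠ b := fun e => by
    rw [e, sub_self, zero_sub, norm_neg, h6] at hz
    nlinarith [hx.1]
  have h10 := h.rat a ha z hz' h1 (by linarith) hab h9 (by linarith)
  have h11 : ‖(z - b) / (a - b) - x * dir b₀ v (η a)‖ < x / 2 := by
    rw [div_sub' (sub_ne_zero.2 hab), norm_div, div_lt_iff₀ h4, ← mul_assoc, mul_comm (a - b)]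
    linarith
  have h12 : η z - b₀ = (η a - v) * (((η z - v) / (η a - v) - (z - b) / (a - b)) +
      ((z - b) / (a - b) - x * dir b₀ v (η a))) + (v + x * (dir b₀ v (η a) * (η a - v)) - b₀) := by
    rw [sub_add_sub_cancel, mul_sub, mul_div_cancel₀ _ (sub_ne_zero.2 h2)]
    ring
  have h13 : x * ‖η a - v‖ ≤ ‖v - b₀‖ := by
    linarith [mul_le_mul_of_nonneg_right hx.2 h5.le, (abs_le.1 h.hv).1, ACh_pq h ha hab h1,
      norm_le_norm_sub_add (η a - v) (a - b)]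
  have h14 := (h.hη z hz' (by linarith) h9).2.2.trans (h12 ▸ norm_add_le _ _)
  rw [ACh_pt (ACh_ne h) h2 h13, norm_mul] at h14
  have h15 := mul_lt_mul_of_pos_left ((norm_add_le _ _).trans_lt (add_lt_add_of_le_of_lt h10 h11)) h5
  nlinarith [mul_le_mul_of_nonneg_right hx.1 h5.le]

/- The segment of the centres is connected and does not meet the frontier; each ball is connected. -/
theorem CH.cone (h : CH Ω b₀ b v d₀ η) {a : ℂ} (ha : a ∈ frontier Ω) (hab : a ≠ b)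
    (hd : ‖a - b‖ ≤ d₀ / 10) (h1 : b + (a - b) * dir b₀ v (η a) ∈ Ω) {x : ℝ}
    (hx : x ∈ Icc (1 / 8 : ℝ) 4) :
    Metric.ball (b + x * (a - b) * dir b₀ v (η a)) (x * ‖a - b‖ / 2) ⊆ Ω := by
  have h2 : ∀ y ∈ Icc (1 / 8 : ℝ) 4, 0 < y * ‖a - b‖ / 2 := fun y hy =>
    half_pos (mul_pos (by linarith [hy.1]) (norm_sub_pos_iff.2 hab))
  refine sub_of_disjoint_frontier h.opn (convex_ball _ _).isPreconnected (h.avoid ha hab hd hx)
    (mem_ball_self (h2 x hx)) ?_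
  refine sub_of_disjoint_frontier h.opn (isPreconnected_Icc.image
    (fun y : ℝ => b + y * (a - b) * dir b₀ v (η a)) (by fun_prop)) ?_
    ⟨1, by norm_num, rfl⟩ (by simpa using h1) ⟨x, hx, rfl⟩
  rintro _ ⟨y, hy, rfl⟩
  exact h.avoid ha hab hd hy _ (mem_ball_self (h2 y hy))

/- `‖p - q‖ ≤ 2 t` (`t = d₀ / 1000`); the point is within `3 t` of `v + e ‖p‖`, which is at distance
`‖v - b₀‖ - ‖p‖ ≤ d₀ + t - (d₀ / 40 - 2 t)` from `b₀`. -/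
theorem CH.top (h : CH Ω b₀ b v d₀ η) {a : ℂ} (ha : a ∈ frontier Ω) (h1 : d₀ / 40 ≤ ‖a - b‖)
    (hd : ‖a - b‖ ≤ d₀ / 10) : b + (a - b) * dir b₀ v (η a) ∈ Ω := by
  have h0 := h.pos
  have hab : a ≠ b := norm_sub_pos_iff.1 (by linarith)
  have h2 : ‖a - b‖ ≤ d₀ := by linarith
  obtain ⟨-, h3, -⟩ := h.hη a ha h2 hab
  have h4 := ACh_pq h ha hab h2
  obtain ⟨h5, h6⟩ := abs_le.1 h.hv
  have h7 := ACh_pt (ACh_ne h) h3 (x := 1) (by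
    linarith [norm_le_norm_sub_add (η a - v) (a - b)])
  refine h.ball (mem_ball_iff_norm.2 ?_)
  have h8 : b + (a - b) * dir b₀ v (η a) - b₀ = (b - v) - (η a - v - (a - b)) * dir b₀ v (η a) +
      (v + (1 : ℝ) * (dir b₀ v (η a) * (η a - v)) - b₀) := by
    push_cast
    ring
  have h9 := norm_sub_le (b - v) ((η a - v - (a - b)) * dir b₀ v (η a))
  rw [norm_mul, norm_dir (ACh_ne h) h3] at h9
  rw [h8]
  refine (norm_add_le _ _).trans_lt ?_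
  linarith [norm_le_norm_add_norm_sub (η a - v) (a - b), h.hb]

/- `l = (a - b) / (a' - b)`, `m = (η a - v) / (η a' - v)`, `‖m - l‖ ≤ 1 / 16`, `1 / 4 ≤ ‖l‖ ≤ 1 / 2`;
`(a - b) * dir (η a) = (a' - b) * dir (η a') * (l ‖m‖ / m)` and `‖l ‖m‖ / m - ‖m‖‖ = ‖l - m‖`; `CH.cone` for `a'` with
`x = ‖m‖`. -/
theorem CH.step (h : CH Ω b₀ b v d₀ η) {a a' : ℂ} (ha : a ∈ frontier Ω) (ha' : a' ∈ frontier Ω)
    (hab : a ≠ b) (h2 : 2 * ‖a - b‖ ≤ ‖a' - b‖) (h4 : ‖a' - b‖ ≤ 4 * ‖a - b‖)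
    (hd : ‖a' - b‖ ≤ d₀ / 10) (h1 : b + (a' - b) * dir b₀ v (η a') ∈ Ω) :
    b + (a - b) * dir b₀ v (η a) ∈ Ω := by
  have h0 := h.pos
  have a1 : 0 < ‖a - b‖ := norm_sub_pos_iff.2 hab
  have a2 : 0 < ‖a' - b‖ := by linarith
  have a3 : a' ≠ b := norm_sub_pos_iff.1 a2
  obtain ⟨-, a4, -⟩ := h.hη a ha (by linarith) hab
  obtain ⟨-, a5, -⟩ := h.hη a' ha' (by linarith) a3
  have a6 := h.rat a' ha' a ha (by linarith) (by linarith) a3 hab (by linarith)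
  have a7 : 1 / 4 ≤ ‖(a - b) / (a' - b)‖ := by
    rw [norm_div, le_div_iff₀ a2]
    linarith
  have a8 : ‖(a - b) / (a' - b)‖ ≤ 1 / 2 := by
    rw [norm_div, div_le_iff₀ a2]
    linarith
  obtain ⟨a9, a10⟩ := abs_le.1 ((abs_norm_sub_norm_le _ _).trans a6)
  refine h.cone ha' a3 hd h1 (x := ‖(η a - v) / (η a' - v)‖) ⟨by linarith, by linarith⟩
    (mem_ball_iff_norm.2 ?_)
  have a11 : b + (a - b) * dir b₀ v (η a) - (b + (‖(η a - v) / (η a' - v)‖ : ℝ) * (a' - b) *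
      dir b₀ v (η a')) = ((a - b) / (a' - b) - (η a - v) / (η a' - v)) * (a' - b) *
        dir b₀ v (η a) := by
    have b1 := sub_ne_zero.2 a3
    have b2 := sub_ne_zero.2 a4
    have b3 := sub_ne_zero.2 a5
    have b4 := Complex.ofReal_ne_zero.2 (norm_ne_zero_iff.2 b3)
    rw [norm_div, dir, dir]
    push_cast
    generalize (b₀ - v) / (‖b₀ - v‖ : ℂ) = e
    field_simp
    ring
  rw [a11, norm_mul, norm_mul, norm_dir (ACh_ne h) a4, norm_sub_rev]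
  nlinarith

/- Induction on `k` with `d₀ / 40 ≤ 2 ^ k * ‖a - b‖`; `cir` with `r = 3 ‖a - b‖`. -/
theorem CH.chain (h : CH Ω b₀ b v d₀ η) {a : ℂ} (ha : a ∈ frontier Ω) (hab : a ≠ b)
    (hd : ‖a - b‖ ≤ d₀ / 10) {x : ℝ} (hx : x ∈ Icc (1 / 8 : ℝ) 4) :
    b + x * (a - b) * dir b₀ v (η a) ∈ Ω := by
  have key : ∀ k : ℕ, ∀ a ∈ frontier Ω, a ≠ b → ‖a - b‖ ≤ d₀ / 10 → d₀ / 40 ≤ 2 ^ k * ‖a - b‖ →
      b + (a - b) * dir b₀ v (η a) ∈ Ω := fun k => by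
    induction k with
    | zero => exact fun a ha _ hd h1 => h.top ha (by simpa using h1) hd
    | succ k ih =>
      intro a ha hab hd h1
      rcases le_or_gt (d₀ / 40) ‖a - b‖ with h2 | h2
      · exact h.top ha h2 hd
      have h3 : 0 < ‖a - b‖ := norm_sub_pos_iff.2 hab
      obtain ⟨a', h4, h5⟩ := h.cir a ha (3 * ‖a - b‖) ⟨by linarith, by linarith [h.one]⟩
      have h6 : 2 * ‖a - b‖ ≤ ‖a' - b‖ := by
        linarith [norm_sub_le_norm_sub_add_norm_sub a' b a, norm_sub_rev a b]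
      have h7 : ‖a' - b‖ ≤ 4 * ‖a - b‖ := by linarith [norm_sub_le_norm_sub_add_norm_sub a' a b]
      refine h.step ha h4 hab h6 h7 (by linarith) (ih a' h4 (norm_sub_pos_iff.1 (by linarith))
        (by linarith) (h1.trans ?_))
      rw [pow_succ, mul_assoc]
      exact mul_le_mul_of_nonneg_left h6 (by positivity)
  have h1 : 0 < ‖a - b‖ := norm_sub_pos_iff.2 hab
  obtain ⟨k, hk⟩ := pow_unbounded_of_one_lt (d₀ / 40 / ‖a - b‖) (one_lt_two (α := ℝ))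
  exact h.cone ha hab hd (key k a ha hab hd ((div_le_iff₀ h1).1 hk.le)) hx
    (mem_ball_self (half_pos (mul_pos (by linarith [hx.1]) h1)))

/- If `b` is not in the frontier let `a` be a nearest point of the frontier; `CH.chain` with `x = 1 / 2` gives a point
of `Ω` in `ball b ‖a - b‖`. -/
theorem CH.base (h : CH Ω b₀ b v d₀ η) (ha : ∃ a ∈ frontier Ω, ‖a - b‖ ≤ d₀ / 10) :
    b ∈ frontier Ω ∨ b ∈ Ω := by
  obtain ⟨a₀, h0, h1⟩ := ha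
  refine or_iff_not_imp_left.2 fun hb => ?_
  obtain ⟨a, h2, h3⟩ := isClosed_frontier.exists_infDist_eq_dist ⟨a₀, h0⟩ b
  have h4 : ∀ w ∈ frontier Ω, ‖a - b‖ ≤ ‖w - b‖ := fun w hw => by
    have := infDist_le_dist_of_mem (x := b) hw
    rwa [h3, dist_comm, dist_comm b, dist_eq_norm, dist_eq_norm] at this
  have h5 : a ≠ b := fun e => hb (e ▸ h2)
  have h6 := (h4 _ h0).trans h1
  have h7 : 0 < ‖a - b‖ := norm_sub_pos_iff.2 h5
  refine sub_of_disjoint_frontier h.opn (convex_ball b ‖a - b‖).isPreconnected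
    (fun w hw hw' => (mem_ball_iff_norm.1 hw).not_ge (h4 w hw')) (mem_ball_iff_norm.2 ?_)
    (h.chain h2 h5 h6 (x := 1 / 2) (by norm_num)) (mem_ball_self h7)
  rw [add_sub_cancel_left, norm_mul, norm_mul, Complex.norm_real,
    norm_dir (ACh_ne h) (h.hη a h2 (by linarith [h.pos]) h5).2.1, Real.norm_of_nonneg (by norm_num)]
  linarith

end Pool.Agent.Lib.MP_7b5e47_an.Hq
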