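import Pool.Agent.Lib.MP_7b5e47_an.Hq.HD

/-! The objects used in the proof of the interior estimate. -/

namespace Pool.Agent.Lib.MP_7b5e47_an.Hq

open Set Metric Filter Topology

/-- A limit curve with a domain `Ω` in the zero set, approximated by escaping regions. -/
structure Sit (f : Equiv.Perm (ℂ × ℂ)) (G H : ℂ × ℂ → ℝ) (C : ℝ) (ψs : ℕ → ℂ → ℂ × ℂ)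
    (ψ : ℂ → ℂ × ℂ) (Ω : Set ℂ) : Prop where
  par : ∀ n, Par f (ψs n)
  lim : TendstoLocallyUniformly ψs ψ atTop
  dif : Differentiable ℂ ψ
  hz : ∀ z, H (ψ z) = 0
  opn : IsOpen Ω
  fr : (frontier Ω).Nonempty
  zero : ∀ z ∈ Ω, G (ψ z) = 0
  ker : ∀ K ⊆ Ω, IsCompact K → ∀ᶠ n in atTop, ∀ z ∈ K, 0 < G (ψs n z)
  js : ∀ a ∈ frontier Ω, ψ a ∈ JS f
  db : ∀ a ∈ frontier Ω, DB (fun z => G (ψ z)) a C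
  act : ∀ a ∈ frontier Ω, ¬ ∀ᶠ z in 𝓝 a, G (ψ z) = 0
  app : ∀ a ∈ frontier Ω, ∀ e : ℝ, 0 < e →
    ∀ᶠ n in atTop, ∃ w ∈ bdK fun z => G (ψs n z), ‖w - a‖ < e
  cir : ∀ a ∈ frontier Ω, ∀ r ∈ Ioo (0 : ℝ) 1, ∃ a' ∈ frontier Ω, ‖a' - a‖ = r
  dbs : ∀ n, ∀ w ∈ bdK fun z => G (ψs n z), DB (fun z => G (ψs n z)) w C
  jss : ∀ n, ∀ w ∈ bdK fun z => G (ψs n z), ψs n w ∈ JS f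

/-- Coordinates in which the curve is the first axis. -/
structure Plq (ψ : ℂ → ℂ × ℂ) (Ξ : ℂ × ℂ → ℂ × ℂ) (a₀ : ℂ) (r₀ r₁ : ℝ) : Prop where
  pos : 0 < r₁
  dif : DifferentiableOn ℂ Ξ (ball (ψ a₀) r₀)
  inj : InjOn Ξ (ball (ψ a₀) r₀)
  map : ∀ x ∈ ball a₀ r₁, ψ x ∈ ball (ψ a₀) r₀
  left : ∀ x ∈ ball a₀ r₁, Ξ (ψ x) = (x, 0)

/-- A piece of a stable curve through `ψ a`, parametrized by a root of the height. -/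
structure Wp (f : Equiv.Perm (ℂ × ℂ)) (H : ℂ × ℂ → ℝ) (ψ : ℂ → ℂ × ℂ) (Ξ : ℂ × ℂ → ℂ × ℂ)
    (z₀ : ℂ × ℂ) (r : ℝ) (M : ℕ) (ρ : ℝ) (a : ℂ) (σ : ℂ → ℂ × ℂ) (τ : ℂ → ℂ) : Prop where
  hat : Hat f⁻¹ H σ
  base : σ 0 = ψ a
  dif : DifferentiableOn ℂ τ (ball 0 ρ)
  zero : τ 0 = 0
  one : ∀ η ∈ ball (0 : ℂ) ρ, ‖τ η‖ ≤ 1
  mem : ∀ η ∈ ball (0 : ℂ) ρ, σ (τ η) ∈ closedBall z₀ r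
  pow : ∀ η ∈ ball (0 : ℂ) ρ, (Ξ (σ (τ η))).2 = η ^ (M + 1)

/-- No isolated points. -/
def Perf (T : Set ℂ) : Prop := ∀ a ∈ T, ∀ e : ℝ, 0 < e → ∃ a' ∈ T, a' ≠ a ∧ ‖a' - a‖ < e

/-- A family of disjoint graphs inside stable curves. -/
structure Wal (f : Equiv.Perm (ℂ × ℂ)) (H : ℂ × ℂ → ℝ) (ψ : ℂ → ℂ × ℂ) (Ξ : ℂ × ℂ → ℂ × ℂ) (a₀ : ℂ)
    (r₀ : ℝ) (T : Set ℂ) (δ L : ℝ) (α : ℂ → ℂ → ℂ) : Prop where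
  pos : 0 < δ
  hL : 0 ≤ L
  perf : Perf T
  dif : ∀ a ∈ T, DifferentiableOn ℂ (α a) (ball 0 δ)
  zero : ∀ a ∈ T, α a 0 = a
  lip : ∀ a ∈ T, ∀ y ∈ ball (0 : ℂ) δ, ∀ y' ∈ ball (0 : ℂ) δ, ‖α a y - α a y'‖ ≤ L * ‖y - y'‖
  dis : ∀ a ∈ T, ∀ a' ∈ T, a ≠ a' → ∀ y ∈ ball (0 : ℂ) δ, α a y ≠ α a' y
  hat : ∀ a ∈ T, ∃ σ, Hat f⁻¹ H σ ∧ σ 0 = ψ a ∧ ∀ y ∈ ball (0 : ℂ) δ, ∃ τ : ℂ, ‖τ‖ ≤ 1 ∧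
    σ τ ∈ ball (ψ a₀) r₀ ∧ Ξ (σ τ) = (α a y, y) ∧
      (y ≠ 0 → deriv σ τ ≠ 0 ∧ ∀ᶠ τ' in 𝓝 τ, (Ξ (σ τ')).1 = α a (Ξ (σ τ')).2)

/-- A stable curve which crosses the first axis at a small parameter. -/
structure Stk (f : Equiv.Perm (ℂ × ℂ)) (H : ℂ × ℂ → ℝ) (ψ : ℂ → ℂ × ℂ) (Ξ : ℂ × ℂ → ℂ × ℂ) (a₀ : ℂ)
    (r₀ δ R : ℝ) (σ : ℂ → ℂ × ℂ) (r : ℝ) (τ₀ : ℂ) : Prop where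
  hat : Hat f⁻¹ H σ
  chart : ∀ τ ∈ ball (0 : ℂ) r, σ τ ∈ ball (ψ a₀) r₀ ∧ (Ξ (σ τ)).2 ∈ ball (0 : ℂ) δ
  one : ‖τ₀‖ ≤ 1
  mem : ‖τ₀‖ < r
  far : R * ‖τ₀‖ < r
  zero : (Ξ (σ τ₀)).2 = 0

/-- The horizontal displacement from the curve `σ` to the graph through `a`. -/
noncomputable def DD (α : ℂ → ℂ → ℂ) (Ξ : ℂ × ℂ → ℂ × ℂ) (σ : ℂ → ℂ × ℂ) (a τ : ℂ) : ℂ :=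
  α a (Ξ (σ τ)).2 - (Ξ (σ τ)).1

/-- The rotation from the direction of `η - v` to the direction of `b₀ - v`. -/
noncomputable def dir (b₀ v η : ℂ) : ℂ := (b₀ - v) / (‖b₀ - v‖ : ℂ) * ((‖η - v‖ : ℂ) / (η - v))

/-- The data for the blow up. -/
structure BD (f : Equiv.Perm (ℂ × ℂ)) (G H : ℂ × ℂ → ℝ) (C ε : ℝ) (ψ₀ ψ₁ : ℂ → ℂ × ℂ) (b v b₀ : ℂ)
    (W : Set ℂ) (η : ℂ → ℂ) (ρ₀ : ℝ) : Prop where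
  d0 : Differentiable ℂ ψ₀
  d1 : Differentiable ℂ ψ₁
  h0 : ∀ z, H (ψ₀ z) = 0
  h1 : ∀ z, H (ψ₁ z) = 0
  db0 : DB (fun z => G (ψ₀ z)) b C
  db1 : DB (fun z => G (ψ₁ z)) v C
  ne : v ≠ b₀
  pos : ∀ z ∈ ball b₀ ‖v - b₀‖, 0 < G (ψ₁ z)
  hρ : 0 < ρ₀
  cir : ∀ ρ ∈ Ioc 0 ρ₀, ∃ a ∈ W, ‖a - b‖ = ρ
  nb : ∀ a ∈ W, a ≠ b ∧ η a ≠ v
  rat : ∀ a ∈ W, ∀ a' ∈ W, ‖a' - b‖ ≤ 8 * ‖a - b‖ →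
    ‖(η a' - v) / (η a - v) - (a' - b) / (a - b)‖ ≤ ε
  asy : ∀ δ : ℝ, 0 < δ → ∀ᶠ N : ℕ in atTop, ‖(f ^ N) (ψ₀ b) - (f ^ N) (ψ₁ v)‖ ≤ δ ∧
    ∀ a ∈ W, ‖(f ^ N) (ψ₀ a) - (f ^ N) (ψ₁ (η a))‖ ≤ δ
  cone : ∀ a ∈ W, ∀ x ∈ Icc (1 : ℝ) 2, G (ψ₀ (b + x * (a - b) * dir b₀ v (η a))) = 0

/-- The result of the blow up. -/
structure BL (G : ℂ × ℂ → ℝ) (B c ε : ℝ) (Ψ₀ Ψ₁ : ℂ → ℂ × ℂ) (θ : ℂ) : Prop where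
  d0 : DifferentiableOn ℂ Ψ₀ (ball 0 4)
  d1 : DifferentiableOn ℂ Ψ₁ (ball 0 4)
  b0 : ∀ z ∈ ball (0 : ℂ) 4, ‖Ψ₀ z‖ ≤ B
  b1 : ∀ z ∈ ball (0 : ℂ) 4, ‖Ψ₁ z‖ ≤ B
  unit : ‖θ‖ = 1
  zero : G (Ψ₁ 0) = 0
  big : ∃ ζ : ℂ, ‖ζ‖ ≤ 1 ∧ c ≤ G (Ψ₁ ζ)
  pos : ∀ ζ ∈ ball (0 : ℂ) 4, 0 < (ζ * (starRingEnd ℂ) θ).re → 0 < G (Ψ₁ ζ)
  ray : ∀ x ∈ Icc (1 : ℝ) 2, G (Ψ₀ (x * θ)) = 0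
  pair : ∀ r ∈ Icc (1 : ℝ) 2, ∃ ζ₀ ζ₁ : ℂ, ‖ζ₀‖ = r ∧ ‖ζ₁ - ζ₀‖ ≤ ε ∧ Ψ₀ ζ₀ = Ψ₁ ζ₁

end Pool.Agent.Lib.MP_7b5e47_an.Hq
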