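import Pool.Agent.Lib.MP_7b5e47_an.Hq.Sad

/-! The family of normalized curves and its limits. -/

namespace Pool.Agent.Lib.MP_7b5e47_an.Hq

open Set Metric Filter Topology
open Pool.Agent.Lib.MP_7b5e47_an.Hn (Kp Jul IsSaddle Wu)

variable {f : Equiv.Perm (ℂ × ℂ)} {d κ : ℝ} {G H : ℂ × ℂ → ℝ} {q : ℂ × ℂ} {ψ φ : ℂ → ℂ × ℂ}

/- `r ↦ MM (G ∘ ψ) 0 r` is continuous, `0` at `0` (`saddle_G`) and unbounded (`HD.unbdd`); intermediate values,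
`Cur.aff`, `MM_aff`, `exists_MM`, `le_MM`. -/
theorem Cur.exists_nor (hd : HD f d G H) (h : Cur f (ψ 0) ψ) :
    ∃ r : ℝ, 0 < r ∧ Nor f G fun ζ => ψ (r * ζ) := by
  have hc : Continuous fun z => G (ψ z) := hd.cG.comp h.imm.dif.continuous
  obtain ⟨z, hz⟩ := hd.unbdd h.imm.dif (h.hz hd) ⟨1, fun e => one_ne_zero (h.imm.inj e)⟩ 1
  have h0 : MM (fun z => G (ψ z)) 0 0 = 0 := by rw [MM_zero]; exact saddle_G hd h.sad
  have h1 : 1 ≤ MM (fun z => G (ψ z)) 0 ‖z‖ :=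
    hz.le.trans (le_MM (g := fun z => G (ψ z)) hc.continuousOn (mem_closedBall_zero_iff.2 le_rfl))
  obtain ⟨r, hr, hr1⟩ := intermediate_value_Icc (norm_nonneg z)
    (MM_continuousOn (g := fun z => G (ψ z)) (w := 0) hc.continuousOn)
    (show (1 : ℝ) ∈ Icc _ _ from ⟨by rw [h0]; exact zero_le_one, h1⟩)
  have hpos : 0 < r := by
    refine lt_of_le_of_ne hr.1 fun e => ?_
    rw [← e, h0] at hr1
    exact zero_ne_one hr1
  have hr0 : (r : ℂ) ≠ 0 := by exact_mod_cast hpos.ne'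
  have hc' : Continuous fun ζ : ℂ => G (ψ (r * ζ)) := hc.comp (continuous_const.mul continuous_id)
  have hM : MM (fun ζ : ℂ => G (ψ (r * ζ))) 0 1 = 1 := by
    have h2 := MM_aff (g := fun z => G (ψ z)) (w := 0) (r := 1) hr0 0
    simp only [zero_add, mul_zero, mul_one, Complex.norm_real, Real.norm_eq_abs,
      abs_of_pos hpos] at h2
    rw [h2, hr1]
  refine ⟨r, hpos, ?_, ?_, ?_⟩
  · simpa using h.aff hr0 0
  · obtain ⟨w, hw, hw1⟩ := exists_MM (w := 0) hc'.continuousOn zero_le_one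
    exact ⟨w, hw, hw1.trans hM⟩
  · rintro _ ⟨w, hw, rfl⟩
    exact (le_MM hc'.continuousOn hw).trans hM.le

theorem exists_nor (hd : HD f d G H) (h : IsSaddle f q) : ∃ ψ, Nor f G ψ ∧ ψ 0 = q := by
  obtain ⟨N, ψ, σ, l, m, -, hC, hψ, -⟩ := saddle_chart hd h
  have h0 : ψ 0 = q := hC.u0
  obtain ⟨r, -, hr⟩ := Cur.exists_nor hd (ψ := ψ) (by rw [h0]; exact hψ)
  exact ⟨_, hr, by simpa using h0⟩

/- `Cur.zpow` with `k = -1` and `Cur.exists_nor` give `ψ' ζ = f⁻¹ (ψ (r ζ))`; `f (ψ' ζ) = ψ (r ζ)`. -/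
theorem Nor.prev (hd : HD f d G H) (hq : QE f G κ) (h : Nor f G ψ) :
    ∃ l : ℂ, κ ≤ ‖l‖ ∧ Nor f G fun ζ => f⁻¹ (ψ (l * ζ)) := by
  have h1 : Cur f (f⁻¹ (ψ 0)) fun z => f⁻¹ (ψ z) := by simpa using h.1.zpow hd (-1)
  obtain ⟨r, -, hr⟩ := Cur.exists_nor hd (ψ := fun z => f⁻¹ (ψ z)) h1
  exact ⟨r, hq.2 _ ψ r hr h fun ζ => by simp, hr⟩

theorem Nor.prevN (hd : HD f d G H) (hq : QE f G κ) (h : Nor f G ψ) (n : ℕ) :
    ∃ l : ℂ, κ ^ n ≤ ‖l‖ ∧ Nor f G fun ζ => (f⁻¹ ^ n) (ψ (l * ζ)) := by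
  induction n with
  | zero => exact ⟨1, by simp, by simpa using h⟩
  | succ n ih =>
    obtain ⟨l, hl, hn⟩ := ih
    obtain ⟨l', hl', hn'⟩ := hn.prev hd hq
    have hκ : 0 ≤ κ := zero_le_one.trans hq.1.le
    refine ⟨l * l', ?_, ?_⟩
    · rw [pow_succ, norm_mul]
      exact mul_le_mul hl hl' hκ (norm_nonneg _)
    · simpa only [pow_succ', Equiv.Perm.mul_apply, mul_assoc] using hn'

/- `G (ψ ζ) ≤ d ^ n` for `‖ζ‖ ≤ κ ^ n` by `Nor.prevN`; `HD.bdd`, `Cur.hz`. -/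
theorem nor_bdd (hd : HD f d G H) (hq : QE f G κ) (R : ℝ) :
    ∃ B : ℝ, ∀ ψ, Nor f G ψ → ∀ ζ, ‖ζ‖ ≤ R → ‖ψ ζ‖ ≤ B := by
  obtain ⟨n, hn⟩ := pow_unbounded_of_one_lt R hq.1
  obtain ⟨B, hB⟩ := hd.bdd (d ^ n)
  refine ⟨B, fun ψ h ζ hζ => hB _ (h.1.hz hd ζ) ?_⟩
  obtain ⟨l, hl, hN⟩ := h.prevN hd hq n
  have hp : 0 < ‖l‖ := (pow_pos (zero_lt_one.trans hq.1) n).trans_le hl
  have hl0 : l ≠ 0 := norm_pos_iff.1 hp
  have h1 : ζ / l ∈ closedBall (0 : ℂ) 1 := by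
    rw [mem_closedBall_zero_iff, norm_div, div_le_one hp]
    exact hζ.trans (hn.le.trans hl)
  have h2 : G ((f⁻¹ ^ n) (ψ (l * (ζ / l)))) ≤ 1 := hN.2.2 ⟨_, h1, rfl⟩
  rw [mul_div_cancel₀ _ hl0] at h2
  have h3 := hd.G_pow n ((f⁻¹ ^ n) (ψ ζ))
  rw [← Equiv.Perm.mul_apply, inv_pow, mul_inv_cancel, Equiv.Perm.one_apply, ← inv_pow] at h3
  rw [h3]
  exact mul_le_of_le_one_right (pow_nonneg (zero_le_one.trans hd.hd.le) n) h2

/- `Nor.prevN`, `nor_bdd` with `R = 2` and the Schwarz lemma. -/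
theorem nor_contr (hd : HD f d G H) (hq : QE f G κ) : ∃ C : ℝ, ∀ ψ, Nor f G ψ → ∀ (n : ℕ) (ζ : ℂ),
    ‖ζ‖ ≤ κ ^ n → ‖(f⁻¹ ^ n) (ψ ζ) - (f⁻¹ ^ n) (ψ 0)‖ ≤ C * ‖ζ‖ / κ ^ n := by
  obtain ⟨B, hB⟩ := nor_bdd hd hq 2
  refine ⟨B, fun ψ h n ζ hζ => ?_⟩
  obtain ⟨l, hl, hN⟩ := h.prevN hd hq n
  have hk : 0 < κ ^ n := pow_pos (zero_lt_one.trans hq.1) n
  have hp : 0 < ‖l‖ := hk.trans_le hl
  have hl0 : l ≠ 0 := norm_pos_iff.1 hp
  have hB0 : 0 ≤ B := (norm_nonneg _).trans (hB ψ h 0 (by simp))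
  have h1 : ζ / l ∈ ball (0 : ℂ) 2 := by
    rw [mem_ball_zero_iff, norm_div]
    exact ((div_le_one hp).2 (hζ.trans hl)).trans_lt one_lt_two
  have h2 := Complex.dist_le_div_mul_dist_of_mapsTo_ball (R₂ := 2 * B)
    hN.1.imm.dif.differentiableOn (c := 0) (R₁ := 2) (fun z hz => by
      have h3 := hB _ hN z (mem_ball_zero_iff.1 hz).le
      have h4 := hB _ hN 0 (by simp)
      rw [mem_closedBall, dist_eq_norm]
      exact (norm_sub_le _ _).trans (by linarith)) h1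
  rw [dist_eq_norm, dist_zero_right, mul_div_cancel₀ _ hl0, mul_zero, norm_div] at h2
  refine h2.trans ?_
  rw [mul_div_cancel_left₀ _ (two_ne_zero' ℝ), mul_div_assoc]
  exact mul_le_mul_of_nonneg_left (div_le_div_of_nonneg_left (norm_nonneg _) hk hl) hB0

theorem Fam_pt {F : ℕ → ℂ → ℂ × ℂ} (h : TendstoLocallyUniformly F ψ atTop) (z : ℂ) :
    Tendsto (fun j => F j z) atTop (𝓝 (ψ z)) :=
  (h.tendstoLocallyUniformlyOn (s := univ)).tendsto_at (mem_univ z)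

theorem Fam_montel (hd : HD f d G H) (hq : QE f G κ) {F : ℕ → ℂ → ℂ × ℂ} (h : ∀ j, Nor f G (F j)) :
    ∃ (s : ℕ → ℕ) (Ψ : ℂ → ℂ × ℂ), StrictMono s ∧ Differentiable ℂ Ψ ∧
      TendstoLocallyUniformly (fun j => F (s j)) Ψ atTop := by
  refine montel fun R => ?_
  obtain ⟨B, hB⟩ := nor_bdd hd hq R
  exact ⟨B, Eventually.of_forall fun j => ⟨(h j).1.imm.dif.differentiableOn,
    fun z hz => hB _ (h j) z (mem_ball_zero_iff.1 hz).le⟩⟩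

theorem hat_bdd (hd : HD f d G H) (hq : QE f G κ) (R : ℝ) :
    ∃ B : ℝ, ∀ ψ, Hat f G ψ → ∀ ζ, ‖ζ‖ ≤ R → ‖ψ ζ‖ ≤ B := by
  obtain ⟨B, hB⟩ := nor_bdd hd hq R
  refine ⟨B, fun ψ h ζ hζ => ?_⟩
  obtain ⟨-, φ, hφ, hl⟩ := h
  exact le_of_tendsto' (Fam_pt hl ζ).norm fun j => hB _ (hφ j) ζ hζ

theorem hat_asym (hd : HD f d G H) (hq : QE f G κ) (R : ℝ) {δ : ℝ} (hδ : 0 < δ) :
    ∀ᶠ n : ℕ in atTop, ∀ ψ, Hat f G ψ → ∀ ζ ζ' : ℂ, ‖ζ‖ ≤ R → ‖ζ'‖ ≤ R →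
      ‖(f⁻¹ ^ n) (ψ ζ) - (f⁻¹ ^ n) (ψ ζ')‖ ≤ δ := by
  obtain ⟨C, hC⟩ := nor_contr hd hq
  have hk := tendsto_pow_atTop_atTop_of_one_lt hq.1
  have h1 : Tendsto (fun n : ℕ => |C| * R / κ ^ n) atTop (𝓝 0) := tendsto_const_nhds.div_atTop hk
  filter_upwards [hk.eventually_ge_atTop R, h1.eventually_le_const (half_pos hδ)] with n hn hn'
  intro ψ h ζ ζ' hζ hζ'
  obtain ⟨-, φ, hφ, hl⟩ := h
  have hc : Continuous ⇑(f⁻¹ ^ n) := (dif_pow hd.di n).continuous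
  have hp : 0 < κ ^ n := pow_pos (zero_lt_one.trans hq.1) n
  have key : ∀ j (w : ℂ), ‖w‖ ≤ R → ‖(f⁻¹ ^ n) (φ j w) - (f⁻¹ ^ n) (φ j 0)‖ ≤ δ / 2 := by
    intro j w hw
    refine (hC _ (hφ j) n w (hw.trans hn)).trans (le_trans ?_ hn')
    refine div_le_div_of_nonneg_right ?_ hp.le
    exact mul_le_mul (le_abs_self C) hw (norm_nonneg _) (abs_nonneg _)
  refine le_of_tendsto' (((hc.tendsto _).comp (Fam_pt hl ζ)).sub
    ((hc.tendsto _).comp (Fam_pt hl ζ'))).norm fun j => ?_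
  have h2 := key j ζ hζ
  have h3 := key j ζ' hζ'
  have h4 := norm_sub_le_norm_sub_add_norm_sub ((f⁻¹ ^ n) (φ j ζ)) ((f⁻¹ ^ n) (φ j 0))
    ((f⁻¹ ^ n) (φ j ζ'))
  rw [norm_sub_rev] at h3
  simp only [Function.comp_apply]
  linarith

theorem Hat.hz (hd : HD f d G H) (h : Hat f G ψ) (ζ : ℂ) : H (ψ ζ) = 0 := by
  obtain ⟨-, φ, hφ, hl⟩ := h
  have h1 := (hd.cH.tendsto _).comp (Fam_pt hl ζ)
  refine tendsto_nhds_unique h1 (tendsto_const_nhds.congr fun j => ?_)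
  exact ((hφ j).1.hz hd ζ).symm

theorem Hat.G_zero (hd : HD f d G H) (h : Hat f G ψ) : G (ψ 0) = 0 := by
  obtain ⟨-, φ, hφ, hl⟩ := h
  have h1 := (hd.cG.tendsto _).comp (Fam_pt hl 0)
  refine tendsto_nhds_unique h1 (tendsto_const_nhds.congr fun j => ?_)
  exact (saddle_G hd (hφ j).1.sad).symm

theorem Hat.one (hd : HD f d G H) (h : Hat f G ψ) : ∃ ζ : ℂ, ‖ζ‖ ≤ 1 ∧ G (ψ ζ) = 1 := by
  obtain ⟨hψ, φ, hφ, hl⟩ := h
  have h1 := Base_tendsto (gs := fun j z => G (φ j z)) (g := fun z => G (ψ z)) (ws := fun _ => 0)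
    (w := 0) (r := 1) (fun j => hd.cG.comp (hφ j).1.imm.dif.continuous)
    (tlu_comp hψ.continuous hl hd.cG) tendsto_const_nhds zero_le_one
  have h2 : MM (fun z => G (ψ z)) 0 1 = 1 :=
    tendsto_nhds_unique h1 (tendsto_const_nhds.congr fun j => (hφ j).2.csSup_eq.symm)
  obtain ⟨w, hw, hw1⟩ := exists_MM (g := fun z => G (ψ z)) (w := 0)
    (hd.cG.comp hψ.continuous).continuousOn zero_le_one
  exact ⟨w, mem_closedBall_zero_iff.1 hw, hw1.trans h2⟩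

/-- A limit curve is not constant near any point. -/
theorem Hat.not_const (hd : HD f d G H) (h : Hat f G ψ) (a : ℂ) : ¬ ∀ᶠ z in 𝓝 a, ψ z = ψ a := by
  intro ha
  have h1 : ψ = fun _ => ψ a :=
    (h.1.differentiableOn.analyticOnNhd isOpen_univ).eq_of_eventuallyEq analyticOnNhd_const ha
  obtain ⟨ζ, -, hζ⟩ := h.one hd
  have h2 := h.G_zero hd
  rw [congrFun h1 ζ] at hζ
  rw [congrFun h1 0, hζ] at h2
  exact one_ne_zero h2

/- A sequence of saddles tending to `x`, `exists_nor`, `nor_bdd`, `montel`. -/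
theorem exists_hat (hd : HD f d G H) (hq : QE f G κ) {x : ℂ × ℂ} (hx : x ∈ JS f) :
    ∃ ψ, Hat f G ψ ∧ ψ 0 = x := by
  obtain ⟨p, hp, hl⟩ := mem_closure_iff_seq_limit.1 hx
  choose φ hφ h0 using fun j => exists_nor hd (hp j)
  obtain ⟨s, Ψ, hs, hΨ, ht⟩ := Fam_montel hd hq hφ
  refine ⟨Ψ, ⟨hΨ, _, fun j => hφ (s j), ht⟩, tendsto_nhds_unique (Fam_pt ht 0) ?_⟩
  exact (hl.comp hs.tendsto_atTop).congr fun j => (h0 (s j)).symm

/- Choose normalized `φ j` within `1 / (j + 1)` of `ψs j` on `closedBall 0 j`; `montel` for `φ`. -/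
theorem hat_seq (hd : HD f d G H) (hq : QE f G κ) {ψs : ℕ → ℂ → ℂ × ℂ} (h : ∀ j, Hat f G (ψs j)) :
    ∃ (s : ℕ → ℕ) (ψ : ℂ → ℂ × ℂ), StrictMono s ∧ Hat f G ψ ∧
      TendstoLocallyUniformly (fun j => ψs (s j)) ψ atTop := by
  have h1 : ∀ j : ℕ, ∃ φ, Nor f G φ ∧
      ∀ z ∈ closedBall (0 : ℂ) j, dist (ψs j z) (φ z) < 1 / ((j : ℝ) + 1) := fun j => by
    obtain ⟨-, φ, hφ, hl⟩ := h j
    have h2 := tendstoLocallyUniformly_iff_forall_isCompact.1 hl _ (isCompact_closedBall (0 : ℂ) j)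
    obtain ⟨i, hi⟩ := (Metric.tendstoUniformlyOn_iff.1 h2 _ Nat.one_div_pos_of_nat).exists
    exact ⟨φ i, hφ i, hi⟩
  choose φ hφ hc using h1
  obtain ⟨s, Ψ, hs, hΨ, ht⟩ := Fam_montel hd hq hφ
  refine ⟨s, Ψ, hs, ⟨hΨ, _, fun j => hφ (s j), ht⟩, ?_⟩
  rw [tendstoLocallyUniformly_iff_forall_isCompact] at ht ⊢
  intro K hK
  obtain ⟨R, hR⟩ := hK.isBounded.subset_closedBall 0
  rw [Metric.tendstoUniformlyOn_iff]
  intro ε hε
  have h3 : Tendsto (fun j => 1 / ((s j : ℝ) + 1)) atTop (𝓝 0) :=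
    tendsto_one_div_add_atTop_nhds_zero_nat.comp hs.tendsto_atTop
  have h4 : Tendsto (fun j => (s j : ℝ)) atTop atTop :=
    tendsto_natCast_atTop_atTop.comp hs.tendsto_atTop
  filter_upwards [Metric.tendstoUniformlyOn_iff.1 (ht K hK) _ (half_pos hε),
    h3.eventually_le_const (half_pos hε), h4.eventually_ge_atTop R] with j h5 h6 h7 z hz
  have h8 := hc (s j) z (closedBall_subset_closedBall h7 (hR hz))
  have h9 := h5 z hz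
  have h10 := dist_triangle_right (Ψ z) (ψs (s j) z) (φ (s j) z)
  linarith

/- `share` and `Cur.meet`. -/
theorem Hat.share (h : Hat f G ψ) (h' : Hat f G φ) {a b : ℂ} (hab : ψ a = φ b)
    (ha : deriv ψ a ≠ 0) :
    ∃ A : ℂ → ℂ, AnalyticAt ℂ A b ∧ A b = a ∧ ∀ᶠ z in 𝓝 b, φ z = ψ (A z) := by
  obtain ⟨-, ps, hp, lp⟩ := h
  obtain ⟨-, qs, hq, lq⟩ := h'
  exact Hq.share (fun j => (hp j).1.imm) (fun j => (hq j).1.imm.dif) lp lq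
    (fun j a b e => (hp j).1.meet (hq j).1 e) hab ha

/- `hat_asym` and `Wu_of_tendsto`. -/
theorem Hat.range_sub (hd : HD f d G H) (hq : QE f G κ) (h : Hat f G φ) (h' : Cur f q ψ) {b : ℂ}
    (hb : φ b ∈ range ψ) (z : ℂ) : φ z ∈ range ψ := by
  rw [h'.ran] at hb ⊢
  refine Wu_of_tendsto hb ?_
  rw [Metric.tendsto_nhds]
  intro ε hε
  filter_upwards [hat_asym hd hq (max ‖z‖ ‖b‖) (half_pos hε)] with n hn
  rw [dist_zero_right, norm_norm]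
  exact (hn φ h z b (le_max_left _ _) (le_max_right _ _)).trans_lt (half_lt_self hε)

end Pool.Agent.Lib.MP_7b5e47_an.Hq
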