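import Mathlib

/-! The theorems of Bloch and Schottky. -/

namespace Pool.Agent.Lib.MP_7b5e47_an.Hq

open Set Metric Filter Topology

/- Let `w` maximise `‖deriv g z‖ * (r - ‖z - c‖)` on the closed disc, `ρ = (r - ‖w - c‖) / 2`,
`μ = ‖deriv g w‖`; then `‖deriv g‖ ≤ 2 μ` on `closedBall w ρ`, so `‖deriv g z - deriv g w‖ ≤ 3 μ ‖z - w‖ / ρ`
(Schwarz, `Complex.dist_le_div_mul_dist_of_mapsTo_ball` or `Complex.norm_dslope_le_div_of_mapsTo_ball`)
and `‖g z - g w‖ ≥ μ ρ / 12` on the circle of radius `ρ / 6`;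
`DiffContOnCl.ball_subset_image_closedBall`. -/
theorem bloch {g : ℂ → ℂ} {c : ℂ} {r R : ℝ} (hr : 0 < r) (hR : r < R)
    (hg : DifferentiableOn ℂ g (ball c R)) :
    ∃ b : ℂ, ball b (‖deriv g c‖ * r / 48) ⊆ g '' ball c R := by
  rcases (norm_nonneg (deriv g c)).eq_or_lt with h0 | h0
  · exact ⟨0, by simp [← h0]⟩
  have hd := hg.deriv isOpen_ball
  have hs : closedBall c r ⊆ ball c R := closedBall_subset_ball hR
  obtain ⟨w, hw, hmax⟩ := (isCompact_closedBall c r).exists_isMaxOn ⟨c, mem_closedBall_self hr.le⟩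
    (f := fun z => ‖deriv g z‖ * (r - dist z c))
    ((hd.continuousOn.mono hs).norm.mul (by fun_prop))
  have h1 : ‖deriv g c‖ * r ≤ ‖deriv g w‖ * (r - dist w c) := by
    simpa using hmax (mem_closedBall_self hr.le)
  have h2 := (mul_pos h0 hr).trans_le h1
  obtain ⟨ρ, hρ⟩ : ∃ ρ, r - dist w c = 2 * ρ := ⟨(r - dist w c) / 2, by ring⟩
  rw [hρ] at h1 h2
  have hμ : 0 < ‖deriv g w‖ := (norm_nonneg _).lt_of_ne fun h => by simp [← h] at h2
  have hρ0 : 0 < ρ := by linarith [(mul_pos_iff_of_pos_left hμ).1 h2]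
  have hb : ∀ z ∈ ball w ρ, ρ ≤ r - dist z c := fun z hz => by
    linarith [dist_triangle z w c, mem_ball.1 hz]
  have hsub : ball w ρ ⊆ closedBall c r := fun z hz => mem_closedBall.2 (by linarith [hb z hz])
  have h3 : MapsTo (deriv g) (ball w ρ) (closedBall (deriv g w) (3 * ‖deriv g w‖)) := fun z hz => by
    have h : ‖deriv g z‖ * (r - dist z c) ≤ ‖deriv g w‖ * (r - dist w c) := hmax (hsub hz)
    have h' : ‖deriv g z‖ * ρ ≤ 2 * ‖deriv g w‖ * ρ := by
      have := mul_le_mul_of_nonneg_left (hb z hz) (norm_nonneg (deriv g z))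
      rw [hρ] at h
      linarith
    rw [mem_closedBall, dist_eq_norm]
    linarith [norm_sub_le (deriv g z) (deriv g w), le_of_mul_le_mul_right h' hρ0]
  have hs6 : closedBall w (ρ / 6) ⊆ ball w ρ := closedBall_subset_ball (by linarith)
  have hs7 : closedBall w (ρ / 6) ⊆ ball c R := hs6.trans (hsub.trans hs)
  have h4 : ∀ z ∈ closedBall w (ρ / 6), ‖deriv g w‖ / 2 * ‖z - w‖ ≤ ‖g z - g w‖ := fun z hz => by
    have := (convex_closedBall w (ρ / 6)).norm_image_sub_le_of_norm_hasDerivWithin_le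
      (f := fun z => g z - deriv g w * z) (f' := fun z => deriv g z - deriv g w)
      (C := ‖deriv g w‖ / 2) (fun x hx => by
        simpa using (((hg.differentiableAt (isOpen_ball.mem_nhds (hs7 hx))).hasDerivAt.fun_sub
          ((hasDerivAt_id x).const_mul (deriv g w))).hasDerivWithinAt))
      (fun x hx => by
        have := Complex.dist_le_div_mul_dist_of_mapsTo_ball (hd.mono (hsub.trans hs)) h3 (hs6 hx)
        rw [dist_eq_norm] at this
        refine this.trans ((mul_le_mul_of_nonneg_left (mem_closedBall.1 hx)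
          (by positivity)).trans_eq ?_)
        field_simp
        norm_num) (mem_closedBall_self (by positivity)) hz
    have h := norm_sub_le (g z - g w) (g z - deriv g w * z - (g w - deriv g w * w))
    rw [show g z - g w - (g z - deriv g w * z - (g w - deriv g w * w)) = deriv g w * (z - w) by
      ring, norm_mul] at h
    linarith
  have h5 := DiffContOnCl.ball_subset_image_closedBall (f := g) (z₀ := w) (r := ρ / 6)
    (ε := ‖deriv g w‖ / 2 * (ρ / 6)) (DifferentiableOn.diffContOnCl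
      (hg.mono (closure_ball_subset_closedBall.trans hs7))) (by positivity)
    (fun z hz => by
      have := h4 z (sphere_subset_closedBall hz)
      rwa [mem_sphere_iff_norm.1 hz] at this)
    (by
      refine Frequently.filter_mono (Eventually.frequently (f := 𝓝[≠] w) ?_) nhdsWithin_le_nhds
      filter_upwards [self_mem_nhdsWithin, mem_nhdsWithin_of_mem_nhds
        (closedBall_mem_nhds w (by positivity : 0 < ρ / 6))] with z hz hz' h
      have := h4 z hz'
      rw [h, sub_self, norm_zero] at this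
      exact absurd this (not_le.2 (mul_pos (by positivity) (norm_sub_pos_iff.2 hz))))
  exact ⟨g w, (ball_subset_ball (by linarith)).trans (h5.trans (image_mono hs7))⟩

theorem exists_log {u : ℂ → ℂ} {c : ℂ} {r : ℝ} (hu : DifferentiableOn ℂ u (ball c r))
    (h0 : ∀ z ∈ ball c r, u z ≠ 0) : ∃ v : ℂ → ℂ, DifferentiableOn ℂ v (ball c r) ∧
      (∀ z ∈ ball c r, Complex.exp (v z) = u z) ∧ (0 < r → v c = Complex.log (u c)) := by
  obtain ⟨v, hc, hv⟩ := ((hu.deriv isOpen_ball).div hu h0).isExactOn_ball.with_val_at c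
    (Complex.log (u c))
  refine ⟨v, fun z hz => (hv z hz).differentiableAt.differentiableWithinAt, fun z hz => ?_,
    fun _ => hc⟩
  have hcm : c ∈ ball c r := mem_ball_self (pos_of_mem_ball hz)
  have := (convex_ball c r).norm_image_sub_le_of_norm_hasDerivWithin_le
    (f := fun z => u z * Complex.exp (-v z)) (f' := fun _ => 0) (C := 0) (fun x hx => by
      have := (hu.differentiableAt (isOpen_ball.mem_nhds hx)).hasDerivAt.mul (hv x hx).neg.cexp
      refine (this.congr_deriv ?_).hasDerivWithinAt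
      have := h0 x hx
      simp only [Pi.div_apply, Pi.neg_apply]
      field_simp
      ring) (by simp) hcm hz
  rw [zero_mul, norm_le_zero_iff, sub_eq_zero, hc, Complex.exp_neg, Complex.exp_neg,
    Complex.exp_log (h0 c hcm), mul_inv_cancel₀ (h0 c hcm),
    mul_inv_eq_one₀ (Complex.exp_ne_zero _)] at this
  exact this.symm

theorem hroot {u : ℂ → ℂ} {c : ℂ} {r : ℝ} (hu : DifferentiableOn ℂ u (ball c r))
    (h0 : ∀ z ∈ ball c r, u z ≠ 0) {M : ℕ} (hM : 0 < M) :
    ∃ v : ℂ → ℂ, DifferentiableOn ℂ v (ball c r) ∧ ∀ z ∈ ball c r, v z ^ M = u z := by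
  obtain ⟨v, hv, he, -⟩ := exists_log hu h0
  refine ⟨fun z => Complex.exp (v z / M), (hv.div_const _).cexp, fun z hz => ?_⟩
  rw [← Complex.exp_nat_mul, mul_div_cancel₀ _ (Nat.cast_ne_zero.2 hM.ne'), he z hz]

/- If `a` omits `1` and `-1`, then `1 - a ^ 2 = s ^ 2` (`hroot`), `(a + I s) (a - I s) = 1`,
`a + I s = exp (I b)`, `a = cos b`; choosing the sign of `s` so that `‖a c + I s c‖ ≥ 1` and the principal value
at `c`, `‖b c‖ ≤ π + log (2 ‖a c‖ + 2)`-type bound. -/
theorem exists_arccos {a : ℂ → ℂ} {c : ℂ} {r : ℝ} (hr : 0 < r) (ha : DifferentiableOn ℂ a (ball c r))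
    (h : ∀ z ∈ ball c r, a z ≠ 1 ∧ a z ≠ -1) : ∃ b : ℂ → ℂ, DifferentiableOn ℂ b (ball c r) ∧
      (∀ z ∈ ball c r, Complex.cos (b z) = a z) ∧ ‖b c‖ ≤ 6 + 2 * ‖a c‖ := by
  obtain ⟨s, hs, hs2⟩ := hroot (u := fun z => 1 - a z ^ 2) ((ha.pow 2).const_sub 1)
    (fun z hz e => (sq_eq_one_iff.1 (sub_eq_zero.1 e).symm).elim (h z hz).1 (h z hz).2)
    two_pos
  have hm : ∀ z ∈ ball c r, (a z + Complex.I * s z) * (a z - Complex.I * s z) = 1 := fun z hz => by
    linear_combination hs2 z hz - s z ^ 2 * Complex.I_sq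
  obtain ⟨v, hv, he, hc⟩ := exists_log (u := fun z => a z + Complex.I * s z)
    (ha.add (hs.const_mul _)) fun z hz => left_ne_zero_of_mul_eq_one (hm z hz)
  refine ⟨fun z => -Complex.I * v z, hv.const_mul _, fun z hz => ?_, ?_⟩
  · have e : -Complex.I * v z * Complex.I = v z := by
      linear_combination -v z * Complex.I_sq
    rw [Complex.cos, neg_mul (-Complex.I * v z), e, Complex.exp_neg, he z hz,
      ← eq_inv_of_mul_eq_one_right (hm z hz)]
    ring
  · have hcm := mem_ball_self (x := c) hr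
    have h1 : ‖s c‖ ≤ 1 + ‖a c‖ := by
      have := norm_sub_le 1 (a c ^ 2)
      rw [← hs2 c hcm, norm_pow, norm_pow, norm_one] at this
      exact abs_le_of_sq_le_sq' (by nlinarith [norm_nonneg (a c)]) (by positivity) |>.2
    have h2 := norm_add_le (a c) (Complex.I * s c)
    have h3 := norm_sub_le (a c) (Complex.I * s c)
    rw [norm_mul, Complex.norm_I, one_mul] at h2 h3
    have h4 := norm_pos_iff.2 (left_ne_zero_of_mul_eq_one (hm c hcm))
    have h5 := Real.log_le_sub_one_of_pos h4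
    have h6 := Real.log_le_sub_one_of_pos (inv_pos.2 h4)
    rw [Real.log_inv, ← norm_inv, ← eq_inv_of_mul_eq_one_right (hm c hcm)] at h6
    have h7 := Complex.norm_le_abs_re_add_abs_im (Complex.log (a c + Complex.I * s c))
    rw [Complex.log_re, Complex.log_im] at h7
    have h8 : |Real.log ‖a c + Complex.I * s c‖| ≤ 2 * ‖a c‖ := abs_le.2 ⟨by linarith, by linarith⟩
    simp only [norm_mul, norm_neg, Complex.norm_I, one_mul, hc hr]
    linarith [Complex.abs_arg_le_pi (a c + Complex.I * s c), Real.pi_le_four]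

theorem TSch_int (p : ℂ) : ∃ w ∈ ball p 7, ∃ n : ℤ, Complex.cos w = n := by
  have h1 : Real.cosh |p.im| + 1 ≤ Real.cosh (|p.im| + 2) := by
    have h2 : 2 ≤ Real.cosh 2 := by
      rw [Real.cosh_eq]
      linarith [Real.add_one_le_exp 2, Real.add_one_le_exp (-2), Real.quadratic_le_exp_of_nonneg
        (zero_le_two (α := ℝ)), Real.exp_pos (-2)]
    have := mul_nonneg (Real.sinh_nonneg_iff.2 (abs_nonneg p.im))
      (Real.sinh_nonneg_iff.2 zero_le_two)
    rw [Real.cosh_add]
    nlinarith [Real.one_le_cosh |p.im|]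
  obtain ⟨t, ht, e⟩ := intermediate_value_Icc (by linarith : |p.im| ≤ |p.im| + 2)
    Real.continuous_cosh.continuousOn
    ⟨Int.le_ceil _, (Int.ceil_lt_add_one _).le.trans h1⟩
  obtain ⟨t', ht', e'⟩ : ∃ t', |t' - p.im| ≤ 2 ∧ Real.cosh t' = Real.cosh t := by
    rcases abs_cases p.im with h | h
    · exact ⟨t, abs_le.2 ⟨by linarith [ht.1], by linarith [ht.2]⟩, rfl⟩
    · exact ⟨-t, abs_le.2 ⟨by linarith [ht.2], by linarith [ht.1]⟩, Real.cosh_neg t⟩
  have hπ := Real.pi_pos
  refine ⟨t' * Complex.I + (round (p.re / (2 * Real.pi)) : ℤ) * (2 * Real.pi), ?_,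
    ⌈Real.cosh |p.im|⌉, ?_⟩
  · rw [mem_ball, dist_eq_norm]
    refine (Complex.norm_le_abs_re_add_abs_im _).trans_lt ?_
    have h := abs_sub_round (p.re / (2 * Real.pi))
    have : |(round (p.re / (2 * Real.pi)) : ℝ) * (2 * Real.pi) - p.re| ≤ 4 := by
      rw [show (round (p.re / (2 * Real.pi)) : ℝ) * (2 * Real.pi) - p.re =
        (p.re / (2 * Real.pi) - round (p.re / (2 * Real.pi))) * (-(2 * Real.pi)) by
          field_simp; ring, abs_mul, abs_neg, abs_of_pos (by positivity : 0 < 2 * Real.pi)]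
      nlinarith [Real.pi_le_four]
    simp
    linarith
  · rw [Complex.cos_add_int_mul_two_pi, Complex.cos_mul_I, ← Complex.ofReal_cosh, e', e]
    simp

/- `2 ρ - 1 = cos (π F)`, `F` omits all integers, `F = cos (π g)`; `g` omits the points
`m ± I * log (n + sqrt (n ^ 2 - 1)) / π` (`m` an integer, `n ≥ 1`), where the cosine of `π` times the point is
`± n`; consecutive imaginary parts differ by less than one, so every disc of radius one contains such a
point.  By `bloch`, `‖deriv g z‖ ≤ 48 / (R / 4)` on `ball c (R / 2)`, so `g` is bounded on `ball c (R / 2)` by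
`‖g c‖ + 100`. -/
theorem schottky (B : ℝ) : ∃ C : ℝ, ∀ (ρ : ℂ → ℂ) (c : ℂ) (R : ℝ), 0 < R →
    DifferentiableOn ℂ ρ (ball c R) → (∀ z ∈ ball c R, ρ z ≠ 0 ∧ ρ z ≠ 1) → ‖ρ c‖ ≤ B →
      ∀ z ∈ ball c (R / 2), ‖ρ z‖ ≤ C := by
  obtain ⟨C, hC⟩ := (isCompact_closedBall (0 : ℂ) (694 + 8 * B)).exists_bound_of_continuousOn
    (f := fun w => (1 + Complex.cos (Real.pi * Complex.cos w)) / 2) (by fun_prop)
  refine ⟨C, fun ρ c R hR hρ h hB z hz => ?_⟩
  have hπ : (Real.pi : ℂ) ≠ 0 := Complex.ofReal_ne_zero.2 Real.pi_ne_zero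
  obtain ⟨b, hb, eb, nb⟩ := exists_arccos (a := fun z => 2 * ρ z - 1) hR
    ((hρ.const_mul 2).sub_const 1) fun z hz =>
      ⟨fun e => (h z hz).2 (by linear_combination e / 2),
        fun e => (h z hz).1 (by linear_combination e / 2)⟩
  have hint : ∀ z ∈ ball c R, ∀ n : ℤ, b z / Real.pi ≠ n := fun z hz n e => by
    have e1 := Complex.sin_sq_add_cos_sq (b z)
    rw [eb z hz, (div_eq_iff hπ).1 e, Complex.sin_int_mul_pi] at e1
    exact mul_ne_zero (h z hz).1 (sub_ne_zero.2 (h z hz).2) (by linear_combination e1 / 4)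
  obtain ⟨g, hg, eg, ng⟩ := exists_arccos (a := fun z => b z / Real.pi) hR (hb.div_const _)
    fun z hz => ⟨by simpa using hint z hz 1, by simpa using hint z hz (-1)⟩
  have hs : ball c (R / 2) ⊆ ball c R := ball_subset_ball (by linarith)
  have h1 := (convex_ball c (R / 2)).norm_image_sub_le_of_norm_deriv_le (f := g) (C := 1344 / R)
    (fun x hx => hg.differentiableAt (isOpen_ball.mem_nhds (hs hx))) (fun x hx => by
      have hs' : ball x (R / 2) ⊆ ball c R :=
        ball_subset_ball' (by linarith [mem_ball.1 hx])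
      obtain ⟨p, hp⟩ := bloch (r := R / 4) (by positivity) (by linarith) (hg.mono hs')
      obtain ⟨w, hw, n, hn⟩ := TSch_int p
      by_contra hlt
      rw [not_le, div_lt_iff₀ hR] at hlt
      obtain ⟨y, hy, rfl⟩ := hp (ball_subset_ball (by linarith) hw)
      exact hint y (hs' hy) n (by rw [← eg y (hs' hy), hn]))
    (mem_ball_self (by positivity)) hz
  have h2 : 1344 / R * ‖z - c‖ ≤ 672 :=
    (mul_le_mul_of_nonneg_left (mem_ball_iff_norm.1 hz).le (by positivity)).trans_eq (by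
      field_simp; norm_num)
  have h3 : ‖b c / Real.pi‖ ≤ ‖b c‖ := by
    rw [norm_div, Complex.norm_real, Real.norm_of_nonneg Real.pi_pos.le]
    exact div_le_self (norm_nonneg _) (by linarith [Real.two_le_pi])
  have h4 := norm_sub_le (2 * ρ c) 1
  rw [norm_mul, norm_one, Complex.norm_two] at h4
  have := hC (g z) (mem_closedBall_zero_iff.2 (by linarith [norm_sub_norm_le (g z) (g c)]))
  simp only [eg z (hs hz), mul_div_cancel₀ _ hπ, eb z (hs hz)] at this
  rwa [show (1 + (2 * ρ z - 1)) / 2 = ρ z by ring] at this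

/- `schottky` and the Schwarz lemma on `ball c (R / 2)`. -/
theorem aml {ε : ℝ} (hε : 0 < ε) (B : ℝ) : ∃ R : ℝ, 2 < R ∧ ∀ (ρ : ℂ → ℂ) (c : ℂ),
    DifferentiableOn ℂ ρ (ball c R) → (∀ z ∈ ball c R, ρ z ≠ 0 ∧ ρ z ≠ 1) → ‖ρ c‖ ≤ B →
      ∀ t, ‖t - c‖ ≤ 1 → ‖ρ t - ρ c‖ ≤ ε := by
  obtain ⟨C, hC⟩ := schottky B
  have h0 : 0 ≤ 4 * |C| / ε := by positivity
  refine ⟨3 + 4 * |C| / ε, by linarith, fun ρ c hρ h hB t ht => ?_⟩
  have hC' := hC ρ c _ (by linarith) hρ h hB
  have := Complex.dist_le_div_mul_dist_of_mapsTo_ball (R₂ := 2 * |C|) (z := t)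
    (hρ.mono (ball_subset_ball (by linarith : (3 + 4 * |C| / ε) / 2 ≤ _))) (fun z hz => by
      rw [mem_closedBall, dist_eq_norm]
      linarith [norm_sub_le (ρ z) (ρ c), hC' z hz, hC' c (mem_ball_self (by linarith)),
        le_abs_self C]) (mem_ball_iff_norm.2 (by linarith))
  rw [dist_eq_norm, dist_eq_norm] at this
  refine this.trans ((mul_le_of_le_one_right (by positivity) ht).trans ?_)
  rw [div_le_iff₀ (by linarith)]
  have : ε * (4 * |C| / ε) = 4 * |C| := by field_simp
  nlinarith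

end Pool.Agent.Lib.MP_7b5e47_an.Hq
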