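import Pool.Agent.Lib.MP_7b5e47_an.Hq.ADef
import Pool.Agent.Lib.MP_7b5e47_an.Hq.Fam
import Pool.Agent.Lib.MP_7b5e47_an.Hq.TSch

/-! Transport of ratios along a stable curve. -/

namespace Pool.Agent.Lib.MP_7b5e47_an.Hq

open Set Metric Filter Topology

variable {f : Equiv.Perm (ℂ × ℂ)} {d : ℝ} {G H : ℂ × ℂ → ℝ} {ψ σ : ℂ → ℂ × ℂ} {Ξ : ℂ × ℂ → ℂ × ℂ}
  {a₀ a τ₀ : ℂ} {r₀ r₁ r δ L R : ℝ} {T : Set ℂ} {α : ℂ → ℂ → ℂ}

theorem ARat_id {g : ℂ → ℂ} {c z₀ : ℂ} {s : ℝ} (hg : DifferentiableOn ℂ g (ball c s))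
    (hz : z₀ ∈ ball c s) (h : ∃ᶠ z in 𝓝[≠] z₀, g z = 0) : ∀ z ∈ ball c s, g z = 0 :=
  fun _ hz' => (hg.analyticOnNhd isOpen_ball).eqOn_zero_of_preconnected_of_frequently_eq_zero
    (convex_ball c s).isPreconnected hz h hz'

theorem ARat_id' {g : ℂ → ℂ} {c z₀ : ℂ} {s : ℝ} (hg : DifferentiableOn ℂ g (ball c s))
    (hz : z₀ ∈ ball c s) (h : ∀ᶠ z in 𝓝 z₀, g z = 0) : ∀ z ∈ ball c s, g z = 0 :=
  ARat_id hg hz (h.filter_mono nhdsWithin_le_nhds).frequently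

theorem ARat_sub {F : ℕ → ℂ → ℂ} {g : ℂ → ℂ} {s : Set ℂ}
    (h : TendstoLocallyUniformlyOn F g atTop s) (u : ℂ → ℂ) :
    TendstoLocallyUniformlyOn (fun j z => F j z - u z) (fun z => g z - u z) atTop s := by
  rw [Metric.tendstoLocallyUniformlyOn_iff] at h ⊢
  intro ε hε x hx
  obtain ⟨t, ht, h1⟩ := h ε hε x hx
  refine ⟨t, ht, h1.mono fun n hn y hy => ?_⟩
  rw [dist_sub_right]
  exact hn y hy

theorem ARat_dif (P : Plq ψ Ξ a₀ r₀ r₁) (S : Stk f H ψ Ξ a₀ r₀ δ R σ r τ₀) :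
    DifferentiableOn ℂ (fun τ => Ξ (σ τ)) (ball 0 r) :=
  P.dif.comp S.hat.1.differentiableOn fun τ hτ => (S.chart τ hτ).1

theorem ARat_base (W : Wal f H ψ Ξ a₀ r₀ T δ L α) (S : Stk f H ψ Ξ a₀ r₀ δ R σ r τ₀)
    (ha : a ∈ T) : DD α Ξ σ a τ₀ = a - (Ξ (σ τ₀)).1 := by
  rw [DD, S.zero, W.zero a ha]

theorem ARat_lip {g : ℂ → ℂ} {c : ℂ} {t : ℝ} (hR : 0 < R) (hg : DifferentiableOn ℂ g (ball c R))
    (hb : ∀ z ∈ ball c R, ‖g z‖ ≤ t) {z w : ℂ} (hz : z ∈ closedBall c (3 * R / 4))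
    (hw : w ∈ closedBall c (3 * R / 4)) : ‖g z - g w‖ ≤ 8 * t / R * ‖z - w‖ := by
  have hs : closedBall c (3 * R / 4) ⊆ ball c R := closedBall_subset_ball (by linarith)
  refine (convex_closedBall c (3 * R / 4)).norm_image_sub_le_of_norm_deriv_le (𝕜 := ℂ)
    (fun x hx => hg.differentiableAt (isOpen_ball.mem_nhds (hs hx))) (fun x hx => ?_) hw hz
  have hsub : ball x (R / 4) ⊆ ball c R :=
    ball_subset_ball' (by have := mem_closedBall.1 hx; linarith)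
  refine (Complex.norm_deriv_le_div_of_mapsTo_ball (R₂ := 2 * t) (hg.mono hsub)
    (fun y hy => ?_) (by linarith)).trans_eq (by field_simp; ring)
  rw [mem_closedBall, dist_eq_norm]
  have h1 := hb y (hsub hy)
  have h2 := hb x (hs hx)
  have h3 := norm_sub_le (g y) (g x)
  linarith

/- On a small ball `G ∘ ξ = 0` and `ξ` is bounded, so the maps `(f ^ n) ∘ ξ` are uniformly bounded (`HD.orbit`) and
`‖(f ^ n) (ξ z) - (f ^ n) (ξ c)‖ ≤ C ‖z - c‖` (Schwarz); `ξ c ∈ Wu f⁻¹ q`; `Cur.loc`. -/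
theorem lam (hd : HD f d G H) {q : ℂ × ℂ} (hσ : Cur f⁻¹ q σ) {ξ : ℂ → ℂ × ℂ}
    (hξ : Differentiable ℂ ξ) {c : ℂ} (h0 : ∀ᶠ z in 𝓝 c, G (ξ z) = 0) (hc : ξ c ∈ range σ) :
    ∀ᶠ z in 𝓝 c, ξ z ∈ range σ := by
  obtain ⟨ε, hε, hloc⟩ := hσ.loc hd
  obtain ⟨e, he, hball⟩ := Metric.eventually_nhds_iff_ball.1
    (h0.and (hξ.continuous.continuousAt.eventually (ball_mem_nhds (ξ c) one_pos)))
  obtain ⟨ρ, hρ⟩ := hd.orbit (‖ξ c‖ + 1)
  have hb : ∀ z ∈ ball c e, ∀ n : ℕ, ‖(f ^ n) (ξ z)‖ ≤ ρ := fun z hz n => by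
    refine hρ _ (hball z hz).1 ?_ n
    have h1 : ‖ξ z - ξ c‖ < 1 := mem_ball_iff_norm.1 (hball z hz).2
    have h2 := norm_sub_norm_le (ξ z) (ξ c)
    linarith
  have hs : ∀ z ∈ ball c e, ∀ n : ℕ,
      dist ((f ^ n) (ξ z)) ((f ^ n) (ξ c)) ≤ 2 * ρ / e * dist z c := fun z hz n => by
    refine Complex.dist_le_div_mul_dist_of_mapsTo_ball (f := fun z => (f ^ n) (ξ z))
      ((dif_pow hd.df n).comp hξ).differentiableOn (fun y hy => ?_) hz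
    rw [mem_closedBall, dist_eq_norm]
    have h1 := hb y hy n
    have h2 := hb c (mem_ball_self he) n
    have h3 := norm_sub_le ((f ^ n) (ξ y)) ((f ^ n) (ξ c))
    linarith
  rw [hσ.ran] at hc
  have hc' : Tendsto (fun n : ℕ => dist ((f ^ n) (ξ c)) ((f ^ n) q)) atTop (𝓝 0) := hc
  have h1 : ∀ᶠ z in 𝓝 c, 2 * ρ / e * dist z c < ε / 2 := by
    have h2 : ContinuousAt (fun z : ℂ => 2 * ρ / e * dist z c) c := by fun_prop
    exact h2.eventually (gt_mem_nhds (by simpa using hε))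
  filter_upwards [h1, ball_mem_nhds c he] with z hz hz'
  refine hloc _ ?_
  filter_upwards [hc'.eventually (gt_mem_nhds (half_pos hε))] with n hn
  rw [← dist_eq_norm]
  have h2 := hs z hz' n
  have h3 := dist_triangle ((f ^ n) (ξ z)) ((f ^ n) (ξ c)) ((f ^ n) q)
  linarith

/- Let `σs j → σ` be normalized, `y = (Ξ ∘ σ).2`, `ys j`, `xs j` the components of `Ξ ∘ σs j` on a small ball `ball τ₀ e` whose
closure is mapped into the chart.  If `y` is not zero near `τ₀`, `hurwitz` gives `τ` near `τ₀` with `ys j τ = 0`, so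
`σs j τ = ψ x`, `x = xs j τ` near `b`.  By `lam`, `Imm.lift`, `ψ = σs j ∘ A` near `x`, `A x = τ`, and `ys j (A z) = 0`,
`xs j (A z) = z`; so `ys j` vanishes frequently near `τ`, hence on the ball, for all large `j`, and `y = 0` on the ball. -/
theorem lam_hat (hd : HD f d G H) (hψ : Differentiable ℂ ψ) (P : Plq ψ Ξ a₀ r₀ r₁)
    (S : Stk f H ψ Ξ a₀ r₀ δ R σ r τ₀) (hb : (Ξ (σ τ₀)).1 ∈ ball a₀ r₁)
    (h0 : ∀ᶠ z in 𝓝 (Ξ (σ τ₀)).1, G (ψ z) = 0) : (Ξ (σ 0)).2 = 0 := by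
  have hτ₀ : τ₀ ∈ ball (0 : ℂ) r := mem_ball_zero_iff.2 S.mem
  have h00 : (0 : ℂ) ∈ ball (0 : ℂ) r := mem_ball_self ((norm_nonneg _).trans_lt S.mem)
  have hdif := ARat_dif P S
  refine ARat_id' (g := fun τ => (Ξ (σ τ)).2) hdif.snd hτ₀ ?_ 0 h00
  by_contra hn
  obtain ⟨hσ, σs, hN, hl⟩ := S.hat
  set b := (Ξ (σ τ₀)).1 with hbdef
  obtain ⟨u, hu, hU⟩ := Metric.eventually_nhds_iff_ball.1 (h0.and (isOpen_ball.mem_nhds hb))
  obtain ⟨s, hs, hsub⟩ := Metric.nhds_basis_closedBall.mem_iff.1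
    (isOpen_ball.mem_nhds (S.chart τ₀ hτ₀).1)
  have hx : ContinuousAt (fun τ => (Ξ (σ τ)).1) τ₀ :=
    (hdif.fst.differentiableAt (isOpen_ball.mem_nhds hτ₀)).continuousAt
  obtain ⟨e, he, hE⟩ := Metric.eventually_nhds_iff_ball.1
    ((hx.eventually (ball_mem_nhds b (half_pos hu))).and
      (hσ.continuous.continuousAt.eventually (ball_mem_nhds (σ τ₀) (half_pos hs))))
  have hu1 : TendstoUniformlyOn σs σ atTop (ball τ₀ e) :=
    ((tendstoLocallyUniformlyOn_iff_tendstoUniformlyOn_of_compact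
      (isCompact_closedBall τ₀ e)).1 hl.tendstoLocallyUniformlyOn).mono ball_subset_closedBall
  have hm : ∀ᶠ j in atTop, ∀ τ ∈ ball τ₀ e, σs j τ ∈ closedBall (σ τ₀) s := by
    filter_upwards [Metric.tendstoUniformlyOn_iff.1 hu1 _ (half_pos hs)] with j hj τ hτ
    have h1 := hj τ hτ
    have h2 : dist (σ τ) (σ τ₀) < s / 2 := (hE τ hτ).2
    have h3 := dist_triangle_left (σs j τ) (σ τ₀) (σ τ)
    rw [mem_closedBall]
    linarith
  have hu2 : TendstoUniformlyOn (fun j τ => Ξ (σs j τ)) (fun τ => Ξ (σ τ)) atTop (ball τ₀ e) :=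
    UniformContinuousOn.comp_tendstoUniformlyOn_eventually hm
      (fun τ hτ => ball_subset_closedBall (ball_subset_ball (by linarith) (hE τ hτ).2))
      ((isCompact_closedBall _ _).uniformContinuousOn_of_continuous
        (P.dif.continuousOn.mono hsub)) hu1
  have hy : TendstoUniformlyOn (fun j τ => (Ξ (σs j τ)).2) (fun τ => (Ξ (σ τ)).2) atTop
      (ball τ₀ e) := uniformContinuous_snd.comp_tendstoUniformlyOn hu2
  have hx2 : TendstoUniformlyOn (fun j τ => (Ξ (σs j τ)).1) (fun τ => (Ξ (σ τ)).1) atTop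
      (ball τ₀ e) := uniformContinuous_fst.comp_tendstoUniformlyOn hu2
  have hd2 : ∀ᶠ j in atTop, DifferentiableOn ℂ (fun τ => (Ξ (σs j τ)).2) (ball τ₀ e) := by
    filter_upwards [hm] with j hj
    exact (P.dif.comp (hN j).1.imm.dif.differentiableOn fun τ hτ => hsub (hj τ hτ)).snd
  have key : ∀ᶠ j in atTop, ∀ τ ∈ ball τ₀ e, (Ξ (σs j τ)).2 = 0 := by
    filter_upwards [hurwitz he hd2 hy.tendstoLocallyUniformlyOn S.zero hn he, hm, hd2,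
      Metric.tendstoUniformlyOn_iff.1 hx2 _ (half_pos hu)] with j hj hmj hdj hxj
    obtain ⟨τ, hτ, hj⟩ := hj
    set x := (Ξ (σs j τ)).1 with hxdef
    have hxu : x ∈ ball b u := by
      have h1 := hxj τ hτ
      have h2 : dist (Ξ (σ τ)).1 b < u / 2 := (hE τ hτ).1
      have h3 := dist_triangle_left x b (Ξ (σ τ)).1
      rw [mem_ball]
      linarith
    have hxr : x ∈ ball a₀ r₁ := (hU x hxu).2
    have e1 : σs j τ = ψ x :=
      P.inj (hsub (hmj τ hτ)) (P.map x hxr) (by rw [P.left x hxr]; exact Prod.ext rfl hj)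
    have hG : ∀ᶠ z in 𝓝 x, G (ψ z) = 0 :=
      Filter.eventually_of_mem (isOpen_ball.mem_nhds hxu) fun z hz => (hU z hz).1
    obtain ⟨v, hv, hV⟩ := Metric.eventually_nhds_iff_ball.1 (lam hd (hN j).1 hψ hG ⟨τ, e1⟩)
    obtain ⟨A, hA, hA'⟩ := (hN j).1.imm.lift isOpen_ball hψ.differentiableOn hV
    have e2 : A x = τ := (hN j).1.imm.inj ((hA' x (mem_ball_self hv)).symm.trans e1.symm)
    have hev : ∀ᶠ z in 𝓝 x, Ξ (σs j (A z)) = (z, 0) := by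
      filter_upwards [ball_mem_nhds x hv, isOpen_ball.mem_nhds hxr] with z h1 h2
      rw [← hA' z h1, P.left z h2]
    have ht : Tendsto A (𝓝[≠] x) (𝓝[≠] τ) := by
      refine tendsto_nhdsWithin_iff.2 ⟨?_, ?_⟩
      · rw [← e2]
        exact (hA.differentiableAt (ball_mem_nhds x hv)).continuousAt.tendsto.mono_left
          nhdsWithin_le_nhds
      · filter_upwards [hev.filter_mono nhdsWithin_le_nhds, self_mem_nhdsWithin] with z h1 h2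
        intro h3
        rw [mem_singleton_iff.1 h3] at h1
        exact h2 (congrArg Prod.fst h1).symm
    refine ARat_id hdj hτ (ht.frequently ?_)
    exact ((hev.filter_mono nhdsWithin_le_nhds).mono fun z hz => congrArg Prod.snd hz).frequently
  refine hn (Filter.eventually_of_mem (ball_mem_nhds τ₀ he) fun τ hτ => ?_)
  refine tendsto_nhds_unique (hy.tendsto_at hτ) ?_
  exact tendsto_const_nhds.congr' (key.mono fun j hj => (hj τ hτ).symm)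

/- As in `rot_inv`: `montel_ball` (`‖α a' y‖ ≤ ‖a'‖ + L δ`), `hurwitz`, identity theorem. -/
theorem Wal.approx (W : Wal f H ψ Ξ a₀ r₀ T δ L α) (ha : a ∈ T) : ∃ as : ℕ → ℂ,
    (∀ j, as j ∈ T ∧ as j ≠ a) ∧ Tendsto as atTop (𝓝 a) ∧
      TendstoLocallyUniformlyOn (fun j => α (as j)) (α a) atTop (ball 0 δ) := by
  have h0 : (0 : ℂ) ∈ ball (0 : ℂ) δ := mem_ball_self W.pos
  choose bs hT hne hlt using fun j : ℕ => W.perf a ha (1 / ((j : ℝ) + 1)) Nat.one_div_pos_of_nat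
  have hb : Tendsto bs atTop (𝓝 a) := by
    rw [tendsto_iff_norm_sub_tendsto_zero]
    exact squeeze_zero (fun _ => norm_nonneg _) (fun j => (hlt j).le)
      tendsto_one_div_add_atTop_nhds_zero_nat
  obtain ⟨φ, g, hφ, hg, hl⟩ := montel_ball (F := fun j => α (bs j)) (B := ‖a‖ + 1 + L * δ)
    (fun j => W.dif _ (hT j)) fun j z hz => by
      have h1 := W.lip _ (hT j) z hz 0 h0
      rw [W.zero _ (hT j), sub_zero] at h1
      have h2 : L * ‖z‖ ≤ L * δ := mul_le_mul_of_nonneg_left (mem_ball_zero_iff.1 hz).le W.hL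
      have h3 : 1 / ((j : ℝ) + 1) ≤ 1 :=
        div_le_one_of_le₀ (le_add_of_nonneg_left j.cast_nonneg) (by positivity)
      have h4 := norm_sub_norm_le (α (bs j) z) (bs j)
      have h5 := norm_sub_norm_le (bs j) a
      have h6 := hlt j
      linarith
  have hb' : Tendsto (fun j => bs (φ j)) atTop (𝓝 a) := hb.comp hφ.tendsto_atTop
  refine ⟨fun j => bs (φ j), fun j => ⟨hT _, hne _⟩, hb', hl.congr_right fun z hz => ?_⟩
  refine sub_eq_zero.1 (ARat_id' (g := fun z => g z - α a z) (hg.sub (W.dif a ha)) h0 ?_ z hz)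
  by_contra hn
  have h1 : g 0 - α a 0 = 0 := by
    rw [W.zero a ha, sub_eq_zero]
    refine tendsto_nhds_unique (hl.tendsto_at h0) (hb'.congr fun j => ?_)
    exact (W.zero _ (hT _)).symm
  obtain ⟨j, z, hz, hj⟩ := (hurwitz W.pos
    (Eventually.of_forall fun j => (W.dif _ (hT (φ j))).sub (W.dif a ha))
    (ARat_sub hl (α a)) h1 hn W.pos).exists
  exact W.dis _ (hT _) a ha (hne _) z hz (sub_eq_zero.1 hj)

theorem Wal.dd_dif (P : Plq ψ Ξ a₀ r₀ r₁) (W : Wal f H ψ Ξ a₀ r₀ T δ L α)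
    (S : Stk f H ψ Ξ a₀ r₀ δ R σ r τ₀) (ha : a ∈ T) :
    DifferentiableOn ℂ (DD α Ξ σ a) (ball 0 r) := by
  have hdif := ARat_dif P S
  exact ((W.dif a ha).comp hdif.snd fun τ hτ => (S.chart τ hτ).2).sub hdif.fst

/- `σ τ₁` is a point of the stable curve of `W.hat` (`P.inj`); `Hat.share`, the local property, identity theorem. -/
theorem Wal.meet (P : Plq ψ Ξ a₀ r₀ r₁) (W : Wal f H ψ Ξ a₀ r₀ T δ L α)
    (S : Stk f H ψ Ξ a₀ r₀ δ R σ r τ₀) (ha : a ∈ T) {τ₁ : ℂ} (h1 : τ₁ ∈ ball (0 : ℂ) r)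
    (hy : (Ξ (σ τ₁)).2 ≠ 0) (h : DD α Ξ σ a τ₁ = 0) : ∀ τ ∈ ball (0 : ℂ) r, DD α Ξ σ a τ = 0 := by
  obtain ⟨σ', hσ', -, h2⟩ := W.hat a ha
  obtain ⟨τ', -, h3, h4, h5⟩ := h2 _ (S.chart τ₁ h1).2
  obtain ⟨h6, h7⟩ := h5 hy
  have e : σ' τ' = σ τ₁ :=
    P.inj h3 (S.chart τ₁ h1).1 (h4.trans (Prod.ext (sub_eq_zero.1 h) rfl))
  obtain ⟨A, hA, hA', h8⟩ := hσ'.share S.hat e h6
  refine ARat_id' (W.dd_dif P S ha) h1 ?_
  have h9 : Tendsto A (𝓝 τ₁) (𝓝 τ') := hA' ▸ hA.continuousAt.tendsto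
  filter_upwards [h8, h9.eventually h7] with z e1 e2
  rw [DD, e1, e2, sub_self]

/- `DD a' τ₀ = a' - b`, so `DD a'` does not vanish identically unless `a' = b`.  Let `DD a τ₁ = 0`.  By `Wal.meet` the height
`y τ₁` is `0`, an isolated zero of `y`, and `x τ₁ = a`.  `Wal.approx`, `hurwitz`: `DD (as j)` has a zero `τ'` near `τ₁`,
`τ' ≠ τ₁` since `as j ≠ a`, so `y τ' ≠ 0` and `as j = b` for all large `j`. -/
theorem Wal.dich (P : Plq ψ Ξ a₀ r₀ r₁) (W : Wal f H ψ Ξ a₀ r₀ T δ L α)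
    (S : Stk f H ψ Ξ a₀ r₀ δ R σ r τ₀) (hy : (Ξ (σ 0)).2 ≠ 0) (ha : a ∈ T)
    (hab : a ≠ (Ξ (σ τ₀)).1) : ∀ τ ∈ ball (0 : ℂ) r, DD α Ξ σ a τ ≠ 0 := by
  intro τ₁ h1 h
  have hτ₀ : τ₀ ∈ ball (0 : ℂ) r := mem_ball_zero_iff.2 S.mem
  have h00 : (0 : ℂ) ∈ ball (0 : ℂ) r := mem_ball_self ((norm_nonneg _).trans_lt S.mem)
  have hdif := ARat_dif P S
  have hy1 : (Ξ (σ τ₁)).2 = 0 := by
    by_contra hne
    have h2 := W.meet P S ha h1 hne h τ₀ hτ₀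
    rw [ARat_base W S ha] at h2
    exact hab (sub_eq_zero.1 h2)
  have hx1 : (Ξ (σ τ₁)).1 = a := by
    rw [DD, hy1, W.zero a ha] at h
    exact (sub_eq_zero.1 h).symm
  have hiso : ∀ᶠ τ in 𝓝[≠] τ₁, (Ξ (σ τ)).2 ≠ 0 := by
    by_contra hn
    exact hy (ARat_id (g := fun τ => (Ξ (σ τ)).2) hdif.snd h1
      ((not_eventually.1 hn).mono fun τ hτ => not_not.1 hτ) 0 h00)
  obtain ⟨e, he, hE⟩ := Metric.eventually_nhds_iff_ball.1
    ((eventually_nhdsWithin_iff.1 hiso).and (isOpen_ball.mem_nhds h1))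
  have hsub : ball τ₁ e ⊆ ball 0 r := fun τ hτ => (hE τ hτ).2
  obtain ⟨as, hT, hl, hα⟩ := W.approx ha
  have hl2 : TendstoLocallyUniformlyOn (fun j => DD α Ξ σ (as j)) (DD α Ξ σ a) atTop
      (ball τ₁ e) :=
    ARat_sub (hα.comp (fun τ => (Ξ (σ τ)).2) (fun τ hτ => (S.chart τ (hsub hτ)).2)
      (hdif.snd.continuousOn.mono hsub)) fun τ => (Ξ (σ τ)).1
  have hn : ¬ ∀ᶠ τ in 𝓝 τ₁, DD α Ξ σ a τ = 0 := fun hn => by
    have h2 := ARat_id' (W.dd_dif P S ha) h1 hn τ₀ hτ₀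
    rw [ARat_base W S ha] at h2
    exact hab (sub_eq_zero.1 h2)
  have key : ∀ᶠ j in atTop, as j = (Ξ (σ τ₀)).1 := by
    filter_upwards [hurwitz he
      (Eventually.of_forall fun j => (W.dd_dif P S (hT j).1).mono hsub) hl2 h hn he] with j hj
    obtain ⟨τ, hτ, hj⟩ := hj
    have hne : τ ≠ τ₁ := fun e1 => by
      rw [e1, DD, hy1, hx1, W.zero _ (hT j).1] at hj
      exact (hT j).2 (sub_eq_zero.1 hj)
    have h2 := W.meet P S (hT j).1 (hsub hτ) ((hE τ hτ).1 hne) hj τ₀ hτ₀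
    rw [ARat_base W S (hT j).1] at h2
    exact sub_eq_zero.1 h2
  exact hab (tendsto_nhds_unique hl (tendsto_const_nhds.congr' (key.mono fun j hj => hj.symm)))

/- `aml` with `B = 8` gives `R₀`; `R = R₀ + 1`; apply it to `u ↦ DD a' (τ₀ - τ₀ u) / DD a (τ₀ - τ₀ u)` on `ball 0 R₀`, which
omits `0` (`Wal.dich`) and `1` (`W.dis`) if `a' ≠ a`. -/
theorem ratio {ε : ℝ} (hε : 0 < ε) : ∃ R : ℝ, ∀ {f : Equiv.Perm (ℂ × ℂ)} {H : ℂ × ℂ → ℝ}
    {ψ σ : ℂ → ℂ × ℂ} {Ξ : ℂ × ℂ → ℂ × ℂ} {a₀ τ₀ : ℂ} {r₀ r₁ r δ L : ℝ} {T : Set ℂ} {α : ℂ → ℂ → ℂ},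
      Plq ψ Ξ a₀ r₀ r₁ → Wal f H ψ Ξ a₀ r₀ T δ L α → Stk f H ψ Ξ a₀ r₀ δ R σ r τ₀ →
      (Ξ (σ 0)).2 ≠ 0 → ∀ a ∈ T, ∀ a' ∈ T, a ≠ (Ξ (σ τ₀)).1 → a' ≠ (Ξ (σ τ₀)).1 →
        ‖a' - (Ξ (σ τ₀)).1‖ ≤ 8 * ‖a - (Ξ (σ τ₀)).1‖ →
        ‖DD α Ξ σ a' 0 / DD α Ξ σ a 0 - (a' - (Ξ (σ τ₀)).1) / (a - (Ξ (σ τ₀)).1)‖ ≤ ε := by
  obtain ⟨R₀, hR₀, hA⟩ := aml hε 8
  refine ⟨R₀ + 1, ?_⟩
  intro f H ψ σ Ξ a₀ τ₀ r₀ r₁ r δ L T α P W S hy a ha a' ha' hab hab' hle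
  have h00 : (0 : ℂ) ∈ ball (0 : ℂ) r := mem_ball_self ((norm_nonneg _).trans_lt S.mem)
  have hne : a - (Ξ (σ τ₀)).1 ≠ 0 := sub_ne_zero.2 hab
  by_cases e : a' = a
  · rw [e, div_self (W.dich P S hy ha hab 0 h00), div_self hne, sub_self, norm_zero]
    exact hε.le
  have hm : ∀ u ∈ ball (0 : ℂ) R₀, τ₀ - τ₀ * u ∈ ball (0 : ℂ) r := fun u hu => by
    have h1 := norm_sub_le τ₀ (τ₀ * u)
    have h2 := mul_le_mul_of_nonneg_left (mem_ball_zero_iff.1 hu).le (norm_nonneg τ₀)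
    have h3 := S.far
    rw [norm_mul] at h1
    rw [mem_ball_zero_iff]
    linarith
  have hd : DifferentiableOn ℂ (fun u : ℂ => τ₀ - τ₀ * u) (ball 0 R₀) := by fun_prop
  have h1 := hA (fun u => DD α Ξ σ a' (τ₀ - τ₀ * u) / DD α Ξ σ a (τ₀ - τ₀ * u)) 0
    (((W.dd_dif P S ha').comp hd hm).div ((W.dd_dif P S ha).comp hd hm)
      fun u hu => W.dich P S hy ha hab _ (hm u hu))
    (fun u hu => ⟨div_ne_zero (W.dich P S hy ha' hab' _ (hm u hu))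
      (W.dich P S hy ha hab _ (hm u hu)), fun h => by
        rw [div_eq_one_iff_eq (W.dich P S hy ha hab _ (hm u hu)), DD, DD, sub_left_inj] at h
        exact W.dis a' ha' a ha e _ (S.chart _ (hm u hu)).2 h⟩)
    (by
      simp only [mul_zero, sub_zero]
      rw [ARat_base W S ha, ARat_base W S ha', norm_div, div_le_iff₀ (norm_pos_iff.2 hne)]
      exact hle) 1 (by simp)
  simp only [mul_zero, sub_zero, mul_one, sub_self] at h1
  rwa [ARat_base W S ha, ARat_base W S ha'] at h1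

/- We may assume `ε ≤ R / 4`, `ε ≤ 1 / 2`.  On `closedBall c (3 R / 4)` the functions `X - id` and `Y` are Lipschitz with
constant `8 t / R` (`Complex.norm_deriv_le_div_of_mapsTo_ball`), so `Φ z = z - X z + α (Y z)` is Lipschitz with constant
`(1 + L) 8 t / R ≤ ε` and `‖Φ z - a‖ ≤ (1 + L) t ≤ ε`; fixed point on `closedBall a ε`
(`ContractingWith.exists_fixedPoint'`); the last expression is `Φ v - Φ η`. -/
theorem slice (hL : 0 ≤ L) (hδ : 0 < δ) (hR : 0 < R) {ε : ℝ} (hε : 0 < ε) : ∃ t : ℝ, 0 < t ∧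
    ∀ (X Y β : ℂ → ℂ) (c a : ℂ), DifferentiableOn ℂ X (ball c R) → DifferentiableOn ℂ Y (ball c R) →
      (∀ z ∈ ball c R, ‖X z - z‖ ≤ t ∧ ‖Y z‖ ≤ t) → β 0 = a →
      (∀ y ∈ ball (0 : ℂ) δ, ∀ y' ∈ ball (0 : ℂ) δ, ‖β y - β y'‖ ≤ L * ‖y - y'‖) → ‖a - c‖ ≤ R / 2 →
      ∃ η ∈ ball c R, ‖η - a‖ ≤ ε ∧ X η = β (Y η) ∧ Y η ∈ ball (0 : ℂ) δ ∧
        ∀ v, ‖v - c‖ ≤ R / 2 → ‖β (Y v) - X v - (η - v)‖ ≤ ε * ‖η - v‖ := by
  obtain ⟨η₀, hη₀, h1, h2, h3⟩ : ∃ η₀ : ℝ, 0 < η₀ ∧ η₀ ≤ ε ∧ η₀ ≤ R / 4 ∧ η₀ ≤ 1 / 2 :=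
    ⟨min ε (min (R / 4) (1 / 2)), by positivity, min_le_left _ _,
      (min_le_right _ _).trans (min_le_left _ _), (min_le_right _ _).trans (min_le_right _ _)⟩
  obtain ⟨t, ht, h4, h5, h6⟩ : ∃ t : ℝ, 0 < t ∧ t < δ ∧ (1 + L) * t ≤ η₀ ∧
      (1 + L) * (8 * t / R) ≤ η₀ := by
    have c1 : ContinuousAt (fun t : ℝ => (1 + L) * t) 0 := by fun_prop
    have c2 : ContinuousAt (fun t : ℝ => (1 + L) * (8 * t / R)) 0 := by fun_prop
    have e1 := c1.eventually (gt_mem_nhds (show (1 + L) * 0 < η₀ by simpa using hη₀))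
    have e2 := c2.eventually (gt_mem_nhds (show (1 + L) * (8 * 0 / R) < η₀ by simpa using hη₀))
    obtain ⟨t, ⟨⟨p1, p2⟩, p3⟩, p4⟩ := ((((e1.and e2).and (gt_mem_nhds hδ)).filter_mono
      (nhdsWithin_le_nhds (s := Ioi 0))).and self_mem_nhdsWithin).exists
    exact ⟨t, p4, p3, p1.le, p2.le⟩
  refine ⟨t, ht, fun X Y β c a hX hY hb h0 hβ ha => ?_⟩
  have hs : closedBall c (3 * R / 4) ⊆ ball c R := closedBall_subset_ball (by linarith)
  have hs' : closedBall a η₀ ⊆ closedBall c (3 * R / 4) :=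
    closedBall_subset_closedBall' (by rw [dist_eq_norm]; linarith)
  have hYm : ∀ z ∈ ball c R, Y z ∈ ball (0 : ℂ) δ := fun z hz =>
    mem_ball_zero_iff.2 ((hb z hz).2.trans_lt h4)
  set Φ : ℂ → ℂ := fun z => β (Y z) - (X z - z) with hΦ
  have hlip : ∀ z ∈ closedBall c (3 * R / 4), ∀ w ∈ closedBall c (3 * R / 4),
      ‖Φ z - Φ w‖ ≤ η₀ * ‖z - w‖ := fun z hz w hw => by
    have p1 := ARat_lip (g := fun z => X z - z) hR (hX.sub differentiableOn_id)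
      (fun z hz => (hb z hz).1) hz hw
    have p2 := ARat_lip hR hY (fun z hz => (hb z hz).2) hz hw
    have p3 := hβ _ (hYm z (hs hz)) _ (hYm w (hs hw))
    have p4 := norm_sub_le (β (Y z) - β (Y w)) (X z - z - (X w - w))
    have p5 := mul_le_mul_of_nonneg_left p2 hL
    have p6 := mul_le_mul_of_nonneg_right h6 (norm_nonneg (z - w))
    rw [show Φ z - Φ w = β (Y z) - β (Y w) - (X z - z - (X w - w)) by simp only [hΦ]; ring]
    linarith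
  have hmap : ∀ z ∈ closedBall a η₀, Φ z ∈ closedBall a η₀ := fun z hz => by
    have hz' := hs (hs' hz)
    have p1 := hβ _ (hYm z hz') 0 (mem_ball_self hδ)
    rw [h0, sub_zero] at p1
    have p2 := mul_le_mul_of_nonneg_left (hb z hz').2 hL
    have p3 := (hb z hz').1
    have p4 := norm_sub_le (β (Y z) - a) (X z - z)
    rw [mem_closedBall, dist_eq_norm,
      show Φ z - a = β (Y z) - a - (X z - z) by simp only [hΦ]; ring]
    linarith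
  have hc : ContinuousOn Φ (closedBall a η₀) := by
    refine (LipschitzOnWith.of_dist_le_mul (K := ⟨η₀, hη₀.le⟩) fun z hz w hw => ?_).continuousOn
    rw [dist_eq_norm, dist_eq_norm]
    exact hlip z (hs' hz) w (hs' hw)
  obtain ⟨η, hη, hmin⟩ := (isCompact_closedBall a η₀).exists_isMinOn
    (nonempty_closedBall.2 hη₀.le) (hc.sub continuousOn_id).norm
  have hfix : Φ η = η := by
    have p1 : ‖Φ η - η‖ ≤ ‖Φ (Φ η) - Φ η‖ := hmin (hmap η hη)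
    have p2 := hlip _ (hs' (hmap η hη)) η (hs' hη)
    have p3 := mul_le_mul_of_nonneg_right h3 (norm_nonneg (Φ η - η))
    have p4 := norm_nonneg (Φ η - η)
    exact sub_eq_zero.1 (norm_eq_zero.1 (by linarith))
  refine ⟨η, hs (hs' hη), (mem_closedBall_iff_norm.1 hη).trans h1, ?_, hYm η (hs (hs' hη)),
    fun v hv => ?_⟩
  · have p1 : β (Y η) - (X η - η) = η := hfix
    linear_combination -p1
  · have p1 := hlip v (mem_closedBall_iff_norm.2 (by linarith)) η (hs' hη)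
    rw [hfix, norm_sub_rev v η] at p1
    rw [show β (Y v) - X v - (η - v) = Φ v - η by simp only [hΦ]; ring]
    exact p1.trans (mul_le_mul_of_nonneg_right h1 (norm_nonneg _))

/-- From the displacements to the parameters. -/
theorem ratio_alg {D D' p p' x : ℂ} {ε : ℝ} (hε : ε ≤ 1) (hD : D ≠ 0) (h : ‖D - p‖ ≤ ε / 100 * ‖p‖)
    (h' : ‖D' - p'‖ ≤ ε / 100 * ‖p'‖) (hx : ‖x‖ ≤ 8) (hr : ‖D' / D - x‖ ≤ ε / 2) :
    p ≠ 0 ∧ ‖p' / p - x‖ ≤ ε := by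
  have hp : p ≠ 0 := fun e => by
    rw [e, norm_zero, mul_zero, sub_zero] at h
    exact hD (norm_le_zero_iff.1 h)
  refine ⟨hp, ?_⟩
  have hε0 : 0 ≤ ε := by have := norm_nonneg (D' / D - x); linarith
  have hD0 : 0 < ‖D‖ := norm_pos_iff.2 hD
  have hp0 : 0 < ‖p‖ := norm_pos_iff.2 hp
  have h1 : ‖D'‖ ≤ 17 / 2 * ‖D‖ := by
    rw [← div_le_iff₀ hD0, ← norm_div]
    have := norm_sub_norm_le (D' / D) x
    linarith
  have h2 : ‖p'‖ ≤ 9 * ‖D‖ := by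
    have p1 := norm_sub_norm_le p' D'
    rw [norm_sub_rev] at p1
    have p2 := mul_le_mul_of_nonneg_right hε (norm_nonneg p')
    linarith
  have h3 : ‖p' / p - D' / D‖ ≤ ε / 2 := by
    rw [show p' / p - D' / D = (p' * (D - p) - (D' - p') * p) / (p * D) by field_simp; ring,
      norm_div, norm_mul, div_le_iff₀ (by positivity)]
    have p1 := norm_sub_le (p' * (D - p)) ((D' - p') * p)
    rw [norm_mul, norm_mul] at p1
    have p2 := mul_le_mul_of_nonneg_left h (norm_nonneg p')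
    have p3 := mul_le_mul_of_nonneg_right h' hp0.le
    have p4 := mul_le_mul_of_nonneg_left h2 (mul_nonneg hε0 hp0.le)
    have p5 : 0 ≤ ε * ‖p‖ * ‖D‖ := by positivity
    linarith
  have h4 := norm_add_le (p' / p - D' / D) (D' / D - x)
  rw [sub_add_sub_cancel] at h4
  linarith

end Pool.Agent.Lib.MP_7b5e47_an.Hq
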