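import Pool.Agent.Lib.MP_7b5e47_an.Hq.TMon
import Pool.Agent.Lib.MP_7b5e47_an.Hn.BAut

/-! Holomorphic fixed points, local inverses, lifting to immersed curves. -/

namespace Pool.Agent.Lib.MP_7b5e47_an.Hq

open Set Metric Filter Topology

/- The iterates `w (n+1) s = T s (w n s)`, `w 0 s = e`, are holomorphic on `O`, take values in the closed
ball and converge uniformly (`‖w (n+1) s - w n s‖ ≤ 2 r / 2 ^ n`);
`TendstoLocallyUniformlyOn.differentiableOn`. -/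
theorem pc {E : Type} [NormedAddCommGroup E] [NormedSpace ℂ E] [CompleteSpace E] {O : Set ℂ}
    (hO : IsOpen O) {T : ℂ → E → E} {e : E} {r : ℝ} (hr : 0 ≤ r)
    (hd : ∀ s ∈ O, ∀ x ∈ closedBall e r, DifferentiableAt ℂ (fun q : ℂ × E => T q.1 q.2) (s, x))
    (hm : ∀ s ∈ O, ∀ x ∈ closedBall e r, T s x ∈ closedBall e r)
    (hl : ∀ s ∈ O, ∀ x ∈ closedBall e r, ∀ y ∈ closedBall e r, ‖T s x - T s y‖ ≤ ‖x - y‖ / 2) :
    ∃ w : ℂ → E, DifferentiableOn ℂ w O ∧ ∀ s ∈ O, w s ∈ closedBall e r ∧ T s (w s) = w s ∧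
      ∀ x ∈ closedBall e r, T s x = x → x = w s := by
  let u : ℕ → ℂ → E := fun n => Nat.rec (fun _ => e) (fun _ v s => T s (v s)) n
  have u0 : ∀ s, u 0 s = e := fun _ => rfl
  have us : ∀ n s, u (n + 1) s = T s (u n s) := fun _ _ => rfl
  have hmem : ∀ n, ∀ s ∈ O, u n s ∈ closedBall e r := by
    intro n s hs
    induction n with
    | zero => exact mem_closedBall_self hr
    | succ n ih => exact hm s hs _ ih
  have hdif : ∀ n, DifferentiableOn ℂ (u n) O := by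
    intro n
    induction n with
    | zero => exact differentiableOn_const e
    | succ n ih =>
      intro s hs
      exact ((hd s hs _ (hmem n s hs)).comp s
        (differentiableAt_id.prodMk (ih.differentiableAt (hO.mem_nhds hs)))).differentiableWithinAt
  have hst : ∀ s ∈ O, ∀ n, dist (u n s) (u (n + 1) s) ≤ 2 * r / 2 / 2 ^ n := by
    intro s hs n
    induction n with
    | zero =>
      have := hmem 1 s hs
      rw [mem_closedBall, dist_comm] at this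
      rw [u0]
      simpa using this
    | succ n ih =>
      have := hl s hs _ (hmem n s hs) _ (hmem (n + 1) s hs)
      rw [← dist_eq_norm, ← dist_eq_norm, ← us n s, ← us (n + 1) s] at this
      rw [pow_succ, ← div_div]
      linarith
  have hlim : ∀ s, ∃ x, s ∈ O → Tendsto (fun n => u n s) atTop (𝓝 x) := by
    intro s
    by_cases hs : s ∈ O
    · obtain ⟨x, hx⟩ := cauchySeq_tendsto_of_complete (cauchySeq_of_le_geometric_two (hst s hs))
      exact ⟨x, fun _ => hx⟩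
    · exact ⟨e, fun h => absurd h hs⟩
  choose w hw using hlim
  have hun : TendstoUniformlyOn u w atTop O := by
    rw [Metric.tendstoUniformlyOn_iff]
    intro ε hε
    have h1 : Tendsto (fun n : ℕ => 2 * r / 2 ^ n) atTop (𝓝 0) :=
      tendsto_const_nhds.div_atTop (tendsto_pow_atTop_atTop_of_one_lt one_lt_two)
    filter_upwards [h1.eventually (gt_mem_nhds hε)] with n hn s hs
    rw [dist_comm]
    exact (dist_le_of_le_geometric_two_of_tendsto (hst s hs) (hw s hs) n).trans_lt hn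
  refine ⟨w, hun.tendstoLocallyUniformlyOn.differentiableOn (Eventually.of_forall hdif) hO,
    fun s hs => ?_⟩
  have hwm : w s ∈ closedBall e r :=
    isClosed_closedBall.mem_of_tendsto (hw s hs) (Eventually.of_forall fun n => hmem n s hs)
  have hfix : T s (w s) = w s := by
    have h1 : Tendsto (fun n => u (n + 1) s) atTop (𝓝 (w s)) :=
      (hw s hs).comp (tendsto_add_atTop_nat 1)
    have h2 : Tendsto (fun n => u (n + 1) s) atTop (𝓝 (T s (w s))) := by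
      rw [tendsto_iff_norm_sub_tendsto_zero]
      have h3 := (tendsto_iff_norm_sub_tendsto_zero.1 (hw s hs)).div_const 2
      rw [zero_div] at h3
      exact squeeze_zero (fun _ => norm_nonneg _) (fun n => hl s hs _ (hmem n s hs) _ hwm) h3
    exact tendsto_nhds_unique h2 h1
  refine ⟨hwm, hfix, fun x hx hx' => ?_⟩
  have h1 := hl s hs _ hx _ hwm
  rw [hx', hfix] at h1
  exact sub_eq_zero.1 (norm_le_zero_iff.1 (by linarith))

/-- A local inverse of `Θ` at `γ₀`. -/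
structure LInv (Θ Ξ : ℂ × ℂ → ℂ × ℂ) (γ₀ : ℂ × ℂ) (r₀ r₁ : ℝ) : Prop where
  h0 : 0 < r₀
  h1 : 0 < r₁
  dif : DifferentiableOn ℂ Ξ (ball (Θ γ₀) r₀)
  right : ∀ z ∈ ball (Θ γ₀) r₀, Θ (Ξ z) = z
  maps : ∀ γ ∈ ball γ₀ r₁, Θ γ ∈ ball (Θ γ₀) r₀
  left : ∀ γ ∈ ball γ₀ r₁, Ξ (Θ γ) = γ

/- `HasStrictFDerivAt.toOpenPartialHomeomorph` (the derivative is continuous,
`Hn.continuous_fderiv_of_diff`, `hasStrictFDerivAt_of_hasFDerivAt_of_continuousAt`; an injective
endomorphism is invertible, and so is the derivative at nearby points since `det` is continuous);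
`OpenPartialHomeomorph.hasFDerivAt_symm`. -/
theorem inv2 {Θ : ℂ × ℂ → ℂ × ℂ} (hΘ : Differentiable ℂ Θ) {γ₀ : ℂ × ℂ}
    (h : Function.Injective (fderiv ℂ Θ γ₀)) : ∃ Ξ r₀ r₁, LInv Θ Ξ γ₀ r₀ r₁ := by
  have hc : ContDiffAt ℂ 1 Θ γ₀ :=
    (contDiff_one_iff_fderiv.2 ⟨hΘ, Hn.continuous_fderiv_of_diff hΘ⟩).contDiffAt
  let L : (ℂ × ℂ) ≃L[ℂ] (ℂ × ℂ) :=
    (LinearEquiv.ofInjectiveEndo (fderiv ℂ Θ γ₀).toLinearMap h).toContinuousLinearEquiv
  have hL : HasFDerivAt Θ (L : (ℂ × ℂ) →L[ℂ] (ℂ × ℂ)) γ₀ := by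
    have : (L : (ℂ × ℂ) →L[ℂ] (ℂ × ℂ)) = fderiv ℂ Θ γ₀ := by
      ext <;> rfl
    rw [this]
    exact (hΘ γ₀).hasFDerivAt
  have hs := hc.hasStrictFDerivAt' hL one_ne_zero
  have h1 := (hc.to_localInverse hL one_ne_zero).eventually (by simp)
  have h2 := hs.eventually_right_inverse
  have h3 := hs.eventually_left_inverse
  obtain ⟨r₀, hr₀, H0⟩ := Metric.eventually_nhds_iff_ball.1 (h1.and h2)
  have h4 : ∀ᶠ γ in 𝓝 γ₀, Θ γ ∈ ball (Θ γ₀) r₀ :=
    hΘ.continuous.continuousAt.eventually (ball_mem_nhds _ hr₀)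
  obtain ⟨r₁, hr₁, H1⟩ := Metric.eventually_nhds_iff_ball.1 (h3.and h4)
  exact ⟨hc.localInverse hL one_ne_zero, r₀, r₁, hr₀, hr₁,
    fun z hz => ((H0 z hz).1.differentiableAt one_ne_zero).differentiableWithinAt,
    fun z hz => (H0 z hz).2, fun γ hγ => (H1 γ hγ).2, fun γ hγ => (H1 γ hγ).1⟩

/- `inv2` for `Θ (x, y) = ψ x + y • e` with `e` transverse to `deriv ψ a`. -/
theorem exists_plaque {ψ : ℂ → ℂ × ℂ} (hψ : Differentiable ℂ ψ) {a : ℂ} (ha : deriv ψ a ≠ 0) :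
    ∃ (e : ℂ × ℂ) (Ξ : ℂ × ℂ → ℂ × ℂ) (r₀ r₁ : ℝ),
      LInv (fun γ => ψ γ.1 + γ.2 • e) Ξ (a, 0) r₀ r₁ := by
  obtain ⟨e, he⟩ : ∃ e : ℂ × ℂ, (deriv ψ a).1 * e.2 - (deriv ψ a).2 * e.1 ≠ 0 := by
    by_cases h1 : (deriv ψ a).1 = 0
    · refine ⟨(1, 0), ?_⟩
      have h2 : (deriv ψ a).2 ≠ 0 := fun h2 => ha (Prod.ext h1 h2)
      simpa using h2
    · exact ⟨(0, 1), by simpa using h1⟩
  refine ⟨e, inv2 (by fun_prop) ?_⟩
  have h1 : HasFDerivAt (fun γ : ℂ × ℂ => ψ γ.1 + γ.2 • e) _ (a, 0) :=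
    ((hψ a).hasDerivAt.hasFDerivAt.comp ((a, 0) : ℂ × ℂ) hasFDerivAt_fst).add
      (hasFDerivAt_snd.smul_const e)
  rw [h1.fderiv, injective_iff_map_eq_zero]
  intro γ hγ
  have h2 : γ.1 • deriv ψ a + γ.2 • e = 0 := by simpa using hγ
  have h3 := congrArg Prod.fst h2
  have h4 := congrArg Prod.snd h2
  simp only [Prod.fst_add, Prod.snd_add, Prod.smul_fst, Prod.smul_snd, smul_eq_mul, Prod.fst_zero,
    Prod.snd_zero] at h3 h4
  refine Prod.ext (mul_left_cancel₀ he ?_) (mul_left_cancel₀ he ?_)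
  · rw [Prod.fst_zero, mul_zero]
    linear_combination e.2 * h3 - e.1 * h4
  · rw [Prod.snd_zero, mul_zero]
    linear_combination (deriv ψ a).1 * h4 - (deriv ψ a).2 * h3

theorem TInv_lip {ψ : ℂ → ℂ × ℂ} (h : Differentiable ℂ ψ) (a : ℂ) (R : ℝ) : ∃ C : ℝ, 0 < C ∧
    ∀ z ∈ closedBall a R, ∀ w ∈ closedBall a R, ‖ψ z - ψ w‖ ≤ C * ‖z - w‖ := by
  obtain ⟨B, hB⟩ := (isCompact_closedBall a R).exists_bound_of_continuousOn
    (h.contDiff.continuous_deriv le_rfl).continuousOn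
  refine ⟨max 1 B, lt_max_of_lt_left one_pos, fun z hz w hw => ?_⟩
  exact (convex_closedBall a R).norm_image_sub_le_of_norm_deriv_le (fun x _ => h x)
    (fun x hx => (hB x hx).trans (le_max_right _ _)) hw hz

/- The function `(z, w) ↦ dslope ψ z w` is continuous and does not vanish on a compact set; or use the
local estimate from `deriv ψ ≠ 0` and compactness. -/
theorem Imm.bilip {ψ : ℂ → ℂ × ℂ} (h : Imm ψ) (R : ℝ) : ∃ c C : ℝ, 0 < c ∧ 0 < C ∧
    ∀ z w : ℂ, ‖z‖ ≤ R → ‖w‖ ≤ R →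
      c * ‖z - w‖ ≤ ‖ψ z - ψ w‖ ∧ ‖ψ z - ψ w‖ ≤ C * ‖z - w‖ := by
  obtain ⟨C, hC, hL⟩ := TInv_lip h.dif 0 R
  have hc := h.dif.continuous
  have key : ∃ c : ℝ, 0 < c ∧ ∀ q ∈ closedBall (0 : ℂ) R ×ˢ closedBall (0 : ℂ) R,
      c * ‖q.1 - q.2‖ ≤ ‖ψ q.1 - ψ q.2‖ := by
    refine ((isCompact_closedBall (0 : ℂ) R).prod (isCompact_closedBall (0 : ℂ) R)).induction_on
      (p := fun S => ∃ c : ℝ, 0 < c ∧ ∀ q ∈ S, c * ‖q.1 - q.2‖ ≤ ‖ψ q.1 - ψ q.2‖)
      ⟨1, one_pos, fun q hq => hq.elim⟩ ?_ ?_ ?_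
    · rintro S S' hS ⟨c, hc0, hc1⟩
      exact ⟨c, hc0, fun q hq => hc1 q (hS hq)⟩
    · rintro S S' ⟨c, hc0, hc1⟩ ⟨c', hc0', hc1'⟩
      refine ⟨min c c', lt_min hc0 hc0', ?_⟩
      rintro q (hq | hq)
      · exact (mul_le_mul_of_nonneg_right (min_le_left _ _) (norm_nonneg _)).trans (hc1 q hq)
      · exact (mul_le_mul_of_nonneg_right (min_le_right _ _) (norm_nonneg _)).trans (hc1' q hq)
    · rintro ⟨z, w⟩ -
      suffices H : ∃ c : ℝ, 0 < c ∧ ∀ᶠ q : ℂ × ℂ in 𝓝 (z, w),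
          c * ‖q.1 - q.2‖ ≤ ‖ψ q.1 - ψ q.2‖ by
        obtain ⟨c, hc0, hc1⟩ := H
        exact ⟨_, mem_nhdsWithin_of_mem_nhds hc1, c, hc0, fun q hq => hq⟩
      by_cases hzw : z = w
      · subst hzw
        have hv : 0 < ‖deriv ψ z‖ := norm_pos_iff.2 (h.der z)
        have hs : HasStrictDerivAt ψ (deriv ψ z) z :=
          (h.dif.contDiff.contDiffAt (n := 1)).hasStrictDerivAt one_ne_zero
        have h1 := hs.hasStrictFDerivAt.isLittleO.def (half_pos hv)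
        refine ⟨‖deriv ψ z‖ / 2, half_pos hv, ?_⟩
        filter_upwards [h1] with q hq
        have h2 : ‖(q.1 - q.2) • deriv ψ z‖ ≤ ‖ψ q.1 - ψ q.2‖ +
            ‖ψ q.1 - ψ q.2 - (q.1 - q.2) • deriv ψ z‖ := by
          have := norm_sub_le (ψ q.1 - ψ q.2) (ψ q.1 - ψ q.2 - (q.1 - q.2) • deriv ψ z)
          rwa [sub_sub_cancel] at this
        rw [norm_smul] at h2
        have h3 : ‖ψ q.1 - ψ q.2 - (q.1 - q.2) • deriv ψ z‖ ≤ ‖deriv ψ z‖ / 2 * ‖q.1 - q.2‖ := by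
          simpa using hq
        linarith
      · have h1 : 0 < ‖z - w‖ := norm_pos_iff.2 (sub_ne_zero.2 hzw)
        have h2 : 0 < ‖ψ z - ψ w‖ := norm_pos_iff.2 (sub_ne_zero.2 fun h3 => hzw (h.inj h3))
        refine ⟨‖ψ z - ψ w‖ / (2 * ‖z - w‖), by positivity, ?_⟩
        have h3 : ∀ᶠ q : ℂ × ℂ in 𝓝 (z, w),
            ‖ψ z - ψ w‖ / (2 * ‖z - w‖) * ‖q.1 - q.2‖ < ‖ψ q.1 - ψ q.2‖ := by
          refine ContinuousAt.eventually_lt (by fun_prop) (by fun_prop) ?_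
          have : ‖ψ z - ψ w‖ / (2 * ‖z - w‖) * ‖z - w‖ = ‖ψ z - ψ w‖ / 2 := by field_simp
          show ‖ψ z - ψ w‖ / (2 * ‖z - w‖) * ‖z - w‖ < ‖ψ z - ψ w‖
          linarith
        exact h3.mono fun q hq => hq.le
  obtain ⟨c, hc0, hc1⟩ := key
  refine ⟨c, C, hc0, hC, fun z w hz hw => ?_⟩
  rw [← mem_closedBall_zero_iff] at hz hw
  exact ⟨hc1 (z, w) ⟨hz, hw⟩, hL z hz w hw⟩

/-- If `ξ` lies in the curve at points near `a` with bounded parameters, infinitely often, then it lifts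
near `a`.  A subsequence of parameters tends to `τ` with `ψ τ = ξ a`; in the coordinates of
`exists_plaque` at `τ` the second coordinate of `ξ` vanishes frequently, so identically near `a`. -/
theorem Imm.lift_near {ψ ξ : ℂ → ℂ × ℂ} (h : Imm ψ) {a : ℂ} (hξ : AnalyticAt ℂ ξ a) {R : ℝ}
    (hf : ∃ᶠ z in 𝓝[≠] a, ∃ τ, ‖τ‖ ≤ R ∧ ξ z = ψ τ) :
    ∃ A : ℂ → ℂ, AnalyticAt ℂ A a ∧ ∀ᶠ z in 𝓝 a, ξ z = ψ (A z) := by
  have hK : IsClosed (ψ '' closedBall 0 R) :=
    ((isCompact_closedBall (0 : ℂ) R).image h.dif.continuous).isClosed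
  have hca : Tendsto ξ (𝓝[≠] a) (𝓝 (ξ a)) := hξ.continuousAt.tendsto.mono_left nhdsWithin_le_nhds
  obtain ⟨τ₀, hτ₀, e₀⟩ : ξ a ∈ ψ '' closedBall 0 R :=
    hK.mem_of_frequently_of_tendsto (hf.mono fun z ⟨τ, h1, h2⟩ =>
      ⟨τ, mem_closedBall_zero_iff.2 h1, h2.symm⟩) hca
  rw [mem_closedBall_zero_iff] at hτ₀
  obtain ⟨c, C, hc, -, hb⟩ := h.bilip R
  obtain ⟨e, Ξ, r₀, r₁, hI⟩ := exists_plaque h.dif (h.der τ₀)
  have e₁ : ψ (τ₀, (0 : ℂ)).1 + (τ₀, (0 : ℂ)).2 • e = ξ a := by simp [e₀]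
  have hin : ∀ᶠ z in 𝓝 a, ξ z ∈ ball (ξ a) r₀ :=
    hξ.continuousAt.eventually (ball_mem_nhds _ hI.h0)
  have hdif := hI.dif
  have hright := hI.right
  simp only [e₁] at hdif hright
  have han : AnalyticAt ℂ (fun z => Ξ (ξ z)) a := by
    rw [Complex.analyticAt_iff_eventually_differentiableAt]
    filter_upwards [hin, hξ.eventually_analyticAt] with z h1 h2
    exact (hdif.differentiableAt (isOpen_ball.mem_nhds h1)).comp z h2.differentiableAt
  have hz : ∀ᶠ z in 𝓝 a, (Ξ (ξ z)).2 = 0 := by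
    refine (analyticAt_snd.comp han).frequently_zero_iff_eventually_zero.1 ?_
    have h1 : ∀ᶠ z in 𝓝[≠] a, ξ z ∈ ball (ξ a) (c * r₁) :=
      hca.eventually (ball_mem_nhds _ (mul_pos hc hI.h1))
    refine (hf.and_eventually h1).mono ?_
    rintro z ⟨⟨τ, h2, h3⟩, h4⟩
    have h5 := (hb τ τ₀ h2 hτ₀).1
    rw [mem_ball_iff_norm, h3, ← e₀] at h4
    have h6 : ‖τ - τ₀‖ < r₁ := lt_of_mul_lt_mul_left (h5.trans_lt h4) hc.le
    have h7 := hI.left (τ, 0) (by
      rw [mem_ball_iff_norm]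
      simpa using h6)
    simp only [zero_smul, add_zero] at h7
    show (Ξ (ξ z)).2 = 0
    rw [h3, h7]
  refine ⟨fun z => (Ξ (ξ z)).1, analyticAt_fst.comp han, ?_⟩
  filter_upwards [hin, hz] with z h1 h2
  have h3 := hright _ h1
  rw [h2, zero_smul, add_zero] at h3
  exact h3.symm

/- Every punctured neighbourhood basis element is uncountable: for each `n` the set
`ball a (1 / (n + 1)) \ {a}` is the union of the countably many sets where `‖A z‖ ≤ k`.  Let `A` be the lift as a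
function.  If for some `k` the set `{z | ‖A z‖ ≤ k}` accumulates at `a`, use `lift_near`.  Let `Z` be the open set
of the points of `O` near which `A` is analytic, and suppose `O \ Z` is not empty.  It is locally compact and
covered by the relatively closed sets `{‖A‖ ≤ k}`, so (Baire) `A` is bounded on `(O \ Z) ∩ ball a r` for some
`a ∈ O \ Z`.  By `lift_near`, `a` is isolated in `O \ Z` and `‖A z‖ → ∞` as `z → a`.  Then `1 / A` has a removable
singularity with value `0`, it is open at `a`, so `A` takes all large values near `a`, `ψ` is bounded, and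
Liouville contradicts injectivity. -/
theorem Imm.lift {ψ ξ : ℂ → ℂ × ℂ} (h : Imm ψ) {O : Set ℂ} (hO : IsOpen O)
    (hξ : DifferentiableOn ℂ ξ O) (hr : ∀ z ∈ O, ξ z ∈ range ψ) :
    ∃ A : ℂ → ℂ, DifferentiableOn ℂ A O ∧ ∀ z ∈ O, ξ z = ψ (A z) := by
  classical
  have hex : ∀ z, ∃ τ, z ∈ O → ξ z = ψ τ := by
    intro z
    by_cases hz : z ∈ O
    · obtain ⟨τ, hτ⟩ := hr z hz
      exact ⟨τ, fun _ => hτ.symm⟩
    · exact ⟨0, fun h1 => absurd h1 hz⟩
  choose A hA using hex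
  refine ⟨A, ?_, hA⟩
  have hnear : ∀ a ∈ O, ∀ R : ℝ, (∃ᶠ z in 𝓝[≠] a, ‖A z‖ ≤ R) → AnalyticAt ℂ A a := by
    intro a ha R hf
    have hO' : ∀ᶠ z in 𝓝 a, z ∈ O := hO.mem_nhds ha
    obtain ⟨A', h1, h2⟩ := h.lift_near (hξ.analyticAt (hO.mem_nhds ha)) (R := R)
      ((hf.and_eventually (hO'.filter_mono nhdsWithin_le_nhds)).mono fun z hz =>
        ⟨A z, hz.1, hA z hz.2⟩)
    refine h1.congr ?_
    filter_upwards [h2, hO'] with z h3 h4
    exact h.inj (h3.symm.trans (hA z h4))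
  by_contra hn
  set F : Set ℂ := O ∩ {z | AnalyticAt ℂ A z}ᶜ with hF
  have hFne : F.Nonempty := by
    by_contra h1
    apply hn
    intro z hz
    by_contra h2
    exact h1 ⟨z, hz, fun h3 => h2 h3.differentiableAt.differentiableWithinAt⟩
  have hlc : IsLocallyClosed F :=
    hO.isLocallyClosed.inter (isOpen_analyticAt ℂ A).isClosed_compl.isLocallyClosed
  have := hlc.locallyCompactSpace
  have := hFne.to_subtype
  have hcont : Continuous fun z : F => ξ z :=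
    (hξ.continuousOn.mono inter_subset_left).domRestrict
  obtain ⟨k, ⟨a, ha⟩, hk⟩ := nonempty_interior_of_iUnion_of_closed
    (f := fun k : ℕ => (fun z : F => ξ z) ⁻¹' (ψ '' closedBall 0 k))
    (fun k => ((isCompact_closedBall (0 : ℂ) k).image h.dif.continuous).isClosed.preimage hcont)
    (by
      refine eq_univ_of_forall fun z => ?_
      obtain ⟨k, hk⟩ := exists_nat_ge ‖A z‖
      exact mem_iUnion.2 ⟨k, A z, mem_closedBall_zero_iff.2 hk, (hA z z.2.1).symm⟩)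
  rw [mem_interior_iff_mem_nhds, mem_nhds_subtype] at hk
  obtain ⟨U, hU, hUk⟩ := hk
  have hbig : ∀ R : ℝ, ∀ᶠ z in 𝓝[≠] a, R < ‖A z‖ := by
    intro R
    by_contra h1
    exact ha.2 (hnear a ha.1 R ((not_eventually.1 h1).mono fun z hz => not_lt.1 hz))
  have hO' : ∀ᶠ z in 𝓝 a, z ∈ O := hO.mem_nhds ha.1
  have hiso : ∀ᶠ z in 𝓝[≠] a, AnalyticAt ℂ A z := by
    filter_upwards [hbig k, mem_nhdsWithin_of_mem_nhds hU, mem_nhdsWithin_of_mem_nhds hO']
      with z h1 h2 h3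
    by_contra h4
    obtain ⟨τ, h5, h6⟩ := hUk (show (⟨z, h3, h4⟩ : F) ∈ Subtype.val ⁻¹' U from h2)
    have h7 : τ = A z := h.inj (h6.trans (hA z h3))
    rw [h7, mem_closedBall_zero_iff] at h5
    exact absurd h5 (not_le.2 h1)
  set g : ℂ → ℂ := Function.update (fun z => (A z)⁻¹) a 0 with hg
  have hga : g a = 0 := Function.update_self _ _ _
  have hgz : ∀ z, z ≠ a → g z = (A z)⁻¹ := fun z hz => Function.update_of_ne hz _ _
  have hlim : Tendsto (fun z => (A z)⁻¹) (𝓝[≠] a) (𝓝 0) := by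
    refine tendsto_inv₀_cobounded.comp ?_
    rw [← tendsto_norm_atTop_iff_cobounded, Filter.tendsto_atTop]
    exact fun R => (hbig R).mono fun z hz => hz.le
  have hgan : AnalyticAt ℂ g a := by
    refine Complex.analyticAt_of_differentiable_on_punctured_nhds_of_continuousAt ?_
      (continuousAt_update_same.2 hlim)
    filter_upwards [hiso, hbig 0, self_mem_nhdsWithin] with z h1 h2 h3
    refine (h1.differentiableAt.inv (norm_pos_iff.1 h2)).congr_of_eventuallyEq ?_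
    filter_upwards [isOpen_ne.mem_nhds h3] with z' hz'
    exact hgz z' hz'
  have hopen : 𝓝 (g a) ≤ map g (𝓝 a) := by
    refine hgan.eventually_constant_or_nhds_le_map_nhds.resolve_left fun h1 => ?_
    obtain ⟨z, h2, h3, h4⟩ := ((h1.filter_mono nhdsWithin_le_nhds).and
      ((hbig 0).and (self_mem_nhdsWithin (a := a) (s := {a}ᶜ)))).exists
    rw [hga, hgz z h4] at h2
    exact inv_ne_zero (norm_pos_iff.1 h3) h2
  have hten : Tendsto ψ (cocompact ℂ) (𝓝 (ξ a)) := by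
    rw [← cobounded_eq_cocompact]
    intro W hW
    have h1 : ∀ᶠ z in 𝓝 a, ξ z ∈ W ∧ z ∈ O :=
      ((hξ.continuousOn.continuousAt (hO.mem_nhds ha.1)).eventually hW).and hO'
    have h2 : g '' {z | ξ z ∈ W ∧ z ∈ O} ∈ 𝓝 (0 : ℂ) := hga ▸ hopen (image_mem_map h1)
    have h3 : ∀ᶠ τ in Bornology.cobounded ℂ, τ⁻¹ ∈ g '' {z | ξ z ∈ W ∧ z ∈ O} :=
      tendsto_inv₀_cobounded.eventually h2
    have h4 : ∀ᶠ τ in Bornology.cobounded ℂ, τ ≠ 0 := Bornology.eventually_ne_cobounded 0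
    rw [mem_map]
    filter_upwards [h3, h4]
    rintro τ ⟨z, h5, h6⟩ h7
    have h8 : z ≠ a := by
      rintro rfl
      exact inv_ne_zero h7 (h6.symm.trans hga)
    rw [hgz z h8, inv_inj] at h6
    show ψ τ ∈ W
    rw [← h6, ← hA z h5.2]
    exact h5.1
  exact zero_ne_one (h.inj ((h.dif.apply_eq_of_tendsto_cocompact 0 hten).trans
    (h.dif.apply_eq_of_tendsto_cocompact 1 hten).symm))

theorem TInv_exp {f : ℂ → ℂ} (hf : Differentiable ℂ f) {a : ℂ} {r : ℝ}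
    (h : ∀ x ∈ closedBall a r, ‖deriv f x - 1‖ ≤ 1 / 2) {x y : ℂ} (hx : x ∈ closedBall a r)
    (hy : y ∈ closedBall a r) :
    ‖x - f x - (y - f y)‖ ≤ ‖x - y‖ / 2 ∧ ‖x - y‖ ≤ 2 * ‖f x - f y‖ := by
  have h1 : ‖x - f x - (y - f y)‖ ≤ 1 / 2 * ‖x - y‖ :=
    (convex_closedBall a r).norm_image_sub_le_of_norm_hasDerivWithin_le
      (f := fun x => x - f x) (f' := fun x => 1 - deriv f x)
      (fun z _ => ((hasDerivAt_id z).sub (hf z).hasDerivAt).hasDerivWithinAt)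
      (fun z hz => by rw [norm_sub_rev]; exact h z hz) hy hx
  have h2 := norm_add_le (x - f x - (y - f y)) (f x - f y)
  rw [show x - f x - (y - f y) + (f x - f y) = x - y by ring] at h2
  exact ⟨by linarith, by linarith⟩

theorem TInv_sol {f g : ℂ → ℂ} (hf : Differentiable ℂ f) (hg : Differentiable ℂ g) {a b : ℂ}
    {r ρ : ℝ} (hr : 0 < r) (h : ∀ x ∈ closedBall a r, ‖deriv f x - 1‖ ≤ 1 / 2)
    (h' : ∀ s ∈ ball b ρ, ‖g s - f a‖ ≤ r / 4) : ∃ w : ℂ → ℂ, DifferentiableOn ℂ w (ball b ρ) ∧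
      ∀ s ∈ ball b ρ, w s ∈ closedBall a r ∧ w s ∈ ball a r ∧ f (w s) = g s := by
  obtain ⟨w, h1, h2⟩ := pc (O := ball b ρ) isOpen_ball (T := fun s x => x - f x + g s) (e := a)
    hr.le (fun s _ x _ => by fun_prop) (fun s hs x hx => by
      have h3 := (TInv_exp hf h hx (mem_closedBall_self hr.le)).1
      have h4 := norm_add_le (x - f x - (a - f a)) (g s - f a)
      rw [show x - f x - (a - f a) + (g s - f a) = x - f x + g s - a by ring] at h4
      rw [mem_closedBall_iff_norm] at hx ⊢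
      linarith [h' s hs]) (fun s _ x hx y hy => by
      rw [add_sub_add_right_eq_sub]
      exact (TInv_exp hf h hx hy).1)
  refine ⟨w, h1, fun s hs => ?_⟩
  obtain ⟨h3, h4, -⟩ := h2 s hs
  have h5 : f (w s) = g s := by linear_combination -h4
  refine ⟨h3, ?_, h5⟩
  have h6 := (TInv_exp hf h h3 (mem_closedBall_self hr.le)).2
  rw [h5] at h6
  rw [mem_ball_iff_norm]
  linarith [h' s hs]

theorem TInv_coord {v : ℂ × ℂ} (hv : v ≠ 0) : ∃ X Y : ℂ × ℂ →L[ℂ] ℂ, X v = 1 ∧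
    ∀ w w', X w = X w' → Y w = Y w' → w = w' := by
  by_cases h1 : v.1 = 0
  · have h2 : v.2 ≠ 0 := fun h2 => hv (Prod.ext h1 h2)
    refine ⟨v.2⁻¹ • ContinuousLinearMap.snd ℂ ℂ ℂ, ContinuousLinearMap.fst ℂ ℂ ℂ, by simp [h2],
      fun w w' h3 h4 => Prod.ext h4 ?_⟩
    simpa [h2] using h3
  · refine ⟨v.1⁻¹ • ContinuousLinearMap.fst ℂ ℂ ℂ, ContinuousLinearMap.snd ℂ ℂ ℂ, by simp [h1],
      fun w w' h3 h4 => Prod.ext ?_ h4⟩
    simpa [h1] using h3

/- Let `X` be the coordinate with `deriv (X ∘ p) a ≠ 0`, `Y` the other one.  By `pc` there are holomorphic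
`T j`, `T` on a small disc around `b` with values near `a` and `X (ps j (T j z)) = X (qs j z)`, unique in
`closedBall a r`, `T j → T`.  If `D = Y ∘ q - Y ∘ p ∘ T` does not vanish near `b`, then by `hurwitz`
`D j = Y ∘ qs j - Y ∘ ps j ∘ T j` has a zero `z j` near `b`, so `qs j = ps j ∘ A j` (`Imm.lift`) with
`A j (z j) = T j (z j)`, hence `A j = T j` near `z j` (take `r' < r` for the values), `D j = 0` on the disc and
`D = 0`. -/
theorem share {ps qs : ℕ → ℂ → ℂ × ℂ} {p q : ℂ → ℂ × ℂ} (hp : ∀ j, Imm (ps j))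
    (hq : ∀ j, Differentiable ℂ (qs j)) (lp : TendstoLocallyUniformly ps p atTop)
    (lq : TendstoLocallyUniformly qs q atTop)
    (h : ∀ j a b, ps j a = qs j b → range (qs j) ⊆ range (ps j)) {a b : ℂ} (hab : p a = q b)
    (ha : deriv p a ≠ 0) :
    ∃ A : ℂ → ℂ, AnalyticAt ℂ A b ∧ A b = a ∧ ∀ᶠ z in 𝓝 b, q z = p (A z) := by
  have lp' := tendstoLocallyUniformlyOn_univ.2 lp
  have lq' := tendstoLocallyUniformlyOn_univ.2 lq
  have dp : Differentiable ℂ p := differentiableOn_univ.1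
    (lp'.differentiableOn (Eventually.of_forall fun j => (hp j).dif.differentiableOn) isOpen_univ)
  have dq : Differentiable ℂ q := differentiableOn_univ.1
    (lq'.differentiableOn (Eventually.of_forall fun j => (hq j).differentiableOn) isOpen_univ)
  have ld := lp'.deriv (Eventually.of_forall fun j => (hp j).dif.differentiableOn) isOpen_univ
  obtain ⟨X, Y, hX, hXY⟩ := TInv_coord ha
  have hder : ∀ {u : ℂ → ℂ × ℂ}, Differentiable ℂ u → ∀ x,
      deriv (fun z => X (u z)) x = X (deriv u x) := fun hu x =>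
    (X.hasFDerivAt.comp_hasDerivAt x (hu x).hasDerivAt).deriv
  have hXd : ∀ {u : ℂ → ℂ × ℂ}, Differentiable ℂ u → Differentiable ℂ fun z => X (u z) :=
    fun hu => X.differentiable.comp hu
  have hXle : ∀ (u u' : ℂ × ℂ) (ε : ℝ), dist u u' < ε → ‖X u - X u'‖ ≤ ‖X‖ * ε := fun u u' ε h1 => by
    rw [← map_sub]
    rw [dist_eq_norm] at h1
    exact X.le_opNorm_of_le h1.le
  obtain ⟨r, hr, h4⟩ : ∃ r > 0, ∀ x ∈ closedBall a r, ‖X (deriv p x) - 1‖ ≤ 1 / 4 := by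
    have h1 : ContinuousAt (fun x => ‖X (deriv p x) - 1‖) a :=
      ((X.continuous.comp (dp.contDiff.continuous_deriv le_rfl)).sub
        continuous_const).norm.continuousAt
    have h2 : ∀ᶠ x in 𝓝 a, ‖X (deriv p x) - 1‖ < 1 / 4 :=
      h1.eventually_lt continuousAt_const (by simp [hX])
    obtain ⟨r, hr, h3⟩ := nhds_basis_closedBall.eventually_iff.1 h2
    exact ⟨r, hr, fun x hx => (h3 hx).le⟩
  obtain ⟨ρ, hρ, h5⟩ : ∃ ρ > 0, ∀ s ∈ closedBall b ρ, ‖X (q s) - X (p a)‖ ≤ r / 8 := by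
    have h1 : ContinuousAt (fun s => ‖X (q s) - X (p a)‖) b :=
      ((hXd dq).continuous.sub continuous_const).norm.continuousAt
    have h2 : ∀ᶠ s in 𝓝 b, ‖X (q s) - X (p a)‖ < r / 8 :=
      h1.eventually_lt continuousAt_const (by simp [hab, hr])
    obtain ⟨ρ, hρ, h3⟩ := nhds_basis_closedBall.eventually_iff.1 h2
    exact ⟨ρ, hρ, fun x hx => (h3 hx).le⟩
  have up := Metric.tendstoUniformlyOn_iff.1
    ((tendstoLocallyUniformlyOn_iff_forall_isCompact isOpen_univ).1 lp' _ (subset_univ _)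
      (isCompact_closedBall a r))
  have uq := Metric.tendstoUniformlyOn_iff.1
    ((tendstoLocallyUniformlyOn_iff_forall_isCompact isOpen_univ).1 lq' _ (subset_univ _)
      (isCompact_closedBall b ρ))
  have ud := Metric.tendstoUniformlyOn_iff.1
    ((tendstoLocallyUniformlyOn_iff_forall_isCompact isOpen_univ).1 ld _ (subset_univ _)
      (isCompact_closedBall a r))
  have hX0 := norm_nonneg X
  have hf : ∀ x ∈ closedBall a r, ‖deriv (fun z => X (p z)) x - 1‖ ≤ 1 / 2 := fun x hx => by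
    rw [hder dp]
    linarith [h4 x hx]
  have hgood : ∀ᶠ j in atTop, (∀ x ∈ closedBall a r, ‖deriv (fun z => X (ps j z)) x - 1‖ ≤ 1 / 2) ∧
      ∀ s ∈ ball b ρ, ‖X (qs j s) - X (ps j a)‖ ≤ r / 4 := by
    filter_upwards [ud (1 / 4 / (‖X‖ + 1)) (by positivity), up (r / 16 / (‖X‖ + 1)) (by positivity),
      uq (r / 16 / (‖X‖ + 1)) (by positivity)] with j h1 h2 h3
    have hc : ∀ t : ℝ, 0 ≤ t → ‖X‖ * (t / (‖X‖ + 1)) ≤ t := fun t ht => by
      rw [← mul_div_assoc, div_le_iff₀ (by positivity)]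
      nlinarith
    refine ⟨fun x hx => ?_, fun s hs => ?_⟩
    · rw [hder (hp j).dif]
      have h6 := (hXle _ _ _ (h1 x hx)).trans (hc _ (by norm_num))
      have h7 := norm_sub_le (X (deriv p x) - 1) (X (deriv p x) - X (deriv (ps j) x))
      rw [sub_sub_sub_cancel_left] at h7
      have h8 := h4 x hx
      simp only [Function.comp_apply] at h6
      linarith
    · have h6 := (hXle _ _ _ (h2 a (mem_closedBall_self hr.le))).trans (hc _ (by positivity))
      have h7 := (hXle _ _ _ (h3 s (ball_subset_closedBall hs))).trans (hc _ (by positivity))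
      have h8 := h5 s (ball_subset_closedBall hs)
      have h9 := norm_add_le (X (q s) - X (p a) - (X (q s) - X (qs j s))) (X (p a) - X (ps j a))
      have h10 := norm_sub_le (X (q s) - X (p a)) (X (q s) - X (qs j s))
      rw [show X (q s) - X (p a) - (X (q s) - X (qs j s)) + (X (p a) - X (ps j a)) =
        X (qs j s) - X (ps j a) by ring] at h9
      linarith
  obtain ⟨T, dT, hT⟩ := TInv_sol (hXd dp) (hXd dq) hr hf (b := b) (ρ := ρ) fun s hs => by
    linarith [h5 s (ball_subset_closedBall hs)]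
  have hex : ∀ j, ∃ w : ℂ → ℂ,
      ((∀ x ∈ closedBall a r, ‖deriv (fun z => X (ps j z)) x - 1‖ ≤ 1 / 2) ∧
        ∀ s ∈ ball b ρ, ‖X (qs j s) - X (ps j a)‖ ≤ r / 4) → DifferentiableOn ℂ w (ball b ρ) ∧
      ∀ s ∈ ball b ρ, w s ∈ closedBall a r ∧ w s ∈ ball a r ∧ X (ps j (w s)) = X (qs j s) := by
    intro j
    by_cases hj : (∀ x ∈ closedBall a r, ‖deriv (fun z => X (ps j z)) x - 1‖ ≤ 1 / 2) ∧
        ∀ s ∈ ball b ρ, ‖X (qs j s) - X (ps j a)‖ ≤ r / 4
    · obtain ⟨w, hw⟩ := TInv_sol (hXd (hp j).dif) (hXd (hq j)) hr hj.1 hj.2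
      exact ⟨w, fun _ => hw⟩
    · exact ⟨id, fun h1 => absurd h1 hj⟩
  choose Ts hTs using hex
  have hb : b ∈ ball b ρ := mem_ball_self hρ
  have hTb : T b = a := by
    have h1 := (TInv_exp (hXd dp) hf (hT b hb).1 (mem_closedBall_self hr.le)).2
    rw [(hT b hb).2.2, hab, sub_self, norm_zero, mul_zero] at h1
    exact sub_eq_zero.1 (norm_le_zero_iff.1 h1)
  obtain ⟨L, hL, hLip⟩ := TInv_lip dp a r
  have hY0 := norm_nonneg Y
  have hl : TendstoUniformlyOn (fun j s => Y (qs j s) - Y (ps j (Ts j s)))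
      (fun s => Y (q s) - Y (p (T s))) atTop (ball b ρ) := by
    rw [Metric.tendstoUniformlyOn_iff]
    intro ε hε
    obtain ⟨δ, hδ, hδ'⟩ : ∃ δ > 0, ‖Y‖ * (δ + (δ + L * (2 * (‖X‖ * δ + ‖X‖ * δ)))) < ε := by
      have h1 : ContinuousAt
          (fun δ : ℝ => ‖Y‖ * (δ + (δ + L * (2 * (‖X‖ * δ + ‖X‖ * δ))))) 0 := by fun_prop
      have h2 := (h1.eventually_lt continuousAt_const (by simpa using hε)).filter_mono
        (nhdsWithin_le_nhds (s := Ioi 0))
      obtain ⟨δ, h3, h6⟩ := (h2.and self_mem_nhdsWithin).exists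
      exact ⟨δ, h6, h3⟩
    filter_upwards [hgood, up δ hδ, uq δ hδ] with j h1 h2 h3 s hs
    obtain ⟨m1, -, e1⟩ := (hTs j h1).2 s hs
    obtain ⟨m2, -, e2⟩ := hT s hs
    have k1 := h2 _ m1
    have k2 := h3 s (ball_subset_closedBall hs)
    have k3 := (TInv_exp (hXd dp) hf m2 m1).2
    have k4 := norm_sub_le (X (q s) - X (qs j s)) (X (p (Ts j s)) - X (ps j (Ts j s)))
    rw [e1, sub_sub_sub_cancel_right, ← e2] at k4
    have k5 := hXle _ _ _ k1
    have k6 := hXle _ _ _ k2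
    rw [e1] at k5
    rw [← e2] at k6
    have k7 : ‖p (T s) - p (Ts j s)‖ ≤ L * (2 * (‖X‖ * δ + ‖X‖ * δ)) :=
      (hLip _ m2 _ m1).trans (mul_le_mul_of_nonneg_left (by linarith) hL.le)
    rw [dist_eq_norm] at k1 k2 ⊢
    have k8 : Y (q s) - Y (p (T s)) - (Y (qs j s) - Y (ps j (Ts j s))) =
        Y (q s - qs j s - (p (Ts j s) - ps j (Ts j s) + (p (T s) - p (Ts j s)))) := by
      simp only [map_sub, map_add]
      ring
    rw [k8]
    refine (Y.le_opNorm_of_le ?_).trans_lt hδ'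
    exact (norm_sub_le _ _).trans (add_le_add k2.le ((norm_add_le _ _).trans (add_le_add k1.le k7)))
  have hD : ∀ᶠ z in 𝓝 b, Y (q z) - Y (p (T z)) = 0 := by
    by_contra hn
    have h1 := hurwitz hρ (hgood.mono fun j hj =>
      (Y.differentiable.comp (hq j)).differentiableOn.sub
        ((Y.differentiable.comp (hp j).dif).comp_differentiableOn (hTs j hj).1))
      hl.tendstoLocallyUniformlyOn (by rw [hTb, hab, sub_self]) hn hρ
    apply hn
    filter_upwards [ball_mem_nhds b hρ] with s hs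
    refine tendsto_nhds_unique (hl.tendsto_at hs) (tendsto_const_nhds.congr' ?_)
    filter_upwards [hgood, h1]
    rintro j hj ⟨z, hz, hz'⟩
    obtain ⟨dj, hj'⟩ := hTs j hj
    have e1 : ps j (Ts j z) = qs j z := hXY _ _ (hj' z hz).2.2 (sub_eq_zero.1 hz').symm
    obtain ⟨A, dA, hA⟩ := (hp j).lift isOpen_univ (hq j).differentiableOn
      fun t _ => h j _ _ e1 (mem_range_self t)
    rw [differentiableOn_univ] at dA
    have e2 : A z = Ts j z := (hp j).inj ((hA z (mem_univ z)).symm.trans e1.symm)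
    have e3 : A =ᶠ[𝓝 z] Ts j := by
      have k1 : ∀ᶠ t in 𝓝 z, A t ∈ ball a r :=
        dA.continuous.continuousAt.eventually (isOpen_ball.mem_nhds (e2 ▸ (hj' z hz).2.1))
      filter_upwards [k1, isOpen_ball.mem_nhds hz] with t k2 k3
      have k4 := (TInv_exp (hXd (hp j).dif) hj.1 (ball_subset_closedBall k2) (hj' t k3).1).2
      rw [(hj' t k3).2.2, ← hA t (mem_univ t), sub_self, norm_zero, mul_zero] at k4
      exact sub_eq_zero.1 (norm_le_zero_iff.1 k4)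
    have e4 : EqOn A (Ts j) (ball b ρ) :=
      (dA.differentiableOn.analyticOnNhd isOpen_ball).eqOn_of_preconnected_of_eventuallyEq
        (dj.analyticOnNhd isOpen_ball) (convex_ball b ρ).isPreconnected hz e3
    rw [← e4 hs, ← hA s (mem_univ s), sub_self]
  refine ⟨T, dT.analyticAt (ball_mem_nhds b hρ), hTb, ?_⟩
  filter_upwards [hD, ball_mem_nhds b hρ] with z h1 h2
  exact hXY _ _ (hT z h2).2.2.symm (sub_eq_zero.1 h1)

/- Put `α y = A (y ^ (1 / M))` (`Complex.cpow`); any two `M`-th roots of `y` give the same value.  Near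
`y₀ ≠ 0` use a holomorphic root (`y ↦ η₀ * (y / y₀) ^ (1 / M)`); at `0` the function is continuous, so the
singularity is removable. -/
theorem root {A : ℂ → ℂ} {r : ℝ} (hA : DifferentiableOn ℂ A (ball 0 r)) {M : ℕ} (hM : 0 < M)
    (hr : 0 < r) (h : ∀ ω : ℂ, ω ^ M = 1 → ∀ z ∈ ball (0 : ℂ) r, A (ω * z) = A z) :
    ∃ α : ℂ → ℂ, DifferentiableOn ℂ α (ball 0 (r ^ M)) ∧ ∀ z ∈ ball (0 : ℂ) r, A z = α (z ^ M) := by
  have hM' : M ≠ 0 := hM.ne'
  have hp : ∀ y : ℂ, (y ^ ((M : ℂ)⁻¹)) ^ M = y := fun y => Complex.cpow_nat_inv_pow y hM'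
  have hin : ∀ (ε : ℝ) (z : ℂ), 0 < ε → ‖z ^ M‖ < ε ^ M → z ∈ ball (0 : ℂ) ε := fun ε z hε hz => by
    rw [norm_pow] at hz
    exact mem_ball_zero_iff.2 (lt_of_pow_lt_pow_left₀ M hε.le hz)
  have key : ∀ z z' : ℂ, z' ∈ ball (0 : ℂ) r → z ^ M = z' ^ M → A z = A z' := by
    intro z z' hz' e
    by_cases h0 : z' = 0
    · rw [h0, zero_pow hM'] at e
      rw [h0, pow_eq_zero_iff hM' |>.1 e]
    · have := h (z / z') (by rw [div_pow, e, div_self (pow_ne_zero M h0)]) z' hz'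
      rwa [div_mul_cancel₀ z h0] at this
  refine ⟨fun y => A (y ^ ((M : ℂ)⁻¹)), ?_, fun z hz => (key _ z hz (hp _)).symm⟩
  rw [← Complex.differentiableOn_compl_singleton_and_continuousAt_iff
    (ball_mem_nhds (0 : ℂ) (pow_pos hr M))]
  constructor
  · rintro y₀ ⟨hy, hy0⟩
    have hy0' : y₀ ≠ 0 := hy0
    have h1 : ∀ y : ℂ, (y₀ ^ ((M : ℂ)⁻¹) * (y / y₀) ^ ((M : ℂ)⁻¹)) ^ M = y := fun y => by
      rw [mul_pow, hp, hp, mul_div_cancel₀ y hy0']
    have h2 : ∀ y ∈ ball (0 : ℂ) (r ^ M),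
        y₀ ^ ((M : ℂ)⁻¹) * (y / y₀) ^ ((M : ℂ)⁻¹) ∈ ball (0 : ℂ) r := fun y hy' =>
      hin r _ hr (by rw [h1]; exact mem_ball_zero_iff.1 hy')
    have h3 : DifferentiableAt ℂ (fun y : ℂ => y₀ ^ ((M : ℂ)⁻¹) * (y / y₀) ^ ((M : ℂ)⁻¹)) y₀ :=
      ((differentiableAt_id.div_const y₀).cpow_const (by simp [hy0'])).const_mul _
    have h4 := (hA.differentiableAt (isOpen_ball.mem_nhds (h2 y₀ hy))).comp y₀ h3
    refine (h4.congr_of_eventuallyEq ?_).differentiableWithinAt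
    filter_upwards [isOpen_ball.mem_nhds hy] with y hy'
    exact key _ _ (h2 y hy') (by rw [hp, h1])
  · have h0 : (0 : ℂ) ^ ((M : ℂ)⁻¹) = 0 := pow_eq_zero_iff hM' |>.1 (hp 0)
    have h1 : ContinuousAt (fun y : ℂ => y ^ ((M : ℂ)⁻¹)) 0 := by
      rw [Metric.continuousAt_iff]
      intro ε hε
      refine ⟨ε ^ M, pow_pos hε M, fun y hy => ?_⟩
      rw [h0]
      exact hin ε _ hε (by rw [hp]; exact mem_ball_zero_iff.1 hy)
    exact ContinuousAt.comp_of_eq (hA.continuousOn.continuousAt (ball_mem_nhds 0 hr)) h1 h0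

end Pool.Agent.Lib.MP_7b5e47_an.Hq
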