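import Pool.Agent.Lib.MP_7b5e47_an.Hq.ADef
import Pool.Agent.Lib.MP_7b5e47_an.Hq.AHop
import Pool.Agent.Lib.MP_7b5e47_an.Hq.TInv

/-! The two blown up curves cannot be close. -/

namespace Pool.Agent.Lib.MP_7b5e47_an.Hq

open Set Metric Filter Topology

theorem AZed_open (r₁ r₂ : ℝ) : IsOpen {ζ : ℂ | r₁ < ‖ζ - 0‖ ∧ ‖ζ - 0‖ < r₂} := by
  have h : Continuous fun ζ : ℂ => ‖ζ - 0‖ := by fun_prop
  exact (isOpen_lt continuous_const h).and (isOpen_lt h continuous_const)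

/- By `circ` there is `r ∈ (1, 2)` with `deriv u ≠ 0` on the circle of radius `r`; compactness gives a closed annulus on
which `‖deriv u‖ ≥ μ`.  `pc` for `T ζ x = x - (u₁ j (ζ + x) - u₀ j ζ) / deriv u ζ` on `closedBall 0 ϱ`: the derivative in `x`
is at most `1 / 2` if `‖deriv (u₁ j) (ζ + x) - deriv u ζ‖ ≤ μ / 2` (uniform continuity of `deriv u` on `closedBall 0 3`,
`TendstoLocallyUniformlyOn.deriv`), and `‖T ζ 0‖ ≤ ϱ / 2` eventually. -/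
theorem match_ann {u₀ u₁ : ℕ → ℂ → ℂ} {u : ℂ → ℂ} (h₀ : ∀ j, DifferentiableOn ℂ (u₀ j) (ball 0 4))
    (h₁ : ∀ j, DifferentiableOn ℂ (u₁ j) (ball 0 4))
    (l₀ : TendstoLocallyUniformlyOn u₀ u atTop (ball 0 4))
    (l₁ : TendstoLocallyUniformlyOn u₁ u atTop (ball 0 4)) (hn : ∃ ζ ∈ ball (0 : ℂ) 4, u ζ ≠ u 0) :
    ∃ r₁ r₂ ϱ : ℝ, 1 < r₁ ∧ r₁ < r₂ ∧ r₂ < 2 ∧ 0 < ϱ ∧ ϱ < 1 ∧ ∀ᶠ j in atTop, ∃ x : ℂ → ℂ,
      DifferentiableOn ℂ x {ζ | r₁ < ‖ζ - 0‖ ∧ ‖ζ - 0‖ < r₂} ∧ ∀ ζ : ℂ, r₁ < ‖ζ‖ → ‖ζ‖ < r₂ →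
        ‖x ζ‖ ≤ ϱ ∧ ∀ y : ℂ, ‖y‖ ≤ ϱ → u₁ j (ζ + y) = u₀ j ζ → y = x ζ := by
  have hu : DifferentiableOn ℂ u (ball 0 4) := l₀.differentiableOn (Eventually.of_forall h₀) isOpen_ball
  have hu' : DifferentiableOn ℂ (deriv u) (ball 0 4) := hu.deriv isOpen_ball
  have h34 : closedBall (0 : ℂ) 3 ⊆ ball 0 4 := closedBall_subset_ball (by norm_num)
  have hc' : ContinuousOn (deriv u) (closedBall 0 3) := hu'.continuousOn.mono h34
  obtain ⟨r, hr, hr0⟩ : ∃ r ∈ Ioo (1 : ℝ) 2, ∀ z : ℂ, ‖z‖ = r → deriv u z ≠ 0 := by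
    by_contra hcon
    push Not at hcon
    have h1 := circ isOpen_ball (convex_ball (0 : ℂ) 4).isPreconnected hu' (c := 0) one_lt_two
      (fun z _ hz => mem_ball_zero_iff.2 (by rw [sub_zero] at hz; linarith))
      (fun r hr _ => by simpa using hcon r hr) two_pos
    obtain ⟨ζ, hζ, hne⟩ := hn
    exact hne (isOpen_ball.is_const_of_deriv_eq_zero (convex_ball (0 : ℂ) 4).isPreconnected hu h1 hζ
      (mem_ball_self (by norm_num)))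
  obtain ⟨η, hη, hη0⟩ : ∃ η : ℝ, 0 < η ∧ ∀ z ∈ closedBall (0 : ℂ) 3, |‖z‖ - r| < η → deriv u z ≠ 0 := by
    have hZ : IsCompact (closedBall (0 : ℂ) 3 ∩ deriv u ⁻¹' {0}) :=
      (isCompact_closedBall 0 3).of_isClosed_subset
        (hc'.preimage_isClosed_of_isClosed isClosed_closedBall isClosed_singleton) inter_subset_left
    obtain ⟨η, hη, h1⟩ := hZ.exists_forall_le' (f := fun z => |‖z‖ - r|) (by fun_prop) (a := 0)
      fun z hz => abs_pos.2 fun e => hr0 z (by linarith) hz.2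
    exact ⟨η, hη, fun z hz h2 h3 => (h1 z ⟨hz, h3⟩).not_gt h2⟩
  obtain ⟨r₁, r₂, h11, h12, h22, hA⟩ : ∃ r₁ r₂ : ℝ, 1 < r₁ ∧ r₁ < r₂ ∧ r₂ < 2 ∧
      ∀ z : ℂ, r₁ ≤ ‖z‖ → ‖z‖ ≤ r₂ → deriv u z ≠ 0 := by
    refine ⟨max ((1 + r) / 2) (r - η / 2), min ((2 + r) / 2) (r + η / 2),
      lt_max_of_lt_left (by linarith [hr.1]), lt_trans (b := r) (max_lt (by linarith [hr.1]) (by linarith))
        (lt_min (by linarith [hr.2]) (by linarith)), min_lt_of_left_lt (by linarith [hr.2]),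
      fun z h1 h2 => hη0 z (mem_closedBall_zero_iff.2 ?_) (abs_lt.2 ⟨?_, ?_⟩)⟩
    · linarith [h2.trans (min_le_left _ _), hr.2]
    · linarith [(le_max_right _ _).trans h1]
    · linarith [h2.trans (min_le_right _ _)]
  obtain ⟨μ, hμ, hμ1⟩ : ∃ μ : ℝ, 0 < μ ∧ ∀ z : ℂ, r₁ ≤ ‖z‖ → ‖z‖ ≤ r₂ → μ ≤ ‖deriv u z‖ := by
    have hK : IsCompact (closedBall (0 : ℂ) r₂ \ ball 0 r₁) := (isCompact_closedBall 0 r₂).diff isOpen_ball
    obtain ⟨μ, hμ, h1⟩ := hK.exists_forall_le' (f := fun z => ‖deriv u z‖)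
      (hc'.mono (sdiff_subset.trans (closedBall_subset_closedBall (by linarith)))).norm (a := 0)
      fun z hz => norm_pos_iff.2 (hA z (by simpa using hz.2) (by simpa using hz.1))
    exact ⟨μ, hμ, fun z h2 h3 => h1 z ⟨by simpa using h3, by simpa using h2⟩⟩
  obtain ⟨ϱ₀, hϱ₀, huc⟩ := Metric.uniformContinuousOn_iff.1
    ((isCompact_closedBall (0 : ℂ) 3).uniformContinuousOn_of_continuous hc') (μ / 4) (by positivity)
  obtain ⟨ϱ, hϱ, hϱ1, hϱ2⟩ : ∃ ϱ : ℝ, 0 < ϱ ∧ ϱ < 1 ∧ ϱ < ϱ₀ :=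
    ⟨min (1 / 2) (ϱ₀ / 2), by positivity, min_lt_of_left_lt (by norm_num),
      min_lt_of_right_lt (half_lt_self hϱ₀)⟩
  refine ⟨r₁, r₂, ϱ, h11, h12, h22, hϱ, hϱ1, ?_⟩
  have e₀ := Metric.tendstoUniformlyOn_iff.1 (TMon_unif l₀ (s := 3) (by norm_num)) (μ * ϱ / 4)
    (by positivity)
  have e₁ := Metric.tendstoUniformlyOn_iff.1 (TMon_unif l₁ (s := 3) (by norm_num)) (μ * ϱ / 4)
    (by positivity)
  have e₂ := Metric.tendstoUniformlyOn_iff.1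
    (TMon_unif (l₁.deriv (Eventually.of_forall h₁) isOpen_ball) (s := 3) (by norm_num)) (μ / 4)
    (by positivity)
  filter_upwards [e₀, e₁, e₂] with j f₀ f₁ f₂
  have hO := AZed_open r₁ r₂
  have m0 : ∀ ζ ∈ {ζ : ℂ | r₁ < ‖ζ - 0‖ ∧ ‖ζ - 0‖ < r₂}, r₁ < ‖ζ‖ ∧ ‖ζ‖ < r₂ := fun ζ h => by
    simpa using h
  have m1 : ∀ ζ : ℂ, ‖ζ‖ < r₂ → ∀ x ∈ closedBall (0 : ℂ) ϱ, ζ + x ∈ closedBall (0 : ℂ) 3 :=
    fun ζ h x hx => mem_closedBall_zero_iff.2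
      ((norm_add_le _ _).trans (by linarith [mem_closedBall_zero_iff.1 hx]))
  have m2 : ∀ ζ : ℂ, ‖ζ‖ < r₂ → ζ ∈ closedBall (0 : ℂ) 3 :=
    fun ζ h => mem_closedBall_zero_iff.2 (by linarith)
  have lip : ∀ ζ : ℂ, r₁ < ‖ζ‖ → ‖ζ‖ < r₂ → ∀ x ∈ closedBall (0 : ℂ) ϱ, ∀ y ∈ closedBall (0 : ℂ) ϱ,
      ‖x - (u₁ j (ζ + x) - u₀ j ζ) / deriv u ζ - (y - (u₁ j (ζ + y) - u₀ j ζ) / deriv u ζ)‖ ≤
        ‖x - y‖ / 2 := by
    intro ζ a1 a2 x hx y hy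
    have a3 := hμ1 ζ a1.le a2.le
    have a4 : 0 < ‖deriv u ζ‖ := hμ.trans_le a3
    have a5 : deriv u ζ ≠ 0 := norm_pos_iff.1 a4
    have key := (convex_closedBall (0 : ℂ) ϱ).norm_image_sub_le_of_norm_hasDerivWithin_le
      (f := fun x => x - (u₁ j (ζ + x) - u₀ j ζ) / deriv u ζ)
      (f' := fun x => 1 - deriv (u₁ j) (ζ + x) / deriv u ζ) (C := 1 / 2) (fun w hw => by
        have b1 : HasDerivAt (u₁ j) (deriv (u₁ j) (ζ + w)) (ζ + w) :=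
          ((h₁ j).differentiableAt (isOpen_ball.mem_nhds (h34 (m1 ζ a2 w hw)))).hasDerivAt
        have b2 : HasDerivAt (fun x => u₁ j (ζ + x)) (deriv (u₁ j) (ζ + w)) w := b1.comp_const_add ζ w
        exact ((hasDerivAt_id' w).fun_sub ((b2.sub_const _).div_const _)).hasDerivWithinAt)
      (fun w hw => by
        have b1 := f₂ _ (m1 ζ a2 w hw)
        have b2 := huc _ (m2 ζ a2) _ (m1 ζ a2 w hw) (by
          rw [dist_self_add_right]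
          exact (mem_closedBall_zero_iff.1 hw).trans_lt hϱ2)
        have b3 := dist_triangle (deriv u ζ) (deriv u (ζ + w)) (deriv (u₁ j) (ζ + w))
        simp only [Function.comp_apply] at b1
        rw [one_sub_div a5, norm_div, div_le_iff₀ a4, ← dist_eq_norm]
        linarith) hy hx
    linarith
  obtain ⟨w, hw, hw1⟩ := pc hO (T := fun ζ x => x - (u₁ j (ζ + x) - u₀ j ζ) / deriv u ζ) (e := 0) hϱ.le
    (fun ζ hζ x hx => by
      obtain ⟨a1, a2⟩ := m0 ζ hζ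
      have b0 := isOpen_ball.mem_nhds (h34 (m2 ζ a2))
      have b1 : DifferentiableAt ℂ (fun q : ℂ × ℂ => u₁ j (q.1 + q.2)) (ζ, x) :=
        DifferentiableAt.comp (g := u₁ j) (ζ, x)
          ((h₁ j).differentiableAt (isOpen_ball.mem_nhds (h34 (m1 ζ a2 x hx)))) (by fun_prop)
      have b2 : DifferentiableAt ℂ (fun q : ℂ × ℂ => u₀ j q.1) (ζ, x) :=
        DifferentiableAt.comp (g := u₀ j) (ζ, x) ((h₀ j).differentiableAt b0) differentiableAt_fst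
      have b3 : DifferentiableAt ℂ (fun q : ℂ × ℂ => deriv u q.1) (ζ, x) :=
        DifferentiableAt.comp (g := deriv u) (ζ, x) (hu'.differentiableAt b0) differentiableAt_fst
      simp only [div_eq_mul_inv]
      exact differentiableAt_snd.fun_sub ((b1.fun_sub b2).fun_mul (b3.fun_inv (hA ζ a1.le a2.le))))
    (fun ζ hζ x hx => by
      obtain ⟨a1, a2⟩ := m0 ζ hζ
      have a3 := hμ1 ζ a1.le a2.le
      have a4 : 0 < ‖deriv u ζ‖ := hμ.trans_le a3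
      have b1 := lip ζ a1 a2 x hx 0 (mem_closedBall_self hϱ.le)
      have b2 : ‖(0 : ℂ) - (u₁ j (ζ + 0) - u₀ j ζ) / deriv u ζ‖ ≤ ϱ / 2 := by
        rw [zero_sub, norm_neg, add_zero, norm_div, div_le_iff₀ a4, ← dist_eq_norm]
        have c1 := f₀ ζ (m2 ζ a2)
        have c2 := f₁ ζ (m2 ζ a2)
        have c3 := dist_triangle_left (u₁ j ζ) (u₀ j ζ) (u ζ)
        nlinarith
      have b3 := mem_closedBall_zero_iff.1 hx
      rw [sub_zero] at b1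
      rw [mem_closedBall_zero_iff]
      exact (norm_le_norm_add_norm_sub' _ _).trans (add_le_add b2 b1 |>.trans (by linarith)))
    (fun ζ hζ => lip ζ (m0 ζ hζ).1 (m0 ζ hζ).2)
  refine ⟨w, hw, fun ζ a1 a2 => ?_⟩
  obtain ⟨b1, -, b2⟩ := hw1 ζ (by simpa using ⟨a1, a2⟩)
  refine ⟨mem_closedBall_zero_iff.1 b1, fun y hy e => b2 y (mem_closedBall_zero_iff.2 hy) ?_⟩
  simp only [e, sub_self, zero_div, sub_zero]

theorem AZed_sub {F : ℕ → ℂ → ℂ × ℂ} {Q : ℂ → ℂ × ℂ} {O : Set ℂ}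
    (h : TendstoLocallyUniformlyOn F Q atTop O) {s : ℕ → ℕ} (hs : Tendsto s atTop atTop) :
    TendstoLocallyUniformlyOn (fun j => F (s j)) Q atTop O := by
  intro u hu x hx
  obtain ⟨t, ht, h1⟩ := h u hu x hx
  exact ⟨t, ht, hs.eventually h1⟩

theorem AZed_pt {F : ℕ → ℂ → ℂ × ℂ} {Q : ℂ → ℂ × ℂ} (dQ : DifferentiableOn ℂ Q (ball 0 4))
    (h : TendstoLocallyUniformlyOn F Q atTop (ball 0 4)) {s : ℕ → ℕ} (hs : Tendsto s atTop atTop)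
    {ζ : ℕ → ℂ} {z : ℂ} (hz : ‖z‖ < 4) (hζ : Tendsto ζ atTop (𝓝 z)) :
    Tendsto (fun j => F (s j) (ζ j)) atTop (𝓝 (Q z)) := by
  have h1 : z ∈ ball (0 : ℂ) 4 := mem_ball_zero_iff.2 hz
  refine (AZed_sub h hs).tendsto_comp (dQ.continuousOn z h1) h1 ?_
  rwa [isOpen_ball.nhdsWithin_eq h1]

theorem AZed_lim {G : ℂ × ℂ → ℝ} (hG : Continuous G) {B c : ℝ} (hc : 0 < c) {e : ℕ → ℝ}
    {P₀ P₁ : ℕ → ℂ → ℂ × ℂ} {θ : ℕ → ℂ} (hB : ∀ j, BL G B c (e j) (P₀ j) (P₁ j) (θ j))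
    (he : Tendsto e atTop (𝓝 0)) {Q₀ Q₁ : ℂ → ℂ × ℂ} (dQ₀ : DifferentiableOn ℂ Q₀ (ball 0 4))
    (dQ₁ : DifferentiableOn ℂ Q₁ (ball 0 4)) (l₀ : TendstoLocallyUniformlyOn P₀ Q₀ atTop (ball 0 4))
    (l₁ : TendstoLocallyUniformlyOn P₁ Q₁ atTop (ball 0 4)) : False := by
  have heq : EqOn Q₀ Q₁ (ball 0 4) := by
    have h1 := circ isOpen_ball (convex_ball (0 : ℂ) 4).isPreconnected (dQ₀.fun_sub dQ₁) (c := 0)
      one_lt_two (fun z _ hz => mem_ball_zero_iff.2 (by rw [sub_zero] at hz; linarith))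
      (fun r hr _ => ?_) two_pos
    · exact fun z hz => sub_eq_zero.1 (h1 z hz)
    choose ζ₀ ζ₁ a1 a2 a3 using fun j => (hB j).pair r (Ioo_subset_Icc_self hr)
    obtain ⟨z, hz, t, ht, hl⟩ := (isCompact_sphere (0 : ℂ) r).tendsto_subseq (x := ζ₀)
      fun j => mem_sphere_zero_iff_norm.2 (a1 j)
    have hz' := mem_sphere_zero_iff_norm.1 hz
    have hz4 : ‖z‖ < 4 := by linarith [hr.2]
    have h2 : Tendsto (fun j => ζ₁ (t j) - ζ₀ (t j)) atTop (𝓝 0) :=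
      squeeze_zero_norm (fun j => a2 (t j)) (he.comp ht.tendsto_atTop)
    have h3 : Tendsto (fun j => ζ₁ (t j)) atTop (𝓝 z) := by simpa using h2.add hl
    have h4 := AZed_pt dQ₀ l₀ ht.tendsto_atTop hz4 hl
    have h5 := AZed_pt dQ₁ l₁ ht.tendsto_atTop hz4 h3
    refine ⟨z, by simpa using hz', sub_eq_zero.2 (tendsto_nhds_unique h4 (h5.congr fun j => ?_))⟩
    exact (a3 (t j)).symm
  have h0 : G (Q₁ 0) = 0 :=
    tendsto_nhds_unique ((hG.tendsto _).comp (l₁.tendsto_at (mem_ball_self (by norm_num))))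
      (tendsto_const_nhds.congr fun j => (hB j).zero.symm)
  obtain ⟨z, hz, hz1⟩ : ∃ z ∈ ball (0 : ℂ) 4, Q₁ z ≠ Q₁ 0 := by
    choose ζ a1 a2 using fun j => (hB j).big
    obtain ⟨z, hz, t, ht, hl⟩ := (isCompact_closedBall (0 : ℂ) 1).tendsto_subseq (x := ζ)
      fun j => mem_closedBall_zero_iff.2 (a1 j)
    have hz4 : ‖z‖ < 4 := by linarith [mem_closedBall_zero_iff.1 hz]
    have h1 : c ≤ G (Q₁ z) :=
      ge_of_tendsto' ((hG.tendsto _).comp (AZed_pt dQ₁ l₁ ht.tendsto_atTop hz4 hl)) fun j => a2 (t j)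
    refine ⟨z, mem_ball_zero_iff.2 hz4, fun e => ?_⟩
    rw [e, h0] at h1
    exact h1.not_gt hc
  obtain ⟨X, hX⟩ : ∃ X : ℂ × ℂ →L[ℂ] ℂ, X (Q₁ z) ≠ X (Q₁ 0) := by
    by_cases h1 : (Q₁ z).1 = (Q₁ 0).1
    · exact ⟨ContinuousLinearMap.snd ℂ ℂ ℂ, fun h2 => hz1 (Prod.ext h1 h2)⟩
    · exact ⟨ContinuousLinearMap.fst ℂ ℂ ℂ, h1⟩
  obtain ⟨r₁, r₂, ϱ, h11, h12, h22, hϱ, hϱ1, hev⟩ := match_ann (u₀ := fun j ζ => X (P₀ j ζ))
    (u₁ := fun j ζ => X (P₁ j ζ)) (u := fun ζ => X (Q₁ ζ))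
    (fun j => X.differentiable.comp_differentiableOn (hB j).d0)
    (fun j => X.differentiable.comp_differentiableOn (hB j).d1)
    (tluo_comp isOpen_ball dQ₁.continuousOn (l₀.congr_right heq) X.continuous)
    (tluo_comp isOpen_ball dQ₁.continuousOn l₁ X.continuous) ⟨z, hz, hX⟩
  obtain ⟨j, ⟨x, dx, hx⟩, hj⟩ := (hev.and (he.eventually_le_const hϱ)).exists
  have hO := AZed_open r₁ r₂
  have m1 : ∀ ζ : ℂ, r₁ < ‖ζ‖ → ‖ζ‖ < r₂ → ζ + x ζ ∈ ball (0 : ℂ) 4 := fun ζ a1 a2 =>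
    mem_ball_zero_iff.2 ((norm_add_le _ _).trans_lt (by linarith [(hx ζ a1 a2).1]))
  have hF := circ hO (isPreconnected_annulus 0 (by linarith))
    (F := fun ζ => P₁ j (ζ + x ζ) - P₀ j ζ) (DifferentiableOn.fun_sub
      ((hB j).d1.comp (differentiableOn_id.add dx) fun ζ hζ =>
        m1 ζ (by simpa using hζ.1) (by simpa using hζ.2))
      ((hB j).d0.mono fun ζ hζ => mem_ball_zero_iff.2 (by linarith [sub_zero ζ ▸ hζ.2])))
    (c := 0) (r₁ := (2 * r₁ + r₂) / 3) (r₂ := (r₁ + 2 * r₂) / 3) (by linarith)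
    (fun ζ a1 a2 => ⟨by linarith, by linarith⟩) (fun r hr _ => by
      obtain ⟨ζ₀, ζ₁, a1, a2, a3⟩ := (hB j).pair r ⟨by linarith [hr.1], by linarith [hr.2]⟩
      have a4 := (hx ζ₀ (by linarith [hr.1]) (by linarith [hr.2])).2 (ζ₁ - ζ₀) (a2.trans hj)
        (by simp only [add_sub_cancel, a3])
      refine ⟨ζ₀, by simpa using a1, ?_⟩
      simp only [← a4, add_sub_cancel, a3, sub_self]) (by linarith)
  obtain ⟨r, hr1, hr2⟩ := exists_between h12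
  have hn : ‖(r : ℂ) * θ j‖ = r := by
    rw [norm_mul, (hB j).unit, mul_one, Complex.norm_real, Real.norm_of_nonneg (by linarith)]
  have h1 := sub_eq_zero.1 (hF (r * θ j) (by simpa only [mem_ofPred_eq, sub_zero, hn] using ⟨hr1, hr2⟩))
  have h2 := (hB j).ray r ⟨by linarith, by linarith⟩
  have h3 := (hx (r * θ j) (by rwa [hn]) (by rwa [hn])).1
  have h4 := (hB j).pos _ (m1 (r * θ j) (by rwa [hn]) (by rwa [hn])) (by
    have b1 : ‖x (r * θ j) * (starRingEnd ℂ) (θ j)‖ ≤ ϱ := by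
      rwa [norm_mul, Complex.norm_conj, (hB j).unit, mul_one]
    have b2 := (abs_le.1 ((Complex.abs_re_le_norm _).trans b1)).1
    rw [add_mul, mul_assoc, Complex.mul_conj', (hB j).unit, Complex.add_re]
    simp only [Complex.ofReal_one, one_pow, mul_one, Complex.ofReal_re]
    linarith)
  rw [h1, h2] at h4
  exact lt_irrefl _ h4

/- Otherwise take data for `ε = 1 / (j + 1)` and limits `Ψ₀`, `Ψ₁` (`montel_ball2`).  Limits of the pairs and `circ` give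
`Ψ₀ = Ψ₁` on the ball; the limit is not constant (`zero`, `big`), so one component `u` is not constant.  `match_ann`; for large
`j` the function `ζ ↦ Ψ₁ j (ζ + x ζ) - Ψ₀ j ζ` has a zero on every circle in the annulus, so it vanishes (`circ`,
`isPreconnected_annulus`).  Evaluate at `ζ = r θ`. -/
theorem no_bl {G : ℂ × ℂ → ℝ} (hG : Continuous G) (B : ℝ) {c : ℝ} (hc : 0 < c) :
    ∃ ε : ℝ, 0 < ε ∧ ∀ Ψ₀ Ψ₁ θ, ¬ BL G B c ε Ψ₀ Ψ₁ θ := by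
  by_contra hcon
  push Not at hcon
  choose Ψ₀ Ψ₁ θ hB using fun j : ℕ => hcon (1 / ((j : ℝ) + 1)) Nat.one_div_pos_of_nat
  obtain ⟨φ, Q₀, hφ, dQ₀, -, l₀⟩ := montel_ball2 (F := Ψ₀)
    (Eventually.of_forall fun j => ⟨(hB j).d0, (hB j).b0⟩)
  obtain ⟨φ', Q₁, hφ', dQ₁, -, l₁⟩ := montel_ball2 (F := fun j => Ψ₁ (φ j))
    (Eventually.of_forall fun j => ⟨(hB (φ j)).d1, (hB (φ j)).b1⟩)
  have he : Tendsto (fun j => 1 / ((φ (φ' j) : ℝ) + 1)) atTop (𝓝 0) :=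
    tendsto_one_div_add_atTop_nhds_zero_nat.comp (hφ.comp hφ').tendsto_atTop
  exact AZed_lim hG hc (fun j => hB (φ (φ' j))) he dQ₀ dQ₁ (AZed_sub l₀ hφ'.tendsto_atTop) l₁

end Pool.Agent.Lib.MP_7b5e47_an.Hq
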