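import Pool.Agent.Lib.MP_7b5e47_an.Hq.TInv

/-! The closing lemma in coordinates. -/

namespace Pool.Agent.Lib.MP_7b5e47_an.Hq

open Set Metric Filter Topology

theorem Clo_fd {E F : Type} [NormedAddCommGroup E] [NormedSpace ℂ E] [NormedAddCommGroup F]
    [NormedSpace ℂ F] {f : E → F} {c x : E} {ρ M : ℝ} (hρ : 0 < ρ)
    (hf : DifferentiableOn ℂ f (ball c ρ)) (hM : ∀ y ∈ ball c ρ, ‖f y‖ ≤ M)
    (hx : x ∈ closedBall c (ρ / 2)) : ‖fderiv ℂ f x‖ ≤ 4 * M / ρ := by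
  have hs : ball x (ρ / 2) ⊆ ball c ρ := ball_subset_ball' (by linarith [mem_closedBall.1 hx])
  refine (Complex.norm_fderiv_le_div_of_mapsTo_ball (R₂ := 2 * M) (hf.mono hs) (fun y hy => ?_)
    (half_pos hρ)).trans_eq (by field_simp; ring)
  rw [mem_closedBall, dist_eq_norm]
  linarith [norm_sub_le (f y) (f x), hM y (hs hy), hM x (hs (mem_ball_self (half_pos hρ)))]

theorem Clo_lip {E F : Type} [NormedAddCommGroup E] [NormedSpace ℂ E] [NormedAddCommGroup F]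
    [NormedSpace ℂ F] {f : E → F} {c x y : E} {ρ M : ℝ} (hρ : 0 < ρ)
    (hf : DifferentiableOn ℂ f (ball c ρ)) (hM : ∀ y ∈ ball c ρ, ‖f y‖ ≤ M)
    (hx : x ∈ closedBall c (ρ / 2)) (hy : y ∈ closedBall c (ρ / 2)) :
    ‖f x - f y‖ ≤ 4 * M / ρ * ‖x - y‖ :=
  (convex_closedBall c (ρ / 2)).norm_image_sub_le_of_norm_fderiv_le
    (fun _ hz => hf.differentiableAt (isOpen_ball.mem_nhds
      (closedBall_subset_ball (half_lt_self hρ) hz)))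
    (fun _ hz => Clo_fd hρ hf hM hz) hy hx

theorem Clo_log {γ : ℂ → ℂ} {c : ℂ} (hγ : AnalyticAt ℂ γ c) (h0 : γ c = 0)
    (hn : ¬ ∀ᶠ z in 𝓝 c, γ z = 0) : ∀ᶠ z in 𝓝 c, ‖γ z‖ ≤ 2 * ‖z - c‖ * ‖deriv γ z‖ := by
  obtain ⟨k, u, hu, hu0, he⟩ := hγ.exists_eventuallyEq_pow_smul_nonzero_iff.2 hn
  obtain _ | j := k
  · have := he.self_of_nhds
    rw [h0, pow_zero, one_smul] at this
    exact absurd this.symm hu0
  have hc := hu.continuousAt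
  have hc' := hu.deriv.continuousAt
  have h1 : ∀ᶠ z in 𝓝 c, ‖u z‖ < 2 * ‖((j : ℂ) + 1) * u z + (z - c) * deriv u z‖ := by
    refine ContinuousAt.eventually_lt (by fun_prop) (by fun_prop) ?_
    have h2 : ‖(j : ℂ) + 1‖ = j + 1 := by exact_mod_cast Complex.norm_natCast (j + 1)
    have h3 := norm_pos_iff.2 hu0
    have h4 : (0 : ℝ) ≤ j := Nat.cast_nonneg j
    simp only [sub_self, zero_mul, add_zero, norm_mul, h2]
    nlinarith
  filter_upwards [h1, he.eventually_nhds, hu.eventually_analyticAt] with z z1 z2 z3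
  have h2 := ((((hasDerivAt_id z).sub_const c).pow (j + 1)).mul
    z3.differentiableAt.hasDerivAt).congr_of_eventuallyEq (f₁ := γ) z2
  have h3 : (z - c) * deriv γ z =
      (z - c) ^ (j + 1) * (((j : ℂ) + 1) * u z + (z - c) * deriv u z) := by
    rw [h2.deriv]
    simp only [id, Pi.pow_apply, Nat.add_sub_cancel]
    push_cast
    ring
  rw [mul_assoc, ← norm_mul, h3, z2.self_of_nhds, smul_eq_mul, norm_mul, norm_mul, mul_left_comm]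
  exact mul_le_mul_of_nonneg_left z1.le (norm_nonneg _)

/- `γ - ρs n / Λ n → γ` uniformly, so `hurwitz` gives zeros `s` near `c`.  Write `γ z = (z - c) ^ k * u z` near `c`
(`AnalyticAt.exists_eventuallyEq_pow_smul_nonzero_iff`, `k ≥ 1`); then
`(z - c) * deriv γ z = γ z * (k + (z - c) * deriv u z / u z)`, so `‖γ z‖ ≤ 2 ‖z - c‖ ‖deriv γ z‖` near `c`.  At a zero
`‖Λ n * γ s‖ ≥ a`, so `‖Λ n * deriv γ s‖ ≥ a / (2 e')`, while `‖deriv (ρs n) s‖ ≤ 4 b / r` (Cauchy estimate,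
`Complex.norm_deriv_le_div_of_mapsTo_ball`).  Take `e'` small. -/
theorem zero_big {γ : ℂ → ℂ} {ρs : ℕ → ℂ → ℂ} {Λ : ℕ → ℂ} {c : ℂ} {r a b : ℝ} (hr : 0 < r)
    (ha : 0 < a) (hγ : DifferentiableOn ℂ γ (ball c r)) (h0 : γ c = 0)
    (hn : ¬ ∀ᶠ z in 𝓝 c, γ z = 0)
    (hρ : ∀ᶠ n in atTop, DifferentiableOn ℂ (ρs n) (ball c r) ∧
      ∀ z ∈ ball c r, a ≤ ‖ρs n z‖ ∧ ‖ρs n z‖ ≤ b)
    (hΛ : Tendsto (fun n => ‖Λ n‖) atTop atTop) {e : ℝ} (he : 0 < e) (B : ℝ) :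
    ∀ᶠ n in atTop, ∃ s ∈ ball c e, Λ n * γ s - ρs n s = 0 ∧
      B ≤ ‖deriv (fun z => Λ n * γ z - ρs n z) s‖ := by
  obtain ⟨e₀, he₀, H⟩ := Metric.eventually_nhds_iff_ball.1
    (Clo_log (hγ.analyticAt (ball_mem_nhds c hr)) h0 hn)
  have hK : 0 < |B| + 4 * |b| / r + 1 := by positivity
  obtain ⟨e', p0, p1, p2, p3, p4⟩ : ∃ e' : ℝ, 0 < e' ∧ e' ≤ e ∧ e' ≤ e₀ ∧ e' ≤ r / 2 ∧
      e' ≤ a / (2 * (|B| + 4 * |b| / r + 1)) :=
    ⟨min e (min e₀ (min (r / 2) (a / (2 * (|B| + 4 * |b| / r + 1))))), by positivity,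
      min_le_left _ _, (min_le_right _ _).trans (min_le_left _ _),
      (min_le_right _ _).trans ((min_le_right _ _).trans (min_le_left _ _)),
      (min_le_right _ _).trans ((min_le_right _ _).trans (min_le_right _ _))⟩
  rw [le_div_iff₀ (by positivity)] at p4
  have hl : TendstoUniformlyOn (fun n z => γ z - ρs n z / Λ n) γ atTop (ball c r) := by
    refine Metric.tendstoUniformlyOn_iff.2 fun ε hε => ?_
    filter_upwards [hρ, (tendsto_const_nhds (x := b).div_atTop hΛ).eventually (gt_mem_nhds hε)]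
      with n h1 h2 z hz
    rw [dist_eq_norm, sub_sub_cancel, norm_div]
    exact (div_le_div_of_nonneg_right (h1.2 z hz).2 (norm_nonneg _)).trans_lt h2
  filter_upwards [hurwitz hr (hρ.mono fun n h => hγ.sub (h.1.div_const (Λ n)))
    hl.tendstoLocallyUniformlyOn h0 hn p0, hρ, hΛ.eventually_gt_atTop 0] with n ⟨s, hs, e1⟩ h1 h2
  have hs' : s ∈ ball c r := ball_subset_ball (by linarith) hs
  have e2 : Λ n * γ s = ρs n s := by
    rw [sub_eq_zero.1 e1, mul_div_cancel₀ _ (norm_pos_iff.1 h2)]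
  refine ⟨s, ball_subset_ball p1 hs, sub_eq_zero.2 e2, ?_⟩
  have d1 := ((hγ.differentiableAt (isOpen_ball.mem_nhds hs')).hasDerivAt.const_mul (Λ n)).sub
    (h1.1.differentiableAt (isOpen_ball.mem_nhds hs')).hasDerivAt
  rw [show deriv (fun z => Λ n * γ z - ρs n z) s = _ from d1.deriv]
  have d2 := Clo_fd hr h1.1 (fun z hz => (h1.2 z hz).2.trans (le_abs_self b))
    (ball_subset_closedBall (ball_subset_ball p3 hs))
  rw [← norm_deriv_eq_norm_fderiv] at d2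
  have d3 := mul_le_mul_of_nonneg_left (H s (ball_subset_ball p2 hs)) h2.le
  rw [← norm_mul, e2] at d3
  have d4 := (h1.2 s hs').1
  have d5 := mul_le_mul_of_nonneg_right (mem_ball_iff_norm.1 hs).le
    (norm_nonneg (Λ n * deriv γ s))
  have d6 : |B| + 4 * |b| / r + 1 ≤ ‖Λ n * deriv γ s‖ := by
    refine le_of_mul_le_mul_left ?_ p0
    rw [norm_mul] at d5 ⊢
    linarith
  linarith [norm_sub_norm_le (Λ n * deriv γ s) (deriv (ρs n) s), le_abs_self B]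

/- `pc` for `T s x = (s - (R x).1 + x.1, (Γ (s, (R x).2)).2)` on `closedBall c (ρ / 2)`.  By
`Complex.norm_fderiv_le_div_of_mapsTo_ball` on `ball x (ρ / 2)` the derivative of `x ↦ (R x).1 - x.1` is at most
`1 / 25` and that of `x ↦ (R x).2` at most `4 τ / ρ`; `Convex.norm_image_sub_le_of_norm_fderiv_le`. -/
theorem close_curve {R Γ : ℂ × ℂ → ℂ × ℂ} {c : ℂ × ℂ} {ρ ρ' L e τ : ℝ} (hρ : 0 < ρ)
    (hR : DifferentiableOn ℂ R (ball c ρ)) (h1 : ∀ x ∈ ball c ρ, ‖(R x).1 - x.1‖ ≤ ρ / 100)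
    (h2 : ∀ x ∈ ball c ρ, ‖(R x).2‖ ≤ τ) (hΓ : DifferentiableOn ℂ Γ (ball (c.1, 0) ρ'))
    (hL0 : 0 ≤ L)
    (hL : ∀ y ∈ ball (c.1, (0 : ℂ)) ρ', ∀ y' ∈ ball (c.1, (0 : ℂ)) ρ', ‖Γ y - Γ y'‖ ≤ L * ‖y - y'‖)
    (hc : (Γ (c.1, 0)).2 = c.2) (he1 : e ≤ ρ / 100) (he2 : e ≤ ρ') (he3 : L * e ≤ ρ / 100)
    (hτ : τ < e) : ∃ w : ℂ → ℂ × ℂ, DifferentiableOn ℂ w (ball c.1 e) ∧ ∀ s ∈ ball c.1 e,
      w s ∈ closedBall c (ρ / 2) ∧ (R (w s)).1 = s ∧ (Γ (R (w s))).2 = (w s).2 := by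
  have hs : closedBall c (ρ / 2) ⊆ ball c ρ := closedBall_subset_ball (half_lt_self hρ)
  have hm : ∀ s ∈ ball c.1 e, ∀ x ∈ closedBall c (ρ / 2), ‖(s, (R x).2) - (c.1, 0)‖ < e := by
    intro s h3 x hx
    rw [Prod.mk_sub_mk, sub_zero, Prod.norm_mk]
    exact max_lt (mem_ball_iff_norm.1 h3) ((h2 x (hs hx)).trans_lt hτ)
  have hm' : ∀ s ∈ ball c.1 e, ∀ x ∈ closedBall c (ρ / 2), (s, (R x).2) ∈ ball (c.1, 0) ρ' :=
    fun s h3 x hx => mem_ball_iff_norm.2 ((hm s h3 x hx).trans_le he2)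
  obtain ⟨w, hw, H⟩ := pc (O := ball c.1 e) isOpen_ball (e := c) (r := ρ / 2)
    (T := fun s x => (s - ((R x).1 - x.1), (Γ (s, (R x).2)).2)) (half_pos hρ).le
    (fun s h3 x hx => by
      have a1 : DifferentiableAt ℂ (fun q : ℂ × ℂ × ℂ => R q.2) (s, x) :=
        (hR.differentiableAt (isOpen_ball.mem_nhds (hs hx))).comp (s, x) differentiableAt_snd
      have a2 : DifferentiableAt ℂ (fun q : ℂ × ℂ × ℂ => Γ (q.1, (R q.2).2)) (s, x) :=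
        (hΓ.differentiableAt (isOpen_ball.mem_nhds (hm' s h3 x hx))).comp (s, x)
          (differentiableAt_fst.prodMk a1.snd)
      exact (differentiableAt_fst.sub (a1.fst.sub differentiableAt_snd.fst)).prodMk a2.snd)
    (fun s h3 x hx => by
      have he : 0 < e := pos_of_mem_ball h3
      rw [mem_closedBall_iff_norm, Prod.norm_def]
      refine max_le ?_ ?_
      · have a1 := norm_sub_le (s - c.1) ((R x).1 - x.1)
        rw [sub_right_comm] at a1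
        exact a1.trans (by linarith [h1 x (hs hx), mem_ball_iff_norm.1 h3])
      · have a1 := (norm_snd_le _).trans (hL _ (hm' s h3 x hx) _ (mem_ball_self (he.trans_le he2)))
        rw [Prod.snd_sub, hc] at a1
        have a2 := mul_le_mul_of_nonneg_left (hm s h3 x hx).le hL0
        exact a1.trans (by linarith))
    (fun s h3 x hx y hy => by
      rw [Prod.mk_sub_mk, Prod.norm_mk]
      have a0 := norm_nonneg (x - y)
      refine max_le ?_ ?_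
      · have a1 := Clo_lip (f := fun x => (R x).1 - x.1) hρ (hR.fst.sub differentiableOn_fst) h1
          hy hx
        rw [show 4 * (ρ / 100) / ρ = 1 / 25 by field_simp; norm_num, norm_sub_rev y] at a1
        rw [sub_sub_sub_cancel_left]
        linarith
      · have a1 := Clo_lip (f := fun x => (R x).2) hρ hR.snd h2 hx hy
        have a2 := (norm_snd_le _).trans (hL _ (hm' s h3 x hx) _ (hm' s h3 y hy))
        rw [Prod.snd_sub, Prod.mk_sub_mk s, sub_self, Prod.norm_mk, norm_zero,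
          max_eq_right (norm_nonneg _)] at a2
        have a3 : L * (4 * τ / ρ) ≤ 1 / 2 := by
          rw [← mul_div_assoc, div_le_iff₀ hρ]
          nlinarith [mul_le_mul_of_nonneg_left hτ.le hL0]
        have a4 := mul_le_mul_of_nonneg_left a1 hL0
        nlinarith)
  refine ⟨w, hw, fun s h3 => ?_⟩
  obtain ⟨a1, a2, -⟩ := H s h3
  have a3 : (R (w s)).1 = s := by
    have := congrArg Prod.fst a2
    linear_combination -this
  refine ⟨a1, a3, ?_⟩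
  have a4 : (Γ (s, (R (w s)).2)).2 = (w s).2 := (Prod.ext_iff.1 a2).2
  rw [← a4]
  congr 2
  exact Prod.ext a3 rfl

/- `Hn.det2_map` for `M - 1` and the vectors `w`, `v`; `Hn.norm_det2_le`. -/
theorem det_big {M : ℂ × ℂ →L[ℂ] ℂ × ℂ} {w v : ℂ × ℂ} {E : ℂ} {A : ℝ} (hw : M w - w = (E, 0))
    (hv2 : v.2 = 1) (hv : ‖v‖ ≤ 1) (hM : ‖(M v).2‖ ≤ 1 / 2) (hA : ‖w‖ ≤ A) :
    ‖E‖ ≤ 4 * A * ‖(M - 1).det‖ := by
  have h1 := Hn.det2_map (M - 1) w v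
  have h2 := Hn.norm_det2_le w v
  have e : (M - 1) w = (E, 0) := hw
  have e' : ((M - 1) v).2 = (M v).2 - 1 := by rw [← hv2]; rfl
  rw [e, Hn.det2, e', zero_mul, sub_zero] at h1
  have h3 := congrArg norm h1
  rw [norm_mul, norm_mul] at h3
  have h4 := norm_sub_norm_le 1 (M v).2
  rw [norm_one, norm_sub_rev] at h4
  have h5 : ‖Hn.det2 w v‖ ≤ 2 * A := by
    have := mul_le_mul hA hv (norm_nonneg _) ((norm_nonneg _).trans hA)
    linarith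
  have h6 := mul_le_mul_of_nonneg_left h5 (norm_nonneg (M - 1).det)
  have h7 := mul_le_mul_of_nonneg_left (show 1 / 2 ≤ ‖(M v).2 - 1‖ by linarith) (norm_nonneg E)
  linarith

/-- The return map in rescaled coordinates. -/
noncomputable def Ret (Λ : ℂ) (Γ R : ℂ × ℂ → ℂ × ℂ) (x : ℂ × ℂ) : ℂ × ℂ :=
  (Λ * (Γ (R x)).1, (Γ (R x)).2)

theorem Clo_vec {D : ℂ × ℂ →L[ℂ] ℂ × ℂ} (h : ∀ u, ‖(D u).1 - u.1‖ ≤ 1 / 25 * ‖u‖) :
    ∃ v : ℂ × ℂ, v.2 = 1 ∧ ‖v‖ ≤ 1 ∧ (D v).1 = 0 := by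
  have h1 := h (1, 0)
  have h2 := h (0, 1)
  simp only [Prod.norm_mk, norm_one, norm_zero, zero_le_one, max_eq_left, max_eq_right, mul_one,
    sub_zero] at h1 h2
  have h3 := norm_sub_norm_le 1 (D (1, 0)).1
  rw [norm_one, norm_sub_rev] at h3
  have h4 : 0 < ‖(D (1, 0)).1‖ := by linarith
  refine ⟨(-(D (0, 1)).1 / (D (1, 0)).1, 1), rfl, ?_, ?_⟩
  · rw [Prod.norm_mk, norm_one, norm_div, norm_neg]
    exact max_le ((div_le_one h4).2 (by linarith)) le_rfl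
  · have e : ((-(D (0, 1)).1 / (D (1, 0)).1, 1) : ℂ × ℂ) =
        (-(D (0, 1)).1 / (D (1, 0)).1) • ((1, 0) : ℂ × ℂ) + (0, 1) := by simp
    rw [e, map_add, map_smul, Prod.fst_add, Prod.smul_fst, smul_eq_mul,
      div_mul_cancel₀ _ (norm_pos_iff.1 h4), neg_add_cancel]

/-- the determinant estimate at a point of the curve -/
theorem Clo_det {R Γ : ℂ × ℂ → ℂ × ℂ} {c : ℂ × ℂ} {ρ τ L A : ℝ} {Λ s : ℂ} {w : ℂ → ℂ × ℂ}
    {E : ℂ → ℂ} (hρ : 0 < ρ) (hR : DifferentiableOn ℂ R (ball c ρ))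
    (h1 : ∀ x ∈ ball c ρ, ‖(R x).1 - x.1‖ ≤ ρ / 100) (h2 : ∀ x ∈ ball c ρ, ‖(R x).2‖ ≤ τ)
    (hx : w s ∈ closedBall c (ρ / 2)) (hΓ : DifferentiableAt ℂ Γ (R (w s)))
    (hL : ‖fderiv ℂ Γ (R (w s))‖ ≤ L) (hτ : L * τ ≤ ρ / 100) (hw : DifferentiableAt ℂ w s)
    (hA : ‖deriv w s‖ ≤ A) (hE : ∀ᶠ z in 𝓝 s, Ret Λ Γ R (w z) - w z = (E z, 0)) :
    ‖deriv E s‖ ≤ 4 * A * ‖(fderiv ℂ (Ret Λ Γ R) (w s) - 1).det‖ := by
  have hR' := (hR.differentiableAt (isOpen_ball.mem_nhds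
    (closedBall_subset_ball (half_lt_self hρ) hx))).hasFDerivAt
  have hG := hΓ.hasFDerivAt.comp (w s) hR'
  have hP : HasFDerivAt (Ret Λ Γ R) _ (w s) := (hG.fst.const_mul Λ).prodMk hG.snd
  have d1 := ((hP.differentiableAt.hasFDerivAt.comp_hasDerivAt s hw.hasDerivAt).sub
    hw.hasDerivAt).congr_of_eventuallyEq (f₁ := fun z => (E z, (0 : ℂ))) (hE.mono fun z hz => hz.symm)
  have d2 := Clo_fd (f := fun x => (R x).1 - x.1) hρ (hR.fst.sub differentiableOn_fst) h1 hx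
  rw [show 4 * (ρ / 100) / ρ = 1 / 25 by field_simp; norm_num,
    show fderiv ℂ (fun x => (R x).1 - x.1) (w s) = _ from (hR'.fst.sub hasFDerivAt_fst).fderiv] at d2
  have d3 := Clo_fd (f := fun x => (R x).2) hρ hR.snd h2 hx
  rw [show fderiv ℂ (fun x => (R x).2) (w s) = _ from hR'.snd.fderiv] at d3
  obtain ⟨v, v1, v2, v3⟩ := Clo_vec (D := fderiv ℂ R (w s)) fun u =>
    ContinuousLinearMap.le_of_opNorm_le _ d2 u
  have hL0 : 0 ≤ L := (norm_nonneg _).trans hL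
  have d4 : ‖fderiv ℂ R (w s) v‖ ≤ 4 * τ / ρ := by
    have h0 := (norm_nonneg _).trans d3
    rw [Prod.norm_def, v3, norm_zero]
    exact max_le h0 ((ContinuousLinearMap.le_of_opNorm_le _ d3 v).trans
      (mul_le_of_le_one_right h0 v2))
  refine det_big (Prod.ext (hasFDerivAt_fst.comp_hasDerivAt s d1).deriv.symm ?_) v1 v2 ?_ hA
  · exact (hasFDerivAt_snd.comp_hasDerivAt s d1).unique (hasDerivAt_const s 0)
  · rw [hP.fderiv]
    refine (norm_snd_le (fderiv ℂ Γ (R (w s)) (fderiv ℂ R (w s) v))).trans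
      ((ContinuousLinearMap.le_of_opNorm_le_of_le _ hL d4).trans ?_)
    rw [← mul_div_assoc, div_le_iff₀ hρ]
    linarith

/- Shrink `ρ'` so that `Γ` is `L`-Lipschitz; take `e₁` as in `close_curve` and the curves `w n`.  Put
`γ s = (Γ (s, 0)).1`, `ρs n s = (w n s).1 - Λ n * ((Γ (R n (w n s))).1 - γ s)`; as `R n (w n s) = (s, t)` with
`‖t‖ ≤ τ n`, `‖ρs n s - (w n s).1‖ ≤ ‖Λ n‖ L τ n → 0` and `‖(w n s).1‖ ≥ 3 ‖c.1‖ / 4`.  `zero_big` gives `s`; `x = w n s`.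
`Ret (w n s) - w n s = (E s, 0)` with `E = Λ n * γ - ρs n`, so `M w' - w' = (deriv E s, 0)` for `M = fderiv Ret x`,
`w' = deriv (w n) s`, `‖w'‖ ≤ 2 ρ / e₁` for `s ∈ ball c.1 (e₁ / 2)`.  Choose `v = (a, 1)`, `‖a‖ ≤ 1`, with
`(fderiv (R n) x v).1 = 0`; then `‖fderiv (R n) x v‖ ≤ 4 τ n / ρ`, `‖M v‖.2 ≤ L * 4 τ n / ρ`; `det_big`. -/
theorem close_abs {R : ℕ → ℂ × ℂ → ℂ × ℂ} {Γ : ℂ × ℂ → ℂ × ℂ} {c : ℂ × ℂ} {ρ ρ' : ℝ} {τ : ℕ → ℝ}
    {Λ : ℕ → ℂ} (hρ : 0 < ρ) (hρc : 2 * ρ ≤ ‖c.1‖) (hρ' : 0 < ρ')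
    (hR : ∀ n, DifferentiableOn ℂ (R n) (ball c ρ))
    (h1 : ∀ n, ∀ x ∈ ball c ρ, ‖(R n x).1 - x.1‖ ≤ ρ / 100)
    (h2 : ∀ n, ∀ x ∈ ball c ρ, ‖(R n x).2‖ ≤ τ n)
    (hΛ : Tendsto (fun n => ‖Λ n‖) atTop atTop) (hτ : Tendsto (fun n => ‖Λ n‖ * τ n) atTop (𝓝 0))
    (hΓ : DifferentiableOn ℂ Γ (ball (c.1, 0) ρ')) (hc : Γ (c.1, 0) = (0, c.2))
    (hn : ¬ ∀ᶠ s in 𝓝 c.1, (Γ (s, 0)).1 = 0) {e : ℝ} (he : 0 < e) (B : ℝ) :
    ∀ᶠ n in atTop, ∃ x ∈ ball c ρ, ‖R n x - (c.1, 0)‖ < e ∧ Ret (Λ n) Γ (R n) x = x ∧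
      B ≤ ‖(fderiv ℂ (Ret (Λ n) Γ (R n)) x - 1).det‖ := by
  obtain ⟨ρ₂, q0, q1⟩ : ∃ ρ₂ > 0, ∀ y ∈ ball (c.1, (0 : ℂ)) ρ₂,
      y ∈ ball (c.1, (0 : ℂ)) ρ' ∧ ‖Γ y‖ < ‖Γ (c.1, 0)‖ + 1 :=
    Metric.eventually_nhds_iff_ball.1 (Eventually.and (ball_mem_nhds _ hρ')
      ((hΓ.differentiableAt (ball_mem_nhds _ hρ')).continuousAt.norm.eventually
        (gt_mem_nhds (lt_add_one _))))
  have hΓ₂ : DifferentiableOn ℂ Γ (ball (c.1, 0) ρ₂) := hΓ.mono fun y hy => (q1 y hy).1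
  obtain ⟨L, hL0, hL1, hL2⟩ : ∃ L : ℝ, 0 < L ∧ (∀ y ∈ ball (c.1, (0 : ℂ)) (ρ₂ / 2),
      ∀ y' ∈ ball (c.1, (0 : ℂ)) (ρ₂ / 2), ‖Γ y - Γ y'‖ ≤ L * ‖y - y'‖) ∧
      ∀ y ∈ ball (c.1, (0 : ℂ)) (ρ₂ / 2), ‖fderiv ℂ Γ y‖ ≤ L :=
    ⟨4 * (‖Γ (c.1, 0)‖ + 1) / ρ₂, by positivity, fun y hy y' hy' => Clo_lip q0 hΓ₂
      (fun y hy => (q1 y hy).2.le) (ball_subset_closedBall hy) (ball_subset_closedBall hy'),
      fun y hy => Clo_fd q0 hΓ₂ (fun y hy => (q1 y hy).2.le) (ball_subset_closedBall hy)⟩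
  have hΓ₃ : DifferentiableOn ℂ Γ (ball (c.1, 0) (ρ₂ / 2)) :=
    hΓ₂.mono (ball_subset_ball (half_le_self q0.le))
  obtain ⟨e₁, p0, p1, p2, p3, p4⟩ : ∃ e₁ : ℝ, 0 < e₁ ∧ e₁ ≤ e ∧ e₁ ≤ ρ / 100 ∧ e₁ ≤ ρ₂ / 2 ∧
      e₁ ≤ ρ / 100 / L :=
    ⟨min e (min (ρ / 100) (min (ρ₂ / 2) (ρ / 100 / L))), by positivity,
      min_le_left _ _, (min_le_right _ _).trans (min_le_left _ _),
      (min_le_right _ _).trans ((min_le_right _ _).trans (min_le_left _ _)),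
      (min_le_right _ _).trans ((min_le_right _ _).trans (min_le_right _ _))⟩
  rw [le_div_iff₀' hL0] at p4
  have hτ0 : ∀ n, 0 ≤ τ n := fun n => (norm_nonneg _).trans (h2 n c (mem_ball_self hρ))
  have hτ1 : ∀ᶠ n in atTop, τ n < e₁ := by
    filter_upwards [hΛ.eventually_ge_atTop 1, hτ.eventually (gt_mem_nhds p0)] with n a1 a2
    exact (le_mul_of_one_le_left (hτ0 n) a1).trans_lt a2
  have hex : ∀ n, ∃ w : ℂ → ℂ × ℂ, τ n < e₁ → DifferentiableOn ℂ w (ball c.1 e₁) ∧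
      ∀ s ∈ ball c.1 e₁, w s ∈ closedBall c (ρ / 2) ∧ (R n (w s)).1 = s ∧
        (Γ (R n (w s))).2 = (w s).2 := fun n => by
    by_cases h : τ n < e₁
    · obtain ⟨w, hw⟩ := close_curve hρ (hR n) (h1 n) (h2 n) hΓ₃ hL0.le hL1 (by rw [hc]) p2 p3 p4 h
      exact ⟨w, fun _ => hw⟩
    · exact ⟨0, fun h' => absurd h' h⟩
  choose w hw using hex
  have hs : closedBall c (ρ / 2) ⊆ ball c ρ := closedBall_subset_ball (half_lt_self hρ)
  have hb : ∀ {y : ℂ × ℂ}, y.1 ∈ ball c.1 e₁ → ‖y.2‖ < e₁ → ‖y - (c.1, 0)‖ < e₁ := fun a1 a2 => by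
    rw [Prod.norm_def, Prod.snd_sub, sub_zero]
    exact max_lt (mem_ball_iff_norm.1 a1) a2
  have hb1 : ∀ s ∈ ball c.1 e₁, (s, (0 : ℂ)) ∈ ball (c.1, (0 : ℂ)) (ρ₂ / 2) := fun s a1 =>
    mem_ball_iff_norm.2 ((hb (y := (s, 0)) a1 (by simpa using p0)).trans_le p3)
  have hb2 : ∀ n, τ n < e₁ → ∀ s ∈ ball c.1 e₁, ‖R n (w n s) - (c.1, 0)‖ < e₁ := fun n a0 s a1 =>
    hb (by rwa [((hw n a0).2 s a1).2.1]) ((h2 n _ (hs ((hw n a0).2 s a1).1)).trans_lt a0)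
  have hb3 : ∀ n, τ n < e₁ → ∀ s ∈ ball c.1 e₁, R n (w n s) ∈ ball (c.1, (0 : ℂ)) (ρ₂ / 2) :=
    fun n a0 s a1 => mem_ball_iff_norm.2 ((hb2 n a0 s a1).trans_le p3)
  have hγ : DifferentiableOn ℂ (fun s : ℂ => (Γ (s, 0)).1) (ball c.1 e₁) :=
    (hΓ₃.comp (f := fun s : ℂ => (s, (0 : ℂ))) (by fun_prop) hb1).fst
  have hA : 0 < 4 * (‖c‖ + ρ / 2) / e₁ := by positivity
  have key := zero_big (ρs := fun n s => (w n s).1 - Λ n * ((Γ (R n (w n s))).1 - (Γ (s, 0)).1))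
    (b := ‖c.1‖ + ρ) p0 hρ hγ (by rw [hc]) hn (by
      have hτ2 : Tendsto (fun n => L * (‖Λ n‖ * τ n)) atTop (𝓝 0) := by simpa using hτ.const_mul L
      filter_upwards [hτ1, hτ2.eventually (gt_mem_nhds (half_pos hρ))] with n a0 a1
      obtain ⟨b0, b1⟩ := hw n a0
      refine ⟨b0.fst.sub (((hΓ₃.comp ((hR n).comp b0 fun s a2 => hs (b1 s a2).1)
        (hb3 n a0)).fst.sub hγ).const_mul _), fun s a2 => ?_⟩
      have b2 := (norm_fst_le _).trans (mem_closedBall_iff_norm.1 (b1 s a2).1)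
      have b3 := (norm_fst_le _).trans (hL1 _ (hb3 n a0 s a2) _ (hb1 s a2))
      rw [Prod.norm_def (R n (w n s) - (s, 0)), Prod.fst_sub, Prod.fst_sub, (b1 s a2).2.1, sub_self,
        norm_zero, max_eq_right (norm_nonneg _), Prod.snd_sub, sub_zero] at b3
      have b4 := mul_le_mul_of_nonneg_left (b3.trans
        (mul_le_mul_of_nonneg_left (h2 n _ (hs (b1 s a2).1)) hL0.le)) (norm_nonneg (Λ n))
      rw [← norm_mul] at b4
      rw [Prod.fst_sub] at b2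
      have b5 := norm_sub_norm_le (w n s).1 (Λ n * ((Γ (R n (w n s))).1 - (Γ (s, 0)).1))
      have b6 := norm_sub_le (w n s).1 (Λ n * ((Γ (R n (w n s))).1 - (Γ (s, 0)).1))
      have b7 := abs_le.1 ((abs_norm_sub_norm_le (w n s).1 c.1).trans b2)
      constructor <;> linarith [b7.1, b7.2]) hΛ (half_pos p0) (4 * (4 * (‖c‖ + ρ / 2) / e₁) * B)
  filter_upwards [key, hτ1] with n ⟨s, a1, a2, a3⟩ a0
  have a4 : s ∈ ball c.1 e₁ := ball_subset_ball (half_le_self p0.le) a1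
  obtain ⟨b0, b1⟩ := hw n a0
  refine ⟨w n s, hs (b1 s a4).1, (hb2 n a0 s a4).trans_le p1,
    Prod.ext (by simp only [Ret]; linear_combination a2) (b1 s a4).2.2, ?_⟩
  refine le_of_mul_le_mul_left (a3.trans (Clo_det hρ (hR n) (h1 n) (h2 n) (b1 s a4).1
    (hΓ₃.differentiableAt (isOpen_ball.mem_nhds (hb3 n a0 s a4))) (hL2 _ (hb3 n a0 s a4))
    ((mul_le_mul_of_nonneg_left a0.le hL0.le).trans p4)
    (b0.differentiableAt (isOpen_ball.mem_nhds a4)) ?_ ?_)) (by positivity)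
  · rw [norm_deriv_eq_norm_fderiv]
    refine Clo_fd p0 b0 (fun z hz => ?_) (ball_subset_closedBall a1)
    linarith [norm_sub_norm_le (w n z) c, mem_closedBall_iff_norm.1 (b1 z hz).1]
  · filter_upwards [isOpen_ball.mem_nhds a4] with z hz
    refine Prod.ext ?_ (sub_eq_zero.2 (b1 z hz).2.2)
    simp only [Ret, Prod.fst_sub]
    ring

/- `fderiv g z ∘ fderiv χ x = fderiv χ x ∘ fderiv P x`, so `(fderiv g z - 1) ∘ fderiv χ x = fderiv χ x ∘ (fderiv P x - 1)`;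
`LinearMap.det_comp`, and the determinant of the injective map is not zero. -/
theorem det_conj {g χ P : ℂ × ℂ → ℂ × ℂ} {x : ℂ × ℂ} (hg : DifferentiableAt ℂ g (χ x))
    (hχ : DifferentiableAt ℂ χ x) (hP : DifferentiableAt ℂ P x) (hx : P x = x)
    (h : ∀ᶠ y in 𝓝 x, g (χ y) = χ (P y)) (hi : Function.Injective (fderiv ℂ χ x)) :
    (fderiv ℂ g (χ x) - 1).det = (fderiv ℂ P x - 1).det := by
  have h1 := hg.hasFDerivAt.comp x hχ.hasFDerivAt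
  have h2 : HasFDerivAt χ (fderiv ℂ χ x) (P x) := by
    rw [hx]
    exact hχ.hasFDerivAt
  have h3 := h1.unique ((h2.comp x hP.hasFDerivAt).congr_of_eventuallyEq h)
  have h4 : ∀ u, (fderiv ℂ g (χ x) - 1) (fderiv ℂ χ x u) =
      fderiv ℂ χ x ((fderiv ℂ P x - 1) u) := fun u => by
    have := congrArg (fun T : ℂ × ℂ →L[ℂ] ℂ × ℂ => T u) h3
    simp only [ContinuousLinearMap.comp_apply] at this
    simp only [sub_apply, one_apply_eq_self, map_sub, this]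
  have h5 : (fderiv ℂ χ x).det ≠ 0 :=
    (LinearEquiv.isUnit_det' (LinearEquiv.ofInjectiveEndo (fderiv ℂ χ x).toLinearMap hi)).ne_zero
  have h6 := Hn.det2_map (fderiv ℂ g (χ x) - 1) (fderiv ℂ χ x (1, 0)) (fderiv ℂ χ x (0, 1))
  rw [h4, h4, Hn.det2_map, Hn.det2_map, Hn.det2_map] at h6
  simp only [Hn.det2, mul_one, mul_zero, sub_zero] at h6
  exact mul_right_cancel₀ h5 (h6.symm.trans (mul_comm _ _))

theorem Clo_char (M : ℂ × ℂ →L[ℂ] ℂ × ℂ) (t : ℂ) :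
    (M - t • 1).det = t ^ 2 - ((M (1, 0)).1 + (M (0, 1)).2) * t + M.det := by
  have h1 := Hn.det2_map (M - t • 1) (1, 0) (0, 1)
  have h2 := Hn.det2_map M (1, 0) (0, 1)
  simp only [Hn.det2, mul_one, mul_zero, sub_zero, sub_apply, smul_apply, one_apply_eq_self,
    Prod.fst_sub, Prod.snd_sub,
    Prod.smul_fst, Prod.smul_snd, smul_eq_mul] at h1 h2
  linear_combination h2 - h1

theorem Clo_eig {M : ℂ × ℂ →L[ℂ] ℂ × ℂ} {t : ℂ} (h : (M - t • 1).det = 0) :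
    ∃ u, u ≠ 0 ∧ M u = t • u := by
  obtain ⟨u, h1, h2⟩ := (Submodule.ne_bot_iff _).1 (LinearMap.det_eq_zero_iff_ker_ne_bot.1 h)
  exact ⟨u, h2, sub_eq_zero.1 (LinearMap.mem_ker.1 h1)⟩

/- With the entries of `M`: `(M - t • 1).det = t ^ 2 - T t + D = (t - l) (t - m)` (roots of a quadratic polynomial,
`IsAlgClosed.exists_pow_nat_eq`), `l m = D`.  If both roots were in the closed unit disc then
`‖(1 - l) (1 - m)‖ ≤ 4`.  A root has an eigenvector (`LinearMap.det_eq_zero_iff_ker_ne_bot`, or explicitly). -/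
theorem saddle_of_det {M : ℂ × ℂ →L[ℂ] ℂ × ℂ} (h1 : ‖M.det‖ < 1) (h2 : 4 < ‖(M - 1).det‖) :
    ∃ (l m : ℂ) (u s : ℂ × ℂ), u ≠ 0 ∧ s ≠ 0 ∧ 1 < ‖l‖ ∧ ‖m‖ < 1 ∧ M u = l • u ∧ M s = m • s := by
  obtain ⟨l, m, e⟩ : ∃ l m : ℂ, ∀ t, (M - t • 1).det = (t - l) * (t - m) := by
    obtain ⟨δ, hδ⟩ := IsAlgClosed.exists_pow_nat_eq
      (((M (1, 0)).1 + (M (0, 1)).2) ^ 2 - 4 * M.det) two_pos
    refine ⟨((M (1, 0)).1 + (M (0, 1)).2 + δ) / 2, ((M (1, 0)).1 + (M (0, 1)).2 - δ) / 2,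
      fun t => ?_⟩
    rw [Clo_char]
    linear_combination hδ / 4
  have e0 : M.det = l * m := by linear_combination e 0 - Clo_char M 0
  have e1 := e 1
  rw [show (1 : ℂ) • (1 : ℂ × ℂ →L[ℂ] ℂ × ℂ) = 1 from one_smul _ _] at e1
  rw [e0, norm_mul] at h1
  rw [e1, norm_mul] at h2
  obtain ⟨u, u0, u1⟩ := Clo_eig (M := M) (t := l) (by rw [e, sub_self, zero_mul])
  obtain ⟨s, s0, s1⟩ := Clo_eig (M := M) (t := m) (by rw [e, sub_self, mul_zero])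
  have a1 := norm_nonneg l
  have a2 := norm_nonneg m
  by_cases hl : 1 < ‖l‖
  · exact ⟨l, m, u, s, u0, s0, hl, by nlinarith, u1, s1⟩
  by_cases hm : 1 < ‖m‖
  · exact ⟨m, l, s, u, s0, u0, hm, by nlinarith, s1, u1⟩
  have a3 := norm_sub_le 1 l
  have a4 := norm_sub_le 1 m
  rw [norm_one] at a3 a4
  have := mul_le_mul (show ‖1 - l‖ ≤ 2 by linarith) (show ‖1 - m‖ ≤ 2 by linarith)
    (norm_nonneg _) zero_le_two
  linarith

end Pool.Agent.Lib.MP_7b5e47_an.Hq
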