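import Pool.Agent.Lib.MP_7b5e47_an.Hq.J1Def

/-! Almost affine pieces of curves. -/

namespace Pool.Agent.Lib.MP_7b5e47_an.Hq

open MeasureTheory Set Metric Filter Topology

variable {a b : ℂ → ℂ × ℂ} {Λ r : ℝ} {t₀ : ℂ}

/- On `closedBall t₀ (1/Λ)`, `‖b - b t₀‖ ≤ 1`; the Cauchy estimate
(`Complex.norm_deriv_le_of_forall_mem_sphere_norm_le` for `b - b t₀`) gives `‖deriv b‖ ≤ 2 Λ` on
`closedBall t₀ (1/(2Λ))`; the Schwarz lemma (`Complex.dist_le_div_mul_dist_of_mapsTo_ball`) gives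
`‖deriv b t - deriv b t₀‖ ≤ 8 Λ² ‖t - t₀‖ ≤ 1/(4Λ)`. Letting `t → t₀` in `Good.inj` gives
`1 ≤ Λ ‖deriv b t₀‖` (`HasDerivAt`, slopes: `hasDerivAt_iff_tendsto_slope`). -/
theorem Good.lin (hb : Differentiable ℂ b) (hΛ : 1 ≤ Λ) (ht : ‖t₀‖ ≤ 7) (h : Good b Λ t₀) :
    Lin b (32 * Λ ^ 3) t₀ := by
  have h0 : 0 < Λ := zero_lt_one.trans_le hΛ
  have h3 : Λ ≤ 32 * Λ ^ 3 := by nlinarith [one_le_pow₀ (n := 2) hΛ]
  have low : 1 ≤ Λ * ‖deriv b t₀‖ := by
    have h1 := (hasDerivAt_iff_tendsto_slope.1 (hb t₀).hasDerivAt).norm.const_mul Λ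
    refine ge_of_tendsto h1 ?_
    have h4 : ∀ᶠ t in 𝓝 t₀, ‖t‖ < 8 :=
      continuous_norm.continuousAt.eventually_lt continuousAt_const (by linarith)
    have h5 : ∀ᶠ t in 𝓝 t₀, Λ * ‖b t - b t₀‖ < 1 :=
      ContinuousAt.eventually_lt (f := fun t => Λ * ‖b t - b t₀‖) (g := fun _ => 1)
        (continuous_const.mul (hb.continuous.sub continuous_const).norm).continuousAt
        continuousAt_const (by simp)
    filter_upwards [nhdsWithin_le_nhds h4, nhdsWithin_le_nhds h5, self_mem_nhdsWithin]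
      with t a1 a2 a3
    have a4 : 0 < ‖t - t₀‖ := norm_pos_iff.2 (sub_ne_zero.2 a3)
    rw [slope_def_module, norm_smul, norm_inv, mul_left_comm, ← div_eq_inv_mul, le_div_iff₀ a4,
      one_mul]
    exact h.inj t a1.le a2.le
  have cau : ∀ s ∈ ball t₀ (2 * Λ)⁻¹, ‖deriv b s‖ ≤ 2 * Λ := fun s hs => by
    have h1 := Complex.norm_deriv_le_of_forall_mem_sphere_norm_le (c := s) (R := (2 * Λ)⁻¹) (C := 1)
      (f := fun t => b t - b t₀) (by positivity) (hb.sub_const _).diffContOnCl fun z hz => by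
        have a1 : ‖z - t₀‖ ≤ (2 * Λ)⁻¹ + (2 * Λ)⁻¹ := by
          rw [← dist_eq_norm]
          exact (dist_triangle z s t₀).trans (add_le_add (mem_sphere.1 hz).le (mem_ball.1 hs).le)
        have a2 : Λ * ‖z - t₀‖ ≤ 1 := by
          refine (mul_le_mul_of_nonneg_left a1 h0.le).trans_eq ?_
          field_simp
          norm_num
        exact (h.up z a2).trans a2
    rwa [deriv_sub_const, one_div, inv_inv] at h1
  refine ⟨low.trans (mul_le_mul_of_nonneg_right h3 (norm_nonneg _)), fun t a1 => ?_,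
    fun t a1 a2 => ?_⟩
  · have a2 : t ∈ ball t₀ (2 * Λ)⁻¹ := by
      rw [mem_ball, dist_eq_norm, ← one_div, lt_div_iff₀ (by positivity)]
      nlinarith [norm_nonneg (t - t₀), one_le_pow₀ (n := 2) hΛ,
        mul_nonneg (mul_nonneg h0.le (norm_nonneg (t - t₀))) (sub_nonneg.2 (one_le_pow₀ (n := 2) hΛ))]
    have a3 := Complex.dist_le_div_mul_dist_of_mapsTo_ball (f := deriv b) (R₂ := 4 * Λ)
      hb.deriv.differentiableOn (fun s hs => by
        rw [mem_closedBall, dist_eq_norm]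
        have := cau t₀ (mem_ball_self (by positivity))
        linarith [norm_sub_le (deriv b s) (deriv b t₀), cau s hs]) a2
    rw [dist_eq_norm, dist_eq_norm, div_inv_eq_mul] at a3
    refine le_of_mul_le_mul_left ?_ h0
    nlinarith [mul_le_mul_of_nonneg_left a3 h0.le]
  · have a3 := mul_le_mul_of_nonneg_right h3 (norm_nonneg (b t - b t₀))
    exact (h.inj t (by linarith) (a3.trans a2)).trans a3

theorem Lin.ne (h : Lin b Λ t₀) : deriv b t₀ ≠ 0 := by
  intro h0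
  have := h.low
  rw [h0, norm_zero, mul_zero] at this
  linarith

/- mean value inequality on the convex set `closedBall t₀ (1/Λ)` for `t ↦ b t - t • deriv b t₀` -/
theorem Lin.taylor (hb : Differentiable ℂ b) (hΛ : 1 ≤ Λ) (h : Lin b Λ t₀) {t : ℂ}
    (ht : Λ * ‖t - t₀‖ ≤ 1) :
    ‖b t - b t₀ - (t - t₀) • deriv b t₀‖ ≤ ‖deriv b t₀‖ * ‖t - t₀‖ / 4 := by
  have h0 : 0 < Λ := zero_lt_one.trans_le hΛ
  have hm : ∀ z, z ∈ closedBall t₀ Λ⁻¹ ↔ Λ * ‖z - t₀‖ ≤ 1 := fun z => by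
    rw [mem_closedBall, dist_eq_norm, ← one_div, le_div_iff₀' h0]
  have h1 := Convex.norm_image_sub_le_of_norm_hasDerivWithin_le (𝕜 := ℂ)
    (f := fun z => b z - z • deriv b t₀) (f' := fun z => deriv b z - deriv b t₀)
    (s := closedBall t₀ Λ⁻¹) (C := ‖deriv b t₀‖ / 4) (x := t₀) (y := t)
    (fun z _ => by
      simpa using ((hb z).hasDerivAt.fun_sub
        ((hasDerivAt_id z).smul_const (deriv b t₀))).hasDerivWithinAt)
    (fun z hz => h.der z ((hm z).1 hz)) (convex_closedBall _ _)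
    (mem_closedBall_self (by positivity)) ((hm t).2 ht)
  have e : b t - t • deriv b t₀ - (b t₀ - t₀ • deriv b t₀) =
      b t - b t₀ - (t - t₀) • deriv b t₀ := by
    rw [sub_smul]
    abel
  rw [e] at h1
  linarith

theorem Lin.lower (hb : Differentiable ℂ b) (hΛ : 1 ≤ Λ) (h : Lin b Λ t₀) {t : ℂ}
    (ht : Λ * ‖t - t₀‖ ≤ 1) : 3 / 4 * (‖deriv b t₀‖ * ‖t - t₀‖) ≤ ‖b t - b t₀‖ := by
  have h1 := h.taylor hb hΛ ht
  have h2 := norm_sub_norm_le ((t - t₀) • deriv b t₀) (b t - b t₀)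
  rw [norm_sub_rev _ (b t - b t₀), norm_smul] at h2
  linarith

theorem Lin.upper (hb : Differentiable ℂ b) (hΛ : 1 ≤ Λ) (h : Lin b Λ t₀) {t : ℂ}
    (ht : Λ * ‖t - t₀‖ ≤ 1) : ‖b t - b t₀‖ ≤ 5 / 4 * (‖deriv b t₀‖ * ‖t - t₀‖) := by
  have h1 := h.taylor hb hΛ ht
  have h2 := norm_sub_norm_le (b t - b t₀) ((t - t₀) • deriv b t₀)
  rw [norm_smul] at h2
  linarith

theorem J1Lin_vol (c : ℂ) {ρ : ℝ} (hρ : 0 ≤ ρ) :
    volume.real (closedBall c ρ) = ρ ^ 2 * Real.pi := by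
  rw [measureReal_def, Complex.volume_closedBall, ENNReal.toReal_mul, ENNReal.toReal_pow,
    ENNReal.toReal_ofReal hρ]
  rfl

/- For `t` in the set, `‖b t - b t₀‖ < 2 r`, so `‖t - t₀‖ ≤ 2 Λ r` (`Lin.inj`), `Λ ‖t - t₀‖ ≤ 1`, and by
`Lin.lower` `‖t - t₀‖ ≤ 8 r / (3 ‖β‖)`, `β = deriv b t₀`; there `nsq (deriv b t) ≤ 2 (5/4 ‖β‖)²`.
Bound the integral by the supremum times the area of the disc (`Complex.volume_closedBall`,
`norm_setIntegral_le_of_norm_le_const`, `measureReal_mono`); `π (64/9) (25/8) ≤ 70`. -/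
theorem Lin.area (hb : Differentiable ℂ b) (hΛ : 1 ≤ Λ) (hr : 0 < r) (hs : Λ ^ 2 * r ≤ 1 / 100)
    (h : Lin b Λ t₀) {P : ℂ × ℂ} (hP : nsq (P - b t₀) < r ^ 2) :
    ∫ t in {t | ‖t‖ ≤ 7 ∧ nsq (P - b t) < r ^ 2}, nsq (deriv b t) ≤ 70 * r ^ 2 := by
  have h0 : 0 < Λ := zero_lt_one.trans_le hΛ
  have hβ : 0 < ‖deriv b t₀‖ := norm_pos_iff.2 h.ne
  set β := ‖deriv b t₀‖ with hβd
  set S := {t | ‖t‖ ≤ 7 ∧ nsq (P - b t) < r ^ 2}
  have key : ∀ t ∈ S, t ∈ closedBall t₀ (8 * r / (3 * β)) ∧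
      ‖nsq (deriv b t)‖ ≤ 2 * (5 / 4 * β) ^ 2 := fun t ht => by
    have a1 : ‖b t - b t₀‖ ≤ 2 * r := by
      have := norm_sub_le (P - b t₀) (P - b t)
      rw [sub_sub_sub_cancel_left] at this
      linarith [norm_lt_of_nsq hr.le hP, norm_lt_of_nsq hr.le ht.2]
    have a2 : Λ * ‖b t - b t₀‖ ≤ Λ * (2 * r) := mul_le_mul_of_nonneg_left a1 h0.le
    have a3 : Λ * r ≤ Λ ^ 2 * r := by nlinarith [mul_pos h0 hr]
    have a4 := (h.inj t ht.1 (by linarith)).trans a2
    have a5 : Λ * ‖t - t₀‖ ≤ 1 := by nlinarith [mul_le_mul_of_nonneg_left a4 h0.le]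
    have a6 := h.lower hb hΛ a5
    have a7 := h.der t a5
    have a8 : ‖deriv b t‖ ≤ 5 / 4 * β := by linarith [norm_sub_norm_le (deriv b t) (deriv b t₀)]
    refine ⟨?_, ?_⟩
    · rw [mem_closedBall, dist_eq_norm, le_div_iff₀ (by positivity)]
      linarith
    · rw [Real.norm_of_nonneg (nsq_nonneg _)]
      linarith [nsq_le (deriv b t), pow_le_pow_left₀ (norm_nonneg _) a8 2]
  have hsub : S ⊆ closedBall t₀ (8 * r / (3 * β)) := fun t ht => (key t ht).1
  have h1 := norm_setIntegral_le_of_norm_le_const (μ := volume) (f := fun t => nsq (deriv b t))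
    ((measure_mono hsub).trans_lt measure_closedBall_lt_top) fun t ht => (key t ht).2
  have h2 := measureReal_mono (μ := volume) hsub measure_closedBall_lt_top.ne
  rw [J1Lin_vol _ (by positivity)] at h2
  refine (le_abs_self _).trans (h1.trans ((mul_le_mul_of_nonneg_left h2 (by positivity)).trans ?_))
  have e : 2 * (5 / 4 * β) ^ 2 * ((8 * r / (3 * β)) ^ 2 * Real.pi) = 200 / 9 * Real.pi * r ^ 2 := by
    field_simp
    norm_num
  rw [e]
  exact mul_le_mul_of_nonneg_right (by linarith [Real.pi_lt_d2]) (sq_nonneg _)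

theorem J1Lin_inner (h : Pair a b Λ r) {t : ℂ} (ht : ‖t‖ ≤ 6) :
    ∫ s in closedBall (0 : ℂ) 6, gK a b r (s, t) ≤ 70 := by
  have hr := h.pos
  set S := {s | ‖s‖ ≤ 7 ∧ nsq (b t - a s) < r ^ 2}
  have eA : ∀ s, Aq a b (s, t) = nsq (b t - a s) := fun s => by rw [← Aq_comm]; rfl
  have hS : MeasurableSet S :=
    (isClosed_le continuous_norm continuous_const).measurableSet.inter
      (isOpen_lt (continuous_nsq.comp (continuous_const.sub h.da.continuous))
        continuous_const).measurableSet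
  have hsub : S ⊆ closedBall 0 7 := fun s hs => mem_closedBall_zero_iff.2 hs.1
  have h1 : ∫ s in closedBall (0 : ℂ) 6, gK a b r (s, t) =
      ∫ s in closedBall (0 : ℂ) 6 ∩ S, gK a b r (s, t) := by
    refine setIntegral_eq_of_subset_of_forall_sdiff_eq_zero measurableSet_closedBall
      inter_subset_left fun s hs => ?_
    have a1 : r ^ 2 ≤ Aq a b (s, t) := by
      rw [eA]
      by_contra a2
      exact hs.2 ⟨hs.1, by linarith [mem_closedBall_zero_iff.1 hs.1], not_le.1 a2⟩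
    rw [gK, max_eq_left (sub_nonpos.2 ((one_le_div (by positivity)).2 a1)), mul_zero]
  rw [h1]
  rcases S.eq_empty_or_nonempty with h0 | ⟨s₀, hs₀⟩
  · rw [h0, inter_empty, setIntegral_empty]
    norm_num
  have h2 := (h.lin s₀ t hs₀.1 (by linarith) (by rw [eA]; exact hs₀.2)).1.area h.da h.one hr h.sm
    hs₀.2
  have hf : IntegrableOn (fun s => nsq (deriv a s) / r ^ 2) S :=
    (((continuous_nsq.comp (continuous_deriv_ent h.da)).div_const _).continuousOn.integrableOn_compact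
      (isCompact_closedBall _ _)).mono_set hsub
  have hg : IntegrableOn (fun s => gK a b r (s, t)) (closedBall (0 : ℂ) 6 ∩ S) :=
    (((continuous_gK h.da h.db r).comp (Continuous.prodMk_left t)).continuousOn.integrableOn_compact
      (isCompact_closedBall _ _)).mono_set inter_subset_left
  have hn : ∀ s, 0 ≤ nsq (deriv a s) / r ^ 2 := fun s => div_nonneg (nsq_nonneg _) (sq_nonneg _)
  calc ∫ s in closedBall (0 : ℂ) 6 ∩ S, gK a b r (s, t)
      ≤ ∫ s in closedBall (0 : ℂ) 6 ∩ S, nsq (deriv a s) / r ^ 2 := by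
        refine setIntegral_mono_on hg (hf.mono_set inter_subset_right)
          (measurableSet_closedBall.inter hS) fun s _ => ?_
        refine mul_le_of_le_one_right (hn s) (max_le zero_le_one ?_)
        have := div_nonneg (Aq_nonneg a b (s, t)) (sq_nonneg r)
        linarith
    _ ≤ ∫ s in S, nsq (deriv a s) / r ^ 2 :=
        setIntegral_mono_set hf (Eventually.of_forall hn) inter_subset_right.eventuallyLE
    _ ≤ 70 := by
        rw [integral_div, div_le_iff₀ (by positivity)]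
        exact h2

/- Fubini (`closedBall_prod_same`, `setIntegral_prod` or `integral_prod_symm`, `continuous_gK`). For fixed
`t` with `‖t‖ ≤ 6`, `gK a b r (s, t) ≤ r⁻² nsq (deriv a s)` on `{‖s‖ ≤ 7, nsq (b t - a s) < r²}` and
vanishes elsewhere on the disc, so the inner integral is at most `70` (`Lin.area` for `a`, or the set is
empty); and `70 * 36 π ≤ 8000`. -/
theorem Pair.gK_mass (h : Pair a b Λ r) :
    ∫ γ in closedBall (0 : ℂ × ℂ) 6, gK a b r γ ≤ 8000 := by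
  have hc := continuous_gK h.da h.db r
  have hi : IntegrableOn (gK a b r) (closedBall (0 : ℂ × ℂ) 6) :=
    hc.continuousOn.integrableOn_compact (isCompact_closedBall _ _)
  have e : closedBall (0 : ℂ × ℂ) 6 = closedBall 0 6 ×ˢ closedBall 0 6 :=
    (closedBall_prod_same (0 : ℂ) (0 : ℂ) 6).symm
  rw [IntegrableOn, e, Measure.volume_eq_prod, ← Measure.prod_restrict] at hi
  rw [e, Measure.volume_eq_prod, ← Measure.prod_restrict, integral_prod_symm _ hi]
  have h1 := norm_setIntegral_le_of_norm_le_const (μ := volume) (C := 70)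
    (f := fun t : ℂ => ∫ s in closedBall (0 : ℂ) 6, gK a b r (s, t))
    (measure_closedBall_lt_top (x := (0 : ℂ)) (r := 6)) fun t ht => by
      rw [Real.norm_of_nonneg (integral_nonneg fun s => gK_nonneg _ _ _ _)]
      exact J1Lin_inner h (mem_closedBall_zero_iff.1 ht)
  rw [J1Lin_vol _ (by norm_num)] at h1
  refine (le_abs_self _).trans (h1.trans ?_)
  linarith [Real.pi_lt_d2]

end Pool.Agent.Lib.MP_7b5e47_an.Hq
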