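import Pool.Agent.Lib.MP_7b5e47_an.Hq.J1Fil
import Pool.Agent.Lib.MP_7b5e47_an.Hq.J1Lin

/-! Lipschitz bounds along the orbits; disjointness of the deep sets. -/

namespace Pool.Agent.Lib.MP_7b5e47_an.Hq

open MeasureTheory Set Metric Filter Topology

variable {f : Equiv.Perm (ℂ × ℂ)} {d : ℝ} {G H : ℂ × ℂ → ℝ}

theorem J1Dyn_add (f : Equiv.Perm (ℂ × ℂ)) (n k : ℕ) (z : ℂ × ℂ) :
    (f ^ (n + k)) ((f⁻¹ ^ n) z) = (f ^ k) z := by
  rw [← Equiv.Perm.mul_apply, add_comm, pow_add, inv_pow, mul_inv_cancel_right]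

theorem J1Dyn_can (f : Equiv.Perm (ℂ × ℂ)) (n : ℕ) (z : ℂ × ℂ) : (f ^ n) ((f⁻¹ ^ n) z) = z := by
  simpa using J1Dyn_add f n 0 z

theorem J1Dyn_sub (f : Equiv.Perm (ℂ × ℂ)) {n j : ℕ} (h : j ≤ n) (z : ℂ × ℂ) :
    (f⁻¹ ^ j) z = (f ^ (n - j)) ((f⁻¹ ^ n) z) := by
  obtain ⟨k, rfl⟩ := Nat.exists_eq_add_of_le h
  rw [Nat.add_sub_cancel_left, add_comm, pow_add, Equiv.Perm.mul_apply, J1Dyn_can]

theorem J1Dyn_G (hd : HD f d G H) (n : ℕ) {z : ℂ × ℂ} (h : G z = 0) : G ((f⁻¹ ^ n) z) = 0 := by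
  have h1 := hd.symm.H_pow n z
  rw [h] at h1
  exact (mul_eq_zero.1 h1).resolve_left (pow_pos (zero_lt_one.trans hd.hd) n).ne'

theorem J1Dyn_H (hd : HD f d G H) (n : ℕ) {z : ℂ × ℂ} (h : H z = 0) : H ((f ^ n) z) = 0 := by
  have h1 := hd.H_pow n z
  rw [h] at h1
  exact (mul_eq_zero.1 h1).resolve_left (pow_pos (zero_lt_one.trans hd.hd) n).ne'

theorem J1Dyn_mono {b : ℂ → ℂ × ℂ} {Λ Λ' : ℝ} {t₀ : ℂ} (h : Good b Λ t₀) (hle : Λ ≤ Λ') :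
    Good b Λ' t₀ := by
  refine ⟨fun t ht => ?_, fun t ht h1 => ?_⟩
  · have h2 := mul_le_mul_of_nonneg_right hle (norm_nonneg (t - t₀))
    exact (h.up t (h2.trans ht)).trans h2
  · have h2 := mul_le_mul_of_nonneg_right hle (norm_nonneg (b t - b t₀))
    exact (h.inj t ht (h2.trans h1)).trans h2

/- `y = (f⁻¹ ^ n) (Q t₀)` has `G y = 0`, so its forward orbit is bounded by `ρ'` (`HD.orbit`); the points
`(f⁻¹ ^ j) (Q t₀) = (f ^ (n - j)) y`, `j ≤ n`, are on it. `exists_shadow` for `f⁻¹` (upper bound) and for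
`f` (lower bound), `Imm.bilip` with radius `8`; `L = max` of `L₁, L₂, C, 1/c` (times one). -/
theorem dyn_good (hd : HD f d G H) {Q : ℂ → ℂ × ℂ} (hQ : Imm Q) (h0 : ∀ t, G (Q t) = 0) (ρ : ℝ) :
    ∃ L : ℝ, 1 ≤ L ∧ ∀ (n : ℕ) (t₀ : ℂ), ‖t₀‖ ≤ 7 → ‖(f⁻¹ ^ n) (Q t₀)‖ ≤ ρ →
      Good (fun t => (f⁻¹ ^ n) (Q t)) (L ^ (n + 1)) t₀ := by
  obtain ⟨ρ', hρ⟩ := hd.orbit ρ
  obtain ⟨L₁, hL₁, h₁⟩ := exists_shadow (f := f⁻¹) hd.di ρ'
  obtain ⟨L₂, hL₂, h₂⟩ := exists_shadow hd.df ρ'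
  obtain ⟨c, C, hc, hC, h₃⟩ := hQ.bilip 8
  obtain ⟨L, a1, a2, a3, a4⟩ : ∃ L : ℝ, L₁ ≤ L ∧ L₂ ≤ L ∧ C ≤ L ∧ c⁻¹ ≤ L :=
    ⟨max (max L₁ L₂) (max C c⁻¹), (le_max_left _ _).trans (le_max_left _ _),
      (le_max_right _ _).trans (le_max_left _ _), (le_max_left _ _).trans (le_max_right _ _),
      (le_max_right _ _).trans (le_max_right _ _)⟩
  have hL : 1 ≤ L := hL₁.trans a1
  refine ⟨L, hL, fun n t₀ ht₀ hy => ?_⟩
  have ho := hρ _ (J1Dyn_G hd n (h0 t₀)) hy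
  have b1 : L₁ ^ n ≤ L ^ n := pow_le_pow_left₀ (by linarith) a1 n
  have b2 : L₂ ^ n ≤ L ^ n := pow_le_pow_left₀ (by linarith) a2 n
  have b3 : 1 ≤ L ^ n := one_le_pow₀ hL
  refine ⟨fun t ht => ?_, fun t ht h4 => ?_⟩
  · have h5 : ‖t - t₀‖ ≤ 1 :=
      (le_mul_of_one_le_left (norm_nonneg _) (one_le_pow₀ hL)).trans ht
    have h6 : ‖t‖ ≤ 8 := by
      have := norm_le_norm_add_norm_sub' t t₀
      linarith
    have h7 : L₁ ^ n * ‖Q t - Q t₀‖ ≤ L ^ (n + 1) * ‖t - t₀‖ := by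
      rw [pow_succ, mul_assoc]
      exact mul_le_mul b1 ((h₃ t t₀ h6 (by linarith)).2.trans
        (mul_le_mul_of_nonneg_right a3 (norm_nonneg _))) (norm_nonneg _) (by linarith)
    exact (h₁ n (Q t₀) (Q t) (fun j hj => by rw [J1Dyn_sub f hj]; exact ho _)
      (h7.trans ht)).trans h7
  · have h5 := mul_le_mul_of_nonneg_right b2 (norm_nonneg ((f⁻¹ ^ n) (Q t) - (f⁻¹ ^ n) (Q t₀)))
    have h6 : L ^ n * ‖(f⁻¹ ^ n) (Q t) - (f⁻¹ ^ n) (Q t₀)‖ ≤ 1 :=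
      (mul_le_mul_of_nonneg_right (pow_le_pow_right₀ hL n.le_succ) (norm_nonneg _)).trans h4
    have h7 := h₂ n ((f⁻¹ ^ n) (Q t₀)) ((f⁻¹ ^ n) (Q t)) (fun j _ => ho j) (h5.trans h6)
    rw [J1Dyn_can, J1Dyn_can] at h7
    have h8 := ((h₃ t t₀ ht (by linarith)).1.trans h7).trans h5
    rw [← le_inv_mul_iff₀ hc] at h8
    refine h8.trans ?_
    rw [pow_succ', mul_assoc]
    exact mul_le_mul_of_nonneg_right a4 (by positivity)

/- `Fil.bdd`, `dyn_good` for `f` and for `f⁻¹` (`HD.symm`, `inv_inv`), `Good.lin`; first prove that `Good` is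
monotone in `Λ` (for `Λ ≤ Λ'` both conditions get weaker) and take the larger `L`; `r ≤ 1` follows from the
smallness condition. -/
theorem dyn_pair (hd : HD f d G H) (fil : Fil G H) {P Q : ℂ → ℂ × ℂ} (hP : Imm P) (hQ : Imm Q)
    (hP0 : ∀ s, H (P s) = 0) (hQ0 : ∀ t, G (Q t) = 0) : ∃ L : ℝ, 1 ≤ L ∧ ∀ (n : ℕ) (r : ℝ), 0 < r →
      (32 * (L ^ (n + 1)) ^ 3) ^ 2 * r ≤ 1 / 100 →
      Pair (fun s => (f ^ n) (P s)) (fun t => (f⁻¹ ^ n) (Q t)) (32 * (L ^ (n + 1)) ^ 3) r := by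
  obtain ⟨ρ, hρ⟩ := fil.bdd
  obtain ⟨L₁, hL₁, h₁⟩ := dyn_good hd hQ hQ0 ρ
  obtain ⟨L₂, hL₂, h₂⟩ := dyn_good hd.symm hP hP0 ρ
  rw [inv_inv] at h₂
  have hL : 1 ≤ max L₁ L₂ := hL₁.trans (le_max_left _ _)
  refine ⟨max L₁ L₂, hL, fun n r hr hs => ?_⟩
  have b1 : 1 ≤ max L₁ L₂ ^ (n + 1) := one_le_pow₀ hL
  have b2 : 1 ≤ 32 * (max L₁ L₂ ^ (n + 1)) ^ 3 := by
    have := one_le_pow₀ (n := 3) b1
    linarith
  have b3 : r ≤ 1 := by
    have := le_mul_of_one_le_left hr.le (one_le_pow₀ (n := 2) b2)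
    linarith
  have da : Differentiable ℂ fun s => (f ^ n) (P s) := (dif_pow hd.df n).comp hP.dif
  have db : Differentiable ℂ fun t => (f⁻¹ ^ n) (Q t) := (dif_pow hd.di n).comp hQ.dif
  refine ⟨da, db, b2, hr, hs, fun s t hs ht hA => ?_⟩
  obtain ⟨h3, h4⟩ := hρ _ _ (J1Dyn_H hd n (hP0 s)) (J1Dyn_G hd n (hQ0 t))
    ((norm_lt_of_nsq hr.le hA).le.trans b3)
  exact ⟨(J1Dyn_mono (h₂ n s hs h3)
      (pow_le_pow_left₀ (by linarith) (le_max_right _ _) _)).lin da b1 hs,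
    (J1Dyn_mono (h₁ n t ht h4)
      (pow_le_pow_left₀ (by linarith) (le_max_left _ _) _)).lin db b1 ht⟩

/- Let `s` be in both sets with witnesses `t, t'`. `y = (f⁻¹ ^ n) (Q t)` is bounded by `ρ` (`hb`), `G y = 0`,
so its forward orbit is bounded; `exists_shadow` over `n + 2 j` steps gives
`‖(f ^ (2n+2j)) (P s) - (f ^ (2j)) (Q t)‖ ≤ L ^ (n + 2j) r`, and over `n + j` steps from
`y' = (f⁻¹ ^ (n+j)) (Q t')` gives `‖(f ^ (2n+2j)) (P s) - Q t'‖ ≤ L ^ (n + j) r'`. (`δ ≤ 1` makes the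
smallness conditions of `exists_shadow` hold.) -/
theorem dyn_disj (hd : HD f d G H)
    (hb : ∃ ρ : ℝ, ∀ x y : ℂ × ℂ, H x = 0 → G y = 0 → ‖x - y‖ ≤ 1 → ‖x‖ ≤ ρ ∧ ‖y‖ ≤ ρ)
    {P Q : ℂ → ℂ × ℂ} (hP0 : ∀ s, H (P s) = 0) (hQ0 : ∀ t, G (Q t) = 0) {δ : ℝ} (hδ : δ ≤ 1) {j₀ : ℕ}
    (hs : ∀ j, j₀ ≤ j → ∀ t t' : ℂ, ‖t‖ ≤ 7 → ‖t'‖ ≤ 7 → δ ≤ ‖(f ^ j) (Q t) - Q t'‖) :
    ∃ L : ℝ, 1 ≤ L ∧ ∀ (n j : ℕ) (r r' : ℝ), j₀ ≤ j → 0 < r → 0 < r' → L ^ (n + 2 * j) * r ≤ δ / 2 →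
      L ^ (n + j) * r' ≤ δ / 2 →
      Disjoint (Eset (fun s => (f ^ n) (P s)) (fun t => (f⁻¹ ^ n) (Q t)) r)
        (Eset (fun s => (f ^ (n + j)) (P s)) (fun t => (f⁻¹ ^ (n + j)) (Q t)) r') := by
  obtain ⟨ρ, hρ⟩ := hb
  obtain ⟨ρ', hρ'⟩ := hd.orbit ρ
  obtain ⟨L, hL, h₁⟩ := exists_shadow hd.df ρ'
  have key : ∀ (m k : ℕ) (s t : ℂ) (r : ℝ), 0 < r → L ^ k * r ≤ δ / 2 →
      nsq ((f ^ m) (P s) - (f⁻¹ ^ m) (Q t)) < r ^ 2 →
      ‖(f ^ k) ((f ^ m) (P s)) - (f ^ k) ((f⁻¹ ^ m) (Q t))‖ < δ / 2 := by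
    intro m k s t r hr hk hA
    have h2 := norm_lt_of_nsq hr.le hA
    have h3 : 1 ≤ L ^ k := one_le_pow₀ hL
    have h4 := le_mul_of_one_le_left hr.le h3
    have h5 := (hρ _ _ (J1Dyn_H hd m (hP0 s)) (J1Dyn_G hd m (hQ0 t)) (by linarith)).2
    have h6 := mul_lt_mul_of_pos_left h2 (zero_lt_one.trans_le h3)
    exact (h₁ k _ _ (fun j _ => hρ' _ (J1Dyn_G hd m (hQ0 t)) h5 j) (by linarith)).trans_lt
      (h6.trans_le hk)
  refine ⟨L, hL, fun n j r r' hj hr hr' h2 h3 => Set.disjoint_left.2 ?_⟩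
  rintro s ⟨-, t, ht, hA⟩ ⟨-, t', ht', hA'⟩
  have h4 := key n (n + 2 * j) s t r hr h2 hA
  have h5 := key (n + j) (n + j) s t' r' hr' h3 hA'
  rw [J1Dyn_add, ← Equiv.Perm.mul_apply, ← pow_add] at h4
  rw [J1Dyn_can, ← Equiv.Perm.mul_apply, ← pow_add,
    show n + j + (n + j) = n + 2 * j + n by ring] at h5
  have h6 := hs (2 * j) (by omega) t t' ht ht'
  have h7 := norm_sub_le_norm_sub_add_norm_sub ((f ^ (2 * j)) (Q t))
    ((f ^ (n + 2 * j + n)) (P s)) (Q t')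
  rw [norm_sub_rev] at h4
  linarith

/- `measureReal_biUnion_finset` (or `sum_measure_le_measure_univ` for the restricted measure), the area
of `closedBall 0 7` is `49 π ≤ 200`; `Finset.exists_le_of_sum_le`. -/
theorem exists_small {E E' : ℕ → Set ℂ} {T : ℕ} (hT : 0 < T) (hm : ∀ i, MeasurableSet (E i))
    (hm' : ∀ i, MeasurableSet (E' i)) (hs : ∀ i, E i ⊆ closedBall 0 7)
    (hs' : ∀ i, E' i ⊆ closedBall 0 7) (hd : ∀ i j, i < j → j < T → Disjoint (E i) (E j))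
    (hd' : ∀ i j, i < j → j < T → Disjoint (E' i) (E' j)) :
    ∃ i < T, volume.real (E i) + volume.real (E' i) ≤ 400 / T := by
  have key : ∀ {E : ℕ → Set ℂ}, (∀ i, MeasurableSet (E i)) → (∀ i, E i ⊆ closedBall 0 7) →
      (∀ i j, i < j → j < T → Disjoint (E i) (E j)) →
      ∑ i ∈ Finset.range T, volume.real (E i) ≤ 200 := by
    intro E hm hs hd
    rw [← measureReal_biUnion_finset (fun i hi j hj hij => ?_) (fun i _ => hm i)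
      fun i _ => ((measure_mono (hs i)).trans_lt measure_closedBall_lt_top).ne]
    · refine (measureReal_mono (Set.iUnion₂_subset fun i _ => hs i)
        measure_closedBall_lt_top.ne).trans ?_
      rw [Measure.real, Complex.volume_closedBall, ENNReal.toReal_mul, ENNReal.toReal_pow,
        ENNReal.toReal_ofReal (by norm_num), ENNReal.coe_toReal, NNReal.coe_real_pi]
      linarith [Real.pi_le_four]
    · rcases lt_or_gt_of_ne hij with h | h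
      · exact hd i j h (Finset.mem_range.1 hj)
      · exact (hd j i h (Finset.mem_range.1 hi)).symm
  have h1 := key hm hs hd
  have h2 := key hm' hs' hd'
  have hT' : (0 : ℝ) < T := Nat.cast_pos.2 hT
  obtain ⟨i, hi, h⟩ := Finset.exists_le_of_sum_le (s := Finset.range T)
    (f := fun i => volume.real (E i) + volume.real (E' i)) (g := fun _ => (400 : ℝ) / T)
    ⟨0, Finset.mem_range.2 hT⟩ (by
      rw [Finset.sum_add_distrib, Finset.sum_const, Finset.card_range, nsmul_eq_mul,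
        mul_div_cancel₀ _ hT'.ne']
      linarith)
  exact ⟨i, Finset.mem_range.1 hi, h⟩

/- `L ^ n ≤ exp (n log L)` and `n / d ^ n → 0` (`tendsto_self_mul_const_pow_of_lt_one`, or
`d ^ n ≥ 1 + n (d - 1)` for `√d` squared) -/
theorem tendsto_pow_exp {L d ε : ℝ} (hL : 1 ≤ L) (hd : 1 < d) (hε : 0 < ε) :
    Tendsto (fun n : ℕ => L ^ n * Real.exp (-(ε * d ^ n))) atTop (𝓝 0) := by
  have hd0 : 0 < d := zero_lt_one.trans hd
  have hl : 0 ≤ Real.log L := Real.log_nonneg hL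
  have h1 : Tendsto (fun n : ℕ => (n : ℝ) * d⁻¹ ^ n * (Real.log L + 1)) atTop (𝓝 0) := by
    simpa using (tendsto_self_mul_const_pow_of_lt_one (inv_nonneg.2 hd0.le)
      (inv_lt_one_of_one_lt₀ hd)).mul_const (Real.log L + 1)
  refine squeeze_zero' (Eventually.of_forall fun n => by positivity) ?_
    (Real.tendsto_exp_neg_atTop_nhds_zero.comp tendsto_natCast_atTop_atTop)
  refine (h1.eventually_le_const hε).mono fun n hn => ?_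
  have h2 : L ^ n = Real.exp (n * Real.log L) := by
    rw [Real.exp_nat_mul, Real.exp_log (by linarith)]
  rw [h2, ← Real.exp_add]
  refine Real.exp_le_exp.2 ?_
  have h3 := mul_le_mul_of_nonneg_right hn (pow_pos hd0 n).le
  have h4 : (n : ℝ) * d⁻¹ ^ n * (Real.log L + 1) * d ^ n = n * Real.log L + n := by
    rw [inv_pow]
    field_simp
  linarith

end Pool.Agent.Lib.MP_7b5e47_an.Hq
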