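import Pool.Agent.Lib.MP_7b5e47_an.Hq.J1Def

/-! A test function which detects that a function is not harmonic. -/

namespace Pool.Agent.Lib.MP_7b5e47_an.Hq

open MeasureTheory Set Metric Filter Topology

theorem J1Nh_lap {F : ℂ → ℂ} (hF : Differentiable ℂ F) {θ : ℝ → ℝ} {s : ℂ}
    (hθ : ContDiffAt ℝ 2 θ (‖F s‖ ^ 2)) : Lap (fun y => θ (‖F y‖ ^ 2)) s = 4 * ‖deriv F s‖ ^ 2 *
      (deriv θ (‖F s‖ ^ 2) + ‖F s‖ ^ 2 * deriv (deriv θ) (‖F s‖ ^ 2)) := by
  have hh : ContDiff ℂ (⊤ : ℕ∞) F := hF.contDiff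
  have e : ∀ v : ℂ, fderiv ℂ F s v = deriv F s * v := fun v => by
    rw [← fderiv_apply_one_eq_deriv, mul_comm, ← smul_eq_mul, ← map_smul, smul_eq_mul, mul_one]
  rw [Lap, lev_comp (sm_normSq hh) hθ, lev_normSq hh, Gr, dv_normSq hh, dv_normSq hh]
  simp only [e, smul_eq_mul, mul_one]
  generalize deriv θ (‖F s‖ ^ 2) = a
  generalize deriv (deriv θ) (‖F s‖ ^ 2) = b
  simp only [Complex.sq_norm, Complex.normSq_apply, Complex.mul_re, Complex.mul_im, Complex.conj_re,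
    Complex.conj_im, Complex.I_re, Complex.I_im]
  ring

/-- A bump on an annulus. -/
noncomputable def J1Nh_P (a : ℝ) (s : ℂ) : ℝ := 4 * (deriv Real.smoothTransition (‖s‖ ^ 2 / a - 1) / a)

theorem J1Nh_cd : ContDiff ℝ (⊤ : ℕ∞) Real.smoothTransition := Real.smoothTransition.contDiff

theorem J1Nh_P_cont (a : ℝ) : Continuous (J1Nh_P a) := by
  have := J1Nh_cd.continuous_deriv (by simp)
  unfold J1Nh_P
  fun_prop

theorem J1Nh_P_nonneg {a : ℝ} (ha : 0 < a) (s : ℂ) : 0 ≤ J1Nh_P a s := by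
  have := Real.smoothTransition.monotone.deriv_nonneg (x := ‖s‖ ^ 2 / a - 1)
  unfold J1Nh_P
  positivity

theorem J1Nh_P_zero {a : ℝ} (ha : 0 < a) {s : ℂ} (hs : 2 * a < ‖s‖ ^ 2) : J1Nh_P a s = 0 := by
  have h1 : 1 < ‖s‖ ^ 2 / a - 1 := by
    rw [lt_sub_iff_add_lt, lt_div_iff₀ ha]; linarith
  have h2 : Real.smoothTransition =ᶠ[𝓝 (‖s‖ ^ 2 / a - 1)] fun _ => 1 := by
    filter_upwards [lt_mem_nhds h1] with y hy using Real.smoothTransition.one_of_one_le hy.le
  rw [J1Nh_P, h2.deriv_eq]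
  simp

theorem J1Nh_supp {f : ℂ → ℝ} {a : ℝ} (ha : 2 * a ≤ 1) (h : ∀ s, 2 * a < ‖s‖ ^ 2 → f s = 0) :
    tsupport f ⊆ closedBall 0 1 := by
  refine closure_minimal (fun s hs => ?_) isClosed_closedBall
  rw [mem_closedBall_zero_iff]
  by_contra hc
  exact hs (h s (by nlinarith [not_le.1 hc]))

theorem J1Nh_cpt {f : ℂ → ℝ} (h : tsupport f ⊆ closedBall 0 1) : HasCompactSupport f :=
  (isCompact_closedBall 0 1).of_isClosed_subset (isClosed_tsupport f) h

theorem J1Nh_chi {p q : ℝ} (hp : 0 < p) (hpq : p ≤ q) (hq : 2 * q ≤ 1) : ∃ χ : ℂ → ℝ, Sm χ ∧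
    tsupport χ ⊆ closedBall 0 1 ∧ (∀ s, 0 ≤ χ s) ∧ ∀ s, Lap χ s = J1Nh_P q s - J1Nh_P p s := by
  have hq0 : 0 < q := hp.trans_le hpq
  set D : ℝ → ℝ := fun x => Real.smoothTransition (x / q - 1) - Real.smoothTransition (x / p - 1)
    with hD
  have hDc : ContDiff ℝ (⊤ : ℕ∞) D :=
    (J1Nh_cd.comp (by fun_prop)).sub (J1Nh_cd.comp (by fun_prop))
  have hD0 : ∀ x, x ≤ p → D x = 0 := fun x hx => by
    have h1 : x / q - 1 ≤ 0 := by rw [sub_nonpos, div_le_one hq0]; linarith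
    have h2 : x / p - 1 ≤ 0 := by rw [sub_nonpos, div_le_one hp]; linarith
    simp [hD, Real.smoothTransition.zero_of_nonpos h1, Real.smoothTransition.zero_of_nonpos h2]
  have hD1 : ∀ x, 2 * q ≤ x → D x = 0 := fun x hx => by
    have h1 : 1 ≤ x / q - 1 := by rw [le_sub_iff_add_le, le_div_iff₀ hq0]; linarith
    have h2 : 1 ≤ x / p - 1 := by rw [le_sub_iff_add_le, le_div_iff₀ hp]; linarith
    simp [hD, Real.smoothTransition.one_of_one_le h1, Real.smoothTransition.one_of_one_le h2]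
  set h : ℝ → ℝ := fun x => D x / x with hh
  have hhc : ContDiff ℝ (⊤ : ℕ∞) h := by
    rw [contDiff_iff_contDiffAt]
    intro x
    by_cases hx : x = 0
    · refine (contDiffAt_const (c := 0)).congr_of_eventuallyEq ?_
      filter_upwards [gt_mem_nhds (hx ▸ hp : x < p)] with y hy
      simp [hh, hD0 y hy.le]
    · exact hDc.contDiffAt.div contDiffAt_id hx
  have hneg : ∀ x, h x ≤ 0 := fun x => by
    rcases le_or_gt x p with hx | hx
    · simp [hh, hD0 x hx]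
    · have hx0 : 0 < x := hp.trans hx
      refine div_nonpos_of_nonpos_of_nonneg (sub_nonpos.2 ?_) hx0.le
      refine Real.smoothTransition.monotone ?_
      gcongr
  set θ : ℝ → ℝ := fun x => ∫ y in (2 * q)..x, h y with hθ
  have hθd : ∀ x, HasDerivAt θ (h x) x := fun x =>
    (hhc.continuous.integral_hasStrictDerivAt _ x).hasDerivAt
  have hθe : deriv θ = h := funext fun x => (hθd x).deriv
  have hθc : ContDiff ℝ (⊤ : ℕ∞) θ :=
    contDiff_infty_iff_deriv.2 ⟨fun x => (hθd x).differentiableAt, hθe ▸ hhc⟩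
  have hθ0 : ∀ x, 2 * q ≤ x → θ x = 0 := fun x hx => by
    refine (intervalIntegral.integral_congr (g := fun _ => 0) fun y hy => ?_).trans (by simp)
    rw [uIcc_of_le hx] at hy
    simp [hh, hD1 y hy.1]
  have hid : ContDiff ℂ (⊤ : ℕ∞) (fun y : ℂ => y) := contDiff_id
  refine ⟨fun s => θ (‖s‖ ^ 2), hθc.comp (sm_normSq hid),
    J1Nh_supp hq fun s hs => hθ0 _ hs.le, fun s => ?_, fun s => ?_⟩
  · rcases le_total (2 * q) (‖s‖ ^ 2) with hx | hx
    · exact (hθ0 _ hx).ge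
    · simp only [hθ]
      rw [intervalIntegral.integral_symm, ← intervalIntegral.integral_neg]
      exact intervalIntegral.integral_nonneg hx fun y _ => neg_nonneg.2 (hneg y)
  · rw [J1Nh_lap (F := fun y => y) differentiable_id (hθc.contDiffAt.of_le (by norm_cast)), hθe]
    have e1 : (fun x => x * h x) = D := funext fun x => by
      by_cases hx : x = 0
      · simp [hx, hD0 0 hp.le]
      · simp only [hh]; field_simp
    have h1 := (hasDerivAt_id' (‖s‖ ^ 2)).mul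
      (hhc.differentiable (by simp) (‖s‖ ^ 2)).hasDerivAt
    have h2 : ∀ a : ℝ, HasDerivAt (fun x => Real.smoothTransition (x / a - 1))
        (deriv Real.smoothTransition (‖s‖ ^ 2 / a - 1) / a) (‖s‖ ^ 2) := fun a => by
      have := (J1Nh_cd.differentiable (by simp) (‖s‖ ^ 2 / a - 1)).hasDerivAt.comp (‖s‖ ^ 2)
        (((hasDerivAt_id' (‖s‖ ^ 2)).div_const a).sub_const 1)
      rw [mul_one_div] at this
      exact this
    have h3 : HasDerivAt D _ (‖s‖ ^ 2) := (h2 q).sub (h2 p)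
    rw [← e1] at h3
    have h4 := h1.unique h3
    simp only [deriv_id'', norm_one, J1Nh_P]
    linarith

theorem J1Nh_near {x : ℝ} (hx : 0 ≤ x) :
    |Real.log (1 + x ^ 2) / 2 - 1 / (2 * (1 + x ^ 2)) - Real.log (max 1 x)| ≤ 1 := by
  have hm : 1 ≤ max 1 x := le_max_left _ _
  have h1 : max 1 x ^ 2 ≤ 1 + x ^ 2 ∧ 1 + x ^ 2 ≤ 2 * max 1 x ^ 2 := by
    rcases le_total 1 x with h | h
    · rw [max_eq_right h]; constructor <;> nlinarith
    · rw [max_eq_left h]; constructor <;> nlinarith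
  have h2 := Real.log_le_log (by positivity) h1.1
  have h3 := Real.log_le_log (by positivity) h1.2
  rw [Real.log_mul (by norm_num) (by positivity)] at h3
  rw [Real.log_pow] at h2 h3
  have h4 := Real.log_le_sub_one_of_pos (by norm_num : (0 : ℝ) < 2)
  have h5 : 0 ≤ 1 / (2 * (1 + x ^ 2)) := by positivity
  have h6 : 1 / (2 * (1 + x ^ 2)) ≤ 1 := by
    rw [div_le_one (by positivity)]; nlinarith
  push_cast at h2 h3
  rw [abs_le]
  constructor <;> linarith

/- Let `β = Real.smoothTransition`, `B x = ∫ y in 0..x, β y` (smooth: `contDiff_infty_iff_deriv` or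
`contDiff_succ_iff_deriv`; `B = 0` on `x ≤ 0`, `B x = x - 1 + B 1` for `x ≥ 1`), and for `p + 1 ≤ q`
`κ x = B (x - q) - B (x - p) + (q - p)`: `κ = q - p` for `x ≤ p`, `κ = 0` for `x ≥ q + 1`,
`κ' = β (x - q) - β (x - p) ≤ 0`, so `κ ≥ 0`. Put `θ x = κ (log (max x (exp (p - 1))))`, smooth (constant
on `x < exp p`), and `χ s = θ (‖s‖²)`. By `lev_comp`, `lev_normSq`, `dv_normSq`,
`Lap χ s = 4 (θ' x + x θ'' x) = P s - N s` with `x = ‖s‖²`, `P s = 4 β' (log x - q) / x`,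
`N s = 4 β' (log x - p) / x` (both `0` near `s = 0`; continuous, nonnegative by
`Real.smoothTransition.monotone`, compact support). There is `x₁ ∈ (0, 1)` with `β' x₁ > 0` (mean value
theorem); take `s₁` with `u s₁ > 0`, `0 < ‖s₁‖ < 1/2` and `q = log ‖s₁‖² - x₁`: then `q + 1 < 0`,
`m = ∫ u P > 0` does not depend on `p` (`Continuous.integral_pos_of_hasCompactSupport_nonneg_nonzero`), and
`∫ N = ∫ P` (`parts_lev` with the constant function one), `N` vanishes where `x > exp (p + 1)`, so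
`∫ u N ≤ (sup of u on the small disc) * ∫ P < m` for `p` very negative. -/
theorem nonharm {u : ℂ → ℝ} (hu : Continuous u) (h0 : ∀ s, 0 ≤ u s) (hz : u 0 = 0)
    (hf : ∃ᶠ s in 𝓝 (0 : ℂ), u s ≠ 0) : ∃ χ : ℂ → ℝ, Sm χ ∧ tsupport χ ⊆ closedBall 0 1 ∧
      (∀ s, 0 ≤ χ s) ∧ 0 < ∫ s, u s * Lap χ s := by
  obtain ⟨x₁, hx₁, hd⟩ := exists_deriv_eq_slope Real.smoothTransition one_pos
    Real.smoothTransition.continuous.continuousOn
    (J1Nh_cd.differentiable (by simp)).differentiableOn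
  rw [Real.smoothTransition.one, Real.smoothTransition.zero] at hd
  obtain ⟨s₁, hs₁, hs₁'⟩ := (hf.and_eventually (ball_mem_nhds (0 : ℂ) one_half_pos)).exists
  rw [dist_zero_right] at hs₁'
  have hn : 0 < ‖s₁‖ := norm_pos_iff.2 fun h => hs₁ (h ▸ hz)
  have hx0 := hx₁.1
  set q : ℝ := ‖s₁‖ ^ 2 / (1 + x₁) with hq
  have hq0 : 0 < q := by positivity
  have hq1 : 2 * q ≤ 1 := by
    have : q ≤ ‖s₁‖ ^ 2 := div_le_self (by positivity) (by linarith)
    nlinarith
  have hint : ∀ a, 0 < a → a ≤ q → Integrable (J1Nh_P a) ∧ Integrable fun s => u s * J1Nh_P a s := by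
    intro a ha haq
    have hc := J1Nh_cpt (J1Nh_supp (f := J1Nh_P a) (a := a) (by linarith)
      fun s hs => J1Nh_P_zero ha hs)
    exact ⟨(J1Nh_P_cont a).integrable_of_hasCompactSupport hc,
      (hu.mul (J1Nh_P_cont a)).integrable_of_hasCompactSupport hc.mul_left⟩
  have hm : 0 < ∫ s, u s * J1Nh_P q s := by
    refine (hu.mul (J1Nh_P_cont q)).integral_pos_of_hasCompactSupport_nonneg_nonzero
      (J1Nh_cpt (J1Nh_supp (f := J1Nh_P q) hq1 fun s hs => J1Nh_P_zero hq0 hs)).mul_left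
      (fun s => mul_nonneg (h0 s) (J1Nh_P_nonneg hq0 s)) (x := s₁) (mul_ne_zero hs₁ ?_)
    have e : ‖s₁‖ ^ 2 / q - 1 = x₁ := by rw [hq]; field_simp; ring
    rw [J1Nh_P, e, hd]
    positivity
  set m := ∫ s, u s * J1Nh_P q s with hmdef
  set K := ∫ s, J1Nh_P q s with hK
  have hK0 : 0 ≤ K := integral_nonneg (J1Nh_P_nonneg hq0)
  have hη : 0 < m / (K + 1) := by positivity
  obtain ⟨δ, hδ, hδ'⟩ := Metric.eventually_nhds_iff.1
    (hu.continuousAt.eventually (gt_mem_nhds (hz ▸ hη : u 0 < m / (K + 1))))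
  set p : ℝ := min q (δ ^ 2 / 4) with hp
  have hp0 : 0 < p := lt_min hq0 (by positivity)
  have hpq : p ≤ q := min_le_left _ _
  have hpδ : p ≤ δ ^ 2 / 4 := min_le_right _ _
  obtain ⟨χ, hχ, hsupp, hpos, hlap⟩ := J1Nh_chi hp0 hpq hq1
  refine ⟨χ, hχ, hsupp, hpos, ?_⟩
  have h1 : ∫ s, J1Nh_P p s = K := by
    have h2 := parts_lev hχ (J1Nh_cpt hsupp) (u := fun _ => 1) contDiff_const 1 1
    have h3 : Lev (fun _ : ℂ => (1 : ℝ)) 1 1 = fun _ => 0 := by
      funext z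
      simp [Lev, show ∀ v : ℂ, Dv v (fun _ : ℂ => (1 : ℝ)) = fun _ => 0 from
        fun v => by funext z; simp [Dv], Dv]
    simp only [h3, mul_zero, integral_zero, one_mul] at h2
    have h4 : ∫ z, Lev χ 1 1 z = ∫ s, (J1Nh_P q s - J1Nh_P p s) :=
      integral_congr_ae (Eventually.of_forall hlap)
    rw [h4, integral_sub (hint q hq0 le_rfl).1 (hint p hp0 hpq).1] at h2
    linarith
  have h2 : ∫ s, u s * J1Nh_P p s ≤ m / (K + 1) * K := by
    rw [← h1, ← integral_const_mul, h1]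
    refine integral_mono (hint p hp0 hpq).2 ((hint p hp0 hpq).1.const_mul _) fun s => ?_
    by_cases hs : 2 * p < ‖s‖ ^ 2
    · simp [J1Nh_P_zero hp0 hs]
    · refine mul_le_mul_of_nonneg_right (hδ' ?_).le (J1Nh_P_nonneg hp0 s)
      rw [dist_zero_right]
      refine lt_of_pow_lt_pow_left₀ 2 hδ.le ?_
      nlinarith [not_lt.1 hs]
  have h3 : m / (K + 1) * K < m := by
    rw [div_mul_eq_mul_div, div_lt_iff₀ (by positivity)]
    nlinarith
  simp only [hlap, mul_sub]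
  rw [integral_sub (hint q hq0 le_rfl).2 (hint p hp0 hpq).2]
  linarith

/- `lev_comp` for `θ x = log (1 + x) / 2 - 1 / (2 (1 + x))` and `‖F‖²`: `Lap ‖F‖² = 4 ‖F'‖²`,
`Gr = 4 ‖F‖² ‖F'‖²`, and `θ' x + x θ'' x = 1 / (1 + x)³`. -/
theorem lap_fs {F : ℂ → ℂ} (hF : Differentiable ℂ F) :
    (Sm fun s => Real.log (1 + ‖F s‖ ^ 2) / 2 - 1 / (2 * (1 + ‖F s‖ ^ 2))) ∧
    ∀ s, Lap (fun s => Real.log (1 + ‖F s‖ ^ 2) / 2 - 1 / (2 * (1 + ‖F s‖ ^ 2))) s = 4 * fs F s := by
  have hh : ContDiff ℂ (⊤ : ℕ∞) F := hF.contDiff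
  set θ : ℝ → ℝ := fun x => Real.log (1 + x) / 2 - 1 / (2 * (1 + x)) with hθ
  have hc : ∀ x : ℝ, -1 < x → ContDiffAt ℝ (⊤ : ℕ∞) θ x := fun x hx => by
    have h1 : 1 + x ≠ 0 := by linarith
    have h2 : ContDiffAt ℝ (⊤ : ℕ∞) (fun x : ℝ => 1 + x) x := by fun_prop
    exact ((h2.log h1).div_const 2).sub
      (contDiffAt_const.div (contDiffAt_const.mul h2) (by positivity))
  have hn : ∀ s, -1 < ‖F s‖ ^ 2 := fun s => by nlinarith [sq_nonneg ‖F s‖]
  refine ⟨contDiff_iff_contDiffAt.2 fun s =>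
    ContDiffAt.comp (g := θ) (f := fun s => ‖F s‖ ^ 2) s (hc _ (hn s)) (sm_normSq hh).contDiffAt,
    fun s => ?_⟩
  have d1 : ∀ x : ℝ, -1 < x → deriv θ x = (1 + x)⁻¹ / 2 + (1 + x)⁻¹ ^ 2 / 2 := fun x hx => by
    have h1 : 1 + x ≠ 0 := by linarith
    have h2 : HasDerivAt (fun x : ℝ => 1 + x) 1 x := (hasDerivAt_id' x).const_add 1
    have h3 := ((h2.log h1).div_const 2).sub ((hasDerivAt_const x (1 : ℝ)).div (h2.const_mul 2)
      (by positivity))
    refine h3.deriv.trans ?_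
    field_simp
    ring
  have d2 : ∀ x : ℝ, -1 < x → deriv (deriv θ) x = -(1 + x)⁻¹ ^ 2 / 2 - (1 + x)⁻¹ ^ 3 :=
    fun x hx => by
    have h1 : 1 + x ≠ 0 := by linarith
    have h2 : HasDerivAt (fun x : ℝ => (1 + x)⁻¹) (-1 / (1 + x) ^ 2) x :=
      ((hasDerivAt_id' x).const_add 1).inv h1
    have h3 := (h2.div_const 2).add ((h2.pow 2).div_const 2)
    have h4 : deriv θ =ᶠ[𝓝 x] fun x => (1 + x)⁻¹ / 2 + (1 + x)⁻¹ ^ 2 / 2 := by
      filter_upwards [lt_mem_nhds hx] with y hy using d1 y hy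
    rw [h4.deriv_eq]
    refine h3.deriv.trans ?_
    rw [show 2 - 1 = 1 from rfl, pow_one]
    field_simp
    ring
  refine (J1Nh_lap hF (θ := θ) ((hc _ (hn s)).of_le (by norm_cast))).trans ?_
  rw [d1 _ (hn s), d2 _ (hn s), fs]
  field_simp
  ring

/- With `χ` from `nonharm`, `χ ≤ M`, `m = ∫ u Lap χ`: `4 M ∫_{disc} fs F ≥ ∫ χ Lap g = ∫ g Lap χ`
(`parts_lev`), `|g - A u| ≤ C + 1` on the disc (`|log (1 + x²)/2 - log (max 1 x)| ≤ 1/2`), so this is at
least `A m - (C + 1) ∫ |Lap χ| ≥ A m / 2`. -/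
theorem fs_low {u : ℂ → ℝ} (hu : Continuous u) (h0 : ∀ s, 0 ≤ u s) (hz : u 0 = 0)
    (hf : ∃ᶠ s in 𝓝 (0 : ℂ), u s ≠ 0) : ∃ c : ℝ, 0 < c ∧ ∀ C : ℝ, ∃ A₀ : ℝ,
      ∀ (F : ℂ → ℂ) (A : ℝ), Differentiable ℂ F → A₀ ≤ A →
        (∀ s : ℂ, ‖s‖ ≤ 1 → |Real.log (max 1 ‖F s‖) - A * u s| ≤ C) →
        c * A ≤ ∫ s in closedBall (0 : ℂ) 1, fs F s := by
  obtain ⟨χ, hχ, hsupp, hpos, hm⟩ := nonharm hu h0 hz hf
  have hcpt := J1Nh_cpt hsupp
  obtain ⟨M₀, hM₀⟩ := hχ.continuous.bounded_above_of_compact_support hcpt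
  set M := max M₀ 1 with hM
  have hM0 : 0 < M := lt_of_lt_of_le one_pos (le_max_right _ _)
  have hχM : ∀ s, χ s ≤ M := fun s =>
    (le_abs_self _).trans ((hM₀ s).trans (le_max_left _ _))
  have hL : Continuous (Lap χ) := (hχ.lev 1 1).continuous
  have hL0 : ∀ s, s ∉ closedBall (0 : ℂ) 1 → Lap χ s = 0 := fun s hs =>
    lev_eq_zero (fun h => hs (hsupp h)) 1 1
  have hLc : HasCompactSupport (Lap χ) := HasCompactSupport.intro (isCompact_closedBall 0 1) hL0
  set m := ∫ s, u s * Lap χ s with hmdef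
  set K := ∫ s, |Lap χ s| with hK
  refine ⟨m / (8 * M), by positivity, fun C => ⟨2 * ((C + 1) * K) / m, fun F A hF hA hC => ?_⟩⟩
  obtain ⟨hg, hlap⟩ := lap_fs hF
  set g : ℂ → ℝ := fun s => Real.log (1 + ‖F s‖ ^ 2) / 2 - 1 / (2 * (1 + ‖F s‖ ^ 2)) with hgdef
  have h1 : ∫ s, χ s * Lap g s = ∫ s, g s * Lap χ s := parts_lev hχ hcpt hg 1 1
  have hfs : Continuous (fs F) := by
    have e : fs F = fun s => Lap g s / 4 := funext fun s => by rw [hlap]; ring
    rw [e]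
    exact (hg.lev 1 1).continuous.div_const 4
  have h2 : ∫ s, χ s * Lap g s ≤ 4 * M * ∫ s in closedBall (0 : ℂ) 1, fs F s := by
    rw [← setIntegral_eq_integral_of_forall_compl_eq_zero (s := closedBall (0 : ℂ) 1) fun s hs => by
      rw [image_eq_zero_of_notMem_tsupport fun h => hs (hsupp h), zero_mul], ← integral_const_mul]
    refine setIntegral_mono_on
      ((hχ.continuous.mul (hg.lev 1 1).continuous).continuousOn.integrableOn_compact
        (isCompact_closedBall 0 1))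
      ((continuous_const.mul hfs).continuousOn.integrableOn_compact (isCompact_closedBall 0 1))
      measurableSet_closedBall fun s _ => ?_
    rw [hlap]
    nlinarith [fs_nonneg F s, hχM s]
  have i1 : Integrable fun s => u s * Lap χ s :=
    (hu.mul hL).integrable_of_hasCompactSupport hLc.mul_left
  have i2 : Integrable fun s => |Lap χ s| := (hL.integrable_of_hasCompactSupport hLc).abs
  have h3 : A * m - (C + 1) * K ≤ ∫ s, g s * Lap χ s := by
    rw [hmdef, hK, ← integral_const_mul, ← integral_const_mul,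
      ← integral_sub (i1.const_mul _) (i2.const_mul _)]
    refine integral_mono ((i1.const_mul _).sub (i2.const_mul _))
      ((hg.continuous.mul hL).integrable_of_hasCompactSupport hLc.mul_left) fun s => ?_
    by_cases hs : s ∈ closedBall (0 : ℂ) 1
    · have a1 := hC s (mem_closedBall_zero_iff.1 hs)
      have a2 := J1Nh_near (norm_nonneg (F s))
      have a3 : |g s - A * u s| ≤ C + 1 := by
        rw [abs_le] at a1 a2 ⊢
        simp only [hgdef]
        constructor <;> linarith [a1.1, a1.2, a2.1, a2.2]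
      have a4 : |(g s - A * u s) * Lap χ s| ≤ (C + 1) * |Lap χ s| := by
        rw [abs_mul]; gcongr
      have a5 := neg_abs_le ((g s - A * u s) * Lap χ s)
      simp only
      nlinarith
    · simp [hL0 s hs]
  rw [div_le_iff₀ hm] at hA
  rw [div_mul_eq_mul_div, div_le_iff₀ (by positivity)]
  nlinarith

end Pool.Agent.Lib.MP_7b5e47_an.Hq
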