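import Pool.Agent.Lib.MP_7b5e47_an.Hq.J1Ait
import Pool.Agent.Lib.MP_7b5e47_an.Hq.J1Nh
import Pool.Agent.Lib.MP_7b5e47_an.Hq.J1Dyn

/-! Homoclinic points are dense in the boundary of the zero set. -/

namespace Pool.Agent.Lib.MP_7b5e47_an.Hq

open MeasureTheory Set Metric Filter Topology

theorem J1_ev {L d ε c : ℝ} (hL : 1 ≤ L) (hd : 1 < d) (hε : 0 < ε) (hc : 0 < c) (K : ℝ) :
    ∀ᶠ n : ℕ in atTop, K * (L ^ n * Real.exp (-(ε * d ^ n))) ≤ c := by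
  have h := (tendsto_pow_exp hL hd hε).const_mul K
  rw [mul_zero] at h
  exact (h.eventually (gt_mem_nhds hc)).mono fun _ h => h.le

/-- the intersection theorem for two curves -/
theorem J1_curves {f : Equiv.Perm (ℂ × ℂ)} {d : ℝ} {G H : ℂ × ℂ → ℝ} (hd : HD f d G H)
    (fil : Fil G H) {P Q : ℂ → ℂ × ℂ} (hP : Imm P) (hQ : Imm Q) (hP0 : ∀ s, H (P s) = 0)
    (hQ0 : ∀ t, G (Q t) = 0) (hu0 : G (P 0) = 0) (hu : ∃ᶠ s in 𝓝 (0 : ℂ), G (P s) ≠ 0)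
    (hv0 : H (Q 0) = 0) (hv : ∃ᶠ t in 𝓝 (0 : ℂ), H (Q t) ≠ 0) {δ : ℝ} (hδ0 : 0 < δ) (hδ : δ ≤ 1)
    {j₀ : ℕ}
    (sQ : ∀ j, j₀ ≤ j → ∀ t t' : ℂ, ‖t‖ ≤ 7 → ‖t'‖ ≤ 7 → δ ≤ ‖(f ^ j) (Q t) - Q t'‖)
    (sP : ∀ j, j₀ ≤ j → ∀ t t' : ℂ, ‖t‖ ≤ 7 → ‖t'‖ ≤ 7 → δ ≤ ‖(f⁻¹ ^ j) (P t) - P t'‖) :
    ∃ (n : ℕ) (s t : ℂ), ‖s‖ ≤ 4 ∧ (f ^ n) (P s) = (f⁻¹ ^ n) (Q t) := by
  have hd' := hd.symm
  have cu : Continuous fun s => G (P s) := hd.cG.comp hP.dif.continuous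
  have cv : Continuous fun t => H (Q t) := hd.cH.comp hQ.dif.continuous
  obtain ⟨c₁, hc₁, F₁⟩ := fs_low cu (fun s => hd.nG _) hu0 hu
  obtain ⟨c₂, hc₂, F₂⟩ := fs_low cv (fun s => hd.nH _) hv0 hv
  obtain ⟨C, hC, hC1, hC2⟩ := hd.coord fil
  obtain ⟨A₁, F₁⟩ := F₁ C
  obtain ⟨A₂, F₂⟩ := F₂ C
  obtain ⟨M₁, hM₁⟩ := (isCompact_closedBall (0 : ℂ) 8).exists_bound_of_continuousOn cu.continuousOn
  obtain ⟨M₂, hM₂⟩ := (isCompact_closedBall (0 : ℂ) 8).exists_bound_of_continuousOn cv.continuousOn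
  have hM₁0 : 0 ≤ M₁ := (norm_nonneg _).trans (hM₁ 0 (by simp))
  have hM₂0 : 0 ≤ M₂ := (norm_nonneg _).trans (hM₂ 0 (by simp))
  obtain ⟨ε, η, A₀, hε, hη, hait⟩ := ait (c₀ := min c₁ c₂) (C₀ := 2 + 4 * C + 2 * M₁ + 2 * M₂)
    (by positivity) (by positivity)
  obtain ⟨Cv, hCv, hvw⟩ := fil.vw
  obtain ⟨L₁, hL₁, hpair⟩ := dyn_pair hd fil hP hQ hP0 hQ0
  obtain ⟨ρ, hρ⟩ := fil.bdd
  obtain ⟨L₂, hL₂, D₂⟩ := dyn_disj hd ⟨ρ, hρ⟩ hP0 hQ0 hδ sQ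
  obtain ⟨L₃, hL₃, D₃⟩ := dyn_disj hd' ⟨ρ, fun x y hx hy hxy =>
    (hρ y x hy hx (by rwa [norm_sub_rev])).symm⟩ hQ0 hP0 hδ sP
  simp only [inv_inv] at D₃
  set T := ⌈400 / η⌉₊ + 1 with hT
  have hT0 : 0 < T := Nat.succ_pos _
  have hTη : 400 / (T : ℝ) ≤ η := by
    have h1 : 400 / η ≤ (T : ℝ) := (Nat.le_ceil _).trans (by rw [hT]; push_cast; linarith)
    rw [div_le_iff₀ hη] at h1
    rw [div_le_iff₀ (by exact_mod_cast hT0)]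
    linarith
  set r : ℕ → ℝ := fun n => Real.exp (-(ε / 4 * d ^ n)) with hr
  have hr0 : ∀ n, 0 < r n := fun n => Real.exp_pos _
  have hdn := tendsto_pow_atTop_atTop_of_one_lt hd.hd
  have e1 := J1_ev (one_le_pow₀ hL₁ : 1 ≤ L₁ ^ 6) hd.hd (by positivity : 0 < ε / 4)
    (by norm_num : (0 : ℝ) < 1 / 100) (1024 * L₁ ^ 6)
  have e2 := J1_ev hL₂ hd.hd (by positivity : 0 < ε / 4) (half_pos hδ0) (L₂ ^ (2 * (T * j₀)))
  have e3 := J1_ev hL₃ hd.hd (by positivity : 0 < ε / 4) (half_pos hδ0) (L₃ ^ (2 * (T * j₀)))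
  obtain ⟨n₀, hn₀⟩ := eventually_atTop.1 (e1.and (e2.and (e3.and ((hdn.eventually_ge_atTop A₀).and
    ((hdn.eventually_ge_atTop A₁).and ((hdn.eventually_ge_atTop A₂).and
    (hdn.eventually_ge_atTop (2 * Cv / ε))))))))
  have key : ∀ {L : ℝ}, 1 ≤ L → ∀ n j, j ≤ 2 * (T * j₀) →
      L ^ (2 * (T * j₀)) * (L ^ n * r n) ≤ δ / 2 → L ^ (n + j) * r n ≤ δ / 2 := by
    intro L hL n j h1 h2
    refine le_trans ?_ h2
    have h3 : L ^ j ≤ L ^ (2 * (T * j₀)) := pow_le_pow_right₀ hL h1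
    have h4 := hr0 n
    calc L ^ (n + j) * r n = L ^ j * (L ^ n * r n) := by rw [pow_add]; ring
      _ ≤ _ := by gcongr
  have hdif : ∀ n, (Differentiable ℂ fun s => (f ^ n) (P s)) ∧
      Differentiable ℂ fun t => (f⁻¹ ^ n) (Q t) :=
    fun n => ⟨(dif_pow hd.df n).comp hP.dif, (dif_pow hd.di n).comp hQ.dif⟩
  have hidx : ∀ i j, i < j → j < T → n₀ + j * j₀ = n₀ + i * j₀ + (j - i) * j₀ ∧
      j₀ ≤ (j - i) * j₀ ∧ (j - i) * j₀ ≤ T * j₀ := by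
    intro i j h1 h2
    refine ⟨?_, Nat.le_mul_of_pos_left _ (by omega), Nat.mul_le_mul_right _ (by omega)⟩
    rw [add_assoc, ← add_mul]; congr 2; omega
  obtain ⟨i, -, hi⟩ := exists_small (T := T)
    (E := fun i => Eset (fun s => (f ^ (n₀ + i * j₀)) (P s)) (fun t => (f⁻¹ ^ (n₀ + i * j₀)) (Q t))
      (r (n₀ + i * j₀)))
    (E' := fun i => Eset (fun t => (f⁻¹ ^ (n₀ + i * j₀)) (Q t)) (fun s => (f ^ (n₀ + i * j₀)) (P s))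
      (r (n₀ + i * j₀))) hT0
    (fun i => measurableSet_Eset (hdif _).1 (hdif _).2 _)
    (fun i => measurableSet_Eset (hdif _).2 (hdif _).1 _) (fun i => Eset_subset _ _ _)
    (fun i => Eset_subset _ _ _)
    (fun i j h1 h2 => by
      obtain ⟨h3, h4, h5⟩ := hidx i j h1 h2
      simp only [h3]
      refine D₂ _ _ _ _ h4 (hr0 _) (hr0 _) (key hL₂ _ _ (by omega) (hn₀ _ (by omega)).2.1) ?_
      exact key hL₂ (n₀ + i * j₀ + (j - i) * j₀) 0 (by omega) (hn₀ _ (by omega)).2.1)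
    (fun i j h1 h2 => by
      obtain ⟨h3, h4, h5⟩ := hidx i j h1 h2
      simp only [h3]
      refine D₃ _ _ _ _ h4 (hr0 _) (hr0 _) (key hL₃ _ _ (by omega) (hn₀ _ (by omega)).2.2.1) ?_
      exact key hL₃ (n₀ + i * j₀ + (j - i) * j₀) 0 (by omega) (hn₀ _ (by omega)).2.2.1)
  set n := n₀ + i * j₀ with hn
  obtain ⟨g1, -, -, g4, g5, g6, g7⟩ := hn₀ n (by omega)
  have hA1 : 1 ≤ d ^ n := one_le_pow₀ hd.hd.le
  have hHa : ∀ s, H ((f ^ n) (P s)) = 0 := fun s => by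
    have h1 := hd.H_pow n (P s)
    rw [hP0] at h1
    exact (mul_eq_zero.1 h1).resolve_left (by positivity)
  have hGb : ∀ t, G ((f⁻¹ ^ n) (Q t)) = 0 := fun t => by
    have h1 := hd'.H_pow n (Q t)
    rw [hQ0] at h1
    exact (mul_eq_zero.1 h1).resolve_left (by positivity)
  have ha : ∀ s, |Real.log (max 1 ‖((f ^ n) (P s)).1‖) - d ^ n * G (P s)| ≤ C := fun s => by
    rw [← hd.G_pow]; exact hC1 _ (hHa s)
  have hb : ∀ t, |Real.log (max 1 ‖((f⁻¹ ^ n) (Q t)).2‖) - d ^ n * H (Q t)| ≤ C := fun t => by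
    rw [← hd'.G_pow]; exact hC2 _ (hGb t)
  have hsm : (32 * (L₁ ^ (n + 1)) ^ 3) ^ 2 * r n ≤ 1 / 100 := by
    refine le_trans (le_of_eq ?_) g1
    simp only [hr]; ring
  have hr1 : r n ≤ 1 := Real.exp_le_one_iff.2 (by
    have : 0 ≤ ε / 4 * d ^ n := by positivity
    linarith)
  obtain ⟨s, t, hs, -, hst⟩ := hait _ _ _ _ (d ^ n) (hpair n (r n) (hr0 n) hsm) g4
    (fun γ hγ => by
      have hγ' := mem_closedBall_zero_iff.1 hγ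
      constructor
      · refine (w_bound _ _).trans ?_
        have h1 := (abs_le.1 (ha γ.1)).2
        have h2 := (abs_le.1 (hb γ.2)).2
        have h3 := (le_abs_self _).trans
          (hM₁ γ.1 (mem_closedBall_zero_iff.2 ((norm_fst_le γ).trans hγ')))
        have h4 := (le_abs_self _).trans
          (hM₂ γ.2 (mem_closedBall_zero_iff.2 ((norm_snd_le γ).trans hγ')))
        have h5 : d ^ n * G (P γ.1) ≤ d ^ n * M₁ := by gcongr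
        have h6 : d ^ n * H (Q γ.2) ≤ d ^ n * M₂ := by gcongr
        have h7 : (2 + 4 * C) * 1 ≤ (2 + 4 * C) * d ^ n := by gcongr
        linarith
      · refine (hvw _ _ _ (hHa γ.1) (hGb γ.2) (hr0 n) hr1).trans ?_
        rw [div_le_iff₀ hε] at g7
        simp only [hr, Real.log_exp]
        linarith)
    (le_trans (by gcongr; exact min_le_left _ _)
      (F₁ _ _ (hdif n).1.fst g5 fun s _ => ha s))
    (le_trans (by gcongr; exact min_le_right _ _)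
      (F₂ _ _ (hdif n).2.snd g6 fun t _ => hb t)) (hi.trans hTη)
  exact ⟨n, s, t, hs, hst⟩

theorem homoclinic {f : Equiv.Perm (ℂ × ℂ)} {d : ℝ} {G H : ℂ × ℂ → ℝ} (hd : HD f d G H)
    (fil : Fil G H) {p : ℂ × ℂ} {ψ σ : ℂ → ℂ × ℂ} {l m : ℂ} (h : Chart f p ψ σ l m) {w : ℂ}
    (hw : w ∈ bdK fun z => G (ψ z)) {e : ℝ} (he : 0 < e) : ∃ η ∈ ball w e, ψ η ∈ range σ := by
  by_cases hw0 : w = 0
  · exact ⟨w, mem_ball_self he, 0, by rw [hw0, h.u0, h.s0]⟩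
  have hd' := hd.symm
  have h' := h.symm hd.df hd.di
  obtain ⟨w', hw0', hw'⟩ := exists_bdK_ne hd' h'
  have n1 : 0 < ‖w‖ := norm_pos_iff.2 hw0
  have n2 : 0 < ‖w'‖ := norm_pos_iff.2 hw0'
  obtain ⟨e₁, he₁, he₁', he₁''⟩ : ∃ e₁ : ℂ, e₁ ≠ 0 ∧ 14 * ‖e₁‖ ≤ ‖w‖ ∧ 5 * ‖e₁‖ ≤ e := by
    have h1 : 0 < min (‖w‖ / 14) (e / 5) := by positivity
    refine ⟨(min (‖w‖ / 14) (e / 5) : ℝ), by exact_mod_cast h1.ne', ?_, ?_⟩ <;>
      rw [Complex.norm_real, Real.norm_of_nonneg h1.le]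
    · linarith [min_le_left (‖w‖ / 14) (e / 5)]
    · linarith [min_le_right (‖w‖ / 14) (e / 5)]
  obtain ⟨e₂, he₂, he₂'⟩ : ∃ e₂ : ℂ, e₂ ≠ 0 ∧ 14 * ‖e₂‖ ≤ ‖w'‖ := by
    have h1 : 0 < ‖w'‖ / 14 := by positivity
    refine ⟨(‖w'‖ / 14 : ℝ), by exact_mod_cast h1.ne', ?_⟩
    rw [Complex.norm_real, Real.norm_of_nonneg h1.le]
    linarith
  obtain ⟨u0, u1⟩ := J1_bdK_aff (hd.cG.comp h.iu.dif.continuous) hw he₁
  obtain ⟨v0, v1⟩ := J1_bdK_aff (hd.cH.comp h.is.dif.continuous) hw' he₂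
  obtain ⟨δ₁, hδ₁, j₁, hj₁, s₁⟩ := h.sep hw0' he₂'
  obtain ⟨δ₂, hδ₂, j₂, hj₂, s₂⟩ := h'.sep hw0 he₁'
  obtain ⟨n, s, t, hs, hst⟩ := J1_curves hd fil (h.iu.aff w he₁) (h.is.aff w' he₂)
    (fun s => h.H_u hd _) (fun t => h.G_s hd _) (by simpa using u0) u1 (by simpa using v0) v1
    (δ := min 1 (min δ₁ δ₂)) (by positivity) (min_le_left _ _) (j₀ := max j₁ j₂)
    (fun j hj t t' h1 h2 => ((min_le_right _ _).trans (min_le_left _ _)).trans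
      (s₁ j ((le_max_left _ _).trans hj) t t' h1 h2))
    (fun j hj t t' h1 h2 => ((min_le_right _ _).trans (min_le_right _ _)).trans
      (s₂ j ((le_max_right _ _).trans hj) t t' h1 h2))
  refine ⟨w + e₁ * s, ?_, m⁻¹ ^ n * (m⁻¹ ^ n * (w' + e₂ * t)), ?_⟩
  · rw [mem_ball, dist_eq_norm, add_sub_cancel_left, norm_mul]
    have := norm_pos_iff.2 he₁
    nlinarith
  · rw [← h'.pow_u, ← h'.pow_u, ← hst, inv_pow]
    simp

end Pool.Agent.Lib.MP_7b5e47_an.Hq
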