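import Pool.Agent.Lib.MP_7b5e47_an.Hq.Sad
import Pool.Agent.Lib.MP_7b5e47_an.Hq.Clo
import Pool.Agent.Lib.MP_7b5e47_an.Hq.J1

/-! Boundary points are limits of saddles. -/

namespace Pool.Agent.Lib.MP_7b5e47_an.Hq

open Set Metric Filter Topology InnerProductSpace
open Pool.Agent.Lib.MP_7b5e47_an.Hn (Kp Jul IsSaddle Wu)

/- `mp` on the annulus `δ ≤ ‖z - c‖ ≤ R` with the barrier `max B 0 * log (‖z - c‖ / δ) / log (R / δ)`
(`AnalyticAt.harmonicAt_log_norm`), then `R → ∞`. -/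
theorem liou {w : ℂ → ℝ} (hw : Continuous w) {B : ℝ} (hB : ∀ z, w z ≤ B)
    (hh : ∀ z, 0 < w z → HarmonicAt w z) {c : ℂ} {δ : ℝ} (hδ : 0 < δ)
    (h0 : ∀ z ∈ closedBall c δ, w z ≤ 0) (z : ℂ) : w z ≤ 0 := by
  by_contra hz
  rw [not_le] at hz
  have h1 : δ < ‖z - c‖ := by
    by_contra h1
    exact hz.not_ge (h0 z (mem_closedBall_iff_norm.2 (not_lt.1 h1)))
  have h2 : 0 < Real.log ‖z - c‖ - Real.log δ := sub_pos.2 (Real.log_lt_log hδ h1)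
  obtain ⟨ε, hε, he⟩ : ∃ ε : ℝ, 0 < ε ∧ ε * (Real.log ‖z - c‖ - Real.log δ) < w z :=
    ⟨w z / 2 / (Real.log ‖z - c‖ - Real.log δ), by positivity, by
      rw [div_mul_cancel₀ _ h2.ne']
      linarith⟩
  obtain ⟨R, hR1, hR2⟩ : ∃ R : ℝ, ‖z - c‖ ≤ R ∧ B ≤ ε * (Real.log R - Real.log δ) := by
    refine ⟨max ‖z - c‖ (Real.exp (B / ε + Real.log δ)), le_max_left _ _, ?_⟩
    have h3 := (Real.le_log_iff_exp_le ((hδ.trans h1).trans_le (le_max_left _ _))).2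
      (le_max_right ‖z - c‖ (Real.exp (B / ε + Real.log δ)))
    rw [← div_le_iff₀' hε]
    linarith
  have hK : IsCompact (closedBall c R \ ball c δ) := (isCompact_closedBall c R).diff isOpen_ball
  have hm : ∀ y ∈ closedBall c R \ ball c δ, δ ≤ ‖y - c‖ ∧ ‖y - c‖ ≤ R := fun y hy =>
    ⟨not_lt.1 fun h => hy.2 (mem_ball_iff_norm.2 h), mem_closedBall_iff_norm.1 hy.1⟩
  have hl : ∀ y ∈ closedBall c R \ ball c δ,
      HarmonicAt (fun y => ε * (Real.log ‖y - c‖ - Real.log δ)) y := fun y hy =>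
    ((AnalyticAt.harmonicAt_log_norm (f := fun y => y - c) (by fun_prop)
      (norm_pos_iff.1 (hδ.trans_le (hm y hy).1))).sub (harmonicAt_const _)).const_smul (c := ε)
  refine he.not_ge (mp (h := fun y => ε * (Real.log ‖y - c‖ - Real.log δ)) hK hw.continuousOn
    (fun y hy => (hl y hy).1.continuousAt.continuousWithinAt) (fun y hy => ?_) (fun y hy => ?_) z
    ⟨mem_closedBall_iff_norm.2 hR1, fun h => h1.not_gt (mem_ball_iff_norm.1 h)⟩)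
  · have h3 := interior_subset hy
    exact ⟨mul_nonneg hε.le (sub_nonneg.2 (Real.log_le_log hδ (hm y h3).1)), hl y h3, hh y⟩
  · obtain ⟨h3, h4⟩ := hm y (hK.isClosed.frontier_subset hy)
    rcases h3.eq_or_lt with h5 | h5
    · simpa [← h5] using h0 y (mem_closedBall_iff_norm.2 h5.ge)
    rcases h4.eq_or_lt with h6 | h6
    · simpa [h6] using (hB y).trans hR2
    refine absurd (interior_maximal (t := ball c R \ closedBall c δ)
      (sdiff_subset_sdiff ball_subset_closedBall ball_subset_closedBall)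
      (isOpen_ball.sdiff isClosed_closedBall) ⟨mem_ball_iff_norm.2 h6, fun h => ?_⟩) hy.2
    exact h5.not_ge (mem_closedBall_iff_norm.1 h)

/- `liou` for `w z = log (max 1 (T * ‖h z‖))`, for every `T > 0`. -/
theorem rado {h : ℂ → ℂ} (hc : Continuous h) {B : ℝ} (hB : ∀ z, ‖h z‖ ≤ B)
    (ha : ∀ z, h z ≠ 0 → AnalyticAt ℂ h z) {c : ℂ} {δ : ℝ} (hδ : 0 < δ)
    (h0 : ∀ z ∈ closedBall c δ, h z = 0) (z : ℂ) : h z = 0 := by
  by_contra hz
  have h1 := norm_pos_iff.2 hz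
  obtain ⟨T, hT0, hT⟩ : ∃ T : ℝ, 0 < T ∧ T * ‖h z‖ = 2 :=
    ⟨2 / ‖h z‖, by positivity, div_mul_cancel₀ _ h1.ne'⟩
  have h2 : ∀ y, 0 < max 1 (T * ‖h y‖) := fun y => lt_max_of_lt_left one_pos
  have h3 := liou (w := fun y => Real.log (max 1 (T * ‖h y‖))) (B := Real.log (max 1 (T * B)))
    (Continuous.log (by fun_prop) fun y => (h2 y).ne')
    (fun y => Real.log_le_log (h2 y) (max_le_max le_rfl (by gcongr; exact hB y)))
    (fun y hy => ?_) (c := c) hδ (fun y hy => by simp [h0 y hy]) z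
  · rw [hT, max_eq_right one_le_two] at h3
    exact h3.not_gt (Real.log_pos one_lt_two)
  · have h4 : 1 < T * ‖h y‖ := by
      by_contra h4
      simp [max_eq_left (not_lt.1 h4)] at hy
    have h5 : h y ≠ 0 := fun h5 => by
      rw [h5, norm_zero, mul_zero] at h4
      linarith
    refine (harmonicAt_congr_nhds ?_).1 (AnalyticAt.harmonicAt_log_norm
      (f := fun y => (T : ℂ) * h y) (analyticAt_const.mul (ha y h5))
      (mul_ne_zero (by exact_mod_cast hT0.ne') h5))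
    filter_upwards [ContinuousAt.eventually_lt (f := fun _ => (1 : ℝ))
      (g := fun y => T * ‖h y‖) continuousAt_const (by fun_prop) h4] with x hx
    rw [max_eq_right hx.le, norm_mul, Complex.norm_real, Real.norm_of_nonneg hT0.le]

variable {f : Equiv.Perm (ℂ × ℂ)} {d : ℝ} {G H : ℂ × ℂ → ℝ} {p : ℂ × ℂ} {ψ σ : ℂ → ℂ × ℂ} {l m : ℂ}

/- Let `Z` be the open set of the `a` with `∀ᶠ z in 𝓝 a, ψ z ∈ range σ`; `ψ = σ ∘ P` on `Z` (`Imm.lift`).  By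
`HD.unbdd` there are a disc `ball c δ` on which `H ∘ σ > 0` (so `‖P z - c‖ ≥ δ` on `Z`) and a closed disc on which
`G ∘ ψ > 0` (so it does not meet `Z`).  Let `h z = 1 / (P z - c)` on `Z`, `0` elsewhere.  It is continuous at `a ∉ Z`:
by `Imm.lift_near`, for each `R` eventually in `𝓝[≠] a` there is no `τ` with `‖τ‖ ≤ R`, `ψ z = σ τ`.  `rado`. -/
theorem no_share (hd : HD f d G H) (hψ : Imm ψ) (hσ : Imm σ) (h1 : ∀ z, H (ψ z) = 0)
    (h2 : ∀ z, G (σ z) = 0) (a : ℂ) : ¬ ∀ᶠ z in 𝓝 a, ψ z ∈ range σ := by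
  intro ha
  obtain ⟨Z, hZ⟩ : ∃ Z : Set ℂ, Z = {a | ∀ᶠ z in 𝓝 a, ψ z ∈ range σ} := ⟨_, rfl⟩
  have hO : IsOpen Z := hZ ▸ isOpen_setOfPred_eventually_nhds
  have hm : ∀ z ∈ Z, ψ z ∈ range σ := fun z hz => by
    rw [hZ] at hz
    exact Eventually.self_of_nhds (p := fun z => ψ z ∈ range σ) hz
  obtain ⟨P, hP, hPe⟩ := hσ.lift hO hψ.dif.differentiableOn hm
  obtain ⟨c, hc⟩ := hd.symm.unbdd hσ.dif h2 ⟨1, fun h => one_ne_zero (hσ.inj h)⟩ 0
  obtain ⟨c', hc'⟩ := hd.unbdd hψ.dif h1 ⟨1, fun h => one_ne_zero (hψ.inj h)⟩ 0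
  obtain ⟨δ, hδ, hb⟩ := Metric.eventually_nhds_iff_ball.1
    ((hd.cH.comp hσ.dif.continuous).continuousAt.eventually (lt_mem_nhds hc))
  obtain ⟨δ', hδ', hb'⟩ := Metric.nhds_basis_closedBall.eventually_iff.1
    ((hd.cG.comp hψ.dif.continuous).continuousAt.eventually (lt_mem_nhds hc'))
  have h3 : ∀ z ∈ Z, δ ≤ ‖P z - c‖ := fun z hz => not_lt.1 fun h => by
    have h4 : 0 < H (σ (P z)) := hb _ (mem_ball_iff_norm.2 h)
    rw [← hPe z hz, h1] at h4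
    exact h4.false
  have h4 : ∀ z ∈ Z, P z - c ≠ 0 := fun z hz => norm_pos_iff.1 (hδ.trans_le (h3 z hz))
  have h5 : ∀ z ∈ Z, AnalyticAt ℂ (Z.indicator fun z => (P z - c)⁻¹) z := fun z hz => by
    refine (((hP.analyticAt (hO.mem_nhds hz)).sub analyticAt_const).inv (h4 z hz)).congr ?_
    filter_upwards [hO.mem_nhds hz] with y hy
    rw [indicator_of_mem hy]
    rfl
  have h6 : Continuous (Z.indicator fun z => (P z - c)⁻¹) := by
    refine continuous_iff_continuousAt.2 fun b => ?_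
    by_cases hb : b ∈ Z
    · exact (h5 b hb).continuousAt
    refine continuousAt_iff_punctured_nhds.2 ?_
    rw [indicator_of_notMem hb, NormedAddGroup.tendsto_nhds_zero]
    intro ε hε
    have h7 : ¬ ∃ᶠ z in 𝓝[≠] b, ∃ τ, ‖τ‖ ≤ ‖c‖ + ε⁻¹ ∧ ψ z = σ τ := fun h7 => by
      obtain ⟨A, -, hA⟩ := hσ.lift_near (hψ.dif.analyticAt b) h7
      exact hb (hZ ▸ hA.mono fun z hz => ⟨A z, hz.symm⟩)
    filter_upwards [not_frequently.1 h7] with z hz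
    by_cases h8 : z ∈ Z
    · have h9 : ‖c‖ + ε⁻¹ < ‖P z‖ := not_le.1 fun h9 => hz ⟨P z, h9, hPe z h8⟩
      rw [indicator_of_mem h8, norm_inv]
      exact inv_lt_of_inv_lt₀ hε (by linarith [norm_sub_norm_le (P z) c])
    · rwa [indicator_of_notMem h8, norm_zero]
  have h7 := rado h6 (B := δ⁻¹) (fun z => ?_) (fun z hz => h5 z (mem_of_indicator_ne_zero hz))
    (c := c') hδ' (fun z hz => indicator_of_notMem (fun h8 => ?_) _) a
  · have h8 : a ∈ Z := hZ ▸ ha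
    rw [indicator_of_mem h8] at h7
    exact inv_ne_zero (h4 a h8) h7
  · by_cases h8 : z ∈ Z
    · rw [indicator_of_mem h8, norm_inv]
      exact inv_anti₀ hδ (h3 z h8)
    · rw [indicator_of_notMem h8, norm_zero]
      positivity
  · have h9 : 0 < G (ψ z) := hb' hz
    rw [hPe z h8, h2] at h9
    exact h9.false

/- `Chart.nf` gives `Ξ, F`, `NF.orbit` gives `r', C'`.  Take `k₀, k₁` large, `c = (η / l ^ k₀, m ^ k₁ * ζ)`,
`ρ = ‖c.1‖ / 2`, with `ball c ρ ⊆ ball 0 r'`, `300 C' (‖c.2‖ + ‖c.1‖) ≤ 1`.  `R n x = F^[n] (x.1 / l ^ n, x.2)`,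
`Γ = Ξ ∘ f ^ (k₀ + k₁) ∘ Th`, `Λ n = l ^ n`, `τ n = 2 ‖m‖ ^ n r'`, `‖l m‖ < 1` by `hD p` and `h.det`; `ρ'` such that
`f ^ (k₀ + k₁) ∘ Th` maps `ball (c.1, 0) ρ'` into `ball p r₀`.  If `(Γ (s, 0)).1 = 0` then
`(f ^ k₁) (ψ (l ^ k₀ * s)) = σ (Γ (s, 0)).2`, so `ψ (l ^ k₀ * s) ∈ range σ`.  `close_abs` with `B = 5` gives `x`; with
`χ y = Th (y.1 / l ^ n, y.2)` one has `(f ^ n) (χ y) = Th (R n y)` and `(f ^ (k₀ + k₁ + n)) (χ y) = χ (Ret y)` near `x`.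
`det_conj`, `LInv.fderiv_inj`, `Dis.pow`, `saddle_of_det` show that `χ x` is a saddle, and so is
`(f ^ (k₀ + n)) (χ x) = (f ^ k₀) (Th (R n x))` (`saddle_zpow`), which is close to `(f ^ k₀) (ψ c.1) = ψ η`. -/
theorem Chart.closing (hd : HD f d G H) (hD : Dis f) (h : Chart f p ψ σ l m) {η ζ : ℂ}
    (hη : η ≠ 0) (he : ψ η = σ ζ) (hn : ¬ ∀ᶠ z in 𝓝 η, ψ z ∈ range σ) : ψ η ∈ JS f := by
  obtain ⟨Ξ, r₀, r₁, r, C, hL, hr, hN, hf⟩ := h.nf hd.df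
  obtain ⟨r', C', hr', hrr, hC', hO⟩ := hN.orbit h.hl h.hm h.m0
  have hΘ := h.th_dif
  have hu := h.th_u
  have hs := h.th_s
  have hp := h.th_zero
  generalize Th p ψ σ = Θ at *
  subst hp
  obtain ⟨F, hF⟩ : ∃ F : ℂ × ℂ → ℂ × ℂ, F = fun γ => Ξ (f (Θ γ)) := ⟨_, rfl⟩
  rw [← hF] at hO
  have hl0 : l ≠ 0 := norm_pos_iff.1 (zero_lt_one.trans h.hl)
  have h1 : ∀ (n : ℕ) (γ : ℂ × ℂ), (∀ j ≤ n, F^[j] γ ∈ ball (0 : ℂ × ℂ) r) →
      (f ^ n) (Θ γ) = Θ (F^[n] γ) := fun n γ hγ => by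
    induction n with
    | zero => simp
    | succ n ih =>
      rw [pow_succ', Equiv.Perm.mul_apply, ih fun j hj => hγ j (hj.trans n.le_succ),
        Function.iterate_succ_apply', hF]
      exact (hL.right _ (hf _ (hF ▸ hγ n n.le_succ))).symm
  obtain ⟨a, ha, ha1, ha2⟩ : ∃ a : ℝ, 0 < a ∧ 2 * a ≤ r' ∧ 600 * C' * a ≤ 1 :=
    ⟨min (r' / 2) (1 / (600 * C')), by positivity,
      by linarith [min_le_left (r' / 2) (1 / (600 * C'))],
      (le_div_iff₀' (by positivity)).1 (min_le_right _ _)⟩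
  have hΛ : Tendsto (fun n : ℕ => ‖l ^ n‖) atTop atTop := by
    simpa only [norm_pow] using tendsto_pow_atTop_atTop_of_one_lt h.hl
  obtain ⟨k, hk1, hk2⟩ : ∃ k : ℕ, ‖η / l ^ k‖ < a ∧ ‖m ^ k * ζ‖ < a := by
    have h2 : Tendsto (fun k : ℕ => ‖η / l ^ k‖) atTop (𝓝 0) := by
      simpa only [norm_div] using tendsto_const_nhds.div_atTop hΛ
    have h3 : Tendsto (fun k : ℕ => ‖m ^ k * ζ‖) atTop (𝓝 0) := by
      simpa using ((tendsto_pow_atTop_nhds_zero_of_norm_lt_one h.hm).mul_const ζ).norm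
    exact ((h2.eventually (gt_mem_nhds ha)).and (h3.eventually (gt_mem_nhds ha))).exists
  have hk0 : l ^ k ≠ 0 := pow_ne_zero k hl0
  have h2 : ∀ z, (f ^ k) (ψ (z / l ^ k)) = ψ z := fun z => by
    rw [h.pow_u, mul_div_cancel₀ _ hk0]
  obtain ⟨c, hc1, hc2⟩ : ∃ c : ℂ × ℂ, c.1 = η / l ^ k ∧ c.2 = m ^ k * ζ := ⟨(_, _), rfl, rfl⟩
  rw [← h2 η, ← hc1, ← zpow_natCast]
  refine JS_zpow hd ?_ k
  have h3 : (f ^ (k + k)) (Θ (c.1, 0)) = Θ (0, c.2) := by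
    rw [hu, hs, pow_add, Equiv.Perm.mul_apply, hc1, h2, he, h.pow_s, hc2]
  have hn' : ¬ ∀ᶠ s in 𝓝 c.1, ψ s ∈ range σ := fun h4 => hn (by
    have h5 : Tendsto (fun z => z / l ^ k) (𝓝 η) (𝓝 c.1) :=
      hc1 ▸ (continuous_id.div_const (l ^ k)).tendsto η
    filter_upwards [h5.eventually h4] with z ⟨t, ht⟩
    exact ⟨m ^ k * t, by rw [← h.pow_s, ht, h2]⟩)
  have hc0 : 0 < ‖c.1‖ := norm_pos_iff.2 (hc1 ▸ div_ne_zero hη hk0)
  rw [← hc1] at hk1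
  rw [← hc2] at hk2
  clear hc1 hc2 h2 hn
  generalize k + k = K at h3
  obtain ⟨ρ, hρ⟩ : ∃ ρ, 2 * ρ = ‖c.1‖ := ⟨‖c.1‖ / 2, by ring⟩
  have hρ0 : 0 < ρ := by linarith
  have h4 : ∀ x ∈ ball c ρ, ‖x.1‖ ≤ 3 * ρ ∧ ‖x.2‖ ≤ 2 * a ∧ x ∈ ball (0 : ℂ × ℂ) r' :=
    fun x hx => by
      rw [mem_ball_iff_norm] at hx
      have h5 : ‖x.1 - c.1‖ < ρ := (norm_fst_le (x - c)).trans_lt hx
      have h6 : ‖x.2 - c.2‖ < ρ := (norm_snd_le (x - c)).trans_lt hx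
      have h7 := norm_sub_norm_le x.1 c.1
      have h8 := norm_sub_norm_le x.2 c.2
      refine ⟨by linarith, by linarith, mem_ball_zero_iff.2 ?_⟩
      rw [Prod.norm_def]
      exact max_lt (by linarith) (by linarith)
  have h5 : ((0, c.2) : ℂ × ℂ) ∈ ball (0 : ℂ × ℂ) r₁ := by
    rw [mem_ball_zero_iff, Prod.norm_def, norm_zero, max_eq_right (norm_nonneg _)]
    linarith
  have hK : Differentiable ℂ fun y => (f ^ K) (Θ y) := (dif_pow hd.df K).comp hΘ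
  obtain ⟨ρ', hρ', h6⟩ : ∃ ρ' > 0, ∀ y ∈ ball ((c.1, 0) : ℂ × ℂ) ρ',
      (f ^ K) (Θ y) ∈ ball (Θ 0) r₀ :=
    Metric.eventually_nhds_iff_ball.1 (hK.continuous.continuousAt.eventually
      (isOpen_ball.mem_nhds (h3.symm ▸ hL.maps _ h5 :)))
  obtain ⟨Γ, hΓ⟩ : ∃ Γ : ℂ × ℂ → ℂ × ℂ, Γ = fun y => Ξ ((f ^ K) (Θ y)) := ⟨_, rfl⟩
  have hΓd : DifferentiableOn ℂ Γ (ball (c.1, 0) ρ') :=
    hΓ ▸ hL.dif.comp hK.differentiableOn h6
  have h7 : ∀ y ∈ ball ((c.1, 0) : ℂ × ℂ) ρ', Θ (Γ y) = (f ^ K) (Θ y) := fun y hy => by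
    rw [hΓ]
    exact hL.right _ (h6 y hy)
  obtain ⟨R, hR⟩ : ∃ R : ℕ → ℂ × ℂ → ℂ × ℂ, R = fun n x => F^[n] (x.1 / l ^ n, x.2) := ⟨_, rfl⟩
  have hRd : ∀ n, DifferentiableOn ℂ (R n) (ball c ρ) := fun n =>
    hR ▸ (hO n).1.mono fun x hx => (h4 x hx).2.2
  refine Metric.mem_closure_iff.2 fun ε hε => ?_
  obtain ⟨e, he0, h8⟩ := Metric.continuousAt_iff.1 (hΘ.continuous.continuousAt (x := (c.1, 0))) ε hε
  have key := close_abs (R := R) (Γ := Γ) (c := c) (τ := fun n => 2 * ‖m‖ ^ n * r')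
    (Λ := fun n => l ^ n) hρ0 hρ.le hρ' hRd (fun n x hx => ?_) (fun n x hx => ?_) hΛ ?_ hΓd ?_
    (fun h9 => hn' ?_) (lt_min he0 hρ') 5
  · obtain ⟨n, ⟨x, hx, hx1, hx2, hx3⟩, hn0⟩ := (key.and (eventually_gt_atTop 0)).exists
    obtain ⟨A, hA⟩ : ∃ A : ℂ × ℂ →L[ℂ] ℂ × ℂ, ∀ y, A y = (y.1 / l ^ n, y.2) :=
      ⟨((l ^ n)⁻¹ • ContinuousLinearMap.fst ℂ ℂ ℂ).prod (ContinuousLinearMap.snd ℂ ℂ ℂ),
        fun y => by simp [div_eq_inv_mul]⟩
    have hn1 : l ^ n ≠ 0 := pow_ne_zero n hl0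
    have h9 : ∀ y ∈ ball c ρ, (f ^ n) (Θ (A y)) = Θ (R n y) := fun y hy => by
      rw [hA, hR]
      exact h1 n _ ((hO n).2 y (h4 y hy).2.2).1
    have h10 : R n x ∈ ball ((c.1, 0) : ℂ × ℂ) ρ' :=
      mem_ball_iff_norm.2 (hx1.trans_le (min_le_right _ _))
    have h11 := (hRd n).differentiableAt (isOpen_ball.mem_nhds hx)
    have h12 : ∀ᶠ y in 𝓝 x, (f ^ (K + n)) (Θ (A y)) = Θ (A (Ret (l ^ n) Γ (R n) y)) := by
      filter_upwards [isOpen_ball.mem_nhds hx,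
        h11.continuousAt.eventually (isOpen_ball.mem_nhds h10)] with y hy1 hy2
      rw [pow_add, Equiv.Perm.mul_apply, h9 y hy1, ← h7 _ hy2, hA, Ret, mul_div_cancel_left₀ _ hn1]
    have h13 : DifferentiableAt ℂ (fun y => Γ (R n y)) x :=
      (hΓd.differentiableAt (isOpen_ball.mem_nhds h10)).comp x h11
    have h14 : Function.Injective (fderiv ℂ (fun y => Θ (A y)) x) := by
      have h15 : A x ∈ ball (0 : ℂ × ℂ) r₁ := by
        rw [hA]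
        exact ball_subset_ball hr (((hO n).2 x (h4 x hx).2.2).1 0 n.zero_le)
      rw [fderiv_fun_comp x (hΘ _) A.differentiableAt, A.fderiv]
      refine (hL.fderiv_inj hΘ h15).comp fun y y' (hy : A y = A y') => ?_
      rw [hA, hA, Prod.mk.injEq, div_left_inj' hn1] at hy
      exact Prod.ext hy.1 hy.2
    have h15 := det_conj (g := ⇑(f ^ (K + n))) (χ := fun y => Θ (A y))
      (P := Ret (l ^ n) Γ (R n)) (dif_pow hd.df _ _) ((hΘ _).comp x A.differentiableAt)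
      ((h13.fst.const_mul _).prodMk h13.snd) hx2 h12 h14
    have h16 : IsSaddle f (Θ (A x)) := ⟨K + n, by omega, by rw [h12.self_of_nhds, hx2],
      saddle_of_det (hD.pow hd.df (by omega) _) (by rw [h15]; linarith)⟩
    have h17 := saddle_zpow hd h16 n
    rw [zpow_natCast, h9 x hx] at h17
    refine ⟨_, h17, ?_⟩
    rw [← hu, dist_comm]
    exact h8 (by rw [dist_eq_norm]; exact hx1.trans_le (min_le_left _ _))
  · obtain ⟨h9, h10, h11⟩ := h4 x hx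
    rw [hR]
    refine ((hO n).2 x h11).2.1.trans ?_
    calc C' * ‖x.1‖ * ‖x.2‖ ≤ C' * (3 * ρ) * (2 * a) := by gcongr
      _ = 600 * C' * a * (ρ / 100) := by ring
      _ ≤ ρ / 100 := mul_le_of_le_one_left (by positivity) ha2
  · obtain ⟨h9, h10, h11⟩ := h4 x hx
    rw [hR]
    exact ((hO n).2 x h11).2.2.trans (mul_le_mul_of_nonneg_left (h10.trans ha1) (by positivity))
  · have h9 : ‖l * m‖ < 1 := h.det ▸ hD _
    have h10 := (tendsto_pow_atTop_nhds_zero_of_lt_one (norm_nonneg _) h9).const_mul (2 * r')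
    rw [mul_zero] at h10
    refine h10.congr fun n => ?_
    rw [norm_mul, norm_pow]
    ring
  · rw [hΓ]
    beta_reduce
    rw [h3, hL.left _ h5]
  · have h10 : Tendsto (fun s : ℂ => ((s, 0) : ℂ × ℂ)) (𝓝 c.1) (𝓝 (c.1, 0)) :=
      (Continuous.prodMk_left 0).tendsto c.1
    filter_upwards [h9, h10.eventually (ball_mem_nhds _ hρ')] with s hs1 hs2
    refine ⟨(Γ (s, 0)).2 / m ^ K, (f ^ K).injective ?_⟩
    rw [h.pow_s, mul_div_cancel₀ _ (pow_ne_zero K h.m0), ← hu, ← h7 _ hs2, ← hs]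
    exact congrArg Θ (Prod.ext hs1.symm rfl)

/- `saddle_chart` gives a chart `ψ₀, σ₀` of `f ^ N`, `Imm.eq_aff` and `bdK_aff` reduce to `ψ₀`.  By `homoclinic` (for
`hd.pow`) `w` is in the closure of the set of `η` with `ψ₀ η ∈ range σ₀`, for which `ψ₀ η ∈ JS f` (`η = 0`, or
`Chart.closing`, `no_share`, `JS_pow`). -/
theorem bd_JS (hd : HD f d G H) (fil : Fil G H) (hD : Dis f) (h : Par f ψ) {w : ℂ}
    (hw : w ∈ bdK fun z => G (ψ z)) : ψ w ∈ JS f := by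
  obtain ⟨q, h⟩ := h
  obtain ⟨N, ψ₀, σ₀, l, m, hN, hc, hu, -⟩ := saddle_chart hd h.sad
  obtain ⟨a, b, ha, e⟩ := hu.imm.eq_aff h.imm.dif h.imm.inj (h.ran.trans hu.ran.symm).le
  have h1 : b + a * w ∈ bdK fun z => G (ψ₀ z) :=
    (bdK_aff (g := fun z => G (ψ₀ z)) one_ne_zero ha b w).1 (by simpa only [one_mul, ← e] using hw)
  have h2 : IsClosed (ψ₀ ⁻¹' JS f) := isClosed_JS.preimage hu.imm.dif.continuous
  rw [e]
  refine h2.closure_subset (Metric.mem_closure_iff.2 fun ε hε => ?_)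
  obtain ⟨η, h3, ζ, h4⟩ := homoclinic (hd.pow hN) fil hc h1 hε
  refine ⟨η, ?_, mem_ball'.1 h3⟩
  by_cases h5 : η = 0
  · exact subset_closure (show IsSaddle f (ψ₀ η) by rw [h5, hc.u0]; exact h.sad)
  · exact JS_pow hN (hc.closing (hd.pow hN) (hD.pow hd.df hN) h5 h4.symm
      (no_share (hd.pow hN) hc.iu hc.is (hc.H_u (hd.pow hN)) (hc.G_s (hd.pow hN)) η))

end Pool.Agent.Lib.MP_7b5e47_an.Hq
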