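import Pool.Agent.Lib.MP_7b5e47_an.Hq.Fam
import Pool.Agent.Lib.MP_7b5e47_an.Hq.J2
import Pool.Agent.Lib.MP_7b5e47_an.Hq.TSch

/-! Doubling at boundary points. -/

namespace Pool.Agent.Lib.MP_7b5e47_an.Hq

open Set Metric Filter Topology InnerProductSpace

/- `aml` with `ε = 1 / 10`, `B = 2`.  Let `ρ > 1` be the maximum of `‖P‖` on the closed unit disc, at `ζ₁`.  If
`c₂`, `c₃` of norms `2 ρ`, `3 ρ` are omitted then `(P - c₂) / (c₃ - c₂)` omits `0` and `1`, has norm at most `2` at `0`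
and changes by `ρ / ‖c₃ - c₂‖ ≥ 1 / 5` from `0` to `ζ₁`. -/
theorem circle_in : ∃ R : ℝ, 0 < R ∧ ∀ P : ℂ → ℂ, Differentiable ℂ P → P 0 = 0 →
    ∀ ζ : ℂ, ‖ζ‖ ≤ 1 → 1 < ‖P ζ‖ → ∃ s : ℝ, 2 ≤ s ∧ sphere 0 s ⊆ P '' ball 0 R := by
  obtain ⟨R, hR, h⟩ := aml (ε := 1 / 10) (by norm_num) 2
  refine ⟨R, by linarith, fun P hP h0 ζ hζ h1 => ?_⟩
  by_contra hn
  simp only [not_exists, not_and] at hn
  obtain ⟨c₂, a2, b2⟩ := not_subset.1 (hn (2 * ‖P ζ‖) (by linarith))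
  obtain ⟨c₃, a3, b3⟩ := not_subset.1 (hn (3 * ‖P ζ‖) (by linarith))
  rw [mem_sphere_zero_iff_norm] at a2 a3
  have k1 := norm_sub_norm_le c₃ c₂
  have k2 := norm_sub_le c₃ c₂
  have k3 : 0 < ‖c₃ - c₂‖ := by linarith
  have k4 : c₃ - c₂ ≠ 0 := norm_pos_iff.1 k3
  have := h (fun z => (P z - c₂) / (c₃ - c₂)) 0 ((hP.sub_const _).div_const _).differentiableOn
    (fun z hz => ⟨fun e => b2 ⟨z, hz, ?_⟩, fun e => b3 ⟨z, hz, ?_⟩⟩) ?_ ζ (by simpa using hζ)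
  · rw [← sub_div, h0, sub_sub_sub_cancel_right, sub_zero, norm_div, div_le_iff₀ k3] at this
    linarith
  · exact sub_eq_zero.1 ((div_eq_zero_iff.1 e).resolve_right k4)
  · exact sub_left_injective ((div_eq_one_iff_eq k4).1 e)
  · rw [h0, zero_sub, norm_div, norm_neg, div_le_iff₀ k3]
    linarith

variable {f : Equiv.Perm (ℂ × ℂ)} {d : ℝ} {G H : ℂ × ℂ → ℝ}

/- Given `r`, `exists_norm` with `a = r`, `x = 1 / d` gives `ψ' z = (f ^ k) (ψ (w + r z))` with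
`1 / d ≤ MM (G ∘ ψ') 0 1 < 1`.  `ψ' 0 ∈ JS f` (`bd_JS`, `JS_zpow`), `φ` from `exists_hat`, `φ = ψ' ∘ P`
(`Hat.range_sub`, `Imm.lift`), `P 0 = 0`, `Hat.one` gives `ζ` with `‖P ζ‖ > 1`.  On the circle of `circle_in`
`G ∘ ψ' ≤ B'` (`hat_bdd`, `G` is bounded on balls), so on the disc (`mp` with a constant), and
`MM (G ∘ ψ') 0 2 ≤ B' ≤ d B' MM (G ∘ ψ') 0 1`. -/
theorem doubling (h : QH f d G H) : ∃ C : ℝ, 2 ≤ C ∧ ∀ ψ, Par f ψ →
    ∀ w ∈ bdK fun z => G (ψ z), DB (fun z => G (ψ z)) w C := by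
  obtain ⟨κ, hq⟩ := h.qu
  have hd := h.hd
  have hd0 : 0 < d := by linarith [hd.hd]
  obtain ⟨R, hR, hc⟩ := circle_in
  obtain ⟨B, hB⟩ := hat_bdd hd hq R
  obtain ⟨B₀, hB₀⟩ := (isCompact_closedBall (0 : ℂ × ℂ) B).bddAbove_image hd.cG.continuousOn
  have hB' : ∀ x : ℂ × ℂ, ‖x‖ ≤ B → G x ≤ |B₀| := fun x hx =>
    (hB₀ ⟨x, mem_closedBall_zero_iff.2 hx, rfl⟩).trans (le_abs_self _)
  refine ⟨max 2 (d * |B₀|), le_max_left _ _, fun ψ hψ w hw r₀ => ?_⟩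
  have cψ : Continuous ψ := hψ.choose_spec.imm.dif.continuous
  refine ⟨bdK_zero (hd.cG.comp cψ) hw, fun r hr _ => ?_⟩
  have hr' : (r : ℂ) ≠ 0 := Complex.ofReal_ne_zero.2 hr.ne'
  obtain ⟨k, h1, h2, h3⟩ := exists_norm hd cψ hw hr' (one_div_pos.2 hd0)
  obtain ⟨q, hq'⟩ := hψ.norm hd k hr' w
  have h4 : MM (fun z => G ((f ^ k) (ψ (w + r * z)))) 0 2 =
      d ^ k * MM (fun z => G (ψ z)) w (2 * r) := by
    simp only [hd.G_zpow]
    rw [MM_mul (zpow_pos hd0 k).le, MM_aff (g := fun z => G (ψ z)) hr', mul_zero, add_zero,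
      Complex.norm_of_nonneg hr.le, mul_comm r]
  rw [Complex.norm_of_nonneg hr.le] at h3
  rw [mul_one_div_cancel hd0.ne'] at h2
  obtain ⟨φ, hφ, h0⟩ := exists_hat hd hq (JS_zpow hd (bd_JS hd h.fil h.dis hψ hw) k)
  set ψ' : ℂ → ℂ × ℂ := fun z => (f ^ k) (ψ (w + r * z)) with hψ'
  have h0' : φ 0 = ψ' 0 := by simp [hψ', h0]
  obtain ⟨P, dP, hP⟩ := hq'.imm.lift isOpen_univ hφ.1.differentiableOn
    fun z _ => hφ.range_sub hd hq hq' (b := 0) ⟨0, h0'.symm⟩ z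
  have cg : Continuous fun z => G (ψ' z) := hd.cG.comp hq'.imm.dif.continuous
  obtain ⟨ζ, z1, z2⟩ := hφ.one hd
  obtain ⟨s, s1, s2⟩ := hc P (differentiableOn_univ.1 dP)
    (hq'.imm.inj ((hP 0 (mem_univ _)).symm.trans h0')) ζ z1 (by
      by_contra hn
      have := le_MM cg.continuousOn (mem_closedBall_zero_iff.2 (not_lt.1 hn))
      rw [← hP ζ (mem_univ _), z2] at this
      exact absurd h2 (not_lt.2 this))
  have h5 := mp (g := fun z => G (ψ' z)) (h := fun _ => |B₀|) (isCompact_closedBall 0 s)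
    cg.continuousOn continuousOn_const
    (fun z _ => ⟨abs_nonneg _, harmonicAt_const _,
      hd.hG ψ' z (hq'.imm.dif.analyticAt z)⟩)
    (fun z hz => by
      rw [frontier_closedBall _ (by linarith)] at hz
      obtain ⟨y, hy, rfl⟩ := s2 hz
      show G (ψ' (P y)) ≤ _
      rw [← hP y (mem_univ _)]
      exact hB' _ (hB φ hφ y (mem_ball_zero_iff.1 hy).le))
  have h6 : MM (fun z => G (ψ' z)) 0 2 ≤ |B₀| :=
    MM_le zero_le_two fun z hz => h5 z (closedBall_subset_closedBall s1 hz)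
  refine le_of_mul_le_mul_left ?_ (zpow_pos hd0 k)
  rw [← h4, mul_left_comm, ← h3]
  calc _ ≤ |B₀| := h6
    _ = d * |B₀| * (1 / d) := by field_simp
    _ ≤ _ := mul_le_mul (le_max_right _ _) h1 (by positivity) (by positivity)

end Pool.Agent.Lib.MP_7b5e47_an.Hq
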