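import Pool.Agent.Lib.MP_7b5e47_an.Hq.ATou
import Pool.Agent.Lib.MP_7b5e47_an.Hq.ARat
import Pool.Agent.Lib.MP_7b5e47_an.Hq.ABlo
import Pool.Agent.Lib.MP_7b5e47_an.Hq.AZed
import Pool.Agent.Lib.MP_7b5e47_an.Hq.Dbl

/-! The interior estimate. -/

namespace Pool.Agent.Lib.MP_7b5e47_an.Hq

open Set Metric Filter Topology

variable {f : Equiv.Perm (ℂ × ℂ)} {d C : ℝ} {G H : ℂ × ℂ → ℝ} {ψs : ℕ → ℂ → ℂ × ℂ} {ψ : ℂ → ℂ × ℂ}
  {Ω : Set ℂ}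

theorem Sit.exists_bd (h : QH f d G H) (S : Sit f G H C ψs ψ Ω) {ε : ℝ} (hε : 0 < ε) :
    ∃ (ρ₀ : ℝ) (ψ₁ : ℂ → ℂ × ℂ) (b v b₀ : ℂ) (W : Set ℂ) (η : ℂ → ℂ),
      BD f G H C ε ψ ψ₁ b v b₀ W η ρ₀ := by
  obtain ⟨κ, hq⟩ := h.qs
  have hd := h.hd
  obtain ⟨ε', e0, e1, e2⟩ : ∃ ε' : ℝ, 0 < ε' ∧ ε' ≤ ε ∧ ε' ≤ 1 / 16 :=
    ⟨min ε (1 / 16), lt_min hε (by norm_num), min_le_left _ _, min_le_right _ _⟩
  obtain ⟨a₀, ha₀, Ξ, r₀, r₁, P⟩ := S.exists_plq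
  obtain ⟨a₁, r₃, δ, L, α, ha₁, hr₃, hsub, Wl⟩ := exists_wal h S P ha₀
  obtain ⟨b₀, hb₀, hb₁⟩ := Metric.mem_closure_iff.1 (frontier_subset_closure ha₁)
    (min r₃ 1 / 100) (by positivity)
  rw [dist_comm, dist_eq_norm] at hb₁
  have m1 := min_le_left r₃ 1
  have m2 := min_le_right r₃ 1
  obtain ⟨a₂, ha₂, hinf⟩ := isClosed_frontier.exists_infDist_eq_dist S.fr b₀
  obtain ⟨d₀, hd₀⟩ : ∃ d₀, ‖a₂ - b₀‖ = d₀ := ⟨_, rfl⟩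
  have hmin : ∀ a ∈ frontier Ω, d₀ ≤ ‖a - b₀‖ := fun a ha => by
    have := infDist_le_dist_of_mem (x := b₀) ha
    rwa [hinf, dist_comm, dist_eq_norm, hd₀, dist_comm, dist_eq_norm] at this
  have hdpos : 0 < d₀ := by
    rw [← hd₀, norm_pos_iff, sub_ne_zero]
    rintro rfl
    exact (S.opn.frontier_eq ▸ ha₂).2 hb₀
  have hd1 : d₀ < min r₃ 1 / 100 := by
    have := hmin a₁ ha₁
    rw [norm_sub_rev] at this
    linarith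
  have hB : ball b₀ d₀ ⊆ Ω := sub_of_disjoint_frontier S.opn (convex_ball _ _).isPreconnected
    (fun z hz hz' => by
      have := hmin z hz'
      rw [mem_ball, dist_eq_norm] at hz
      linarith) (mem_ball_self hdpos) hb₀
  have hcl : closedBall a₁ (r₃ / 2) ⊆ ball a₀ r₁ :=
    (closedBall_subset_ball (by linarith)).trans hsub
  have hc : closedBall b₀ d₀ ⊆ ball a₀ r₁ := by
    refine Subset.trans (fun z hz => ?_) hcl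
    rw [mem_closedBall, dist_eq_norm] at hz ⊢
    have := norm_sub_le_norm_sub_add_norm_sub z b₀ a₁
    linarith
  obtain ⟨R, hR⟩ := ratio (_root_.half_pos e0)
  obtain ⟨εs, s0, s1, s2⟩ : ∃ εs : ℝ, 0 < εs ∧ εs ≤ ε' / 100 ∧ εs ≤ d₀ / 1000 :=
    ⟨min (ε' / 100) (d₀ / 1000), by positivity, min_le_left _ _, min_le_right _ _⟩
  obtain ⟨t, ht, hsl⟩ := slice Wl.hL Wl.pos (_root_.half_pos hr₃) s0
  have hb₀' : b₀ ∈ ball a₁ (r₃ / 2) := by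
    rw [mem_ball, dist_eq_norm]
    linarith
  obtain ⟨n, ⟨v, σ, r, τ₀, hv, hvd, hpos, hσ0, St, hbv, a₃, ha₃, ha₃v⟩, hxy, hy⟩ :=
    ((S.strike h P hdpos hB ⟨a₂, ha₂, hd₀⟩ hc Wl.pos R (t := d₀ / 1000) (by positivity)).and_eventually
      ((S.xy P hcl ht).and (S.y_ne P hcl hb₀ hb₀'))).exists
  obtain ⟨q, hcur⟩ := S.par n
  obtain ⟨b, hb⟩ : ∃ b, (Ξ (σ τ₀)).1 = b := ⟨_, rfl⟩
  rw [hb] at hbv
  have hvd' := abs_le.1 hvd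
  have hva : ‖v - a₁‖ ≤ r₃ / 20 := by
    have := norm_sub_le_norm_sub_add_norm_sub v b₀ a₁
    linarith
  have hba : ‖b - a₁‖ ≤ r₃ / 10 := by
    have := norm_sub_le_norm_sub_add_norm_sub b v a₁
    linarith
  have hnear : ∀ a : ℂ, ‖a - b‖ ≤ d₀ → ‖a - a₁‖ ≤ r₃ / 2 / 2 := fun a ha => by
    have := norm_sub_le_norm_sub_add_norm_sub a b a₁
    linarith
  have hT : ∀ a ∈ frontier Ω, ‖a - b‖ ≤ d₀ → a ∈ frontier Ω ∩ ball a₁ r₃ := fun a ha ha' =>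
    ⟨ha, by rw [mem_ball, dist_eq_norm]; linarith [hnear a ha']⟩
  have hΞ : DifferentiableOn ℂ (fun z => Ξ (ψs n z)) (ball a₁ (r₃ / 2)) :=
    P.dif.comp hcur.imm.dif.differentiableOn fun z hz => (hxy z hz).1
  have key : ∀ a ∈ frontier Ω, ‖a - b‖ ≤ d₀ → ∃ η : ℂ, ‖η - a‖ ≤ εs ∧
      ‖DD α Ξ σ a 0 - (η - v)‖ ≤ ε' / 100 * ‖η - v‖ ∧
      ∃ σ' τ, Hat f⁻¹ H σ' ∧ σ' 0 = ψ a ∧ ‖τ‖ ≤ 1 ∧ σ' τ = ψs n η := by
    intro a ha ha'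
    have haT := hT a ha ha'
    obtain ⟨η, h1, h2, h3, h4, h5⟩ := hsl (fun z => (Ξ (ψs n z)).1) (fun z => (Ξ (ψs n z)).2) (α a)
      a₁ a hΞ.fst hΞ.snd (fun z hz => (hxy z hz).2) (Wl.zero a haT) (Wl.lip a haT) (hnear a ha')
    obtain ⟨σ', k1, k2, k3⟩ := Wl.hat a haT
    obtain ⟨τ, k4, k5, k6, -⟩ := k3 _ h4
    refine ⟨η, h2, ?_, σ', τ, k1, k2, k4, P.inj k5 (hxy η h1).1 ?_⟩
    · unfold DD
      rw [hσ0]
      exact (h5 v (by linarith)).trans (mul_le_mul_of_nonneg_right s1 (norm_nonneg _))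
    · rw [k6]
      exact Prod.ext h3.symm rfl
  choose! η k1 k2 k3 using key
  have hy0 : (Ξ (σ 0)).2 ≠ 0 := by
    rw [hσ0]
    exact hy v (by rw [mem_ball, dist_eq_norm]; linarith)
  have hr0 : (0 : ℂ) ∈ ball (0 : ℂ) r := mem_ball_self ((norm_nonneg _).trans_lt St.mem)
  have hD : ∀ a ∈ frontier Ω, ‖a - b‖ ≤ d₀ → a ≠ b → DD α Ξ σ a 0 ≠ 0 := fun a ha ha' hab =>
    Wl.dich P St hy0 (hT a ha ha') (hb ▸ hab) 0 hr0
  have hrat : ∀ a ∈ frontier Ω, ∀ a' ∈ frontier Ω, ‖a - b‖ ≤ d₀ → ‖a' - b‖ ≤ d₀ → a ≠ b → a' ≠ b →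
      ‖a' - b‖ ≤ 8 * ‖a - b‖ →
      η a - v ≠ 0 ∧ ‖(η a' - v) / (η a - v) - (a' - b) / (a - b)‖ ≤ ε' := by
    intro a ha a' ha' h1 h2 h3 h4 h5
    have := hR P Wl St hy0 a (hT a ha h1) a' (hT a' ha' h2) (hb ▸ h3) (hb ▸ h4) (hb ▸ h5)
    rw [hb] at this
    refine ratio_alg (by linarith) (hD a ha h1 h3) (k2 a ha h1) (k2 a' ha' h2) ?_ this
    rw [norm_div, div_le_iff₀ (norm_pos_iff.2 (sub_ne_zero.2 h3))]
    exact h5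
  have hne : ∀ a ∈ frontier Ω, ‖a - b‖ ≤ d₀ → a ≠ b → η a ≠ v := fun a ha h1 h3 =>
    sub_ne_zero.1 (hrat a ha a ha h1 h1 h3 h3 (by linarith [norm_nonneg (a - b)])).1
  have Ch : CH Ω b₀ b v d₀ η :=
    { opn := S.opn, pos := hdpos, one := by linarith, ball := hB, hv := hvd, hb := hbv
      cir := S.cir
      hη := fun a ha h1 h3 => ⟨(k1 a ha h1).trans s2, hne a ha h1 h3, by
        obtain ⟨σ', τ, j1, -, -, j4⟩ := k3 a ha h1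
        by_contra hlt
        have := hpos (η a) (by rw [mem_ball, dist_eq_norm]; exact not_le.1 hlt)
        rw [← j4, j1.hz hd.symm] at this
        exact lt_irrefl _ this⟩
      rat := fun a ha a' ha' h1 h2 h3 h4 h5 => (hrat a ha a' ha' h1 h2 h3 h4 h5).2.trans e2 }
  have hb1 : b ∈ ball a₀ r₁ := hcl (by rw [mem_closedBall, dist_eq_norm]; linarith)
  have hbf : b ∈ frontier Ω := by
    refine (Ch.base ⟨a₃, ha₃, ?_⟩).resolve_right fun hbΩ => hy0 ?_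
    · have := norm_sub_le_norm_sub_add_norm_sub a₃ v b
      rw [norm_sub_rev v b] at this
      linarith
    · refine lam_hat hd S.dif P St (hb ▸ hb1) ?_
      rw [hb]
      filter_upwards [S.opn.mem_nhds hbΩ] with z hz using S.zero z hz
  have hψb : ψ b = σ τ₀ := by
    refine P.inj (P.map b hb1) (St.chart τ₀ (mem_ball_zero_iff.2 St.mem)).1 ?_
    rw [P.left b hb1]
    exact Prod.ext hb.symm St.zero.symm
  refine ⟨d₀ / 10, ψs n, b, v, b₀, {a | a ∈ frontier Ω ∧ a ≠ b ∧ ‖a - b‖ ≤ d₀ / 10}, η,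
    { d0 := S.dif, d1 := hcur.imm.dif, h0 := S.hz, h1 := hcur.hz hd, db0 := S.db b hbf
      db1 := S.dbs n v hv, ne := ?_, pos := hpos, hρ := by positivity, cir := ?_
      nb := fun a ha => ⟨ha.2.1, hne a ha.1 (by linarith [ha.2.2]) ha.2.1⟩
      rat := fun a ha a' ha' h5 => (hrat a ha.1 a' ha'.1 (by linarith [ha.2.2])
        (by linarith [ha'.2.2]) ha.2.1 ha'.2.1 h5).2.trans e1
      asy := ?_
      cone := fun a ha x hx => S.zero _ (Ch.chain ha.1 ha.2.1 ha.2.2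
        ⟨by linarith [hx.1], by linarith [hx.2]⟩) }⟩
  · rintro rfl
    rw [sub_self, norm_zero] at hvd'
    linarith [hvd'.1]
  · intro ρ hρ
    obtain ⟨a, ha, e⟩ := S.cir b hbf ρ ⟨hρ.1, by linarith [hρ.2]⟩
    refine ⟨a, ⟨ha, ?_, e ▸ hρ.2⟩, e⟩
    rintro rfl
    rw [sub_self, norm_zero] at e
    exact hρ.1.ne e
  · intro δ' hδ'
    filter_upwards [hat_asym hd.symm hq 1 hδ'] with N hN
    rw [inv_inv] at hN
    refine ⟨?_, fun a ha => ?_⟩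
    · rw [hψb, ← hσ0]
      exact hN σ St.hat _ _ St.one (by simp)
    · obtain ⟨σ', τ, j1, j2, j3, j4⟩ := k3 a ha.1 (by linarith [ha.2.2])
      rw [← j2, ← j4]
      exact hN σ' j1 _ _ (by simp) j3

theorem not_sit (h : QH f d G H) (hC : 1 ≤ C) : ¬ Sit f G H C ψs ψ Ω := by
  intro S
  obtain ⟨ε₀, B, h0, hb⟩ := blow h.hd hC
  obtain ⟨ε₁, h1, hz⟩ := no_bl h.hd.cG B (c := 1 / C ^ 2) (by positivity)
  obtain ⟨ρ₀, ψ₁, b, v, b₀, W, η, hB⟩ := S.exists_bd h (lt_min h0 h1)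
  obtain ⟨Ψ₀, Ψ₁, θ, hL⟩ := hb _ _ _ _ _ _ _ _ _ (min_le_left _ _) hB
  refine hz Ψ₀ Ψ₁ θ { hL with pair := fun r hr => ?_ }
  obtain ⟨a, b, e1, e2, e3⟩ := hL.pair r hr
  exact ⟨a, b, e1, e2.trans (min_le_right _ _), e3⟩

theorem john (h : QH f d G H) : ∃ c : ℝ, 0 < c ∧ ∀ (ψ : ℂ → ℂ × ℂ) (ζ w : ℂ), Par f ψ →
    G (ψ w) = 0 → ζ ≠ w → (∀ z ∈ ball ζ ‖ζ - w‖, 0 < G (ψ z)) →
      c * MM (fun z => G (ψ z)) w ‖ζ - w‖ ≤ G (ψ ζ) := by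
  obtain ⟨C, hC, hdb⟩ := doubling h
  by_contra hn
  push Not at hn
  obtain ⟨ψs, ψ, Ω, S⟩ := exists_sit h (by linarith) hdb fun c hc => by
    obtain ⟨ψ, ζ, w, a1, a2, a3, a4, a5⟩ := hn c hc
    exact ⟨ψ, ζ, w, a1, a2, a3, a4, a5⟩
  exact not_sit h (by linarith) S

end Pool.Agent.Lib.MP_7b5e47_an.Hq
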