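import Pool.Agent.Lib.MP_7b5e47_an.Hq.ADef
import Pool.Agent.Lib.MP_7b5e47_an.Hq.J2

/-! The limit domain. -/

namespace Pool.Agent.Lib.MP_7b5e47_an.Hq

open Set Metric Filter Topology InnerProductSpace

theorem AKer_sub {X : Type} [UniformSpace X] {F : ℕ → ℂ → X} {g : ℂ → X}
    (h : TendstoLocallyUniformly F g atTop) {φ : ℕ → ℕ} (hφ : StrictMono φ) :
    TendstoLocallyUniformly (fun j => F (φ j)) g atTop := by
  intro u hu x
  obtain ⟨t, ht, h1⟩ := h u hu x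
  exact ⟨t, ht, hφ.tendsto_atTop.eventually h1⟩

theorem AKer_at {X : Type} [UniformSpace X] {F : ℕ → ℂ → X} {g : ℂ → X}
    (h : TendstoLocallyUniformly F g atTop) (z : ℂ) : Tendsto (fun j => F j z) atTop (𝓝 (g z)) :=
  (h.tendstoLocallyUniformlyOn (s := univ)).tendsto_at (mem_univ z)

theorem AKer_ext {S : ℕ → Set ℂ} {z : ℂ}
    (h : ∀ e : ℝ, 0 < e → ∃ᶠ n in atTop, ∃ w ∈ S n, ‖w - z‖ < e) :
    ∃ (φ : ℕ → ℕ) (w : ℕ → ℂ), StrictMono φ ∧ (∀ j, w j ∈ S (φ j)) ∧ Tendsto w atTop (𝓝 z) := by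
  obtain ⟨φ, hφ, hP⟩ := Filter.extraction_forall_of_frequently
    (P := fun j n => ∃ w ∈ S n, ‖w - z‖ < 1 / ((j : ℝ) + 1)) (fun j => h _ (by positivity))
  choose w hw hw' using hP
  refine ⟨φ, w, hφ, hw, ?_⟩
  rw [tendsto_iff_norm_sub_tendsto_zero]
  exact squeeze_zero (fun _ => norm_nonneg _) (fun j => (hw' j).le)
    tendsto_one_div_add_atTop_nhds_zero_nat

theorem AKer_ball {gs : ℕ → ℂ → ℝ} {g : ℂ → ℝ} (hcg : Continuous g) (hg0 : ∀ z, 0 ≤ g z)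
    (hh : ∀ n z, 0 < gs n z → HarmonicAt (gs n) z) (hl : TendstoLocallyUniformly gs g atTop)
    {c : ℂ} {r : ℝ} (hf : ∃ᶠ n in atTop, ∀ z ∈ ball c r, 0 < gs n z) (h1 : g c = 0) :
    ∀ z ∈ ball c r, g z = 0 := by
  obtain ⟨φ, hφ, hP⟩ := Filter.extraction_of_frequently_atTop hf
  refine lim0 (gs := fun j => gs (φ j)) hcg.continuousOn (fun z _ => hg0 z)
    (AKer_sub hl hφ).tendstoLocallyUniformlyOn (fun s hs => Eventually.of_forall fun j z hz => ?_) h1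
  exact hh _ _ (hP j z (closedBall_subset_ball hs hz))

/- If for every `e` frequently `ball z e` meets `bdK (gs n)`, extract (`Filter.extraction_forall_of_frequently`) a
subsequence and points `w j → z`; `DB.lim`. -/
theorem db_of_freq {gs : ℕ → ℂ → ℝ} {g : ℂ → ℝ} {C : ℝ} (hc : ∀ n, Continuous (gs n))
    (hl : TendstoLocallyUniformly gs g atTop) (hdb : ∀ n, ∀ w ∈ bdK (gs n), DB (gs n) w C) {z : ℂ}
    (h : ∀ e : ℝ, 0 < e → ∃ᶠ n in atTop, ∃ w ∈ bdK (gs n), ‖w - z‖ < e) : DB g z C := by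
  obtain ⟨φ, w, hφ, hw, hwl⟩ := AKer_ext (S := fun n => bdK (gs n)) h
  exact DB.lim (gs := fun j => gs (φ j)) (fun j => hc _) (AKer_sub hl hφ) hwl
    (fun j => hdb _ _ (hw j))

/- `g = 0` on `ball 1 1` by `lim0`.  `Ω = connectedComponentIn (interior {g = 0}) 1`.  The set `Ω'` of the points with
a neighbourhood on which eventually `gs n > 0` is open, contains `1`, and `closure Ω' ∩ Ω ⊆ Ω'` (otherwise
`exists_bdK`, `db_of_freq`, `DB.eq_zero` give `g = 0`); `IsPreconnected.subset_of_closure_inter_subset`.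
For `a ∈ frontier Ω`: if `g = 0` near `a` then a ball around `a` is in `Ω`.  If frequently `gs n > 0` on `ball a e`,
`lim0` along a subsequence gives `g = 0` on the ball.  `Ω` contains `1` with `‖1 - a‖ ≥ 1` and points close to `a`, so it
meets `sphere a r`; if the sphere (`isPreconnected_sphere`) does not meet the frontier it lies in `Ω`, and `mp`
gives `g = 0` on the ball. -/
theorem kernel {gs : ℕ → ℂ → ℝ} {g : ℂ → ℝ} {C : ℝ} (hc : ∀ n, Continuous (gs n))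
    (h0 : ∀ n z, 0 ≤ gs n z) (hh : ∀ n z, 0 < gs n z → HarmonicAt (gs n) z)
    (hl : TendstoLocallyUniformly gs g atTop) (hg : ∀ z, 0 < g z → HarmonicAt g z) (hC : 0 ≤ C)
    (hdb : ∀ n, ∀ w ∈ bdK (gs n), DB (gs n) w C) (hp : ∀ n, ∀ z ∈ ball (1 : ℂ) 1, 0 < gs n z)
    (h1 : g 1 = 0) (hn : ∃ z, g z ≠ 0) :
    ∃ Ω : Set ℂ, IsOpen Ω ∧ (frontier Ω).Nonempty ∧ (∀ z ∈ Ω, g z = 0) ∧
      (∀ K ⊆ Ω, IsCompact K → ∀ᶠ n in atTop, ∀ z ∈ K, 0 < gs n z) ∧ ∀ a ∈ frontier Ω,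
        (¬ ∀ᶠ z in 𝓝 a, g z = 0) ∧
        (∀ e : ℝ, 0 < e → ∀ᶠ n in atTop, ∃ w ∈ bdK (gs n), ‖w - a‖ < e) ∧
        ∀ r ∈ Ioo (0 : ℝ) 1, ∃ a' ∈ frontier Ω, ‖a' - a‖ = r := by
  have hcg : Continuous g := hl.continuous (Eventually.of_forall hc).frequently
  have hg0 : ∀ z, 0 ≤ g z := fun z => ge_of_tendsto' (AKer_at hl z) fun n => h0 n z
  have hb : ∀ z ∈ ball (1 : ℂ) 1, g z = 0 :=
    AKer_ball hcg hg0 hh hl (Eventually.of_forall hp).frequently h1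
  obtain ⟨F, hF⟩ : ∃ F : Set ℂ, F = interior {z | g z = 0} := ⟨_, rfl⟩
  have hFo : IsOpen F := hF ▸ isOpen_interior
  have hFm : ∀ z, z ∈ F ↔ ∀ᶠ y in 𝓝 z, g y = 0 := fun z => by
    rw [hF, mem_interior_iff_mem_nhds]; rfl
  have hbF : ball (1 : ℂ) 1 ⊆ F := hF ▸ interior_maximal hb isOpen_ball
  obtain ⟨Ω, hΩ⟩ : ∃ Ω : Set ℂ, Ω = connectedComponentIn F 1 := ⟨_, rfl⟩
  have hΩo : IsOpen Ω := hΩ ▸ hFo.connectedComponentIn
  have hΩF : Ω ⊆ F := hΩ ▸ connectedComponentIn_subset F 1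
  have hΩc : IsPreconnected Ω := hΩ ▸ isPreconnected_connectedComponentIn
  have hmax : ∀ S : Set ℂ, IsPreconnected S → S ⊆ F → ∀ z ∈ S, z ∈ Ω → S ⊆ Ω := by
    intro S hS hSF z hz hzΩ
    rw [hΩ] at hzΩ ⊢
    rw [connectedComponentIn_eq hzΩ]
    exact hS.subset_connectedComponentIn hz hSF
  have h1b : (1 : ℂ) ∈ ball (1 : ℂ) 1 := mem_ball_self one_pos
  have h1Ω : (1 : ℂ) ∈ Ω := hΩ ▸ mem_connectedComponentIn (hbF h1b)
  have hbΩ : ball (1 : ℂ) 1 ⊆ Ω := hmax _ (convex_ball _ _).isPreconnected hbF 1 h1b h1Ω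
  have hz : ∀ z ∈ Ω, g z = 0 := fun z hz => ((hFm z).1 (hΩF hz)).self_of_nhds
  obtain ⟨U, hU⟩ : ∃ U : Set ℂ, U = {z | ∃ t ∈ 𝓝 z, ∀ᶠ n in atTop, ∀ w ∈ t, 0 < gs n w} := ⟨_, rfl⟩
  have hUm : ∀ z, z ∈ U ↔ ∃ t ∈ 𝓝 z, ∀ᶠ n in atTop, ∀ w ∈ t, 0 < gs n w := fun z => by
    rw [hU]; rfl
  have hUo : IsOpen U := by
    rw [isOpen_iff_mem_nhds]
    intro z hz
    obtain ⟨t, ht, h2⟩ := (hUm z).1 hz
    filter_upwards [eventually_mem_nhds_iff.2 ht] with y hy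
    exact (hUm y).2 ⟨t, hy, h2⟩
  have hUp : ∀ z ∈ U, ∀ᶠ n in atTop, 0 < gs n z := by
    intro z hz
    obtain ⟨t, ht, h2⟩ := (hUm z).1 hz
    exact h2.mono fun n hn => hn z (mem_of_mem_nhds ht)
  have hbd : ∀ (z : ℂ) (e : ℝ) (n : ℕ), (¬ ∀ w ∈ ball z e, 0 < gs n w) →
      (∃ y ∈ ball z e, 0 < gs n y) → ∃ w ∈ bdK (gs n), ‖w - z‖ < e := by
    intro z e n h2 h3
    push Not at h2
    obtain ⟨w, hw, hw'⟩ := h2
    obtain ⟨y, hy, hy'⟩ := h3
    obtain ⟨v, hv, hv'⟩ := exists_bdK (hc n) (convex_ball z e).isPreconnected hw hy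
      (le_antisymm hw' (h0 n w)) hy'.ne'
    exact ⟨v, hv', mem_ball_iff_norm.1 hv⟩
  have hΩU : Ω ⊆ U := by
    refine hΩc.subset_of_closure_inter_subset hUo ⟨1, h1Ω, (hUm 1).2 ⟨ball 1 1,
      ball_mem_nhds _ one_pos, Eventually.of_forall hp⟩⟩ ?_
    rintro z ⟨hzc, hzΩ⟩
    by_contra hzU
    obtain ⟨y, hy⟩ := hn
    refine hy (DB.eq_zero hcg hg0 hC (w := z) (db_of_freq hc hl hdb fun e he => ?_)
      ((hFm z).1 (hΩF hzΩ)) y)
    have h2 : ∃ᶠ n in atTop, ¬ ∀ w ∈ ball z e, 0 < gs n w := by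
      rw [← not_eventually]
      exact fun h3 => hzU ((hUm z).2 ⟨ball z e, ball_mem_nhds _ he, h3⟩)
    obtain ⟨x, hx, hxU⟩ := mem_closure_iff_nhds.1 hzc (ball z e) (ball_mem_nhds _ he)
    exact (h2.and_eventually (hUp x hxU)).mono fun n hn => hbd z e n hn.1 ⟨x, hx, hn.2⟩
  refine ⟨Ω, hΩo, ?_, hz, ?_, fun a ha => ?_⟩
  · rw [nonempty_frontier_iff]
    refine ⟨⟨1, h1Ω⟩, fun h2 => ?_⟩
    obtain ⟨y, hy⟩ := hn
    exact hy (hz y (h2 ▸ mem_univ y))
  · intro K hK hKc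
    refine hKc.induction_on (p := fun s => ∀ᶠ n in atTop, ∀ z ∈ s, 0 < gs n z) (by simp)
      (fun s t hst ht => ht.mono fun n hn z hz => hn z (hst hz))
      (fun s t hs ht => (hs.and ht).mono fun n hn z hz => hz.elim (hn.1 z) (hn.2 z))
      (fun x hx => ?_)
    obtain ⟨t, ht, h2⟩ := (hUm x).1 (hΩU (hK hx))
    exact ⟨t, mem_nhdsWithin_of_mem_nhds ht, h2⟩
  · have hac : a ∈ closure Ω := frontier_subset_closure ha
    have haΩ : a ∉ Ω := by
      rw [hΩo.frontier_eq] at ha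
      exact ha.2
    have hnear : ∀ e : ℝ, 0 < e → ∃ x ∈ ball a e, x ∈ Ω := fun e he => by
      obtain ⟨x, hx, hx'⟩ := mem_closure_iff_nhds.1 hac (ball a e) (ball_mem_nhds _ he)
      exact ⟨x, hx, hx'⟩
    have hact : ¬ ∀ᶠ z in 𝓝 a, g z = 0 := by
      intro h2
      obtain ⟨e, he, h3⟩ := Metric.isOpen_iff.1 hFo a ((hFm a).2 h2)
      obtain ⟨x, hx, hx'⟩ := hnear e he
      exact haΩ (hmax _ (convex_ball a e).isPreconnected h3 x hx hx' (mem_ball_self he))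
    have hga : g a = 0 :=
      closure_minimal (s := Ω) (t := {z | g z = 0}) hz (isClosed_eq hcg continuous_const) hac
    refine ⟨hact, fun e he => ?_, fun r hr => ?_⟩
    · have h2 : ∀ᶠ n in atTop, ¬ ∀ w ∈ ball a e, 0 < gs n w := by
        rw [← not_frequently]
        intro h3
        exact hact (mem_of_superset (ball_mem_nhds a he) (AKer_ball hcg hg0 hh hl h3 hga))
      obtain ⟨x, hx, hx'⟩ := hnear e he
      exact (h2.and (hUp x (hΩU hx'))).mono fun n hn => hbd a e n hn.1 ⟨x, hx, hn.2⟩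
    · by_contra h2
      push Not at h2
      obtain ⟨x, hx, hx'⟩ := hnear r hr.1
      have h3 : 1 ≤ ‖1 - a‖ := by
        by_contra h3
        refine haΩ (hbΩ ?_)
        rw [mem_ball_iff_norm, norm_sub_rev]
        exact not_le.1 h3
      obtain ⟨y, hy, hy'⟩ := hΩc.intermediate_value hx' h1Ω (f := fun z => ‖z - a‖)
        (by fun_prop) (show r ∈ Icc ‖x - a‖ ‖1 - a‖ from
          ⟨(mem_ball_iff_norm.1 hx).le, hr.2.le.trans h3⟩)
      have h4 : sphere a r ⊆ Ω := by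
        refine (isPreconnected_sphere (by rw [Complex.rank_real_complex]; norm_num) a
          r).subset_of_closure_inter_subset hΩo ⟨y, mem_sphere_iff_norm.2 hy', hy⟩ ?_
        rintro z ⟨hzc, hzs⟩
        by_contra hzΩ
        refine h2 z ?_ (mem_sphere_iff_norm.1 hzs)
        rw [hΩo.frontier_eq]
        exact ⟨hzc, hzΩ⟩
      have h5 := mp (g := g) (h := fun _ => 0) (isCompact_closedBall a r) hcg.continuousOn
        continuousOn_const (fun z _ => ⟨le_rfl, harmonicAt_const 0, hg z⟩) (fun z hz' => by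
          rw [frontier_closedBall a hr.1.ne'] at hz'
          exact (hz z (h4 hz')).le)
      refine hact (mem_of_superset (closedBall_mem_nhds a hr.1) fun z hz' => ?_)
      exact le_antisymm (h5 z hz') (hg0 z)

variable {f : Equiv.Perm (ℂ × ℂ)} {d C : ℝ} {G H : ℂ × ℂ → ℝ}

/- For `c = 1 / (n + 1)` normalize by `exists_norm` with `a = ζ - w`, `x = 1` (`w` is in `bdK` as a limit of points of
the ball); `Par.norm`, `bdK_aff`; `HD.db_bdd` and `montel`; `tlu_comp`; the limit has `G (ψ 1) = 0` and is at least one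
somewhere on the closed unit disc; `kernel`, `db_of_freq`, `bd_JS`, `isClosed_JS`. -/
theorem exists_sit (h : QH f d G H) (hC : 0 ≤ C)
    (hdb : ∀ ψ, Par f ψ → ∀ w ∈ bdK fun z => G (ψ z), DB (fun z => G (ψ z)) w C)
    (hj : ∀ c : ℝ, 0 < c → ∃ (ψ : ℂ → ℂ × ℂ) (ζ w : ℂ), Par f ψ ∧ G (ψ w) = 0 ∧ ζ ≠ w ∧
      (∀ z ∈ ball ζ ‖ζ - w‖, 0 < G (ψ z)) ∧ G (ψ ζ) < c * MM (fun z => G (ψ z)) w ‖ζ - w‖) :
    ∃ ψs ψ Ω, Sit f G H C ψs ψ Ω := by
  have hd := h.hd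
  have hd0 : 0 < d := one_pos.trans hd.hd
  have key : ∀ n : ℕ, ∃ F : ℂ → ℂ × ℂ, Par f F ∧ (0 : ℂ) ∈ (bdK fun z => G (F z)) ∧
      1 ≤ MM (fun z => G (F z)) 0 1 ∧ MM (fun z => G (F z)) 0 1 ≤ d ∧
      (∀ z ∈ ball (1 : ℂ) 1, 0 < G (F z)) ∧ G (F 1) ≤ 1 / ((n : ℝ) + 1) * d := by
    intro n
    have hcn : (0 : ℝ) < 1 / ((n : ℝ) + 1) := by positivity
    obtain ⟨ψ, ζ, w, hp, h0, hne, hpos, hlt⟩ := hj _ hcn
    have ha : ζ - w ≠ 0 := sub_ne_zero.2 hne
    have ha' : 0 < ‖ζ - w‖ := norm_pos_iff.2 ha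
    have hcψ : Continuous ψ := by
      obtain ⟨q, hq⟩ := hp
      exact hq.imm.dif.continuous
    have hw : w ∈ bdK fun z => G (ψ z) := by
      rw [bdK, frontier_eq_closure_inter_closure]
      refine ⟨subset_closure h0, closure_mono (s := ball ζ ‖ζ - w‖)
        (fun z hz => (hpos z hz).ne') ?_⟩
      rw [closure_ball ζ ha'.ne', mem_closedBall_iff_norm, norm_sub_rev]
    obtain ⟨k, k1, k2, k3⟩ := exists_norm hd hcψ hw ha one_pos
    have hk : 0 < d ^ k := zpow_pos hd0 k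
    have he : (fun z => G ((f ^ k) (ψ (w + (ζ - w) * z)))) =
        fun z => d ^ k * (fun y => G (ψ y)) (w + (ζ - w) * z) := funext fun z => hd.G_zpow k _
    refine ⟨fun z => (f ^ k) (ψ (w + (ζ - w) * z)), hp.norm hd k ha w, ?_, k1,
      by simpa using k2.le, fun z hz => ?_, ?_⟩
    · rw [he]
      exact (bdK_aff (g := fun y => G (ψ y)) hk.ne' ha w 0).2 (by simpa using hw)
    · rw [hd.G_zpow]
      refine mul_pos hk (hpos _ ?_)
      rw [mem_ball_iff_norm] at hz ⊢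
      rw [show w + (ζ - w) * z - ζ = (ζ - w) * (z - 1) by ring, norm_mul]
      exact mul_lt_of_lt_one_right ha' hz
    · rw [hd.G_zpow, show w + (ζ - w) * 1 = ζ by ring]
      have h2 := mul_lt_mul_of_pos_left hlt hk
      rw [mul_left_comm, ← k3] at h2
      rw [mul_one] at k2
      exact h2.le.trans (mul_le_mul_of_nonneg_left k2.le hcn.le)
  choose F par hb m1 m2 hp h1 using key
  have dif : ∀ n, Differentiable ℂ (F n) := fun n => by
    obtain ⟨q, hq⟩ := par n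
    exact hq.imm.dif
  obtain ⟨φ, Ψ, hφ, hΨ, hl⟩ := montel (F := F) fun R => by
    obtain ⟨B, hB⟩ := hd.db_bdd hC d R one_pos
    exact ⟨B, Eventually.of_forall fun j => ⟨(dif j).differentiableOn, fun z hz =>
      hB _ (dif j).continuous ((par j).hz hd) (hdb _ (par j) 0 (hb j)) (m2 j) z
        (mem_ball_zero_iff.1 hz).le⟩⟩
  have hc : ∀ j, Continuous fun z => G (F (φ j) z) := fun j => hd.cG.comp (dif _).continuous
  have hcg : Continuous fun z => G (Ψ z) := hd.cG.comp hΨ.continuous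
  have hlG := tlu_comp hΨ.continuous hl hd.cG
  have hdbs : ∀ j, ∀ w ∈ bdK fun z => G (F (φ j) z), DB (fun z => G (F (φ j) z)) w C :=
    fun j => hdb _ (par _)
  have g1 : G (Ψ 1) = 0 := by
    refine le_antisymm ?_ (hd.nG _)
    have h2 : Tendsto (fun j => 1 / ((φ j : ℝ) + 1) * d) atTop (𝓝 (0 * d)) :=
      (tendsto_one_div_add_atTop_nhds_zero_nat.comp hφ.tendsto_atTop).mul_const d
    rw [zero_mul] at h2
    exact le_of_tendsto_of_tendsto' (AKer_at hlG 1) h2 fun j => h1 _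
  have gn : ∃ z, G (Ψ z) ≠ 0 := by
    have h2 := ge_of_tendsto' (Base_tendsto hc hlG (ws := fun _ => 0) tendsto_const_nhds
      zero_le_one) fun j => m1 (φ j)
    obtain ⟨z, -, hz⟩ := exists_MM (w := 0) hcg.continuousOn zero_le_one
    exact ⟨z, by rw [← hz] at h2; exact (one_pos.trans_le h2).ne'⟩
  obtain ⟨Ω, o1, o2, o3, o4, o5⟩ := kernel hc (fun n z => hd.nG _)
    (fun n z hz => hd.hG _ z ((dif _).analyticAt z) hz) hlG
    (fun z hz => hd.hG _ z (hΨ.analyticAt z) hz) hC hdbs (fun n => hp _) g1 gn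
  have jss : ∀ j, ∀ w ∈ bdK fun z => G (F (φ j) z), F (φ j) w ∈ JS f :=
    fun j w hw => bd_JS hd h.fil h.dis (par _) hw
  refine ⟨fun j => F (φ j), Ψ, Ω, fun n => par _, hl, hΨ, fun z => ?_, o1, o2, o3, o4,
    fun a ha => ?_, fun a ha => db_of_freq hc hlG hdbs fun e he => ((o5 a ha).2.1 e he).frequently,
    fun a ha => (o5 a ha).1, fun a ha => (o5 a ha).2.1, fun a ha => (o5 a ha).2.2, hdbs, jss⟩
  · have h2 := AKer_at (tlu_comp hΨ.continuous hl hd.cH) z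
    simp only [(par _).hz hd] at h2
    exact tendsto_nhds_unique h2 tendsto_const_nhds
  · obtain ⟨θ, w, hθ, hw, hwl⟩ := AKer_ext (S := fun n => bdK fun z => G (F (φ n) z))
      fun e he => ((o5 a ha).2.1 e he).frequently
    exact isClosed_JS.mem_of_tendsto
      ((AKer_sub hl hθ).tendsto_comp hΨ.continuous.continuousAt hwl)
      (Eventually.of_forall fun j => jss _ _ (hw j))

variable {ψs : ℕ → ℂ → ℂ × ℂ} {ψ : ℂ → ℂ × ℂ} {Ω : Set ℂ}

/- If `deriv ψ = 0` on the frontier then `circ` and `cir` give `deriv ψ = 0`, so `ψ` is constant, against `act`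
(`G (ψ a) = 0` by `db`).  `exists_plaque`; `Ξ` is injective since it has a left inverse. -/
theorem Sit.exists_plq (S : Sit f G H C ψs ψ Ω) :
    ∃ a₀ ∈ frontier Ω, ∃ Ξ r₀ r₁, Plq ψ Ξ a₀ r₀ r₁ := by
  have h1 : ∃ a ∈ frontier Ω, deriv ψ a ≠ 0 := by
    by_contra h1
    push Not at h1
    obtain ⟨a, ha⟩ := S.fr
    have h2 := circ (F := deriv ψ) isOpen_univ isPreconnected_univ
      (S.dif.differentiableOn.deriv isOpen_univ) (c := a) one_pos (fun z _ _ => mem_univ z)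
      (fun r hr _ => by
        obtain ⟨a', ha', h3⟩ := S.cir a ha r hr
        exact ⟨a', h3, h1 a' ha'⟩) one_pos
    refine S.act a ha (Eventually.of_forall fun z => ?_)
    rw [is_const_of_deriv_eq_zero S.dif (fun x => h2 x (mem_univ x)) z a]
    exact (S.db a ha 0).1
  obtain ⟨a, ha, hd⟩ := h1
  obtain ⟨e, Ξ, r₀, r₁, L⟩ := exists_plaque S.dif hd
  have hm : ∀ x ∈ ball a r₁, ((x, 0) : ℂ × ℂ) ∈ ball ((a, 0) : ℂ × ℂ) r₁ := fun x hx => by
    rw [← ball_prod_same]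
    exact ⟨hx, mem_ball_self L.h1⟩
  have hr : ∀ z ∈ ball (ψ a) r₀, ψ (Ξ z).1 + (Ξ z).2 • e = z := by simpa using L.right
  refine ⟨a, ha, Ξ, r₀, r₁, L.h1, by simpa using L.dif, fun x hx y hy hxy => ?_,
    fun x hx => by simpa using L.maps _ (hm x hx), fun x hx => by simpa using L.left _ (hm x hx)⟩
  rw [← hr x hx, ← hr y hy, hxy]

theorem Sit.perf (S : Sit f G H C ψs ψ Ω) (a₁ : ℂ) (r : ℝ) : Perf (frontier Ω ∩ ball a₁ r) := by
  rintro a ⟨ha, ha'⟩ e he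
  obtain ⟨δ, hδ, h1⟩ := Metric.isOpen_iff.1 isOpen_ball a ha'
  have h2 : 0 < min (1 : ℝ) (min e δ) := by positivity
  have h3 := min_le_left (1 : ℝ) (min e δ)
  have h4 := (min_le_right (1 : ℝ) (min e δ)).trans (min_le_left e δ)
  have h5 := (min_le_right (1 : ℝ) (min e δ)).trans (min_le_right e δ)
  obtain ⟨a', ha', h6⟩ := S.cir a ha (min (1 : ℝ) (min e δ) / 2) ⟨by positivity, by linarith⟩
  refine ⟨a', ⟨ha', h1 ?_⟩, ?_, by linarith⟩
  · rw [mem_ball_iff_norm]; linarith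
  · rintro rfl
    rw [sub_self, norm_zero] at h6
    linarith

variable {Ξ : ℂ × ℂ → ℂ × ℂ} {a₀ : ℂ} {r₀ r₁ : ℝ}

/- `ψ '' closedBall c R` is a compact subset of the open ball on which `Ξ` is continuous
(`IsCompact.exists_cthickening_subset_open`, uniform continuity on a compact thickening). -/
theorem Sit.xy (S : Sit f G H C ψs ψ Ω) (P : Plq ψ Ξ a₀ r₀ r₁) {c : ℂ} {R : ℝ}
    (hR : closedBall c R ⊆ ball a₀ r₁) {t : ℝ} (ht : 0 < t) : ∀ᶠ n in atTop, ∀ z ∈ ball c R,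
      ψs n z ∈ ball (ψ a₀) r₀ ∧ ‖(Ξ (ψs n z)).1 - z‖ ≤ t ∧ ‖(Ξ (ψs n z)).2‖ ≤ t := by
  have hK : IsCompact (ψ '' closedBall c R) := (isCompact_closedBall c R).image S.dif.continuous
  obtain ⟨δ, hδ, h1⟩ := hK.exists_cthickening_subset_open isOpen_ball
    (show ψ '' closedBall c R ⊆ ball (ψ a₀) r₀ by
      rintro _ ⟨z, hz, rfl⟩
      exact P.map z (hR hz))
  obtain ⟨η, hη, h2⟩ := Metric.uniformContinuousOn_iff.1
    ((hK.cthickening (r := δ)).uniformContinuousOn_of_continuous (P.dif.continuousOn.mono h1)) t ht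
  have h3 := Metric.tendstoUniformlyOn_iff.1
    ((tendstoLocallyUniformlyOn_iff_tendstoUniformlyOn_of_compact (isCompact_closedBall c R)).1
      S.lim.tendstoLocallyUniformlyOn) (min δ η) (lt_min hδ hη)
  filter_upwards [h3] with n hn z hz
  have hz' := ball_subset_closedBall hz
  have h4 := hn z hz'
  rw [dist_comm, lt_min_iff] at h4
  have h5 : ψs n z ∈ cthickening δ (ψ '' closedBall c R) :=
    mem_cthickening_of_dist_le _ _ _ _ (mem_image_of_mem ψ hz') h4.1.le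
  have h6 := h2 _ h5 _ (self_subset_cthickening _ (mem_image_of_mem ψ hz')) h4.2
  rw [P.left z (hR hz'), dist_eq_norm] at h6
  refine ⟨h1 h5, ?_, ?_⟩
  · simpa using (norm_fst_le _).trans h6.le
  · simpa using (norm_snd_le _).trans h6.le

/- Let `X, Y` be the components of `Ξ ∘ ψs n`, and `t` so small that `X` maps `ball c R` into `ball a₀ r₁` and
`X b₀ ∈ Ω`.  If `Y v = 0` then `ψs n v = ψ (X v)` (`P.inj`).  `share` for the constant sequence `ψs n` and the sequence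
`ψs` (`Cur.meet`) gives `ψ = ψs n ∘ A` near `x = X v`, so `Y (A z) = 0`, `X (A z) = z`, and `Y` vanishes frequently near
`v`, so on `ball c R`.  Then `ψs n b₀ = ψ (X b₀)`, against `ker` and `zero`. -/
theorem Sit.y_ne (S : Sit f G H C ψs ψ Ω) (P : Plq ψ Ξ a₀ r₀ r₁) {c : ℂ} {R : ℝ}
    (hR : closedBall c R ⊆ ball a₀ r₁) {b₀ : ℂ} (hb : b₀ ∈ Ω) (hb' : b₀ ∈ ball c R) :
    ∀ᶠ n in atTop, ∀ v ∈ ball c R, (Ξ (ψs n v)).2 ≠ 0 := by
  obtain ⟨δ, hδ, h1⟩ := (isCompact_closedBall c R).exists_cthickening_subset_open isOpen_ball hR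
  obtain ⟨η, hη, h2⟩ := nhds_basis_closedBall.mem_iff.1 (S.opn.mem_nhds hb)
  filter_upwards [S.xy P hR (lt_min hδ hη), S.ker {b₀} (singleton_subset_iff.2 hb)
    isCompact_singleton] with n hn hk v hv hY
  have hX : ∀ z ∈ ball c R, (Ξ (ψs n z)).1 ∈ ball a₀ r₁ := fun z hz =>
    h1 (mem_cthickening_of_dist_le _ z _ _ (ball_subset_closedBall hz)
      (by rw [dist_eq_norm]; exact (hn z hz).2.1.trans (min_le_left _ _)))
  have hE : ∀ z ∈ ball c R, (Ξ (ψs n z)).2 = 0 → ψs n z = ψ (Ξ (ψs n z)).1 := fun z hz h0 =>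
    P.inj (hn z hz).1 (P.map _ (hX z hz)) (by rw [P.left _ (hX z hz)]; exact Prod.ext rfl h0)
  obtain ⟨q, hq⟩ := S.par n
  obtain ⟨A, hA, hA0, hA1⟩ := share (ps := fun _ => ψs n) (qs := ψs) (p := ψs n) (q := ψ)
    (fun _ => hq.imm) (fun j => by
      obtain ⟨q', hq'⟩ := S.par j
      exact hq'.imm.dif)
    (fun u hu x => ⟨univ, univ_mem, Eventually.of_forall fun _ y _ => refl_mem_uniformity hu⟩)
    S.lim (fun j a b hab => by
      obtain ⟨q', hq'⟩ := S.par j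
      exact hq.meet hq' hab) (hE v hv hY) (hq.imm.der v)
  obtain ⟨x, hx⟩ : ∃ x, x = (Ξ (ψs n v)).1 := ⟨_, rfl⟩
  rw [← hx] at hA hA0 hA1
  have h3 : ∀ᶠ z in 𝓝 x, Ξ (ψs n (A z)) = (z, 0) := by
    filter_upwards [hA1, isOpen_ball.mem_nhds (hx ▸ hX v hv)] with z hz hz'
    rw [← hz, P.left z hz']
  have h4 : Tendsto A (𝓝[≠] x) (𝓝[≠] v) := by
    refine tendsto_nhdsWithin_iff.2 ⟨?_, ?_⟩
    · rw [← hA0]
      exact hA.continuousAt.tendsto.mono_left nhdsWithin_le_nhds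
    · filter_upwards [mem_nhdsWithin_of_mem_nhds h3, self_mem_nhdsWithin] with z hz hz' h5
      rw [mem_singleton_iff] at h5
      rw [h5] at hz
      exact hz' (by rw [mem_singleton_iff, hx, hz])
  have h5 : ∃ᶠ y in 𝓝[≠] v, (Ξ (ψs n y)).2 = 0 := by
    refine h4.frequently (Eventually.frequently ?_)
    filter_upwards [mem_nhdsWithin_of_mem_nhds h3] with z hz
    rw [hz]
  have h6 : DifferentiableOn ℂ (fun y => (Ξ (ψs n y)).2) (ball c R) :=
    (P.dif.comp hq.imm.dif.differentiableOn fun z hz => (hn z hz).1).snd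
  have h7 := (h6.analyticOnNhd isOpen_ball).eqOn_zero_of_preconnected_of_frequently_eq_zero
    (convex_ball c R).isPreconnected hv h5 hb'
  have h8 := hk b₀ rfl
  rw [hE b₀ hb' h7, S.zero _ (h2 ?_)] at h8
  · exact lt_irrefl _ h8
  · rw [mem_closedBall_iff_norm]
    exact (hn b₀ hb').2.1.trans (min_le_right _ _)

end Pool.Agent.Lib.MP_7b5e47_an.Hq
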