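import Pool.Agent.Lib.MP_7b5e47_an.Hq.AWal

/-! The touching points and the stable curves through them. -/

namespace Pool.Agent.Lib.MP_7b5e47_an.Hq

open Set Metric Filter Topology

variable {f : Equiv.Perm (ℂ × ℂ)} {d C : ℝ} {G H : ℂ × ℂ → ℝ} {ψs : ℕ → ℂ → ℂ × ℂ} {ψ : ℂ → ℂ × ℂ}
  {Ω : Set ℂ} {Ξ : ℂ × ℂ → ℂ × ℂ} {a₀ b₀ : ℂ} {r₀ r₁ d₀ : ℝ}

theorem ATou_near {g : ℂ → ℝ} (hg : Continuous g) (h0 : ∀ z, 0 ≤ g z) {b w : ℂ} (hw : g w = 0)
    (hb : 0 < g b) : ∃ v, v ∈ bdK g ∧ (∀ z ∈ ball b ‖v - b‖, 0 < g z) ∧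
      ∀ w', g w' = 0 → ‖v - b‖ ≤ ‖w' - b‖ := by
  have hc : IsClosed {z | g z = 0} := isClosed_eq hg continuous_const
  obtain ⟨v, hv, hd⟩ := hc.exists_infDist_eq_dist ⟨w, hw⟩ b
  have h1 : ∀ w', g w' = 0 → ‖v - b‖ ≤ ‖w' - b‖ := fun w' hw' => by
    have h2 := infDist_le_dist_of_mem (x := b) (s := {z | g z = 0}) hw'
    rwa [hd, dist_comm b, dist_comm b, dist_eq_norm, dist_eq_norm] at h2
  have h2 : ∀ z ∈ ball b ‖v - b‖, 0 < g z := fun z hz => by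
    refine lt_of_le_of_ne (h0 z) fun e => ?_
    have h3 := h1 z e.symm
    rw [mem_ball, dist_eq_norm] at hz
    linarith
  refine ⟨v, ?_, h2, h1⟩
  have hne : ‖v - b‖ ≠ 0 := by
    intro e
    rw [norm_eq_zero, sub_eq_zero] at e
    have h3 : g v = 0 := hv
    rw [e] at h3
    exact hb.ne' h3
  rw [bdK, frontier_eq_closure_inter_closure]
  refine ⟨subset_closure hv, ?_⟩
  have h3 : v ∈ closure (ball b ‖v - b‖) := by
    rw [closure_ball b hne, mem_closedBall, dist_eq_norm]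
  exact closure_mono (fun z hz => (h2 z hz).ne') h3

theorem ATou_zero {g : ℂ → ℝ} (hg : Continuous g) {w : ℂ} (hw : w ∈ bdK g) : g w = 0 :=
  (isClosed_eq hg continuous_const).frontier_subset hw

theorem ATou_sub {F : ℕ → ℂ → ℂ × ℂ} {φ : ℂ → ℂ × ℂ} (h : TendstoLocallyUniformly F φ atTop)
    {s : ℕ → ℕ} (hs : StrictMono s) : TendstoLocallyUniformly (fun j => F (s j)) φ atTop := by
  intro u hu x
  obtain ⟨T, hT, h1⟩ := h u hu x
  exact ⟨T, hT, hs.tendsto_atTop.eventually h1⟩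

/- For large `n` the zero set of `G ∘ ψs n` is closed and not empty (`app`); let `v n` be a nearest point to `b₀`.
`‖v n - b₀‖ → d₀` by `ker` (for `closedBall b₀ (d₀ - e)`) and `app`.  A subsequence converges to `v'` with `‖v' - b₀‖ = d₀`, in
the closure of the ball, not in `Ω` by `ker` for a closed ball around `v'`. -/
theorem Sit.touch (hd : HD f d G H) (S : Sit f G H C ψs ψ Ω) (h0 : 0 < d₀) (hB : ball b₀ d₀ ⊆ Ω)
    (ha : ∃ a ∈ frontier Ω, ‖a - b₀‖ = d₀) : ∃ (s : ℕ → ℕ) (v : ℕ → ℂ) (v' : ℂ), StrictMono s ∧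
      v' ∈ frontier Ω ∧ ‖v' - b₀‖ = d₀ ∧ Tendsto v atTop (𝓝 v') ∧ ∀ j,
        (v j ∈ bdK fun z => G (ψs (s j) z)) ∧ ∀ z ∈ ball b₀ ‖v j - b₀‖, 0 < G (ψs (s j) z) := by
  obtain ⟨a, haf, had⟩ := ha
  have hc : ∀ n, Continuous fun z => G (ψs n z) := fun n => by
    obtain ⟨q, hq⟩ := S.par n
    exact hd.cG.comp hq.imm.dif.continuous
  have hb : b₀ ∈ Ω := hB (mem_ball_self h0)
  have h1 : ∀ᶠ n in atTop, ∃ v, (v ∈ bdK fun z => G (ψs n z)) ∧
      (∀ z ∈ ball b₀ ‖v - b₀‖, 0 < G (ψs n z)) ∧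
      ∀ w', G (ψs n w') = 0 → ‖v - b₀‖ ≤ ‖w' - b₀‖ := by
    filter_upwards [S.app a haf 1 one_pos, S.ker {b₀} (singleton_subset_iff.2 hb)
      isCompact_singleton] with n hn hn'
    obtain ⟨w, hw, -⟩ := hn
    exact ATou_near (hc n) (fun z => hd.nG _) (ATou_zero (hc n) hw) (hn' b₀ rfl)
  obtain ⟨v, hv⟩ := h1.choice
  have h2 : Tendsto (fun n => ‖v n - b₀‖) atTop (𝓝 d₀) := by
    rw [Metric.tendsto_nhds]
    intro e he
    filter_upwards [hv, S.app a haf e he, S.ker (closedBall b₀ (d₀ - e))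
      ((closedBall_subset_ball (by linarith)).trans hB) (isCompact_closedBall _ _)] with n hn hn' hk
    obtain ⟨w, hw, hwa⟩ := hn'
    have h3 := hn.2.2 w (ATou_zero (hc n) hw)
    have h4 := norm_sub_le_norm_sub_add_norm_sub w a b₀
    have h5 : d₀ - e < ‖v n - b₀‖ := by
      by_contra h6
      have h7 := hk (v n) (by rw [mem_closedBall, dist_eq_norm]; exact not_lt.1 h6)
      exact h7.ne' (ATou_zero (hc n) hn.1)
    rw [Real.dist_eq, abs_lt]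
    constructor <;> linarith
  obtain ⟨s₀, hs₀, hv₀⟩ := Filter.extraction_of_eventually_atTop hv
  have h3 : ∀ᶠ j in atTop, v (s₀ j) ∈ closedBall b₀ (d₀ + 1) := by
    filter_upwards [(h2.comp hs₀.tendsto_atTop).eventually_le_const (lt_add_one d₀)] with j hj
    rw [mem_closedBall, dist_eq_norm]
    exact hj
  obtain ⟨v', -, s₁, hs₁, hl⟩ := (isCompact_closedBall b₀ (d₀ + 1)).tendsto_subseq' h3.frequently
  have hs := hs₀.comp hs₁
  have h4 : ‖v' - b₀‖ = d₀ :=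
    tendsto_nhds_unique (hl.sub_const b₀).norm (h2.comp hs.tendsto_atTop)
  refine ⟨s₀ ∘ s₁, fun j => v (s₀ (s₁ j)), v', hs, ⟨?_, ?_⟩, h4, hl,
    fun j => ⟨(hv₀ (s₁ j)).1, (hv₀ (s₁ j)).2.1⟩⟩
  · refine closure_mono hB ?_
    rw [closure_ball b₀ h0.ne', mem_closedBall, dist_eq_norm, h4]
  · rw [S.opn.interior_eq]
    intro h5
    obtain ⟨e, he, h6⟩ := Metric.nhds_basis_closedBall.mem_iff.1 (S.opn.mem_nhds h5)
    have h7 := hs.tendsto_atTop.eventually (S.ker _ h6 (isCompact_closedBall _ _))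
    obtain ⟨j, h8, h9⟩ := (h7.and (hl.eventually (closedBall_mem_nhds v' he))).exists
    exact (h8 _ h9).ne' (ATou_zero (hc _) (hv₀ (s₁ j)).1)

/- `Sit.touch`; `σ j` from `exists_hat` for the inverse (`jss`, `JS_inv`), a convergent subsequence (`hat_seq`) with limit
`σ'`, `σ' 0 = ψ v'`, `Ξ (σ' 0) = (v', 0)`.  Take `r ≤ 1` such that on `closedBall 0 r` the curve `σ'` is in the chart and
`Ξ ∘ σ'` is within `min (δ / 2) (t / 4)` of `(v', 0)`; `Ξ ∘ σ j → Ξ ∘ σ'` uniformly there.  `hat_y_ne`, `hurwitz` with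
`e = r / (|R| + 1)`.  An eventual property of the subsequence is a frequent property of the sequence. -/
theorem Sit.strike (h : QH f d G H) (S : Sit f G H C ψs ψ Ω) (P : Plq ψ Ξ a₀ r₀ r₁) (h0 : 0 < d₀)
    (hB : ball b₀ d₀ ⊆ Ω) (ha : ∃ a ∈ frontier Ω, ‖a - b₀‖ = d₀)
    (hc : closedBall b₀ d₀ ⊆ ball a₀ r₁) {δ : ℝ} (hδ : 0 < δ) (R : ℝ) {t : ℝ} (ht : 0 < t) :
    ∃ᶠ n in atTop, ∃ (v : ℂ) (σ : ℂ → ℂ × ℂ) (r : ℝ) (τ₀ : ℂ),
      (v ∈ bdK fun z => G (ψs n z)) ∧ |‖v - b₀‖ - d₀| ≤ t ∧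
      (∀ z ∈ ball b₀ ‖v - b₀‖, 0 < G (ψs n z)) ∧ σ 0 = ψs n v ∧
      Stk f H ψ Ξ a₀ r₀ δ R σ r τ₀ ∧ ‖(Ξ (σ τ₀)).1 - v‖ ≤ t ∧ ∃ a ∈ frontier Ω, ‖a - v‖ ≤ t := by
  have hd := h.hd
  obtain ⟨κ, hq⟩ := h.qs
  obtain ⟨s, v, v', hs, hvf, hvd, hvl, hv⟩ := S.touch hd h0 hB ha
  have h1 : ∀ j, ∃ σ, Hat f⁻¹ H σ ∧ σ 0 = ψs (s j) (v j) := fun j =>
    exists_hat hd.symm hq (by rw [JS_inv hd]; exact S.jss _ _ (hv j).1)
  choose σ hσ hσ0 using h1
  obtain ⟨s', σ', hs', hσ', hl⟩ := hat_seq hd.symm hq hσ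
  have hss := hs.comp hs'
  have hvl' : Tendsto (fun j => v (s' j)) atTop (𝓝 v') := hvl.comp hs'.tendsto_atTop
  have h2 : σ' 0 = ψ v' := by
    refine tendsto_nhds_unique (Fam_pt hl 0) ?_
    have h3 := (ATou_sub S.lim hss).tendsto_comp S.dif.continuous.continuousAt hvl'
    exact h3.congr fun j => (hσ0 (s' j)).symm
  have hva : v' ∈ ball a₀ r₁ := hc (by rw [mem_closedBall, dist_eq_norm, hvd])
  have hm : ψ v' ∈ ball (ψ a₀) r₀ := P.map _ hva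
  have hnb := isOpen_ball.mem_nhds hm
  have h3 : ∀ᶠ x in 𝓝 (ψ v'), x ∈ ball (ψ a₀) r₀ ∧ dist (Ξ x) (v', 0) < min δ (t / 2) := by
    have h4 := (P.dif.continuousOn.continuousAt hnb).tendsto
    rw [P.left _ hva] at h4
    filter_upwards [hnb, Metric.tendsto_nhds.1 h4 _ (lt_min hδ (half_pos ht))] with x h5 h6
    exact ⟨h5, h6⟩
  obtain ⟨ρ, hρ, h4⟩ := Metric.nhds_basis_closedBall.eventually_iff.1 h3
  have h5 : ∀ᶠ τ in 𝓝 (0 : ℂ), ‖τ‖ < 1 ∧ dist (σ' τ) (ψ v') < ρ / 2 := by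
    have h6 := hσ'.1.continuous.tendsto 0
    rw [h2] at h6
    filter_upwards [ball_mem_nhds (0 : ℂ) one_pos, Metric.tendsto_nhds.1 h6 _ (half_pos hρ)]
      with τ h7 h8
    exact ⟨mem_ball_zero_iff.1 h7, h8⟩
  obtain ⟨r, hr, h6⟩ := Metric.nhds_basis_closedBall.eventually_iff.1 h5
  have hu : TendstoUniformlyOn (fun j => σ (s' j)) σ' atTop (closedBall 0 r) :=
    tendstoLocallyUniformly_iff_forall_isCompact.1 hl _ (isCompact_closedBall _ _)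
  have h7 : ∀ τ ∈ closedBall (0 : ℂ) r, σ' τ ∈ closedBall (ψ v') ρ := fun τ hτ =>
    mem_closedBall.2 (by linarith [(h6 hτ).2])
  have h8 : ∀ᶠ j in atTop, ∀ τ ∈ closedBall (0 : ℂ) r, σ (s' j) τ ∈ closedBall (ψ v') ρ := by
    filter_upwards [Metric.tendstoUniformlyOn_iff.1 hu _ (half_pos hρ)] with j hj τ hτ
    have h9 := dist_triangle_left (σ (s' j) τ) (ψ v') (σ' τ)
    exact mem_closedBall.2 (by linarith [(h6 hτ).2, hj τ hτ])
  have huc : UniformContinuousOn Ξ (closedBall (ψ v') ρ) :=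
    (isCompact_closedBall _ _).uniformContinuousOn_of_continuous
      (P.dif.continuousOn.mono fun x hx => (h4 hx).1)
  have h9 : TendstoUniformlyOn (fun j τ => (Ξ (σ (s' j) τ)).2) (fun τ => (Ξ (σ' τ)).2) atTop
      (ball 0 r) := by
    rw [Metric.tendstoUniformlyOn_iff]
    intro ε hε
    obtain ⟨η, hη, h10⟩ := Metric.uniformContinuousOn_iff.1 huc ε hε
    filter_upwards [h8, Metric.tendstoUniformlyOn_iff.1 hu _ hη] with j hj hj' τ hτ
    have hτ' := ball_subset_closedBall hτ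
    have h11 := h10 _ (h7 τ hτ') _ (hj τ hτ') (hj' τ hτ')
    rw [Prod.dist_eq] at h11
    exact (le_max_right _ _).trans_lt h11
  have h10 : ∀ᶠ j in atTop, DifferentiableOn ℂ (fun τ => (Ξ (σ (s' j) τ)).2) (ball 0 r) := by
    filter_upwards [h8] with j hj
    exact (P.dif.comp (hσ _).1.differentiableOn
      fun τ hτ => (h4 (hj τ (ball_subset_closedBall hτ))).1).snd
  have hR : 0 < |R| + 1 := by positivity
  have h11 := hurwitz hr h10 h9.tendstoLocallyUniformlyOn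
    (show (Ξ (σ' 0)).2 = 0 by rw [h2, P.left _ hva])
    (hat_y_ne hd P hσ' h2 hva (S.act v' hvf)) (div_pos hr hR)
  refine hss.tendsto_atTop.frequently (Eventually.frequently ?_)
  filter_upwards [h8, h11, Metric.tendsto_nhds.1 hvl' _ (half_pos ht)] with j hj hz hvj
  obtain ⟨τ₀, hτ₀, hz⟩ := hz
  rw [mem_ball_zero_iff, lt_div_iff₀ hR] at hτ₀
  have h12 : 0 ≤ ‖τ₀‖ * |R| := by positivity
  have h13 : ‖τ₀‖ < r := by linarith
  have h14 : τ₀ ∈ closedBall (0 : ℂ) r := mem_closedBall_zero_iff.2 h13.le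
  rw [dist_eq_norm] at hvj
  refine ⟨v (s' j), σ (s' j), r, τ₀, (hv _).1, ?_, (hv _).2, hσ0 _,
    ⟨hσ _, fun τ hτ => ?_, (h6 h14).1.le, h13, ?_, hz⟩, ?_, v', hvf, ?_⟩
  · rw [← hvd]
    refine (abs_norm_sub_norm_le _ _).trans ?_
    rw [sub_sub_sub_cancel_right]
    linarith
  · have h15 := h4 (hj τ (ball_subset_closedBall hτ))
    refine ⟨h15.1, ?_⟩
    have h16 := h15.2
    rw [Prod.dist_eq] at h16
    exact mem_ball.2 (((le_max_right _ _).trans_lt h16).trans_le (min_le_left _ _))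
  · have h15 : R * ‖τ₀‖ ≤ |R| * ‖τ₀‖ := mul_le_mul_of_nonneg_right (le_abs_self R) (norm_nonneg _)
    have h16 := norm_nonneg τ₀
    linarith
  · have h15 := (h4 (hj τ₀ h14)).2
    rw [Prod.dist_eq] at h15
    have h16 := ((le_max_left _ _).trans_lt h15).trans_le (min_le_right _ _)
    rw [dist_eq_norm] at h16
    have h17 := norm_sub_le_norm_sub_add_norm_sub (Ξ (σ (s' j) τ₀)).1 v' (v (s' j))
    rw [norm_sub_rev v'] at h17
    simp only at h16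
    linarith
  · rw [norm_sub_rev]
    linarith

end Pool.Agent.Lib.MP_7b5e47_an.Hq
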