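import Pool.Agent.Lib.MP_7b5e47_an.Hq.AKer
import Pool.Agent.Lib.MP_7b5e47_an.Hq.Fam
import Pool.Agent.Lib.MP_7b5e47_an.Hq.TSch

/-! The walls. -/

namespace Pool.Agent.Lib.MP_7b5e47_an.Hq

open Set Metric Filter Topology

theorem AWal_inv {φ : ℂ → ℂ} {a : ℂ} (h : AnalyticAt ℂ φ a) (h' : deriv φ a ≠ 0) :
    ∃ τ : ℂ → ℂ, AnalyticAt ℂ τ (φ a) ∧ τ (φ a) = a ∧ (∀ᶠ η in 𝓝 (φ a), φ (τ η) = η) ∧
      ∀ᶠ z in 𝓝 a, τ (φ z) = z :=
  ⟨_, h.analyticAt_localInverse h',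
    (h.hasStrictDerivAt.eventually_left_inverse h').self_of_nhds,
    h.hasStrictDerivAt.eventually_right_inverse h', h.hasStrictDerivAt.eventually_left_inverse h'⟩

/- `y z = z ^ (M + 1) * u z` with `u 0 ≠ 0` (`AnalyticAt.exists_eventuallyEq_pow_smul_nonzero_iff`), `u = v ^ (M + 1)`
(`hroot`), and `τ` is a local inverse of `z ↦ z * v z` (`HasStrictDerivAt.localInverse` and
`HasStrictDerivAt.to_localInverse`, `OpenPartialHomeomorph.analyticAt_symm`, or `pc`). -/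
theorem unif {y : ℂ → ℂ} (hy : AnalyticAt ℂ y 0) (h0 : y 0 = 0) (hn : ¬ ∀ᶠ z in 𝓝 (0 : ℂ), y z = 0) :
    ∃ (M : ℕ) (ρ : ℝ) (τ : ℂ → ℂ), 0 < ρ ∧ DifferentiableOn ℂ τ (ball 0 ρ) ∧ τ 0 = 0 ∧
      ∀ η ∈ ball (0 : ℂ) ρ, y (τ η) = η ^ (M + 1) := by
  obtain ⟨n, u, hu, hu0, he⟩ := hy.exists_eventuallyEq_pow_smul_nonzero_iff.2 hn
  have hn0 : n ≠ 0 := by
    rintro rfl
    have := he.self_of_nhds
    rw [h0, pow_zero, one_smul] at this
    exact hu0 this.symm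
  obtain ⟨M, rfl⟩ := Nat.exists_eq_succ_of_ne_zero hn0
  obtain ⟨r, hr, hr'⟩ := Metric.eventually_nhds_iff_ball.1
    (hu.eventually_analyticAt.and (hu.continuousAt.eventually_ne hu0))
  obtain ⟨v, hv, hv'⟩ := hroot (u := u) (c := 0) (r := r)
    (fun z hz => (hr' z hz).1.differentiableAt.differentiableWithinAt) (fun z hz => (hr' z hz).2)
    (Nat.succ_pos M)
  have hva : AnalyticAt ℂ v 0 := hv.analyticAt (ball_mem_nhds 0 hr)
  have hv0 : v 0 ≠ 0 := fun e => hu0 (by rw [← hv' 0 (mem_ball_self hr), e]; simp)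
  have hφ : AnalyticAt ℂ (fun z => z * v z) 0 := analyticAt_id.mul hva
  have hd : deriv (fun z => z * v z) 0 ≠ 0 := by
    have := ((hasDerivAt_id (0 : ℂ)).fun_mul hva.differentiableAt.hasDerivAt).deriv
    simp only [id, one_mul, zero_mul, add_zero] at this
    rw [this]
    exact hv0
  obtain ⟨τ, h1, h2, h3, -⟩ := AWal_inv hφ hd
  simp only [zero_mul] at h1 h2 h3
  have ht : Tendsto τ (𝓝 0) (𝓝 0) := by simpa only [h2] using h1.continuousAt.tendsto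
  obtain ⟨ρ, hρ, hρ'⟩ := Metric.eventually_nhds_iff_ball.1
    (h1.eventually_analyticAt.and (h3.and ((ht.eventually he).and
      (ht.eventually (ball_mem_nhds 0 hr)))))
  refine ⟨M, ρ, τ, hρ, fun z hz => (hρ' z hz).1.differentiableAt.differentiableWithinAt, h2,
    fun η hη => ?_⟩
  obtain ⟨-, e1, e2, e3⟩ := hρ' η hη
  rw [e2, ← hv' _ e3, sub_zero, smul_eq_mul, ← mul_pow, e1]

/- `dense_iUnion_interior_of_closed` in the complete space `T ∩ closedBall a₀ r`. -/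
theorem baire {T : Set ℂ} (hT : IsClosed T) {X : ℕ × ℕ → Set ℂ} (hX : ∀ i, IsClosed (X i)) {a₀ : ℂ}
    (ha : a₀ ∈ T) {r : ℝ} (hr : 0 < r) (h : T ∩ closedBall a₀ r ⊆ ⋃ i, X i) :
    ∃ (i : ℕ × ℕ) (a₁ : ℂ) (r₃ : ℝ), a₁ ∈ T ∧ 0 < r₃ ∧ ball a₁ r₃ ⊆ ball a₀ r ∧
      T ∩ ball a₁ r₃ ⊆ X i := by
  have hS : IsClosed (T ∩ closedBall a₀ r) := hT.inter isClosed_closedBall
  have := hS.completeSpace_coe
  have hd := dense_iUnion_interior_of_closed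
    (f := fun i => ((↑) : ↥(T ∩ closedBall a₀ r) → ℂ) ⁻¹' X i)
    (fun i => (hX i).preimage continuous_subtype_val) (by
      rw [← preimage_iUnion]
      exact eq_univ_of_forall fun x => h x.2)
  obtain ⟨x, hx1, hx2⟩ := hd.inter_open_nonempty
    (((↑) : ↥(T ∩ closedBall a₀ r) → ℂ) ⁻¹' ball a₀ r) (isOpen_ball.preimage continuous_subtype_val)
    ⟨⟨a₀, ha, mem_closedBall_self hr.le⟩, mem_ball_self hr⟩
  obtain ⟨i, hi⟩ := mem_iUnion.1 hx2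
  obtain ⟨ε, hε, hb⟩ := Metric.mem_nhds_iff.1 (mem_interior_iff_mem_nhds.1 hi)
  have h1 : dist (x : ℂ) a₀ < r := hx1
  have h2 : ball (x : ℂ) (min ε (r - dist (x : ℂ) a₀)) ⊆ ball a₀ r :=
    ball_subset_ball' (by linarith [min_le_right ε (r - dist (x : ℂ) a₀)])
  refine ⟨i, x, min ε (r - dist (x : ℂ) a₀), x.2.1, lt_min hε (by linarith), h2, fun y hy => ?_⟩
  exact hb (a := ⟨y, hy.1, ball_subset_closedBall (h2 hy.2)⟩)
    (ball_subset_ball (min_le_left _ _) hy.2)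

theorem AWal_maps {M : ℕ} (hM : 0 < M) {ω : ℂ} (hω : ω ^ M = 1) (ρ : ℝ) :
    MapsTo (fun z => ω * z) (ball (0 : ℂ) ρ) (ball 0 ρ) := by
  have h1 : ‖ω‖ = 1 := by
    have := congrArg norm hω
    rw [norm_pow, norm_one] at this
    exact (pow_eq_one_iff_of_nonneg (norm_nonneg _) hM.ne').1 this
  intro z hz
  rw [mem_ball_zero_iff] at hz ⊢
  rwa [norm_mul, h1, one_mul]

/- Take `a j → a` in `T`, `a j ≠ a`, and a limit `B'` of `A (a j)` (`montel_ball`), `B' 0 = a`.  For every root of unity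
`ω` the functions `η ↦ A (a j) (ω η) - A a η` have no zero and the limit vanishes at `0`, so near `0` (`hurwitz`), so on the
ball.  With `ω = 1`, `B' = A a`. -/
theorem rot_inv {T : Set ℂ} (hT : Perf T) {A : ℂ → ℂ → ℂ} {ρ B : ℝ} {M : ℕ} (hM : 0 < M)
    (hd : ∀ a ∈ T, DifferentiableOn ℂ (A a) (ball 0 ρ))
    (hB : ∀ a ∈ T, ∀ η ∈ ball (0 : ℂ) ρ, ‖A a η‖ ≤ B) (h0 : ∀ a ∈ T, A a 0 = a)
    (h : ∀ a ∈ T, ∀ a' ∈ T, a ≠ a' → ∀ ω : ℂ, ω ^ M = 1 → ∀ η ∈ ball (0 : ℂ) ρ,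
      A a' (ω * η) ≠ A a η) {a : ℂ} (ha : a ∈ T) (ω : ℂ) (hω : ω ^ M = 1) :
    ∀ η ∈ ball (0 : ℂ) ρ, A a (ω * η) = A a η := by
  intro η hη
  have hρ : 0 < ρ := pos_of_mem_ball hη
  choose b hb1 hb2 hb3 using fun j : ℕ => hT a ha (1 / ((j : ℝ) + 1)) (by positivity)
  have hb : Tendsto b atTop (𝓝 a) := by
    rw [tendsto_iff_norm_sub_tendsto_zero]
    exact squeeze_zero (fun j => norm_nonneg _) (fun j => (hb3 j).le)
      tendsto_one_div_add_atTop_nhds_zero_nat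
  obtain ⟨φ, g, hφ, hg, hl⟩ := montel_ball (F := fun j => A (b j)) (fun j => hd _ (hb1 j))
    (fun j => hB _ (hb1 j))
  have hg0 : g 0 = a := by
    refine tendsto_nhds_unique (hl.tendsto_at (mem_ball_self hρ)) ?_
    simp only [h0 _ (hb1 _)]
    exact hb.comp hφ.tendsto_atTop
  have key : ∀ ω : ℂ, ω ^ M = 1 → ∀ η ∈ ball (0 : ℂ) ρ, g (ω * η) = A a η := by
    intro ω hω
    have hm := AWal_maps hM hω ρ
    have hdm : DifferentiableOn ℂ (fun z : ℂ => ω * z) (ball 0 ρ) := by fun_prop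
    have h1 := hl.comp (fun z => ω * z) hm hdm.continuousOn
    have h2 : TendstoLocallyUniformlyOn (fun _ : ℕ => A a) (A a) atTop (ball 0 ρ) :=
      fun u hu x _ => ⟨_, self_mem_nhdsWithin, Eventually.of_forall fun _ _ _ =>
        refl_mem_uniformity hu⟩
    have h3 := h1.sub h2
    have hk : DifferentiableOn ℂ (g ∘ (fun z => ω * z) - A a) (ball 0 ρ) :=
      (hg.comp hdm hm).sub (hd a ha)
    have h4 : ∀ᶠ z in 𝓝 (0 : ℂ), (g ∘ (fun z => ω * z) - A a) z = 0 := by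
      by_contra hcon
      obtain ⟨j, z, hz, hz'⟩ := (hurwitz hρ (Eventually.of_forall fun j =>
        ((hd _ (hb1 (φ j))).comp hdm hm).sub (hd a ha)) h3 (by simp [hg0, h0 a ha]) hcon hρ).exists
      exact h a ha _ (hb1 (φ j)) (hb2 _).symm ω hω z hz (sub_eq_zero.1 hz')
    intro η hη
    exact sub_eq_zero.1 ((hk.analyticOnNhd isOpen_ball).eqOn_zero_of_preconnected_of_eventuallyEq_zero
      (convex_ball 0 ρ).isPreconnected (mem_ball_self hρ) h4 hη)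
  rw [← key ω hω η hη, ← key 1 (one_pow M) _ (AWal_maps hM hω ρ hη), one_mul]

variable {f : Equiv.Perm (ℂ × ℂ)} {d C κ : ℝ} {G H : ℂ × ℂ → ℝ} {ψ σ σ' : ℂ → ℂ × ℂ}
  {Ξ : ℂ × ℂ → ℂ × ℂ} {a₀ a a' : ℂ} {r₀ r₁ r ρ : ℝ} {M : ℕ} {τ τ' : ℂ → ℂ}

theorem AWal_at (P : Plq ψ Ξ a₀ r₀ r₁) {z : ℂ × ℂ} (hz : z ∈ ball (ψ a₀) r₀) :
    DifferentiableAt ℂ Ξ z :=
  P.dif.differentiableAt (isOpen_ball.mem_nhds hz)

theorem AWal_an (P : Plq ψ Ξ a₀ r₀ r₁) (hσ : Differentiable ℂ σ) {t : ℂ}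
    (ht : σ t ∈ ball (ψ a₀) r₀) : AnalyticAt ℂ (fun t => Ξ (σ t)) t := by
  refine DifferentiableOn.analyticAt (s := σ ⁻¹' ball (ψ a₀) r₀)
    (fun z hz => ((AWal_at P hz).comp z (hσ z)).differentiableWithinAt) ?_
  exact (isOpen_ball.preimage hσ.continuous).mem_nhds ht

/- Otherwise `σ t = ψ (x t)` near `0` with `x t = (Ξ (σ t)).1` (`P.inj`); `x` is not constant (`Hat.not_const`), so it is
open (`AnalyticAt.eventually_constant_or_nhds_le_map_nhds`), and `G ∘ σ = 0` (`Hat.hz` for `hd.symm`). -/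
theorem hat_y_ne (hd : HD f d G H) (P : Plq ψ Ξ a₀ r₀ r₁) (hσ : Hat f⁻¹ H σ) (h0 : σ 0 = ψ a)
    (ha : a ∈ ball a₀ r₁) (hn : ¬ ∀ᶠ z in 𝓝 a, G (ψ z) = 0) :
    ¬ ∀ᶠ t in 𝓝 (0 : ℂ), (Ξ (σ t)).2 = 0 := by
  intro hcon
  have hm : σ 0 ∈ ball (ψ a₀) r₀ := h0 ▸ P.map a ha
  have hx : AnalyticAt ℂ (fun t => (Ξ (σ t)).1) 0 := analyticAt_fst.comp (AWal_an P hσ.1 hm)
  have hx0 : (Ξ (σ 0)).1 = a := by rw [h0, P.left a ha]
  have h1 : ∀ᶠ t in 𝓝 (0 : ℂ), σ t ∈ ball (ψ a₀) r₀ :=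
    hσ.1.continuous.continuousAt.eventually (isOpen_ball.mem_nhds hm)
  have h2 : ∀ᶠ t in 𝓝 (0 : ℂ), (Ξ (σ t)).1 ∈ ball a₀ r₁ :=
    hx.continuousAt.eventually (isOpen_ball.mem_nhds (by beta_reduce; rw [hx0]; exact ha))
  have h3 : ∀ᶠ t in 𝓝 (0 : ℂ), σ t = ψ (Ξ (σ t)).1 := by
    filter_upwards [hcon, h1, h2] with t e1 e2 e3
    refine P.inj e2 (P.map _ e3) ?_
    rw [P.left _ e3, ← e1]
  rcases hx.eventually_constant_or_nhds_le_map_nhds with h | h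
  · refine hσ.not_const hd.symm 0 ?_
    filter_upwards [h, h3] with t e1 e2
    rw [e2, e1, hx0, h0]
  · rw [hx0] at h
    refine hn (h ?_)
    change ∀ᶠ t in 𝓝 (0 : ℂ), G (ψ (Ξ (σ t)).1) = 0
    filter_upwards [h3] with t e
    rw [← e]
    exact hσ.hz hd.symm t

/- `exists_hat` for `hd.symm` (`JS_inv`), `hat_y_ne`, `unif`, and shrink the radius by continuity. -/
theorem wp_cover (hd : HD f d G H) (hq : QE f⁻¹ H κ) (P : Plq ψ Ξ a₀ r₀ r₁) (ha : a ∈ ball a₀ r₁)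
    (hj : ψ a ∈ JS f) (hr : ψ a ∈ ball (ψ a₀) r) (hn : ¬ ∀ᶠ z in 𝓝 a, G (ψ z) = 0) :
    ∃ (M k : ℕ) (σ : ℂ → ℂ × ℂ) (τ : ℂ → ℂ),
      Wp f H ψ Ξ (ψ a₀) r M (1 / ((k : ℝ) + 1)) a σ τ := by
  obtain ⟨σ, hσ, h0⟩ := exists_hat hd.symm hq (x := ψ a) (by rw [JS_inv hd]; exact hj)
  have hm : σ 0 ∈ ball (ψ a₀) r₀ := h0 ▸ P.map a ha
  have hy : AnalyticAt ℂ (fun t => (Ξ (σ t)).2) 0 := analyticAt_snd.comp (AWal_an P hσ.1 hm)
  obtain ⟨M, ρ, τ, hρ, h1, h2, h3⟩ := unif hy (by rw [h0, P.left a ha])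
    (hat_y_ne hd P hσ h0 ha hn)
  have ht : Tendsto τ (𝓝 0) (𝓝 0) := by
    simpa only [h2] using (h1.continuousOn.continuousAt (ball_mem_nhds 0 hρ)).tendsto
  have e1 : ∀ᶠ η in 𝓝 (0 : ℂ), τ η ∈ closedBall (0 : ℂ) 1 :=
    ht.eventually (closedBall_mem_nhds 0 one_pos)
  have e2 : ∀ᶠ η in 𝓝 (0 : ℂ), σ (τ η) ∈ ball (ψ a₀) r :=
    ht.eventually (hσ.1.continuous.continuousAt.eventually
      (isOpen_ball.mem_nhds (by rw [h0]; exact hr)))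
  obtain ⟨ε, hε, hε'⟩ := Metric.eventually_nhds_iff_ball.1 (e1.and e2)
  obtain ⟨k, hk⟩ := exists_nat_one_div_lt (lt_min hε hρ)
  have s1 : ball (0 : ℂ) (1 / ((k : ℝ) + 1)) ⊆ ball 0 ε :=
    ball_subset_ball (hk.le.trans (min_le_left _ _))
  have s2 : ball (0 : ℂ) (1 / ((k : ℝ) + 1)) ⊆ ball 0 ρ :=
    ball_subset_ball (hk.le.trans (min_le_right _ _))
  exact ⟨M, k, σ, τ, hσ, h0, h1.mono s2, h2,
    fun η hη => mem_closedBall_zero_iff.1 (hε' η (s1 hη)).1,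
    fun η hη => ball_subset_closedBall (hε' η (s1 hη)).2, fun η hη => h3 η (s2 hη)⟩

/- Sequences: `hat_seq`, `montel_ball`, `TendstoLocallyUniformly.tendsto_comp`. -/
theorem wp_closed (hd : HD f d G H) (hq : QE f⁻¹ H κ) (hψ : Continuous ψ) (P : Plq ψ Ξ a₀ r₀ r₁)
    (hr : r < r₀) (hρ : 0 < ρ) (M : ℕ) :
    IsClosed {a | ∃ σ τ, Wp f H ψ Ξ (ψ a₀) r M ρ a σ τ} := by
  refine IsSeqClosed.isClosed fun b a hb ha => ?_
  choose σs τs hw using hb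
  obtain ⟨s, σ, hs, hσ, hl⟩ := hat_seq hd.symm hq fun j => (hw j).hat
  obtain ⟨φ, τ, hφ, hτ, hl'⟩ := montel_ball (F := fun j => τs (s j)) (fun j => (hw _).dif)
    (fun j => (hw _).one)
  have hl2 : TendstoLocallyUniformly (fun j => σs (s (φ j))) σ atTop := fun u hu x => by
    obtain ⟨t, ht, h⟩ := hl u hu x
    exact ⟨t, ht, hφ.tendsto_atTop.eventually h⟩
  have h0 := mem_ball_self (x := (0 : ℂ)) hρ
  have hc : ∀ η ∈ ball (0 : ℂ) ρ,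
      Tendsto (fun j => σs (s (φ j)) (τs (s (φ j)) η)) atTop (𝓝 (σ (τ η))) := fun η hη =>
    hl2.tendsto_comp hσ.1.continuous.continuousAt (hl'.tendsto_at hη)
  have hmem : ∀ η ∈ ball (0 : ℂ) ρ, σ (τ η) ∈ closedBall (ψ a₀) r := fun η hη =>
    isClosed_closedBall.mem_of_tendsto (hc η hη) (Eventually.of_forall fun j => (hw _).mem η hη)
  refine ⟨σ, τ, hσ, ?_, hτ, ?_, fun η hη => ?_, hmem, fun η hη => ?_⟩
  · refine tendsto_nhds_unique (Fam_pt hl2 0) ?_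
    simp only [(hw _).base]
    exact (hψ.tendsto a).comp (ha.comp (hs.tendsto_atTop.comp hφ.tendsto_atTop))
  · refine tendsto_nhds_unique (hl'.tendsto_at h0) ?_
    simp only [(hw _).zero]
    exact tendsto_const_nhds
  · exact le_of_tendsto' (hl'.tendsto_at hη).norm fun j => (hw _).one η hη
  · have h1 := (continuous_snd.tendsto _).comp
      ((AWal_at P (closedBall_subset_ball hr (hmem η hη))).continuousAt.tendsto.comp (hc η hη))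
    refine tendsto_nhds_unique h1 (tendsto_const_nhds.congr fun j => ?_)
    exact ((hw _).pow η hη).symm

theorem AWal_pow (M : ℕ) {η : ℂ} (h0 : η ≠ 0) : deriv (fun z : ℂ => z ^ (M + 1)) η ≠ 0 := by
  rw [(hasDerivAt_pow (M + 1) η).deriv]
  exact mul_ne_zero (Nat.cast_ne_zero.2 (Nat.succ_ne_zero M)) (pow_ne_zero _ h0)

theorem AWal_dif (P : Plq ψ Ξ a₀ r₀ r₁) (hr : r < r₀) (h : Wp f H ψ Ξ (ψ a₀) r M ρ a σ τ) :
    DifferentiableOn ℂ (fun z => (Ξ (σ (τ z))).1) (ball 0 ρ) := fun z hz =>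
  (((AWal_at P (closedBall_subset_ball hr (h.mem z hz))).comp z ((h.hat.1 _).comp z
    (h.dif.differentiableAt (isOpen_ball.mem_nhds hz)))).fst).differentiableWithinAt

theorem AWal_zero (P : Plq ψ Ξ a₀ r₀ r₁) (h : Wp f H ψ Ξ (ψ a₀) r M ρ a σ τ)
    (ha : a ∈ ball a₀ r₁) : (Ξ (σ (τ 0))).1 = a := by
  rw [h.zero, h.base, P.left a ha]

/- Differentiate `(Ξ (σ (τ η))).2 = η ^ (M + 1)`. -/
theorem Wp.loc (P : Plq ψ Ξ a₀ r₀ r₁) (hr : r < r₀) (h : Wp f H ψ Ξ (ψ a₀) r M ρ a σ τ) {η : ℂ}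
    (hη : η ∈ ball (0 : ℂ) ρ) (h0 : η ≠ 0) : deriv σ (τ η) ≠ 0 ∧ 𝓝 (τ η) ≤ map τ (𝓝 η) := by
  have hτ : AnalyticAt ℂ τ η := h.dif.analyticAt (isOpen_ball.mem_nhds hη)
  have he : (fun z => (Ξ (σ (τ z))).2) =ᶠ[𝓝 η] fun z => z ^ (M + 1) := by
    filter_upwards [isOpen_ball.mem_nhds hη] with z hz using h.pow z hz
  have hne : ¬ HasDerivAt (fun z => (Ξ (σ (τ z))).2) 0 η := fun h1 =>
    AWal_pow M h0 (h1.congr_of_eventuallyEq he.symm).deriv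
  refine ⟨fun h1 => hne ?_, hτ.eventually_constant_or_nhds_le_map_nhds.resolve_left fun h1 => hne ?_⟩
  · have h2 : HasDerivAt σ 0 (τ η) := h1 ▸ (h.hat.1 (τ η)).hasDerivAt
    have h3 := (AWal_at P (closedBall_subset_ball hr (h.mem η hη))).hasFDerivAt.comp_hasDerivAt _ h2
    have h4 := (hasFDerivAt_snd.comp_hasDerivAt _ h3).comp η hτ.differentiableAt.hasDerivAt
    simpa [Function.comp_def] using h4
  · refine (hasDerivAt_const η (Ξ (σ (τ η))).2).congr_of_eventuallyEq ?_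
    filter_upwards [h1] with z hz
    rw [hz]

/- Suppose equality.  For `η = 0` it says `a' = a`.  Otherwise `σ (τ η) = σ' (τ' (ω η))` by `P.inj`; `Hat.share` gives
`σ' = σ ∘ A` near `τ' (ω η)`.  For `z` near `η`, `A (τ' (ω z)) = τ z'` with `z'` near `η` (`Wp.loc`), `z' ^ (M + 1) = z ^ (M + 1)`,
so `z' = z` (the map `z ↦ z ^ (M + 1)` is injective near `η`).  So the two sides agree near `η`, on the ball by the identity
theorem, and at `0`. -/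
theorem Wp.dis (P : Plq ψ Ξ a₀ r₀ r₁) (hr : r < r₀) (h : Wp f H ψ Ξ (ψ a₀) r M ρ a σ τ)
    (h' : Wp f H ψ Ξ (ψ a₀) r M ρ a' σ' τ') (ha : a ∈ ball a₀ r₁) (ha' : a' ∈ ball a₀ r₁)
    (hne : a ≠ a') {ω : ℂ} (hω : ω ^ (M + 1) = 1) {η : ℂ} (hη : η ∈ ball (0 : ℂ) ρ) :
    (Ξ (σ' (τ' (ω * η)))).1 ≠ (Ξ (σ (τ η))).1 := by
  intro heq
  have hρ : 0 < ρ := pos_of_mem_ball hη
  have hm := AWal_maps (Nat.succ_pos M) hω ρ
  have hdm : DifferentiableOn ℂ (fun z : ℂ => ω * z) (ball 0 ρ) := by fun_prop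
  have hp' : ∀ z ∈ ball (0 : ℂ) ρ, (Ξ (σ' (τ' (ω * z)))).2 = z ^ (M + 1) := fun z hz => by
    rw [h'.pow _ (hm hz), mul_pow, hω, one_mul]
  suffices he : (fun z => (Ξ (σ' (τ' (ω * z)))).1) 0 = (fun z => (Ξ (σ (τ z))).1) 0 by
    simp only [mul_zero] at he
    rw [AWal_zero P h ha, AWal_zero P h' ha'] at he
    exact hne he.symm
  by_cases h0 : η = 0
  · subst h0
    exact heq
  have hab : σ (τ η) = σ' (τ' (ω * η)) := by
    refine P.inj (closedBall_subset_ball hr (h.mem η hη))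
      (closedBall_subset_ball hr (h'.mem _ (hm hη))) (Prod.ext heq.symm ?_)
    rw [h.pow η hη, hp' η hη]
  obtain ⟨hl1, hl2⟩ := h.loc P hr hη h0
  obtain ⟨A, hA, hAb, hAe⟩ := h.hat.share h'.hat hab hl1
  obtain ⟨q, -, -, -, hq⟩ := AWal_inv (φ := fun z : ℂ => z ^ (M + 1)) (a := η) (by fun_prop)
    (AWal_pow M h0)
  have hV := hq.and (isOpen_ball.mem_nhds hη)
  have hV' : τ '' {z | q (z ^ (M + 1)) = z ∧ z ∈ ball (0 : ℂ) ρ} ∈ 𝓝 (τ η) := hl2 (image_mem_map hV)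
  have ht : Tendsto (fun z => τ' (ω * z)) (𝓝 η) (𝓝 (τ' (ω * η))) :=
    (((h'.dif.comp hdm hm).continuousOn).continuousAt (isOpen_ball.mem_nhds hη)).tendsto
  have ht2 : Tendsto (fun z => A (τ' (ω * z))) (𝓝 η) (𝓝 (τ η)) := by
    rw [← hAb]
    exact hA.continuousAt.tendsto.comp ht
  have he : (fun z => (Ξ (σ' (τ' (ω * z)))).1) =ᶠ[𝓝 η] fun z => (Ξ (σ (τ z))).1 := by
    filter_upwards [hV, ht.eventually hAe, ht2.eventually hV'] with z hz e1 e2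
    obtain ⟨z', hz', e3⟩ := e2
    have e4 : z' ^ (M + 1) = z ^ (M + 1) := by
      rw [← h.pow z' hz'.2, ← hp' z hz.2, e1, e3]
    have e5 : z' = z := by rw [← hz'.1, e4, hz.1]
    rw [e1, ← e3, e5]
  exact (((AWal_dif P hr h').comp hdm hm).analyticOnNhd
    isOpen_ball).eqOn_of_preconnected_of_eventuallyEq
    ((AWal_dif P hr h).analyticOnNhd isOpen_ball) (convex_ball 0 ρ).isPreconnected hη he
    (mem_ball_self hρ)

/- Choose `σ a`, `τ a`; `A a η = (Ξ (σ a (τ a η))).1` is bounded by the bound `B` of `Ξ` on `closedBall (ψ a₀) r`;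
`Wp.dis`, `rot_inv`, `root` give `α a` on `ball 0 (ρ ^ (M + 1))`; `δ = ρ ^ (M + 1) / 2`, Cauchy estimate for the Lipschitz
constant.  Every `y` in the ball is `η ^ (M + 1)` with `‖η‖ < ρ`; `Wp.loc` for the last property. -/
theorem wal_of_wp (P : Plq ψ Ξ a₀ r₀ r₁) (hr : r < r₀) (hρ : 0 < ρ) {T : Set ℂ} (hT : Perf T)
    (hT' : T ⊆ ball a₀ r₁) (h : ∀ a ∈ T, ∃ σ τ, Wp f H ψ Ξ (ψ a₀) r M ρ a σ τ) :
    ∃ δ L α, Wal f H ψ Ξ a₀ r₀ T δ L α := by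
  choose! σ τ hw using h
  obtain ⟨B, hB⟩ := (isCompact_closedBall (ψ a₀) r).exists_bound_of_continuousOn
    (P.dif.continuousOn.mono (closedBall_subset_ball hr))
  have hB' : ∀ a ∈ T, ∀ η ∈ ball (0 : ℂ) ρ, ‖(Ξ (σ a (τ a η))).1‖ ≤ |B| := fun a ha η hη =>
    (norm_fst_le _).trans ((hB _ ((hw a ha).mem η hη)).trans (le_abs_self B))
  have hrot := fun a ha => rot_inv (A := fun a η => (Ξ (σ a (τ a η))).1) hT (Nat.succ_pos M)
    (fun a ha => AWal_dif P hr (hw a ha)) hB' (fun a ha => AWal_zero P (hw a ha) (hT' ha))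
    (fun a ha a' ha' hne ω hω η hη =>
      (hw a ha).dis P hr (hw a' ha') (hT' ha) (hT' ha') hne hω hη) (a := a) ha
  choose! α hα hα' using fun a ha => root (AWal_dif P hr (hw a ha)) (Nat.succ_pos M) hρ (hrot a ha)
  have hp : 0 < ρ ^ (M + 1) := pow_pos hρ _
  have hsur : ∀ y ∈ ball (0 : ℂ) (ρ ^ (M + 1)), ∃ η ∈ ball (0 : ℂ) ρ, η ^ (M + 1) = y := by
    intro y hy
    obtain ⟨η, rfl⟩ := IsAlgClosed.exists_pow_nat_eq y (Nat.succ_pos M)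
    rw [mem_ball_zero_iff, norm_pow] at hy
    exact ⟨η, mem_ball_zero_iff.2 (lt_of_pow_lt_pow_left₀ _ hρ.le hy), rfl⟩
  have hs : ball (0 : ℂ) (ρ ^ (M + 1) / 2) ⊆ ball 0 (ρ ^ (M + 1)) := ball_subset_ball (by linarith)
  have hbd : ∀ a ∈ T, ∀ y ∈ ball (0 : ℂ) (ρ ^ (M + 1)), ‖α a y‖ ≤ |B| := by
    intro a ha y hy
    obtain ⟨η, hη, rfl⟩ := hsur y hy
    rw [← hα' a ha η hη]
    exact hB' a ha η hη
  refine ⟨ρ ^ (M + 1) / 2, 2 * |B| / (ρ ^ (M + 1) / 2), α, by positivity, by positivity, hT,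
    fun a ha => (hα a ha).mono hs, fun a ha => ?_, fun a ha y hy y' hy' => ?_,
    fun a ha a' ha' hne y hy => ?_, fun a ha => ⟨σ a, (hw a ha).hat, (hw a ha).base,
      fun y hy => ?_⟩⟩
  · have := hα' a ha 0 (mem_ball_self hρ)
    rw [zero_pow (Nat.succ_ne_zero M)] at this
    rw [← this]
    exact AWal_zero P (hw a ha) (hT' ha)
  · refine (convex_ball (0 : ℂ) (ρ ^ (M + 1) / 2)).norm_image_sub_le_of_norm_deriv_le
      (fun x hx => (hα a ha).differentiableAt (isOpen_ball.mem_nhds (hs hx))) (fun x hx => ?_) hy' hy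
    have hs' : ball x (ρ ^ (M + 1) / 2) ⊆ ball 0 (ρ ^ (M + 1)) :=
      ball_subset_ball' (by linarith [mem_ball.1 hx])
    refine Complex.norm_deriv_le_div_of_mapsTo_ball ((hα a ha).mono hs') (fun z hz => ?_)
      (by positivity)
    rw [mem_closedBall, dist_eq_norm]
    linarith [norm_sub_le (α a z) (α a x), hbd a ha z (hs' hz), hbd a ha x (hs hx)]
  · obtain ⟨η, hη, rfl⟩ := hsur y (hs hy)
    have := (hw a ha).dis P hr (hw a' ha') (hT' ha) (hT' ha') hne (one_pow _) hη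
    rw [one_mul] at this
    rw [← hα' a ha η hη, ← hα' a' ha' η hη]
    exact this.symm
  · obtain ⟨η, hη, rfl⟩ := hsur y (hs hy)
    refine ⟨τ a η, (hw a ha).one η hη, closedBall_subset_ball hr ((hw a ha).mem η hη),
      Prod.ext (hα' a ha η hη) ((hw a ha).pow η hη), fun h0 => ?_⟩
    obtain ⟨h1, h2⟩ := (hw a ha).loc P hr hη fun e => h0 (by rw [e]; simp)
    refine ⟨h1, h2 ?_⟩
    change ∀ᶠ z in 𝓝 η, (Ξ (σ a (τ a z))).1 = α a (Ξ (σ a (τ a z))).2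
    filter_upwards [isOpen_ball.mem_nhds hη] with z hz
    rw [(hw a ha).pow z hz]
    exact hα' a ha z hz

/- `r = r₀ / 2`, a closed disc around `a₀` inside `ball a₀ r₁` mapped by `ψ` into `ball (ψ a₀) r`; `wp_cover`,
`wp_closed`, `baire`, `wal_of_wp`, `Sit.perf`. -/
theorem exists_wal (h : QH f d G H) {ψs : ℕ → ℂ → ℂ × ℂ} {Ω : Set ℂ} (S : Sit f G H C ψs ψ Ω)
    (P : Plq ψ Ξ a₀ r₀ r₁) (ha : a₀ ∈ frontier Ω) : ∃ (a₁ : ℂ) (r₃ δ L : ℝ) (α : ℂ → ℂ → ℂ),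
      a₁ ∈ frontier Ω ∧ 0 < r₃ ∧ ball a₁ r₃ ⊆ ball a₀ r₁ ∧
      Wal f H ψ Ξ a₀ r₀ (frontier Ω ∩ ball a₁ r₃) δ L α := by
  obtain ⟨κ, hq⟩ := h.qs
  have hr₀ : 0 < r₀ := pos_of_mem_ball (P.map a₀ (mem_ball_self P.pos))
  have hr : r₀ / 2 < r₀ := half_lt_self hr₀
  have e1 : ∀ᶠ z in 𝓝 a₀, ψ z ∈ ball (ψ a₀) (r₀ / 2) :=
    S.dif.continuous.continuousAt.eventually (ball_mem_nhds _ (half_pos hr₀))
  obtain ⟨ε, hε, hε'⟩ := Metric.nhds_basis_closedBall.eventually_iff.1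
    (e1.and (ball_mem_nhds a₀ P.pos))
  obtain ⟨i, a₁, r₃, h1, h2, h3, h4⟩ := baire (T := frontier Ω) isClosed_frontier
    (X := fun i => {a | ∃ σ τ, Wp f H ψ Ξ (ψ a₀) (r₀ / 2) i.1 (1 / ((i.2 : ℝ) + 1)) a σ τ})
    (fun i => wp_closed h.hd hq S.dif.continuous P hr (by positivity) i.1) ha hε (by
      rintro a ⟨ha1, ha2⟩
      obtain ⟨M, k, σ, τ, hw⟩ := wp_cover h.hd hq P (hε' ha2).2 (S.js a ha1) (hε' ha2).1
        (S.act a ha1)
      exact mem_iUnion.2 ⟨(M, k), σ, τ, hw⟩)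
  have h5 : ball a₁ r₃ ⊆ ball a₀ r₁ := fun z hz => (hε' (ball_subset_closedBall (h3 hz))).2
  obtain ⟨δ, L, α, hW⟩ := wal_of_wp P hr (by positivity) (S.perf a₁ r₃)
    (fun z hz => h5 hz.2) fun a ha => h4 ha
  exact ⟨a₁, r₃, δ, L, α, h1, h2, h5, hW⟩

end Pool.Agent.Lib.MP_7b5e47_an.Hq
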