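import Pool.Agent.Lib.MP_7b5e47_an.Hq.HD

/-! First consequences of the abstract data; maxima on discs. -/

namespace Pool.Agent.Lib.MP_7b5e47_an.Hq

open Set Metric Filter Topology InnerProductSpace
open Pool.Agent.Lib.MP_7b5e47_an.Hn (Kp Jul IsSaddle Wu)

variable {f : Equiv.Perm (ℂ × ℂ)} {d : ℝ} {G H : ℂ × ℂ → ℝ}

theorem HD.symm (h : HD f d G H) : HD f⁻¹ d H G := by
  exact ⟨h.di, by simpa using h.df, h.hd, h.cH, h.cG, h.nH, h.nG, h.eH, by simpa using h.eG,
    h.hH, h.hG, h.bH, h.bG⟩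

theorem dif_pow (h : Differentiable ℂ (⇑f)) (n : ℕ) : Differentiable ℂ (⇑(f ^ n)) := by
  induction n with
  | zero => simp
  | succ n ih =>
    rw [pow_succ', Equiv.Perm.coe_mul]
    exact h.comp ih

theorem HD.G_pow (h : HD f d G H) (n : ℕ) (z : ℂ × ℂ) : G ((f ^ n) z) = d ^ n * G z := by
  induction n with
  | zero => simp
  | succ n ih => rw [pow_succ', Equiv.Perm.mul_apply, h.eG, ih, pow_succ', mul_assoc]

theorem HD.H_pow (h : HD f d G H) (n : ℕ) (z : ℂ × ℂ) : d ^ n * H ((f ^ n) z) = H z := by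
  induction n with
  | zero => simp
  | succ n ih =>
    have h1 := h.eH (f ((f ^ n) z))
    rw [show f⁻¹ (f ((f ^ n) z)) = (f ^ n) z by simp] at h1
    rw [pow_succ' f, Equiv.Perm.mul_apply, pow_succ, mul_assoc, ← h1, ih]

theorem HD.pow (h : HD f d G H) {N : ℕ} (hN : 0 < N) : HD (f ^ N) (d ^ N) G H := by
  refine ⟨dif_pow h.df N, ?_, one_lt_pow₀ h.hd hN.ne', h.cG, h.cH, h.nG, h.nH, h.G_pow N, ?_,
    h.hG, h.hH, h.bG, h.bH⟩
  · rw [← inv_pow]
    exact dif_pow h.di N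
  · intro z
    have h1 := h.H_pow N ((f ^ N)⁻¹ z)
    rw [show (f ^ N) ((f ^ N)⁻¹ z) = z by simp] at h1
    exact h1.symm

/- Chain rule, `ContinuousLinearMap.det`, `LinearMap.det_comp`. -/
theorem Dis.pow (hf : Differentiable ℂ (⇑f)) (h : Dis f) {N : ℕ} (hN : 0 < N) : Dis (f ^ N) := by
  induction N, hN using Nat.le_induction with
  | base => simpa using h
  | succ n hn ih =>
    intro z
    rw [pow_succ', Equiv.Perm.coe_mul, fderiv_comp z (hf _) (dif_pow hf n z)]
    have e : ((fderiv ℂ (⇑f) ((f ^ n) z)).comp (fderiv ℂ (⇑(f ^ n)) z)).det =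
        (fderiv ℂ (⇑f) ((f ^ n) z)).det * (fderiv ℂ (⇑(f ^ n)) z).det := by
      simp only [ContinuousLinearMap.det]
      rw [← LinearMap.det_comp]
      rfl
    rw [e, norm_mul]
    exact mul_lt_one_of_nonneg_of_lt_one_left (norm_nonneg _) (h _) (ih z).le

theorem HD.bdd (h : HD f d G H) (C : ℝ) : ∃ ρ : ℝ, ∀ z, H z = 0 → G z ≤ C → ‖z‖ ≤ ρ := by
  obtain ⟨C0, hC0⟩ := h.bG
  refine ⟨Real.exp (C0 + C), fun z hz hG => ?_⟩
  have h1 := (abs_le.1 (hC0 z hz)).2
  have h2 : Real.log (max 1 ‖z‖) ≤ C0 + C := by linarith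
  have h3 : 0 < max 1 ‖z‖ := lt_of_lt_of_le one_pos (le_max_left _ _)
  exact (le_max_right _ _).trans ((Real.log_le_iff_le_exp h3).1 h2)

/- `H` is bounded on the ball and decreases along the orbit; `HD.bdd` for `h.symm`. -/
theorem HD.orbit (h : HD f d G H) (ρ : ℝ) :
    ∃ ρ' : ℝ, ∀ z, G z = 0 → ‖z‖ ≤ ρ → ∀ n : ℕ, ‖(f ^ n) z‖ ≤ ρ' := by
  obtain ⟨M, hM⟩ := (isCompact_closedBall (0 : ℂ × ℂ) ρ).bddAbove_image h.cH.continuousOn
  obtain ⟨ρ', hρ'⟩ := h.symm.bdd M
  refine ⟨ρ', fun z hz hρ n => hρ' _ (by rw [h.G_pow, hz, mul_zero]) ?_⟩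
  have h1 : H z ≤ M := hM (mem_image_of_mem _ (mem_closedBall_zero_iff.2 hρ))
  have h2 := h.H_pow n z
  have h3 : 1 ≤ d ^ n := one_le_pow₀ h.hd.le
  have h4 := h.nH ((f ^ n) z)
  nlinarith

theorem HD.mem_Kp (h : HD f d G H) (z : ℂ × ℂ) : z ∈ Kp f ↔ G z = 0 := by
  constructor
  · rintro ⟨R, hR⟩
    obtain ⟨M, hM⟩ := (isCompact_closedBall (0 : ℂ × ℂ) R).bddAbove_image h.cG.continuousOn
    by_contra hne
    have hpos : 0 < G z := lt_of_le_of_ne (h.nG z) (Ne.symm hne)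
    obtain ⟨n, hn⟩ := pow_unbounded_of_one_lt (M / G z) h.hd
    have h1 : G ((f ^ n) z) ≤ M := hM (mem_image_of_mem _ (mem_closedBall_zero_iff.2 (hR n)))
    rw [h.G_pow] at h1
    rw [div_lt_iff₀ hpos] at hn
    linarith
  · intro hz
    obtain ⟨ρ', hρ'⟩ := h.orbit ‖z‖
    exact ⟨ρ', hρ' z hz le_rfl⟩

/- The derivative is continuous (`Differentiable.contDiff` is for one variable; here use the Cauchy
estimate on complex lines, `Complex.norm_deriv_le_of_forall_mem_sphere_norm_le`, to bound `fderiv` on the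
ball) and `Convex.norm_image_sub_le_of_norm_fderiv_le`. -/
theorem exists_lip {F : ℂ × ℂ → ℂ × ℂ} (h : Differentiable ℂ F) (ρ : ℝ) : ∃ L : ℝ, 1 ≤ L ∧
    ∀ z z', ‖z‖ ≤ ρ → ‖z'‖ ≤ ρ → ‖F z - F z'‖ ≤ L * ‖z - z'‖ := by
  obtain ⟨M, hM⟩ := (isCompact_closedBall (0 : ℂ × ℂ) (ρ + 1)).bddAbove_image
    h.continuous.norm.continuousOn
  have hb : ∀ z ∈ closedBall (0 : ℂ × ℂ) ρ, ‖fderiv ℂ F z‖ ≤ max 1 M := by
    intro z hz
    rw [mem_closedBall_zero_iff] at hz
    refine ContinuousLinearMap.opNorm_le_of_unit_norm (le_trans zero_le_one (le_max_left _ _))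
      fun v hv => ?_
    have hl : Differentiable ℂ (fun t : ℂ => z + t • v) := by fun_prop
    have hg : Differentiable ℂ (fun t : ℂ => F (z + t • v)) := h.comp hl
    have hd : HasDerivAt (fun t : ℂ => F (z + t • v)) (fderiv ℂ F z v) 0 := by
      have h1 : HasDerivAt (fun t : ℂ => z + t • v) v 0 := by
        simpa using ((hasDerivAt_id (0 : ℂ)).smul_const v).const_add z
      have h2 : HasFDerivAt F (fderiv ℂ F z) (z + (0 : ℂ) • v) := by
        simpa using (h z).hasFDerivAt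
      exact h2.comp_hasDerivAt (0 : ℂ) h1
    have h3 := Complex.norm_deriv_le_of_forall_mem_sphere_norm_le (c := 0) (C := M) one_pos
      hg.diffContOnCl fun t ht => hM (mem_image_of_mem _ (mem_closedBall_zero_iff.2 (by
        rw [mem_sphere_zero_iff_norm] at ht
        calc ‖z + t • v‖ ≤ ‖z‖ + ‖t • v‖ := norm_add_le _ _
          _ ≤ ρ + 1 := by rw [norm_smul, ht, hv]; linarith)))
    rw [hd.deriv, div_one] at h3
    exact h3.trans (le_max_right _ _)
  refine ⟨max 1 M, le_max_left _ _, fun z z' hz hz' => ?_⟩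
  exact (convex_closedBall (0 : ℂ × ℂ) ρ).norm_image_sub_le_of_norm_fderiv_le
    (fun x _ => h x) hb (mem_closedBall_zero_iff.2 hz') (mem_closedBall_zero_iff.2 hz)

/-- Shadowing of a bounded piece of orbit. -/
theorem exists_shadow (h : Differentiable ℂ (⇑f)) (ρ : ℝ) : ∃ L : ℝ, 1 ≤ L ∧
    ∀ (n : ℕ) (z z' : ℂ × ℂ), (∀ j ≤ n, ‖(f ^ j) z‖ ≤ ρ) → L ^ n * ‖z' - z‖ ≤ 1 →
      ‖(f ^ n) z' - (f ^ n) z‖ ≤ L ^ n * ‖z' - z‖ := by
  obtain ⟨L, hL, hlip⟩ := exists_lip h (ρ + 1)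
  refine ⟨L, hL, fun n z z' => ?_⟩
  induction n with
  | zero => intro _ _; simp
  | succ n ih =>
    intro hz hs
    have h1 : L ^ n * ‖z' - z‖ ≤ 1 := by
      refine le_trans ?_ hs
      gcongr
      exact Nat.le_succ n
    have h2 := ih (fun j hj => hz j (by omega)) h1
    have h3 := hz n (by omega)
    have h4 : ‖(f ^ n) z'‖ ≤ ρ + 1 := by
      have := norm_add_le ((f ^ n) z) ((f ^ n) z' - (f ^ n) z)
      rw [add_sub_cancel] at this
      linarith
    rw [pow_succ' f, Equiv.Perm.mul_apply, Equiv.Perm.mul_apply, pow_succ' L, mul_assoc]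
    refine (hlip _ _ h4 (by linarith)).trans ?_
    gcongr

/-- Two bounded pieces of orbits. -/
theorem exists_lip_pow (h : Differentiable ℂ (⇑f)) (ρ : ℝ) : ∃ L : ℝ, 1 ≤ L ∧
    ∀ (n : ℕ) (z z' : ℂ × ℂ), (∀ j ≤ n, ‖(f ^ j) z‖ ≤ ρ) → (∀ j ≤ n, ‖(f ^ j) z'‖ ≤ ρ) →
      ‖(f ^ n) z' - (f ^ n) z‖ ≤ L ^ n * ‖z' - z‖ := by
  obtain ⟨L, hL, hlip⟩ := exists_lip h ρ
  refine ⟨L, hL, fun n z z' => ?_⟩
  induction n with
  | zero => intro _ _; simp
  | succ n ih =>
    intro hz hz'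
    have h2 := ih (fun j hj => hz j (by omega)) (fun j hj => hz' j (by omega))
    rw [pow_succ' f, Equiv.Perm.mul_apply, Equiv.Perm.mul_apply, pow_succ' L, mul_assoc]
    refine (hlip _ _ (hz' n (by omega)) (hz n (by omega))).trans ?_
    gcongr

/- Otherwise the curve is bounded (`HD.bdd`), Liouville. -/
theorem HD.unbdd (h : HD f d G H) {ψ : ℂ → ℂ × ℂ} (hψ : Differentiable ℂ ψ)
    (hH : ∀ z, H (ψ z) = 0) (hn : ∃ z, ψ z ≠ ψ 0) (C : ℝ) : ∃ z, C < G (ψ z) := by
  by_contra hc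
  push Not at hc
  obtain ⟨ρ, hρ⟩ := h.bdd C
  obtain ⟨z, hz⟩ := hn
  refine hz (hψ.apply_eq_apply_of_bounded ?_ z 0)
  refine (isBounded_closedBall (x := (0 : ℂ × ℂ)) (r := ρ)).subset ?_
  rintro _ ⟨t, rfl⟩
  exact mem_closedBall_zero_iff.2 (hρ _ (hH t) (hc t))

theorem isClosed_JS : IsClosed (JS f) := isClosed_closure

section maxima

variable {g g' : ℂ → ℝ} {w : ℂ} {r r' C r₀ : ℝ}

theorem le_MM (hg : ContinuousOn g (closedBall w r)) {z : ℂ} (hz : z ∈ closedBall w r) :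
    g z ≤ MM g w r := by
  exact le_csSup ((isCompact_closedBall w r).bddAbove_image hg) (mem_image_of_mem _ hz)

theorem exists_MM (hg : ContinuousOn g (closedBall w r)) (hr : 0 ≤ r) :
    ∃ z ∈ closedBall w r, g z = MM g w r := by
  obtain ⟨z, hz, h⟩ := (isCompact_closedBall w r).exists_sSup_image_eq
    (nonempty_closedBall.2 hr) hg
  exact ⟨z, hz, h.symm⟩

theorem MM_le (hr : 0 ≤ r) (h : ∀ z ∈ closedBall w r, g z ≤ C) : MM g w r ≤ C := by
  refine csSup_le ((nonempty_closedBall.2 hr).image g) ?_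
  rintro _ ⟨z, hz, rfl⟩
  exact h z hz

theorem MM_mono {w' : ℂ} (hg : ContinuousOn g (closedBall w' r')) (hr : 0 ≤ r)
    (h : closedBall w r ⊆ closedBall w' r') : MM g w r ≤ MM g w' r' := by
  exact MM_le hr fun z hz => le_MM hg (h hz)

theorem MM_zero : MM g w 0 = g w := by
  simp [MM]

theorem MM_congr (h : EqOn g g' (closedBall w r)) : MM g w r = MM g' w r := by
  rw [MM, MM, image_congr h]

theorem MM_mul {c : ℝ} (hc : 0 ≤ c) : MM (fun z => c * g z) w r = c * MM g w r := by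
  rw [MM, MM, ← smul_eq_mul c (sSup _), ← Real.sSup_smul_of_nonneg hc, ← image_smul, image_image]
  rfl

theorem MM_aff {e : ℂ} (he : e ≠ 0) (v : ℂ) :
    MM (fun z => g (v + e * z)) w r = MM g (v + e * w) (‖e‖ * r) := by
  have hpos : 0 < ‖e‖ := norm_pos_iff.2 he
  have key : (fun z => v + e * z) '' closedBall w r = closedBall (v + e * w) (‖e‖ * r) := by
    ext y
    simp only [mem_image, mem_closedBall, dist_eq_norm]
    constructor
    · rintro ⟨z, hz, rfl⟩
      rw [show v + e * z - (v + e * w) = e * (z - w) by ring, norm_mul]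
      gcongr
    · intro hy
      refine ⟨(y - v) / e, ?_, by field_simp; ring⟩
      rw [show (y - v) / e - w = (y - (v + e * w)) / e by field_simp; ring, norm_div,
        div_le_iff₀ hpos, mul_comm r]
      exact hy
  rw [MM, MM, ← key, image_image]

/- Uniform continuity on the closed disc; compare `z` with `w + (s / r) (z - w)`. -/
theorem MM_continuousOn (hg : ContinuousOn g (closedBall w r₀)) :
    ContinuousOn (MM g w) (Icc 0 r₀) := by
  rw [continuousOn_iff_continuous_domRestrict]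
  have hmem : ∀ (s : Icc (0 : ℝ) r₀) (u : closedBall (0 : ℂ) 1),
      w + ((s : ℝ) : ℂ) * (u : ℂ) ∈ closedBall w (s : ℝ) := by
    intro s u
    have hu := mem_closedBall_zero_iff.1 u.2
    rw [mem_closedBall, dist_eq_norm, add_sub_cancel_left, norm_mul, Complex.norm_real,
      Real.norm_of_nonneg s.2.1]
    exact mul_le_of_le_one_right s.2.1 hu
  have hc : Continuous (Function.uncurry fun (s : Icc (0 : ℝ) r₀) (u : closedBall (0 : ℂ) 1) =>
      g (w + ((s : ℝ) : ℂ) * (u : ℂ))) := by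
    refine hg.comp_continuous (f := fun p : Icc (0 : ℝ) r₀ × closedBall (0 : ℂ) 1 =>
      w + ((p.1 : ℝ) : ℂ) * (p.2 : ℂ)) (by fun_prop) fun p => ?_
    exact closedBall_subset_closedBall p.1.2.2 (hmem p.1 p.2)
  have : CompactSpace (closedBall (0 : ℂ) 1) :=
    isCompact_iff_compactSpace.1 (isCompact_closedBall _ _)
  refine (isCompact_univ.continuous_sSup
    (f := fun (s : Icc (0 : ℝ) r₀) (u : closedBall (0 : ℂ) 1) =>
      g (w + ((s : ℝ) : ℂ) * (u : ℂ))) hc).congr fun s => ?_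
  simp only [domRestrict_apply, MM]
  congr 1
  ext y
  constructor
  · rintro ⟨u, -, rfl⟩
    exact ⟨_, hmem s u, rfl⟩
  · rintro ⟨z, hz, rfl⟩
    rcases s.2.1.eq_or_lt with h0 | h0
    · refine ⟨⟨0, by simp⟩, mem_univ _, ?_⟩
      rw [← h0, closedBall_zero, mem_singleton_iff] at hz
      simp [hz]
    · have hs : ((s : ℝ) : ℂ) ≠ 0 := by exact_mod_cast h0.ne'
      refine ⟨⟨(z - w) / ((s : ℝ) : ℂ), ?_⟩, mem_univ _, ?_⟩
      · rw [mem_closedBall_zero_iff, norm_div, Complex.norm_real, Real.norm_of_nonneg h0.le,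
          div_le_one h0]
        rwa [mem_closedBall, dist_eq_norm] at hz
      · simp only
        congr 1
        field_simp
        ring

theorem MM_pos (hg : ContinuousOn g (closedBall w r)) (h0 : ∀ z, 0 ≤ g z) (hw : w ∈ bdK g)
    (hr : 0 < r) : 0 < MM g w r := by
  have h1 : w ∈ closure {z | g z = 0}ᶜ := by
    rw [bdK, frontier_eq_closure_inter_closure] at hw
    exact hw.2
  obtain ⟨z, hz, hd⟩ := Metric.mem_closure_iff.1 h1 r hr
  have h2 : 0 < g z := lt_of_le_of_ne (h0 z) (Ne.symm hz)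
  exact h2.trans_le (le_MM hg (mem_closedBall'.2 hd.le))

theorem DBl.pow (h : DBl g w C r₀) (hC : 0 ≤ C) (hr : 0 < r) (k : ℕ) (hk : 2 ^ k * r ≤ r₀) :
    MM g w (2 ^ k * r) ≤ C ^ k * MM g w r := by
  induction k with
  | zero => simp
  | succ k ih =>
    have hp : 0 < 2 ^ k * r := by positivity
    have e : (2 : ℝ) ^ (k + 1) * r = 2 * (2 ^ k * r) := by ring
    rw [e] at hk ⊢
    refine (h.2 _ hp hk).trans ?_
    rw [pow_succ' C, mul_assoc]
    exact mul_le_mul_of_nonneg_left (ih (by linarith)) hC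

theorem Base_tendsto {gs : ℕ → ℂ → ℝ} {ws : ℕ → ℂ} (hc : ∀ j, Continuous (gs j))
    (hg : TendstoLocallyUniformly gs g atTop) (hw : Tendsto ws atTop (𝓝 w)) (hr : 0 ≤ r) :
    Tendsto (fun j => MM (gs j) (ws j) r) atTop (𝓝 (MM g w r)) := by
  have hgc : Continuous g := hg.continuous (Frequently.of_forall hc)
  have hK := isCompact_closedBall w (r + 1)
  have hu : TendstoUniformlyOn gs g atTop (closedBall w (r + 1)) :=
    (tendstoLocallyUniformly_iff_forall_isCompact.1 hg) _ hK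
  have huc := hK.uniformContinuousOn_of_continuous hgc.continuousOn
  rw [Metric.tendsto_nhds]
  intro ε hε
  obtain ⟨δ, hδ, hδ'⟩ := Metric.uniformContinuousOn_iff.1 huc (ε / 3) (by positivity)
  filter_upwards [Metric.tendstoUniformlyOn_iff.1 hu (ε / 3) (by positivity),
    Metric.tendsto_nhds.1 hw (min δ 1) (lt_min hδ one_pos)] with j h1 h2
  have h3 : dist (ws j) w < δ := h2.trans_le (min_le_left _ _)
  have h4 : dist (ws j) w < 1 := h2.trans_le (min_le_right _ _)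
  have key : ∀ z ∈ closedBall w r, |gs j (z + (ws j - w)) - g z| < 2 * ε / 3 := by
    intro z hz
    have e : dist (z + (ws j - w)) z = dist (ws j) w := by
      rw [dist_eq_norm, dist_eq_norm, add_sub_cancel_left]
    have hz1 : z ∈ closedBall w (r + 1) := closedBall_subset_closedBall (by linarith) hz
    have hz2 : z + (ws j - w) ∈ closedBall w (r + 1) := by
      rw [mem_closedBall] at hz ⊢
      have := dist_triangle (z + (ws j - w)) z w
      linarith
    have a1 := h1 _ hz2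
    have a2 := hδ' _ hz2 _ hz1 (by rwa [e])
    rw [Real.dist_eq, abs_lt] at a1 a2
    rw [abs_lt]
    constructor <;> linarith [a1.1, a1.2, a2.1, a2.2]
  have b1 : MM (gs j) (ws j) r ≤ MM g w r + 2 * ε / 3 := by
    refine MM_le hr fun y hy => ?_
    have hy' : y - (ws j - w) ∈ closedBall w r := by
      rw [mem_closedBall, dist_eq_norm] at hy ⊢
      rwa [show y - (ws j - w) - w = y - ws j by ring]
    have a1 := (abs_lt.1 (key _ hy')).2
    rw [sub_add_cancel] at a1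
    have a2 := le_MM hgc.continuousOn hy'
    linarith
  have b2 : MM g w r ≤ MM (gs j) (ws j) r + 2 * ε / 3 := by
    refine MM_le hr fun y hy => ?_
    have hy' : y + (ws j - w) ∈ closedBall (ws j) r := by
      rw [mem_closedBall, dist_eq_norm] at hy ⊢
      rwa [show y + (ws j - w) - ws j = y - w by ring]
    have a1 := (abs_lt.1 (key _ hy)).1
    have a2 := le_MM (hc j).continuousOn hy'
    linarith
  rw [Real.dist_eq, abs_lt]
  constructor <;> linarith

/-- Doubling passes to limits. -/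
theorem DB.lim {gs : ℕ → ℂ → ℝ} {ws : ℕ → ℂ} (hc : ∀ j, Continuous (gs j))
    (hg : TendstoLocallyUniformly gs g atTop) (hw : Tendsto ws atTop (𝓝 w))
    (h : ∀ j, DB (gs j) (ws j) C) : DB g w C := by
  have hgc : Continuous g := hg.continuous (Frequently.of_forall hc)
  intro r₀
  refine ⟨?_, fun r hr _ => ?_⟩
  · have h1 := hg.tendsto_comp hgc.continuousAt hw
    have h2 : (fun j => gs j (ws j)) = fun _ => 0 := funext fun j => (h j 0).1
    rw [h2] at h1
    exact tendsto_nhds_unique h1 tendsto_const_nhds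
  · refine le_of_tendsto_of_tendsto' (Base_tendsto hc hg hw (by positivity))
      ((Base_tendsto hc hg hw hr.le).const_mul C) fun j => ?_
    exact (h j (2 * r)).2 r hr le_rfl

/-- A function with doubling that vanishes near the centre vanishes. -/
theorem DB.eq_zero (hg : Continuous g) (h0 : ∀ z, 0 ≤ g z) (hC : 0 ≤ C) (h : DB g w C)
    (hw : ∀ᶠ z in 𝓝 w, g z = 0) (z : ℂ) : g z = 0 := by
  obtain ⟨r, hr, hb⟩ := Metric.nhds_basis_closedBall.eventually_iff.1 hw
  obtain ⟨k, hk⟩ := pow_unbounded_of_one_lt (dist z w / r) (by norm_num : (1 : ℝ) < 2)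
  rw [div_lt_iff₀ hr] at hk
  have h1 : MM g w r ≤ 0 := MM_le hr.le fun y hy => (hb hy).le
  have h2 := (h (2 ^ k * r)).pow hC hr k le_rfl
  have h3 : g z ≤ MM g w (2 ^ k * r) := le_MM hg.continuousOn (mem_closedBall.2 hk.le)
  have h4 : C ^ k * MM g w r ≤ 0 := mul_nonpos_of_nonneg_of_nonpos (by positivity) h1
  exact le_antisymm (by linarith) (h0 z)

/-- A positive number below one is brought into `[1, d)` by a power of `d`. -/
theorem exists_scale (hd : 1 < d) {x : ℝ} (hx : 0 < x) : ∃ k : ℤ, 1 ≤ d ^ k * x ∧ d ^ k * x < d := by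
  obtain ⟨n, hn1, hn2⟩ := exists_mem_Ico_zpow hx hd
  have hd0 : 0 < d := by linarith
  have hp : 0 < d ^ n := zpow_pos hd0 n
  refine ⟨-n, ?_, ?_⟩
  · rw [zpow_neg, ← div_eq_inv_mul, le_div_iff₀ hp, one_mul]
    exact hn1
  · rw [zpow_neg, ← div_eq_inv_mul, div_lt_iff₀ hp, mul_comm, ← zpow_add_one₀ hd0.ne']
    exact hn2

end maxima

/-- Composition of a locally uniform limit with a continuous function. -/
theorem tlu_comp {F : ℕ → ℂ → ℂ × ℂ} {ψ : ℂ → ℂ × ℂ} (hψ : Continuous ψ)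
    (h : TendstoLocallyUniformly F ψ atTop) {Y : Type} [PseudoMetricSpace Y] {u : ℂ × ℂ → Y}
    (hu : Continuous u) :
    TendstoLocallyUniformly (fun j z => u (F j z)) (fun z => u (ψ z)) atTop := by
  rw [tendstoLocallyUniformly_iff_forall_tendsto] at h ⊢
  intro x
  have h1 : Tendsto (fun y : ℕ × ℂ => ψ y.2) (atTop ×ˢ 𝓝 x) (𝓝 (ψ x)) :=
    (hψ.tendsto x).comp tendsto_snd
  have h2 : Tendsto (fun y : ℕ × ℂ => F y.1 y.2) (atTop ×ˢ 𝓝 x) (𝓝 (ψ x)) :=
    h1.congr_uniformity (h x)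
  exact (((hu.tendsto _).comp h1).prodMk_nhds ((hu.tendsto _).comp h2)).mono_right
    (nhds_le_uniformity _)

end Pool.Agent.Lib.MP_7b5e47_an.Hq
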