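import Pool.Agent.Lib.MP_7b5e47_an.Hq.Lev

/-! Rules of calculation for the Levi form. -/

namespace Pool.Agent.Lib.MP_7b5e47_an.Hq

open Complex MeasureTheory Set Metric Filter Topology

section general

variable {E : Type} [NormedAddCommGroup E] [NormedSpace ℝ E] [NormedSpace ℂ E]
  [IsScalarTower ℝ ℂ E] {u u' : E → ℝ}

omit [NormedSpace ℂ E] [IsScalarTower ℝ ℂ E] in
theorem Calc_diff (h : Sm u) : Differentiable ℝ u :=
  ContDiff.differentiable h (by simp)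

omit [NormedSpace ℂ E] [IsScalarTower ℝ ℂ E] in
theorem Calc_dv {z : E} {L : E →L[ℝ] ℝ} (h : HasFDerivAt u L z) (v : E) : Dv v u z = L v := by
  rw [Dv, h.fderiv]

omit [NormedSpace ℂ E] [IsScalarTower ℝ ℂ E] in
theorem Calc_add {z : E} (h : DifferentiableAt ℝ u z) (h' : DifferentiableAt ℝ u' z) (v : E) :
    Dv v (fun y => u y + u' y) z = Dv v u z + Dv v u' z :=
  Calc_dv (h.hasFDerivAt.fun_add h'.hasFDerivAt) v

omit [NormedSpace ℂ E] [IsScalarTower ℝ ℂ E] in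
theorem Calc_mul {z : E} (h : DifferentiableAt ℝ u z) (h' : DifferentiableAt ℝ u' z) (v : E) :
    Dv v (fun y => u y * u' y) z = u z * Dv v u' z + u' z * Dv v u z :=
  Calc_dv (h.hasFDerivAt.fun_mul h'.hasFDerivAt) v

omit [NormedSpace ℂ E] [IsScalarTower ℝ ℂ E] in
theorem Calc_comp {θ : ℝ → ℝ} {z : E} (h : DifferentiableAt ℝ u z)
    (hθ : DifferentiableAt ℝ θ (u z)) (v : E) :
    Dv v (fun y => θ (u y)) z = deriv θ (u z) * Dv v u z :=
  Calc_dv (hθ.hasDerivAt.comp_hasFDerivAt z h.hasFDerivAt) v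

omit [NormedSpace ℂ E] [IsScalarTower ℝ ℂ E] in
theorem Calc_zero (u : E → ℝ) : Dv (0 : E) u = fun _ => 0 := by
  funext z
  simp [Dv]

omit [NormedSpace ℂ E] [IsScalarTower ℝ ℂ E] in
theorem Calc_const (c : ℝ) (v : E) : Dv v (fun _ => c) = fun _ => 0 := by
  funext z
  simp [Dv]

omit [NormedSpace ℂ E] [IsScalarTower ℝ ℂ E] in
theorem Calc_chain {F : Type} [NormedAddCommGroup F] [NormedSpace ℝ F] {g : F → E} {z : F}
    {L : F →L[ℝ] E} (h : Sm u) (hg : HasFDerivAt g L z) (v : F) :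
    Dv v (fun y => u (g y)) z = Dv (L v) u (g z) :=
  Calc_dv ((Calc_diff h (g z)).hasFDerivAt.comp z hg) v

omit [NormedSpace ℂ E] [IsScalarTower ℝ ℂ E] in
theorem Sm.dv (h : Sm u) (v : E) : Sm (Dv v u) :=
  (ContDiff.fderiv_right h (m := (⊤ : ℕ∞)) (by simp)).clm_apply contDiff_const

omit [IsScalarTower ℝ ℂ E] in
theorem Sm.lev (h : Sm u) (v w : E) : Sm (Lev u v w) :=
  ContDiff.add ((h.dv w).dv v) ((h.dv _).dv _)

omit [IsScalarTower ℝ ℂ E] in
theorem Sm.gr (h : Sm u) (h' : Sm u') (v w : E) : Sm (Gr u u' v w) :=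
  ContDiff.add (ContDiff.mul (h.dv v) (h'.dv w)) (ContDiff.mul (h.dv _) (h'.dv _))

/- `ContDiffAt.isSymmSndFDerivAt`. -/
omit [NormedSpace ℂ E] [IsScalarTower ℝ ℂ E] in
theorem Sm.dv_comm (h : Sm u) (v w : E) : Dv v (Dv w u) = Dv w (Dv v u) := by
  funext z
  have hd : DifferentiableAt ℝ (fderiv ℝ u) z :=
    (ContDiff.fderiv_right h (m := (⊤ : ℕ∞)) (by simp)).differentiable (by simp) z
  have key : ∀ a b : E, Dv a (Dv b u) z = fderiv ℝ (fderiv ℝ u) z a b := fun a b => by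
    have := hd.hasFDerivAt.clm_apply (hasFDerivAt_const b z)
    rw [show Dv b u = fun y => fderiv ℝ u y b from rfl, Calc_dv this]
    simp
  rw [key, key]
  exact (ContDiff.contDiffAt h).isSymmSndFDerivAt (by simp; exact WithTop.coe_le_coe.2 le_top) v w

omit [NormedSpace ℂ E] [IsScalarTower ℝ ℂ E] in
theorem dv_congr {z : E} (h : u =ᶠ[𝓝 z] u') (v : E) : Dv v u =ᶠ[𝓝 z] Dv v u' := by
  filter_upwards [h.fderiv (𝕜 := ℝ)] with y hy
  rw [Dv, Dv, hy]

omit [IsScalarTower ℝ ℂ E] in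
theorem lev_congr {z : E} (h : u =ᶠ[𝓝 z] u') (v w : E) : Lev u v w z = Lev u' v w z := by
  simp only [Lev, (dv_congr (dv_congr h _) _).eq_of_nhds]

omit [NormedSpace ℂ E] [IsScalarTower ℝ ℂ E] in
theorem dv_eq_zero {z : E} (h : z ∉ tsupport u) (v : E) : Dv v u z = 0 := by
  rw [(dv_congr (notMem_tsupport_iff_eventuallyEq.1 h) v).eq_of_nhds]
  exact congrFun (Calc_const 0 v) z

omit [IsScalarTower ℝ ℂ E] in
theorem lev_eq_zero {z : E} (h : z ∉ tsupport u) (v w : E) : Lev u v w z = 0 := by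
  rw [lev_congr (u' := fun _ => 0) (notMem_tsupport_iff_eventuallyEq.1 h)]
  simp [Lev, Calc_const]

omit [NormedSpace ℂ E] [IsScalarTower ℝ ℂ E] in
theorem dv_lin (h : Sm u) (h' : Sm u') (s t c : ℝ) (v : E) (z : E) :
    Dv v (fun y => s * u y + t * u' y + c) z = s * Dv v u z + t * Dv v u' z :=
  Calc_dv ((((Calc_diff h z).hasFDerivAt.const_mul s).fun_add
    ((Calc_diff h' z).hasFDerivAt.const_mul t)).add_const c) v

omit [IsScalarTower ℝ ℂ E] in
theorem lev_lin (h : Sm u) (h' : Sm u') (s t c : ℝ) (v w : E) (z : E) :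
    Lev (fun y => s * u y + t * u' y + c) v w z = s * Lev u v w z + t * Lev u' v w z := by
  have key : ∀ a : E, Dv a (fun y => s * u y + t * u' y + c) =
      fun y => s * Dv a u y + t * Dv a u' y + 0 := fun a => funext fun y => by
    rw [dv_lin h h', add_zero]
  simp only [Lev, key, dv_lin (h.dv _) (h'.dv _)]
  ring

omit [NormedSpace ℂ E] [IsScalarTower ℝ ℂ E] in
theorem dv_mul (h : Sm u) (h' : Sm u') (v : E) (z : E) :
    Dv v (fun y => u y * u' y) z = u z * Dv v u' z + u' z * Dv v u z :=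
  Calc_mul (Calc_diff h z) (Calc_diff h' z) v

omit [IsScalarTower ℝ ℂ E] in
theorem lev_mul (h : Sm u) (h' : Sm u') (v w : E) (z : E) :
    Lev (fun y => u y * u' y) v w z =
      u z * Lev u' v w z + u' z * Lev u v w z + Gr u u' v w z + Gr u' u v w z := by
  have key : ∀ a b : E, Dv a (Dv b fun y => u y * u' y) z =
      u z * Dv a (Dv b u') z + Dv b u' z * Dv a u z +
        (u' z * Dv a (Dv b u) z + Dv b u z * Dv a u' z) := fun a b => by
    rw [show (Dv b fun y => u y * u' y) = fun y => u y * Dv b u' y + u' y * Dv b u y from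
      funext fun y => dv_mul h h' b y,
      Calc_add (u := fun y => u y * Dv b u' y) (u' := fun y => u' y * Dv b u y)
        ((Calc_diff h z).mul (Calc_diff (h'.dv b) z)) ((Calc_diff h' z).mul (Calc_diff (h.dv b) z)),
      dv_mul h (h'.dv b), dv_mul h' (h.dv b)]
  simp only [Lev, Gr, key]
  ring

omit [NormedSpace ℂ E] [IsScalarTower ℝ ℂ E] in
theorem dv_comp (h : Sm u) {θ : ℝ → ℝ} {z : E} (hθ : DifferentiableAt ℝ θ (u z)) (v : E) :
    Dv v (fun y => θ (u y)) z = deriv θ (u z) * Dv v u z :=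
  Calc_comp (Calc_diff h z) hθ v

omit [IsScalarTower ℝ ℂ E] in
theorem lev_comp (h : Sm u) {θ : ℝ → ℝ} {z : E} (hθ : ContDiffAt ℝ 2 θ (u z)) (v w : E) :
    Lev (fun y => θ (u y)) v w z =
      deriv θ (u z) * Lev u v w z + deriv (deriv θ) (u z) * Gr u u v w z := by
  have h1 : ∀ᶠ y in 𝓝 z, DifferentiableAt ℝ θ (u y) :=
    (Calc_diff h z).continuousAt.eventually
      ((hθ.eventually (by simp)).mono fun x hx => hx.differentiableAt (by simp))
  have h2 : DifferentiableAt ℝ (deriv θ) (u z) :=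
    ((hθ.fderiv_right (m := 1) (by norm_num)).clm_apply
      (contDiffAt_const (c := (1 : ℝ)))).differentiableAt (by simp)
  have key : ∀ a b : E, Dv a (Dv b fun y => θ (u y)) z =
      deriv θ (u z) * Dv a (Dv b u) z + Dv b u z * (deriv (deriv θ) (u z) * Dv a u z) := by
    intro a b
    have h3 : (Dv b fun y => θ (u y)) =ᶠ[𝓝 z] fun y => deriv θ (u y) * Dv b u y :=
      h1.mono fun y hy => dv_comp h hy b
    rw [(dv_congr h3 a).eq_of_nhds, Calc_mul (u := fun y => deriv θ (u y))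
      (h2.comp z (Calc_diff h z)) (Calc_diff (h.dv b) z), dv_comp h h2]
  simp only [Lev, Gr, key]
  ring

theorem sm_normSq {h : E → ℂ} (hh : ContDiff ℂ (⊤ : ℕ∞) h) : Sm fun y => ‖h y‖ ^ 2 :=
  (hh.restrict_scalars ℝ).norm_sq ℂ

theorem Calc_pair {k h : E → ℂ} {z : E} (hk : DifferentiableAt ℂ k z)
    (hh : DifferentiableAt ℂ h z) (c : ℝ) (v : E) :
    Dv v (fun y => c * (k y * (starRingEnd ℂ) (h y)).re) z =
      c * (fderiv ℂ k z v * (starRingEnd ℂ) (h z) +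
        k z * (starRingEnd ℂ) (fderiv ℂ h z v)).re := by
  have h1 := hk.hasFDerivAt.restrictScalars ℝ
  have h2 := conjCLE.hasFDerivAt.comp z (hh.hasFDerivAt.restrictScalars ℝ)
  have h3 := (reCLM.hasFDerivAt.comp z (h1.fun_mul h2)).const_mul c
  refine (Calc_dv h3 v).trans ?_
  simp
  ring

theorem dv_normSq {h : E → ℂ} (hh : ContDiff ℂ (⊤ : ℕ∞) h) (v : E) (z : E) :
    Dv v (fun y => ‖h y‖ ^ 2) z = 2 * (fderiv ℂ h z v * (starRingEnd ℂ) (h z)).re := by
  have hd := hh.differentiable (by simp) z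
  rw [show (fun y => ‖h y‖ ^ 2) = fun y => 1 * (h y * (starRingEnd ℂ) (h y)).re from
    funext fun y => by rw [mul_conj, ofReal_re, one_mul, Complex.sq_norm], Calc_pair hd hd]
  simp
  ring

/- The second derivatives of `h` cancel: `D²h (I v, I w) = - D²h (v, w)`. -/
theorem lev_normSq {h : E → ℂ} (hh : ContDiff ℂ (⊤ : ℕ∞) h) (v w : E) (z : E) :
    Lev (fun y => ‖h y‖ ^ 2) v w z =
      4 * (fderiv ℂ h z v * (starRingEnd ℂ) (fderiv ℂ h z w)).re := by
  have hd := hh.differentiable (by simp) z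
  have hk : DifferentiableAt ℂ (fun y => fderiv ℂ h y w) z :=
    ((hh.fderiv_right (m := (⊤ : ℕ∞)) (by simp)).clm_apply contDiff_const).differentiable
      (by simp) z
  have e1 : (Dv w fun y => ‖h y‖ ^ 2) =
      fun y => 2 * (fderiv ℂ h y w * (starRingEnd ℂ) (h y)).re := funext fun y => dv_normSq hh w y
  have e2 : (Dv (I • w) fun y => ‖h y‖ ^ 2) =
      fun y => 2 * (I * fderiv ℂ h y w * (starRingEnd ℂ) (h y)).re := funext fun y => by
    rw [dv_normSq hh, map_smul, smul_eq_mul]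
  rw [Lev, e1, e2, Calc_pair hk hd, Calc_pair (hk.const_mul I) hd, fderiv_const_mul hk]
  simp
  ring

end general

section plane

variable {φ : ℂ → ℝ} {u : ℂ × ℂ → ℝ}

/- Conformal invariance of the Laplacian.  One way: `Dv v (φ ∘ h) z = fderiv ℝ φ (h z) (h' z * v)`;
write `h' z * v = re • 1 + im • I`, differentiate again, Cauchy-Riemann for `h'`, `Sm.dv_comm`. -/
theorem lap_comp_hol (hφ : Sm φ) {h : ℂ → ℂ} (hh : Differentiable ℂ h) (z : ℂ) :
    Lap (fun y => φ (h y)) z = ‖deriv h z‖ ^ 2 * Lap φ (h z) := by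
  have hr : ∀ {g : ℂ → ℂ}, Differentiable ℂ g → ∀ y, HasFDerivAt g
      ((ContinuousLinearMap.toSpanSingleton ℂ (deriv g y)).restrictScalars ℝ) y :=
    fun hg y => (hg y).hasDerivAt.hasFDerivAt.restrictScalars ℝ
  have k1 : ∀ {ψ : ℂ → ℝ}, Sm ψ → ∀ v y : ℂ, Dv v (fun y => ψ (h y)) y =
      (v * deriv h y).re * Dv 1 ψ (h y) + (v * deriv h y).im * Dv I ψ (h y) := by
    intro ψ hψ v y
    rw [Calc_chain hψ (hr hh y)]
    have e : ∀ x : ℂ, x = x.re • (1 : ℂ) + x.im • I := fun x => by simp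
    show fderiv ℝ ψ (h y) (v • deriv h y) = _
    rw [smul_eq_mul, e (v * deriv h y), map_add, map_smul, map_smul, ← e]
    rfl
  have hh' : Differentiable ℂ (deriv h) := hh.deriv
  have k2 : ∀ v w : ℂ, Dv v (Dv w fun y => φ (h y)) z =
      (w * deriv h z).re * Dv v (fun y => Dv 1 φ (h y)) z +
        Dv 1 φ (h z) * (w * (v * deriv (deriv h) z)).re +
      ((w * deriv h z).im * Dv v (fun y => Dv I φ (h y)) z +
        Dv I φ (h z) * (w * (v * deriv (deriv h) z)).im) := by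
    intro v w
    have a1 := reCLM.hasFDerivAt.comp z ((hr hh' z).const_mul w)
    have a2 := imCLM.hasFDerivAt.comp z ((hr hh' z).const_mul w)
    have b1 := (Calc_diff (hφ.dv 1) (h z)).comp z (hr hh z).differentiableAt
    have b2 := (Calc_diff (hφ.dv I) (h z)).comp z (hr hh z).differentiableAt
    rw [show (Dv w fun y => φ (h y)) = fun y => (w * deriv h y).re * Dv 1 φ (h y) +
      (w * deriv h y).im * Dv I φ (h y) from funext fun y => k1 hφ w y,
      Calc_add (u := fun y => (w * deriv h y).re * Dv 1 φ (h y))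
        (u' := fun y => (w * deriv h y).im * Dv I φ (h y))
        (a1.differentiableAt.mul b1) (a2.differentiableAt.mul b2),
      Calc_mul (u := fun y => (w * deriv h y).re) (u' := fun y => Dv 1 φ (h y))
        a1.differentiableAt b1,
      Calc_mul (u := fun y => (w * deriv h y).im) (u' := fun y => Dv I φ (h y))
        a2.differentiableAt b2,
      Calc_dv (u := fun y => (w * deriv h y).re) a1, Calc_dv (u := fun y => (w * deriv h y).im) a2]
    rfl
  simp only [Lap, Lev, k2, k1 (hφ.dv _), smul_eq_mul, mul_one, Complex.sq_norm, normSq_apply]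
  simp
  ring

theorem sm_comp_hol (hφ : Sm φ) {h : ℂ → ℂ} (hh : Differentiable ℂ h) : Sm fun y => φ (h y) :=
  ContDiff.comp hφ (hh.contDiff.restrict_scalars ℝ)

theorem sm_fst (hφ : Sm φ) : Sm fun γ : ℂ × ℂ => φ γ.1 :=
  ContDiff.comp hφ contDiff_fst

theorem sm_snd (hφ : Sm φ) : Sm fun γ : ℂ × ℂ => φ γ.2 :=
  ContDiff.comp hφ contDiff_snd

theorem dv_fst (hφ : Sm φ) (v γ : ℂ × ℂ) : Dv v (fun γ : ℂ × ℂ => φ γ.1) γ = Dv v.1 φ γ.1 :=
  Calc_chain hφ hasFDerivAt_fst v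

theorem dv_snd (hφ : Sm φ) (v γ : ℂ × ℂ) : Dv v (fun γ : ℂ × ℂ => φ γ.2) γ = Dv v.2 φ γ.2 :=
  Calc_chain hφ hasFDerivAt_snd v

theorem lev_fst (hφ : Sm φ) (v w γ : ℂ × ℂ) :
    Lev (fun γ : ℂ × ℂ => φ γ.1) v w γ = Lev φ v.1 w.1 γ.1 := by
  have key : ∀ a : ℂ × ℂ, (Dv a fun γ : ℂ × ℂ => φ γ.1) = fun γ => Dv a.1 φ γ.1 :=
    fun a => funext (dv_fst hφ a)
  simp only [Lev, key, dv_fst (hφ.dv _), Prod.smul_fst]

theorem lev_snd (hφ : Sm φ) (v w γ : ℂ × ℂ) :
    Lev (fun γ : ℂ × ℂ => φ γ.2) v w γ = Lev φ v.2 w.2 γ.2 := by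
  have key : ∀ a : ℂ × ℂ, (Dv a fun γ : ℂ × ℂ => φ γ.2) = fun γ => Dv a.2 φ γ.2 :=
    fun a => funext (dv_snd hφ a)
  simp only [Lev, key, dv_snd (hφ.dv _), Prod.smul_snd]

theorem sm_slice1 (hu : Sm u) (ζ : ℂ) : Sm fun η => u (η, ζ) :=
  ContDiff.comp hu (contDiff_id.prodMk contDiff_const)

theorem sm_slice2 (hu : Sm u) (η : ℂ) : Sm fun ζ => u (η, ζ) :=
  ContDiff.comp hu (contDiff_const.prodMk contDiff_id)

theorem lap_slice1 (hu : Sm u) (η ζ : ℂ) : Lap (fun η => u (η, ζ)) η = L1 u (η, ζ) := by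
  have key : ∀ {t : ℂ × ℂ → ℝ}, Sm t → ∀ a : ℂ,
      (Dv a fun η => t (η, ζ)) = fun η => Dv (a, 0) t (η, ζ) :=
    fun ht a => funext fun η => Calc_chain ht (hasFDerivAt_prodMk_left η ζ) a
  simp only [Lap, L1, Lev, key hu, key (hu.dv _), Prod.smul_mk, smul_zero]

theorem lap_slice2 (hu : Sm u) (η ζ : ℂ) : Lap (fun ζ => u (η, ζ)) ζ = L2 u (η, ζ) := by
  have key : ∀ {t : ℂ × ℂ → ℝ}, Sm t → ∀ a : ℂ,
      (Dv a fun ζ => t (η, ζ)) = fun ζ => Dv (0, a) t (η, ζ) :=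
    fun ht a => funext fun ζ => Calc_chain ht (hasFDerivAt_prodMk_right η ζ) a
  simp only [Lap, L2, Lev, key hu, key (hu.dv _), Prod.smul_mk, smul_zero]

/-- The Levi matrix of a product of functions of one variable. -/
theorem lev_prod {χ : ℂ → ℝ} (hφ : Sm φ) (hχ : Sm χ) (γ : ℂ × ℂ) :
    L1 (fun γ => φ γ.1 * χ γ.2) γ = Lap φ γ.1 * χ γ.2 ∧
    L2 (fun γ => φ γ.1 * χ γ.2) γ = φ γ.1 * Lap χ γ.2 ∧
    LA (fun γ => φ γ.1 * χ γ.2) γ ^ 2 + LB (fun γ => φ γ.1 * χ γ.2) γ ^ 2 =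
      Gsq φ γ.1 * Gsq χ γ.2 := by
  have hn : Dv (I * I) χ γ.2 = -Dv 1 χ γ.2 := by
    simp [Dv]
  simp only [L1, L2, LA, LB, Lap, Gsq, lev_mul (sm_fst hφ) (sm_snd hχ), lev_fst hφ, lev_snd hχ, Gr,
    dv_fst hφ, dv_snd hχ, Prod.smul_mk, smul_eq_mul, mul_zero, mul_one, hn]
  simp only [Lev, smul_zero, Calc_zero, Calc_const]
  refine ⟨by ring, by ring, by ring⟩

end plane

end Pool.Agent.Lib.MP_7b5e47_an.Hq
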