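import Pool.Agent.Lib.MP_7b5e47_an.Hq.Flt
import Pool.Agent.Lib.MP_7b5e47_an.Hn.PMax

/-! The Green functions of a map with a filtration. -/

namespace Pool.Agent.Lib.MP_7b5e47_an.Hq

open Set Metric Filter Topology InnerProductSpace
open Pool.Agent.Lib.MP_7b5e47_an.Hn (green comp deg IsHenon)

variable {f : Equiv.Perm (ℂ × ℂ)} {d : ℕ} {R C : ℝ} {A B : ℂ × ℂ →L[ℂ] ℂ}

/-- The complement of the region that escapes in backward time. -/
def NV (R : ℝ) (A B : ℂ × ℂ →L[ℂ] ℂ) : Set (ℂ × ℂ) := {z | ¬ (R ≤ ‖B z‖ ∧ ‖A z‖ ≤ ‖B z‖)}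

theorem Flt.nv_map (h : Flt f d R C A B) {z : ℂ × ℂ} (hz : z ∈ NV R A B) : f z ∈ NV R A B := by
  intro h1
  obtain ⟨h2, h3, -⟩ := h.dn _ h1.1 h1.2
  rw [show f⁻¹ (f z) = z from f.symm_apply_apply z] at h2 h3
  exact hz ⟨by linarith [h1.1, h.hR], by linarith [norm_nonneg (A z)]⟩

theorem Gre_pow (h : Flt f d R C A B) {z : ℂ × ℂ} (hz : z ∈ NV R A B) (n : ℕ) :
    (f ^ n) z ∈ NV R A B := by
  induction n with
  | zero => exact hz
  | succ n ih =>
    rw [pow_succ', Equiv.Perm.mul_apply]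
    exact h.nv_map ih

theorem Gre_big (h : Flt f d R C A B) {z : ℂ × ℂ} (hz : z ∈ NV R A B) (hR : R ≤ ‖z‖) :
    ‖B z‖ < ‖A z‖ ∧ ‖z‖ = ‖A z‖ := by
  have h1 : ‖B z‖ < ‖A z‖ := not_le.1 fun h1 => hz ⟨by rwa [h.nrm, max_eq_right h1] at hR, h1⟩
  exact ⟨h1, by rw [h.nrm, max_eq_left h1.le]⟩

theorem Gre_max (h : Flt f d R C A B) {z : ℂ × ℂ} (h1 : R ≤ ‖A z‖) (h2 : ‖B z‖ ≤ ‖A z‖) :
    max 1 ‖z‖ = ‖A z‖ := by
  rw [h.nrm, max_eq_left h2, max_eq_right (h.hR.trans h1)]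

theorem Gre_bd (h : Flt f d R C A B) : ∃ M : ℝ, ∀ z, ‖z‖ ≤ R → ‖f z‖ ≤ M := by
  obtain ⟨M, hM⟩ := (isCompact_closedBall (0 : ℂ × ℂ) R).exists_bound_of_continuousOn
    h.df.continuous.continuousOn
  exact ⟨M, fun z hz => hM z (mem_closedBall_zero_iff.2 hz)⟩

theorem Gre_up (h : Flt f d R C A B) {z : ℂ × ℂ} (h1 : R ≤ ‖A z‖) (h2 : ‖B z‖ ≤ ‖A z‖) (n : ℕ) :
    2 ^ n * R ≤ ‖A ((f ^ n) z)‖ ∧ ‖B ((f ^ n) z)‖ ≤ ‖A ((f ^ n) z)‖ := by
  induction n with
  | zero => exact ⟨by simpa using h1, h2⟩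
  | succ n ih =>
    have h3 : R ≤ 2 ^ n * R := le_mul_of_one_le_left (by linarith [h.hR]) (one_le_pow₀ one_le_two)
    obtain ⟨h4, h5, -⟩ := h.up _ (h3.trans ih.1) ih.2
    rw [pow_succ' f, Equiv.Perm.mul_apply, pow_succ' 2, mul_assoc]
    exact ⟨by linarith [ih.1], by linarith [norm_nonneg (B (f ((f ^ n) z)))]⟩

theorem Gre_log (x : ℝ) : 0 ≤ Real.log (max 1 x) := Real.log_nonneg (le_max_left _ _)

/- If `R ≤ ‖z‖` then `R ≤ ‖A z‖` and `‖B z‖ ≤ ‖A z‖`, use `up`; otherwise `f z` is bounded by compactness. -/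
theorem Flt.nv_step (h : Flt f d R C A B) : ∃ C' : ℝ, ∀ z ∈ NV R A B,
    |Real.log (max 1 ‖f z‖) - d * Real.log (max 1 ‖z‖)| ≤ C' := by
  obtain ⟨M, hM⟩ := Gre_bd h
  refine ⟨max C (Real.log (max 1 M) + d * Real.log (max 1 R)), fun z hz => ?_⟩
  rcases le_total R ‖z‖ with h1 | h1
  · obtain ⟨h2, h3⟩ := Gre_big h hz h1
    rw [h3] at h1
    obtain ⟨h4, h5, h6⟩ := h.up z h1 h2.le
    rw [Gre_max h h1 h2.le, Gre_max h (by linarith [h.hR]) (by linarith [norm_nonneg (B (f z))])]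
    exact h6.trans (le_max_left _ _)
  · have h2 : Real.log (max 1 ‖f z‖) ≤ Real.log (max 1 M) :=
      Real.log_le_log (by positivity) (max_le_max_left _ (hM z h1))
    have h3 : d * Real.log (max 1 ‖z‖) ≤ d * Real.log (max 1 R) := mul_le_mul_of_nonneg_left
      (Real.log_le_log (by positivity) (max_le_max_left _ h1)) d.cast_nonneg
    have h4 := mul_nonneg d.cast_nonneg (Gre_log ‖z‖)
    refine le_trans (abs_le.2 ⟨?_, ?_⟩) (le_max_right _ _)
    · linarith [Gre_log ‖f z‖, Gre_log M]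
    · linarith

/- If `z, .., (f ^ k) z` are outside `NV` then `2 ^ k * R ≤ ‖B z‖` by `dn`. -/
theorem Flt.nv_enter (h : Flt f d R C A B) (ρ : ℝ) :
    ∃ k : ℕ, ∀ z, ‖z‖ ≤ ρ → (f ^ k) z ∈ NV R A B := by
  have key : ∀ (k : ℕ) (z : ℂ × ℂ), (f ^ k) z ∉ NV R A B → 2 ^ k * R ≤ ‖B z‖ := by
    intro k
    induction k with
    | zero => exact fun z hz => by simpa using (not_not.1 hz).1
    | succ k ih =>
      intro z hz
      rw [pow_succ f, Equiv.Perm.mul_apply] at hz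
      have h1 := not_not.1 fun h1 : f z ∈ NV R A B => hz (Gre_pow h h1 k)
      obtain ⟨-, h2, -⟩ := h.dn _ h1.1 h1.2
      rw [show f⁻¹ (f z) = z from f.symm_apply_apply z] at h2
      rw [pow_succ' 2, mul_assoc]
      linarith [ih _ hz]
  obtain ⟨k, hk⟩ := pow_unbounded_of_one_lt ρ (one_lt_two (α := ℝ))
  refine ⟨k, fun z hz => by_contra fun h1 => ?_⟩
  have h2 : (2 : ℝ) ^ k ≤ 2 ^ k * R := le_mul_of_one_le_right (by positivity) h.hR
  have h3 : ‖B z‖ ≤ ‖z‖ := by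
    rw [h.nrm]
    exact le_max_right _ _
  linarith [key k z h1]

theorem Gre_geo (h : Flt f d R C A B) : ∃ C' : ℝ, ∀ z ∈ NV R A B, ∀ n : ℕ,
    dist (Real.log (max 1 ‖(f ^ n) z‖) / (d : ℝ) ^ n)
      (Real.log (max 1 ‖(f ^ (n + 1)) z‖) / (d : ℝ) ^ (n + 1)) ≤ C' * ((d : ℝ)⁻¹) ^ n := by
  obtain ⟨C', hC⟩ := h.nv_step
  have hd : (0 : ℝ) < d := one_pos.trans h.hd
  refine ⟨C' / d, fun z hz n => ?_⟩
  have h1 := hC _ (Gre_pow h hz n)
  rw [pow_succ' f, Equiv.Perm.mul_apply, dist_comm, Real.dist_eq]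
  generalize Real.log (max 1 ‖f ((f ^ n) z)‖) = x at h1 ⊢
  generalize Real.log (max 1 ‖(f ^ n) z‖) = y at h1 ⊢
  have h2 : x / (d : ℝ) ^ (n + 1) - y / (d : ℝ) ^ n = (x - d * y) / (d : ℝ) ^ (n + 1) := by
    field_simp
    ring
  have h3 : C' / d * ((d : ℝ)⁻¹) ^ n = C' / (d : ℝ) ^ (n + 1) := by
    rw [inv_pow]
    field_simp
    ring
  rw [h2, h3, abs_div, abs_of_pos (pow_pos hd _)]
  exact div_le_div_of_nonneg_right h1 (pow_pos hd _).le

/- Geometric series (`cauchySeq_of_le_geometric`, `dist_le_of_le_geometric_of_tendsto`); for general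
`z` shift the sequence by `nv_enter`; `Tendsto.limUnder_eq`. -/
theorem Flt.green_tendsto (h : Flt f d R C A B) (z : ℂ × ℂ) :
    Tendsto (fun n : ℕ => Real.log (max 1 ‖(f ^ n) z‖) / (d : ℝ) ^ n) atTop (𝓝 (green f d z)) := by
  obtain ⟨C', hC⟩ := Gre_geo h
  obtain ⟨k, hk⟩ := h.nv_enter ‖z‖
  obtain ⟨a, ha⟩ := cauchySeq_tendsto_of_complete
    (cauchySeq_of_le_geometric _ _ (inv_lt_one_of_one_lt₀ h.hd) (hC _ (hk z le_rfl)))
  refine tendsto_nhds_limUnder ⟨a / (d : ℝ) ^ k, (tendsto_add_atTop_iff_nat k).1 ?_⟩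
  refine (ha.div_const _).congr fun n => ?_
  rw [pow_add, pow_add, Equiv.Perm.mul_apply, div_div]

theorem Flt.green_map (h : Flt f d R C A B) (z : ℂ × ℂ) : green f d (f z) = d * green f d z := by
  have hd : (d : ℝ) ≠ 0 := (one_pos.trans h.hd).ne'
  refine tendsto_nhds_unique (h.green_tendsto (f z))
    ((((tendsto_add_atTop_iff_nat 1).2 (h.green_tendsto z)).const_mul (d : ℝ)).congr fun n => ?_)
  rw [pow_succ f, Equiv.Perm.mul_apply]
  field_simp
  ring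

theorem Gre_green_pow (h : Flt f d R C A B) (n : ℕ) (z : ℂ × ℂ) :
    green f d ((f ^ n) z) = (d : ℝ) ^ n * green f d z := by
  induction n with
  | zero => simp
  | succ n ih => rw [pow_succ' f, Equiv.Perm.mul_apply, h.green_map, ih, pow_succ', mul_assoc]

theorem Flt.green_nv (h : Flt f d R C A B) : ∃ C' : ℝ, ∀ z ∈ NV R A B,
    |Real.log (max 1 ‖z‖) - green f d z| ≤ C' := by
  obtain ⟨C', hC⟩ := Gre_geo h
  refine ⟨C' / (1 - (d : ℝ)⁻¹), fun z hz => ?_⟩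
  simpa [Real.dist_eq] using dist_le_of_le_geometric_of_tendsto₀ _ _ (inv_lt_one_of_one_lt₀ h.hd)
    (hC z hz) (h.green_tendsto z)

/- From `green_nv`, `green_map`, `nv_enter`. -/
theorem Flt.green_unif (h : Flt f d R C A B) (ρ : ℝ) :
    TendstoUniformlyOn (fun (n : ℕ) z => Real.log (max 1 ‖(f ^ n) z‖) / (d : ℝ) ^ n) (green f d)
      atTop (closedBall 0 ρ) := by
  obtain ⟨C', hC⟩ := h.green_nv
  obtain ⟨k, hk⟩ := h.nv_enter ρ
  have hd : (0 : ℝ) < d := one_pos.trans h.hd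
  refine Metric.tendstoUniformlyOn_iff.2 fun ε hε => ?_
  filter_upwards [eventually_ge_atTop k, ((tendsto_pow_atTop_atTop_of_one_lt h.hd).const_div_atTop
    C').eventually (gt_mem_nhds hε)] with n hn h1 z hz
  have h2 := Gre_pow h (hk z (mem_closedBall_zero_iff.1 hz)) (n - k)
  rw [← Equiv.Perm.mul_apply, ← pow_add, Nat.sub_add_cancel hn] at h2
  have h3 := hC _ h2
  rw [Gre_green_pow h] at h3
  refine lt_of_le_of_lt ?_ h1
  rw [dist_comm, Real.dist_eq, div_sub' (pow_pos hd n).ne', abs_div, abs_of_pos (pow_pos hd n)]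
  exact div_le_div_of_nonneg_right h3 (pow_pos hd n).le

theorem Flt.green_continuous (h : Flt f d R C A B) : Continuous (green f d) := by
  refine continuous_iff_continuousAt.2 fun z => ?_
  refine ((h.green_unif (‖z‖ + 1)).continuousOn (Frequently.of_forall fun n => ?_)).continuousAt
    (closedBall_mem_nhds_of_mem (mem_ball_zero_iff.2 (lt_add_one _)))
  exact (((continuous_const.max (dif_pow h.df n).continuous.norm).log
    fun z => by positivity).div_const _).continuousOn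

theorem Flt.green_nonneg (h : Flt f d R C A B) (z : ℂ × ℂ) : 0 ≤ green f d z := by
  exact ge_of_tendsto' (h.green_tendsto z) fun n => div_nonneg (Gre_log _) (by positivity)

/- The orbit stays in the cone `2 ‖B‖ ≤ ‖A‖`, which lies in `NV`, and tends to infinity; `green_nv`. -/
theorem Flt.green_pos (h : Flt f d R C A B) {z : ℂ × ℂ} (h1 : R ≤ ‖A z‖) (h2 : ‖B z‖ ≤ ‖A z‖) :
    0 < green f d z := by
  obtain ⟨C', hC⟩ := h.green_nv
  refine (h.green_nonneg z).lt_of_ne fun h0 => ?_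
  obtain ⟨k, hk⟩ := pow_unbounded_of_one_lt (Real.exp C') (one_lt_two (α := ℝ))
  obtain ⟨h3, h4, -⟩ := h.up z h1 h2
  have h5 : f z ∈ NV R A B := fun h5 => by linarith [h5.1, h5.2, h.hR]
  have h6 := hC _ (Gre_pow h h5 k)
  obtain ⟨h7, h8⟩ := Gre_up h (z := f z) (by linarith [h.hR])
    (by linarith [norm_nonneg (B (f z))]) k
  have h9 : (2 : ℝ) ^ k ≤ 2 ^ k * R := le_mul_of_one_le_right (by positivity) h.hR
  have h10 : R ≤ 2 ^ k * R := le_mul_of_one_le_left (by linarith [h.hR]) (one_le_pow₀ one_le_two)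
  rw [Gre_green_pow h, h.green_map, ← h0, mul_zero, mul_zero, sub_zero,
    Gre_max h (h10.trans h7) h8] at h6
  linarith [Real.lt_log_iff_exp_lt (by linarith [h.hR]) |>.2 ((hk.trans_le h9).trans_le h7),
    le_abs_self (Real.log ‖A ((f ^ k) (f z))‖)]

/- The orbit is unbounded and eventually in `NV`, so some iterate `z'` has `R < ‖A z'‖`,
`‖B z'‖ < ‖A z'‖`, an open condition.  Near `ζ` the terms of the sequence are
`log ‖A ((f ^ n) (φ w))‖ / d ^ n` on a fixed ball, harmonic (`AnalyticAt.harmonicAt_log_norm`);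
`Hn.harmonic_of_lim`. -/
theorem Flt.green_harm (h : Flt f d R C A B) (φ : ℂ → ℂ × ℂ) (ζ : ℂ) (hφ : AnalyticAt ℂ φ ζ)
    (h0 : 0 < green f d (φ ζ)) : HarmonicAt (fun w => green f d (φ w)) ζ := by
  obtain ⟨C', hC⟩ := h.green_nv
  obtain ⟨k₀, hk₀⟩ := h.nv_enter ‖φ ζ‖
  obtain ⟨k, hk, h1⟩ := ((eventually_ge_atTop k₀).and (((tendsto_pow_atTop_atTop_of_one_lt
    h.hd).atTop_mul_const h0).eventually_gt_atTop (Real.log R + C'))).exists
  have h2 := Gre_pow h (hk₀ _ le_rfl) (k - k₀)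
  rw [← Equiv.Perm.mul_apply, ← pow_add, Nat.sub_add_cancel hk] at h2
  have h3 := hC _ h2
  rw [Gre_green_pow h] at h3
  have h4 : R < ‖(f ^ k) (φ ζ)‖ := by
    have h5 : R < max 1 ‖(f ^ k) (φ ζ)‖ :=
      (Real.log_lt_log_iff (by linarith [h.hR]) (by positivity)).1 (by linarith [(abs_le.1 h3).1])
    exact (lt_max_iff.1 h5).resolve_left (not_lt.2 h.hR)
  obtain ⟨h5, h6⟩ := Gre_big h h2 h4.le
  rw [h6] at h4
  have hc : ContinuousAt (fun w => (f ^ k) (φ w)) ζ :=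
    (dif_pow h.df k).continuous.continuousAt.comp hφ.continuousAt
  have hA := (A.continuous.continuousAt.comp hc).norm
  have hB := (B.continuous.continuousAt.comp hc).norm
  obtain ⟨r, hr, h7⟩ := Metric.eventually_nhds_iff_ball.1 (((hA.eventually (lt_mem_nhds h4)).and
    (hB.eventually_lt hA h5)).and (hφ.eventually_analyticAt.and
      (hφ.continuousAt.norm.eventually (gt_mem_nhds (lt_add_one _)))))
  refine Hn.harmonic_of_lim hr ?_ (((h.green_unif (‖φ ζ‖ + 1)).comp φ).mono fun t ht =>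
    mem_closedBall_zero_iff.2 (h7 t ht).2.2.le)
  filter_upwards [eventually_ge_atTop k] with n hn t ht
  have h8 : ∀ w ∈ ball ζ r, R ≤ ‖A ((f ^ n) (φ w))‖ ∧
      ‖B ((f ^ n) (φ w))‖ ≤ ‖A ((f ^ n) (φ w))‖ := fun w hw => by
    have h9 := Gre_up h (h7 w hw).1.1.le (h7 w hw).1.2.le (n - k)
    rw [← Equiv.Perm.mul_apply, ← pow_add, Nat.sub_add_cancel hn] at h9
    exact ⟨(le_mul_of_one_le_left (by linarith [h.hR]) (one_le_pow₀ one_le_two)).trans h9.1, h9.2⟩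
  have h9 : AnalyticAt ℂ (fun w => A ((f ^ n) (φ w))) t := DifferentiableOn.analyticAt
    (fun w hw => (A.differentiableAt.comp w (((dif_pow h.df n) _).comp w
      (h7 w hw).2.1.differentiableAt)).differentiableWithinAt) (isOpen_ball.mem_nhds ht)
  have h10 := (h9.harmonicAt_log_norm (norm_pos_iff.1 (by linarith [h.hR, (h8 t ht).1]))).const_smul
    (c := ((d : ℝ) ^ n)⁻¹)
  refine (harmonicAt_congr_nhds (eventually_of_mem (isOpen_ball.mem_nhds ht) fun w hw => ?_)).1 h10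
  simp only [Pi.smul_apply, smul_eq_mul, Function.comp_apply, Gre_max h (h8 w hw).1 (h8 w hw).2]
  rw [inv_mul_eq_div]

theorem Gre_zero (h : Flt f d R C A B) {z : ℂ × ℂ} (hz : green f d z = 0) : z ∈ NV R B A :=
  fun h1 => (h.green_pos h1.1 h1.2).ne' hz

/- If `green f⁻¹ d z = 0` then `z` and `f⁻¹ z` are in `NV` (`green_pos` for `h.symm`). -/
theorem Flt.hd' (h : Flt f d R C A B) : HD f d (green f d) (green f⁻¹ d) := by
  obtain ⟨C₁, h1⟩ := h.green_nv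
  obtain ⟨C₂, h2⟩ := h.symm.green_nv
  exact ⟨h.df, h.di, h.hd, h.green_continuous, h.symm.green_continuous, h.green_nonneg,
    h.symm.green_nonneg, h.green_map, h.symm.green_map, h.green_harm, h.symm.green_harm,
    ⟨C₁, fun z hz => h1 z (Gre_zero h.symm hz)⟩, ⟨C₂, fun z hz => h2 z (Gre_zero h hz)⟩⟩

/- Let `z' = f⁻¹ z ∈ NV`.  If `‖z'‖ ≤ R` then `z` is bounded, otherwise `up` applies to `z'`. -/
theorem Flt.cone (h : Flt f d R C A B) : ∃ R' : ℝ, ∀ z, green f⁻¹ d z = 0 →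
    ‖B z‖ ≤ max R' (‖A z‖ / 2) := by
  obtain ⟨M, hM⟩ := Gre_bd h
  refine ⟨M, fun z hz => ?_⟩
  have h1 : f⁻¹ z ∈ NV R A B := Gre_zero h.symm (by rw [h.symm.green_map, hz, mul_zero])
  rcases le_total R ‖f⁻¹ z‖ with h2 | h2
  · obtain ⟨h3, h4⟩ := Gre_big h h1 h2
    obtain ⟨h5, -⟩ := h.up _ (h4 ▸ h2) h3.le
    rw [show f (f⁻¹ z) = z from f.apply_symm_apply z] at h5
    exact le_max_of_le_right (by linarith)
  · have h3 := hM _ h2
    rw [show f (f⁻¹ z) = z from f.apply_symm_apply z, h.nrm] at h3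
    exact le_max_of_le_left ((le_max_right _ _).trans h3)

theorem hd_gen {L : List (ℂˣ × Polynomial ℂ)} (h : IsHenon L) :
    HD (comp L) (deg L) (green (comp L) (deg L)) (green (comp L)⁻¹ (deg L)) ∧
      Fil (green (comp L) (deg L)) (green (comp L)⁻¹ (deg L)) := by
  obtain ⟨R, C, h1⟩ := flt_gen h
  obtain ⟨R₁, h2⟩ := h1.cone
  obtain ⟨R₂, h3⟩ := h1.symm.cone
  exact ⟨h1.hd', max R₁ R₂, fun z hz => (h2 z hz).trans (max_le_max_right _ (le_max_left _ _)),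
    fun z hz => (h3 z hz).trans (max_le_max_right _ (le_max_right _ _))⟩

end Pool.Agent.Lib.MP_7b5e47_an.Hq
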