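import Pool.Agent.Lib.MP_7b5e47_an.Hq.Lnd
import Pool.Agent.Lib.MP_7b5e47_an.Hq.Gre

/-! The theorem for generalized Henon maps. -/

namespace Pool.Agent.Lib.MP_7b5e47_an.Hq

open Set Metric Filter Topology Polynomial
open Pool.Agent.Lib.MP_7b5e47_an.Hn

theorem qe_of {F : Equiv.Perm (ℂ × ℂ)} {d : ℕ} (h : QuasiExpanding F d) :
    ∃ κ, QE F (green F d) κ := by
  obtain ⟨κ, h1, h2⟩ := h
  refine ⟨κ, h1, fun ψ ψ' l a b e => h2 (ψ 0) ψ ψ' l a.1.sad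
    ⟨⟨a.1.imm.dif, a.1.imm.inj, a.1.ran⟩, rfl, a.2⟩ ?_ e⟩
  have e0 : F (ψ 0) = ψ' 0 := by simpa using e 0
  rw [e0]
  exact ⟨⟨b.1.imm.dif, b.1.imm.inj, b.1.ran⟩, rfl, b.2⟩

theorem par_of {F : Equiv.Perm (ℂ × ℂ)} {d : ℝ} {G H : ℂ × ℂ → ℝ} (hd : HD F d G H) {p : ℂ × ℂ}
    (hp : IsSaddle F p) {ξ : ℂ → ℂ × ℂ} (hξ : IsUParam F p ξ) : Par F ξ := by
  obtain ⟨N, ψ, σ, l, m, -, -, hc, -⟩ := saddle_chart hd hp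
  obtain ⟨a, b, ha, e⟩ := hc.imm.eq_aff hξ.1 hξ.2.1 (by rw [hξ.2.2, hc.ran])
  have e' : ξ = fun z => ψ (b + a * z) := funext e
  exact ⟨p, e' ▸ hc.aff ha b⟩

theorem main (L : List (ℂˣ × ℂ[X])) (hL : IsHenon L)
    (hD : ∀ z, ‖(fderiv ℂ (⇑(comp L)) z).det‖ < 1) (hu : QuasiExpanding (comp L) (deg L))
    (hs : QuasiExpanding (comp L)⁻¹ (deg L)) (p : ℂ × ℂ) (ξ : ℂ → ℂ × ℂ) (γ : ℝ → ℂ)
    (hp : IsSaddle (comp L) p) (hξ : IsUParam (comp L) p ξ) (hγ : IsRay (comp L) (deg L) ξ γ) :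
    ∃ z ∈ Jul (comp L), Tendsto (fun t => ξ (γ t)) atTop (𝓝 z) := by
  obtain ⟨hd, fil⟩ := hd_gen hL
  have h : QH (comp L) (deg L) _ _ := ⟨hd, fil, hD, qe_of hu, qe_of hs⟩
  have hP := par_of hd hp hξ
  obtain ⟨z, hz, hl⟩ := landing h hP (fun t ht => ⟨lt_of_le_of_ne (hd.nG _) fun e =>
    (hγ.1 t ht).1 ((hd.mem_Kp _).2 e.symm), (hγ.1 t ht).2⟩) hγ.2
  exact ⟨ξ z, JS_sub_Jul hd (bd_JS hd fil hD hP hz), (hξ.1.continuous.tendsto z).comp hl⟩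

end Pool.Agent.Lib.MP_7b5e47_an.Hq
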