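import Pool.Agent.Lib.MP_7b5e47_an.Hq.Base

/-! The filtration of a generalized Henon map. -/

namespace Pool.Agent.Lib.MP_7b5e47_an.Hq

open Set Metric Filter Topology
open Pool.Agent.Lib.MP_7b5e47_an.Hn (hen comp deg IsHenon)

/-- The filtration, for two coordinates `A`, `B`. -/
structure Flt (f : Equiv.Perm (ℂ × ℂ)) (d R C : ℝ) (A B : ℂ × ℂ →L[ℂ] ℂ) : Prop where
  nrm : ∀ z, ‖z‖ = max ‖A z‖ ‖B z‖
  hR : 1 ≤ R
  hd : 1 < d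
  df : Differentiable ℂ (⇑f)
  di : Differentiable ℂ (⇑f⁻¹)
  up : ∀ z, R ≤ ‖A z‖ → ‖B z‖ ≤ ‖A z‖ → 2 * ‖B (f z)‖ ≤ ‖A (f z)‖ ∧ 2 * ‖A z‖ ≤ ‖A (f z)‖ ∧
    |Real.log ‖A (f z)‖ - d * Real.log ‖A z‖| ≤ C
  dn : ∀ z, R ≤ ‖B z‖ → ‖A z‖ ≤ ‖B z‖ → 2 * ‖A (f⁻¹ z)‖ ≤ ‖B (f⁻¹ z)‖ ∧
    2 * ‖B z‖ ≤ ‖B (f⁻¹ z)‖ ∧ |Real.log ‖B (f⁻¹ z)‖ - d * Real.log ‖B z‖| ≤ C

variable {f g : Equiv.Perm (ℂ × ℂ)} {d e R C C' : ℝ} {A B : ℂ × ℂ →L[ℂ] ℂ}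

theorem Flt.symm (h : Flt f d R C A B) : Flt f⁻¹ d R C B A :=
  ⟨fun z => (h.nrm z).trans (max_comm _ _), h.hR, h.hd, h.di, by simpa using h.df, h.dn,
    by simpa using h.up⟩

theorem Flt_up (h : Flt f d R C A B) (h' : Flt g e R C' A B) (z : ℂ × ℂ) (h1 : R ≤ ‖A z‖)
    (h2 : ‖B z‖ ≤ ‖A z‖) : 2 * ‖B (f (g z))‖ ≤ ‖A (f (g z))‖ ∧ 2 * ‖A z‖ ≤ ‖A (f (g z))‖ ∧
      |Real.log ‖A (f (g z))‖ - d * e * Real.log ‖A z‖| ≤ C + d * C' := by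
  obtain ⟨a1, a2, a3⟩ := h'.up z h1 h2
  have n1 := norm_nonneg (A z)
  have n2 := norm_nonneg (B (g z))
  obtain ⟨b1, b2, b3⟩ := h.up (g z) (by linarith) (by linarith)
  refine ⟨b1, by linarith, ?_⟩
  have hd : 0 ≤ d := by linarith [h.hd]
  have e1 : Real.log ‖A (f (g z))‖ - d * e * Real.log ‖A z‖ =
      (Real.log ‖A (f (g z))‖ - d * Real.log ‖A (g z)‖) +
        d * (Real.log ‖A (g z)‖ - e * Real.log ‖A z‖) := by ring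
  rw [e1]
  refine (abs_add_le _ _).trans (add_le_add b3 ?_)
  rw [abs_mul, abs_of_nonneg hd]
  exact mul_le_mul_of_nonneg_left a3 hd

theorem Flt.mul (h : Flt f d R C A B) (h' : Flt g e R C' A B) :
    ∃ C'', Flt (f * g) (d * e) R C'' A B := by
  refine ⟨max (C + d * C') (C' + e * C), h.nrm, h.hR, by nlinarith [h.hd, h'.hd],
    h.df.comp h'.df, ?_, fun z h1 h2 => ?_, fun z h1 h2 => ?_⟩
  · rw [mul_inv_rev]
    exact h'.di.comp h.di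
  · obtain ⟨a1, a2, a3⟩ := Flt_up h h' z h1 h2
    exact ⟨a1, a2, a3.trans (le_max_left _ _)⟩
  · obtain ⟨a1, a2, a3⟩ := Flt_up h'.symm h.symm z h1 h2
    rw [mul_inv_rev, mul_comm d e]
    exact ⟨a1, a2, a3.trans (le_max_right _ _)⟩

/- For large `|x|` and `|y| ≤ |x|` the number `|P x + b y|` is between `|c| / 2 * |x| ^ n` and
`2 |c| |x| ^ n` (`c` the leading coefficient, `n ≥ 2` the degree): write `P` as the sum of its monomials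
(`Polynomial.eval_eq_sum_range`), or use `Polynomial.isEquivalent_cobounded_leading_monomial`. -/
theorem poly_est (P : Polynomial ℂ) (hP : 2 ≤ P.natDegree) (b s : ℂ) (hs : s ≠ 0) :
    ∃ R₀ C : ℝ, 1 ≤ R₀ ∧ ∀ x y : ℂ, R₀ ≤ ‖x‖ → ‖y‖ ≤ ‖x‖ → 2 * ‖x‖ ≤ ‖s * (b * y + P.eval x)‖ ∧
      |Real.log ‖s * (b * y + P.eval x)‖ - P.natDegree * Real.log ‖x‖| ≤ C := by
  have hP0 : P ≠ 0 := by
    rintro rfl
    simp at hP
  have hc : 0 < ‖P.leadingCoeff‖ := norm_pos_iff.2 (Polynomial.leadingCoeff_ne_zero.2 hP0)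
  have hs0 : 0 < ‖s‖ := norm_pos_iff.2 hs
  have h1 := (Polynomial.isEquivalent_cobounded_leading_monomial (P := P)).isLittleO.def
    (show (0 : ℝ) < 1 / 4 by norm_num)
  obtain ⟨R₁, -, hR₁⟩ := Filter.hasBasis_cobounded_norm.eventually_iff.1 h1
  obtain ⟨c, hcdef⟩ : ∃ c, c = ‖P.leadingCoeff‖ := ⟨_, rfl⟩
  rw [← hcdef] at hc
  refine ⟨max 1 (max R₁ (max (4 * ‖b‖ / c) (4 / (‖s‖ * c)))), |Real.log (‖s‖ * c)| + Real.log 2,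
    le_max_left _ _, fun x y hx hy => ?_⟩
  simp only [max_le_iff] at hx
  obtain ⟨x1, x2, x3, x4⟩ := hx
  have hx0 : 0 < ‖x‖ := by linarith
  rw [div_le_iff₀ hc] at x3
  rw [div_le_iff₀ (mul_pos hs0 hc)] at x4
  obtain ⟨T, hT⟩ : ∃ T, T = ‖x‖ ^ P.natDegree := ⟨_, rfl⟩
  have hT0 : 0 < T := hT ▸ pow_pos hx0 _
  have hT2 : ‖x‖ * ‖x‖ ≤ T := by
    rw [hT, ← sq]
    exact pow_le_pow_right₀ x1 hP
  have hm : ‖P.leadingCoeff * x ^ P.natDegree‖ = c * T := by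
    rw [norm_mul, norm_pow, hcdef, hT]
  have h2 : ‖P.eval x - P.leadingCoeff * x ^ P.natDegree‖ ≤ 1 / 4 * (c * T) := by
    have := hR₁ x2
    rwa [hm] at this
  have h3 : ‖b * y‖ ≤ 1 / 4 * (c * T) := by
    rw [norm_mul]
    have h4 : ‖b‖ * ‖y‖ ≤ ‖b‖ * ‖x‖ := mul_le_mul_of_nonneg_left hy (norm_nonneg _)
    have h5 : 4 * ‖b‖ * ‖x‖ ≤ ‖x‖ * c * ‖x‖ := mul_le_mul_of_nonneg_right x3 hx0.le
    have h6 : c * (‖x‖ * ‖x‖) ≤ c * T := mul_le_mul_of_nonneg_left hT2 hc.le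
    linarith
  have h4 : ‖b * y + P.eval x - P.leadingCoeff * x ^ P.natDegree‖ ≤ 1 / 2 * (c * T) := by
    rw [add_sub_assoc]
    linarith [norm_add_le (b * y) (P.eval x - P.leadingCoeff * x ^ P.natDegree)]
  have h5 := abs_le.1 ((abs_norm_sub_norm_le _ _).trans h4)
  rw [hm] at h5
  obtain ⟨N, hN⟩ : ∃ N, N = ‖b * y + P.eval x‖ := ⟨_, rfl⟩
  rw [norm_mul, ← hN]
  rw [← hN] at h5
  have hcT : 0 < c * T := mul_pos hc hT0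
  have h6 : ‖s‖ * c * T / 2 ≤ ‖s‖ * N := by
    have : ‖s‖ * (c * T / 2) ≤ ‖s‖ * N := mul_le_mul_of_nonneg_left (by linarith [h5.1]) hs0.le
    linarith
  have h7 : ‖s‖ * N ≤ ‖s‖ * c * T * 2 := by
    have : ‖s‖ * N ≤ ‖s‖ * (c * T * 2) := mul_le_mul_of_nonneg_left (by linarith [h5.2]) hs0.le
    linarith
  have hsc : 0 < ‖s‖ * c := mul_pos hs0 hc
  refine ⟨?_, ?_⟩
  · have h8 : 4 * ‖x‖ ≤ ‖x‖ * (‖s‖ * c) * ‖x‖ := mul_le_mul_of_nonneg_right x4 hx0.le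
    have h9 : ‖s‖ * c * (‖x‖ * ‖x‖) ≤ ‖s‖ * c * T := mul_le_mul_of_nonneg_left hT2 hsc.le
    linarith
  · have h8 := Real.log_le_log (by positivity) h6
    have h9 := Real.log_le_log (lt_of_lt_of_le (by positivity) h6) h7
    rw [Real.log_div (by positivity) two_ne_zero, Real.log_mul hsc.ne' hT0.ne'] at h8
    rw [Real.log_mul (mul_pos hsc hT0).ne' two_ne_zero, Real.log_mul hsc.ne' hT0.ne'] at h9
    rw [← Real.log_pow, ← hT]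
    exact abs_le.2 ⟨by linarith [neg_abs_le (Real.log (‖s‖ * c))],
      by linarith [le_abs_self (Real.log (‖s‖ * c))]⟩

theorem flt_henon (a : ℂˣ) (P : Polynomial ℂ) (hP : 2 ≤ P.natDegree) : ∃ R₀ C : ℝ, ∀ R, R₀ ≤ R →
    Flt (hen a P) P.natDegree R C (ContinuousLinearMap.fst ℂ ℂ ℂ)
      (ContinuousLinearMap.snd ℂ ℂ ℂ) := by
  obtain ⟨R₁, C₁, h₁, H₁⟩ := poly_est P hP a 1 one_ne_zero
  obtain ⟨R₂, C₂, -, H₂⟩ := poly_est P hP (-1) (-((a⁻¹ : ℂˣ) : ℂ)) (neg_ne_zero.2 (Units.ne_zero _))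
  refine ⟨max R₁ R₂, max C₁ C₂, fun R hR => ⟨fun z => rfl, h₁.trans ((le_max_left _ _).trans hR),
    by exact_mod_cast hP, ?_, ?_, fun z h1 h2 => ?_, fun z h1 h2 => ?_⟩⟩
  · change Differentiable ℂ fun z : ℂ × ℂ => ((a : ℂ) * z.2 + P.eval z.1, z.1)
    exact ((differentiable_snd.const_mul _).add (P.differentiable.comp differentiable_fst)).prodMk
      differentiable_fst
  · change Differentiable ℂ fun z : ℂ × ℂ => (z.2, ((a⁻¹ : ℂˣ) : ℂ) * (z.1 - P.eval z.2))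
    exact differentiable_snd.prodMk
      ((differentiable_fst.sub (P.differentiable.comp differentiable_snd)).const_mul _)
  · obtain ⟨a1, a2⟩ := H₁ z.1 z.2 ((le_max_left _ _).trans (hR.trans h1)) h2
    rw [one_mul] at a1 a2
    exact ⟨a1, a1, a2.trans (le_max_left _ _)⟩
  · obtain ⟨a1, a2⟩ := H₂ z.2 z.1 ((le_max_right _ _).trans (hR.trans h1)) h2
    rw [show -((a⁻¹ : ℂˣ) : ℂ) * (-1 * z.1 + P.eval z.2) =
      ((a⁻¹ : ℂˣ) : ℂ) * (z.1 - P.eval z.2) by ring] at a1 a2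
    exact ⟨a1, a1, a2.trans (le_max_right _ _)⟩

theorem Flt_list (L : List (ℂˣ × Polynomial ℂ)) (h : IsHenon L) : ∃ R₀ : ℝ, ∀ R, R₀ ≤ R → ∃ C : ℝ,
    Flt (comp L) (deg L) R C (ContinuousLinearMap.fst ℂ ℂ ℂ) (ContinuousLinearMap.snd ℂ ℂ ℂ) := by
  induction L with
  | nil => exact absurd rfl h.1
  | cons x L ih =>
    obtain ⟨R₁, C₁, H₁⟩ := flt_henon x.1 x.2 (h.2 x (List.mem_cons_self ..))
    by_cases hL : L = []
    · subst hL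
      refine ⟨R₁, fun R hR => ⟨C₁, ?_⟩⟩
      simpa [comp, deg] using H₁ R hR
    · obtain ⟨R₂, H₂⟩ := ih ⟨hL, fun y hy => h.2 y (List.mem_cons_of_mem _ hy)⟩
      refine ⟨max R₁ R₂, fun R hR => ?_⟩
      obtain ⟨C₂, H₃⟩ := H₂ R ((le_max_right _ _).trans hR)
      obtain ⟨C, H⟩ := (H₁ R ((le_max_left _ _).trans hR)).mul H₃
      refine ⟨C, ?_⟩
      simpa [comp, deg] using H

/- Induction on the list, for the statement `∃ R₀, ∀ R ≥ R₀, ∃ C, Flt ..`. -/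
theorem flt_gen {L : List (ℂˣ × Polynomial ℂ)} (h : IsHenon L) : ∃ R C : ℝ,
    Flt (comp L) (deg L) R C (ContinuousLinearMap.fst ℂ ℂ ℂ) (ContinuousLinearMap.snd ℂ ℂ ℂ) := by
  obtain ⟨R, H⟩ := Flt_list L h
  exact ⟨R, H R le_rfl⟩

end Pool.Agent.Lib.MP_7b5e47_an.Hq
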