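import Pool.Agent.Lib.MP_7b5e47_an.Hn.Stmt

/-! The abstract data used in the proof. -/

namespace Pool.Agent.Lib.MP_7b5e47_an.Hq

open Set Metric Filter Topology InnerProductSpace
open Pool.Agent.Lib.MP_7b5e47_an.Hn (Kp Jul IsSaddle Wu)

/-- An automorphism with its two Green functions. -/
structure HD (f : Equiv.Perm (ℂ × ℂ)) (d : ℝ) (G H : ℂ × ℂ → ℝ) : Prop where
  df : Differentiable ℂ (⇑f)
  di : Differentiable ℂ (⇑f⁻¹)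
  hd : 1 < d
  cG : Continuous G
  cH : Continuous H
  nG : ∀ z, 0 ≤ G z
  nH : ∀ z, 0 ≤ H z
  eG : ∀ z, G (f z) = d * G z
  eH : ∀ z, H (f⁻¹ z) = d * H z
  hG : ∀ (φ : ℂ → ℂ × ℂ) (ζ : ℂ), AnalyticAt ℂ φ ζ → 0 < G (φ ζ) → HarmonicAt (fun w => G (φ w)) ζ
  hH : ∀ (φ : ℂ → ℂ × ℂ) (ζ : ℂ), AnalyticAt ℂ φ ζ → 0 < H (φ ζ) → HarmonicAt (fun w => H (φ w)) ζ
  bG : ∃ C : ℝ, ∀ z, H z = 0 → |Real.log (max 1 ‖z‖) - G z| ≤ C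
  bH : ∃ C : ℝ, ∀ z, G z = 0 → |Real.log (max 1 ‖z‖) - H z| ≤ C

/-- The position of the two invariant sets. -/
def Fil (G H : ℂ × ℂ → ℝ) : Prop :=
  ∃ R : ℝ, (∀ z, H z = 0 → ‖z.2‖ ≤ max R (‖z.1‖ / 2)) ∧ ∀ z, G z = 0 → ‖z.1‖ ≤ max R (‖z.2‖ / 2)

/-- Dissipativity. -/
def Dis (f : Equiv.Perm (ℂ × ℂ)) : Prop := ∀ z, ‖(fderiv ℂ (⇑f) z).det‖ < 1

/-- The closure of the set of saddles. -/
def JS (f : Equiv.Perm (ℂ × ℂ)) : Set (ℂ × ℂ) := closure {q | IsSaddle f q}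

/-- An entire injective immersion. -/
structure Imm (ψ : ℂ → ℂ × ℂ) : Prop where
  dif : Differentiable ℂ ψ
  inj : Function.Injective ψ
  der : ∀ z, deriv ψ z ≠ 0

/-- An immersed parametrization of the unstable manifold of the saddle `q`. -/
structure Cur (f : Equiv.Perm (ℂ × ℂ)) (q : ℂ × ℂ) (ψ : ℂ → ℂ × ℂ) : Prop where
  sad : IsSaddle f q
  imm : Imm ψ
  ran : range ψ = Wu f q

/-- An immersed parametrization of the unstable manifold of some saddle. -/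
def Par (f : Equiv.Perm (ℂ × ℂ)) (ψ : ℂ → ℂ × ℂ) : Prop := ∃ q, Cur f q ψ

/-- A normalized parametrization. -/
def Nor (f : Equiv.Perm (ℂ × ℂ)) (G : ℂ × ℂ → ℝ) (ψ : ℂ → ℂ × ℂ) : Prop :=
  Cur f (ψ 0) ψ ∧ IsGreatest ((fun ζ => G (ψ ζ)) '' closedBall 0 1) 1

/-- Quasi-expansion, for the immersed normalized parametrizations. -/
def QE (f : Equiv.Perm (ℂ × ℂ)) (G : ℂ × ℂ → ℝ) (κ : ℝ) : Prop :=
  1 < κ ∧ ∀ (ψ ψ' : ℂ → ℂ × ℂ) (l : ℂ), Nor f G ψ → Nor f G ψ' → (∀ ζ, f (ψ ζ) = ψ' (l * ζ)) →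
    κ ≤ ‖l‖

/-- A limit of normalized parametrizations. -/
def Hat (f : Equiv.Perm (ℂ × ℂ)) (G : ℂ × ℂ → ℝ) (ψ : ℂ → ℂ × ℂ) : Prop :=
  Differentiable ℂ ψ ∧ ∃ φ : ℕ → ℂ → ℂ × ℂ, (∀ j, Nor f G (φ j)) ∧
    TendstoLocallyUniformly φ ψ atTop

/-- The full set of hypotheses. -/
structure QH (f : Equiv.Perm (ℂ × ℂ)) (d : ℝ) (G H : ℂ × ℂ → ℝ) : Prop where
  hd : HD f d G H
  fil : Fil G H
  dis : Dis f
  qu : ∃ κ, QE f G κ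
  qs : ∃ κ, QE f⁻¹ H κ

/-- The two linearizing curves of a fixed saddle. -/
structure Chart (f : Equiv.Perm (ℂ × ℂ)) (p : ℂ × ℂ) (ψ σ : ℂ → ℂ × ℂ) (l m : ℂ) : Prop where
  iu : Imm ψ
  is : Imm σ
  u0 : ψ 0 = p
  s0 : σ 0 = p
  fu : ∀ z, f (ψ z) = ψ (l * z)
  fs : ∀ z, f (σ z) = σ (m * z)
  hl : 1 < ‖l‖
  hm : ‖m‖ < 1
  m0 : m ≠ 0
  tv : (deriv ψ 0).1 * (deriv σ 0).2 - (deriv ψ 0).2 * (deriv σ 0).1 ≠ 0
  det : (fderiv ℂ (⇑f) p).det = l * m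

/-- The coordinates given by the two curves. -/
noncomputable def Th (p : ℂ × ℂ) (ψ σ : ℂ → ℂ × ℂ) (γ : ℂ × ℂ) : ℂ × ℂ := ψ γ.1 + σ γ.2 - p

/-- The maximum of `g` on a closed disc. -/
noncomputable def MM (g : ℂ → ℝ) (w : ℂ) (r : ℝ) : ℝ := sSup (g '' closedBall w r)

/-- Doubling at `w` up to the radius `r₀`. -/
def DBl (g : ℂ → ℝ) (w : ℂ) (C r₀ : ℝ) : Prop :=
  g w = 0 ∧ ∀ r, 0 < r → 2 * r ≤ r₀ → MM g w (2 * r) ≤ C * MM g w r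

/-- Doubling at `w`. -/
def DB (g : ℂ → ℝ) (w : ℂ) (C : ℝ) : Prop := ∀ r₀, DBl g w C r₀

/-- The boundary of the zero set. -/
def bdK (g : ℂ → ℝ) : Set ℂ := frontier {z | g z = 0}

end Pool.Agent.Lib.MP_7b5e47_an.Hq
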