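import Pool.Agent.Lib.MP_7b5e47_an.Hq.J1Def

/-! Following the second curve along a segment; the minimum principle for the distance. -/

namespace Pool.Agent.Lib.MP_7b5e47_an.Hq

open MeasureTheory Set Metric Filter Topology

theorem J1Trk_neg {f : ℝ → ℝ} {f' y : ℝ} (h : HasDerivAt f f' y) (hn : f' < 0) :
    ∀ᶠ z in 𝓝[>] y, f z < f y := by
  have h1 := (hasDerivAt_iff_tendsto_slope.1 h).eventually (gt_mem_nhds hn)
  have h2 : 𝓝[>] y ≤ 𝓝[≠] y := nhdsWithin_mono _ fun z hz => ne_of_gt hz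
  filter_upwards [h2 h1, self_mem_nhdsWithin] with z hz hy
  have hy' : 0 < z - y := sub_pos.2 hy
  rw [slope_def_field, div_lt_iff₀ hy'] at hz
  linarith

theorem J1Trk_mono {K : ℝ → ℝ} (hK : Continuous K) (K0 : ∀ y, 0 ≤ K y) {y z : ℝ} (h : y ≤ z) :
    ∫ x in (0 : ℝ)..y, K x ≤ ∫ x in (0 : ℝ)..z, K x := by
  have h1 := intervalIntegral.integral_interval_sub_left (hK.intervalIntegrable (μ := volume) 0 z)
    (hK.intervalIntegrable 0 y)
  have h2 : 0 ≤ ∫ x in y..z, K x := intervalIntegral.integral_nonneg h fun u _ => K0 u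
  linarith

theorem J1Trk_nsq {g : ℂ → ℂ × ℂ} {e : ℂ × ℂ} {y : ℝ} (h : HasDerivAt g e (y : ℂ)) :
    HasDerivAt (fun z : ℝ => nsq (g z)) (2 * (hp e (g y)).re) y := by
  have h1 : HasDerivAt (fun z : ℝ => (g z).1) e.1 y :=
    HasDerivAt.comp_ofReal (e := fun w => (g w).1) h.fst
  have h2 : HasDerivAt (fun z : ℝ => (g z).2) e.2 y :=
    HasDerivAt.comp_ofReal (e := fun w => (g w).2) h.snd
  refine (h1.norm_sq.add h2.norm_sq).congr_deriv ?_
  simp only [hp, Complex.inner, Complex.add_re]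
  ring

theorem J1Trk_alg {A B Φ : ℂ × ℂ} {v : ℂ} (hv : ‖v‖ = 1) (hB : B ≠ 0) {J K Q : ℝ} (J0 : 0 ≤ J)
    (K0 : 0 ≤ K) (hQ : nsq Φ ≤ Q) (h1 : ‖wd A B‖ ^ 2 ≤ J ^ 2 * Q * nsq B)
    (h2 : nsq A ≤ K ^ 2 * nsq B) :
    ∃ α : ℂ, ‖α‖ ≤ K ∧ (hp (v • A - α • B) Φ).re ≤ J * Q := by
  have hN := nsq_pos hB
  have hN' : ((nsq B : ℝ) : ℂ) ≠ 0 := by exact_mod_cast hN.ne'
  have hQ0 : 0 ≤ Q := (nsq_nonneg Φ).trans hQ
  refine ⟨hp (v • A) B / (nsq B : ℂ), ?_, ?_⟩
  · rw [norm_div, Complex.norm_real, Real.norm_of_nonneg hN.le, div_le_iff₀ hN]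
    refine (pow_le_pow_iff_left₀ (norm_nonneg _) (by positivity) two_ne_zero).1 ?_
    have h3 := lagrange (v • A) B
    rw [nsq_smul, hv, one_pow, one_mul] at h3
    have h4 := mul_le_mul_of_nonneg_right h2 hN.le
    nlinarith [sq_nonneg ‖wd (v • A) B‖]
  · set e := v • A - (hp (v • A) B / (nsq B : ℂ)) • B with he
    have e1 : hp e B = 0 := by
      have : hp e B = hp (v • A) B - hp (v • A) B / (nsq B : ℂ) * hp B B := by
        simp only [he, hp, Prod.fst_sub, Prod.snd_sub, Prod.smul_fst, Prod.smul_snd, smul_eq_mul]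
        ring
      rw [this, hp_self, div_mul_cancel₀ _ hN', sub_self]
    have e2 : wd e B = v * wd A B := by
      simp only [he, wd, Prod.fst_sub, Prod.snd_sub, Prod.smul_fst, Prod.smul_snd, smul_eq_mul]
      ring
    have h3 := lagrange e B
    rw [e1, e2, norm_zero, norm_mul, hv, one_mul] at h3
    have h4 : nsq e ≤ J ^ 2 * Q := le_of_mul_le_mul_right (by nlinarith) hN
    have h5 := lagrange e Φ
    refine (Complex.re_le_norm _).trans ?_
    refine (pow_le_pow_iff_left₀ (norm_nonneg _) (by positivity) two_ne_zero).1 ?_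
    have h6 := mul_le_mul h4 hQ (nsq_nonneg Φ) (by positivity)
    nlinarith [sq_nonneg ‖wd e Φ‖]

/- Let `Q y t = Aq a b (s₀ + y v, t) + r'²`, and `δ > 0` with
`log (Q 0 t₀) + 2 ∫ J + δ lam < log r₀²`, `∫ K + δ lam < 1`. Let `S` be the set of `y` such that there is
`t` with `‖t - t₀‖ ≤ ∫₀^y K + δ y` and `log (Q y t) ≤ log (Q 0 t₀) + 2 ∫₀^y J + δ y`. `S ∩ Icc 0 lam` is closed
(projection along the compact `closedBall t₀ 1`: it is the image under `Prod.fst` of a compact set),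
`0 ∈ S`. If `y ∈ S`, `y < y₁ ≤ lam`, with witness `t`, put `α = hp (v • a') b' / nsq b'` and
`t' = t + (y' - y) α`. Then `‖α‖ ≤ K y` (`lagrange`), the derivative of `Φ` along the path at `y` is
`e = v • a' - α • b'` with `nsq e * nsq b' = ‖wd a' b'‖²`, the derivative of `Q` is `2 re (hp e Φ)`, at most
`2 J y Q`; so `y' ↦ log Q - 2 ∫₀^y' J - δ y'` and `y' ↦ (y' - y) ‖α‖ - ∫_y^y' K - δ (y' - y)` have negative
derivative at `y` (`intervalIntegral.integral_hasDerivAt_right`, `Continuous.deriv_integral`), hence some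
`y' ∈ Ioc y y₁` is in `S`. `IsClosed.Icc_subset_of_forall_exists_gt`. -/
theorem track {a b : ℂ → ℂ × ℂ} (ha : Differentiable ℂ a) (hb : Differentiable ℂ b) {s₀ v t₀ : ℂ}
    (hv : ‖v‖ = 1) {lam r' r₀ : ℝ} (hl : 0 ≤ lam) (hr' : 0 < r') (hr₀ : 0 < r₀) {J K : ℝ → ℝ}
    (hJ : Continuous J) (hK : Continuous K) (J0 : ∀ y, 0 ≤ J y) (K0 : ∀ y, 0 ≤ K y)
    (h : ∀ y ∈ Icc 0 lam, ∀ t : ℂ, ‖t - t₀‖ ≤ 1 → Aq a b (s₀ + y * v, t) + r' ^ 2 ≤ r₀ ^ 2 →
      deriv b t ≠ 0 ∧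
      ‖wd (deriv a (s₀ + y * v)) (deriv b t)‖ ^ 2 ≤
        J y ^ 2 * (Aq a b (s₀ + y * v, t) + r' ^ 2) * nsq (deriv b t) ∧
      nsq (deriv a (s₀ + y * v)) ≤ K y ^ 2 * nsq (deriv b t))
    (h1 : Real.log (Aq a b (s₀, t₀) + r' ^ 2) + 2 * ∫ y in (0 : ℝ)..lam, J y < Real.log (r₀ ^ 2))
    (h2 : ∫ y in (0 : ℝ)..lam, K y < 1) :
    ∀ y ∈ Icc 0 lam, ∃ t : ℂ, ‖t - t₀‖ ≤ 1 ∧ Aq a b (s₀ + y * v, t) + r' ^ 2 ≤ r₀ ^ 2 := by
  obtain ⟨δ, hδ, hδ1, hδ2⟩ : ∃ δ : ℝ, 0 < δ ∧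
      Real.log (Aq a b (s₀, t₀) + r' ^ 2) + 2 * (∫ y in (0 : ℝ)..lam, J y) + δ * lam <
        Real.log (r₀ ^ 2) ∧ (∫ y in (0 : ℝ)..lam, K y) + δ * lam < 1 := by
    have hc : Tendsto (fun δ : ℝ => δ * lam) (𝓝[>] 0) (𝓝 0) := by
      have : Tendsto (fun δ : ℝ => δ * lam) (𝓝 0) (𝓝 (0 * lam)) :=
        (continuous_id.mul continuous_const).tendsto 0
      rw [zero_mul] at this
      exact this.mono_left nhdsWithin_le_nhds
    have e1 := hc.eventually (gt_mem_nhds (sub_pos.2 h1))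
    have e2 := hc.eventually (gt_mem_nhds (sub_pos.2 h2))
    obtain ⟨δ, h3, h4, h5⟩ := (e1.and (e2.and self_mem_nhdsWithin)).exists
    exact ⟨δ, h5, by linarith, by linarith⟩
  set F : ℝ → ℝ := fun y => (∫ x in (0 : ℝ)..y, K x) + δ * y with hF
  set G : ℝ → ℝ := fun y =>
    Real.log (Aq a b (s₀, t₀) + r' ^ 2) + 2 * (∫ x in (0 : ℝ)..y, J x) + δ * y with hG
  have dF : ∀ y, HasDerivAt F (K y + δ) y := fun y => by
    exact ((hK.integral_hasStrictDerivAt 0 y).hasDerivAt.add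
      ((hasDerivAt_id y).const_mul δ)).congr_deriv (by rw [mul_one])
  have dG : ∀ y, HasDerivAt G (2 * J y + δ) y := fun y => by
    exact ((((hJ.integral_hasStrictDerivAt 0 y).hasDerivAt.const_mul 2).const_add
      (Real.log (Aq a b (s₀, t₀) + r' ^ 2))).add
        ((hasDerivAt_id y).const_mul δ)).congr_deriv (by rw [mul_one])
  have cF : Continuous F := continuous_iff_continuousAt.2 fun y => (dF y).continuousAt
  have cG : Continuous G := continuous_iff_continuousAt.2 fun y => (dG y).continuousAt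
  have bF : ∀ y, y ≤ lam → F y < 1 := fun y hy => by
    have h3 := J1Trk_mono hK K0 hy
    have h4 := mul_le_mul_of_nonneg_left hy hδ.le
    simp only [hF]
    linarith
  have bG : ∀ y, y ≤ lam → G y < Real.log (r₀ ^ 2) := fun y hy => by
    have h3 := J1Trk_mono hJ J0 hy
    have h4 := mul_le_mul_of_nonneg_left hy hδ.le
    simp only [hG]
    linarith
  have hQ : ∀ γ, 0 < Aq a b γ + r' ^ 2 := fun γ => by
    have := Aq_nonneg a b γ
    positivity
  have bQ : ∀ y, y ≤ lam → ∀ γ, Real.log (Aq a b γ + r' ^ 2) ≤ G y →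
      Aq a b γ + r' ^ 2 ≤ r₀ ^ 2 := fun y hy γ h3 =>
    ((Real.log_lt_log_iff (hQ γ) (by positivity)).1 (h3.trans_lt (bG y hy))).le
  set T : Set (ℝ × ℂ) := (Icc 0 lam ×ˢ closedBall t₀ 1) ∩ {p | ‖p.2 - t₀‖ ≤ F p.1 ∧
    Real.log (Aq a b (s₀ + p.1 * v, p.2) + r' ^ 2) ≤ G p.1} with hT
  have cT : IsCompact T := by
    refine (isCompact_Icc.prod (isCompact_closedBall t₀ 1)).inter_right (IsClosed.and ?_ ?_)
    · exact isClosed_le (by fun_prop) (cF.comp continuous_fst)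
    · refine isClosed_le (Continuous.log ?_ fun p => (hQ _).ne') (cG.comp continuous_fst)
      exact ((continuous_Aq ha hb).comp (by fun_prop)).add continuous_const
  have key : Icc 0 lam ⊆ Prod.fst '' T := by
    refine IsClosed.Icc_subset_of_forall_mem_nhdsWithin
      ((cT.image continuous_fst).isClosed.inter isClosed_Icc) ?_ ?_
    · refine ⟨(0, t₀), ⟨⟨⟨le_rfl, hl⟩, mem_closedBall_self zero_le_one⟩, ?_, ?_⟩, rfl⟩
      · simp [hF]
      · simp [hG]
    · rintro y ⟨⟨⟨y, t⟩, ⟨⟨hy, ht⟩, h3, h4⟩, rfl⟩, hy'⟩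
      simp only at hy ht h3 h4 hy' ⊢
      obtain ⟨hB, h5, h6⟩ := h y hy t (mem_closedBall_iff_norm.1 ht) (bQ y hy.2 _ h4)
      obtain ⟨α, hα, h7⟩ := J1Trk_alg (Φ := a (s₀ + y * v) - b t) hv hB (J0 y) (K0 y)
        (le_add_of_nonneg_right (sq_nonneg r')) h5 h6
      have d1 : HasDerivAt (fun w : ℂ => a (s₀ + w * v) - b (t + (w - y) * α))
          (v • deriv a (s₀ + y * v) - α • deriv b t) (y : ℂ) := by
        have i1 : HasDerivAt (fun w : ℂ => s₀ + w * v) v (y : ℂ) := by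
          simpa using ((hasDerivAt_id (y : ℂ)).mul_const v).const_add s₀
        have i2 : HasDerivAt (fun w : ℂ => t + (w - y) * α) α (y : ℂ) := by
          simpa using (((hasDerivAt_id (y : ℂ)).sub_const (y : ℂ)).mul_const α).const_add t
        have i3 : HasDerivAt b (deriv b t) (t + ((y : ℂ) - y) * α) := by
          simpa using (hb t).hasDerivAt
        exact ((ha _).hasDerivAt.scomp (y : ℂ) i1).sub (i3.scomp (y : ℂ) i2)
      have d2 := ((J1Trk_nsq d1).add_const (r' ^ 2)).log (by simpa [Aq] using (hQ (s₀ + y * v, t)).ne')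
      have d3 := J1Trk_neg (d2.sub (dG y)) (by
        have h8 := hQ (s₀ + y * v, t)
        simp only [sub_self, zero_mul, add_zero]
        rw [sub_neg, div_lt_iff₀ (by simpa [Aq] using h8)]
        simp only [Aq] at h7 h8
        nlinarith [mul_pos hδ h8])
      have d4 := J1Trk_neg ((((hasDerivAt_id y).sub_const y).mul_const ‖α‖).sub (dF y))
        (by linarith)
      filter_upwards [d3, d4, Ioc_mem_nhdsGT hy'.2] with z h8 h9 hz
      have h10 : ‖t + ((z : ℂ) - y) * α - t₀‖ ≤ F z := by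
        have i1 : t + ((z : ℂ) - y) * α - t₀ = (t - t₀) + ((z - y : ℝ) : ℂ) * α := by
          push_cast
          ring
        have i2 := norm_add_le (t - t₀) (((z - y : ℝ) : ℂ) * α)
        rw [norm_mul, Complex.norm_real, Real.norm_of_nonneg (sub_pos.2 hz.1).le] at i2
        simp only [Pi.sub_apply, id, sub_self, zero_mul] at h9
        rw [i1]
        linarith
      refine ⟨(z, t + ((z : ℂ) - y) * α), ⟨⟨⟨hy.1.trans hz.1.le, hz.2⟩, ?_⟩, h10, ?_⟩, rfl⟩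
      · exact mem_closedBall_iff_norm.2 (h10.trans (bF z hz.2).le)
      · simp only [Pi.sub_apply, sub_self, zero_mul, add_zero] at h8
        simp only [Aq] at h4 ⊢
        linarith
  intro y hy
  obtain ⟨⟨y, t⟩, ⟨⟨-, ht⟩, -, h4⟩, rfl⟩ := key hy
  exact ⟨t, mem_closedBall_iff_norm.1 ht, bQ y hy.2 _ h4⟩

end Pool.Agent.Lib.MP_7b5e47_an.Hq
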