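import Pool.Agent.Lib.MP_7b5e47_an.Hq.J1Mv
import Pool.Agent.Lib.MP_7b5e47_an.Hq.J1Trk

/-! Most lines carry no deep point. -/

namespace Pool.Agent.Lib.MP_7b5e47_an.Hq

open MeasureTheory Set Metric Filter Topology

/- `z ↦ v z` preserves the measure (`rotation`, `LinearIsometryEquiv.measurePreserving`), so does
`Complex.measurableEquivRealProd` (`Complex.volume_preserving_equiv_real_prod`). By Fubini the function
`G x = ∫ y, g (v (x + y I))` is integrable with integral `∫ g < 1`, nonnegative, and almost every slice is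
integrable (`Integrable.prod_right_ae`). If the claim failed, `1 ≤ G` almost everywhere on the interval. -/
theorem exists_line {g : ℂ → ℝ} (hg : Integrable g) (h0 : ∀ z, 0 ≤ g z) (h1 : ∫ z, g z < 1) {v : ℂ}
    (hv : ‖v‖ = 1) (x₀ : ℝ) : ∃ x ∈ Icc x₀ (x₀ + 1),
      Integrable (fun y : ℝ => g (v * (x + y * Complex.I))) ∧
        ∫ y : ℝ, g (v * (x + y * Complex.I)) < 1 := by
  let c : Circle := ⟨v, mem_sphere_zero_iff_norm.2 hv⟩
  let e : ℝ × ℝ ≃ᵐ ℂ :=
    Complex.measurableEquivRealProd.symm.trans (rotation c).toHomeomorph.toMeasurableEquiv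
  have hm : MeasurePreserving e :=
    (rotation c).measurePreserving.comp Complex.volume_preserving_equiv_real_prod.symm
  have he : ∀ x y : ℝ, e (x, y) = v * (x + y * Complex.I) := fun x y => by
    show v * Complex.equivRealProd.symm (x, y) = _
    rw [Complex.equivRealProd_symm_apply]
  have hF : Integrable (fun p => g (e p)) (volume.prod volume) := hm.integrable_comp_of_integrable hg
  have hI : ∫ x : ℝ, ∫ y : ℝ, g (e (x, y)) = ∫ z, g z :=
    (integral_prod _ hF).symm.trans (hm.integral_comp' g)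
  have hG := hF.integral_prod_left
  have hae := hF.prod_right_ae
  simp only [he] at hI hG hae
  by_contra hn
  push Not at hn
  have h2 : ∫ _ in Icc x₀ (x₀ + 1), (1 : ℝ) ≤
      ∫ x in Icc x₀ (x₀ + 1), ∫ y : ℝ, g (v * (x + y * Complex.I)) := by
    refine setIntegral_mono_ae_restrict (integrableOn_const (by simp)) hG.integrableOn ?_
    filter_upwards [ae_restrict_mem measurableSet_Icc, ae_restrict_of_ae hae] with x hx hx'
    exact hn x hx hx'
  have h3 := setIntegral_le_integral (s := Icc x₀ (x₀ + 1)) hG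
    (Eventually.of_forall fun x => integral_nonneg fun y => h0 _)
  simp only [integral_const, measureReal_restrict_apply_univ, Real.volume_real_Icc, smul_eq_mul,
    add_sub_cancel_left, mul_one] at h2
  rw [max_eq_left zero_le_one] at h2
  linarith

theorem J1Line_fub {F : ℂ × ℂ → ℝ} (hF : Continuous F) :
    ∫ s in closedBall (0 : ℂ) 6, ∫ t in closedBall (0 : ℂ) 6, F (s, t) =
      ∫ γ in closedBall (0 : ℂ × ℂ) 6, F γ := by
  have e : closedBall (0 : ℂ × ℂ) 6 = closedBall (0 : ℂ) 6 ×ˢ closedBall (0 : ℂ) 6 :=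
    (closedBall_prod_same (0 : ℂ) (0 : ℂ) 6).symm
  rw [e]
  exact (setIntegral_prod F (hF.continuousOn.integrableOn_compact
    ((isCompact_closedBall _ _).prod (isCompact_closedBall _ _)))).symm

theorem J1Line_cont {F : ℂ × ℂ → ℝ} (hF : Continuous F) :
    Continuous fun s => ∫ t in closedBall (0 : ℂ) 6, F (s, t) :=
  continuous_parametric_integral_of_continuous (f := fun s t => F (s, t)) hF
    (isCompact_closedBall _ _)

theorem J1Line_norm {s v : ℂ} (hs : ‖s‖ ≤ 4) (hv : ‖v‖ = 1) {y lam : ℝ} (hl : lam ≤ 1)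
    (hy : y ∈ Icc 0 lam) : ‖s + y * (v * Complex.I)‖ ≤ 5 := by
  have h1 := norm_add_le s (y * (v * Complex.I))
  rw [norm_mul, norm_mul, hv, Complex.norm_I, Complex.norm_real, Real.norm_eq_abs,
    abs_of_nonneg hy.1] at h1
  linarith [hy.2]

theorem J1Line_core {H : ℂ → ℝ} (hH : Continuous H) (H0 : ∀ s, 0 ≤ H s)
    (hI : ∫ s in closedBall (0 : ℂ) 6, H s ≤ 1 / 2) {E : Set ℂ} (hE : MeasurableSet E)
    (hE' : E ⊆ closedBall 0 7) {lam : ℝ} (hl : 0 < lam) (hl1 : lam ≤ 1)
    (hvol : volume.real E ≤ lam / 4) {v : ℂ} (hv : ‖v‖ = 1) (x₀ : ℝ) :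
    ∃ x ∈ Icc x₀ (x₀ + 1), ∀ y₀ : ℝ, ‖v * (x + y₀ * Complex.I)‖ ≤ 4 →
      ∫ y in (0 : ℝ)..lam, H (v * (x + y₀ * Complex.I) + y * (v * Complex.I)) < 1 ∧
      ¬ ∀ y ∈ Icc 0 lam, v * (x + y₀ * Complex.I) + y * (v * Complex.I) ∈ E := by
  have i1 : Integrable (E.indicator fun _ => 1 / lam) :=
    (integrable_indicator_iff hE).2 (integrableOn_const
      ((measure_mono hE').trans_lt measure_closedBall_lt_top).ne)
  have i2 : Integrable ((closedBall (0 : ℂ) 6).indicator H) :=
    (integrable_indicator_iff measurableSet_closedBall).2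
      (hH.continuousOn.integrableOn_compact (isCompact_closedBall _ _))
  have n1 : ∀ z, 0 ≤ E.indicator (fun _ => 1 / lam) z :=
    indicator_nonneg fun _ _ => by positivity
  have n2 : ∀ z, 0 ≤ (closedBall (0 : ℂ) 6).indicator H z := indicator_nonneg fun z _ => H0 z
  set g : ℂ → ℝ := fun z => E.indicator (fun _ => 1 / lam) z + (closedBall (0 : ℂ) 6).indicator H z
    with hg
  have g0 : ∀ z, 0 ≤ g z := fun z => add_nonneg (n1 z) (n2 z)
  obtain ⟨x, hx, k1, k2⟩ := exists_line (g := g) (i1.add i2) g0 (by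
    rw [hg, integral_add i1 i2, integral_indicator hE, integral_indicator measurableSet_closedBall,
      setIntegral_const, smul_eq_mul]
    have : volume.real E * (1 / lam) ≤ 1 / 4 := by
      rw [mul_one_div, div_le_iff₀ hl]; linarith
    linarith) hv x₀
  refine ⟨x, hx, fun y₀ hy₀ => ?_⟩
  have e : ∀ y : ℝ, v * (x + y₀ * Complex.I) + y * (v * Complex.I) =
      v * (x + ((y₀ + y : ℝ) : ℂ) * Complex.I) := fun y => by push_cast; ring
  have k3 : Integrable fun y : ℝ => g (v * (x + ((y₀ + y : ℝ) : ℂ) * Complex.I)) :=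
    k1.comp_add_left y₀
  have k4 : ∫ y in (0 : ℝ)..lam, g (v * (x + ((y₀ + y : ℝ) : ℂ) * Complex.I)) < 1 := by
    rw [intervalIntegral.integral_of_le hl.le]
    refine (setIntegral_le_integral k3 (Eventually.of_forall fun y => g0 _)).trans_lt ?_
    rwa [integral_add_left_eq_self (fun y : ℝ => g (v * (x + (y : ℂ) * Complex.I))) y₀]
  refine ⟨lt_of_le_of_lt (intervalIntegral.integral_mono_on hl.le
    (Continuous.intervalIntegrable (by fun_prop) _ _) k3.intervalIntegrable fun y hy => ?_) k4,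
    fun hall => ?_⟩
  · rw [← e]
    have h1 := J1Line_norm hy₀ hv hl1 hy
    have h2 := n1 (v * (x + y₀ * Complex.I) + y * (v * Complex.I))
    simp only [hg]
    rw [indicator_of_mem (mem_closedBall_zero_iff.2 (by linarith))]
    linarith
  · have h1 := intervalIntegral.integral_mono_on (f := fun _ => 1 / lam) hl.le
      intervalIntegrable_const k3.intervalIntegrable fun y hy => by
        rw [← e]
        have h2 := n2 (v * (x + y₀ * Complex.I) + y * (v * Complex.I))
        simp only [hg]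
        rw [indicator_of_mem (hall y hy)]
        linarith
    rw [intervalIntegral.integral_const, sub_zero, smul_eq_mul, mul_one_div_cancel hl.ne'] at h1
    linarith

theorem J1Line_log {r A : ℝ} (hr : 0 < r) {k : ℕ} (hk : 6 ≤ k) (h0 : 0 ≤ A)
    (hA : A ≤ (r / 2 ^ k) ^ 2) :
    Real.log (A + (r / 2 ^ k) ^ 2) + k / 2 < Real.log ((r / 4) ^ 2) := by
  have h1 : Real.log (A + (r / 2 ^ k) ^ 2) ≤ Real.log (2 * (r / 2 ^ k) ^ 2) :=
    Real.log_le_log (by positivity) (by linarith)
  rw [Real.log_mul two_ne_zero (by positivity), Real.log_pow,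
    Real.log_div hr.ne' (by positivity), Real.log_pow] at h1
  rw [Real.log_pow, Real.log_div hr.ne' (by norm_num), show (4 : ℝ) = 2 ^ 2 by norm_num,
    Real.log_pow]
  have h2 := Real.log_two_gt_d9
  have h3 : (6 : ℝ) ≤ k := by exact_mod_cast hk
  push_cast at h1 ⊢
  nlinarith

/- Put `J₂ s = 1100 ∑ j, ∫ t in closedBall 0 6, dens a b (r/2^j) (s, t)` and
`K₂ s = 17 ∫ t in closedBall 0 6, gK a b r (s, t)`, continuous
(`continuous_parametric_integral_of_continuous`), with `∫_{closedBall 0 6} J₂ ≤ 1100 C₁ k²` and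
`∫_{closedBall 0 6} K₂ ≤ 136000` (Fubini `setIntegral_prod`, `Pair.gK_mass`). Let `M₁ = 4400 C₁`,
`M₂ = 600000`, `lam = min (1 / (16 M₁)) (1 / (4 M₂))`, `η = lam / 4`. Apply `exists_line` to
`g = indicator (Eset a b r) (1 / lam) + indicator (closedBall 0 6) (J₂ / (M₁ k²) + K₂ / M₂)`. Suppose
`s₀ = v (x + y₀ I)` and `t₀` have `Aq ≤ (r/2^k)²`. Apply `track` on the segment `s₀ + y (v I)`,
`0 ≤ y ≤ lam`, with `r' = r/2^k`, `r₀ = r/4`, `J = (θ J₂ + 1/θ)/2`, `θ = 1/(4 M₁ k)`,
`K = (θ' K₂ + 1/θ')/2`, `θ' = 1/(2 M₂)` (so `J₂ ≤ J²`, `K₂ ≤ K²`; `jlow_sum`, `klow`, `Lin.ne`):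
`∫ J ≤ k/8 + 2 M₁ k lam ≤ k/4`, `∫ K ≤ 1/4 + M₂ lam ≤ 1/2`, and
`log (2 r'²) + k/2 < log (r₀²)` since `k/2 < (2 k - 5) log 2` (`Real.log_two_gt_d9`). So the whole segment
lies in `Eset a b r`, and the integral of `g` over the line is at least `lam * (1/lam)`. -/
theorem noline (C₁ : ℝ) (hC : 0 < C₁) : ∃ η : ℝ, 0 < η ∧
    ∀ (a b : ℂ → ℂ × ℂ) (Λ r : ℝ) (k : ℕ), Pair a b Λ r → 6 ≤ k →
      ∑ j ∈ Finset.range (k + 1), ∫ γ in closedBall (0 : ℂ × ℂ) 6, dens a b (r / 2 ^ j) γ ≤
        C₁ * k ^ 2 → volume.real (Eset a b r) ≤ η →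
      ∀ (v : ℂ) (x₀ : ℝ), ‖v‖ = 1 → ∃ x ∈ Icc x₀ (x₀ + 1), ∀ (y : ℝ) (t : ℂ),
        ‖v * (x + y * Complex.I)‖ ≤ 4 → ‖t‖ ≤ 4 →
          (r / 2 ^ k) ^ 2 < Aq a b (v * (x + y * Complex.I), t) := by
  set M₁ := 4400 * C₁ with hM₁
  have hM : 0 < M₁ := by positivity
  set lam := min (1 / (16 * M₁)) (1 / (4 * 600000)) with hlam
  have hl : 0 < lam := lt_min (by positivity) (by norm_num)
  have hl1 : lam ≤ 1 / (16 * M₁) := min_le_left _ _
  have hl2 : lam ≤ 1 / (4 * 600000) := min_le_right _ _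
  refine ⟨lam / 4, by positivity, fun a b Λ r k hP hk hS hE v x₀ hv => ?_⟩
  have hr := hP.pos
  have hk0 : (0 : ℝ) < k := by exact_mod_cast (by omega : 0 < k)
  have cd : ∀ j : ℕ, Continuous (dens a b (r / 2 ^ j)) := fun j =>
    continuous_dens hP.da hP.db (by positivity)
  set J₂ : ℂ → ℝ := fun s =>
    1100 * ∑ j ∈ Finset.range (k + 1), ∫ t in closedBall (0 : ℂ) 6, dens a b (r / 2 ^ j) (s, t)
    with hJ₂
  set K₂ : ℂ → ℝ := fun s => 17 * ∫ t in closedBall (0 : ℂ) 6, gK a b r (s, t) with hK₂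
  have cJ : Continuous J₂ :=
    continuous_const.mul (continuous_finsetSum _ fun j _ => J1Line_cont (cd j))
  have cK : Continuous K₂ := continuous_const.mul (J1Line_cont (continuous_gK hP.da hP.db r))
  have J0 : ∀ s, 0 ≤ J₂ s := fun s => mul_nonneg (by norm_num)
    (Finset.sum_nonneg fun j _ => integral_nonneg fun t => dens_nonneg _ _ _ _)
  have K0 : ∀ s, 0 ≤ K₂ s := fun s => mul_nonneg (by norm_num)
    (integral_nonneg fun t => gK_nonneg _ _ _ _)
  have io : ∀ {f : ℂ → ℝ}, Continuous f → IntegrableOn f (closedBall (0 : ℂ) 6) := fun hf =>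
    hf.continuousOn.integrableOn_compact (isCompact_closedBall _ _)
  have IJ : ∫ s in closedBall (0 : ℂ) 6, J₂ s ≤ 1100 * (C₁ * k ^ 2) := by
    rw [hJ₂, integral_const_mul, integral_finsetSum _ fun j _ => io (J1Line_cont (cd j))]
    simp only [J1Line_fub (cd _)]
    linarith
  have IK : ∫ s in closedBall (0 : ℂ) 6, K₂ s ≤ 136000 := by
    rw [hK₂, integral_const_mul, J1Line_fub (continuous_gK hP.da hP.db r)]
    linarith [hP.gK_mass]
  set H : ℂ → ℝ := fun s => J₂ s / (M₁ * k ^ 2) + K₂ s / 600000 with hH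
  have cH : Continuous H := (cJ.div_const _).add (cK.div_const _)
  have H0 : ∀ s, 0 ≤ H s := fun s =>
    add_nonneg (div_nonneg (J0 s) (by positivity)) (div_nonneg (K0 s) (by norm_num))
  obtain ⟨x, hx, hcore⟩ := J1Line_core cH H0 (by
    rw [hH, integral_add (io (cJ.div_const _)) (io (cK.div_const _)), integral_div, integral_div]
    have : (∫ s in closedBall (0 : ℂ) 6, J₂ s) / (M₁ * k ^ 2) ≤ 1 / 4 := by
      rw [div_le_iff₀ (by positivity), hM₁]; linarith
    linarith) (measurableSet_Eset hP.da hP.db r) (Eset_subset a b r) hl (by linarith) hE hv x₀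
  refine ⟨x, hx, fun y₀ t₀ hy₀ ht₀ => lt_of_not_ge fun hA => ?_⟩
  obtain ⟨c1, c2⟩ := hcore y₀ hy₀
  set s₀ := v * (x + y₀ * Complex.I) with hs₀
  have cy : Continuous fun y : ℝ => H (s₀ + y * (v * Complex.I)) := by fun_prop
  have nt : ∀ t : ℂ, ‖t - t₀‖ ≤ 1 → ‖t‖ ≤ 5 := fun t ht => by
    have := norm_sub_norm_le t t₀
    linarith
  have sq4 : ∀ A : ℝ, A + (r / 2 ^ k) ^ 2 ≤ (r / 4) ^ 2 →
      A ≤ (r / 4) ^ 2 ∧ A < r ^ 2 ∧ A + (r / 2 ^ k) ^ 2 ≤ r ^ 2 := fun A h => by
    have h1 := sq_nonneg (r / 2 ^ k)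
    have h2 : 0 < r ^ 2 := by positivity
    have h3 : (r / 4) ^ 2 = r ^ 2 / 16 := by ring
    exact ⟨by linarith, by linarith, by linarith⟩
  have key := track hP.da hP.db (s₀ := s₀) (v := v * Complex.I) (t₀ := t₀)
    (by rw [norm_mul, hv, Complex.norm_I, one_mul]) (lam := lam) (r' := r / 2 ^ k) (r₀ := r / 4)
    hl.le (by positivity) (by positivity)
    (J := fun y => k / 8 * H (s₀ + y * (v * Complex.I)) + 2 * M₁ * k)
    (K := fun y => 1 / 4 * H (s₀ + y * (v * Complex.I)) + 600000)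
    ((continuous_const.mul cy).add continuous_const)
    ((continuous_const.mul cy).add continuous_const)
    (fun y => by have := H0 (s₀ + y * (v * Complex.I)); positivity)
    (fun y => by have := H0 (s₀ + y * (v * Complex.I)); positivity)
    (fun y hy t ht hQ => by
      obtain ⟨q1, q2, q3⟩ := sq4 _ hQ
      have h1 := J1Line_norm hy₀ hv (by linarith : lam ≤ 1) hy
      have h2 := nt t ht
      have hL := (hP.lin _ t (by linarith) (by linarith) q2).2
      generalize s₀ + y * (v * Complex.I) = s at q1 q2 q3 hQ ⊢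
      have h3 : J₂ s ≤ (k / 8 * H s + 2 * M₁ * k) ^ 2 := by
        have h4 : J₂ s / (M₁ * k ^ 2) ≤ H s := le_add_of_nonneg_right
          (div_nonneg (K0 s) (by norm_num))
        rw [div_le_iff₀ (by positivity)] at h4
        nlinarith [sq_nonneg (k / 8 * H s - 2 * M₁ * k)]
      have h4 : K₂ s ≤ (1 / 4 * H s + 600000) ^ 2 := by
        have h5 : K₂ s / 600000 ≤ H s := le_add_of_nonneg_left
          (div_nonneg (J0 s) (by positivity))
        rw [div_le_iff₀ (by norm_num)] at h5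
        nlinarith [sq_nonneg (1 / 4 * H s - 600000)]
      have h5 := Aq_nonneg a b (s, t)
      refine ⟨hL.ne, (jlow_sum hP.da hP.db hP.one hr hP.sm hL h2 q3).trans ?_,
        (klow hP.da hP.db hP.one hr hP.sm hL h2 q1).trans ?_⟩
      · exact mul_le_mul_of_nonneg_right (mul_le_mul_of_nonneg_right h3 (by positivity))
          (nsq_nonneg _)
      · exact mul_le_mul_of_nonneg_right h4 (nsq_nonneg _))
    (by
      have h1 := J1Line_log hr hk (Aq_nonneg a b (s₀, t₀)) hA
      rw [intervalIntegral.integral_add ((cy.intervalIntegrable _ _).const_mul _)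
        intervalIntegrable_const, intervalIntegral.integral_const_mul,
        intervalIntegral.integral_const, sub_zero, smul_eq_mul]
      rw [le_div_iff₀ (by positivity)] at hl1
      have h2 := mul_le_mul_of_nonneg_left c1.le hk0.le
      have h3 := mul_le_mul_of_nonneg_left hl1 hk0.le
      nlinarith)
    (by
      rw [intervalIntegral.integral_add ((cy.intervalIntegrable _ _).const_mul _)
        intervalIntegrable_const, intervalIntegral.integral_const_mul,
        intervalIntegral.integral_const, sub_zero, smul_eq_mul]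
      linarith)
  refine c2 fun y hy => ?_
  obtain ⟨t, ht, hQ⟩ := key y hy
  have h1 := J1Line_norm hy₀ hv (by linarith : lam ≤ 1) hy
  have h2 := nt t ht
  exact ⟨by linarith, t, by linarith, (sq4 _ hQ).2.1⟩

end Pool.Agent.Lib.MP_7b5e47_an.Hq
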