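import Pool.Agent.Lib.MP_7b5e47_an.Hq.J1Def

/-! The minimum principle for the distance of two disjoint curves. -/

namespace Pool.Agent.Lib.MP_7b5e47_an.Hq

open MeasureTheory Set Metric Filter Topology

theorem J1Min_fst {b : ℂ → ℂ × ℂ} {β : ℂ × ℂ} {t : ℂ} (h : HasDerivAt b β t) :
    HasDerivAt (fun t => (b t).1) β.1 t :=
  (ContinuousLinearMap.fst ℂ ℂ ℂ).hasFDerivAt.comp_hasDerivAt t h

theorem J1Min_snd {b : ℂ → ℂ × ℂ} {β : ℂ × ℂ} {t : ℂ} (h : HasDerivAt b β t) :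
    HasDerivAt (fun t => (b t).2) β.2 t :=
  (ContinuousLinearMap.snd ℂ ℂ ℂ).hasFDerivAt.comp_hasDerivAt t h

theorem J1Min_line {f : ℂ → ℂ} {f' t : ℂ} (h : HasDerivAt f f' t) (p c : ℂ) :
    HasDerivAt (fun x : ℝ => ‖p - f (t + x * c)‖ ^ 2)
      (2 * (-(f' * c) * (starRingEnd ℂ) (p - f t)).re) 0 := by
  have h1 : HasDerivAt (fun y : ℂ => t + y * c) c ((0 : ℝ) : ℂ) := by
    simpa using ((hasDerivAt_id ((0 : ℝ) : ℂ)).mul_const c).const_add t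
  have h2 : HasDerivAt f f' (t + ((0 : ℝ) : ℂ) * c) := by simpa using h
  have h3 := ((HasDerivAt.comp (h := fun y : ℂ => t + y * c) _ h2 h1).const_sub p).comp_ofReal.norm_sq
  simpa [Complex.inner] using h3

/-- the first order condition -/
theorem J1Min_first {a b : ℂ → ℂ × ℂ} {β : ℂ × ℂ} {s₁ t₁ : ℂ} (hb : HasDerivAt b β t₁)
    (hm : IsLocalMin (Aq a b) (s₁, t₁)) : hp (a s₁ - b t₁) β = 0 := by
  obtain ⟨c, hc⟩ : ∃ c, c = hp (a s₁ - b t₁) β := ⟨_, rfl⟩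
  have h1 := (J1Min_line (J1Min_fst hb) (a s₁).1 c).add (J1Min_line (J1Min_snd hb) (a s₁).2 c)
  have h2 : IsLocalMin (Aq a b ∘ fun x : ℝ => (s₁, t₁ + x * c)) 0 :=
    IsLocalMin.comp_continuous (by simpa using hm) (by fun_prop)
  have h3 := h2.hasDerivAt_eq_zero h1
  have h4 : (starRingEnd ℂ) c = β.1 * (starRingEnd ℂ) ((a s₁).1 - (b t₁).1) +
      β.2 * (starRingEnd ℂ) ((a s₁).2 - (b t₁).2) := by
    rw [hc]
    simp only [hp, Prod.fst_sub, Prod.snd_sub, map_add, map_mul, Complex.conj_conj]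
    ring
  have h5 : (c * (starRingEnd ℂ) c).re = 0 := by
    rw [h4, mul_add, Complex.add_re]
    simp only [neg_mul, Complex.neg_re, mul_comm _ c, mul_assoc c] at h3
    linarith
  rw [Complex.mul_conj, Complex.ofReal_re, Complex.normSq_eq_zero] at h5
  rw [← hc, h5]

theorem J1Min_inv {κ : ℂ → ℂ} (hκ : Differentiable ℂ κ) {t : ℂ} (h : deriv κ t ≠ 0) :
    ∃ J : ℂ → ℂ, AnalyticAt ℂ J (κ t) ∧ J (κ t) = t ∧ ∀ᶠ y in 𝓝 (κ t), κ (J y) = y :=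
  ⟨_, (hκ.analyticAt t).analyticAt_localInverse h,
    ((hκ.analyticAt t).hasStrictDerivAt.eventually_left_inverse h).self_of_nhds,
    (hκ.analyticAt t).hasStrictDerivAt.eventually_right_inverse h⟩

/- Let `β = deriv b t₁`, `Φ₁ = a s₁ - b t₁`. The first order condition in `t` (directions `1` and `I`,
`IsLocalMin.hasDerivAt_eq_zero`) gives `hp Φ₁ β = 0`. The function `κ t = hp (b t) β` has derivative
`nsq β ≠ 0` at `t₁`; with its local inverse `I` (`HasStrictDerivAt.localInverse`, differentiable near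
`κ t₁`: `HasStrictDerivAt.to_localInverse` at nearby points, or `ContDiffAt.to_localInverse` and
`ContDiffAt.eventually`) put `τ s = I (hp (a s) β)`; `τ s₁ = t₁`, `hp (a s - b (τ s)) β = 0`, so by
`lagrange` `Aq (s, τ s) * nsq β = ‖Y s‖²`, `Y s = wd (a s - b (τ s)) β`. `‖Y‖` has a local minimum at `s₁`,
`Y s₁ ≠ 0`; `Complex.eventually_eq_or_eq_zero_of_isLocalMin_norm`. -/
theorem locmin {a b : ℂ → ℂ × ℂ} (ha : Differentiable ℂ a) (hb : Differentiable ℂ b) {s₁ t₁ : ℂ}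
    (h0 : a s₁ ≠ b t₁) (h1 : deriv b t₁ ≠ 0) (hm : IsLocalMin (Aq a b) (s₁, t₁)) :
    ∃ τ : ℂ → ℂ, ContinuousAt τ s₁ ∧ τ s₁ = t₁ ∧ ∀ᶠ s in 𝓝 s₁, Aq a b (s, τ s) = Aq a b (s₁, t₁) := by
  obtain ⟨β, hβ⟩ : ∃ β, β = deriv b t₁ := ⟨_, rfl⟩
  have hb' : HasDerivAt b β t₁ := hβ ▸ (hb t₁).hasDerivAt
  rw [← hβ] at h1
  have hβ0 := nsq_pos h1
  have hc := J1Min_first hb' hm
  have hκ : Differentiable ℂ fun t => hp (b t) β := (hb.fst.mul_const _).add (hb.snd.mul_const _)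
  have hκ' : deriv (fun t => hp (b t) β) t₁ ≠ 0 := by
    have h2 : HasDerivAt (fun t => hp (b t) β) (hp β β) t₁ :=
      ((J1Min_fst hb').mul_const _).add ((J1Min_snd hb').mul_const _)
    rw [h2.deriv, hp_self]
    exact_mod_cast hβ0.ne'
  obtain ⟨J, hJ1, hJ2, hJ3⟩ := J1Min_inv hκ hκ'
  have hα : Differentiable ℂ fun s => hp (a s) β := (ha.fst.mul_const _).add (ha.snd.mul_const _)
  have hsub : ∀ u v : ℂ × ℂ, hp (u - v) β = hp u β - hp v β := fun u v => by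
    simp only [hp, Prod.fst_sub, Prod.snd_sub]
    ring
  have he : hp (a s₁) β = hp (b t₁) β := by rw [← sub_eq_zero, ← hsub, hc]
  rw [← he] at hJ1 hJ2 hJ3
  have hτ : AnalyticAt ℂ (fun s => J (hp (a s) β)) s₁ :=
    AnalyticAt.comp (g := J) (f := fun s => hp (a s) β) hJ1 (hα.analyticAt s₁)
  have hY : ∀ᶠ s in 𝓝 s₁, ‖wd (a s - b (J (hp (a s) β))) β‖ ^ 2 =
      Aq a b (s, J (hp (a s) β)) * nsq β := by
    filter_upwards [(hα.continuous.tendsto s₁).eventually hJ3] with s hs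
    have h2 := lagrange (a s - b (J (hp (a s) β))) β
    rw [hsub, hs, sub_self, norm_zero, zero_pow two_ne_zero, zero_add] at h2
    exact h2
  have hY0 := hY.self_of_nhds
  have hm' : ∀ᶠ s in 𝓝 s₁, Aq a b (s₁, t₁) ≤ Aq a b (s, J (hp (a s) β)) := by
    have h2 : Tendsto (fun s => (s, J (hp (a s) β))) (𝓝 s₁) (𝓝 (s₁, t₁)) := by
      refine tendsto_id.prodMk_nhds ?_
      have h3 := hτ.continuousAt.tendsto
      rwa [hJ2] at h3
    exact h2.eventually hm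
  refine ⟨fun s => J (hp (a s) β), hτ.continuousAt, hJ2, ?_⟩
  rcases Complex.eventually_eq_or_eq_zero_of_isLocalMin_norm
    (f := fun s => wd (a s - b (J (hp (a s) β))) β) (c := s₁) (by
      filter_upwards [hτ.eventually_analyticAt] with s hs
      have h2 : DifferentiableAt ℂ (fun s => a s - b (J (hp (a s) β))) s :=
        (ha s).sub ((hb _).comp s hs.differentiableAt)
      exact (h2.fst.mul_const _).sub (h2.snd.mul_const _)) (by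
      filter_upwards [hY, hm'] with s h2 h3
      refine (pow_le_pow_iff_left₀ (norm_nonneg _) (norm_nonneg _) two_ne_zero).1 ?_
      simp only []
      rw [h2, hY0, hJ2]
      exact mul_le_mul_of_nonneg_right h3 hβ0.le) with h | h
  · filter_upwards [h, hY] with s h2 h3
    rw [h2, hY0, hJ2] at h3
    exact (mul_right_cancel₀ hβ0.ne' h3).symm
  · rw [h, norm_zero, zero_pow two_ne_zero, hJ2] at hY0
    exact absurd hY0.symm (mul_pos (nsq_pos (sub_ne_zero.2 h0)) hβ0).ne'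

/- Among the minimum points of `Aq` on `K` (a compact set) take one with the largest `re γ.1`; if it
were in the interior of `K`, `locmin` would give a minimum point with a larger real part. -/
theorem minp {a b : ℂ → ℂ × ℂ} (ha : Differentiable ℂ a) (hb : Differentiable ℂ b)
    {K : Set (ℂ × ℂ)} (hK : IsCompact K) {γ₀ : ℂ × ℂ} (h₀ : γ₀ ∈ K) (hn : ∀ γ ∈ K, a γ.1 ≠ b γ.2)
    (hd : ∀ γ ∈ K, Aq a b γ ≤ Aq a b γ₀ → deriv b γ.2 ≠ 0) :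
    ∃ γ ∈ K, γ ∉ interior K ∧ Aq a b γ ≤ Aq a b γ₀ := by
  have hc := continuous_Aq ha hb
  obtain ⟨γ₁, hγ₁, hmin⟩ := hK.exists_isMinOn ⟨γ₀, h₀⟩ hc.continuousOn
  have hK' : IsCompact (K ∩ {γ | Aq a b γ ≤ Aq a b γ₁}) :=
    hK.inter_right (isClosed_le hc continuous_const)
  obtain ⟨γ, hγ, hmax⟩ := hK'.exists_isMaxOn ⟨γ₁, hγ₁, le_refl (Aq a b γ₁)⟩
    (f := fun γ => γ.1.re) (by fun_prop)
  have hle : Aq a b γ ≤ Aq a b γ₀ := le_trans hγ.2 (hmin h₀)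
  refine ⟨γ, hγ.1, fun hint => ?_, hle⟩
  have hN : K ∈ 𝓝 γ := mem_interior_iff_mem_nhds.1 hint
  have hloc : IsLocalMin (Aq a b) (γ.1, γ.2) :=
    IsMinOn.isLocalMin (isMinOn_iff.2 fun x hx => le_trans hγ.2 (isMinOn_iff.1 hmin x hx)) hN
  obtain ⟨τ, h1, h2, h3⟩ := locmin ha hb (hn γ hγ.1) (hd γ hγ.1 hle) hloc
  have h4 : Tendsto (fun s => (s, τ s)) (𝓝 γ.1) (𝓝 γ) := by
    have h5 := h1.tendsto
    rw [h2] at h5
    exact tendsto_id.prodMk_nhds h5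
  have h5 : ∀ᶠ s in 𝓝 γ.1, s.re ≤ γ.1.re := by
    filter_upwards [h3, h4.eventually hN] with s h6 h7
    exact hmax (show (s, τ s) ∈ K ∩ {γ | Aq a b γ ≤ Aq a b γ₁} from ⟨h7, h6.trans_le hγ.2⟩)
  have h6 : Tendsto (fun x : ℝ => γ.1 + x) (𝓝[>] 0) (𝓝 γ.1) := by
    have h7 : Continuous fun x : ℝ => γ.1 + x := by fun_prop
    simpa using (h7.tendsto 0).mono_left nhdsWithin_le_nhds
  obtain ⟨x, h7, h8⟩ := ((h6.eventually h5).and self_mem_nhdsWithin).exists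
  rw [Complex.add_re, Complex.ofReal_re] at h7
  linarith [show 0 < x from h8]

theorem J1Min_box (Q : ℂ → Prop) (h : ∀ (v : ℂ) (x₀ : ℝ), ‖v‖ = 1 → ∃ x ∈ Icc x₀ (x₀ + 1), ∀ y : ℝ,
    ‖v * (x + y * Complex.I)‖ ≤ 4 → Q (v * (x + y * Complex.I))) {s₀ : ℂ} (hs : ‖s₀‖ ≤ 2) :
    ∃ B : Set ℂ, IsCompact B ∧ s₀ ∈ B ∧ (∀ s ∈ B, ‖s‖ ≤ 4) ∧ ∀ s ∈ B, s ∉ interior B → Q s := by
  obtain ⟨x₁, a1, a2⟩ := h 1 (s₀.re - 1) norm_one
  obtain ⟨x₂, b1, b2⟩ := h 1 s₀.re norm_one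
  obtain ⟨y₁, c1, c2⟩ := h Complex.I (s₀.im - 1) Complex.norm_I
  obtain ⟨y₂, d1, d2⟩ := h Complex.I s₀.im Complex.norm_I
  have hn : ∀ s ∈ Icc x₁ x₂ ×ℂ Icc y₁ y₂, ‖s‖ ≤ 4 := by
    intro s h1
    obtain ⟨h2, h3⟩ := Complex.mem_reProdIm.1 h1
    have h4 := Complex.norm_le_abs_re_add_abs_im (s - s₀)
    have h5 : |(s - s₀).re| ≤ 1 := by
      rw [Complex.sub_re, abs_le]
      constructor <;> linarith [h2.1, h2.2, a1.1, b1.2]
    have h6 : |(s - s₀).im| ≤ 1 := by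
      rw [Complex.sub_im, abs_le]
      constructor <;> linarith [h3.1, h3.2, c1.1, d1.2]
    linarith [norm_le_norm_add_norm_sub' s s₀]
  refine ⟨Icc x₁ x₂ ×ℂ Icc y₁ y₂, isCompact_Icc.reProdIm isCompact_Icc,
    Complex.mem_reProdIm.2 ⟨⟨by linarith [a1.2], b1.1⟩, ⟨by linarith [c1.2], d1.1⟩⟩, hn,
    fun s h1 h2 => ?_⟩
  have e1 : s = 1 * (s.re + s.im * Complex.I) := by rw [one_mul, Complex.re_add_im]
  have e2 : s = Complex.I * (s.im + (-s.re : ℝ) * Complex.I) := by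
    apply Complex.ext <;> simp
  obtain ⟨h3, h4⟩ := Complex.mem_reProdIm.1 h1
  have h5 := hn s h1
  rw [Complex.interior_reProdIm, interior_Icc, interior_Icc, Complex.mem_reProdIm] at h2
  by_contra hQ
  refine h2 ⟨⟨h3.1.lt_of_ne fun e => hQ ?_, h3.2.lt_of_ne fun e => hQ ?_⟩,
    h4.1.lt_of_ne fun e => hQ ?_, h4.2.lt_of_ne fun e => hQ ?_⟩
  · rw [e] at a2
    exact e1 ▸ a2 s.im (e1 ▸ h5)
  · rw [← e] at b2
    exact e1 ▸ b2 s.im (e1 ▸ h5)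
  · rw [e] at c2
    exact e2 ▸ c2 (-s.re) (e2 ▸ h5)
  · rw [← e] at d2
    exact e2 ▸ d2 (-s.re) (e2 ▸ h5)

/- For a point `(s₀, t₀)` of the small ball with `Aq ≤ μ` choose eight numbers: `x₁ ∈ [re s₀ - 1, re s₀]`,
`x₂ ∈ [re s₀, re s₀ + 1]` from `h1` with `v = 1`, two for `im s` with `v = I` (`I (x + y I) = -y + x I`), and
four for `t` from `h2`. The closed box `K` is compact (closed, inside `closedBall 0 4` because
`√2 ≤ 2`), a point of `K` with eight strict inequalities is interior; `minp`. -/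
theorem box_depth {a b : ℂ → ℂ × ℂ} (ha : Differentiable ℂ a) (hb : Differentiable ℂ b) {μ : ℝ}
    (hn : ∀ s t : ℂ, ‖s‖ ≤ 4 → ‖t‖ ≤ 4 → a s ≠ b t)
    (hd : ∀ s t : ℂ, ‖s‖ ≤ 4 → ‖t‖ ≤ 4 → Aq a b (s, t) ≤ μ → deriv b t ≠ 0)
    (h1 : ∀ (v : ℂ) (x₀ : ℝ), ‖v‖ = 1 → ∃ x ∈ Icc x₀ (x₀ + 1), ∀ (y : ℝ) (t : ℂ),
      ‖v * (x + y * Complex.I)‖ ≤ 4 → ‖t‖ ≤ 4 → μ < Aq a b (v * (x + y * Complex.I), t))
    (h2 : ∀ (v : ℂ) (x₀ : ℝ), ‖v‖ = 1 → ∃ x ∈ Icc x₀ (x₀ + 1), ∀ (y : ℝ) (s : ℂ),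
      ‖v * (x + y * Complex.I)‖ ≤ 4 → ‖s‖ ≤ 4 → μ < Aq b a (v * (x + y * Complex.I), s)) :
    ∀ γ ∈ closedBall (0 : ℂ × ℂ) 2, μ < Aq a b γ := by
  intro γ hγ
  rw [mem_closedBall_zero_iff] at hγ
  obtain ⟨B₁, a1, a2, a3, a4⟩ := J1Min_box (fun s => ∀ t : ℂ, ‖t‖ ≤ 4 → μ < Aq a b (s, t))
    (fun v x₀ hv => (h1 v x₀ hv).imp fun x hx => ⟨hx.1, fun y hy t ht => hx.2 y t hy ht⟩)
    ((norm_fst_le γ).trans hγ)
  obtain ⟨B₂, b1, b2, b3, b4⟩ := J1Min_box (fun t => ∀ s : ℂ, ‖s‖ ≤ 4 → μ < Aq b a (t, s))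
    (fun v x₀ hv => (h2 v x₀ hv).imp fun x hx => ⟨hx.1, fun y hy t ht => hx.2 y t hy ht⟩)
    ((norm_snd_le γ).trans hγ)
  by_contra hcon
  have hle := not_lt.1 hcon
  obtain ⟨γ', h3, h4, h5⟩ := minp ha hb (a1.prod b1) (γ₀ := γ) ⟨a2, b2⟩
    (fun γ' h => hn _ _ (a3 _ h.1) (b3 _ h.2))
    fun γ' h h' => hd γ'.1 γ'.2 (a3 _ h.1) (b3 _ h.2) (h'.trans hle)
  refine h4 ?_
  rw [interior_prod_eq]
  constructor
  · by_contra h6
    exact (a4 _ h3.1 h6 _ (b3 _ h3.2)).not_ge (h5.trans hle)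
  · by_contra h6
    have h7 := b4 _ h3.2 h6 _ (a3 _ h3.1)
    rw [Aq_comm] at h7
    exact h7.not_ge (h5.trans hle)

end Pool.Agent.Lib.MP_7b5e47_an.Hq
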