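import Pool.Agent.Lib.MP_7b5e47_an.Hq.J1Low
import Pool.Agent.Lib.MP_7b5e47_an.Hq.J1Line
import Pool.Agent.Lib.MP_7b5e47_an.Hq.J1Min

/-! The abstract intersection theorem. -/

namespace Pool.Agent.Lib.MP_7b5e47_an.Hq

open MeasureTheory Set Metric Filter Topology

theorem J1Ait_dep {A r ρ : ℝ} {k : ℕ} (hr : 0 < r) (hρ : 0 < ρ) (h1 : (r / 2 ^ k) ^ 2 ≤ A)
    (h2 : A < r ^ 2) : Real.log (A + r ^ 2) - Real.log (A + ρ ^ 2) ≤ 2 * k + 1 := by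
  have hA : 0 < A := lt_of_lt_of_le (by positivity) h1
  have h3 : A + r ^ 2 ≤ 2 ^ (2 * k + 1) * (A + ρ ^ 2) := by
    have h4 : r ^ 2 = 2 ^ (2 * k) * (r / 2 ^ k) ^ 2 := by
      rw [div_pow, ← pow_mul, mul_comm k 2]; field_simp
    have h5 : (2 : ℝ) ^ (2 * k) * (r / 2 ^ k) ^ 2 ≤ 2 ^ (2 * k) * (A + ρ ^ 2) := by
      gcongr; nlinarith [sq_nonneg ρ]
    rw [pow_succ (2 : ℝ) (2 * k)]; linarith
  have h6 := Real.log_le_log (by positivity) h3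
  rw [Real.log_mul (by positivity) (by positivity), Real.log_pow] at h6
  have h7 : Real.log 2 ≤ 1 := by have := Real.log_two_lt_d9; linarith
  have h8 : ((2 * k + 1 : ℕ) : ℝ) * Real.log 2 ≤ ((2 * k + 1 : ℕ) : ℝ) * 1 := by gcongr
  push_cast at h6 h8
  linarith

theorem J1Ait_small {M c r : ℝ} (hc : 0 < c) (hr : 0 < r) :
    ∃ ρ : ℝ, 0 < ρ ∧ ρ ≤ r ∧ M * ρ ^ 2 < c := by
  have h1 : Tendsto (fun ρ : ℝ => M * ρ ^ 2) (𝓝[>] 0) (𝓝 0) := by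
    have : Tendsto (fun ρ : ℝ => M * ρ ^ 2) (𝓝 0) (𝓝 (M * 0 ^ 2)) :=
      (by fun_prop : Continuous fun ρ : ℝ => M * ρ ^ 2).tendsto 0
    simpa using this.mono_left nhdsWithin_le_nhds
  obtain ⟨ρ, h2, h3⟩ := ((h1.eventually (gt_mem_nhds hc)).and (Ioc_mem_nhdsGT hr)).exists
  exact ⟨ρ, h3.1, h3.2, h2⟩

theorem ait {c₀ C₀ : ℝ} (hc : 0 < c₀) (hC : 0 ≤ C₀) : ∃ ε η A₀ : ℝ, 0 < ε ∧ 0 < η ∧
    ∀ (a b : ℂ → ℂ × ℂ) (Λ r A : ℝ), Pair a b Λ r → A₀ ≤ A →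
      (∀ γ ∈ closedBall (0 : ℂ × ℂ) 8,
        |Vf (fun s => ((a s).1, 0)) (fun t => (0, (b t).2)) 1 γ| ≤ C₀ * A ∧
        |Vf a b r γ - Vf (fun s => ((a s).1, 0)) (fun t => (0, (b t).2)) 1 γ| ≤ ε * A) →
      c₀ * A ≤ ∫ s in closedBall (0 : ℂ) 1, fs (fun s => (a s).1) s →
      c₀ * A ≤ ∫ t in closedBall (0 : ℂ) 1, fs (fun t => (b t).2) t →
      volume.real (Eset a b r) + volume.real (Eset b a r) ≤ η →
      ∃ s t : ℂ, ‖s‖ ≤ 4 ∧ ‖t‖ ≤ 4 ∧ a s = b t := by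
  obtain ⟨φ, hφ, hs2, hφ0, hφ1⟩ := exists_cut (R := 1) one_pos
  have hs2' : tsupport φ ⊆ closedBall 0 2 := by rwa [one_add_one_eq_two] at hs2
  have hs : tsupport φ ⊆ closedBall 0 7 := hs2'.trans (closedBall_subset_closedBall (by norm_num))
  obtain ⟨C₁, hC₁, H₁⟩ := cmp_sup hφ hs
  obtain ⟨C₂, hC₂, H₂⟩ := cmp_dep hφ hs
  obtain ⟨C₃, hC₃, H₃⟩ := energy (C₀ + 1) (by linarith)
  obtain ⟨η₁, hη₁, H₄⟩ := noline C₃ hC₃
  refine ⟨min 1 (c₀ ^ 2 / (4 * (C₁ + 1) * (C₀ + 1))), min η₁ (c₀ ^ 2 / (40 * (C₂ + 1))),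
    max 3 (8 * (C₂ + 1) * (C₀ + 1) / c₀ ^ 2), by positivity, by positivity, ?_⟩
  set ε := min 1 (c₀ ^ 2 / (4 * (C₁ + 1) * (C₀ + 1))) with hε
  have hε0 : 0 < ε := by positivity
  intro a b Λ r A hP hA hV ha hb hE
  by_contra hn
  push Not at hn
  have hA3 : 3 ≤ A := (le_max_left _ _).trans hA
  have hA4 : 8 * (C₂ + 1) * (C₀ + 1) ≤ A * c₀ ^ 2 :=
    (div_le_iff₀ (by positivity)).1 ((le_max_right _ _).trans hA)
  have hr := hP.pos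
  have hA9 : 9 ≤ A ^ 2 := by nlinarith
  set k := ⌈A ^ 2⌉₊ with hk
  have hk1 : A ^ 2 ≤ k := Nat.le_ceil _
  have hk2 : (k : ℝ) < A ^ 2 + 1 := Nat.ceil_lt_add_one (by positivity)
  have hk6 : 6 ≤ k := by
    have : (6 : ℝ) ≤ k := by linarith
    exact_mod_cast this
  have hVB : ∀ γ ∈ closedBall (0 : ℂ × ℂ) 8, |Vf a b r γ| ≤ (C₀ + 1) * A := by
    intro γ hγ
    obtain ⟨h1, h2⟩ := hV γ hγ
    have h3 : ε * A ≤ 1 * A := by gcongr; exact min_le_left _ _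
    have h4 := abs_sub_abs_le_abs_sub (Vf a b r γ)
      (Vf (fun s => ((a s).1, 0)) (fun t => (0, (b t).2)) 1 γ)
    linarith
  have hE0 : 0 ≤ volume.real (Eset a b r) := measureReal_nonneg
  have hE1 : 0 ≤ volume.real (Eset b a r) := measureReal_nonneg
  have hη : min η₁ (c₀ ^ 2 / (40 * (C₂ + 1))) ≤ η₁ := min_le_left _ _
  have hen := H₃ a b Λ r A k hP (by linarith) hk1 hVB
  have hen' : ∑ j ∈ Finset.range (k + 1),
      ∫ γ in closedBall (0 : ℂ × ℂ) 6, dens b a (r / 2 ^ j) γ ≤ C₃ * k ^ 2 := by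
    simp_rw [int_dens_swap a b]; exact hen
  have hμ : (r / 2 ^ k) ^ 2 < r ^ 2 := by
    have h1 : (1 : ℝ) < 2 ^ k := one_lt_pow₀ one_lt_two (by omega)
    have h2 : r / 2 ^ k < r := div_lt_self hr h1
    gcongr
  have hdep := box_depth hP.da hP.db (μ := (r / 2 ^ k) ^ 2) (fun s t h1 h2 => hn s t h1 h2)
    (fun s t h1 h2 h3 => (hP.lin s t (by linarith) (by linarith) (h3.trans_lt hμ)).2.ne)
    (H₄ a b Λ r k hP hk6 hen (by linarith)) (H₄ b a Λ r k hP.symm hk6 hen' (by linarith))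
  have hF : Differentiable ℂ fun s => (a s).1 := hP.da.fst
  have hG : Differentiable ℂ fun t => (b t).2 := hP.db.snd
  have hlow := model_low hφ hs hφ0 hφ1 hF hG
  have hl2 : c₀ * A * (c₀ * A) ≤ (∫ s in closedBall (0 : ℂ) 1, fs (fun s => (a s).1) s) *
      ∫ t in closedBall (0 : ℂ) 1, fs (fun t => (b t).2) t :=
    mul_le_mul ha hb (by positivity) ((by positivity : 0 ≤ c₀ * A).trans ha)
  have h1 := H₁ a b (fun s => ((a s).1, 0)) (fun t => (0, (b t).2)) r 1 ((C₀ + 1) * A) (ε * A)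
    hP.da hP.db (hF.prodMk (differentiable_const _)) ((differentiable_const _).prodMk hG) hr one_pos
    (by positivity) (by positivity)
    (fun γ hγ => ⟨hVB γ hγ, (hV γ hγ).1.trans (by linarith), (hV γ hγ).2⟩)
  have h2 : C₁ * (ε * A) * ((C₀ + 1) * A) ≤ c₀ ^ 2 * A ^ 2 / 4 := by
    have h3 : ε * (4 * (C₁ + 1) * (C₀ + 1)) ≤ c₀ ^ 2 :=
      (le_div_iff₀ (by positivity)).1 (min_le_right _ _)
    have h4 : C₁ * (C₀ + 1) * ε ≤ c₀ ^ 2 / 4 := by linarith [mul_nonneg hε0.le hC]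
    calc C₁ * (ε * A) * ((C₀ + 1) * A) = C₁ * (C₀ + 1) * ε * A ^ 2 := by ring
      _ ≤ c₀ ^ 2 / 4 * A ^ 2 := by gcongr
      _ = _ := by ring
  obtain ⟨M, hM⟩ := dens_small hφ hs hP.da hP.db (μ := r / 2 ^ k) (by positivity)
    fun γ hγ => (hdep γ (hs2' hγ)).le
  obtain ⟨ρ, hρ, hρr, hρM⟩ := J1Ait_small (M := M) (c := c₀ ^ 2 * A ^ 2 / 2) (by positivity) hr
  have h3 := H₂ a b Λ r ρ ((C₀ + 1) * A) (5 * A ^ 2) hP hρ hρr (by positivity) (by positivity) hVB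
    (fun γ hγ h => (J1Ait_dep hr hρ (hdep γ (hs2' hγ)).le h).trans (by linarith))
  have h4 : C₂ * ((C₀ + 1) * A) ≤ c₀ ^ 2 * A ^ 2 / 8 := by
    have h5 : C₂ * (C₀ + 1) ≤ A * c₀ ^ 2 / 8 := by linarith
    calc C₂ * ((C₀ + 1) * A) = C₂ * (C₀ + 1) * A := by ring
      _ ≤ A * c₀ ^ 2 / 8 * A := by gcongr
      _ = _ := by ring
  have h5 : C₂ * (5 * A ^ 2 * (volume.real (Eset a b r) + volume.real (Eset b a r))) ≤
      c₀ ^ 2 * A ^ 2 / 8 := by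
    have h6 : (volume.real (Eset a b r) + volume.real (Eset b a r)) * (40 * (C₂ + 1)) ≤ c₀ ^ 2 :=
      (le_div_iff₀ (by positivity)).1 (hE.trans (min_le_right _ _))
    have h7 : C₂ * (volume.real (Eset a b r) + volume.real (Eset b a r)) * 5 ≤ c₀ ^ 2 / 8 := by
      linarith
    calc _ = C₂ * (volume.real (Eset a b r) + volume.real (Eset b a r)) * 5 * A ^ 2 := by ring
      _ ≤ c₀ ^ 2 / 8 * A ^ 2 := by gcongr
      _ = _ := by ring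
  have h6 := hM ρ hρ
  have h7 := (abs_le.1 h1).1
  have h8 := (abs_le.1 h3).2
  rw [mul_add C₂] at h8
  have h9 : c₀ * A * (c₀ * A) = c₀ ^ 2 * A ^ 2 := by ring
  linarith

end Pool.Agent.Lib.MP_7b5e47_an.Hq
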