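import Pool.Agent.Lib.MP_7b5e47_an.Hq.J1Def

/-! The Levi matrix of the regularized logarithm of the distance. -/

namespace Pool.Agent.Lib.MP_7b5e47_an.Hq

open MeasureTheory Set Metric Filter Topology

variable {a b : ℂ → ℂ × ℂ} {ρ : ℝ}

theorem J1Alg_cd1 (ha : Differentiable ℂ a) (hb : Differentiable ℂ b) :
    ContDiff ℂ (⊤ : ℕ∞) fun γ : ℂ × ℂ => (a γ.1 - b γ.2).1 :=
  (((ha.contDiff (n := ((⊤ : ℕ∞) : WithTop ℕ∞))).comp contDiff_fst).sub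
    ((hb.contDiff (n := ((⊤ : ℕ∞) : WithTop ℕ∞))).comp contDiff_snd)).fst

theorem J1Alg_cd2 (ha : Differentiable ℂ a) (hb : Differentiable ℂ b) :
    ContDiff ℂ (⊤ : ℕ∞) fun γ : ℂ × ℂ => (a γ.1 - b γ.2).2 :=
  (((ha.contDiff (n := ((⊤ : ℕ∞) : WithTop ℕ∞))).comp contDiff_fst).sub
    ((hb.contDiff (n := ((⊤ : ℕ∞) : WithTop ℕ∞))).comp contDiff_snd)).snd

theorem J1Alg_fd (ha : Differentiable ℂ a) (hb : Differentiable ℂ b) (γ : ℂ × ℂ) :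
    HasFDerivAt (fun γ : ℂ × ℂ => a γ.1 - b γ.2)
      ((ContinuousLinearMap.fst ℂ ℂ ℂ).smulRight (deriv a γ.1) -
        (ContinuousLinearMap.snd ℂ ℂ ℂ).smulRight (deriv b γ.2)) γ := by
  have h1 := (ha γ.1).hasDerivAt.hasFDerivAt.comp γ (hasFDerivAt_fst (𝕜 := ℂ) (p := γ))
  have h2 := (hb γ.2).hasDerivAt.hasFDerivAt.comp γ (hasFDerivAt_snd (𝕜 := ℂ) (p := γ))
  refine (h1.sub h2).congr_fderiv ?_
  ext <;> simp

theorem J1Alg_fd1 (ha : Differentiable ℂ a) (hb : Differentiable ℂ b) (γ v : ℂ × ℂ) :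
    fderiv ℂ (fun γ : ℂ × ℂ => (a γ.1 - b γ.2).1) γ v =
      (v.1 • deriv a γ.1 - v.2 • deriv b γ.2).1 := by
  rw [(J1Alg_fd ha hb γ).fst.fderiv]
  simp

theorem J1Alg_fd2 (ha : Differentiable ℂ a) (hb : Differentiable ℂ b) (γ v : ℂ × ℂ) :
    fderiv ℂ (fun γ : ℂ × ℂ => (a γ.1 - b γ.2).2) γ v =
      (v.1 • deriv a γ.1 - v.2 • deriv b γ.2).2 := by
  rw [(J1Alg_fd ha hb γ).snd.fderiv]
  simp

theorem J1Alg_Q (a b : ℂ → ℂ × ℂ) (ρ : ℝ) : (fun γ => Aq a b γ + ρ ^ 2) =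
    fun γ : ℂ × ℂ => 1 * ‖(a γ.1 - b γ.2).1‖ ^ 2 + 1 * ‖(a γ.1 - b γ.2).2‖ ^ 2 + ρ ^ 2 := by
  funext γ
  simp only [Aq, nsq, one_mul]

theorem J1Alg_smQ (ha : Differentiable ℂ a) (hb : Differentiable ℂ b) (ρ : ℝ) :
    Sm fun γ => Aq a b γ + ρ ^ 2 := by
  rw [J1Alg_Q]
  have h1 := sm_normSq (J1Alg_cd1 ha hb)
  have h2 := sm_normSq (J1Alg_cd2 ha hb)
  unfold Sm at *
  exact ((contDiff_const.mul h1).add (contDiff_const.mul h2)).add contDiff_const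

theorem J1Alg_dvQ (ha : Differentiable ℂ a) (hb : Differentiable ℂ b) (ρ : ℝ) (v γ : ℂ × ℂ) :
    Dv v (fun γ => Aq a b γ + ρ ^ 2) γ =
      2 * (hp (v.1 • deriv a γ.1 - v.2 • deriv b γ.2) (a γ.1 - b γ.2)).re := by
  rw [J1Alg_Q, dv_lin (sm_normSq (J1Alg_cd1 ha hb)) (sm_normSq (J1Alg_cd2 ha hb)),
    dv_normSq (J1Alg_cd1 ha hb), dv_normSq (J1Alg_cd2 ha hb), J1Alg_fd1 ha hb, J1Alg_fd2 ha hb]
  simp only [hp, Complex.add_re]
  ring

theorem J1Alg_levQ (ha : Differentiable ℂ a) (hb : Differentiable ℂ b) (ρ : ℝ) (v w γ : ℂ × ℂ) :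
    Lev (fun γ => Aq a b γ + ρ ^ 2) v w γ =
      4 * (hp (v.1 • deriv a γ.1 - v.2 • deriv b γ.2)
        (w.1 • deriv a γ.1 - w.2 • deriv b γ.2)).re := by
  rw [J1Alg_Q, lev_lin (sm_normSq (J1Alg_cd1 ha hb)) (sm_normSq (J1Alg_cd2 ha hb)),
    lev_normSq (J1Alg_cd1 ha hb), lev_normSq (J1Alg_cd2 ha hb), J1Alg_fd1 ha hb, J1Alg_fd2 ha hb,
    J1Alg_fd1 ha hb, J1Alg_fd2 ha hb]
  simp only [hp, Complex.add_re]
  ring

theorem J1Alg_hp_smul (c : ℂ) (u v : ℂ × ℂ) : hp (c • u) v = c * hp u v := by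
  simp only [hp, Prod.smul_fst, Prod.smul_snd, smul_eq_mul]
  ring

theorem J1Alg_dvI (ha : Differentiable ℂ a) (hb : Differentiable ℂ b) (ρ : ℝ) (v γ : ℂ × ℂ) :
    Dv (Complex.I • v) (fun γ => Aq a b γ + ρ ^ 2) γ =
      -(2 * (hp (v.1 • deriv a γ.1 - v.2 • deriv b γ.2) (a γ.1 - b γ.2)).im) := by
  rw [J1Alg_dvQ ha hb]
  have h : (Complex.I • v).1 • deriv a γ.1 - (Complex.I • v).2 • deriv b γ.2 =
      Complex.I • (v.1 • deriv a γ.1 - v.2 • deriv b γ.2) := by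
    simp only [Prod.smul_fst, Prod.smul_snd, smul_eq_mul, smul_sub, smul_smul]
  rw [h, J1Alg_hp_smul]
  simp

theorem J1Alg_Qpos (a b : ℂ → ℂ × ℂ) (hρ : 0 < ρ) (γ : ℂ × ℂ) : 0 < Aq a b γ + ρ ^ 2 := by
  have := Aq_nonneg a b γ
  positivity

theorem J1Alg_key (α β Φ : ℂ × ℂ) :
    nsq β * ‖hp α Φ‖ ^ 2 + nsq α * ‖hp β Φ‖ ^ 2 -
      2 * ((hp α β).re * (hp α Φ * (starRingEnd ℂ) (hp β Φ)).re +
        (hp α β).im * (hp α Φ * (starRingEnd ℂ) (hp β Φ)).im) = nsq Φ * ‖wd α β‖ ^ 2 := by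
  simp only [hp, wd, nsq, Complex.sq_norm, Complex.normSq_apply, Complex.add_re, Complex.add_im,
    Complex.sub_re, Complex.sub_im, Complex.mul_re, Complex.mul_im, Complex.conj_re,
    Complex.conj_im]
  ring

theorem J1Alg_hp_neg_right (u v : ℂ × ℂ) : hp u (-v) = -hp u v := by
  simp only [hp, Prod.fst_neg, Prod.snd_neg, map_neg]
  ring

theorem J1Alg_hp_neg_left (u v : ℂ × ℂ) : hp (-u) v = -hp u v := by
  simp only [hp, Prod.fst_neg, Prod.snd_neg]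
  ring

theorem J1Alg_hp_smul_right (c : ℂ) (u v : ℂ × ℂ) :
    hp u (c • v) = (starRingEnd ℂ) c * hp u v := by
  simp only [hp, Prod.smul_fst, Prod.smul_snd, smul_eq_mul, map_mul]
  ring

theorem J1Alg_re_self (z : ℂ) : (z * (starRingEnd ℂ) z).re = ‖z‖ ^ 2 := by
  rw [Complex.mul_conj, Complex.normSq_eq_norm_sq]
  norm_cast

/- `Aq a b γ = ‖h₁ γ‖ ^ 2 + ‖h₂ γ‖ ^ 2` with `h₁ γ = (a γ.1).1 - (b γ.2).1`, `h₂` likewise, which are
`ContDiff ℂ ⊤` (`Differentiable.contDiff` in one variable, composed with the projections);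
`sm_normSq`, `ContDiff.log`. -/
theorem sm_Vf (ha : Differentiable ℂ a) (hb : Differentiable ℂ b) (hρ : 0 < ρ) : Sm (Vf a b ρ) := by
  have h := J1Alg_smQ ha hb ρ
  unfold Sm at *
  exact h.log fun γ => (J1Alg_Qpos a b hρ γ).ne'

/- `lev_comp` with `θ = Real.log` at `Q = Aq + ρ ^ 2 > 0` (`deriv θ = x⁻¹`,
`deriv (deriv θ) = -(x ^ 2)⁻¹`), `lev_lin`, `dv_lin`, `lev_normSq`, `dv_normSq`. With `Φ = a s - b t` and
`D v = v.1 • deriv a s - v.2 • deriv b t`: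
`Lev Q v w = 4 re (hp (D v) (D w))`, `Dv v Q = 2 re (hp (D v) Φ)`, `Dv (I • v) Q = -2 im (hp (D v) Φ)`. -/
theorem lev_Vf (ha : Differentiable ℂ a) (hb : Differentiable ℂ b) (hρ : 0 < ρ) (v w γ : ℂ × ℂ) :
    Lev (Vf a b ρ) v w γ = 4 * ((Aq a b γ + ρ ^ 2) *
      (hp (v.1 • deriv a γ.1 - v.2 • deriv b γ.2) (w.1 • deriv a γ.1 - w.2 • deriv b γ.2)).re -
      (hp (v.1 • deriv a γ.1 - v.2 • deriv b γ.2) (a γ.1 - b γ.2) * (starRingEnd ℂ)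
        (hp (w.1 • deriv a γ.1 - w.2 • deriv b γ.2) (a γ.1 - b γ.2))).re) /
      (Aq a b γ + ρ ^ 2) ^ 2 := by
  have hQ := J1Alg_Qpos a b hρ γ
  have hθ : ContDiffAt ℝ 2 Real.log ((fun γ => Aq a b γ + ρ ^ 2) γ) :=
    Real.contDiffAt_log.2 hQ.ne'
  have h := lev_comp (J1Alg_smQ ha hb ρ) hθ v w
  have hd : deriv Real.log = fun x => x⁻¹ := funext Real.deriv_log
  have hV : Vf a b ρ = fun y => Real.log (Aq a b y + ρ ^ 2) := rfl
  rw [hV, h, hd, deriv_inv, J1Alg_levQ ha hb]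
  simp only [Gr]
  rw [J1Alg_dvQ ha hb, J1Alg_dvQ ha hb, J1Alg_dvI ha hb, J1Alg_dvI ha hb]
  simp only [Complex.mul_re, Complex.conj_re, Complex.conj_im]
  field_simp
  ring

/- `lev_Vf` and `lagrange` (or real coordinates and `ring`). -/
theorem L1_Vf (ha : Differentiable ℂ a) (hb : Differentiable ℂ b) (hρ : 0 < ρ) (γ : ℂ × ℂ) :
    L1 (Vf a b ρ) γ = sl a (b γ.2) ρ γ.1 := by
  have h := lagrange (deriv a γ.1) (a γ.1 - b γ.2)
  have hw : wd (deriv a γ.1) (b γ.2 - a γ.1) = -wd (deriv a γ.1) (a γ.1 - b γ.2) := by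
    simp only [wd, Prod.fst_sub, Prod.snd_sub]; ring
  have hn : nsq (b γ.2 - a γ.1) = Aq a b γ := by rw [← nsq_neg, neg_sub]; rfl
  unfold L1 sl
  rw [lev_Vf ha hb hρ, hw, hn, norm_neg]
  simp only [one_smul, zero_smul, sub_zero]
  rw [hp_self, J1Alg_re_self, Complex.ofReal_re]
  congr 2
  unfold Aq
  linarith

theorem L2_Vf (ha : Differentiable ℂ a) (hb : Differentiable ℂ b) (hρ : 0 < ρ) (γ : ℂ × ℂ) :
    L2 (Vf a b ρ) γ = sl b (a γ.1) ρ γ.2 := by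
  have h := lagrange (deriv b γ.2) (a γ.1 - b γ.2)
  unfold L2 sl
  rw [lev_Vf ha hb hρ]
  simp only [one_smul, zero_smul, zero_sub]
  rw [hp_self, J1Alg_re_self, Complex.ofReal_re, nsq_neg, J1Alg_hp_neg_left, norm_neg]
  unfold Aq
  congr 2
  linarith

/- With `Q = nsq Φ + ρ ^ 2`, `α = deriv a s`, `β = deriv b t`, the polynomial identity
`(Q nsq α - |hp α Φ|²) (Q nsq β - |hp β Φ|²) - |Q hp α β - hp α Φ conj (hp β Φ)|² = Q ρ² |wd α β|²`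
(twelve real coordinates and `ρ`; first prove the complex identity
`nsq β |hp α Φ|² + nsq α |hp β Φ|² - 2 re (hp α β conj (hp α Φ) hp β Φ) = nsq Φ |wd α β|²` by `ring` in real
coordinates, then combine with `lagrange`). -/
theorem ma_Vf (ha : Differentiable ℂ a) (hb : Differentiable ℂ b) (hρ : 0 < ρ) (γ : ℂ × ℂ) :
    MA (Vf a b ρ) (Vf a b ρ) γ = 32 * dens a b ρ γ := by
  have hQ := J1Alg_Qpos a b hρ γ
  have hk := J1Alg_key (deriv a γ.1) (deriv b γ.2) (a γ.1 - b γ.2)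
  have hl := lagrange (deriv a γ.1) (deriv b γ.2)
  have hA : nsq (a γ.1 - b γ.2) = Aq a b γ := rfl
  rw [hA] at hk
  unfold MA L1 L2 LA LB dens
  simp only [lev_Vf ha hb hρ, one_smul, zero_smul, zero_sub, sub_zero, J1Alg_hp_neg_left,
    J1Alg_hp_neg_right, neg_neg, J1Alg_hp_smul, J1Alg_hp_smul_right, hp_self, map_neg, map_mul,
    neg_mul, mul_neg, Complex.ofReal_re, J1Alg_re_self, Complex.neg_re, nsq_neg]
  have h1 : ‖hp (deriv a γ.1) (deriv b γ.2)‖ ^ 2 = (hp (deriv a γ.1) (deriv b γ.2)).re ^ 2 +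
      (hp (deriv a γ.1) (deriv b γ.2)).im ^ 2 := by
    rw [Complex.sq_norm, Complex.normSq_apply]; ring
  have h2 : ‖hp (deriv a γ.1) (a γ.1 - b γ.2)‖ ^ 2 * ‖hp (deriv b γ.2) (a γ.1 - b γ.2)‖ ^ 2 =
      (hp (deriv a γ.1) (a γ.1 - b γ.2) * (starRingEnd ℂ) (hp (deriv b γ.2) (a γ.1 - b γ.2))).re ^ 2 +
      (hp (deriv a γ.1) (a γ.1 - b γ.2) *
        (starRingEnd ℂ) (hp (deriv b γ.2) (a γ.1 - b γ.2))).im ^ 2 := by
    simp only [Complex.sq_norm, Complex.normSq_apply, Complex.mul_re, Complex.mul_im,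
      Complex.conj_re, Complex.conj_im]
    ring
  have h3 : ((starRingEnd ℂ) Complex.I * hp (deriv a γ.1) (deriv b γ.2)).re =
      (hp (deriv a γ.1) (deriv b γ.2)).im := by simp
  have h4 : (hp (deriv a γ.1) (a γ.1 - b γ.2) *
      ((starRingEnd ℂ) Complex.I * (starRingEnd ℂ) (hp (deriv b γ.2) (a γ.1 - b γ.2)))).re =
      (hp (deriv a γ.1) (a γ.1 - b γ.2) *
        (starRingEnd ℂ) (hp (deriv b γ.2) (a γ.1 - b γ.2))).im := by
    simp only [Complex.mul_re, Complex.mul_im, Complex.conj_re, Complex.conj_im, Complex.I_re,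
      Complex.I_im]
    ring
  rw [h3, h4]
  generalize (hp (deriv a γ.1) (a γ.1 - b γ.2) *
    (starRingEnd ℂ) (hp (deriv b γ.2) (a γ.1 - b γ.2))).re = x at *
  generalize (hp (deriv a γ.1) (a γ.1 - b γ.2) *
    (starRingEnd ℂ) (hp (deriv b γ.2) (a γ.1 - b γ.2))).im = y at *
  generalize ‖hp (deriv a γ.1) (a γ.1 - b γ.2)‖ ^ 2 = p at *
  generalize ‖hp (deriv b γ.2) (a γ.1 - b γ.2)‖ ^ 2 = q at *
  generalize (hp (deriv a γ.1) (deriv b γ.2)).re = m at *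
  generalize (hp (deriv a γ.1) (deriv b γ.2)).im = n at *
  generalize ‖wd (deriv a γ.1) (deriv b γ.2)‖ ^ 2 = W at *
  generalize nsq (deriv a γ.1) = A at *
  generalize nsq (deriv b γ.2) = B at *
  generalize Aq a b γ = F at *
  rw [h1] at hl
  have hQ' := hQ.ne'
  field_simp
  linear_combination (-32 * (F + ρ ^ 2) ^ 2) * hl - 32 * (F + ρ ^ 2) * hk + 32 * h2

/- `L1, L2 ≥ 0` by `sl_nonneg`; `2 (L1 L2 - LA ^ 2 - LB ^ 2) = 32 dens ≥ 0`. -/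
theorem psd_Vf (ha : Differentiable ℂ a) (hb : Differentiable ℂ b) (hρ : 0 < ρ) (γ : ℂ × ℂ) :
    Psd 0 (Vf a b ρ) γ := by
  have h1 := L1_Vf ha hb hρ γ
  have h2 := L2_Vf ha hb hρ γ
  have h3 := ma_Vf ha hb hρ γ
  have h4 := dens_nonneg a b ρ γ
  refine ⟨h1 ▸ sl_nonneg _ _ _ _, h2 ▸ sl_nonneg _ _ _ _, ?_⟩
  unfold MA at h3
  nlinarith

theorem sm_slice_log (hb : Differentiable ℂ b) (hρ : 0 < ρ) (P : ℂ × ℂ) :
    Sm fun t => Real.log (nsq (P - b t) + ρ ^ 2) := by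
  exact sm_slice2 (sm_Vf (a := fun _ => P) (differentiable_const P) hb hρ) 0

/- `lap_slice2` and `L2_Vf` for the constant curve `fun _ => P`. -/
theorem lap_slice_log (hb : Differentiable ℂ b) (hρ : 0 < ρ) (P : ℂ × ℂ) (t : ℂ) :
    Lap (fun t => Real.log (nsq (P - b t) + ρ ^ 2)) t = sl b P ρ t := by
  have h := lap_slice2 (sm_Vf (a := fun _ => P) (differentiable_const P) hb hρ) 0 t
  rw [L2_Vf (differentiable_const P) hb hρ] at h
  exact h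

theorem continuous_sl (ha : Differentiable ℂ a) (hb : Differentiable ℂ b) (hρ : 0 < ρ) :
    Continuous fun γ : ℂ × ℂ => sl b (a γ.1) ρ γ.2 := by
  have h1 := ha.continuous
  have h2 := hb.continuous
  have h3 := continuous_deriv_ent hb
  have h4 := continuous_nsq
  unfold sl
  refine Continuous.div ?_ (by fun_prop) fun γ => ?_
  · unfold wd; fun_prop
  · have := nsq_nonneg (a γ.1 - b γ.2)
    positivity

/- `(x + ρ² y) / (A + ρ²)² ≤ (x + r² y) / A² ≤ 4 (x + r² y) / (A + r²)²` for `r² ≤ A`. -/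
theorem sl_le {P : ℂ × ℂ} {r : ℝ} {t : ℂ} (hρ : 0 < ρ) (hr : ρ ≤ r) (h : r ^ 2 ≤ nsq (P - b t)) :
    sl b P ρ t ≤ 4 * sl b P r t := by
  unfold sl
  have hy := nsq_nonneg (deriv b t)
  have hx := sq_nonneg ‖wd (deriv b t) (P - b t)‖
  generalize ‖wd (deriv b t) (P - b t)‖ ^ 2 = x at *
  generalize nsq (deriv b t) = y at *
  generalize nsq (P - b t) = A at *
  have hr0 : 0 < r := hρ.trans_le hr
  have hρr : ρ ^ 2 ≤ r ^ 2 := pow_le_pow_left₀ hρ.le hr 2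
  have hρ2 : 0 < ρ ^ 2 := by positivity
  have hA : 0 < A := lt_of_lt_of_le (by positivity) h
  have hN : x + ρ ^ 2 * y ≤ x + r ^ 2 * y := by nlinarith
  have hN0 : 0 ≤ x + r ^ 2 * y := by positivity
  calc 4 * (x + ρ ^ 2 * y) / (A + ρ ^ 2) ^ 2 ≤ 4 * (x + r ^ 2 * y) / A ^ 2 := by
        gcongr
        linarith
    _ = 4 * (4 * (x + r ^ 2 * y) / (2 * A) ^ 2) := by field_simp; ring
    _ ≤ 4 * (4 * (x + r ^ 2 * y) / (A + r ^ 2) ^ 2) := by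
        gcongr
        linarith

end Pool.Agent.Lib.MP_7b5e47_an.Hq
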