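import Pool.Agent.Lib.MP_7b5e47_an.Hq.J1Str

/-! Comparison of Monge-Ampere masses. -/

namespace Pool.Agent.Lib.MP_7b5e47_an.Hq

open MeasureTheory Set Metric Filter Topology

variable {φ : ℂ × ℂ → ℝ}

theorem J1Cmp_int {u : ℂ × ℂ → ℝ} (hu : Sm u) {S : Set (ℂ × ℂ)} (hS : S ⊆ closedBall 0 7) :
    IntegrableOn (tr u) S :=
  ((ContDiff.continuous hu.tr).continuousOn.integrableOn_compact
    (isCompact_closedBall (0 : ℂ × ℂ) 7)).mono_set hS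

theorem J1Cmp_mass : ∃ C : ℝ, 0 ≤ C ∧ ∀ (v : ℂ × ℂ → ℝ) (B : ℝ), Sm v → (∀ γ, Psd 0 v γ) →
    0 ≤ B → (∀ γ ∈ closedBall (0 : ℂ × ℂ) 8, |v γ| ≤ B) →
    ∫ γ in closedBall (0 : ℂ × ℂ) 7, tr v γ ≤ C * B :=
  mass_sup (isCompact_closedBall _ _) (isCompact_closedBall _ _)
    ((closedBall_subset_ball (by norm_num)).trans ball_subset_interior_closedBall)

theorem J1Cmp_base (hφ : Sm φ) (hs : tsupport φ ⊆ closedBall 0 7) : ∃ C : ℝ, 0 ≤ C ∧
    ∀ (a b a' b' : ℂ → ℂ × ℂ) (r r' : ℝ) (g : ℂ × ℂ → ℝ), Differentiable ℂ a → Differentiable ℂ b →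
      Differentiable ℂ a' → Differentiable ℂ b' → 0 < r → 0 < r' → Integrable g → (∀ γ, 0 ≤ g γ) →
      (∀ γ ∈ tsupport φ, |Vf a b r γ - Vf a' b' r' γ| *
        (tr (Vf a b r) γ + tr (Vf a' b' r') γ) ≤ g γ) →
      |(∫ γ, φ γ * dens a b r γ) - ∫ γ, φ γ * dens a' b' r' γ| ≤ C * ∫ γ, g γ := by
  have hc : HasCompactSupport φ :=
    (isCompact_closedBall (0 : ℂ × ℂ) 7).of_isClosed_subset (isClosed_tsupport φ) hs
  obtain ⟨C, hC, h⟩ := ma_abs_le hφ hc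
  refine ⟨C, hC, fun a b a' b' r r' g ha hb ha' hb' hr hr' hg hg0 hle => ?_⟩
  have h1 := parts_ma_sub hφ hc (sm_Vf ha hb hr) (sm_Vf ha' hb' hr')
  simp only [ma_Vf ha hb hr, ma_Vf ha' hb' hr', mul_left_comm _ (32 : ℝ), integral_const_mul] at h1
  have h2 : ‖∫ γ, (Vf a b r γ - Vf a' b' r' γ) * (MA φ (Vf a b r) γ + MA φ (Vf a' b' r') γ)‖ ≤
      ∫ γ, C * g γ := by
    refine norm_integral_le_of_norm_le (hg.const_mul C) (ae_of_all _ fun γ => ?_)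
    by_cases hγ : γ ∈ tsupport φ
    · rw [norm_mul, Real.norm_eq_abs, Real.norm_eq_abs]
      have h3 := (abs_add_le _ _).trans
        (add_le_add (h _ γ (psd_Vf ha hb hr γ)) (h _ γ (psd_Vf ha' hb' hr' γ)))
      refine (mul_le_mul_of_nonneg_left h3 (abs_nonneg _)).trans ?_
      have h4 := mul_le_mul_of_nonneg_left (hle γ hγ) hC
      linarith
    · rw [ma_eq_zero hγ, ma_eq_zero hγ, add_zero, mul_zero, norm_zero]
      exact mul_nonneg hC (hg0 γ)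
  rw [← h1, ← mul_sub, integral_const_mul, Real.norm_eq_abs, abs_mul,
    abs_of_pos (by norm_num : (0 : ℝ) < 32)] at h2
  linarith [abs_nonneg ((∫ γ, φ γ * dens a b r γ) - ∫ γ, φ γ * dens a' b' r' γ)]

/- `parts_ma_sub`, `ma_Vf`; the integrand vanishes outside `tsupport φ` (`ma_eq_zero`), and is at most
`δ C (tr V + tr V')` on `closedBall 0 7` (`ma_abs_le`, `psd_Vf`); `mass_sup` with the balls of radii 7, 8. -/
theorem cmp_sup (hφ : Sm φ) (hs : tsupport φ ⊆ closedBall 0 7) : ∃ C : ℝ, 0 ≤ C ∧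
    ∀ (a b a' b' : ℂ → ℂ × ℂ) (r r' B δ : ℝ), Differentiable ℂ a → Differentiable ℂ b →
      Differentiable ℂ a' → Differentiable ℂ b' → 0 < r → 0 < r' → 0 ≤ B → 0 ≤ δ →
      (∀ γ ∈ closedBall (0 : ℂ × ℂ) 8, |Vf a b r γ| ≤ B ∧ |Vf a' b' r' γ| ≤ B ∧
        |Vf a b r γ - Vf a' b' r' γ| ≤ δ) →
      |(∫ γ, φ γ * dens a b r γ) - ∫ γ, φ γ * dens a' b' r' γ| ≤ C * δ * B := by
  obtain ⟨C₀, hC₀, h₀⟩ := J1Cmp_base hφ hs
  obtain ⟨C₁, hC₁, h₁⟩ := J1Cmp_mass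
  refine ⟨2 * C₀ * C₁, by positivity, ?_⟩
  intro a b a' b' r r' B δ ha hb ha' hb' hr hr' hB hδ h
  have i1 := J1Cmp_int (sm_Vf ha hb hr) (S := closedBall 0 7) Subset.rfl
  have i2 := J1Cmp_int (sm_Vf ha' hb' hr') (S := closedBall 0 7) Subset.rfl
  have m1 := h₁ _ B (sm_Vf ha hb hr) (psd_Vf ha hb hr) hB fun γ hγ => (h γ hγ).1
  have m2 := h₁ _ B (sm_Vf ha' hb' hr') (psd_Vf ha' hb' hr') hB fun γ hγ => (h γ hγ).2.1
  have hn : ∀ γ, 0 ≤ tr (Vf a b r) γ + tr (Vf a' b' r') γ := fun γ =>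
    add_nonneg (psd_Vf ha hb hr γ).tr_nonneg (psd_Vf ha' hb' hr' γ).tr_nonneg
  refine (h₀ a b a' b' r r' ((closedBall 0 7).indicator
    fun γ => δ * (tr (Vf a b r) γ + tr (Vf a' b' r') γ)) ha hb ha' hb' hr hr'
    ((integrable_indicator_iff measurableSet_closedBall).2 ((i1.add i2).const_mul δ))
    (fun γ => indicator_nonneg (fun x _ => mul_nonneg hδ (hn x)) γ) fun γ hγ => ?_).trans ?_
  · rw [indicator_of_mem (hs hγ)]
    exact mul_le_mul_of_nonneg_right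
      (h γ (closedBall_subset_closedBall (by norm_num) (hs hγ))).2.2 (hn γ)
  · rw [integral_indicator measurableSet_closedBall, integral_const_mul, integral_add i1 i2]
    calc _ ≤ C₀ * (δ * (C₁ * B + C₁ * B)) := by gcongr
      _ = _ := by ring

/- `cmp_sup` with `a' = b' = 0`, `r' = 1`, `δ = B`. -/
theorem cln (hφ : Sm φ) (hs : tsupport φ ⊆ closedBall 0 7) : ∃ C : ℝ, 0 ≤ C ∧
    ∀ (a b : ℂ → ℂ × ℂ) (r B : ℝ), Differentiable ℂ a → Differentiable ℂ b → 0 < r → 0 ≤ B →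
      (∀ γ ∈ closedBall (0 : ℂ × ℂ) 8, |Vf a b r γ| ≤ B) → ∫ γ, φ γ * dens a b r γ ≤ C * B ^ 2 := by
  obtain ⟨C, hC, h⟩ := cmp_sup hφ hs
  refine ⟨C, hC, fun a b r B ha hb hr hB hV => ?_⟩
  have h0 : ∀ γ, Vf (fun _ => 0) (fun _ => 0) 1 γ = 0 := fun γ => by simp [Vf, Aq, nsq]
  have h1 : ∀ γ, dens (fun _ => 0) (fun _ => 0) 1 γ = 0 := fun γ => by simp [dens, wd]
  have h2 := h a b (fun _ => 0) (fun _ => 0) r 1 B B ha hb (differentiable_const _)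
    (differentiable_const _) hr one_pos hB hB fun γ hγ => by
      rw [h0, abs_zero, sub_zero]
      exact ⟨hV γ hγ, hB, hV γ hγ⟩
  simp only [h1, mul_zero, integral_zero, sub_zero] at h2
  have h3 := (le_abs_self _).trans h2
  linarith

/- As in `cmp_sup`, with `0 ≤ V r - V ρ`. Pointwise on `tsupport φ`: where `r² ≤ Aq`,
`V r - V ρ ≤ log 2 ≤ 1` and `tr (V ρ) ≤ 4 tr (V r)` (`sl_le`, `L1_Vf`, `L2_Vf`); where `Aq < r²` use `D`. So
the absolute value of the integrand is at most `C` times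
`indicator (closedBall 0 7) (5 tr (V r)) + D * indicator S (tr (V r) + tr (V ρ))`, `S` the set of
`deep_tr`; `mass_sup`, `deep_tr`. -/
theorem cmp_dep (hφ : Sm φ) (hs : tsupport φ ⊆ closedBall 0 7) : ∃ C : ℝ, 0 ≤ C ∧
    ∀ (a b : ℂ → ℂ × ℂ) (Λ r ρ B D : ℝ), Pair a b Λ r → 0 < ρ → ρ ≤ r → 0 ≤ B → 0 ≤ D →
      (∀ γ ∈ closedBall (0 : ℂ × ℂ) 8, |Vf a b r γ| ≤ B) →
      (∀ γ ∈ tsupport φ, Aq a b γ < r ^ 2 → Vf a b r γ - Vf a b ρ γ ≤ D) →
      |(∫ γ, φ γ * dens a b r γ) - ∫ γ, φ γ * dens a b ρ γ| ≤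
        C * (B + D * (volume.real (Eset a b r) + volume.real (Eset b a r))) := by
  obtain ⟨C₀, hC₀, h₀⟩ := J1Cmp_base hφ hs
  obtain ⟨C₁, hC₁, h₁⟩ := J1Cmp_mass
  obtain ⟨C₂, hC₂, h₂⟩ := deep_tr
  refine ⟨C₀ * (5 * C₁ + 2 * C₂), by positivity, ?_⟩
  intro a b Λ r ρ B D hP hρ hρr hB hD hV hDep
  have ha := hP.da
  have hb := hP.db
  have hr := hP.pos
  have hSm : MeasurableSet {γ : ℂ × ℂ | ‖γ‖ ≤ 7 ∧ Aq a b γ < r ^ 2} :=
    (isClosed_le continuous_norm continuous_const).measurableSet.inter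
      (isOpen_lt (continuous_Aq ha hb) continuous_const).measurableSet
  have hSs : {γ : ℂ × ℂ | ‖γ‖ ≤ 7 ∧ Aq a b γ < r ^ 2} ⊆ closedBall 0 7 := fun γ hγ =>
    mem_closedBall_zero_iff.2 hγ.1
  have i1 := J1Cmp_int (sm_Vf ha hb hr) (S := closedBall 0 7) Subset.rfl
  have i2 := J1Cmp_int (sm_Vf ha hb hr) hSs
  have i3 := J1Cmp_int (sm_Vf ha hb hρ) hSs
  have m1 := h₁ _ B (sm_Vf ha hb hr) (psd_Vf ha hb hr) hB hV
  have m2 := h₂ a b Λ r r hP hr le_rfl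
  have m3 := h₂ a b Λ r ρ hP hρ hρr
  have n1 : ∀ γ, 0 ≤ tr (Vf a b r) γ := fun γ => (psd_Vf ha hb hr γ).tr_nonneg
  have n2 : ∀ γ, 0 ≤ tr (Vf a b ρ) γ := fun γ => (psd_Vf ha hb hρ γ).tr_nonneg
  have j1 : Integrable ((closedBall (0 : ℂ × ℂ) 7).indicator fun γ => 5 * tr (Vf a b r) γ) :=
    (integrable_indicator_iff measurableSet_closedBall).2 (i1.const_mul 5)
  have j2 : Integrable ({γ : ℂ × ℂ | ‖γ‖ ≤ 7 ∧ Aq a b γ < r ^ 2}.indicator
      fun γ => D * (tr (Vf a b r) γ + tr (Vf a b ρ) γ)) :=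
    (integrable_indicator_iff hSm).2 ((i2.add i3).const_mul D)
  have p1 : ∀ γ, 0 ≤ (closedBall (0 : ℂ × ℂ) 7).indicator (fun γ => 5 * tr (Vf a b r) γ) γ :=
    indicator_nonneg fun x _ => mul_nonneg (by norm_num) (n1 x)
  have p2 : ∀ γ, 0 ≤ {γ : ℂ × ℂ | ‖γ‖ ≤ 7 ∧ Aq a b γ < r ^ 2}.indicator
      (fun γ => D * (tr (Vf a b r) γ + tr (Vf a b ρ) γ)) γ :=
    indicator_nonneg fun x _ => mul_nonneg hD (add_nonneg (n1 x) (n2 x))
  refine (h₀ a b a b r ρ (fun γ => (closedBall 0 7).indicator (fun γ => 5 * tr (Vf a b r) γ) γ +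
    {γ : ℂ × ℂ | ‖γ‖ ≤ 7 ∧ Aq a b γ < r ^ 2}.indicator
      (fun γ => D * (tr (Vf a b r) γ + tr (Vf a b ρ) γ)) γ) ha hb ha hb hr hρ (j1.add j2)
    (fun γ => add_nonneg (p1 γ) (p2 γ)) fun γ hγ => ?_).trans ?_
  · have hA := Aq_nonneg a b γ
    have hsq : ρ ^ 2 ≤ r ^ 2 := pow_le_pow_left₀ hρ.le hρr 2
    have hρ2 : 0 < ρ ^ 2 := pow_pos hρ 2
    have hle : Vf a b ρ γ ≤ Vf a b r γ := Real.log_le_log (by linarith) (by linarith)
    rw [abs_of_nonneg (sub_nonneg.2 hle)]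
    rcases lt_or_ge (Aq a b γ) (r ^ 2) with hlt | hge
    · have hm : γ ∈ {γ : ℂ × ℂ | ‖γ‖ ≤ 7 ∧ Aq a b γ < r ^ 2} :=
        ⟨mem_closedBall_zero_iff.1 (hs hγ), hlt⟩
      rw [indicator_of_mem hm]
      have := mul_le_mul_of_nonneg_right (hDep γ hγ hlt) (add_nonneg (n1 γ) (n2 γ))
      linarith [p1 γ]
    · rw [indicator_of_mem (hs hγ)]
      have q1 : Vf a b r γ - Vf a b ρ γ ≤ 1 := by
        unfold Vf
        rw [← Real.log_div (by linarith) (by linarith)]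
        refine (Real.log_le_sub_one_of_pos (div_pos (by linarith) (by linarith))).trans ?_
        rw [sub_le_iff_le_add, div_le_iff₀ (by linarith)]
        linarith
      have q2 : tr (Vf a b ρ) γ ≤ 4 * tr (Vf a b r) γ := by
        unfold tr
        rw [L1_Vf ha hb hρ, L2_Vf ha hb hρ, L1_Vf ha hb hr, L2_Vf ha hb hr]
        have q3 := sl_le (b := a) (P := b γ.2) (t := γ.1) hρ hρr
          (hge.trans_eq (Aq_swap a b γ).symm)
        have q4 := sl_le (b := b) (P := a γ.1) (t := γ.2) hρ hρr hge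
        linarith
      have := mul_le_mul_of_nonneg_right q1 (add_nonneg (n1 γ) (n2 γ))
      linarith [p2 γ]
  · rw [integral_add j1 j2, integral_indicator measurableSet_closedBall, integral_indicator hSm,
      integral_const_mul, integral_const_mul, integral_add i2 i3, mul_assoc]
    refine mul_le_mul_of_nonneg_left ?_ hC₀
    have hE : 0 ≤ volume.real (Eset a b r) + volume.real (Eset b a r) :=
      add_nonneg measureReal_nonneg measureReal_nonneg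
    generalize volume.real (Eset a b r) + volume.real (Eset b a r) = E at m2 m3 hE ⊢
    have e1 := mul_le_mul_of_nonneg_left (add_le_add m2 m3) hD
    have e2 := mul_nonneg hC₁ (mul_nonneg hD hE)
    have e3 := mul_nonneg hC₂ hB
    nlinarith

end Pool.Agent.Lib.MP_7b5e47_an.Hq
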