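import Pool.Agent.Lib.MP_7b5e47_an.Hq.Parts

/-! Definitions for the intersection theorem. -/

namespace Pool.Agent.Lib.MP_7b5e47_an.Hq

open MeasureTheory Set Metric Filter Topology

/-- squared Euclidean length -/
noncomputable def nsq (z : ℂ × ℂ) : ℝ := ‖z.1‖ ^ 2 + ‖z.2‖ ^ 2

/-- determinant of two vectors -/
def wd (u v : ℂ × ℂ) : ℂ := u.1 * v.2 - u.2 * v.1

/-- hermitian product -/
def hp (u v : ℂ × ℂ) : ℂ := u.1 * (starRingEnd ℂ) v.1 + u.2 * (starRingEnd ℂ) v.2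

/-- squared distance of the points `a s` and `b t` -/
noncomputable def Aq (a b : ℂ → ℂ × ℂ) (γ : ℂ × ℂ) : ℝ := nsq (a γ.1 - b γ.2)

/-- the regularized logarithm of the distance -/
noncomputable def Vf (a b : ℂ → ℂ × ℂ) (ρ : ℝ) (γ : ℂ × ℂ) : ℝ := Real.log (Aq a b γ + ρ ^ 2)

/-- its Monge-Ampere density -/
noncomputable def dens (a b : ℂ → ℂ × ℂ) (ρ : ℝ) (γ : ℂ × ℂ) : ℝ :=
  ρ ^ 2 * ‖wd (deriv a γ.1) (deriv b γ.2)‖ ^ 2 / (Aq a b γ + ρ ^ 2) ^ 3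

/-- its Laplacian on a slice -/
noncomputable def sl (b : ℂ → ℂ × ℂ) (P : ℂ × ℂ) (ρ : ℝ) (t : ℂ) : ℝ :=
  4 * (‖wd (deriv b t) (P - b t)‖ ^ 2 + ρ ^ 2 * nsq (deriv b t)) / (nsq (P - b t) + ρ ^ 2) ^ 2

/-- the weight used to bound the speed of the second parameter -/
noncomputable def gK (a b : ℂ → ℂ × ℂ) (r : ℝ) (γ : ℂ × ℂ) : ℝ :=
  nsq (deriv a γ.1) / r ^ 2 * max 0 (1 - Aq a b γ / r ^ 2)

/-- a spherical density of a function of one variable -/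
noncomputable def fs (F : ℂ → ℂ) (s : ℂ) : ℝ := ‖deriv F s‖ ^ 2 / (1 + ‖F s‖ ^ 2) ^ 3

/-- the parameters of the first curve which come close to the second curve -/
def Eset (a b : ℂ → ℂ × ℂ) (r : ℝ) : Set ℂ :=
  {s | ‖s‖ ≤ 7 ∧ ∃ t : ℂ, ‖t‖ ≤ 7 ∧ Aq a b (s, t) < r ^ 2}

/-- two-sided Lipschitz bounds at `t₀` -/
structure Good (b : ℂ → ℂ × ℂ) (Λ : ℝ) (t₀ : ℂ) : Prop where
  up : ∀ t, Λ * ‖t - t₀‖ ≤ 1 → ‖b t - b t₀‖ ≤ Λ * ‖t - t₀‖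
  inj : ∀ t, ‖t‖ ≤ 8 → Λ * ‖b t - b t₀‖ ≤ 1 → ‖t - t₀‖ ≤ Λ * ‖b t - b t₀‖

/-- the curve is almost affine near `t₀`, and only this strand passes near `b t₀` -/
structure Lin (b : ℂ → ℂ × ℂ) (Λ : ℝ) (t₀ : ℂ) : Prop where
  low : 1 ≤ Λ * ‖deriv b t₀‖
  der : ∀ t, Λ * ‖t - t₀‖ ≤ 1 → ‖deriv b t - deriv b t₀‖ ≤ ‖deriv b t₀‖ / 4
  inj : ∀ t, ‖t‖ ≤ 7 → Λ * ‖b t - b t₀‖ ≤ 1 → ‖t - t₀‖ ≤ Λ * ‖b t - b t₀‖

/-- two entire curves which are almost affine where they are close -/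
structure Pair (a b : ℂ → ℂ × ℂ) (Λ r : ℝ) : Prop where
  da : Differentiable ℂ a
  db : Differentiable ℂ b
  one : 1 ≤ Λ
  pos : 0 < r
  sm : Λ ^ 2 * r ≤ 1 / 100
  lin : ∀ s t : ℂ, ‖s‖ ≤ 7 → ‖t‖ ≤ 7 → Aq a b (s, t) < r ^ 2 → Lin a Λ s ∧ Lin b Λ t

theorem nsq_nonneg (z : ℂ × ℂ) : 0 ≤ nsq z := by unfold nsq; positivity

theorem sq_le_nsq (z : ℂ × ℂ) : ‖z‖ ^ 2 ≤ nsq z := by
  unfold nsq
  rw [Prod.norm_def]
  rcases le_total ‖z.1‖ ‖z.2‖ with h | h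
  · rw [max_eq_right h]; nlinarith [sq_nonneg ‖z.1‖]
  · rw [max_eq_left h]; nlinarith [sq_nonneg ‖z.2‖]

theorem nsq_le (z : ℂ × ℂ) : nsq z ≤ 2 * ‖z‖ ^ 2 := by
  unfold nsq
  have h1 := pow_le_pow_left₀ (norm_nonneg _) (norm_fst_le z) 2
  have h2 := pow_le_pow_left₀ (norm_nonneg _) (norm_snd_le z) 2
  linarith

theorem nsq_neg (z : ℂ × ℂ) : nsq (-z) = nsq z := by simp [nsq]

theorem nsq_smul (c : ℂ) (z : ℂ × ℂ) : nsq (c • z) = ‖c‖ ^ 2 * nsq z := by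
  simp only [nsq, Prod.smul_fst, Prod.smul_snd, norm_smul]; ring

theorem nsq_pos {z : ℂ × ℂ} (h : z ≠ 0) : 0 < nsq z :=
  lt_of_lt_of_le (pow_pos (norm_pos_iff.2 h) 2) (sq_le_nsq z)

theorem norm_lt_of_nsq {z : ℂ × ℂ} {r : ℝ} (hr : 0 ≤ r) (h : nsq z < r ^ 2) : ‖z‖ < r :=
  lt_of_pow_lt_pow_left₀ 2 hr ((sq_le_nsq z).trans_lt h)

theorem norm_le_of_nsq {z : ℂ × ℂ} {r : ℝ} (hr : 0 ≤ r) (h : nsq z ≤ r ^ 2) : ‖z‖ ≤ r :=
  (pow_le_pow_iff_left₀ (norm_nonneg _) hr two_ne_zero).1 ((sq_le_nsq z).trans h)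

/-- Lagrange's identity -/
theorem lagrange (u v : ℂ × ℂ) : ‖hp u v‖ ^ 2 + ‖wd u v‖ ^ 2 = nsq u * nsq v := by
  simp only [hp, wd, nsq, Complex.sq_norm, Complex.normSq_apply, Complex.add_re, Complex.add_im,
    Complex.sub_re, Complex.sub_im, Complex.mul_re, Complex.mul_im, Complex.conj_re,
    Complex.conj_im]
  ring

theorem hp_self (u : ℂ × ℂ) : hp u u = (nsq u : ℂ) := by
  simp only [hp, nsq, Complex.mul_conj, Complex.normSq_eq_norm_sq]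
  push_cast
  ring

theorem continuous_nsq : Continuous nsq := by unfold nsq; fun_prop

theorem Aq_nonneg (a b : ℂ → ℂ × ℂ) (γ : ℂ × ℂ) : 0 ≤ Aq a b γ := nsq_nonneg _

theorem Aq_swap (a b : ℂ → ℂ × ℂ) (γ : ℂ × ℂ) : Aq b a γ.swap = Aq a b γ := by
  simp only [Aq, Prod.fst_swap, Prod.snd_swap]
  rw [← nsq_neg, neg_sub]

theorem Aq_comm (a b : ℂ → ℂ × ℂ) (s t : ℂ) : Aq b a (t, s) = Aq a b (s, t) := Aq_swap a b (s, t)

theorem dens_nonneg (a b : ℂ → ℂ × ℂ) (ρ : ℝ) (γ : ℂ × ℂ) : 0 ≤ dens a b ρ γ := by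
  have := Aq_nonneg a b γ
  unfold dens; positivity

theorem dens_swap (a b : ℂ → ℂ × ℂ) (ρ : ℝ) (γ : ℂ × ℂ) : dens b a ρ γ.swap = dens a b ρ γ := by
  unfold dens
  rw [Aq_swap]
  have : wd (deriv b γ.swap.1) (deriv a γ.swap.2) = -wd (deriv a γ.1) (deriv b γ.2) := by
    simp only [wd, Prod.fst_swap, Prod.snd_swap]; ring
  rw [this, norm_neg]

theorem sl_nonneg (b : ℂ → ℂ × ℂ) (P : ℂ × ℂ) (ρ : ℝ) (t : ℂ) : 0 ≤ sl b P ρ t := by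
  have := nsq_nonneg (deriv b t)
  unfold sl; positivity

theorem gK_nonneg (a b : ℂ → ℂ × ℂ) (r : ℝ) (γ : ℂ × ℂ) : 0 ≤ gK a b r γ := by
  have := nsq_nonneg (deriv a γ.1)
  unfold gK; positivity

theorem fs_nonneg (F : ℂ → ℂ) (s : ℂ) : 0 ≤ fs F s := by unfold fs; positivity

theorem Pair.symm {a b : ℂ → ℂ × ℂ} {Λ r : ℝ} (h : Pair a b Λ r) : Pair b a Λ r :=
  ⟨h.db, h.da, h.one, h.pos, h.sm, fun s t hs ht hA =>
    (h.lin t s ht hs (by rwa [Aq_comm] at hA)).symm⟩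

theorem continuous_deriv_ent {a : ℂ → ℂ × ℂ} (ha : Differentiable ℂ a) : Continuous (deriv a) :=
  (ha.contDiff (n := 1)).continuous_deriv le_rfl

theorem continuous_Aq {a b : ℂ → ℂ × ℂ} (ha : Differentiable ℂ a) (hb : Differentiable ℂ b) :
    Continuous (Aq a b) :=
  continuous_nsq.comp ((ha.continuous.comp continuous_fst).sub (hb.continuous.comp continuous_snd))

theorem continuous_dens {a b : ℂ → ℂ × ℂ} (ha : Differentiable ℂ a) (hb : Differentiable ℂ b)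
    {ρ : ℝ} (hρ : 0 < ρ) : Continuous (dens a b ρ) := by
  have h1 := continuous_deriv_ent ha
  have h2 := continuous_deriv_ent hb
  have h3 := continuous_Aq ha hb
  refine Continuous.div ?_ (by fun_prop) fun γ => ?_
  · unfold wd; fun_prop
  · have := Aq_nonneg a b γ
    positivity

theorem continuous_gK {a b : ℂ → ℂ × ℂ} (ha : Differentiable ℂ a) (hb : Differentiable ℂ b)
    (r : ℝ) : Continuous (gK a b r) := by
  have h1 := continuous_nsq.comp ((continuous_deriv_ent ha).comp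
    (continuous_fst : Continuous (Prod.fst : ℂ × ℂ → ℂ)))
  have h3 := continuous_Aq ha hb
  exact (h1.div_const _).mul (continuous_const.max (continuous_const.sub (h3.div_const _)))

theorem measurableSet_Eset {a b : ℂ → ℂ × ℂ} (ha : Differentiable ℂ a) (hb : Differentiable ℂ b)
    (r : ℝ) : MeasurableSet (Eset a b r) := by
  have h1 : Eset a b r = closedBall 0 7 ∩ ⋃ t ∈ {t : ℂ | ‖t‖ ≤ 7}, {s | Aq a b (s, t) < r ^ 2} := by
    ext s; simp [Eset]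
  rw [h1]
  refine measurableSet_closedBall.inter (IsOpen.measurableSet ?_)
  refine isOpen_biUnion fun t _ => isOpen_lt ?_ continuous_const
  exact (continuous_Aq ha hb).comp (by fun_prop)

theorem Eset_subset (a b : ℂ → ℂ × ℂ) (r : ℝ) : Eset a b r ⊆ closedBall 0 7 :=
  fun _ hs => mem_closedBall_zero_iff.2 hs.1

end Pool.Agent.Lib.MP_7b5e47_an.Hq
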