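import Pool.Agent.Lib.MP_7b5e47_an.Hq.Base
import Pool.Agent.Lib.MP_7b5e47_an.Hn.BAut

/-! The linearizing curves of a fixed saddle. -/

namespace Pool.Agent.Lib.MP_7b5e47_an.Hq

open Set Metric Filter Topology
open Pool.Agent.Lib.MP_7b5e47_an.Hn (IsSaddle Wu)

variable {f : Equiv.Perm (ℂ × ℂ)}

theorem Poi_inj (hf : Differentiable ℂ (⇑f)) (hi : Differentiable ℂ (⇑f⁻¹)) {z v : ℂ × ℂ}
    (h : fderiv ℂ (⇑f) z v = 0) : v = 0 := by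
  have h1 := Hn.BAut_comp hi hf z v
  rw [inv_mul_cancel, h, map_zero] at h1
  simpa using h1

theorem Poi_det {M : ℂ × ℂ →L[ℂ] ℂ × ℂ} {u s : ℂ × ℂ} {l m : ℂ} (hu : u ≠ 0) (hs : s ≠ 0)
    (hlm : l ≠ m) (h1 : M u = l • u) (h2 : M s = m • s) : Hn.det2 u s ≠ 0 := by
  intro e
  obtain ⟨c, hc⟩ := Hn.exists_smul_of_det2 hu e
  have h3 : l • s = m • s := by
    rw [← h2, hc, map_smul, h1, smul_comm]
  exact hlm (smul_left_injective ℂ hs h3)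

theorem Poi_zero {g : ℂ → ℝ} (hg : Continuous g) {d : ℝ} (hd : 1 < d) {z m : ℂ} (h0 : 0 ≤ g z)
    (hm : ‖m‖ < 1) (h : ∀ n : ℕ, g (m ^ n * z) = d ^ n * g z) : g z = 0 := by
  refine h0.eq_or_lt.resolve_right (fun h1 => ?_) |>.symm
  have h2 : Tendsto (fun n : ℕ => m ^ n * z) atTop (𝓝 (0 * z)) :=
    (tendsto_pow_atTop_nhds_zero_of_norm_lt_one hm).mul_const z
  have h3 := (hg.tendsto _).comp h2
  have h4 : Tendsto (fun n : ℕ => d ^ n * g z) atTop atTop :=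
    (tendsto_pow_atTop_atTop_of_one_lt hd).atTop_mul_const h1
  exact not_tendsto_atTop_of_tendsto_nhds h3 (h4.congr fun n => (h n).symm)

/- Let `θ` with `‖l‖ < θ < ‖l‖ ^ 2`.  By `Hn.exists_lip`, `‖F z - (l z.1, m z.2)‖ ≤ C ‖z‖ ^ 2` and `F` is
`θ`-Lipschitz on a small ball `closedBall 0 r` (sup norm, `‖m‖ ≤ ‖l‖`).  Put `ψ n ζ = F^[n] (ζ / l ^ n, 0)`.
For `‖ζ‖ ≤ r'` small the orbits `F^[j] (ζ / l ^ n, 0)`, `j ≤ n`, have norm at most `2 ‖ζ‖ / ‖l‖ ^ (n - j)`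
(induction: `‖z_{j+1}‖ ≤ ‖l‖ ‖z_j‖ (1 + C ‖z_j‖)` and the product of the factors is at most `2`; or prove the
difference estimate and the bound together), and
`‖ψ (n+1) ζ - ψ n ζ‖ ≤ θ ^ n * C ‖ζ‖ ^ 2 / ‖l‖ ^ (2 n + 2)`.  So `ψ n` converges uniformly on `ball 0 r'` to a
holomorphic `ψ` with `‖ψ ζ - (ζ, 0)‖ ≤ C' ‖ζ‖ ^ 2` and `F (ψ ζ) = ψ (l ζ)` for `‖l ζ‖ < r'`. -/
theorem poi_local {F : ℂ × ℂ → ℂ × ℂ} (hF : Differentiable ℂ F) (h0 : F 0 = 0) {l m : ℂ}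
    (hl : 1 < ‖l‖) (hm : ‖m‖ ≤ ‖l‖) (hd : ∀ v, fderiv ℂ F 0 v = (l * v.1, m * v.2)) :
    ∃ (r : ℝ) (ψ : ℂ → ℂ × ℂ), 0 < r ∧ DifferentiableOn ℂ ψ (ball 0 r) ∧ ψ 0 = 0 ∧
      HasDerivAt ψ (1, 0) 0 ∧ ∀ ζ, ‖l * ζ‖ < r → F (ψ ζ) = ψ (l * ζ) := by
  obtain ⟨C, hC1, hC⟩ := Hn.exists_lip hF 1
  have hl0 : l ≠ 0 := norm_pos_iff.1 (zero_lt_one.trans hl)
  have hL : 0 < ‖l‖ := zero_lt_one.trans hl
  have hL2 : ‖l‖ < ‖l‖ ^ 2 := by nlinarith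
  have hC0 : 0 < C := zero_lt_one.trans_le hC1
  obtain ⟨ρ, hρ0, hρ1, hρ2⟩ : ∃ ρ : ℝ, 0 < ρ ∧ ρ ≤ 1 ∧ ‖l‖ + C * ρ < ‖l‖ ^ 2 := by
    refine ⟨min 1 ((‖l‖ ^ 2 - ‖l‖) / (2 * C)), lt_min one_pos (div_pos (by linarith)
      (by positivity)), min_le_left _ _, ?_⟩
    have h1 : C * min 1 ((‖l‖ ^ 2 - ‖l‖) / (2 * C)) ≤ C * ((‖l‖ ^ 2 - ‖l‖) / (2 * C)) :=
      mul_le_mul_of_nonneg_left (min_le_right _ _) hC0.le
    have h2 : C * ((‖l‖ ^ 2 - ‖l‖) / (2 * C)) = (‖l‖ ^ 2 - ‖l‖) / 2 := by field_simp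
    linarith
  have hD0 : ‖fderiv ℂ F 0‖ ≤ ‖l‖ := by
    refine ContinuousLinearMap.opNorm_le_bound _ hL.le fun v => ?_
    rw [hd, Prod.norm_mk, norm_mul, norm_mul]
    exact max_le (mul_le_mul_of_nonneg_left (norm_fst_le v) hL.le)
      (mul_le_mul hm (norm_snd_le v) (norm_nonneg _) hL.le)
  obtain ⟨q, hq⟩ : ∃ q, q = (‖l‖ + C * ρ) / ‖l‖ ^ 2 := ⟨_, rfl⟩
  have hq0 : 0 < q := by rw [hq]; positivity
  have hq1 : q < 1 := by rw [hq, div_lt_one (by positivity)]; exact hρ2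
  have hlip : ∀ z w : ℂ × ℂ, ‖z‖ ≤ ρ → ‖w‖ ≤ ρ → ‖F z - F w‖ ≤ q * ‖l‖ ^ 2 * ‖z - w‖ := by
    intro z w hz hw
    rw [hq, div_mul_cancel₀ _ (by positivity)]
    refine (convex_closedBall (0 : ℂ × ℂ) ρ).norm_image_sub_le_of_norm_fderiv_le
      (fun x _ => hF x) (fun x hx => ?_) (mem_closedBall_zero_iff.2 hw)
      (mem_closedBall_zero_iff.2 hz)
    rw [mem_closedBall_zero_iff] at hx
    have h1 := (hC x 0 (hx.trans hρ1) (by simp)).2.2.2.1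
    rw [sub_zero] at h1
    have h2 := norm_le_norm_add_norm_sub' (fderiv ℂ F x) (fderiv ℂ F 0)
    have h3 := mul_le_mul_of_nonneg_left hx hC0.le
    linarith
  have hdiv : ∀ ζ : ℂ, ‖ζ / l‖ ≤ ‖ζ‖ := fun ζ => by
    rw [norm_div]
    exact div_le_self (norm_nonneg _) hl.le
  have hsq : ∀ ζ : ℂ, ‖l‖ ^ 2 * ‖ζ / l‖ ^ 2 = ‖ζ‖ ^ 2 := fun ζ => by
    rw [norm_div]
    field_simp
  have hone : ∀ ζ : ℂ, ‖ζ‖ ≤ 1 → ‖F (ζ / l, 0) - (ζ, 0)‖ ≤ C * ‖ζ‖ ^ 2 := fun ζ hζ => by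
    have hn : ‖((ζ / l, 0) : ℂ × ℂ)‖ = ‖ζ / l‖ := by
      rw [Prod.norm_mk, norm_zero, max_eq_left (norm_nonneg _)]
    have h1 := (hC (ζ / l, 0) 0 (by rw [hn]; exact (hdiv ζ).trans hζ) (by simp)).2.2.2.2
    rw [h0, sub_zero, sub_zero, hd, hn, mul_div_cancel₀ _ hl0, mul_zero] at h1
    exact h1.trans (mul_le_mul_of_nonneg_left
      (pow_le_pow_left₀ (norm_nonneg _) (hdiv ζ) 2) hC0.le)
  obtain ⟨K, hK⟩ : ∃ K, K = C / (1 - q) := ⟨_, rfl⟩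
  have hK0 : 0 < K := by rw [hK]; exact div_pos hC0 (by linarith)
  have hKq : q * K + C = K := by
    have : (1 - q) ≠ 0 := by linarith
    rw [hK]; field_simp; ring
  obtain ⟨r, hr0, hr1, hr2⟩ : ∃ r : ℝ, 0 < r ∧ 2 * r ≤ ρ ∧ K * r ≤ 1 := by
    refine ⟨min (ρ / 2) (1 / K), lt_min (by positivity) (by positivity), ?_, ?_⟩
    · linarith [min_le_left (ρ / 2) (1 / K)]
    · rw [← le_div_iff₀' hK0]
      exact min_le_right _ _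
  obtain ⟨φ, hφ0, hφs⟩ : ∃ φ : ℕ → ℂ → ℂ × ℂ, (∀ ζ, φ 0 ζ = (ζ, 0)) ∧
      ∀ n ζ, φ (n + 1) ζ = F (φ n (ζ / l)) :=
    ⟨fun n => Nat.rec (fun ζ => (ζ, 0)) (fun _ g ζ => F (g (ζ / l))) n, fun _ => rfl,
      fun _ _ => rfl⟩
  have hφd : ∀ n, Differentiable ℂ (φ n) := fun n => by
    induction n with
    | zero =>
      rw [show φ 0 = fun ζ => (ζ, 0) from funext hφ0]
      fun_prop
    | succ n ih =>
      rw [show φ (n + 1) = fun ζ => F (φ n (ζ / l)) from funext (hφs n)]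
      exact hF.comp (ih.comp (differentiable_id.div_const l))
  have hsm : ∀ (ζ : ℂ) (z : ℂ × ℂ), ‖ζ‖ ≤ r → ‖z - (ζ, 0)‖ ≤ K * ‖ζ‖ ^ 2 → ‖z‖ ≤ ρ := by
    intro ζ z hζ hz
    have h1 := norm_le_norm_add_norm_sub' z (ζ, 0)
    have hn : ‖((ζ, 0) : ℂ × ℂ)‖ = ‖ζ‖ := by simp
    have h2 : K * ‖ζ‖ ≤ 1 := (mul_le_mul_of_nonneg_left hζ hK0.le).trans hr2
    have h3 := mul_le_mul_of_nonneg_right h2 (norm_nonneg ζ)
    nlinarith
  have hA : ∀ n ζ, ‖ζ‖ ≤ r → ‖φ n ζ - (ζ, 0)‖ ≤ K * ‖ζ‖ ^ 2 := fun n => by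
    induction n with
    | zero =>
      intro ζ _
      rw [hφ0, sub_self, norm_zero]
      positivity
    | succ n ih =>
      intro ζ hζ
      have h1 := ih (ζ / l) ((hdiv ζ).trans hζ)
      have h2 := hlip (φ n (ζ / l)) (ζ / l, 0) (hsm _ _ ((hdiv ζ).trans hζ) h1)
        (hsm _ _ ((hdiv ζ).trans hζ) (by rw [sub_self, norm_zero]; positivity))
      have h3 := hone ζ (by linarith)
      have h4 := norm_sub_le_norm_sub_add_norm_sub (F (φ n (ζ / l))) (F (ζ / l, 0)) (ζ, 0)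
      have h5 : q * ‖l‖ ^ 2 * ‖φ n (ζ / l) - (ζ / l, 0)‖ ≤ q * ‖l‖ ^ 2 * (K * ‖ζ / l‖ ^ 2) :=
        mul_le_mul_of_nonneg_left h1 (by positivity)
      have h6 : q * ‖l‖ ^ 2 * (K * ‖ζ / l‖ ^ 2) = q * K * ‖ζ‖ ^ 2 := by
        rw [← hsq ζ]; ring
      have h7 : K * ‖ζ‖ ^ 2 = q * K * ‖ζ‖ ^ 2 + C * ‖ζ‖ ^ 2 := by
        rw [← add_mul, hKq]
      rw [hφs]
      linarith
  have hB : ∀ n ζ, ‖ζ‖ ≤ r → ‖φ n ζ - φ (n + 1) ζ‖ ≤ C * ‖ζ‖ ^ 2 * q ^ n := fun n => by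
    induction n with
    | zero =>
      intro ζ hζ
      rw [hφs, hφ0, hφ0, pow_zero, mul_one, norm_sub_rev]
      exact hone ζ (by linarith)
    | succ n ih =>
      intro ζ hζ
      have hζ' := (hdiv ζ).trans hζ
      have h1 := hlip _ _ (hsm _ _ hζ' (hA n _ hζ')) (hsm _ _ hζ' (hA (n + 1) _ hζ'))
      rw [hφs n, hφs (n + 1)]
      refine h1.trans ((mul_le_mul_of_nonneg_left (ih _ hζ') (by positivity)).trans_eq ?_)
      rw [← hsq ζ]; ring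
  have hB' : ∀ ζ, ‖ζ‖ ≤ r → ∀ n, dist (φ n ζ) (φ (n + 1) ζ) ≤ C * r ^ 2 * q ^ n := by
    intro ζ hζ n
    rw [dist_eq_norm]
    refine (hB n ζ hζ).trans ?_
    gcongr
  have hlim : ∀ ζ, ‖ζ‖ ≤ r → Tendsto (fun n => φ n ζ) atTop
      (𝓝 (limUnder atTop fun n => φ n ζ)) := fun ζ hζ =>
    (cauchySeq_of_le_geometric q _ hq1 (hB' ζ hζ)).tendsto_limUnder
  obtain ⟨ψ, hψ⟩ : ∃ ψ : ℂ → ℂ × ℂ, ∀ ζ, ‖ζ‖ ≤ r → Tendsto (fun n => φ n ζ) atTop (𝓝 (ψ ζ)) :=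
    ⟨_, hlim⟩
  have hun : TendstoUniformlyOn φ ψ atTop (ball 0 r) := by
    rw [Metric.tendstoUniformlyOn_iff]
    intro ε hε
    have h1 : Tendsto (fun n : ℕ => C * r ^ 2 * q ^ n / (1 - q)) atTop (𝓝 0) := by
      simpa using ((tendsto_pow_atTop_nhds_zero_of_lt_one hq0.le hq1).const_mul
        (C * r ^ 2)).div_const (1 - q)
    filter_upwards [h1.eventually (gt_mem_nhds hε)] with n hn ζ hζ
    have hζ' := (mem_ball_zero_iff.1 hζ).le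
    rw [dist_comm]
    exact (dist_le_of_le_geometric_of_tendsto q _ hq1 (hB' ζ hζ') (hψ ζ hζ') n).trans_lt hn
  have hψA : ∀ ζ, ‖ζ‖ ≤ r → ‖ψ ζ - (ζ, 0)‖ ≤ K * ‖ζ‖ ^ 2 := fun ζ hζ =>
    le_of_tendsto' ((hψ ζ hζ).sub_const _).norm fun n => hA n ζ hζ
  have hψ0 : ψ 0 = 0 := by
    have h1 := hψA 0 (by simpa using hr0.le)
    simpa [Prod.mk_zero_zero] using h1
  refine ⟨r, ψ, hr0, hun.tendstoLocallyUniformlyOn.differentiableOn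
    (Eventually.of_forall fun n => (hφd n).differentiableOn) isOpen_ball, hψ0, ?_, fun ζ hζ => ?_⟩
  · rw [hasDerivAt_iff_isLittleO_nhds_zero]
    refine Asymptotics.IsBigO.trans_isLittleO (g := fun h : ℂ => h ^ 2) ?_
      (Asymptotics.isLittleO_pow_id one_lt_two)
    refine Asymptotics.IsBigO.of_bound K ?_
    filter_upwards [closedBall_mem_nhds (0 : ℂ) hr0] with ζ hζ
    have h1 := hψA ζ (mem_closedBall_zero_iff.1 hζ)
    simpa [hψ0] using h1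
  · have hζ' : ‖ζ‖ ≤ r := by
      have h1 := hdiv (l * ζ)
      rw [mul_div_cancel_left₀ _ hl0] at h1
      exact h1.trans hζ.le
    have h1 := (hF.continuous.tendsto _).comp (hψ ζ hζ')
    have h2 := (hψ _ hζ.le).comp (tendsto_add_atTop_nat 1)
    refine tendsto_nhds_unique h1 (h2.congr fun n => ?_)
    simp only [Function.comp_apply, hφs, mul_div_cancel_left₀ _ hl0]

/- Define `Ψ ζ = (f ^ k) (ψ (ζ / l ^ k))` for the least `k` with `‖ζ / l ^ k‖ < r`; the value is the same for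
all larger `k`.  `ψ` is injective with nonzero derivative near `0` (`HasStrictDerivAt` of the component in
which `v` is not zero, or `‖deriv ψ - v‖ ≤ ‖v‖ / 2` and the mean value inequality), and `f ^ k` is a
bijection with injective derivative. -/
theorem poi_global (hf : Differentiable ℂ (⇑f)) (hi : Differentiable ℂ (⇑f⁻¹)) {l : ℂ}
    (hl : 1 < ‖l‖) {r : ℝ} (hr : 0 < r) {ψ : ℂ → ℂ × ℂ} (hψ : DifferentiableOn ℂ ψ (ball 0 r))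
    {v : ℂ × ℂ} (hv : v ≠ 0) (hd : HasDerivAt ψ v 0)
    (h : ∀ ζ, ‖l * ζ‖ < r → f (ψ ζ) = ψ (l * ζ)) :
    ∃ Ψ : ℂ → ℂ × ℂ, Imm Ψ ∧ Ψ 0 = ψ 0 ∧ deriv Ψ 0 = v ∧ ∀ ζ, f (Ψ ζ) = Ψ (l * ζ) := by
  have hl0 : l ≠ 0 := norm_pos_iff.1 (zero_lt_one.trans hl)
  have hex : ∀ (ε : ℝ), 0 < ε → ∀ ζ : ℂ, ∀ᶠ k : ℕ in atTop, ‖ζ / l ^ k‖ < ε := fun ε hε ζ => by
    have h1 : Tendsto (fun k : ℕ => ‖ζ‖ / ‖l‖ ^ k) atTop (𝓝 0) :=
      tendsto_const_nhds.div_atTop (tendsto_pow_atTop_atTop_of_one_lt hl)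
    filter_upwards [h1.eventually (gt_mem_nhds hε)] with k hk
    rwa [norm_div, norm_pow]
  have hstep : ∀ (ζ : ℂ) (k : ℕ), ‖ζ / l ^ k‖ < r → ∀ j, k ≤ j →
      (f ^ j) (ψ (ζ / l ^ j)) = (f ^ k) (ψ (ζ / l ^ k)) := by
    intro ζ k hk j hj
    induction j, hj using Nat.le_induction with
    | base => rfl
    | succ j hj ih =>
      have e : l * (ζ / l ^ (j + 1)) = ζ / l ^ j := by field_simp; ring
      have h1 : ‖ζ / l ^ j‖ < r := by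
        refine lt_of_le_of_lt ?_ hk
        rw [norm_div, norm_div, norm_pow, norm_pow]
        exact div_le_div_of_nonneg_left (norm_nonneg _) (by positivity)
          (pow_le_pow_right₀ hl.le hj)
      rw [pow_succ f, Equiv.Perm.mul_apply, h _ (by rwa [e]), e, ih]
  obtain ⟨Ψ, hΨ⟩ : ∃ Ψ : ℂ → ℂ × ℂ, ∀ (ζ : ℂ) (k : ℕ), ‖ζ / l ^ k‖ < r →
      Ψ ζ = (f ^ k) (ψ (ζ / l ^ k)) := by
    choose κ hκ using fun ζ => (hex r hr ζ).exists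
    refine ⟨fun ζ => (f ^ κ ζ) (ψ (ζ / l ^ κ ζ)), fun ζ k hk => ?_⟩
    exact (hstep ζ _ (hκ ζ) _ (le_max_left _ k)).symm.trans (hstep ζ k hk _ (le_max_right _ _))
  have hder : ∀ (ζ : ℂ) (k : ℕ), ‖ζ / l ^ k‖ < r → HasDerivAt Ψ
      (fderiv ℂ (⇑(f ^ k)) (ψ (ζ / l ^ k)) ((l ^ k)⁻¹ • deriv ψ (ζ / l ^ k))) ζ := by
    intro ζ k hk
    have h1 : HasDerivAt (fun t : ℂ => t / l ^ k) (l ^ k)⁻¹ ζ := by
      simpa using (hasDerivAt_id ζ).div_const (l ^ k)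
    have h2 : HasDerivAt ψ (deriv ψ (ζ / l ^ k)) (ζ / l ^ k) :=
      (hψ.differentiableAt (isOpen_ball.mem_nhds (mem_ball_zero_iff.2 hk))).hasDerivAt
    have h3 := (dif_pow hf k _).hasFDerivAt.comp_hasDerivAt ζ (h2.scomp ζ h1)
    refine h3.congr_of_eventuallyEq ?_
    have h4 : ∀ᶠ t in 𝓝 ζ, ‖t / l ^ k‖ < r :=
      h1.continuousAt.norm.eventually (gt_mem_nhds hk)
    filter_upwards [h4] with t ht
    exact hΨ t k ht
  have hv0 : 0 < ‖v‖ := norm_pos_iff.2 hv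
  obtain ⟨ε, hε0, hεr, hε⟩ : ∃ ε : ℝ, 0 < ε ∧ ε ≤ r ∧ ∀ t ∈ ball (0 : ℂ) ε,
      ‖deriv ψ t - v‖ ≤ ‖v‖ / 2 := by
    have h1 : ContinuousAt (deriv ψ) 0 :=
      (hψ.analyticAt (ball_mem_nhds 0 hr)).deriv.continuousAt
    have h2 := h1.eventually (closedBall_mem_nhds _ (half_pos hv0))
    obtain ⟨ε, hε0, hε⟩ := Metric.eventually_nhds_iff_ball.1 h2
    refine ⟨min ε r, lt_min hε0 hr, min_le_right _ _, fun t ht => ?_⟩
    have h3 := hε t (ball_subset_ball (min_le_left _ _) ht)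
    rwa [hd.deriv, dist_eq_norm] at h3
  have hinj : ∀ z ∈ ball (0 : ℂ) ε, ∀ w ∈ ball (0 : ℂ) ε, ψ z = ψ w → z = w := by
    intro z hz w hw e
    have h1 : ∀ t ∈ ball (0 : ℂ) ε, HasDerivWithinAt (fun t => ψ t - t • v) (deriv ψ t - v)
        (ball 0 ε) t := fun t ht => by
      have h2 := (hψ.differentiableAt (isOpen_ball.mem_nhds
        (ball_subset_ball hεr ht))).hasDerivAt
      have h3 : HasDerivAt (fun t : ℂ => t • v) v t := by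
        simpa using (hasDerivAt_id t).smul_const v
      exact (h2.fun_sub h3).hasDerivWithinAt
    have h2 := (convex_ball (0 : ℂ) ε).norm_image_sub_le_of_norm_hasDerivWithin_le h1 hε hw hz
    rw [e, sub_sub_sub_cancel_left, ← sub_smul, norm_smul, norm_sub_rev w z] at h2
    have h3 : ‖z - w‖ ≤ 0 := by nlinarith [norm_nonneg (z - w)]
    exact sub_eq_zero.1 (norm_le_zero_iff.1 h3)
  refine ⟨Ψ, ⟨fun ζ => ?_, fun z w e => ?_, fun ζ e => ?_⟩, ?_, ?_, fun ζ => ?_⟩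
  · obtain ⟨k, hk⟩ := (hex r hr ζ).exists
    exact (hder ζ k hk).differentiableAt
  · obtain ⟨k, hz, hw⟩ := ((hex ε hε0 z).and (hex ε hε0 w)).exists
    rw [hΨ z k (hz.trans_le hεr), hΨ w k (hw.trans_le hεr)] at e
    exact (div_left_inj' (pow_ne_zero k hl0)).1 (hinj _ (mem_ball_zero_iff.2 hz) _
      (mem_ball_zero_iff.2 hw) ((f ^ k).injective e))
  · obtain ⟨k, hk⟩ := (hex ε hε0 ζ).exists
    rw [(hder ζ k (hk.trans_le hεr)).deriv] at e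
    have h1 := Poi_inj (dif_pow hf k) (by rw [← inv_pow]; exact dif_pow hi k) e
    have h2 := hε _ (mem_ball_zero_iff.2 hk)
    rw [(smul_eq_zero.1 h1).resolve_left (inv_ne_zero (pow_ne_zero k hl0)), zero_sub,
      norm_neg] at h2
    linarith
  · simpa using hΨ 0 0 (by simpa using hr)
  · have h1 := (hder 0 0 (by simpa using hr)).deriv
    simpa [hd.deriv] using h1
  · obtain ⟨k, hk⟩ := (hex r hr ζ).exists
    have e : l * ζ / l ^ (k + 1) = ζ / l ^ k := by field_simp; ring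
    rw [hΨ ζ k hk, hΨ (l * ζ) (k + 1) (by rwa [e]), e, pow_succ' f, Equiv.Perm.mul_apply]

/- Conjugate by the affine map `z ↦ p + z.1 • u + z.2 • s` (the vectors are independent since `l ≠ m`;
`Hn.Ch.pm`, `Hn.exists_smul_of_det2` may help), `poi_local`, `poi_global`. -/
theorem exists_poi (hf : Differentiable ℂ (⇑f)) (hi : Differentiable ℂ (⇑f⁻¹)) {p u s : ℂ × ℂ}
    (hp : f p = p) {l m : ℂ} (hu : u ≠ 0) (hs : s ≠ 0) (hl : 1 < ‖l‖) (hm : ‖m‖ < 1)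
    (h1 : fderiv ℂ (⇑f) p u = l • u) (h2 : fderiv ℂ (⇑f) p s = m • s) :
    ∃ Ψ : ℂ → ℂ × ℂ, Imm Ψ ∧ Ψ 0 = p ∧ deriv Ψ 0 = u ∧ ∀ ζ, f (Ψ ζ) = Ψ (l * ζ) := by
  obtain ⟨A, hA⟩ : ∃ A : Hn.Ch, A = ⟨p, u, s⟩ := ⟨_, rfl⟩
  have hc : A.c = p := by rw [hA]
  have hU : A.U = u := by rw [hA]
  have hS : A.S = s := by rw [hA]
  have hdet : A.det = Hn.det2 u s := by rw [hA]; rfl
  have hA0 : A.det ≠ 0 := by
    rw [hdet]
    exact Poi_det hu hs (fun e => by rw [e] at hl; linarith) h1 h2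
  have hp0 : A.pm 0 = p := by simp [Hn.Ch.pm_apply hA0, hc]
  have hfA : Differentiable ℂ (⇑(f * A.pm)) := hf.comp A.diff
  obtain ⟨r, ψ, hr, hψ, hψ0, hψd, hψf⟩ := poi_local (F := ⇑(A.pm⁻¹ * (f * A.pm))) (l := l) (m := m)
    (A.diff_inv.comp hfA) (by
      rw [Equiv.Perm.mul_apply, Equiv.Perm.mul_apply, hp0, hp, Equiv.Perm.inv_eq_iff_eq, hp0])
    hl (by linarith) (fun v => by
      rw [Hn.BAut_comp A.diff_inv hfA, Hn.BAut_comp hf A.diff,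
        Hn.Ch.fderiv_inv hA0, Hn.Ch.fderiv_pm hA0, hp0, hU, hS, map_add, map_smul, map_smul,
        h1, h2]
      refine Prod.ext ?_ ?_ <;> simp only [] <;> rw [div_eq_iff hA0, hdet] <;>
        simp [Hn.det2] <;> ring)
  have hd' : HasDerivAt (fun ζ => A.pm (ψ ζ)) u 0 := by
    have h3 := (A.diff _).hasFDerivAt.comp_hasDerivAt 0 hψd
    rw [Hn.Ch.fderiv_pm hA0, hU, one_smul, zero_smul, add_zero] at h3
    exact h3
  obtain ⟨Ψ, hΨ, hΨ0, hΨd, hΨf⟩ := poi_global hf hi hl hr (ψ := fun ζ => A.pm (ψ ζ))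
    (A.diff.comp_differentiableOn hψ) hu hd' (fun ζ hζ => by
      rw [← hψf ζ hζ]
      simp)
  exact ⟨Ψ, hΨ, by rw [hΨ0, hψ0, hp0], hΨd, hΨf⟩

theorem fderiv_inv_eig (hf : Differentiable ℂ (⇑f)) (hi : Differentiable ℂ (⇑f⁻¹)) {p u : ℂ × ℂ}
    (hp : f p = p) {l : ℂ} (hu : u ≠ 0) (h : fderiv ℂ (⇑f) p u = l • u) :
    l ≠ 0 ∧ fderiv ℂ (⇑f⁻¹) p u = l⁻¹ • u := by
  have hl : l ≠ 0 := fun e => hu (Poi_inj hf hi (by rw [h, e, zero_smul]))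
  refine ⟨hl, ?_⟩
  have h1 := Hn.BAut_comp hi hf p u
  rw [inv_mul_cancel, hp, h, map_smul] at h1
  have h2 : u = l • fderiv ℂ (⇑f⁻¹) p u := by simpa using h1
  rw [eq_inv_smul_iff₀ hl, ← h2]

/- `exists_poi` for `f` and for `f⁻¹`; `Hn.det2_map` for the determinant. -/
theorem exists_chart (hf : Differentiable ℂ (⇑f)) (hi : Differentiable ℂ (⇑f⁻¹)) {p u s : ℂ × ℂ}
    (hp : f p = p) {l m : ℂ} (hu : u ≠ 0) (hs : s ≠ 0) (hl : 1 < ‖l‖) (hm : ‖m‖ < 1)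
    (h1 : fderiv ℂ (⇑f) p u = l • u) (h2 : fderiv ℂ (⇑f) p s = m • s) :
    ∃ ψ σ, Chart f p ψ σ l m := by
  obtain ⟨hm0, h3⟩ := fderiv_inv_eig hf hi hp hs h2
  obtain ⟨hl0, h4⟩ := fderiv_inv_eig hf hi hp hu h1
  have hp' : f⁻¹ p = p := by rw [Equiv.Perm.inv_eq_iff_eq, hp]
  obtain ⟨ψ, hψ, hψ0, hψd, hψf⟩ := exists_poi hf hi hp hu hs hl hm h1 h2
  obtain ⟨σ, hσ, hσ0, hσd, hσf⟩ := exists_poi (f := f⁻¹) hi (by rwa [inv_inv]) hp' hs hu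
    (by rw [norm_inv]; exact (one_lt_inv₀ (norm_pos_iff.2 hm0)).2 hm)
    (by rw [norm_inv]; exact inv_lt_one_of_one_lt₀ hl) h3 h4
  have hdet := Poi_det hu hs (fun e => by rw [e] at hl; linarith) h1 h2
  refine ⟨ψ, σ, hψ, hσ, hψ0, hσ0, hψf, fun z => ?_, hl, hm, hm0, ?_, ?_⟩
  · rw [← Equiv.Perm.eq_inv_iff_eq, hσf, inv_mul_cancel_left₀ hm0]
  · rw [hψd, hσd]
    exact hdet
  · have h5 := Hn.det2_map (fderiv ℂ (⇑f) p) u s
    rw [h1, h2, Hn.det2_smul] at h5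
    exact (mul_right_cancel₀ hdet h5).symm

variable {p : ℂ × ℂ} {ψ σ : ℂ → ℂ × ℂ} {l m : ℂ}

theorem Chart.fix (h : Chart f p ψ σ l m) : f p = p := by
  have h1 := h.fu 0
  rwa [mul_zero, h.u0] at h1

theorem Chart.symm (hf : Differentiable ℂ (⇑f)) (hi : Differentiable ℂ (⇑f⁻¹))
    (h : Chart f p ψ σ l m) : Chart f⁻¹ p σ ψ m⁻¹ l⁻¹ := by
  have hl0 : l ≠ 0 := norm_pos_iff.1 (zero_lt_one.trans h.hl)
  refine ⟨h.is, h.iu, h.s0, h.u0, fun z => ?_, fun z => ?_, ?_, ?_, inv_ne_zero hl0, fun e => ?_, ?_⟩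
  · rw [Equiv.Perm.inv_eq_iff_eq, h.fs, mul_inv_cancel_left₀ h.m0]
  · rw [Equiv.Perm.inv_eq_iff_eq, h.fu, mul_inv_cancel_left₀ hl0]
  · rw [norm_inv]
    exact (one_lt_inv₀ (norm_pos_iff.2 h.m0)).2 h.hm
  · rw [norm_inv]
    exact inv_lt_one_of_one_lt₀ h.hl
  · exact h.tv (by linear_combination -e)
  · have h1 : ∀ v, fderiv ℂ (⇑f⁻¹) p (fderiv ℂ (⇑f) p v) = v := fun v => by
      have h2 := Hn.BAut_comp hi hf p v
      rw [inv_mul_cancel, h.fix] at h2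
      simpa using h2.symm
    have h2 := Hn.det2_map (fderiv ℂ (⇑f⁻¹) p) (fderiv ℂ (⇑f) p (1, 0)) (fderiv ℂ (⇑f) p (0, 1))
    rw [h1, h1, Hn.det2_map, h.det] at h2
    have h3 : Hn.det2 (1, 0) (0, 1) = 1 := by simp [Hn.det2]
    rw [h3, mul_one] at h2
    have hm0 := h.m0
    field_simp
    linear_combination -h2

theorem Chart.pow_u (h : Chart f p ψ σ l m) (n : ℕ) (z : ℂ) : (f ^ n) (ψ z) = ψ (l ^ n * z) := by
  induction n with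
  | zero => simp
  | succ n ih => rw [pow_succ' f, Equiv.Perm.mul_apply, ih, h.fu, pow_succ' l, mul_assoc]

theorem Chart.pow_s (h : Chart f p ψ σ l m) (n : ℕ) (z : ℂ) : (f ^ n) (σ z) = σ (m ^ n * z) := by
  induction n with
  | zero => simp
  | succ n ih => rw [pow_succ' f, Equiv.Perm.mul_apply, ih, h.fs, pow_succ' m, mul_assoc]

theorem Chart.G_s {d : ℝ} {G H : ℂ × ℂ → ℝ} (hd : HD f d G H) (h : Chart f p ψ σ l m) (z : ℂ) :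
    G (σ z) = 0 := by
  refine Poi_zero (g := fun t => G (σ t)) (hd.cG.comp h.is.dif.continuous) hd.hd (hd.nG _) h.hm
    fun n => ?_
  rw [← h.pow_s, hd.G_pow]

theorem Chart.H_u {d : ℝ} {G H : ℂ × ℂ → ℝ} (hd : HD f d G H) (h : Chart f p ψ σ l m) (z : ℂ) :
    H (ψ z) = 0 := by
  exact (h.symm hd.df hd.di).G_s hd.symm z

end Pool.Agent.Lib.MP_7b5e47_an.Hq
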