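import Pool.Agent.Lib.MP_7b5e47_an.Hq.HD
import Pool.Agent.Lib.MP_7b5e47_an.Hn.PMontel
import Pool.Agent.Lib.MP_7b5e47_an.Hn.PMax

/-! Normal families, zeros of limits, identity theorems. -/

namespace Pool.Agent.Lib.MP_7b5e47_an.Hq

open Set Metric Filter Topology InnerProductSpace

theorem TMon_unif {ι X : Type*} [UniformSpace X] {F : ι → ℂ → X} {g : ℂ → X} {p : Filter ι}
    {c : ℂ} {r s : ℝ} (h : TendstoLocallyUniformlyOn F g p (ball c r)) (hs : s < r) :
    TendstoUniformlyOn F g p (closedBall c s) :=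
  (tendstoLocallyUniformlyOn_iff_forall_isCompact isOpen_ball).1 h _ (closedBall_subset_ball hs)
    (isCompact_closedBall c s)

theorem TMon_ext {X : Type*} [PseudoMetricSpace X] {F : ℕ → ℂ → X} {g : ℂ → X} {U : Set ℂ}
    (hU : IsOpen U) (K : ℕ → Set ℂ) (hK : ∀ k, TendstoUniformlyOn F g (hyperfilter ℕ) (K k))
    (he : ∀ L ⊆ U, IsCompact L → ∀ᶠ k in atTop, L ⊆ K k) :
    ∃ φ : ℕ → ℕ, StrictMono φ ∧ TendstoLocallyUniformlyOn (fun j => F (φ j)) g atTop U := by
  obtain ⟨φ, hφ, h⟩ := extraction_forall_of_frequently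
    (P := fun k j => ∀ z ∈ K k, dist (g z) (F j z) < 1 / ((k : ℝ) + 1)) fun k =>
      (Metric.tendstoUniformlyOn_iff.1 (hK k) _ Nat.one_div_pos_of_nat).frequently.filter_mono
        Nat.hyperfilter_le_atTop
  refine ⟨φ, hφ, (tendstoLocallyUniformlyOn_iff_forall_isCompact hU).2 fun L hL hc =>
    Metric.tendstoUniformlyOn_iff.2 fun ε hε => ?_⟩
  filter_upwards [he L hL hc,
    (tendsto_one_div_add_atTop_nhds_zero_nat (𝕜 := ℝ)).eventually (gt_mem_nhds hε)] with k h1 h2 z hz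
  exact (h k z (h1 hz)).trans h2

/- `Hn.montel` along an ultrafilter finer than `atTop` gives `G`; for each `k` the set of `j` with
`‖F j - G‖ ≤ 1 / (k + 1)` on `closedBall 0 k` belongs to the ultrafilter, so it is met frequently;
`Filter.extraction_forall_of_frequently`. -/
theorem montel {F : ℕ → ℂ → ℂ × ℂ}
    (h : ∀ R : ℝ, ∃ B : ℝ, ∀ᶠ j in atTop, DifferentiableOn ℂ (F j) (ball 0 R) ∧
      ∀ z ∈ ball (0 : ℂ) R, ‖F j z‖ ≤ B) :
    ∃ (φ : ℕ → ℕ) (Ψ : ℂ → ℂ × ℂ), StrictMono φ ∧ Differentiable ℂ Ψ ∧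
      TendstoLocallyUniformly (fun j => F (φ j)) Ψ atTop := by
  have h1 : ∀ R : ℝ, ∃ g : ℂ → ℂ × ℂ, DifferentiableOn ℂ g (ball 0 R) ∧
      TendstoLocallyUniformlyOn F g (hyperfilter ℕ) (ball 0 R) := fun R => by
    obtain ⟨B, hB⟩ := h R
    have hB' := hB.filter_mono Nat.hyperfilter_le_atTop
    refine Hn.montel (hyperfilter ℕ) isOpen_ball (hB'.mono fun j hj => hj.1) fun z hz => ?_
    obtain ⟨r, hr, h2⟩ := Metric.isOpen_iff.1 isOpen_ball z hz
    exact ⟨r, hr, B, hB'.mono fun j hj w hw => hj.2 w (h2 hw)⟩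
  choose g hg hl using h1
  have hm : ∀ z : ℂ, z ∈ ball (0 : ℂ) (‖z‖ + 1) := fun z => mem_ball_zero_iff.2 (lt_add_one _)
  have h2 : ∀ R : ℝ, EqOn (g R) (fun z => g (‖z‖ + 1) z) (ball 0 R) := fun R z hz =>
    tendsto_nhds_unique ((hl R).tendsto_at hz) ((hl _).tendsto_at (hm z))
  obtain ⟨φ, hφ, h3⟩ := TMon_ext (F := F) (g := fun z => g (‖z‖ + 1) z) isOpen_univ
    (fun k => closedBall 0 k)
    (fun k => TMon_unif ((hl ((k : ℝ) + 1)).congr_right (h2 _)) (lt_add_one _)) fun L _ hc => by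
      obtain ⟨R, hR⟩ := hc.isBounded.subset_closedBall 0
      filter_upwards [tendsto_natCast_atTop_atTop.eventually_ge_atTop R] with k hk
      exact hR.trans (closedBall_subset_closedBall hk)
  refine ⟨φ, _, hφ, fun z => ?_, tendstoLocallyUniformlyOn_univ.1 h3⟩
  have hb := isOpen_ball.mem_nhds (hm z)
  exact ((hg _).differentiableAt hb).congr_of_eventuallyEq
    (eventually_of_mem hb fun w hw => (h2 _ hw).symm)

theorem montel_ball {F : ℕ → ℂ → ℂ} {c : ℂ} {r B : ℝ}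
    (h : ∀ j, DifferentiableOn ℂ (F j) (ball c r)) (hB : ∀ j, ∀ z ∈ ball c r, ‖F j z‖ ≤ B) :
    ∃ (φ : ℕ → ℕ) (g : ℂ → ℂ), StrictMono φ ∧ DifferentiableOn ℂ g (ball c r) ∧
      TendstoLocallyUniformlyOn (fun j => F (φ j)) g atTop (ball c r) := by
  obtain ⟨g, hg, hl⟩ := Hn.montel (hyperfilter ℕ) (f := fun j z => (F j z, F j z)) (U := ball c r)
    isOpen_ball (Eventually.of_forall fun j => (h j).prodMk (h j)) fun z hz => by
      obtain ⟨ρ, hρ, h2⟩ := Metric.isOpen_iff.1 isOpen_ball z hz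
      refine ⟨ρ, hρ, B, Eventually.of_forall fun j w hw => ?_⟩
      rw [Prod.norm_mk, max_self]
      exact hB j w (h2 hw)
  have h1 : TendstoLocallyUniformlyOn F (fun z => (g z).1) (hyperfilter ℕ) (ball c r) :=
    uniformContinuous_fst.comp_tendstoLocallyUniformlyOn hl
  obtain ⟨φ, hφ, h3⟩ := TMon_ext isOpen_ball (fun k => closedBall c (r - 1 / ((k : ℝ) + 1)))
    (fun k => TMon_unif h1 (sub_lt_self r Nat.one_div_pos_of_nat)) fun L hL hc => by
      obtain ⟨r', hr', h2⟩ := exists_lt_subset_ball hc.isClosed hL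
      filter_upwards [(tendsto_one_div_add_atTop_nhds_zero_nat (𝕜 := ℝ)).eventually
        (gt_mem_nhds (sub_pos.2 hr'))] with k hk
      exact h2.trans (ball_subset_closedBall.trans (closedBall_subset_closedBall (by linarith)))
  exact ⟨φ, _, hφ, hg.fst, h3⟩

/- On a small circle `‖g‖ ≥ μ > 0`; maximum principle for `1 / F j`
(or `DiffContOnCl.ball_subset_image_closedBall`). -/
theorem hurwitz {F : ℕ → ℂ → ℂ} {g : ℂ → ℂ} {c : ℂ} {r : ℝ} (hr : 0 < r)
    (h : ∀ᶠ j in atTop, DifferentiableOn ℂ (F j) (ball c r))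
    (hl : TendstoLocallyUniformlyOn F g atTop (ball c r)) (h0 : g c = 0)
    (hn : ¬ ∀ᶠ z in 𝓝 c, g z = 0) {e : ℝ} (he : 0 < e) :
    ∀ᶠ j in atTop, ∃ z ∈ ball c e, F j z = 0 := by
  have hg := hl.differentiableOn h isOpen_ball
  have h1 := (hg.analyticAt (ball_mem_nhds c hr)).eventually_eq_zero_or_eventually_ne_zero
  obtain ⟨δ, hδ, h2⟩ := Metric.eventually_nhds_iff.1
    (eventually_nhdsWithin_iff.1 (h1.resolve_left hn))
  obtain ⟨ρ, hρ, h3⟩ : ∃ ρ : ℝ, 0 < ρ ∧ ρ < min δ (min e r) := exists_between (by positivity)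
  rw [lt_min_iff, lt_min_iff] at h3
  obtain ⟨h3, h4, h5⟩ := h3
  have hs : closedBall c ρ ⊆ ball c r := closedBall_subset_ball h5
  obtain ⟨a, ha, hm⟩ := (isCompact_sphere c ρ).exists_isMinOn (NormedSpace.sphere_nonempty.2 hρ.le)
    (hg.continuousOn.norm.mono (sphere_subset_closedBall.trans hs))
  have hμ : 0 < ‖g a‖ := norm_pos_iff.2 (h2 (ha.le.trans_lt h3) (ne_of_mem_sphere ha hρ.ne'))
  filter_upwards [h, Metric.tendstoUniformlyOn_iff.1 (TMon_unif hl h5) _ (half_pos hμ)]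
    with j h6 h7
  by_contra hne
  push Not at hne
  have h8 : ∀ z ∈ closedBall c ρ, F j z ≠ 0 := fun z hz => hne z (closedBall_subset_ball h4 hz)
  have h9 := Complex.norm_le_of_forall_mem_frontier_norm_le (f := fun z => (F j z)⁻¹)
    (U := ball c ρ) isBounded_ball (C := (‖g a‖ / 2)⁻¹) (z := c)
    (DifferentiableOn.diffContOnCl (by
      rw [closure_ball c hρ.ne']
      exact (h6.mono hs).inv h8)) (fun z hz => by
      rw [frontier_ball c hρ.ne'] at hz
      rw [norm_inv]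
      refine inv_anti₀ (half_pos hμ) ?_
      have a1 : ‖g a‖ ≤ ‖g z‖ := hm hz
      have a2 := h7 z (sphere_subset_closedBall hz)
      rw [dist_eq_norm] at a2
      linarith [norm_sub_norm_le (g z) (F j z)]) (subset_closure (mem_ball_self hρ))
  have h10 := h7 c (mem_closedBall_self hρ.le)
  rw [h0, dist_zero_left] at h10
  rw [norm_inv, inv_le_inv₀ (norm_pos_iff.2 (h8 c (mem_closedBall_self hρ.le))) (half_pos hμ)] at h9
  linarith

/- The zeros form an infinite subset of a compact annulus inside `O`;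
`AnalyticOnNhd.eqOn_zero_of_preconnected_of_frequently_eq_zero`. -/
theorem circ {E : Type} [NormedAddCommGroup E] [NormedSpace ℂ E] [CompleteSpace E] {F : ℂ → E}
    {O : Set ℂ} (hO : IsOpen O) (hc : IsPreconnected O) (hF : DifferentiableOn ℂ F O) {c : ℂ}
    {r₁ r₂ : ℝ} (hr : r₁ < r₂) (hA : ∀ z, r₁ ≤ ‖z - c‖ → ‖z - c‖ ≤ r₂ → z ∈ O)
    (h : ∀ r ∈ Ioo r₁ r₂, 0 ≤ r → ∃ z, ‖z - c‖ = r ∧ F z = 0) (h0 : 0 < r₂) :
    ∀ z ∈ O, F z = 0 := by
  have hK : IsCompact (closedBall c r₂ \ ball c r₁) := (isCompact_closedBall c r₂).diff isOpen_ball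
  have h1 : ((closedBall c r₂ \ ball c r₁) ∩ {z | F z = 0}).Infinite := by
    refine Infinite.of_image (fun z => ‖z - c‖) ((Ioo_infinite (max_lt hr h0)).mono fun ρ hρ => ?_)
    obtain ⟨z, h2, h3⟩ := h ρ ⟨(le_max_left _ _).trans_lt hρ.1, hρ.2⟩
      ((le_max_right _ _).trans hρ.1.le)
    refine ⟨z, ⟨⟨?_, ?_⟩, h3⟩, h2⟩
    · rw [mem_closedBall, dist_eq_norm, h2]
      exact hρ.2.le
    · rw [mem_ball, dist_eq_norm, h2, not_lt]
      exact (le_max_left _ _).trans hρ.1.le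
  obtain ⟨x, hx, h2⟩ := h1.exists_accPt_of_subset_isCompact hK inter_subset_left
  have hxO : x ∈ O := hA x (by simpa [dist_eq_norm] using hx.2) (by simpa [dist_eq_norm] using hx.1)
  exact (hF.analyticOnNhd hO).eqOn_zero_of_preconnected_of_frequently_eq_zero hc hxO
    ((accPt_iff_frequently_nhdsNE.1 h2).mono fun z hz => hz.2)

/- `Hn.wmp` or a direct argument: among the points where `g - h` has a positive maximum take one of
largest real part; there `g > 0`, so `g - h` is harmonic, and the mean value property makes it constant on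
small circles. -/
theorem mp {g h : ℂ → ℝ} {K : Set ℂ} (hK : IsCompact K) (hg : ContinuousOn g K)
    (hh : ContinuousOn h K)
    (hi : ∀ z ∈ interior K, 0 ≤ h z ∧ HarmonicAt h z ∧ (0 < g z → HarmonicAt g z))
    (hb : ∀ z ∈ frontier K, g z ≤ h z) : ∀ z ∈ K, g z ≤ h z := by
  intro z hz
  by_contra hne
  rw [not_le, ← sub_pos] at hne
  have hf : ∀ t ∈ K, 0 < g t - h t → t ∈ interior K := fun t ht h1 => by
    by_contra h2
    have h3 := hb t (hK.isClosed.frontier_eq ▸ ⟨ht, h2⟩)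
    linarith
  have hc : ContinuousOn (fun t => g t - h t) K := hg.sub hh
  have hcl : closure (interior K ∩ (fun t => g t - h t) ⁻¹' Ioi 0) ⊆ K :=
    closure_minimal (inter_subset_left.trans interior_subset) hK.isClosed
  obtain ⟨ζ, h1, h2, h3⟩ := Hn.wmp (φ := fun t => g t - h t)
    ((hc.mono interior_subset).isOpen_inter_preimage isOpen_interior isOpen_Ioi)
    (hK.isBounded.subset (inter_subset_left.trans interior_subset)) (hc.mono hcl)
    (fun t ht => by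
      obtain ⟨a1, a2, a3⟩ := hi t ht.1
      have a4 : 0 < g t - h t := ht.2
      exact ((Hn.MV.of_harmonic (a3 (by linarith))).sub (Hn.MV.of_harmonic a2)).smv)
    ⟨hf z hz hne, hne⟩
  exact h2 ⟨hf ζ (hcl h1) (hne.trans_le h3), hne.trans_le h3⟩

/- Mean value property on the circles of radius `s < r` (`HarmonicOnNhd.circleAverage_eq`), passage to
the limit, and a continuous nonnegative function with mean zero vanishes. -/
theorem lim0 {gs : ℕ → ℂ → ℝ} {g : ℂ → ℝ} {c : ℂ} {r : ℝ} (hg : ContinuousOn g (ball c r))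
    (h0 : ∀ z ∈ ball c r, 0 ≤ g z) (hl : TendstoLocallyUniformlyOn gs g atTop (ball c r))
    (hh : ∀ s < r, ∀ᶠ j in atTop, ∀ z ∈ closedBall c s, HarmonicAt (gs j) z) (hc : g c = 0) :
    ∀ z ∈ ball c r, g z = 0 := by
  intro z hz
  have hs : dist z c < r := hz
  have ha : |dist z c| = dist z c := abs_dist
  have hb : sphere c |dist z c| ⊆ closedBall c (dist z c) := ha.symm ▸ sphere_subset_closedBall
  have hc' := hg.mono (hb.trans (closedBall_subset_ball hs))
  have h1 : Real.circleAverage g c (dist z c) ≤ 0 := by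
    refine le_of_forall_pos_le_add fun ε hε => ?_
    obtain ⟨j, h2, h3⟩ := ((hh _ hs).and
      (Metric.tendstoUniformlyOn_iff.1 (TMon_unif hl hs) _ (half_pos hε))).exists
    have h4 : Real.circleAverage (gs j) c (dist z c) = gs j c :=
      InnerProductSpace.HarmonicOnNhd.circleAverage_eq fun t ht => h2 t (ha ▸ ht)
    have h5 : ContinuousOn (gs j) (sphere c |dist z c|) := fun t ht =>
      (h2 t (hb ht)).1.continuousAt.continuousWithinAt
    have h6 := Real.circleAverage_mono_on_of_le_circle (f := fun t => g t - gs j t) (a := ε / 2)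
      (hc'.sub h5).circleIntegrable' fun t ht => (le_abs_self _).trans (h3 t (hb ht)).le
    rw [Real.circleAverage_fun_sub hc'.circleIntegrable' h5.circleIntegrable', h4] at h6
    have h7 := h3 c (mem_closedBall_self dist_nonneg)
    rw [hc, Real.dist_eq, zero_sub, abs_neg] at h7
    linarith [le_abs_self (gs j c)]
  have h2 := Hn.PMax_circ (φ := fun t => (-1 : ℝ) • g t) (ζ := c) (r := dist z c) (m := 0)
    (hc'.const_smul (-1 : ℝ)) (fun t ht => by
      have := h0 t (closedBall_subset_ball hs (hb ht))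
      rw [smul_eq_mul]
      linarith) (by
      rw [Real.circleAverage_fun_smul, smul_eq_mul]
      linarith) z (by rw [mem_sphere, ha])
  simpa using h2

/- The zero set of `g` in `O` is open by `lim0` and closed in `O`. -/
theorem lim0' {gs : ℕ → ℂ → ℝ} {g : ℂ → ℝ} {O : Set ℂ} (hO : IsOpen O) (hc : IsPreconnected O)
    (hg : ContinuousOn g O) (h0 : ∀ z ∈ O, 0 ≤ g z) (hl : TendstoLocallyUniformlyOn gs g atTop O)
    (hh : ∀ K ⊆ O, IsCompact K → ∀ᶠ j in atTop, ∀ z ∈ K, HarmonicAt (gs j) z) {c : ℂ} (hc' : c ∈ O)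
    (hz : g c = 0) : ∀ z ∈ O, g z = 0 := by
  have key : ∀ t ∈ O, g t = 0 → ∀ᶠ w in 𝓝 t, g w = 0 := fun t ht h1 => by
    obtain ⟨ρ, hρ, h2⟩ := Metric.isOpen_iff.1 hO t ht
    exact eventually_of_mem (ball_mem_nhds t hρ) (lim0 (hg.mono h2) (fun w hw => h0 w (h2 hw))
      (hl.mono h2) (fun s hs => hh _ ((closedBall_subset_ball hs).trans h2)
        (isCompact_closedBall t s)) h1)
  have h1 : O ⊆ {t | ∀ᶠ w in 𝓝 t, g w = 0} := by
    refine hc.subset_of_closure_inter_subset isOpen_setOfPred_eventually_nhds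
      ⟨c, hc', key c hc' hz⟩ fun t ht => key t ht.2 ?_
    by_contra hne
    obtain ⟨w, h2, h3⟩ := ((mem_closure_iff_frequently.1 ht.1).and_eventually
      ((hg.continuousAt (hO.mem_nhds ht.2)).eventually_ne hne)).exists
    exact h3 (Eventually.self_of_nhds (p := fun w => g w = 0) h2)
  exact fun t ht => Eventually.self_of_nhds (p := fun w => g w = 0) (h1 ht)

theorem TMon_sel {P : ℕ → ℂ → Prop} (h : ∀ e : ℝ, 0 < e → ∀ᶠ j in atTop, ∃ z ∈ ball 0 e, P j z) :
    ∃ τ : ℕ → ℂ, (∀ e : ℝ, 0 < e → ∀ᶠ j in atTop, ‖τ j‖ < e) ∧ ∀ᶠ j in atTop, P j (τ j) := by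
  have h1 : ∀ j : ℕ, ∃ z : ℂ, (∃ w, P j w) →
      P j z ∧ ∀ w, P j w → ‖z‖ < ‖w‖ + 1 / ((j : ℝ) + 1) := fun j => by
    by_cases hj : ∃ w, P j w
    · obtain ⟨_, ⟨z, hz, rfl⟩, h2⟩ := exists_lt_of_csInf_lt (Set.Nonempty.image norm hj)
        (lt_add_of_pos_right _ (Nat.one_div_pos_of_nat (n := j)))
      refine ⟨z, fun _ => ⟨hz, fun w hw => h2.trans_le ?_⟩⟩
      gcongr
      exact csInf_le ⟨0, by rintro _ ⟨x, -, rfl⟩; exact norm_nonneg x⟩ ⟨w, hw, rfl⟩
    · exact ⟨0, fun h' => absurd h' hj⟩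
  choose τ hτ using h1
  refine ⟨τ, fun e he => ?_, (h 1 one_pos).mono fun j ⟨z, _, hz⟩ => (hτ j ⟨z, hz⟩).1⟩
  filter_upwards [h _ (half_pos he), (tendsto_one_div_add_atTop_nhds_zero_nat (𝕜 := ℝ)).eventually
    (gt_mem_nhds (half_pos he))] with j ⟨z, h1, h2⟩ h3
  have h4 := (hτ j ⟨z, h2⟩).2 z h2
  rw [mem_ball_zero_iff] at h1
  linarith

theorem TMon_dsl {ys : ℕ → ℂ → ℂ} {y : ℂ → ℂ} {r : ℝ} (hr : 0 < r)
    (hd : ∀ᶠ j in atTop, DifferentiableOn ℂ (ys j) (ball 0 r))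
    (hl : TendstoLocallyUniformlyOn ys y atTop (ball 0 r)) (h0 : y 0 = 0) {τ : ℕ → ℂ}
    (h1 : ∀ e : ℝ, 0 < e → ∀ᶠ j in atTop, ‖τ j‖ < e) (h2 : ∀ᶠ j in atTop, ys j (τ j) = 0) :
    TendstoUniformlyOn (fun j => dslope (ys j) (τ j)) (dslope y 0) atTop (ball 0 (r / 2)) := by
  have hρ := half_pos hr
  have hs : closedBall (0 : ℂ) (r / 2) ⊆ ball 0 r := closedBall_subset_ball (half_lt_self hr)
  have hy := (Complex.differentiableOn_dslope (ball_mem_nhds 0 hr)).2
    (hl.differentiableOn hd isOpen_ball)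
  obtain ⟨B, hB⟩ := (isCompact_closedBall (0 : ℂ) (r / 2)).exists_bound_of_continuousOn
    (hy.continuousOn.mono hs)
  have hB0 : 0 ≤ B := (norm_nonneg _).trans (hB 0 (mem_closedBall_self hρ.le))
  refine Metric.tendstoUniformlyOn_iff.2 fun ε hε => ?_
  filter_upwards [hd, h2, h1 (r / 4) (by positivity), h1 (ε * r / 16 / (B + 1)) (by positivity),
    Metric.tendstoUniformlyOn_iff.1 (TMon_unif hl (half_lt_self hr)) (ε * r / 16) (by positivity)]
    with j a1 a2 a3 a4 a5 z hz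
  have a6 := (Complex.differentiableOn_dslope
    (isOpen_ball.mem_nhds (mem_ball_zero_iff.2 (a3.trans (by linarith))))).2 a1
  rw [dist_eq_norm]
  refine (Complex.norm_le_of_forall_mem_frontier_norm_le
    (f := fun t => dslope y 0 t - dslope (ys j) (τ j) t) (U := ball 0 (r / 2)) isBounded_ball
    (C := ε / 2) (DifferentiableOn.diffContOnCl (by
      rw [closure_ball 0 hρ.ne']
      exact (hy.sub a6).mono hs)) (fun t ht => ?_) (subset_closure hz)).trans_lt (half_lt_self hε)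
  rw [frontier_ball 0 hρ.ne'] at ht
  have b1 := sub_smul_dslope_of_zero h0 t
  have b2 := sub_smul_dslope_of_zero a2 t
  rw [smul_eq_mul] at b1 b2
  have b3 : (t - τ j) * (dslope y 0 t - dslope (ys j) (τ j) t) =
      (y t - ys j t) - τ j * dslope y 0 t := by
    rw [← b1, ← b2]
    ring
  have b4 : r / 4 ≤ ‖t - τ j‖ := by
    have := norm_sub_norm_le t (τ j)
    rw [mem_sphere_zero_iff_norm.1 ht] at this
    linarith
  have b5 := a5 t (sphere_subset_closedBall ht)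
  rw [dist_eq_norm] at b5
  have b6 : ‖τ j * dslope y 0 t‖ ≤ ε * r / 16 := by
    rw [norm_mul]
    rw [lt_div_iff₀ (by positivity)] at a4
    have := mul_le_mul_of_nonneg_left (hB t (sphere_subset_closedBall ht)) (norm_nonneg (τ j))
    nlinarith [norm_nonneg (τ j)]
  have b7 := norm_sub_le (y t - ys j t) (τ j * dslope y 0 t)
  rw [← b3, norm_mul] at b7
  have b8 := mul_le_mul_of_nonneg_right b4 (norm_nonneg (dslope y 0 t - dslope (ys j) (τ j) t))
  refine le_of_mul_le_mul_left (a := r / 4) ?_ (by positivity)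
  linarith

theorem TMon_fac (k : ℕ) : ∀ {ys : ℕ → ℂ → ℂ} {y : ℂ → ℂ} {r : ℝ}, 0 < r →
    (∀ᶠ j in atTop, DifferentiableOn ℂ (ys j) (ball 0 r)) →
    TendstoLocallyUniformlyOn ys y atTop (ball 0 r) → analyticOrderAt y 0 = k →
    ∃ ρ c C : ℝ, 0 < ρ ∧ 0 < c ∧ 0 < C ∧ ∀ e : ℝ, 0 < e → ∀ᶠ j in atTop, ∃ τ : Fin k → ℂ,
      (∀ i, ‖τ i‖ < e) ∧ ∀ t ∈ ball (0 : ℂ) ρ,
        c * ∏ i, ‖t - τ i‖ ≤ ‖ys j t‖ ∧ ‖ys j t‖ ≤ C * ∏ i, ‖t - τ i‖ := by
  induction k with
  | zero =>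
    intro ys y r hr hd hl ho
    have ha := (hl.differentiableOn hd isOpen_ball).analyticAt (ball_mem_nhds 0 hr)
    have h0 : 0 < ‖y 0‖ := norm_pos_iff.2 (ha.analyticOrderAt_eq_zero.1 ho)
    obtain ⟨δ, hδ, h1⟩ := Metric.continuousAt_iff.1 ha.continuousAt (‖y 0‖ / 4) (by positivity)
    refine ⟨min δ (r / 2), ‖y 0‖ / 2, 2 * ‖y 0‖, by positivity, by positivity, by positivity,
      fun e _ => ?_⟩
    filter_upwards [Metric.tendstoUniformlyOn_iff.1 (TMon_unif hl (half_lt_self hr)) (‖y 0‖ / 4)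
      (by positivity)] with j h2
    refine ⟨Fin.elim0, fun i => i.elim0, fun t ht => ?_⟩
    have h3 := h1 (lt_min_iff.1 (mem_ball.1 ht)).1
    have h4 := h2 t (mem_closedBall.2 (lt_min_iff.1 (mem_ball.1 ht)).2.le)
    rw [dist_eq_norm] at h3 h4
    rw [Fin.prod_univ_zero, mul_one, mul_one]
    constructor
    · linarith [norm_sub_norm_le (y t) (ys j t), norm_sub_norm_le (y 0) (y t),
        norm_sub_rev (y 0) (y t)]
    · linarith [norm_sub_norm_le (ys j t) (y t), norm_sub_norm_le (y t) (y 0),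
        norm_sub_rev (ys j t) (y t)]
  | succ k ih =>
    intro ys y r hr hd hl ho
    have hy := hl.differentiableOn hd isOpen_ball
    have h0 : y 0 = 0 := apply_eq_zero_of_analyticOrderAt_ne_zero (by
      rw [ho]
      exact Nat.cast_ne_zero.2 k.succ_ne_zero)
    obtain ⟨τ, h1, h2⟩ := TMon_sel (P := fun j z => ys j z = 0) fun e he =>
      hurwitz hr hd hl h0 (fun hn => by
        rw [← analyticOrderAt_eq_top (𝕜 := ℂ), ho] at hn
        exact ENat.natCast_ne_top _ hn) he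
    have ha := ((Complex.differentiableOn_dslope (ball_mem_nhds 0 hr)).2 hy).analyticAt
      (ball_mem_nhds 0 hr)
    have h3 : analyticOrderAt (dslope y 0) 0 = k := by
      have e : y = id * dslope y 0 := funext fun t => by
        simpa using (sub_smul_dslope_of_zero h0 t).symm
      rw [e, analyticOrderAt_mul analyticAt_id ha, analyticOrderAt_id, Nat.cast_succ,
        add_comm] at ho
      exact WithTop.add_right_cancel ENat.one_ne_top ho
    obtain ⟨ρ, c, C, hρ, hc, hC, h4⟩ := ih (ys := fun j => dslope (ys j) (τ j)) (half_pos hr) (by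
      filter_upwards [hd, h1 r hr] with j a1 a2
      exact ((Complex.differentiableOn_dslope (isOpen_ball.mem_nhds
        (mem_ball_zero_iff.2 a2))).2 a1).mono (ball_subset_ball (half_le_self hr.le)))
      (TMon_dsl hr hd hl h0 h1 h2).tendstoLocallyUniformlyOn h3
    refine ⟨ρ, c, C, hρ, hc, hC, fun e he => ?_⟩
    filter_upwards [h4 e he, h1 e he, h2] with j ⟨σ, a1, a2⟩ a3 a4
    refine ⟨Fin.cons (τ j) σ, fun i => Fin.cases a3 a1 i, fun t ht => ?_⟩
    rw [← sub_smul_dslope_of_zero a4 t, norm_smul, Fin.prod_univ_succ, Fin.cons_zero,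
      mul_left_comm c, mul_left_comm C]
    simp only [Fin.cons_succ]
    exact ⟨mul_le_mul_of_nonneg_left (a2 t ht).1 (norm_nonneg _),
      mul_le_mul_of_nonneg_left (a2 t ht).2 (norm_nonneg _)⟩

/- Induction on the order `k` of `y` at `0`, for the statement: there are `ρ, c, C > 0` such that eventually
`ys j t = u t * ∏ i : Fin k, (t - τ i)` on `ball 0 ρ` with `c ≤ ‖u‖ ≤ C` there and all `‖τ i‖ < e` (for each
`e > 0`).  Step: `hurwitz` gives a zero `τ j → 0`; `dslope (ys j) (τ j) → dslope y 0` locally uniformly by the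
maximum principle on circles.  Then take the zero `t₀` of least norm:
`‖t - τ i‖ ≤ (R + 1) ‖τ i‖` for `‖t‖ ≤ R ‖t₀‖`. -/
theorem remez {ys : ℕ → ℂ → ℂ} {y : ℂ → ℂ} {r : ℝ} (hr : 0 < r)
    (hd : ∀ᶠ j in atTop, DifferentiableOn ℂ (ys j) (ball 0 r))
    (hl : TendstoLocallyUniformlyOn ys y atTop (ball 0 r)) (h0 : y 0 = 0)
    (hn : ¬ ∀ᶠ z in 𝓝 (0 : ℂ), y z = 0) (R : ℝ) : ∃ C : ℝ, ∀ e : ℝ, 0 < e → ∀ᶠ j in atTop,
      ∃ t₀ : ℂ, ys j t₀ = 0 ∧ ‖t₀‖ < e ∧ ∀ t, ‖t‖ ≤ R * ‖t₀‖ → ‖ys j t‖ ≤ C * ‖ys j 0‖ := by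
  obtain ⟨k, hk⟩ := ENat.ne_top_iff_exists.1 (mt (analyticOrderAt_eq_top (𝕜 := ℂ)).1 hn)
  have ha := (hl.differentiableOn hd isOpen_ball).analyticAt (ball_mem_nhds 0 hr)
  have hk0 : k ≠ 0 := by
    rintro rfl
    exact ha.analyticOrderAt_eq_zero.1 hk.symm h0
  obtain ⟨ρ, c, C, hρ, hc, hC, h1⟩ := TMon_fac k hr hd hl hk.symm
  have hR : 0 < |R| + 1 := by positivity
  refine ⟨C * (|R| + 1) ^ k / c, fun e he => ?_⟩
  filter_upwards [h1 (min e (ρ / (|R| + 1))) (by positivity)] with j ⟨τ, h2, h3⟩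
  have : Nonempty (Fin k) := ⟨⟨0, Nat.pos_of_ne_zero hk0⟩⟩
  obtain ⟨i₀, h4⟩ := Finite.exists_min fun i => ‖τ i‖
  have h5 := (lt_div_iff₀ hR).1 (lt_min_iff.1 (h2 i₀)).2
  have h6 := norm_nonneg (τ i₀)
  have h7 := abs_nonneg R
  refine ⟨τ i₀, ?_, (lt_min_iff.1 (h2 i₀)).1, fun t ht => ?_⟩
  · have h8 := (h3 (τ i₀) (mem_ball_zero_iff.2 (by nlinarith))).2
    rw [Finset.prod_eq_zero (Finset.mem_univ i₀) (by simp), mul_zero] at h8
    exact norm_le_zero_iff.1 h8
  · have h8 : ‖t‖ ≤ |R| * ‖τ i₀‖ := ht.trans (mul_le_mul_of_nonneg_right (le_abs_self R) h6)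
    have h9 := (h3 0 (mem_ball_self hρ)).1
    simp only [zero_sub, norm_neg] at h9
    have h10 : ∏ i, ‖t - τ i‖ ≤ (|R| + 1) ^ k * ∏ i, ‖τ i‖ := by
      have e : (|R| + 1) ^ k = ∏ _i : Fin k, (|R| + 1) := by simp
      rw [e, ← Finset.prod_mul_distrib]
      refine Finset.prod_le_prod (fun i _ => norm_nonneg _) fun i _ => ?_
      have := mul_le_mul_of_nonneg_left (h4 i) h7
      linarith [norm_sub_le t (τ i)]
    calc ‖ys j t‖ ≤ C * ∏ i, ‖t - τ i‖ := (h3 t (mem_ball_zero_iff.2 (by nlinarith))).2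
      _ ≤ C * ((|R| + 1) ^ k * ∏ i, ‖τ i‖) := mul_le_mul_of_nonneg_left h10 hC.le
      _ = C * (|R| + 1) ^ k / c * (c * ∏ i, ‖τ i‖) := by field_simp
      _ ≤ _ := mul_le_mul_of_nonneg_left h9 (by positivity)

end Pool.Agent.Lib.MP_7b5e47_an.Hq
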