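import Pool.Agent.Lib.MP_7b5e47_an.Hq.J1Def
import Pool.Agent.Lib.MP_7b5e47_an.Hq.Poi
import Pool.Agent.Lib.MP_7b5e47_an.Hq.TMon
import Pool.Agent.Lib.MP_7b5e47_an.Hq.TInv

/-! Estimates from the filtration; base points. -/

namespace Pool.Agent.Lib.MP_7b5e47_an.Hq

open MeasureTheory Set Metric Filter Topology

variable {f : Equiv.Perm (ℂ × ℂ)} {d : ℝ} {G H : ℂ × ℂ → ℝ}

theorem J1Fil_one (h : Fil G H) : ∃ R : ℝ, 1 ≤ R ∧
    (∀ z, H z = 0 → ‖z.2‖ ≤ max R (‖z.1‖ / 2)) ∧ ∀ z, G z = 0 → ‖z.1‖ ≤ max R (‖z.2‖ / 2) := by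
  obtain ⟨R, h1, h2⟩ := h
  exact ⟨max R 1, le_max_right _ _,
    fun z hz => (h1 z hz).trans (max_le_max_right _ (le_max_left _ _)),
    fun z hz => (h2 z hz).trans (max_le_max_right _ (le_max_left _ _))⟩

theorem J1Fil_up {R a b u : ℝ} (hR : 1 ≤ R) (hb : 0 ≤ b) (hu : 0 ≤ u)
    (h : u ≤ a + max R (b / 2)) : u ^ 2 ≤ 3 * (a ^ 2 + R ^ 2 + b ^ 2 / 4) := by
  have h1 : u ≤ a + R + b / 2 := h.trans (by
    rw [add_assoc]
    exact add_le_add le_rfl (max_le (by linarith) (by linarith)))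
  refine (pow_le_pow_left₀ hu h1 2).trans ?_
  nlinarith [sq_nonneg (a - R), sq_nonneg (a - b / 2), sq_nonneg (R - b / 2)]

theorem J1Fil_low {R a b u : ℝ} (hR : 1 ≤ R) (hb : 0 ≤ b) (hba : b ≤ a) (ha : 2 * R ≤ a)
    (h : a - max R (b / 2) ≤ u) : a ^ 2 + b ^ 2 + 1 ≤ 12 * u ^ 2 := by
  have h1 : max R (b / 2) ≤ a / 2 := max_le (by linarith) (by linarith)
  have h2 := pow_le_pow_left₀ (by linarith : 0 ≤ a / 2) (by linarith : a / 2 ≤ u) 2
  have h3 := pow_le_pow_left₀ hb hba 2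
  nlinarith

theorem J1Fil_real {R a b u v r : ℝ} (hR : 1 ≤ R) (ha : 0 ≤ a) (hb : 0 ≤ b) (hu : 0 ≤ u)
    (hv : 0 ≤ v) (hu1 : u ≤ a + max R (b / 2)) (hu2 : a - max R (b / 2) ≤ u)
    (hv1 : v ≤ b + max R (a / 2)) (hv2 : b - max R (a / 2) ≤ v) (h0 : 0 < r) (h1 : r ≤ 1) :
    u ^ 2 + v ^ 2 + r ^ 2 ≤ (8 * R ^ 2 + 12) * (a ^ 2 + b ^ 2 + 1) ∧
      r ^ 2 * (a ^ 2 + b ^ 2 + 1) ≤ (8 * R ^ 2 + 12) * (u ^ 2 + v ^ 2 + r ^ 2) := by
  have hr : r ^ 2 ≤ 1 := pow_le_one₀ h0.le h1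
  have hR2 := sq_nonneg R
  have ha2 := sq_nonneg a
  have hb2 := sq_nonneg b
  have hu2' := sq_nonneg u
  have hv2' := sq_nonneg v
  have hr2 := sq_nonneg r
  constructor
  · have a1 := J1Fil_up hR hb hu hu1
    have a2 := J1Fil_up hR ha hv hv1
    linarith [mul_nonneg hR2 ha2, mul_nonneg hR2 hb2]
  · have a1 : r ^ 2 * (a ^ 2 + b ^ 2 + 1) ≤ a ^ 2 + b ^ 2 + 1 :=
      mul_le_of_le_one_left (by positivity) hr
    have a2 := mul_nonneg hR2 hu2'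
    have a3 := mul_nonneg hR2 hv2'
    have a4 := mul_nonneg hR2 hr2
    have small : a ≤ 2 * R → b ≤ 2 * R →
        r ^ 2 * (a ^ 2 + b ^ 2 + 1) ≤ (8 * R ^ 2 + 12) * (u ^ 2 + v ^ 2 + r ^ 2) := fun b1 b2 => by
      have b3 := mul_le_mul_of_nonneg_left (pow_le_pow_left₀ ha b1 2) hr2
      have b4 := mul_le_mul_of_nonneg_left (pow_le_pow_left₀ hb b2 2) hr2
      linarith
    rcases le_total b a with h | h
    · rcases le_total a (2 * R) with h' | h'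
      · exact small h' (h.trans h')
      · linarith [J1Fil_low hR hb h h' hu2]
    · rcases le_total b (2 * R) with h' | h'
      · exact small (h.trans h') h'
      · linarith [J1Fil_low hR ha h h' hv2]

theorem J1Fil_log {R a b c : ℝ} (hR : 1 ≤ R) (hb : b ≤ max R (a / 2))
    (hc : c = max a b) : |Real.log (max 1 a) - Real.log (max 1 c)| ≤ Real.log R := by
  have h1 : 1 ≤ max 1 a := le_max_left _ _
  have h2 : a ≤ max 1 a := le_max_right _ _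
  have h3 : max 1 a ≤ max 1 c := max_le_max_left _ (hc ▸ le_max_left _ _)
  have h4 : max 1 a ≤ R * max 1 a := le_mul_of_one_le_left (by linarith) hR
  have h5 : R ≤ R * max 1 a := le_mul_of_one_le_right (by linarith) h1
  have h6 : max 1 c ≤ R * max 1 a := max_le (by linarith)
    (hc ▸ max_le (by linarith) (hb.trans (max_le h5 (by linarith))))
  have h7 := Real.log_le_log (by linarith) h3
  have h8 := Real.log_le_log (by linarith) h6
  rw [Real.log_mul (by linarith) (by linarith)] at h8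
  rw [abs_le]
  constructor <;> linarith [Real.log_nonneg hR]

theorem J1Fil_nsq (u v : ℂ) : nsq (((u, 0) : ℂ × ℂ) - (0, v)) = ‖u‖ ^ 2 + ‖v‖ ^ 2 := by
  simp [nsq]

/- Let `M = max ‖x.1‖ ‖y.2‖`. If `M > 2 max R 1`, say `M = ‖x.1‖`, then `‖y.1‖ ≤ M / 2` and
`‖x.1 - y.1‖ ≥ M / 2 > 1`. -/
theorem Fil.bdd (h : Fil G H) : ∃ ρ : ℝ, ∀ x y : ℂ × ℂ, H x = 0 → G y = 0 → ‖x - y‖ ≤ 1 →
    ‖x‖ ≤ ρ ∧ ‖y‖ ≤ ρ := by
  obtain ⟨R, hR, h1, h2⟩ := J1Fil_one h
  refine ⟨2 * R, fun x y hx hy hxy => ?_⟩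
  have a1 := h1 x hx
  have a2 := h2 y hy
  have a3 : ‖x.1‖ ≤ ‖y.1‖ + 1 :=
    (norm_le_norm_add_norm_sub' x.1 y.1).trans
      (add_le_add le_rfl ((norm_fst_le (x - y)).trans hxy))
  have a4 : ‖y.2‖ ≤ ‖x.2‖ + 1 :=
    (norm_le_norm_add_norm_sub x.2 y.2).trans
      (add_le_add le_rfl ((norm_snd_le (x - y)).trans hxy))
  rw [Prod.norm_def x, Prod.norm_def y, max_le_iff, max_le_iff]
  rcases le_max_iff.1 a1 with b1 | b1 <;> rcases le_max_iff.1 a2 with b2 | b2 <;>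
    refine ⟨⟨?_, ?_⟩, ?_, ?_⟩ <;> linarith

/- Let `R' = max R 1`, `M = max ‖x.1‖ ‖y.2‖`; the second logarithm is that of `‖x.1‖² + ‖y.2‖² + 1`. If
`M ≤ 2 R'` the first argument is between `r²` and `32 R'² + 1`, the second between `1` and `8 R'² + 1`.
Otherwise the first is between `M²/4` and `9 M²`, the second between `M²` and `3 M²`. -/
theorem Fil.vw (h : Fil G H) : ∃ C : ℝ, 0 ≤ C ∧ ∀ (x y : ℂ × ℂ) (r : ℝ), H x = 0 → G y = 0 →
    0 < r → r ≤ 1 → |Real.log (nsq (x - y) + r ^ 2) -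
      Real.log (nsq (((x.1, 0) : ℂ × ℂ) - (0, y.2)) + 1 ^ 2)| ≤ C - 2 * Real.log r := by
  obtain ⟨R, hR, h1, h2⟩ := J1Fil_one h
  have hK : 1 ≤ 8 * R ^ 2 + 12 := by linarith [sq_nonneg R]
  refine ⟨Real.log (8 * R ^ 2 + 12), Real.log_nonneg hK, fun x y r hx hy h0 hr => ?_⟩
  have a1 := h1 x hx
  have a2 := h2 y hy
  obtain ⟨b1, b2⟩ := J1Fil_real (a := ‖x.1‖) (b := ‖y.2‖) (u := ‖x.1 - y.1‖) (v := ‖x.2 - y.2‖) hR
    (norm_nonneg _) (norm_nonneg _) (norm_nonneg _) (norm_nonneg _)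
    (by linarith [norm_sub_le x.1 y.1]) (by linarith [norm_sub_norm_le x.1 y.1])
    (by linarith [norm_sub_le x.2 y.2])
    (by linarith [norm_sub_norm_le y.2 x.2, norm_sub_rev x.2 y.2]) h0 hr
  have b3 := Real.log_le_log (by positivity) b1
  have b4 := Real.log_le_log (by positivity) b2
  rw [Real.log_mul (by positivity) (by positivity)] at b3
  rw [Real.log_mul (by positivity) (by positivity), Real.log_mul (by positivity) (by positivity),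
    Real.log_pow] at b4
  have b5 := Real.log_nonpos h0.le hr
  rw [J1Fil_nsq, one_pow, nsq, Prod.fst_sub, Prod.snd_sub, abs_le]
  push_cast at b4
  constructor <;> linarith

/- `‖x‖ ≤ max R ‖x.1‖` on `H = 0`, and `HD.bG`, `HD.bH`. -/
theorem HD.coord (hd : HD f d G H) (h : Fil G H) : ∃ C : ℝ, 0 ≤ C ∧
    (∀ x, H x = 0 → |Real.log (max 1 ‖x.1‖) - G x| ≤ C) ∧
    ∀ y, G y = 0 → |Real.log (max 1 ‖y.2‖) - H y| ≤ C := by
  obtain ⟨R, hR, h1, h2⟩ := J1Fil_one h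
  obtain ⟨C₁, g1⟩ := hd.bG
  obtain ⟨C₂, g2⟩ := hd.bH
  have := Real.log_nonneg hR
  refine ⟨Real.log R + |C₁| + |C₂|, by positivity, fun x hx => ?_, fun y hy => ?_⟩
  · have a1 := J1Fil_log hR (h1 x hx) (Prod.norm_def x)
    linarith [abs_sub_le (Real.log (max 1 ‖x.1‖)) (Real.log (max 1 ‖x‖)) (G x), g1 x hx,
      le_abs_self C₁, abs_nonneg C₂]
  · have a1 := J1Fil_log hR (h2 y hy) ((Prod.norm_def y).trans (max_comm _ _))
    linarith [abs_sub_le (Real.log (max 1 ‖y.2‖)) (Real.log (max 1 ‖y‖)) (H y), g2 y hy,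
      le_abs_self C₂, abs_nonneg C₁]

/- `1 ≤ u² + v² + 1 ≤ 3 (max 1 u)² (max 1 v)²` -/
theorem w_bound (u v : ℂ) : |Real.log (nsq (((u, 0) : ℂ × ℂ) - (0, v)) + 1 ^ 2)| ≤
    2 + 2 * Real.log (max 1 ‖u‖) + 2 * Real.log (max 1 ‖v‖) := by
  rw [J1Fil_nsq, one_pow, abs_of_nonneg (Real.log_nonneg (by
    linarith [sq_nonneg ‖u‖, sq_nonneg ‖v‖]))]
  have h1 : 1 ≤ max 1 ‖u‖ ^ 2 := one_le_pow₀ (le_max_left _ _)
  have h2 : 1 ≤ max 1 ‖v‖ ^ 2 := one_le_pow₀ (le_max_left _ _)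
  have h3 : ‖u‖ ^ 2 ≤ max 1 ‖u‖ ^ 2 := pow_le_pow_left₀ (norm_nonneg _) (le_max_right _ _) 2
  have h4 : ‖v‖ ^ 2 ≤ max 1 ‖v‖ ^ 2 := pow_le_pow_left₀ (norm_nonneg _) (le_max_right _ _) 2
  have h5 : max 1 ‖u‖ ^ 2 ≤ max 1 ‖u‖ ^ 2 * max 1 ‖v‖ ^ 2 :=
    le_mul_of_one_le_right (by positivity) h2
  have h6 : max 1 ‖v‖ ^ 2 ≤ max 1 ‖u‖ ^ 2 * max 1 ‖v‖ ^ 2 :=
    le_mul_of_one_le_left (by positivity) h1
  have h7 := Real.log_le_log (by positivity)
    (by linarith : ‖u‖ ^ 2 + ‖v‖ ^ 2 + 1 ≤ 3 * (max 1 ‖u‖ ^ 2 * max 1 ‖v‖ ^ 2))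
  rw [Real.log_mul (by norm_num) (by positivity), Real.log_mul (by positivity) (by positivity),
    Real.log_pow, Real.log_pow] at h7
  push_cast at h7
  linarith [Real.log_le_sub_one_of_pos (by norm_num : (0 : ℝ) < 3)]

theorem J1_bdK_aff {g : ℂ → ℝ} (hg : Continuous g) {w e : ℂ} (hw : w ∈ bdK g) (he : e ≠ 0) :
    g w = 0 ∧ ∃ᶠ s in 𝓝 (0 : ℂ), g (w + e * s) ≠ 0 := by
  refine ⟨(isClosed_eq hg continuous_const).frontier_subset hw, ?_⟩
  rw [bdK, frontier_eq_closure_inter_closure] at hw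
  have h1 := mem_closure_iff_frequently.1 hw.2
  have h2 : Tendsto (fun z : ℂ => (z - w) / e) (𝓝 w) (𝓝 0) := by
    have : Continuous fun z : ℂ => (z - w) / e := by fun_prop
    simpa using this.tendsto w
  refine h2.frequently (h1.mono fun z hz => ?_)
  rwa [mul_div_cancel₀ _ he, add_sub_cancel]

/- `g = G ∘ ψ` vanishes at `0` (`G p = d G p`) and is unbounded (`HD.unbdd`, `Chart.H_u`). If `bdK g ⊆ {0}`,
the zero set of `g` is open and closed in the preconnected set `{0}ᶜ`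
(`isPreconnected_compl_singleton_of_one_lt_rank`, `IsPreconnected.subset_of_closure_inter_subset` or
`IsPreconnected.subset_or_subset`), so `g > 0` there. Let `c > 0` be the minimum on the unit circle;
`mp` on the annulus `δ ≤ ‖z‖ ≤ 1` (with `c (1 - log ‖z‖ / log δ)` as the lower and `g` as the upper function;
`AnalyticAt.harmonicAt_log_norm`) and `δ → 0` give `g ≥ c` on the punctured disc, against continuity. -/
theorem exists_bdK_ne (hd : HD f d G H) {p : ℂ × ℂ} {ψ σ : ℂ → ℂ × ℂ} {l m : ℂ}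
    (h : Chart f p ψ σ l m) : ∃ w : ℂ, w ≠ 0 ∧ w ∈ bdK fun z => G (ψ z) := by
  by_contra hcon
  push Not at hcon
  have hg : Continuous fun z => G (ψ z) := hd.cG.comp h.iu.dif.continuous
  have h0 : G (ψ 0) = 0 := by
    have h1 := hd.eG p
    rw [h.fix] at h1
    rw [h.u0]
    have h2 : (d - 1) * G p = 0 := by linarith
    exact (mul_eq_zero.1 h2).resolve_left (sub_pos.2 hd.hd).ne'
  have hZ : IsClosed {z | G (ψ z) = 0} := isClosed_eq hg continuous_const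
  have hpos : ∀ z : ℂ, z ≠ 0 → 0 < G (ψ z) := by
    have hc : IsPreconnected ({0}ᶜ : Set ℂ) :=
      (isConnected_compl_singleton_of_one_lt_rank (by simp) 0).isPreconnected
    rcases hc.subset_or_subset isOpen_interior hZ.isOpen_compl
      (disjoint_compl_right.mono_left interior_subset) (fun z hz => by
        by_cases h1 : z ∈ {z | G (ψ z) = 0}
        · refine Or.inl (by_contra fun h2 => hcon z hz ?_)
          exact ⟨subset_closure h1, h2⟩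
        · exact Or.inr h1) with h1 | h1
    · obtain ⟨z, hz⟩ := hd.unbdd h.iu.dif (h.H_u hd) ⟨1, fun h2 => one_ne_zero (h.iu.inj h2)⟩ 0
      by_cases h2 : z = 0
      · rw [h2, h0] at hz
        exact absurd hz (lt_irrefl _)
      · exact absurd (interior_subset (h1 h2)) hz.ne'
    · exact fun z hz => (hd.nG _).lt_of_ne' (h1 hz)
  obtain ⟨z₀, hz₀, hmin⟩ := (isCompact_sphere (0 : ℂ) 1).exists_isMinOn ⟨1, by simp⟩
    hg.continuousOn
  have hc : 0 < G (ψ z₀) := hpos z₀ fun h1 => by simp [h1] at hz₀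
  obtain ⟨z₁, h1, h2, h3⟩ : ∃ z₁ : ℂ, z₁ ≠ 0 ∧ G (ψ z₁) < G (ψ z₀) / 2 ∧ ‖z₁‖ < 1 := by
    have a1 : ∀ᶠ z in 𝓝 (0 : ℂ), G (ψ z) < G (ψ z₀) / 2 :=
      hg.continuousAt.eventually_lt continuousAt_const (by rw [h0]; exact half_pos hc)
    have a2 : ∀ᶠ z in 𝓝 (0 : ℂ), ‖z‖ < 1 :=
      continuous_norm.continuousAt.eventually_lt continuousAt_const (by simp)
    exact (eventually_mem_nhdsWithin.and ((a1.and a2).filter_mono nhdsWithin_le_nhds) :
      ∀ᶠ z in 𝓝[≠] (0 : ℂ), _).exists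
  have h4 : 0 < ‖z₁‖ := norm_pos_iff.2 h1
  have hlog : Real.log ‖z₁‖ < 0 := Real.log_neg h4 h3
  have hK : ∀ z ∈ closedBall (0 : ℂ) 1 \ ball 0 (‖z₁‖ ^ 2), ‖z₁‖ ^ 2 ≤ ‖z‖ ∧ ‖z‖ ≤ 1 :=
    fun z hz => ⟨not_lt.1 fun h5 => hz.2 (mem_ball_zero_iff.2 h5), mem_closedBall_zero_iff.1 hz.1⟩
  have hK0 : ∀ z ∈ closedBall (0 : ℂ) 1 \ ball 0 (‖z₁‖ ^ 2), z ≠ 0 := fun z hz =>
    norm_pos_iff.1 ((pow_pos h4 2).trans_le (hK z hz).1)
  have hcpt : IsCompact (closedBall (0 : ℂ) 1 \ ball 0 (‖z₁‖ ^ 2)) :=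
    (isCompact_closedBall _ _).diff isOpen_ball
  have key := mp (g := fun z => G (ψ z₀) + -(G (ψ z₀) / (2 * Real.log ‖z₁‖)) * Real.log ‖z‖)
    (h := fun z => G (ψ z)) hcpt
    (continuousOn_const.add (continuousOn_const.mul (continuous_norm.continuousOn.log
      fun z hz => norm_ne_zero_iff.2 (hK0 z hz)))) hg.continuousOn
    (fun z hz => ⟨hd.nG _, hd.hG ψ z (h.iu.dif.analyticAt z) (hpos z (hK0 z (interior_subset hz))),
      fun _ => (InnerProductSpace.harmonicAt_const (G (ψ z₀))).add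
        ((analyticAt_id.harmonicAt_log_norm (hK0 z (interior_subset hz))).const_smul
          (c := -(G (ψ z₀) / (2 * Real.log ‖z₁‖))))⟩)
    (fun z hz => by
      obtain ⟨a1, a2⟩ := hK z (hcpt.isClosed.frontier_subset hz)
      rcases a2.eq_or_lt with a3 | a3
      · simp only [a3, Real.log_one, mul_zero, add_zero]
        exact hmin (mem_sphere_zero_iff_norm.2 a3)
      rcases a1.eq_or_lt with a4 | a4
      · refine le_trans (le_of_eq ?_) (hd.nG _)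
        rw [← a4, Real.log_pow]
        field_simp [hlog.ne]
        push_cast
        ring
      · refine absurd (mem_interior.2 ⟨ball 0 1 \ closedBall 0 (‖z₁‖ ^ 2),
          sdiff_subset_sdiff ball_subset_closedBall ball_subset_closedBall,
          isOpen_ball.sdiff isClosed_closedBall, mem_ball_zero_iff.2 a3, fun a5 => ?_⟩) hz.2
        exact absurd (mem_closedBall_zero_iff.1 a5) (not_le.2 a4))
    z₁ ⟨mem_closedBall_zero_iff.2 h3.le, fun a1 => by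
      have := mem_ball_zero_iff.1 a1
      nlinarith⟩
  have h5 : -(G (ψ z₀) / (2 * Real.log ‖z₁‖)) * Real.log ‖z₁‖ = -(G (ψ z₀) / 2) := by
    field_simp [hlog.ne]
  simp only [h5] at key
  linarith

/- `Chart.pow_s`; for `‖m‖ ^ j ≤ 1/6` the parameters `m ^ j (w + e t)` and `w + e t'` have norms at most
`‖w‖/4` and at least `‖w‖/2`; `Imm.bilip` with radius `2 ‖w‖`. -/
theorem Chart.sep {p : ℂ × ℂ} {ψ σ : ℂ → ℂ × ℂ} {l m : ℂ} (h : Chart f p ψ σ l m) {w e : ℂ}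
    (hw : w ≠ 0) (he : 14 * ‖e‖ ≤ ‖w‖) : ∃ δ : ℝ, 0 < δ ∧ ∃ j₀ : ℕ, 0 < j₀ ∧ ∀ j, j₀ ≤ j →
      ∀ t t' : ℂ, ‖t‖ ≤ 7 → ‖t'‖ ≤ 7 → δ ≤ ‖(f ^ j) (σ (w + e * t)) - σ (w + e * t')‖ := by
  obtain ⟨c, C, hc, -, hb⟩ := h.is.bilip (2 * ‖w‖)
  have hw0 : 0 < ‖w‖ := norm_pos_iff.2 hw
  obtain ⟨N, hN⟩ := eventually_atTop.1 ((tendsto_pow_atTop_nhds_zero_of_lt_one (norm_nonneg m)
    h.hm).eventually (ge_mem_nhds (by norm_num : (0 : ℝ) < 1 / 6)))
  refine ⟨c * (‖w‖ / 4), by positivity, N + 1, N.succ_pos, fun j hj t t' ht ht' => ?_⟩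
  have h1 : ∀ s : ℂ, ‖s‖ ≤ 7 → ‖w‖ / 2 ≤ ‖w + e * s‖ ∧ ‖w + e * s‖ ≤ 3 / 2 * ‖w‖ := fun s hs => by
    have a1 : ‖e * s‖ ≤ ‖w‖ / 2 := by
      rw [norm_mul]
      linarith [mul_le_mul_of_nonneg_left hs (norm_nonneg e)]
    constructor
    · linarith [norm_sub_norm_le w (-(e * s)), norm_neg (e * s),
        congrArg norm (sub_neg_eq_add w (e * s))]
    · linarith [norm_add_le w (e * s)]
  have h2 : ‖m ^ j * (w + e * t)‖ ≤ ‖w‖ / 4 := by
    rw [norm_mul, norm_pow]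
    linarith [mul_le_mul (hN j (by omega)) (h1 t ht).2 (norm_nonneg _) (by norm_num)]
  rw [h.pow_s]
  refine le_trans (mul_le_mul_of_nonneg_left ?_ hc.le)
    (hb _ _ (by linarith) (by linarith [(h1 t' ht').2])).1
  linarith [norm_sub_norm_le (w + e * t') (m ^ j * (w + e * t)), (h1 t' ht').1,
    norm_sub_rev (w + e * t') (m ^ j * (w + e * t))]

theorem Imm.aff {ψ : ℂ → ℂ × ℂ} (h : Imm ψ) (w : ℂ) {e : ℂ} (he : e ≠ 0) :
    Imm fun s => ψ (w + e * s) := by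
  have hd : ∀ s, HasDerivAt (fun s => ψ (w + e * s)) (e • deriv ψ (w + e * s)) s := fun s => by
    have h1 : HasDerivAt (fun s : ℂ => w + e * s) e s := by
      simpa using ((hasDerivAt_id s).const_mul e).const_add w
    exact (h.dif _).hasDerivAt.scomp s h1
  refine ⟨fun s => (hd s).differentiableAt, fun s t hst => ?_, fun s => ?_⟩
  · exact mul_left_cancel₀ he (add_left_cancel (h.inj hst))
  · rw [(hd s).deriv]
    exact smul_ne_zero he (h.der _)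

end Pool.Agent.Lib.MP_7b5e47_an.Hq
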