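import Pool.Agent.Lib.MP_7b5e47_an.Hq.J1Cmp

/-! Cut-off functions, the lower bound of the model mass, the energy bound. -/

namespace Pool.Agent.Lib.MP_7b5e47_an.Hq

open MeasureTheory Set Metric Filter Topology

theorem J1Low_int {φ : ℂ × ℂ → ℝ} (hφ : Sm φ) (hs : tsupport φ ⊆ closedBall 0 7) {g : ℂ × ℂ → ℝ}
    (hg : Continuous g) : Integrable (fun γ => φ γ * g γ) := by
  have hc : HasCompactSupport φ :=
    IsCompact.of_isClosed_subset (isCompact_closedBall 0 7) (isClosed_tsupport φ) hs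
  exact (hφ.continuous.mul hg).integrable_of_hasCompactSupport hc.mul_right

theorem J1Low_ball {φ : ℂ × ℂ → ℝ} (hφ : Sm φ) (hs : tsupport φ ⊆ closedBall 0 7)
    (h0 : ∀ γ, 0 ≤ φ γ) {R : ℝ} (h1 : ∀ γ ∈ closedBall (0 : ℂ × ℂ) R, φ γ = 1) {g : ℂ × ℂ → ℝ}
    (hg : Continuous g) (hg0 : ∀ γ, 0 ≤ g γ) :
    ∫ γ in closedBall (0 : ℂ × ℂ) R, g γ ≤ ∫ γ, φ γ * g γ := by
  have h2 : ∫ γ in closedBall (0 : ℂ × ℂ) R, g γ = ∫ γ in closedBall (0 : ℂ × ℂ) R, φ γ * g γ :=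
    setIntegral_congr_fun measurableSet_closedBall fun γ hγ => by simp only [h1 γ hγ, one_mul]
  rw [h2]
  exact setIntegral_le_integral (J1Low_int hφ hs hg)
    (Eventually.of_forall fun γ => mul_nonneg (h0 γ) (hg0 γ))

theorem J1Low_cont_fs {F : ℂ → ℂ} (hF : Differentiable ℂ F) : Continuous (fs F) := by
  have h1 : Continuous (deriv F) := (hF.contDiff (n := 1)).continuous_deriv le_rfl
  have h2 := hF.continuous
  refine Continuous.div (by fun_prop) (by fun_prop) fun s => ?_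
  positivity

theorem J1Low_model {F G : ℂ → ℂ} (hF : Differentiable ℂ F) (hG : Differentiable ℂ G) (γ : ℂ × ℂ) :
    fs F γ.1 * fs G γ.2 ≤ dens (fun s => (F s, 0)) (fun t => (0, G t)) 1 γ := by
  have h1 : deriv (fun s => ((F s, 0) : ℂ × ℂ)) γ.1 = (deriv F γ.1, 0) :=
    ((hF γ.1).hasDerivAt.prodMk (hasDerivAt_const γ.1 (0 : ℂ))).deriv
  have h2 : deriv (fun t => ((0, G t) : ℂ × ℂ)) γ.2 = (0, deriv G γ.2) :=
    ((hasDerivAt_const γ.2 (0 : ℂ)).prodMk (hG γ.2).hasDerivAt).deriv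
  have h3 : Aq (fun s => ((F s, 0) : ℂ × ℂ)) (fun t => (0, G t)) γ = ‖F γ.1‖ ^ 2 + ‖G γ.2‖ ^ 2 := by
    simp [Aq, nsq]
  unfold dens fs
  rw [h1, h2, h3]
  simp only [wd, mul_zero, sub_zero, norm_mul, one_pow, one_mul, mul_pow]
  rw [div_mul_div_comm, ← mul_pow (1 + ‖F γ.1‖ ^ 2)]
  have hx := sq_nonneg ‖F γ.1‖
  have hy := sq_nonneg ‖G γ.2‖
  refine div_le_div_of_nonneg_left (by positivity) (by positivity) ?_
  refine pow_le_pow_left₀ (by positivity) ?_ 3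
  nlinarith [mul_nonneg hx hy]

theorem J1Low_log (a b : ℂ → ℂ × ℂ) {r : ℝ} (hr : 0 < r) (j : ℕ) (γ : ℂ × ℂ) :
    Vf a b r γ - Vf a b (r / 2 ^ j) γ ≤ 2 * j := by
  have hA := Aq_nonneg a b γ
  have h2 : (1 : ℝ) ≤ 2 ^ j := one_le_pow₀ (by norm_num)
  have h3 : Aq a b γ + r ^ 2 ≤ ((2 : ℝ) ^ j) ^ 2 * (Aq a b γ + (r / 2 ^ j) ^ 2) := by
    have : ((2 : ℝ) ^ j) ^ 2 * (r / 2 ^ j) ^ 2 = r ^ 2 := by field_simp
    have h4 : (1 : ℝ) ≤ ((2 : ℝ) ^ j) ^ 2 := one_le_pow₀ h2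
    nlinarith [mul_le_mul_of_nonneg_right h4 hA]
  have h5 := Real.log_le_log (by positivity) h3
  rw [Real.log_mul (by positivity) (by positivity), Real.log_pow, Real.log_pow] at h5
  have h6 : Real.log 2 ≤ 1 := by
    have := Real.log_le_sub_one_of_pos (show (0 : ℝ) < 2 by norm_num)
    linarith
  have h7 : (j : ℝ) * Real.log 2 ≤ j * 1 := mul_le_mul_of_nonneg_left h6 (Nat.cast_nonneg j)
  unfold Vf
  push_cast at h5
  linarith

/- a `ContDiffBump (0 : ℂ × ℂ)` (the instance `HasContDiffBump` exists for finite dimensional real normed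
spaces) with radii `R` and `R + 1`, or a product of two bumps on `ℂ` -/
theorem exists_cut {R : ℝ} (hR : 0 < R) : ∃ φ : ℂ × ℂ → ℝ, Sm φ ∧
    tsupport φ ⊆ closedBall 0 (R + 1) ∧ (∀ γ, 0 ≤ φ γ) ∧ ∀ γ ∈ closedBall (0 : ℂ × ℂ) R, φ γ = 1 := by
  let f : ContDiffBump (0 : ℂ × ℂ) := ⟨R, R + 1, hR, by linarith⟩
  refine ⟨f, f.contDiff, ?_, fun γ => f.nonneg, fun γ hγ => f.one_of_mem_closedBall hγ⟩
  rw [f.tsupport_eq]

/- The density is `‖F'‖² ‖G'‖² / (‖F‖² + ‖G‖² + 1)³ ≥ fs F s * fs G t` since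
`1 + x + y ≤ (1 + x) (1 + y)`; `setIntegral_prod_mul`, `closedBall_prod_same`. -/
theorem model_low {φ : ℂ × ℂ → ℝ} (hφ : Sm φ) (hs : tsupport φ ⊆ closedBall 0 7) (h0 : ∀ γ, 0 ≤ φ γ)
    (h1 : ∀ γ ∈ closedBall (0 : ℂ × ℂ) 1, φ γ = 1) {F G : ℂ → ℂ} (hF : Differentiable ℂ F)
    (hG : Differentiable ℂ G) :
    (∫ s in closedBall (0 : ℂ) 1, fs F s) * (∫ t in closedBall (0 : ℂ) 1, fs G t) ≤
      ∫ γ, φ γ * dens (fun s => (F s, 0)) (fun t => (0, G t)) 1 γ := by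
  have ha : Differentiable ℂ (fun s => ((F s, 0) : ℂ × ℂ)) := hF.prodMk (differentiable_const _)
  have hb : Differentiable ℂ (fun t => ((0, G t) : ℂ × ℂ)) := (differentiable_const _).prodMk hG
  have hd := continuous_dens ha hb one_pos
  refine le_trans ?_ (J1Low_ball hφ hs h0 h1 hd (dens_nonneg _ _ _))
  rw [← setIntegral_prod_mul, closedBall_prod_same]
  have hc : Continuous fun γ : ℂ × ℂ => fs F γ.1 * fs G γ.2 :=
    ((J1Low_cont_fs hF).comp continuous_fst).mul ((J1Low_cont_fs hG).comp continuous_snd)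
  exact setIntegral_mono_on (hc.continuousOn.integrableOn_compact (isCompact_closedBall _ _))
    (hd.continuousOn.integrableOn_compact (isCompact_closedBall _ _)) measurableSet_closedBall
    fun γ _ => J1Low_model hF hG γ

/- `φ dens ρ ≤ ρ² |φ| ‖wd‖² / μ ^ 6` -/
theorem dens_small {φ : ℂ × ℂ → ℝ} (hφ : Sm φ) (hs : tsupport φ ⊆ closedBall 0 7)
    {a b : ℂ → ℂ × ℂ} (ha : Differentiable ℂ a) (hb : Differentiable ℂ b) {μ : ℝ} (hμ : 0 < μ)
    (h : ∀ γ ∈ tsupport φ, μ ^ 2 ≤ Aq a b γ) :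
    ∃ M : ℝ, ∀ ρ : ℝ, 0 < ρ → ∫ γ, φ γ * dens a b ρ γ ≤ M * ρ ^ 2 := by
  have h1 := continuous_deriv_ent ha
  have h2 := continuous_deriv_ent hb
  have hw : Continuous fun γ : ℂ × ℂ => ‖wd (deriv a γ.1) (deriv b γ.2)‖ ^ 2 / μ ^ 6 := by
    unfold wd; fun_prop
  have hi : Integrable fun γ : ℂ × ℂ => |φ γ| * (‖wd (deriv a γ.1) (deriv b γ.2)‖ ^ 2 / μ ^ 6) := by
    refine (J1Low_int hφ hs hw).abs.congr (Eventually.of_forall fun γ => ?_)
    simp only [abs_mul]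
    rw [abs_of_nonneg (a := ‖wd (deriv a γ.1) (deriv b γ.2)‖ ^ 2 / μ ^ 6) (by positivity)]
  refine ⟨∫ γ, |φ γ| * (‖wd (deriv a γ.1) (deriv b γ.2)‖ ^ 2 / μ ^ 6), fun ρ hρ => ?_⟩
  rw [← integral_mul_const]
  refine integral_mono (J1Low_int hφ hs (continuous_dens ha hb hρ)) (hi.mul_const _) fun γ => ?_
  by_cases hγ : γ ∈ tsupport φ
  · have h3 := h γ hγ
    have h4 : dens a b ρ γ ≤ ‖wd (deriv a γ.1) (deriv b γ.2)‖ ^ 2 / μ ^ 6 * ρ ^ 2 := by
      unfold dens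
      rw [div_mul_eq_mul_div, mul_comm _ (ρ ^ 2)]
      refine div_le_div_of_nonneg_left (by positivity) (by positivity) ?_
      calc μ ^ 6 = (μ ^ 2) ^ 3 := by ring
        _ ≤ _ := pow_le_pow_left₀ (by positivity) (by nlinarith [sq_nonneg ρ]) 3
    calc φ γ * dens a b ρ γ ≤ |φ γ| * dens a b ρ γ :=
          mul_le_mul_of_nonneg_right (le_abs_self _) (dens_nonneg _ _ _ _)
      _ ≤ |φ γ| * (‖wd (deriv a γ.1) (deriv b γ.2)‖ ^ 2 / μ ^ 6 * ρ ^ 2) :=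
          mul_le_mul_of_nonneg_left h4 (abs_nonneg _)
      _ = _ := by ring
  · simp only [image_eq_zero_of_notMem_tsupport hγ, zero_mul, abs_zero, le_refl]

/- Take `φ` from `exists_cut` with `R = 6`. For `j ≤ k`, `V r - V (r/2^j) ≤ log (4 ^ j) ≤ 2 k`
(`(A + r²) ≤ 4 ^ j (A + (r/2^j)²)`, `log 2 ≤ 1`), the two areas are at most `49 π` (`Eset_subset`), so by
`cln` and `cmp_dep` every term is at most `C (B² + B + k)`; and `B ≤ C₀ A`, `1 ≤ A`, `A² ≤ k`. -/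
theorem energy (C₀ : ℝ) (hC₀ : 0 ≤ C₀) : ∃ C : ℝ, 0 < C ∧
    ∀ (a b : ℂ → ℂ × ℂ) (Λ r A : ℝ) (k : ℕ), Pair a b Λ r → 1 ≤ A → A ^ 2 ≤ k →
      (∀ γ ∈ closedBall (0 : ℂ × ℂ) 8, |Vf a b r γ| ≤ C₀ * A) →
      ∑ j ∈ Finset.range (k + 1), ∫ γ in closedBall (0 : ℂ × ℂ) 6, dens a b (r / 2 ^ j) γ ≤
        C * k ^ 2 := by
  obtain ⟨φ, hφ, hs, h0, h1⟩ := exists_cut (R := 6) (by norm_num)
  have hs' : tsupport φ ⊆ closedBall 0 7 := by
    have : (6 : ℝ) + 1 = 7 := by norm_num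
    rwa [this] at hs
  obtain ⟨C1, hC1, H1⟩ := cln hφ hs'
  obtain ⟨C2, hC2, H2⟩ := cmp_dep hφ hs'
  set V : ℝ := volume.real (closedBall (0 : ℂ) 7) with hV
  have hV0 : 0 ≤ V := measureReal_nonneg
  set K : ℝ := C1 * C₀ ^ 2 + C2 * C₀ + 4 * C2 * V with hK
  have hK0 : 0 ≤ K := by positivity
  refine ⟨2 * K + 1, by positivity, fun a b Λ r A k hP hA hk hB => ?_⟩
  have hr := hP.pos
  have hA2 : A ≤ k := by nlinarith
  have hk1 : (1 : ℝ) ≤ k := by linarith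
  have hB0 : 0 ≤ C₀ * A := by positivity
  have hE : ∀ a b : ℂ → ℂ × ℂ, volume.real (Eset a b r) ≤ V := fun a b =>
    measureReal_mono (Eset_subset a b r) (isCompact_closedBall _ _).measure_lt_top.ne
  have hterm : ∀ j ∈ Finset.range (k + 1),
      ∫ γ in closedBall (0 : ℂ × ℂ) 6, dens a b (r / 2 ^ j) γ ≤ K * k := by
    intro j hj
    have hjk : (j : ℝ) ≤ k := by exact_mod_cast Nat.lt_succ_iff.1 (Finset.mem_range.1 hj)
    have hρ : 0 < r / 2 ^ j := by positivity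
    have hρr : r / 2 ^ j ≤ r := div_le_self hr.le (one_le_pow₀ (by norm_num))
    have e1 := J1Low_ball hφ hs' h0 h1 (continuous_dens hP.da hP.db hρ) (dens_nonneg _ _ _)
    have e2 := H1 a b r (C₀ * A) hP.da hP.db hr hB0 hB
    have e3 := H2 a b Λ r (r / 2 ^ j) (C₀ * A) (2 * k) hP hρ hρr hB0 (by positivity) hB
      fun γ _ _ => (J1Low_log a b hr j γ).trans (by linarith)
    have e4 := (abs_le.1 e3).1
    have e5 : C1 * (C₀ * A) ^ 2 ≤ C1 * C₀ ^ 2 * k := by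
      rw [mul_pow, ← mul_assoc]
      exact mul_le_mul_of_nonneg_left hk (by positivity)
    have e6 : C2 * (C₀ * A + 2 * k * (volume.real (Eset a b r) + volume.real (Eset b a r))) ≤
        C2 * (C₀ * k + 2 * k * (V + V)) := by
      refine mul_le_mul_of_nonneg_left (add_le_add (mul_le_mul_of_nonneg_left hA2 hC₀) ?_) hC2
      exact mul_le_mul_of_nonneg_left (add_le_add (hE a b) (hE b a)) (by positivity)
    have e7 : K * k = C1 * C₀ ^ 2 * k + C2 * (C₀ * k + 2 * k * (V + V)) := by rw [hK]; ring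
    linarith
  refine (Finset.sum_le_sum hterm).trans ?_
  rw [Finset.sum_const, Finset.card_range, nsmul_eq_mul]
  push_cast
  have e8 : 0 ≤ K * k := by positivity
  nlinarith [mul_le_mul_of_nonneg_left hk1 e8, sq_nonneg (k : ℝ)]

/- exchange of the variables: `dens_swap`, `measurePreserving_swap` -/
theorem int_dens_swap (a b : ℂ → ℂ × ℂ) (ρ R : ℝ) :
    ∫ γ in closedBall (0 : ℂ × ℂ) R, dens b a ρ γ = ∫ γ in closedBall (0 : ℂ × ℂ) R, dens a b ρ γ := by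
  have h := (Measure.measurePreserving_swap (μ := (volume : Measure ℂ))
    (ν := (volume : Measure ℂ))).setIntegral_preimage_emb
    (MeasurableEquiv.prodComm (α := ℂ) (β := ℂ)).measurableEmbedding (dens b a ρ)
    (closedBall (0 : ℂ × ℂ) R)
  have h2 : Prod.swap ⁻¹' closedBall (0 : ℂ × ℂ) R = closedBall (0 : ℂ × ℂ) R := by
    ext γ
    simp only [mem_preimage, mem_closedBall_zero_iff, Prod.norm_def, Prod.fst_swap, Prod.snd_swap,
      max_comm]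
  rw [h2] at h
  simp only [dens_swap] at h
  exact h.symm

end Pool.Agent.Lib.MP_7b5e47_an.Hq
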