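import Pool.Agent.Lib.MP_7b5e47_an.Hq.J1Lin

/-! Mean values on discs and the pointwise lower bounds of the slice integrals. -/

namespace Pool.Agent.Lib.MP_7b5e47_an.Hq

open MeasureTheory Set Metric Filter Topology

theorem J1Mv_circ {g : ℂ → ℂ} (hg : Differentiable ℂ g) (c : ℂ) (ρ : ℝ) :
    2 * Real.pi * ‖g c‖ ^ 2 ≤
      ∫ θ in Ioo (-Real.pi) Real.pi, ‖g (c + Complex.polarCoord.symm (ρ, θ))‖ ^ 2 := by
  have hπ := Real.pi_pos
  have h1 : Real.circleAverage (fun z => g z ^ 2) c ρ = g c ^ 2 :=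
    (hg.pow 2).diffContOnCl.circleAverage
  rw [Real.circleAverage_eq_integral_add (-Real.pi),
    intervalIntegral.integral_comp_add_right (fun θ => g (circleMap c ρ θ) ^ 2)] at h1
  have h2 := congrArg norm h1
  rw [norm_smul, norm_pow, norm_inv, Real.norm_eq_abs, abs_of_pos (by positivity)] at h2
  have h3 := intervalIntegral.norm_integral_le_integral_norm (μ := volume)
    (f := fun θ => g (circleMap c ρ θ) ^ 2) (show 0 + -Real.pi ≤ 2 * Real.pi + -Real.pi by linarith)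
  rw [← h2, ← mul_assoc, mul_inv_cancel₀ (by positivity), one_mul]
  refine h3.trans (le_of_eq ?_)
  rw [intervalIntegral.integral_of_le (by linarith), integral_Ioc_eq_integral_Ioo,
    show 0 + -Real.pi = -Real.pi by ring, show 2 * Real.pi + -Real.pi = Real.pi by ring]
  refine setIntegral_congr_fun measurableSet_Ioo fun θ _ => ?_
  simp only [norm_pow, circleMap, Complex.polarCoord_symm_apply, Complex.exp_mul_I,
    Complex.ofReal_cos, Complex.ofReal_sin]

/- For `f = g ^ 2`: polar coordinates (`Complex.integral_comp_polarCoord_symm` for the indicator of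
`ball 0 R` times `‖g (c + z)‖ ^ 2`, translation invariance `integral_add_left_eq_self`), and on every
circle `2 π ‖f c‖ ≤ ∫ θ, ‖f (circleMap c ρ θ)‖` (`DiffContOnCl.circleAverage`, or
`Complex.circleIntegral_sub_center_inv_smul_of_differentiable_on_off_countable`). The version with
`lintegral` (`Complex.lintegral_comp_polarCoord_symm`, `lintegral_prod`) avoids integrability checks. -/
theorem mv_disc {g : ℂ → ℂ} (hg : Differentiable ℂ g) (c : ℂ) {R : ℝ} (hR : 0 < R) :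
    Real.pi * R ^ 2 * ‖g c‖ ^ 2 ≤ ∫ z in ball c R, ‖g z‖ ^ 2 := by
  have hπ := Real.pi_pos
  set F : ℝ × ℝ → ℝ := fun p => p.1 * ‖g (c + Complex.polarCoord.symm p)‖ ^ 2 with hF
  have hFc : Continuous F := by
    have := hg.continuous
    simp only [hF, Complex.polarCoord_symm_apply]
    fun_prop
  have h1 : ∫ z in ball c R, ‖g z‖ ^ 2 = ∫ p in Ioo 0 R ×ˢ Ioo (-Real.pi) Real.pi, F p := by
    rw [← integral_indicator measurableSet_ball, ← integral_add_left_eq_self _ c,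
      ← Complex.integral_comp_polarCoord_symm, polarCoord_target]
    have e : Ioo 0 R ×ˢ Ioo (-Real.pi) Real.pi =
        (Ioi 0 ×ˢ Ioo (-Real.pi) Real.pi) ∩ {p : ℝ × ℝ | p.1 < R} := by
      ext p
      simp only [mem_prod, mem_Ioo, mem_inter_iff, mem_Ioi, mem_ofPred_eq]
      tauto
    have hm : MeasurableSet {p : ℝ × ℝ | p.1 < R} := measurableSet_lt measurable_fst measurable_const
    rw [e, ← setIntegral_indicator hm]
    refine setIntegral_congr_fun (measurableSet_Ioi.prod measurableSet_Ioo) fun p hp => ?_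
    have e2 : c + Complex.polarCoord.symm p ∈ ball c R ↔ p.1 < R := by
      rw [mem_ball, dist_eq_norm, add_sub_cancel_left, Complex.norm_polarCoord_symm,
        abs_of_pos hp.1]
    by_cases hpR : p.1 < R
    · rw [indicator_of_mem (e2.2 hpR), indicator_of_mem (show p ∈ {p : ℝ × ℝ | p.1 < R} from hpR)]
      rfl
    · rw [indicator_of_notMem fun h => hpR (e2.1 h),
        indicator_of_notMem (show p ∉ {p : ℝ × ℝ | p.1 < R} from hpR), smul_zero]
  have hi : IntegrableOn F (Ioo 0 R ×ˢ Ioo (-Real.pi) Real.pi) (volume.prod volume) :=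
    (hFc.continuousOn.integrableOn_compact (isCompact_Icc.prod isCompact_Icc)).mono_set
      (prod_mono Ioo_subset_Icc_self Ioo_subset_Icc_self)
  rw [h1, Measure.volume_eq_prod, setIntegral_prod _ hi]
  have hi2 : IntegrableOn (fun ρ => ∫ θ in Ioo (-Real.pi) Real.pi, F (ρ, θ)) (Ioo 0 R) := by
    have := hi
    rw [IntegrableOn, ← Measure.prod_restrict] at this
    exact this.integral_prod_left
  have h2 : ∫ ρ in Ioo 0 R, ρ * (2 * Real.pi * ‖g c‖ ^ 2) = Real.pi * R ^ 2 * ‖g c‖ ^ 2 := by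
    rw [← integral_Ioc_eq_integral_Ioo, ← intervalIntegral.integral_of_le hR.le,
      intervalIntegral.integral_mul_const, integral_id]
    ring
  rw [← h2]
  refine setIntegral_mono_on ?_ hi2 measurableSet_Ioo fun ρ hρ => ?_
  · exact ((continuous_id.mul continuous_const).integrableOn_Icc).mono_set Ioo_subset_Icc_self
  · simp only [hF]
    rw [integral_const_mul]
    exact mul_le_mul_of_nonneg_left (J1Mv_circ hg c ρ) hρ.1.le

variable {a b : ℂ → ℂ × ℂ} {Λ r : ℝ} {s t₀ : ℂ}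

theorem J1Mv_near (hb : Differentiable ℂ b) (hΛ : 1 ≤ Λ) (hs : Λ ^ 2 * r ≤ 1 / 100)
    (h : Lin b Λ t₀) (ht : ‖t₀‖ ≤ 5) {q : ℝ} (hq : 0 < q) (hqr : q ≤ r)
    (hA : Aq a b (s, t₀) ≤ q ^ 2) {t : ℂ} (hm : t ∈ ball t₀ (q / ‖deriv b t₀‖)) :
    t ∈ closedBall (0 : ℂ) 6 ∧ Aq a b (s, t) ≤ 81 / 8 * q ^ 2 := by
  have hβ : 0 < ‖deriv b t₀‖ := norm_pos_iff.2 h.ne
  rw [mem_ball, dist_eq_norm, lt_div_iff₀ hβ] at hm
  have h0 := norm_nonneg (t - t₀)
  have h1 : ‖t - t₀‖ ≤ Λ * q := by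
    have := mul_le_mul_of_nonneg_left h.low h0
    have := mul_le_mul_of_nonneg_left hm.le (show 0 ≤ Λ by linarith)
    linarith
  have h2 : Λ * ‖t - t₀‖ ≤ 1 / 100 := by
    have := mul_le_mul_of_nonneg_left h1 (show 0 ≤ Λ by linarith)
    have := mul_le_mul_of_nonneg_left hqr (sq_nonneg Λ)
    linarith
  have h3 : ‖t - t₀‖ ≤ 1 / 100 := (le_mul_of_one_le_left h0 hΛ).trans h2
  have h4 := h.upper hb hΛ (t := t) (by linarith)
  have h5 : ‖a s - b t₀‖ ≤ q := norm_le_of_nsq hq.le hA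
  have h6 : ‖a s - b t‖ ≤ 9 / 4 * q := by
    have := norm_sub_le (a s - b t₀) (b t - b t₀)
    rw [sub_sub_sub_cancel_right] at this
    linarith
  refine ⟨mem_closedBall_zero_iff.2 ?_, ?_⟩
  · have := norm_add_le (t - t₀) t₀
    rw [sub_add_cancel] at this
    linarith
  · have h7 := nsq_le (a s - b t)
    have h8 := pow_le_pow_left₀ (norm_nonneg _) h6 2
    unfold Aq
    linarith

theorem J1Mv_mono {f : ℂ → ℝ} (hf : Continuous f) (h0 : ∀ t, 0 ≤ f t) {S : Set ℂ}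
    (hS : S ⊆ closedBall (0 : ℂ) 6) : ∫ t in S, f t ≤ ∫ t in closedBall (0 : ℂ) 6, f t :=
  setIntegral_mono_set (hf.continuousOn.integrableOn_compact (isCompact_closedBall _ _))
    (Eventually.of_forall h0) hS.eventuallyLE

/- On the disc `ball t₀ (q / ‖β‖)`, `β = deriv b t₀` (radius at most `Λ r`, so inside `closedBall 0 6` and
inside the range of `Lin.upper`), `‖a s - b t‖ ≤ 9 q / 4`, `Aq + ρ² ≤ 15 q²`, so
`dens ≥ ‖wd‖² / (3375 q⁴)`; `mv_disc` for `t ↦ wd (deriv a s) (deriv b t)`; `3375 / π ≤ 1100`;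
`‖β‖² ≤ nsq β`. -/
theorem jlow (ha : Differentiable ℂ a) (hb : Differentiable ℂ b) (hΛ : 1 ≤ Λ)
    (hs : Λ ^ 2 * r ≤ 1 / 100) (h : Lin b Λ t₀) (ht : ‖t₀‖ ≤ 5) {q ρ : ℝ} (hq : 0 < q) (hqr : q ≤ r)
    (hA : Aq a b (s, t₀) ≤ q ^ 2) (h1 : q ≤ ρ) (h2 : ρ ≤ 2 * q) :
    ‖wd (deriv a s) (deriv b t₀)‖ ^ 2 ≤
      1100 * q ^ 2 * nsq (deriv b t₀) * ∫ t in closedBall (0 : ℂ) 6, dens a b ρ (s, t) := by
  have hβ : 0 < ‖deriv b t₀‖ := norm_pos_iff.2 h.ne
  have hπ := Real.pi_gt_d2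
  have hρ : 0 < ρ := by linarith
  have hdb : Differentiable ℂ (deriv b) := hb.deriv
  have hg : Differentiable ℂ fun t => wd (deriv a s) (deriv b t) := by
    unfold wd
    fun_prop
  have hc : Continuous fun t => dens a b ρ (s, t) := (continuous_dens ha hb hρ).comp (by fun_prop)
  have hn := fun t (hm : t ∈ ball t₀ (q / ‖deriv b t₀‖)) =>
    J1Mv_near (a := a) (s := s) hb hΛ hs h ht hq hqr hA hm
  have e1 := mv_disc hg t₀ (show 0 < q / ‖deriv b t₀‖ by positivity)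
  have e2 : ∫ t in ball t₀ (q / ‖deriv b t₀‖), ‖wd (deriv a s) (deriv b t)‖ ^ 2 ≤
      ∫ t in ball t₀ (q / ‖deriv b t₀‖), 3375 * q ^ 4 * dens a b ρ (s, t) := by
    refine setIntegral_mono_on ?_ ?_ measurableSet_ball fun t hm => ?_
    · exact ((hg.continuous.norm.pow 2).continuousOn.integrableOn_compact
        (isCompact_closedBall _ _)).mono_set ball_subset_closedBall
    · exact ((continuous_const.mul hc).continuousOn.integrableOn_compact
        (isCompact_closedBall _ _)).mono_set ball_subset_closedBall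
    · have f1 := (hn t hm).2
      have f2 := Aq_nonneg a b (s, t)
      have f3 := pow_le_pow_left₀ hρ.le h2 2
      have f4 := pow_le_pow_left₀ hq.le h1 2
      have f5 : (Aq a b (s, t) + ρ ^ 2) ^ 3 ≤ (15 * q ^ 2) ^ 3 :=
        pow_le_pow_left₀ (by positivity) (by nlinarith [sq_nonneg q]) 3
      unfold dens
      rw [← mul_div_assoc, le_div_iff₀ (by positivity)]
      have f6 := mul_le_mul_of_nonneg_left f5 (sq_nonneg ‖wd (deriv a s) (deriv b t)‖)
      have f7 := mul_le_mul_of_nonneg_left f4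
        (show 0 ≤ 3375 * q ^ 4 * ‖wd (deriv a s) (deriv b t)‖ ^ 2 by positivity)
      linarith
  rw [integral_const_mul] at e2
  have e3 := J1Mv_mono hc (fun t => dens_nonneg _ _ _ _) fun t hm => (hn t hm).1
  set J := ∫ t in closedBall (0 : ℂ) 6, dens a b ρ (s, t)
  have hJ : 0 ≤ J := integral_nonneg fun t => dens_nonneg _ _ _ _
  set W := ‖wd (deriv a s) (deriv b t₀)‖ ^ 2
  have hW : 0 ≤ W := sq_nonneg _
  have e4 : Real.pi * (q / ‖deriv b t₀‖) ^ 2 * W ≤ 3375 * q ^ 4 * J :=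
    e1.trans (e2.trans (mul_le_mul_of_nonneg_left e3 (by positivity)))
  have e5 : Real.pi * W ≤ 3375 * q ^ 2 * ‖deriv b t₀‖ ^ 2 * J := by
    have := mul_le_mul_of_nonneg_left e4 (show 0 ≤ ‖deriv b t₀‖ ^ 2 / q ^ 2 by positivity)
    refine le_trans (le_of_eq ?_) (this.trans (le_of_eq ?_)) <;> field_simp
  have e6 := mul_le_mul_of_nonneg_left (sq_le_nsq (deriv b t₀))
    (show 0 ≤ q ^ 2 * J by positivity)
  have e7 : 0 ≤ q ^ 2 * J * nsq (deriv b t₀) := mul_nonneg (by positivity) (nsq_nonneg _)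
  have e8 := mul_le_mul_of_nonneg_right hπ.le hW
  linarith

/- With `q = √(Aq + (r/2^k)²)`, `r/2^k ≤ q ≤ r`: take the largest `j ≤ k` with `q ≤ r/2^j`
(`Nat.findGreatest`); then `r/2^j ≤ 2 q`; `jlow`, `Finset.single_le_sum`. -/
theorem jlow_sum (ha : Differentiable ℂ a) (hb : Differentiable ℂ b) (hΛ : 1 ≤ Λ) (hr : 0 < r)
    (hs : Λ ^ 2 * r ≤ 1 / 100) (h : Lin b Λ t₀) (ht : ‖t₀‖ ≤ 5) {k : ℕ}
    (hA : Aq a b (s, t₀) + (r / 2 ^ k) ^ 2 ≤ r ^ 2) :
    ‖wd (deriv a s) (deriv b t₀)‖ ^ 2 ≤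
      (1100 * ∑ j ∈ Finset.range (k + 1), ∫ t in closedBall (0 : ℂ) 6, dens a b (r / 2 ^ j) (s, t)) *
        (Aq a b (s, t₀) + (r / 2 ^ k) ^ 2) * nsq (deriv b t₀) := by
  have hA0 := Aq_nonneg a b (s, t₀)
  have hk : 0 < r / 2 ^ k := by positivity
  set Q := Aq a b (s, t₀) + (r / 2 ^ k) ^ 2 with hQ
  have hQ0 : 0 < Q := by positivity
  have hq : 0 < √Q := Real.sqrt_pos.2 hQ0
  have hq2 : √Q ^ 2 = Q := Real.sq_sqrt hQ0.le
  have hqr : √Q ≤ r := Real.sqrt_le_iff.2 ⟨hr.le, hA⟩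
  have hqk : r / 2 ^ k ≤ √Q := Real.le_sqrt_of_sq_le (le_add_of_nonneg_left hA0)
  classical
  set j := Nat.findGreatest (fun j => √Q ≤ r / 2 ^ j) k with hj
  have hjk : j ≤ k := Nat.findGreatest_le k
  have h1 : √Q ≤ r / 2 ^ j :=
    Nat.findGreatest_spec (P := fun j => √Q ≤ r / 2 ^ j) (Nat.zero_le k) (by simpa using hqr)
  have h2 : r / 2 ^ j ≤ 2 * √Q := by
    rcases hjk.eq_or_lt with e | e
    · rw [e]
      exact hqk.trans (le_mul_of_one_le_left hq.le one_le_two)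
    · have := Nat.findGreatest_is_greatest (P := fun j => √Q ≤ r / 2 ^ j) (Nat.lt_succ_self j) e
      rw [not_le, pow_succ, ← div_div, div_lt_iff₀ two_pos, mul_comm] at this
      exact this.le
  have h3 := jlow ha hb hΛ hs h ht hq hqr (by rw [hq2, hQ]; exact le_add_of_nonneg_right (sq_nonneg _)) h1 h2
  rw [hq2] at h3
  have h4 := Finset.single_le_sum (s := Finset.range (k + 1))
    (f := fun j => ∫ t in closedBall (0 : ℂ) 6, dens a b (r / 2 ^ j) (s, t))
    (fun _ _ => integral_nonneg fun t => dens_nonneg _ _ _ _)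
    (Finset.mem_range.2 (Nat.lt_succ_of_le hjk))
  have h5 := mul_le_mul_of_nonneg_left h4
    (show 0 ≤ 1100 * Q * nsq (deriv b t₀) from mul_nonneg (by positivity) (nsq_nonneg _))
  exact h3.trans (h5.trans (le_of_eq (by ring)))

/- On the disc `ball t₀ (r / (4 ‖β‖))`, `‖a s - b t‖ ≤ 9 r / 16`, `Aq ≤ 11 r² / 16`, so
`gK ≥ 5/16 nsq (deriv a s) / r²`; the area is `π r² / (16 ‖β‖²)`; `256 / (5 π) ≤ 17`. -/
theorem klow (ha : Differentiable ℂ a) (hb : Differentiable ℂ b) (hΛ : 1 ≤ Λ) (hr : 0 < r)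
    (hs : Λ ^ 2 * r ≤ 1 / 100) (h : Lin b Λ t₀) (ht : ‖t₀‖ ≤ 5)
    (hA : Aq a b (s, t₀) ≤ (r / 4) ^ 2) :
    nsq (deriv a s) ≤ (17 * ∫ t in closedBall (0 : ℂ) 6, gK a b r (s, t)) * nsq (deriv b t₀) := by
  have hβ : 0 < ‖deriv b t₀‖ := norm_pos_iff.2 h.ne
  have hπ := Real.pi_gt_d2
  have hc : Continuous fun t => gK a b r (s, t) := (continuous_gK ha hb r).comp (by fun_prop)
  have hn := fun t (hm : t ∈ ball t₀ (r / 4 / ‖deriv b t₀‖)) =>
    J1Mv_near (a := a) (s := s) hb hΛ hs h ht (show 0 < r / 4 by positivity) (by linarith) hA hm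
  have hN := nsq_nonneg (deriv a s)
  have e1 := setIntegral_ge_of_const_le_real (μ := volume) (s := ball t₀ (r / 4 / ‖deriv b t₀‖))
    (f := fun t => gK a b r (s, t)) (c := nsq (deriv a s) / r ^ 2 * (5 / 16)) measurableSet_ball
    measure_ball_lt_top.ne (fun t hm => by
      refine mul_le_mul_of_nonneg_left (le_max_of_le_right ?_) (by positivity)
      have : Aq a b (s, t) / r ^ 2 ≤ 11 / 16 := by
        rw [div_le_iff₀ (by positivity)]
        have := (hn t hm).2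
        nlinarith [sq_nonneg r]
      linarith)
    ((hc.continuousOn.integrableOn_compact (isCompact_closedBall _ _)).mono_set
      ball_subset_closedBall)
  have e2 : (volume : Measure ℂ).real (ball t₀ (r / 4 / ‖deriv b t₀‖)) =
      (r / 4 / ‖deriv b t₀‖) ^ 2 * Real.pi := by
    rw [Measure.real, Complex.volume_ball, ENNReal.toReal_mul, ENNReal.toReal_pow,
      ENNReal.toReal_ofReal (by positivity)]
    rfl
  have e3 := J1Mv_mono hc (fun t => gK_nonneg _ _ _ _) fun t hm => (hn t hm).1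
  set J := ∫ t in closedBall (0 : ℂ) 6, gK a b r (s, t)
  have hJ : 0 ≤ J := integral_nonneg fun t => gK_nonneg _ _ _ _
  rw [e2] at e1
  have e5 : 5 / 256 * Real.pi * nsq (deriv a s) ≤ ‖deriv b t₀‖ ^ 2 * J := by
    have := mul_le_mul_of_nonneg_left (e1.trans e3) (sq_nonneg ‖deriv b t₀‖)
    refine le_trans (le_of_eq ?_) this
    field_simp
    ring
  have e6 := mul_le_mul_of_nonneg_left (sq_le_nsq (deriv b t₀)) hJ
  have e7 : 0 ≤ J * nsq (deriv b t₀) := mul_nonneg hJ (nsq_nonneg _)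
  have e8 := mul_le_mul_of_nonneg_right hπ.le hN
  linarith

end Pool.Agent.Lib.MP_7b5e47_an.Hq
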