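import Pool.Agent.Lib.MP_7b5e47_an.Hq.J1Alg
import Pool.Agent.Lib.MP_7b5e47_an.Hq.J1Lin

/-! The mass of one strand. -/

namespace Pool.Agent.Lib.MP_7b5e47_an.Hq

open MeasureTheory Set Metric Filter Topology

theorem J1Str_bump : ∃ (β : ℂ → ℝ) (M : ℝ), Sm β ∧ 0 ≤ M ∧ (∀ z, 0 ≤ β z) ∧
    (∀ z, ‖z‖ ≤ 1 / 2 → β z = 1) ∧ (∀ z, 1 ≤ ‖z‖ → β z = 0) ∧ (∀ z, |Lap β z| ≤ M) ∧
    (∀ z, ‖z‖ < 1 / 2 → Lap β z = 0) ∧ ∀ z, 1 < ‖z‖ → Lap β z = 0 := by
  let β : ContDiffBump (0 : ℂ) := ⟨1 / 2, 1, by norm_num, by norm_num⟩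
  have hs : Sm β := β.contDiff
  have h1 : ∀ z : ℂ, ‖z‖ ≤ 1 / 2 → β z = 1 := fun z hz =>
    β.one_of_mem_closedBall (mem_closedBall_zero_iff.2 hz)
  have h2 : ∀ z : ℂ, 1 < ‖z‖ → Lap β z = 0 := by
    intro z hz
    refine lev_eq_zero ?_ _ _
    rw [β.tsupport_eq, mem_closedBall_zero_iff, not_le]
    exact hz
  have hc : Continuous (Lap β) := (hs.lev 1 1).continuous
  have hcs : HasCompactSupport (Lap β) :=
    HasCompactSupport.intro (isCompact_closedBall (0 : ℂ) 1) fun z hz =>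
      h2 z (by rwa [mem_closedBall_zero_iff, not_le] at hz)
  obtain ⟨M, hM⟩ := hc.bounded_above_of_compact_support hcs
  refine ⟨β, M, hs, (norm_nonneg _).trans (hM 0), fun z => β.nonneg, h1,
    fun z hz => β.zero_of_le_dist (by rwa [dist_zero_right]), hM, fun z hz => ?_, h2⟩
  have h3 : (β : ℂ → ℝ) =ᶠ[𝓝 z] fun _ => (1 : ℝ) := by
    filter_upwards [isOpen_ball.mem_nhds (mem_ball_zero_iff.2 hz)] with y hy
    exact h1 y (mem_ball_zero_iff.1 hy).le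
  have h4 : ∀ v : ℂ, Dv v (fun _ : ℂ => (1 : ℝ)) = fun _ => 0 := fun v => by
    funext y
    simp [Dv]
  rw [Lap, lev_congr h3, Lev, h4, h4]
  simp [Dv]

theorem J1Str_log {x y : ℝ} (hy : 0 < y) (h1 : y / 9 ≤ x) (h2 : x ≤ 4 * y) :
    |Real.log x - Real.log y| ≤ 8 := by
  have hx : 0 < x := lt_of_lt_of_le (by positivity) h1
  rw [abs_le]
  constructor
  · have h3 := Real.log_le_sub_one_of_pos (div_pos hy hx)
    rw [Real.log_div hy.ne' hx.ne'] at h3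
    have h4 : y / x ≤ 9 := by rw [div_le_iff₀ hx]; linarith
    linarith
  · have h3 := Real.log_le_sub_one_of_pos (div_pos hx hy)
    rw [Real.log_div hx.ne' hy.ne'] at h3
    have h4 : x / y ≤ 4 := by rw [div_le_iff₀ hy]; linarith
    linarith

theorem J1Str_annulus {b : ℂ → ℂ × ℂ} {P : ℂ × ℂ} {Λ r ρ : ℝ} {t₀ t : ℂ}
    (hb : Differentiable ℂ b) (hΛ : 1 ≤ Λ) (hρ : 0 < ρ) (hr : ρ ≤ r) (hs : Λ ^ 2 * r ≤ 1 / 100)
    (h : Lin b Λ t₀) (hP : nsq (P - b t₀) < r ^ 2) (h1 : 1 / 2 ≤ Λ * ‖t - t₀‖)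
    (h2 : Λ * ‖t - t₀‖ ≤ 1) :
    |Real.log (nsq (P - b t) + ρ ^ 2) - Real.log ((‖deriv b t₀‖ / Λ) ^ 2)| ≤ 8 := by
  have hΛ0 : 0 < Λ := by linarith
  have hr0 : 0 < r := by linarith
  obtain ⟨B, hB⟩ : ∃ B, B = ‖deriv b t₀‖ / Λ := ⟨_, rfl⟩
  have hB' : ‖deriv b t₀‖ = B * Λ := by rw [hB]; field_simp
  have hl := h.low
  have h3 := h.lower hb hΛ h2
  have h4 := h.upper hb hΛ h2
  rw [← hB]
  rw [hB'] at hl h3 h4
  have hB0 : 0 < B := by
    by_contra hn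
    have : Λ * (B * Λ) ≤ 0 :=
      mul_nonpos_of_nonneg_of_nonpos hΛ0.le (mul_nonpos_of_nonpos_of_nonneg (not_lt.1 hn) hΛ0.le)
    linarith
  have h5 : r ≤ B / 100 := by
    have h6 : r * 1 ≤ r * (Λ * (B * Λ)) := mul_le_mul_of_nonneg_left hl hr0.le
    have h7 : B * (Λ ^ 2 * r) ≤ B * (1 / 100) := mul_le_mul_of_nonneg_left hs hB0.le
    nlinarith
  have h6 : ‖P - b t₀‖ < r := norm_lt_of_nsq hr0.le hP
  have h7 : B * (1 / 2) ≤ B * (Λ * ‖t - t₀‖) := mul_le_mul_of_nonneg_left h1 hB0.le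
  have h8 : B * (Λ * ‖t - t₀‖) ≤ B * 1 := mul_le_mul_of_nonneg_left h2 hB0.le
  have h9 : ‖b t - b t₀‖ ≤ ‖P - b t₀‖ + ‖P - b t‖ := by
    have : b t - b t₀ = (P - b t₀) - (P - b t) := by ring
    rw [this]
    exact norm_sub_le _ _
  have h10 : ‖P - b t‖ ≤ ‖P - b t₀‖ + ‖b t - b t₀‖ := by
    have : P - b t = (P - b t₀) - (b t - b t₀) := by ring
    rw [this]
    exact norm_sub_le _ _
  have h11 : B / 3 ≤ ‖P - b t‖ := by nlinarith
  have h12 : ‖P - b t‖ ≤ 13 / 10 * B := by nlinarith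
  have h13 := pow_le_pow_left₀ (by positivity) h11 2
  have h14 := pow_le_pow_left₀ (norm_nonneg _) h12 2
  have h15 := pow_le_pow_left₀ hρ.le (hr.trans h5) 2
  have h16 := sq_le_nsq (P - b t)
  have h17 := nsq_le (P - b t)
  refine J1Str_log (by positivity) ?_ ?_
  · nlinarith [sq_nonneg ρ]
  · nlinarith [sq_nonneg B]

theorem J1Str_meas {a b : ℂ → ℂ × ℂ} (ha : Differentiable ℂ a) (hb : Differentiable ℂ b) (r : ℝ) :
    MeasurableSet {γ : ℂ × ℂ | ‖γ‖ ≤ 7 ∧ Aq a b γ < r ^ 2} :=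
  (isClosed_le continuous_norm continuous_const).measurableSet.inter
    (isOpen_lt (continuous_Aq ha hb) continuous_const).measurableSet

theorem J1Str_int {f : ℂ × ℂ → ℝ} (hf : Continuous f) (a b : ℂ → ℂ × ℂ) (r : ℝ) :
    IntegrableOn f {γ : ℂ × ℂ | ‖γ‖ ≤ 7 ∧ Aq a b γ < r ^ 2} :=
  (hf.continuousOn.integrableOn_compact (isCompact_closedBall (0 : ℂ × ℂ) 7)).mono_set
    fun _ hγ => mem_closedBall_zero_iff.2 hγ.1

/- Fix a smooth `β` with `0 ≤ β ≤ 1`, `β = 1` on `closedBall 0 (1/2)`, support in `ball 0 1`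
(`ContDiffBump`), `M` a bound of `|Lap β|`; `Lap β = 0` on `ball 0 (1/2)` (`lev_congr`) and outside the
support. Put `χ t = β (Λ (t - t₀))`, `Lap χ t = Λ² Lap β (..)` (`lap_comp_hol`). The set lies in
`closedBall t₀ (2 Λ r)`, where `χ = 1`. With `u = log (nsq (P - b t) + ρ²)`, `c = log ((‖β₀‖/Λ)²)`,
`β₀ = deriv b t₀`: `∫_S sl ≤ ∫ χ Lap (u - c) = ∫ (u - c) Lap χ` (`lap_slice_log`, `lev_lin`, `parts_lev`).
On the annulus `1/2 ≤ Λ ‖t - t₀‖ ≤ 1`, `Lin.lower`, `Lin.upper` and `‖P - b t₀‖ < r ≤ ‖β₀‖/(100 Λ)` give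
`(‖β₀‖/Λ)²/9 ≤ nsq + ρ² ≤ 4 (‖β₀‖/Λ)²`, so `|u - c| ≤ 3`; the area is at most `π/Λ²`. -/
theorem strand : ∃ C : ℝ, 0 ≤ C ∧ ∀ (b : ℂ → ℂ × ℂ) (P : ℂ × ℂ) (Λ r ρ : ℝ) (t₀ : ℂ),
    Differentiable ℂ b → 1 ≤ Λ → 0 < ρ → ρ ≤ r → Λ ^ 2 * r ≤ 1 / 100 → Lin b Λ t₀ →
    nsq (P - b t₀) < r ^ 2 →
    ∫ t in {t | ‖t‖ ≤ 7 ∧ nsq (P - b t) < r ^ 2}, sl b P ρ t ≤ C := by
  obtain ⟨β, M, hs, hM0, hβ0, hβ1, hβ2, hM, hL1, hL2⟩ := J1Str_bump
  refine ⟨8 * M * Real.pi, by positivity, fun b P Λ r ρ t₀ hb hΛ hρ hr hsm hlin hP => ?_⟩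
  have hΛ0 : 0 < Λ := by linarith
  have hr0 : 0 < r := by linarith
  have hh : Differentiable ℂ fun t : ℂ => (Λ : ℂ) * (t - t₀) := by fun_prop
  have hn : ∀ t : ℂ, ‖(Λ : ℂ) * (t - t₀)‖ = Λ * ‖t - t₀‖ := fun t => by
    rw [norm_mul, Complex.norm_real, Real.norm_of_nonneg hΛ0.le]
  have hχ : Sm fun t : ℂ => β ((Λ : ℂ) * (t - t₀)) := sm_comp_hol hs hh
  have hχc : HasCompactSupport fun t : ℂ => β ((Λ : ℂ) * (t - t₀)) := by
    refine HasCompactSupport.intro (isCompact_closedBall t₀ 1) fun t ht => hβ2 _ ?_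
    rw [mem_closedBall, dist_eq_norm, not_le] at ht
    rw [hn]
    nlinarith
  have hlap : ∀ t, Lap (fun t : ℂ => β ((Λ : ℂ) * (t - t₀))) t =
      Λ ^ 2 * Lap β ((Λ : ℂ) * (t - t₀)) := by
    intro t
    rw [lap_comp_hol hs hh]
    have h1 : HasDerivAt (fun t : ℂ => (Λ : ℂ) * (t - t₀)) ((Λ : ℂ) * 1) t :=
      ((hasDerivAt_id t).sub_const t₀).const_mul _
    rw [h1.deriv, mul_one, Complex.norm_real, Real.norm_of_nonneg hΛ0.le]
  have hu := sm_slice_log hb hρ P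
  have hu' : Sm fun t => 1 * Real.log (nsq (P - b t) + ρ ^ 2) +
      0 * Real.log (nsq (P - b t) + ρ ^ 2) + -Real.log ((‖deriv b t₀‖ / Λ) ^ 2) :=
    ((contDiff_const.mul hu).add (contDiff_const.mul hu)).add contDiff_const
  have hparts := parts_lev hχ hχc hu' 1 1
  have hsl : ∀ t, Lev (fun t => 1 * Real.log (nsq (P - b t) + ρ ^ 2) +
      0 * Real.log (nsq (P - b t) + ρ ^ 2) + -Real.log ((‖deriv b t₀‖ / Λ) ^ 2)) 1 1 t =
      sl b P ρ t := by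
    intro t
    rw [lev_lin hu hu, one_mul, zero_mul, add_zero]
    exact lap_slice_log hb hρ P t
  simp only [hsl] at hparts
  have hcs : Continuous (sl b P ρ) := by
    have h1 : sl b P ρ = Lap fun t => Real.log (nsq (P - b t) + ρ ^ 2) :=
      funext fun t => (lap_slice_log hb hρ P t).symm
    rw [h1]
    exact (hu.lev 1 1).continuous
  have hS : MeasurableSet {t : ℂ | ‖t‖ ≤ 7 ∧ nsq (P - b t) < r ^ 2} :=
    (isClosed_le continuous_norm continuous_const).measurableSet.inter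
      (isOpen_lt (continuous_nsq.comp (continuous_const.sub hb.continuous))
        continuous_const).measurableSet
  have h1 : ∫ t in {t | ‖t‖ ≤ 7 ∧ nsq (P - b t) < r ^ 2}, sl b P ρ t =
      ∫ t in {t | ‖t‖ ≤ 7 ∧ nsq (P - b t) < r ^ 2}, β ((Λ : ℂ) * (t - t₀)) * sl b P ρ t := by
    refine setIntegral_congr_fun hS fun t ht => ?_
    have h2 : ‖P - b t₀‖ < r := norm_lt_of_nsq hr0.le hP
    have h3 : ‖P - b t‖ < r := norm_lt_of_nsq hr0.le ht.2
    have h4 : ‖b t - b t₀‖ ≤ 2 * r := by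
      have h5 : b t - b t₀ = (P - b t₀) - (P - b t) := by ring
      rw [h5]
      linarith [norm_sub_le (P - b t₀) (P - b t)]
    have h5 : Λ * ‖b t - b t₀‖ ≤ Λ * (2 * r) := mul_le_mul_of_nonneg_left h4 hΛ0.le
    have h6 : Λ * r * 1 ≤ Λ * r * Λ := mul_le_mul_of_nonneg_left hΛ (by positivity)
    have h7 := hlin.inj t ht.1 (by nlinarith)
    have h8 : Λ * ‖t - t₀‖ ≤ Λ * (Λ * (2 * r)) :=
      mul_le_mul_of_nonneg_left (h7.trans h5) hΛ0.le
    show sl b P ρ t = β ((Λ : ℂ) * (t - t₀)) * sl b P ρ t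
    rw [hβ1 _ (by rw [hn]; nlinarith), one_mul]
  have h2 : Integrable fun t => β ((Λ : ℂ) * (t - t₀)) * sl b P ρ t :=
    (hχ.continuous.mul hcs).integrable_of_hasCompactSupport hχc.mul_right
  rw [h1]
  refine (setIntegral_le_integral h2 (Eventually.of_forall fun t =>
    mul_nonneg (hβ0 _) (sl_nonneg _ _ _ _))).trans ?_
  rw [hparts, ← setIntegral_eq_integral_of_forall_compl_eq_zero (s := closedBall t₀ Λ⁻¹)]
  · refine (le_abs_self _).trans ?_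
    rw [← Real.norm_eq_abs]
    refine (norm_setIntegral_le_of_norm_le_const (C := 8 * (Λ ^ 2 * M))
      measure_closedBall_lt_top fun t ht => ?_).trans (le_of_eq ?_)
    · rw [mem_closedBall, dist_eq_norm] at ht
      have h3 : Λ * ‖t - t₀‖ ≤ 1 := by
        have := mul_le_mul_of_nonneg_left ht hΛ0.le
        rwa [mul_inv_cancel₀ hΛ0.ne'] at this
      change ‖_ * Lap _ t‖ ≤ _
      rw [hlap]
      rcases lt_or_ge (Λ * ‖t - t₀‖) (1 / 2) with h4 | h4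
      · rw [hL1 _ (by rwa [hn]), mul_zero, mul_zero, norm_zero]
        positivity
      · rw [Real.norm_eq_abs, abs_mul, abs_mul, abs_of_nonneg (sq_nonneg Λ), one_mul, zero_mul,
          add_zero, ← sub_eq_add_neg]
        exact mul_le_mul (J1Str_annulus hb hΛ hρ hr hsm hlin hP h4 h3)
          (mul_le_mul_of_nonneg_left (hM _) (sq_nonneg Λ)) (by positivity) (by norm_num)
    · rw [Measure.real, Complex.volume_closedBall, ENNReal.toReal_mul, ENNReal.toReal_pow,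
        ENNReal.toReal_ofReal (by positivity), ENNReal.coe_toReal, NNReal.coe_real_pi]
      field_simp
  · intro t ht
    rw [mem_closedBall, dist_eq_norm, not_le] at ht
    have h3 : 1 < Λ * ‖t - t₀‖ := by
      have := mul_lt_mul_of_pos_left ht hΛ0
      rwa [mul_inv_cancel₀ hΛ0.ne'] at this
    change _ * Lap _ t = 0
    rw [hlap, hL2 _ (by rwa [hn]), mul_zero, mul_zero]

/- Fubini for the indicator of the set times the continuous function (`continuous_sl`; integrable on the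
compact ball; `integral_prod`). For fixed `s` the inner integral is zero unless `s ∈ Eset a b r`, and then
at most the constant of `strand`. -/
theorem deep_mass : ∃ C : ℝ, 0 ≤ C ∧ ∀ (a b : ℂ → ℂ × ℂ) (Λ r ρ : ℝ), Pair a b Λ r → 0 < ρ → ρ ≤ r →
    ∫ γ in {γ : ℂ × ℂ | ‖γ‖ ≤ 7 ∧ Aq a b γ < r ^ 2}, sl b (a γ.1) ρ γ.2 ≤
      C * volume.real (Eset a b r) := by
  obtain ⟨C, hC, hst⟩ := strand
  refine ⟨C, hC, fun a b Λ r ρ h hρ hr => ?_⟩
  have hS := J1Str_meas h.da h.db r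
  have hI := (integrable_indicator_iff hS).2 (J1Str_int (continuous_sl h.da h.db hρ) a b r)
  have hE := measurableSet_Eset h.da h.db r
  have hfin : volume (Eset a b r) ≠ ⊤ :=
    ((measure_mono (Eset_subset a b r)).trans_lt measure_closedBall_lt_top).ne
  rw [← integral_indicator hS]
  rw [Measure.volume_eq_prod] at hI ⊢
  rw [integral_prod _ hI, mul_comm, ← smul_eq_mul, ← integral_indicator_const C hE]
  refine integral_mono hI.integral_prod_left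
    ((integrable_indicator_iff hE).2 (integrableOn_const hfin)) fun s => ?_
  by_cases hs : s ∈ Eset a b r
  · obtain ⟨hs7, t₀, ht₀, hA⟩ := id hs
    have h1 := hst b (a s) Λ r ρ t₀ h.db h.one hρ hr h.sm (h.lin s t₀ hs7 ht₀ hA).2 hA
    have hT : MeasurableSet {t : ℂ | ‖t‖ ≤ 7 ∧ nsq (a s - b t) < r ^ 2} :=
      (isClosed_le continuous_norm continuous_const).measurableSet.inter
        (isOpen_lt (continuous_nsq.comp (continuous_const.sub h.db.continuous))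
          continuous_const).measurableSet
    rw [← integral_indicator hT] at h1
    rw [indicator_of_mem hs]
    refine le_trans (le_of_eq ?_) h1
    refine integral_congr_ae (Eventually.of_forall fun t => ?_)
    have h2 : (s, t) ∈ {γ : ℂ × ℂ | ‖γ‖ ≤ 7 ∧ Aq a b γ < r ^ 2} ↔
        t ∈ {t : ℂ | ‖t‖ ≤ 7 ∧ nsq (a s - b t) < r ^ 2} := by
      simp only [mem_ofPred_eq, Prod.norm_def, max_le_iff, hs7, true_and, Aq]
    by_cases ht : t ∈ {t : ℂ | ‖t‖ ≤ 7 ∧ nsq (a s - b t) < r ^ 2}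
    · simp only [indicator_of_mem ht, indicator_of_mem (h2.2 ht)]
    · simp only [indicator_of_notMem ht, indicator_of_notMem (mt h2.1 ht)]
  · rw [indicator_of_notMem hs]
    refine le_of_eq ?_
    refine (integral_congr_ae (Eventually.of_forall fun t => ?_)).trans (integral_zero ℂ ℝ)
    refine indicator_of_notMem (fun ht => hs ?_) _
    exact ⟨(norm_fst_le (s, t)).trans ht.1, t, (norm_snd_le (s, t)).trans ht.1, ht.2⟩

/- `deep_mass` for `Pair.symm` and the exchange of the variables (`measurePreserving_swap`,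
`MeasurePreserving.setIntegral_preimage_emb` or `integral_prod_swap` with indicators), `L1_Vf`, `L2_Vf`. -/
theorem deep_tr : ∃ C : ℝ, 0 ≤ C ∧ ∀ (a b : ℂ → ℂ × ℂ) (Λ r ρ : ℝ), Pair a b Λ r → 0 < ρ → ρ ≤ r →
    ∫ γ in {γ : ℂ × ℂ | ‖γ‖ ≤ 7 ∧ Aq a b γ < r ^ 2}, tr (Vf a b ρ) γ ≤
      C * (volume.real (Eset a b r) + volume.real (Eset b a r)) := by
  obtain ⟨C, hC, hm⟩ := deep_mass
  refine ⟨C, hC, fun a b Λ r ρ h hρ hr => ?_⟩
  have h1 := hm a b Λ r ρ h hρ hr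
  have h2 := hm b a Λ r ρ h.symm hρ hr
  have h3 : ∀ γ, tr (Vf a b ρ) γ = sl a (b γ.2) ρ γ.1 + sl b (a γ.1) ρ γ.2 := fun γ => by
    rw [← L1_Vf h.da h.db hρ, ← L2_Vf h.da h.db hρ]
    rfl
  have h4 : Continuous fun γ : ℂ × ℂ => sl a (b γ.2) ρ γ.1 := by
    have h5 : (fun γ : ℂ × ℂ => sl a (b γ.2) ρ γ.1) = L1 (Vf a b ρ) :=
      funext fun γ => (L1_Vf h.da h.db hρ γ).symm
    rw [h5]
    exact ((sm_Vf h.da h.db hρ).lev _ _).continuous
  simp only [h3]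
  rw [integral_add (J1Str_int h4 a b r) (J1Str_int (continuous_sl h.da h.db hρ) a b r)]
  have h5 : MeasurePreserving (Prod.swap : ℂ × ℂ → ℂ × ℂ) volume volume :=
    Measure.measurePreserving_swap
  have h6 := h5.setIntegral_preimage_emb MeasurableEquiv.prodComm.measurableEmbedding
    (fun γ : ℂ × ℂ => sl a (b γ.1) ρ γ.2) {γ : ℂ × ℂ | ‖γ‖ ≤ 7 ∧ Aq b a γ < r ^ 2}
  have h7 : Prod.swap ⁻¹' {γ : ℂ × ℂ | ‖γ‖ ≤ 7 ∧ Aq b a γ < r ^ 2} =
      {γ : ℂ × ℂ | ‖γ‖ ≤ 7 ∧ Aq a b γ < r ^ 2} := by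
    ext γ
    simp only [mem_preimage, mem_ofPred_eq, Aq_swap, Prod.norm_def, Prod.fst_swap, Prod.snd_swap,
      max_comm]
  rw [h7] at h6
  simp only [Prod.fst_swap, Prod.snd_swap] at h6
  rw [h6]
  linarith

end Pool.Agent.Lib.MP_7b5e47_an.Hq
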