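import Mathlib

/-! Directional derivatives, Levi forms and mixed Levi determinants of smooth real functions. -/

namespace Pool.Agent.Lib.MP_7b5e47_an.Hq

open Complex MeasureTheory Set Metric Filter Topology

section general

variable {E : Type} [NormedAddCommGroup E] [NormedSpace ℝ E] [NormedSpace ℂ E]
  [IsScalarTower ℝ ℂ E]

/-- Smooth real functions. -/
def Sm (u : E → ℝ) : Prop := ContDiff ℝ (⊤ : ℕ∞) u

/-- The derivative in the direction `v`. -/
noncomputable def Dv (v : E) (u : E → ℝ) : E → ℝ := fun z => fderiv ℝ u z v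

/-- The real part of the Levi form (times four). -/
noncomputable def Lev (u : E → ℝ) (v w : E) : E → ℝ :=
  fun z => Dv v (Dv w u) z + Dv (I • v) (Dv (I • w) u) z

/-- The corresponding pairing of two gradients. -/
noncomputable def Gr (u u' : E → ℝ) (v w : E) : E → ℝ :=
  fun z => Dv v u z * Dv w u' z + Dv (I • v) u z * Dv (I • w) u' z

end general

/-- The Laplacian on the plane. -/
noncomputable def Lap (u : ℂ → ℝ) : ℂ → ℝ := Lev u 1 1

/-- The squared length of the gradient on the plane. -/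
noncomputable def Gsq (u : ℂ → ℝ) : ℂ → ℝ := Gr u u 1 1

/-- The Laplacian in the first variable. -/
noncomputable def L1 (u : ℂ × ℂ → ℝ) : ℂ × ℂ → ℝ := Lev u (1, 0) (1, 0)

/-- The Laplacian in the second variable. -/
noncomputable def L2 (u : ℂ × ℂ → ℝ) : ℂ × ℂ → ℝ := Lev u (0, 1) (0, 1)

/-- The real part of the mixed entry of the Levi matrix. -/
noncomputable def LA (u : ℂ × ℂ → ℝ) : ℂ × ℂ → ℝ := Lev u (1, 0) (0, 1)

/-- The imaginary part of the mixed entry of the Levi matrix. -/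
noncomputable def LB (u : ℂ × ℂ → ℝ) : ℂ × ℂ → ℝ := Lev u (1, 0) (0, I)

/-- The trace of the Levi matrix. -/
noncomputable def tr (u : ℂ × ℂ → ℝ) : ℂ × ℂ → ℝ := fun γ => L1 u γ + L2 u γ

/-- The mixed determinant of two Levi matrices. -/
noncomputable def MA (u v : ℂ × ℂ → ℝ) : ℂ × ℂ → ℝ := fun γ =>
  L1 u γ * L2 v γ + L2 u γ * L1 v γ - 2 * (LA u γ * LA v γ + LB u γ * LB v γ)

/-- The Levi matrix at `γ` is at least `c` times the identity. -/
def Psd (c : ℝ) (u : ℂ × ℂ → ℝ) (γ : ℂ × ℂ) : Prop :=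
  c ≤ L1 u γ ∧ c ≤ L2 u γ ∧ LA u γ ^ 2 + LB u γ ^ 2 ≤ (L1 u γ - c) * (L2 u γ - c)

end Pool.Agent.Lib.MP_7b5e47_an.Hq
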