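import Pool.Agent.Lib.MP_7b5e47_an.Hq.AFin
import Pool.Agent.Lib.MP_7b5e47_an.Hn.PRay

/-! Landing of rays. -/

namespace Pool.Agent.Lib.MP_7b5e47_an.Hq

open Set Metric Filter Topology

theorem grad_aff {g : ℂ → ℝ} (k : ℝ) (w a z : ℂ) (hg : DifferentiableAt ℝ g (w + a * z)) :
    gradient (fun y => k * g (w + a * y)) z =
      k • ((starRingEnd ℂ) a * gradient g (w + a * z)) := by
  have h1 : HasFDerivAt (fun y : ℂ => w + a * y)
      ((ContinuousLinearMap.mul ℝ ℂ) a) z := by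
    have := ((ContinuousLinearMap.mul ℝ ℂ) a).hasFDerivAt (x := z)
    exact this.const_add w
  have h2 := (hg.hasGradientAt.hasFDerivAt.comp z h1).const_mul k
  refine HasGradientAt.gradient ?_
  rw [hasGradientAt_iff_hasFDerivAt]
  refine h2.congr_fderiv (ContinuousLinearMap.ext fun v => ?_)
  simp only [InnerProductSpace.toDual_apply_apply, smul_apply,
    ContinuousLinearMap.comp_apply, ContinuousLinearMap.mul_apply', real_inner_smul_left,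
    Complex.inner, map_mul, Complex.conj_conj, smul_eq_mul]
  congr 2
  ring

theorem Lnd_bdK {g : ℂ → ℝ} {ζ w : ℂ} (h0 : g w = 0) (hne : ζ ≠ w)
    (hb : ∀ z ∈ ball ζ ‖ζ - w‖, 0 < g z) : w ∈ bdK g := by
  have hr : ‖ζ - w‖ ≠ 0 := norm_ne_zero_iff.2 (sub_ne_zero.2 hne)
  rw [bdK, frontier_eq_closure_inter_closure]
  refine ⟨subset_closure h0, ?_⟩
  have h1 : w ∈ closure (ball ζ ‖ζ - w‖) := by
    rw [closure_ball ζ hr, mem_closedBall, dist_comm, dist_eq_norm]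
  exact closure_mono (fun z hz => (hb z hz).ne') h1

variable {f : Equiv.Perm (ℂ × ℂ)} {d : ℝ} {G H : ℂ × ℂ → ℝ} {ψ : ℂ → ℂ × ℂ}

/- Let `a = γ t₁ - w`, `Ψ z = (f ^ k) (ψ (w + a z))` from `exists_norm` with `x = 1`; `Ψ` is bounded on `ball 0 3` (`doubling`,
`HD.db_bdd`) and `c ≤ G (Ψ 1) < d` (`john`).  `annulus` (`T = 1`, `z = 1`) gives `ε₀`; `Hn.cross` for `G ∘ Ψ` and the curve
`(γ t - w) / a` (`grad_aff`; the speed is `c / (d ^ k ‖a‖ ^ 2)`; `G ∘ Ψ` is differentiable where it is positive,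
`HarmonicAt`).  `ε = ε₀ / d`. -/
theorem drop (h : QH f d G H) : ∃ ε : ℝ, 0 < ε ∧ ∀ (ψ : ℂ → ℂ × ℂ) (γ : ℝ → ℂ) (t₁ t₂ : ℝ) (w : ℂ),
    Par f ψ → t₁ ≤ t₂ → (∀ t ∈ Icc t₁ t₂, 0 < G (ψ (γ t)) ∧ ∃ c : ℝ, 0 ≤ c ∧
      HasDerivAt γ (-(c • gradient (fun z => G (ψ z)) (γ t))) t) → G (ψ w) = 0 →
      (∀ z ∈ ball (γ t₁) ‖γ t₁ - w‖, 0 < G (ψ z)) → ‖γ t₁ - w‖ ≤ ‖γ t₂ - γ t₁‖ →
      G (ψ (γ t₂)) ≤ (1 - ε) * G (ψ (γ t₁)) := by
  have hd := h.hd
  have hd1 := hd.hd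
  obtain ⟨c, hc, hj⟩ := john h
  obtain ⟨C, hC, hD⟩ := doubling h
  obtain ⟨B, hB⟩ := hd.db_bdd (C := C) (by linarith) d 3 one_pos
  obtain ⟨ε₀, hε₀, hA⟩ := annulus hd.gh 1 B hc
  refine ⟨ε₀ / d, by positivity, fun ψ γ t₁ t₂ w hψ ht hγ hw hb hle => ?_⟩
  have hne : γ t₁ ≠ w := by
    intro e
    have := (hγ t₁ (left_mem_Icc.2 ht)).1
    rw [e, hw] at this
    exact lt_irrefl _ this
  have ha : γ t₁ - w ≠ 0 := sub_ne_zero.2 hne
  set a := γ t₁ - w with hadef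
  have hna : 0 < ‖a‖ := norm_pos_iff.2 ha
  have dψ : Differentiable ℂ ψ := by
    obtain ⟨q, hq⟩ := hψ
    exact hq.imm.dif
  obtain ⟨k, hk1, hk2, -⟩ := exists_norm hd dψ.continuous (Lnd_bdK hw hne hb) ha one_pos
  have hP := hψ.norm hd k ha w
  set Ψ : ℂ → ℂ × ℂ := fun z => (f ^ k) (ψ (w + a * z)) with hΨ
  have dΨ : Differentiable ℂ Ψ := by
    obtain ⟨q, hq⟩ := hP
    exact hq.imm.dif
  have hdk : 0 < d ^ k := zpow_pos (by linarith) k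
  have eG : ∀ z, G (Ψ z) = d ^ k * G (ψ (w + a * z)) := fun z => hd.G_zpow k _
  have e0 : G (Ψ 0) = 0 := by rw [eG, mul_zero, add_zero, hw, mul_zero]
  have hb' : ∀ z ∈ ball (1 : ℂ) ‖(1 : ℂ) - 0‖, 0 < G (Ψ z) := by
    intro z hz
    rw [eG]
    refine mul_pos hdk (hb _ ?_)
    rw [sub_zero, norm_one, mem_ball, dist_eq_norm] at hz
    rw [mem_ball, dist_eq_norm]
    have e : w + a * z - γ t₁ = a * (z - 1) := by rw [hadef]; ring
    rw [e, norm_mul]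
    nlinarith
  have hj1 := hj Ψ 1 0 hP e0 one_ne_zero hb'
  rw [sub_zero, norm_one] at hj1
  have cG : Continuous fun z => G (Ψ z) := hd.cG.comp dΨ.continuous
  have hlo : c ≤ G (Ψ 1) := by nlinarith
  have hhi : G (Ψ 1) < d := by
    have := le_MM (g := fun z => G (Ψ z)) (w := 0) (r := 1) cG.continuousOn (z := 1) (by simp)
    linarith
  have hBd := hB Ψ dΨ.continuous (hP.hz hd) (hD Ψ hP 0 (Lnd_bdK e0 one_ne_zero hb'))
    (by linarith)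
  obtain ⟨σ₁, σ₂, g', s1, s2, s3, s4, s5, s6⟩ := hA Ψ 1 dΨ.differentiableOn
    (fun ζ hζ => hBd ζ (by
      have := mem_ball_zero_iff.1 hζ
      linarith)) e0 (by simp) hlo
  have eη : ∀ t, w + a * ((γ t - w) / a) = γ t := fun t => by
    field_simp
    ring
  have e1 : (γ t₁ - w) / a = 1 := div_self ha
  have key := Hn.cross (v := fun z => G (Ψ z)) (γ := fun t => (γ t - w) / a) ht (fun t htt => by
      obtain ⟨p1, c', hc', p2⟩ := hγ t htt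
      have hdif : DifferentiableAt ℝ (fun z => G (ψ z)) (γ t) :=
        (hd.hG ψ _ (dψ.analyticAt _) p1).1.differentiableAt two_ne_zero
      have p3 : 0 < G (Ψ ((γ t - w) / a)) := by
        rw [eG, eη]
        exact mul_pos hdk p1
      refine ⟨(hd.hG Ψ _ (dΨ.analyticAt _) p3).1.differentiableAt two_ne_zero,
        c' / (d ^ k * ‖a‖ ^ 2), by positivity, ?_⟩
      have e2 : (fun z => G (Ψ z)) = fun z => d ^ k * (fun y => G (ψ y)) (w + a * z) :=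
        funext eG
      rw [e2, grad_aff (g := fun y => G (ψ y)) _ w a _ (by rw [eη]; exact hdif), eη]
      refine ((p2.sub_const w).div_const a).congr_deriv ?_
      have e3 : (starRingEnd ℂ) a = ((‖a‖ ^ 2 : ℝ) : ℂ) / a := by
        rw [eq_div_iff ha, mul_comm, Complex.mul_conj, Complex.normSq_eq_norm_sq]
      have e4 : ((d ^ k : ℝ) : ℂ) ≠ 0 := Complex.ofReal_ne_zero.2 hdk.ne'
      have e5 : ((‖a‖ ^ 2 : ℝ) : ℂ) ≠ 0 := Complex.ofReal_ne_zero.2 (by positivity)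
      rw [e3, Complex.real_smul, Complex.real_smul, Complex.real_smul, Complex.ofReal_div,
        Complex.ofReal_mul]
      field_simp)
    s1 s2 s4 (by simpa only [e1] using s6) (by
      have e : (γ t₂ - w) / a - (γ t₁ - w) / a = (γ t₂ - γ t₁) / a := by ring
      simp only [e, norm_div]
      rw [le_div_iff₀ hna]
      nlinarith)
  simp only [e1] at key
  have e2 : G (Ψ 1) = d ^ k * G (ψ (γ t₁)) := by
    rw [eG, mul_one, hadef, add_sub_cancel]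
  rw [eG, eη] at key
  have e3 : ε₀ / d * G (Ψ 1) ≤ ε₀ := by
    rw [div_mul_eq_mul_div, div_le_iff₀ (by linarith)]
    nlinarith
  refine le_of_mul_le_mul_left ?_ hdk
  have e4 : d ^ k * ((1 - ε₀ / d) * G (ψ (γ t₁))) = G (Ψ 1) - ε₀ / d * G (Ψ 1) := by
    rw [e2]; ring
  linarith

/- Fix `z₀` with `m₀ = G (ψ z₀) > 0` and `w₀` with `G (ψ w₀) = 0`; let `r = ‖ζ - w‖ ≤ ‖ζ - w₀‖`,
`A = (‖ζ‖ + 1) (‖z₀‖ + ‖w₀‖ + 1)`, so `r ≤ A`, `‖z₀ - w‖ ≤ 2 A`.  Take `k` with `2 A ≤ 2 ^ k r ≤ 4 A`; then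
`m₀ ≤ MM w (2 ^ k r) ≤ C ^ k * MM w r ≤ C ^ k * G (ψ ζ) / c`, and `2 ^ k = (C ^ k) ^ β` for `β = log 2 / log C`, so
`r ≤ 4 A / 2 ^ k ≤ 4 A (G (ψ ζ) / (c m₀)) ^ β`. -/
theorem dist_le (h : QH f d G H) (hψ : Par f ψ) : ∃ C β : ℝ, 0 < C ∧ 0 < β ∧ ∀ ζ w : ℂ,
    G (ψ w) = 0 → ζ ≠ w → (∀ z ∈ ball ζ ‖ζ - w‖, 0 < G (ψ z)) →
      ‖ζ - w‖ ≤ C * G (ψ ζ) ^ β * (‖ζ‖ + 1) := by
  have hd := h.hd
  obtain ⟨c, hc, hj⟩ := john h
  obtain ⟨C, hC, hD⟩ := doubling h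
  have hP := hψ
  obtain ⟨q, hq⟩ := hP
  have dψ := hq.imm.dif
  obtain ⟨z₀, hz₀⟩ := hd.unbdd dψ (hψ.hz hd) ⟨1, fun e => one_ne_zero (hq.imm.inj e)⟩ 0
  obtain ⟨w₀, hw₀⟩ := hq.mem
  have hw0 : G (ψ w₀) = 0 := by rw [hw₀]; exact saddle_G hd hq.sad
  have hlC : 0 < Real.log C := Real.log_pos (by linarith)
  have hl2 : 0 < Real.log 2 := Real.log_pos (by norm_num)
  set β := Real.log 2 / Real.log C with hβ
  have hβ0 : 0 < β := by positivity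
  have hCβ : C ^ β = 2 := by
    rw [Real.rpow_def_of_pos (by linarith), hβ, mul_div_cancel₀ _ hlC.ne', Real.exp_log two_pos]
  set M := ‖z₀‖ + ‖w₀‖ + 1 with hM
  have hM0 : 0 < M := by positivity
  have hcm : 0 < c * G (ψ z₀) := mul_pos hc hz₀
  have hcb : 0 < (c * G (ψ z₀)) ^ β := Real.rpow_pos_of_pos hcm _
  refine ⟨4 * M / (c * G (ψ z₀)) ^ β, β, by positivity, hβ0, fun ζ w hw hne hb => ?_⟩
  have cG : Continuous fun z => G (ψ z) := hd.cG.comp dψ.continuous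
  have hr : 0 < ‖ζ - w‖ := norm_pos_iff.2 (sub_ne_zero.2 hne)
  set r := ‖ζ - w‖ with hrd
  have hG : 0 < G (ψ ζ) := hb ζ (mem_ball_self hr)
  have h1 : r ≤ ‖ζ - w₀‖ := by
    by_contra hlt
    have := hb w₀ (by rw [mem_ball, dist_comm, dist_eq_norm]; exact not_le.1 hlt)
    rw [hw0] at this
    exact lt_irrefl _ this
  have n1 := norm_nonneg ζ
  have n2 := norm_nonneg z₀
  have n3 := norm_nonneg w₀
  set A := (‖ζ‖ + 1) * M with hA
  have h2 : ‖ζ‖ + ‖z₀‖ + ‖w₀‖ ≤ A := by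
    rw [hA, hM]
    nlinarith [mul_nonneg n1 n2, mul_nonneg n1 n3]
  have h3 : r ≤ A := by linarith [norm_sub_le ζ w₀]
  have h4 : ‖z₀ - w‖ ≤ 2 * A := by
    linarith [norm_sub_le_norm_sub_add_norm_sub z₀ ζ w, norm_sub_le z₀ ζ]
  obtain ⟨n, hn1, hn2⟩ := exists_nat_pow_near (x := 2 * A / r) (y := 2)
    (by rw [le_div_iff₀ hr]; linarith) one_lt_two
  rw [le_div_iff₀ hr] at hn1
  rw [div_lt_iff₀ hr] at hn2
  have h5 : G (ψ z₀) ≤ MM (fun z => G (ψ z)) w (2 ^ (n + 1) * r) :=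
    le_MM (g := fun z => G (ψ z)) cG.continuousOn (by
      rw [mem_closedBall, dist_eq_norm]
      linarith)
  have h6 := (hD ψ hψ w (Lnd_bdK hw hne hb) (2 ^ (n + 1) * r)).pow (by linarith) hr (n + 1) le_rfl
  have h7 := hj ψ ζ w hψ hw hne hb
  have hCk : 0 < C ^ (n + 1) := by positivity
  have h8 : c * G (ψ z₀) ≤ C ^ (n + 1) * G (ψ ζ) := by
    calc c * G (ψ z₀) ≤ c * (C ^ (n + 1) * MM (fun z => G (ψ z)) w r) :=
          mul_le_mul_of_nonneg_left (h5.trans h6) hc.le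
      _ = C ^ (n + 1) * (c * MM (fun z => G (ψ z)) w r) := by ring
      _ ≤ _ := mul_le_mul_of_nonneg_left h7 hCk.le
  have h9 : (c * G (ψ z₀)) ^ β ≤ 2 ^ (n + 1) * G (ψ ζ) ^ β := by
    have := Real.rpow_le_rpow hcm.le h8 hβ0.le
    rwa [Real.mul_rpow hCk.le hG.le, ← Real.rpow_natCast C, ← Real.rpow_mul (by linarith),
      mul_comm ((n + 1 : ℕ) : ℝ), Real.rpow_mul (by linarith), hCβ, Real.rpow_natCast] at this
  have hGb : 0 < G (ψ ζ) ^ β := Real.rpow_pos_of_pos hG _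
  have e : 4 * M / (c * G (ψ z₀)) ^ β * G (ψ ζ) ^ β * (‖ζ‖ + 1) =
      4 * A * G (ψ ζ) ^ β / (c * G (ψ z₀)) ^ β := by
    rw [hA]; ring
  rw [e, le_div_iff₀ hcb]
  calc r * (c * G (ψ z₀)) ^ β ≤ r * (2 ^ (n + 1) * G (ψ ζ) ^ β) :=
        mul_le_mul_of_nonneg_left h9 hr.le
    _ = 2 * (2 ^ n * r) * G (ψ ζ) ^ β := by ring
    _ ≤ 4 * A * G (ψ ζ) ^ β := mul_le_mul_of_nonneg_right (by linarith) hGb.le

/- `Hn.land` with `T = 1`, `Hn.ray_anti`, `drop`, `dist_le` with `w` a nearest point of the closed nonempty zero set. -/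
theorem landing (h : QH f d G H) (hψ : Par f ψ) {γ : ℝ → ℂ}
    (hγ : ∀ t : ℝ, 0 < t → 0 < G (ψ (γ t)) ∧ ∃ c : ℝ, 0 ≤ c ∧
      HasDerivAt γ (-(c • gradient (fun z => G (ψ z)) (γ t))) t)
    (hl : Tendsto (fun t => G (ψ (γ t))) atTop (𝓝 0)) :
    ∃ z ∈ bdK fun z => G (ψ z), Tendsto γ atTop (𝓝 z) := by
  have hd := h.hd
  obtain ⟨ε, hε, hdr⟩ := drop h
  obtain ⟨C, β, hC, hβ, hdi⟩ := dist_le h hψ
  have hP := hψ
  obtain ⟨q, hq⟩ := hP
  have dψ := hq.imm.dif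
  have cG : Continuous fun z => G (ψ z) := hd.cG.comp dψ.continuous
  obtain ⟨w₀, hw₀⟩ := hq.mem
  have hw0 : G (ψ w₀) = 0 := by rw [hw₀]; exact saddle_G hd hq.sad
  have hZ : IsClosed {z | G (ψ z) = 0} := isClosed_eq cG continuous_const
  have hanti := Hn.ray_anti (v := fun z => G (ψ z)) (γ := γ) fun t ht =>
    ⟨(hd.hG ψ _ (dψ.analyticAt _) (hγ t ht).1).1.differentiableAt two_ne_zero, (hγ t ht).2⟩
  obtain ⟨z, hz⟩ := Hn.land (γ := γ) (h := fun t => G (ψ (γ t))) (T := 1)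
    (fun t ht => by
      obtain ⟨-, c, -, h2⟩ := hγ t (lt_of_lt_of_le one_pos ht)
      exact h2.continuousAt.continuousWithinAt)
    (fun t ht => (hγ t (lt_of_lt_of_le one_pos ht)).1)
    (hanti.mono (Ici_subset_Ioi.2 one_pos)) hl hC hβ hε (fun t₁ t₂ h1 h2 h3 => by
      obtain ⟨w, hw, hdist⟩ := hZ.exists_infDist_eq_dist ⟨w₀, hw0⟩ (γ t₁)
      have hb : ∀ z ∈ ball (γ t₁) ‖γ t₁ - w‖, 0 < G (ψ z) := by
        intro z hz
        rw [mem_ball, dist_comm, ← dist_eq_norm, ← hdist] at hz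
        have hn := notMem_of_dist_lt_infDist hz
        exact lt_of_le_of_ne (hd.nG _) fun e => hn e.symm
      have hne : γ t₁ ≠ w := by
        intro e
        have := (hγ t₁ (lt_of_lt_of_le one_pos h1)).1
        rw [e, hw] at this
        exact lt_irrefl _ this
      exact hdr ψ γ t₁ t₂ w hψ h2
        (fun t ht => hγ t (lt_of_lt_of_le one_pos (h1.trans ht.1))) hw hb
        ((hdi _ w hw hne hb).trans h3))
  refine ⟨z, ?_, hz⟩
  rw [bdK, frontier_eq_closure_inter_closure]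
  refine ⟨subset_closure (tendsto_nhds_unique ((cG.tendsto z).comp hz) hl), ?_⟩
  refine mem_closure_of_tendsto hz ?_
  filter_upwards [eventually_gt_atTop 0] with t ht using (hγ t ht).1.ne'

end Pool.Agent.Lib.MP_7b5e47_an.Hq
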