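import Pool.Agent.Lib.MP_7b5e47_an.Hq.Poi
import Pool.Agent.Lib.MP_7b5e47_an.Hq.TInv

/-! The normal form of the map near a fixed saddle. -/

namespace Pool.Agent.Lib.MP_7b5e47_an.Hq

open Set Metric Filter Topology
open Pool.Agent.Lib.MP_7b5e47_an.Hn (IsSaddle Wu)

/-- A map which is linear on both axes. -/
structure NF (F : ℂ × ℂ → ℂ × ℂ) (l m : ℂ) (r C : ℝ) : Prop where
  hr : 0 < r
  hC : 0 < C
  dif : DifferentiableOn ℂ F (ball 0 r)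
  e1 : ∀ γ ∈ ball (0 : ℂ × ℂ) r, ‖(F γ).1 - l * γ.1‖ ≤ C * ‖γ.1‖ * ‖γ.2‖
  e2 : ∀ γ ∈ ball (0 : ℂ × ℂ) r, ‖(F γ).2 - m * γ.2‖ ≤ C * ‖γ.1‖ * ‖γ.2‖

/- The Schwarz lemma (`Complex.dist_le_div_mul_dist_of_mapsTo_ball`) in `t`, then in `s`. -/
theorem two_var {u : ℂ × ℂ → ℂ} {r B : ℝ} (hu : DifferentiableOn ℂ u (ball 0 r))
    (hB : ∀ γ ∈ ball (0 : ℂ × ℂ) r, ‖u γ‖ ≤ B) (h1 : ∀ s : ℂ, ‖s‖ < r → u (s, 0) = 0)
    (h2 : ∀ t : ℂ, ‖t‖ < r → u (0, t) = 0) :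
    ∀ γ ∈ ball (0 : ℂ × ℂ) r, ‖u γ‖ ≤ B / r ^ 2 * ‖γ.1‖ * ‖γ.2‖ := by
  intro γ hγ
  have hn : ‖γ‖ < r := mem_ball_zero_iff.1 hγ
  have hs : ‖γ.1‖ < r := (norm_fst_le γ).trans_lt hn
  have ht : ‖γ.2‖ < r := (norm_snd_le γ).trans_lt hn
  have hr : 0 < r := (norm_nonneg _).trans_lt hn
  have hm : ∀ s t : ℂ, ‖s‖ < r → ‖t‖ < r → (s, t) ∈ ball (0 : ℂ × ℂ) r := fun s t a b => by
    rw [mem_ball_zero_iff, Prod.norm_mk]
    exact max_lt a b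
  have k1 : ∀ s : ℂ, ‖s‖ < r → ‖u (s, γ.2)‖ ≤ B / r * ‖γ.2‖ := fun s a => by
    have d : DifferentiableOn ℂ (fun t : ℂ => u (s, t)) (ball 0 r) :=
      hu.comp (by fun_prop) fun t b => hm s t a (mem_ball_zero_iff.1 b)
    have e := Complex.dist_le_div_mul_dist_of_mapsTo_ball (R₂ := B) d (fun t b => by
      rw [h1 s a, mem_closedBall_zero_iff]
      exact hB _ (hm s t a (mem_ball_zero_iff.1 b))) (mem_ball_zero_iff.2 ht)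
    simpa [h1 s a] using e
  have d : DifferentiableOn ℂ (fun s : ℂ => u (s, γ.2)) (ball 0 r) :=
    hu.comp (by fun_prop) fun s b => hm s γ.2 (mem_ball_zero_iff.1 b) ht
  have e := Complex.dist_le_div_mul_dist_of_mapsTo_ball (R₂ := B / r * ‖γ.2‖) d (fun s b => by
    rw [h2 _ ht, mem_closedBall_zero_iff]
    exact k1 s (mem_ball_zero_iff.1 b)) (mem_ball_zero_iff.2 hs)
  rw [h2 _ ht, dist_zero_right, dist_zero_right] at e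
  refine e.trans_eq ?_
  field_simp

/- `Ξ ∘ Θ` is the identity near `γ`; chain rule. -/
theorem LInv.fderiv_inj {Θ Ξ : ℂ × ℂ → ℂ × ℂ} {γ₀ : ℂ × ℂ} {r₀ r₁ : ℝ} (h : LInv Θ Ξ γ₀ r₀ r₁)
    (hΘ : Differentiable ℂ Θ) {γ : ℂ × ℂ} (hγ : γ ∈ ball γ₀ r₁) :
    Function.Injective (fderiv ℂ Θ γ) := by
  have hΞ : DifferentiableAt ℂ Ξ (Θ γ) := h.dif.differentiableAt (isOpen_ball.mem_nhds (h.maps γ hγ))
  have e : (fun x => Ξ (Θ x)) =ᶠ[𝓝 γ] id := by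
    filter_upwards [isOpen_ball.mem_nhds hγ] with x hx using h.left x hx
  have d : HasFDerivAt (fun x => Ξ (Θ x)) ((fderiv ℂ Ξ (Θ γ)).comp (fderiv ℂ Θ γ)) γ :=
    hΞ.hasFDerivAt.comp γ (hΘ γ).hasFDerivAt
  have d' := (d.congr_of_eventuallyEq e.symm).unique (hasFDerivAt_id γ)
  intro v w hvw
  have a := congrArg (fun T : (ℂ × ℂ) →L[ℂ] (ℂ × ℂ) => T v) d'
  have b := congrArg (fun T : (ℂ × ℂ) →L[ℂ] (ℂ × ℂ) => T w) d'
  simp only [ContinuousLinearMap.comp_apply, ContinuousLinearMap.id_apply] at a b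
  rw [← a, ← b, hvw]

variable {f : Equiv.Perm (ℂ × ℂ)} {p : ℂ × ℂ} {ψ σ : ℂ → ℂ × ℂ} {l m : ℂ}

theorem Chart.th_u (h : Chart f p ψ σ l m) (s : ℂ) : Th p ψ σ (s, 0) = ψ s := by
  simp [Th, h.s0]

theorem Chart.th_s (h : Chart f p ψ σ l m) (t : ℂ) : Th p ψ σ (0, t) = σ t := by
  simp [Th, h.u0]

theorem Chart.th_zero (h : Chart f p ψ σ l m) : Th p ψ σ 0 = p := by
  simp [Th, h.u0, h.s0]

theorem Chart.th_dif (h : Chart f p ψ σ l m) : Differentiable ℂ (Th p ψ σ) := by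
  have a := h.iu.dif
  have b := h.is.dif
  unfold Th
  fun_prop

/- `inv2` (the derivative at `0` is `v ↦ v.1 • deriv ψ 0 + v.2 • deriv σ 0`, injective by `tv`).  Take `r ≤ r₁`
with `‖l‖ r ≤ r₁` and `f (Th γ)` in `closedBall p (r₀ / 2)` for `‖γ‖ < r`; there `Ξ` is bounded.
`F (s, 0) = (l s, 0)`, `F (0, t) = (0, m t)`; `two_var`. -/
theorem Chart.nf (hf : Differentiable ℂ (⇑f)) (h : Chart f p ψ σ l m) :
    ∃ (Ξ : ℂ × ℂ → ℂ × ℂ) (r₀ r₁ r C : ℝ), LInv (Th p ψ σ) Ξ 0 r₀ r₁ ∧ r ≤ r₁ ∧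
      NF (fun γ => Ξ (f (Th p ψ σ γ))) l m r C ∧
      ∀ γ ∈ ball (0 : ℂ × ℂ) r, f (Th p ψ σ γ) ∈ ball p r₀ := by
  have hΘ := h.th_dif
  have hd : HasFDerivAt (Th p ψ σ)
      (((ContinuousLinearMap.toSpanSingleton ℂ (deriv ψ 0)).comp (ContinuousLinearMap.fst ℂ ℂ ℂ)) +
        ((ContinuousLinearMap.toSpanSingleton ℂ (deriv σ 0)).comp
          (ContinuousLinearMap.snd ℂ ℂ ℂ))) 0 := by
    have a : HasFDerivAt ψ (ContinuousLinearMap.toSpanSingleton ℂ (deriv ψ 0))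
        ((0 : ℂ × ℂ).1) := (h.iu.dif 0).hasDerivAt.hasFDerivAt
    have b : HasFDerivAt σ (ContinuousLinearMap.toSpanSingleton ℂ (deriv σ 0))
        ((0 : ℂ × ℂ).2) := (h.is.dif 0).hasDerivAt.hasFDerivAt
    exact ((a.comp (0 : ℂ × ℂ) hasFDerivAt_fst).add (b.comp (0 : ℂ × ℂ) hasFDerivAt_snd)).sub_const p
  have hinj : Function.Injective (fderiv ℂ (Th p ψ σ) 0) := by
    rw [hd.fderiv, injective_iff_map_eq_zero]
    intro v hv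
    have h1 := congrArg Prod.fst hv
    have h2 := congrArg Prod.snd hv
    simp at h1 h2
    have t := h.tv
    refine Prod.ext ?_ ?_
    · refine (mul_eq_zero.1 (?_ : v.1 * _ = 0)).resolve_right t
      linear_combination (deriv σ 0).2 * h1 - (deriv σ 0).1 * h2
    · refine (mul_eq_zero.1 (?_ : v.2 * _ = 0)).resolve_right t
      linear_combination (deriv ψ 0).1 * h2 - (deriv ψ 0).2 * h1
  obtain ⟨Ξ, r₀, r₁, hL⟩ := inv2 hΘ hinj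
  have h0 := hL.h0
  have h1 := hL.h1
  have hl := h.hl
  have hm := h.hm
  have hc : ContinuousAt (fun γ => f (Th p ψ σ γ)) 0 :=
    (hf.continuous.comp hΘ.continuous).continuousAt
  obtain ⟨δ, hδ, hδ'⟩ := Metric.continuousAt_iff.1 hc (r₀ / 2) (by positivity)
  simp only [h.th_zero, h.fix] at hδ'
  have hdif := hL.dif
  rw [h.th_zero] at hdif
  obtain ⟨M, hM⟩ := (isCompact_closedBall p (r₀ / 2)).exists_bound_of_continuousOn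
    (hdif.continuousOn.mono (closedBall_subset_ball (by linarith)))
  set r := min δ (r₁ / ‖l‖) with hr
  have hl0 : 0 < ‖l‖ := by linarith
  have hrp : 0 < r := lt_min hδ (by positivity)
  have hrl : ‖l‖ * r ≤ r₁ := by
    have : r ≤ r₁ / ‖l‖ := min_le_right _ _
    rwa [le_div_iff₀' hl0] at this
  have hrr : r ≤ r₁ := by nlinarith
  have hin : ∀ γ ∈ ball (0 : ℂ × ℂ) r, dist (f (Th p ψ σ γ)) p < r₀ / 2 := fun γ hγ =>
    hδ' ((mem_ball.1 hγ).trans_le (min_le_left _ _))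
  have hin' : ∀ γ ∈ ball (0 : ℂ × ℂ) r, f (Th p ψ σ γ) ∈ ball p r₀ := fun γ hγ =>
    mem_ball.2 ((hin γ hγ).trans (by linarith))
  have hF : DifferentiableOn ℂ (fun γ => Ξ (f (Th p ψ σ γ))) (ball 0 r) :=
    hdif.comp (hf.comp hΘ).differentiableOn hin'
  have hFb : ∀ γ ∈ ball (0 : ℂ × ℂ) r, ‖Ξ (f (Th p ψ σ γ))‖ ≤ M := fun γ hγ =>
    hM _ (mem_closedBall.2 (hin γ hγ).le)
  have hM0 : 0 ≤ M := (norm_nonneg _).trans (hFb 0 (mem_ball_self hrp))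
  have au : ∀ s : ℂ, ‖s‖ < r → Ξ (f (Th p ψ σ (s, 0))) = (l * s, 0) := fun s hs => by
    rw [h.th_u, h.fu, ← h.th_u]
    refine hL.left _ ?_
    rw [mem_ball_zero_iff, Prod.norm_mk, norm_zero, norm_mul]
    exact max_lt (by nlinarith) h1
  have as : ∀ t : ℂ, ‖t‖ < r → Ξ (f (Th p ψ σ (0, t))) = (0, m * t) := fun t ht => by
    rw [h.th_s, h.fs, ← h.th_s]
    refine hL.left _ ?_
    rw [mem_ball_zero_iff, Prod.norm_mk, norm_zero, norm_mul]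
    exact max_lt h1 (by nlinarith [norm_nonneg t, norm_nonneg m])
  refine ⟨Ξ, r₀, r₁, r, (M + r₁) / r ^ 2, hL, hrr, ⟨hrp, by positivity, hF, ?_, ?_⟩, hin'⟩
  · refine two_var (u := fun γ => (Ξ (f (Th p ψ σ γ))).1 - l * γ.1)
      (hF.fst.sub (by fun_prop)) (fun γ hγ => ?_) (fun s hs => by simp [au s hs])
      (fun t ht => by simp [as t ht])
    have a := (norm_fst_le _).trans (hFb γ hγ)
    have b := (norm_fst_le γ).trans (mem_ball_zero_iff.1 hγ).le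
    refine (norm_sub_le _ _).trans ?_
    rw [norm_mul]
    nlinarith
  · refine two_var (u := fun γ => (Ξ (f (Th p ψ σ γ))).2 - m * γ.2)
      (hF.snd.sub (by fun_prop)) (fun γ hγ => ?_) (fun s hs => by simp [au s hs])
      (fun t ht => by simp [as t ht])
    have a := (norm_snd_le _).trans (hFb γ hγ)
    have b := (norm_snd_le γ).trans (mem_ball_zero_iff.1 hγ).le
    refine (norm_sub_le _ _).trans ?_
    rw [norm_mul]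
    nlinarith [norm_nonneg γ.2, norm_nonneg m]

/- Take `r' ≤ r` with `θ = ‖l‖ - C r' > 1` and `ε < r₀` with `Ξ (closedBall p ε) ⊆ ball 0 r'`.  The points
`γ n = Ξ ((f ^ n) z)` satisfy `F (γ n) = γ (n + 1)` and `θ ‖(γ n).1‖ ≤ ‖(γ (n + 1)).1‖ < r'`, so `(γ 0).1 = 0`. -/
theorem Chart.loc (hf : Differentiable ℂ (⇑f)) (h : Chart f p ψ σ l m) :
    ∃ ε : ℝ, 0 < ε ∧ ∀ z, (∀ n : ℕ, ‖(f ^ n) z - p‖ ≤ ε) → z ∈ range σ := by
  obtain ⟨Ξ, r₀, r₁, r, C, hL, -, hN, -⟩ := h.nf hf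
  have h0 := hL.h0
  have hl := h.hl
  have hC := hN.hC
  have hdif := hL.dif
  have hright := hL.right
  rw [h.th_zero] at hdif hright
  have hp : Ξ p = 0 := by
    have := hL.left 0 (mem_ball_self hL.h1)
    rwa [h.th_zero] at this
  set r' := min r ((‖l‖ - 1) / (2 * C)) with hr'
  have hr'p : 0 < r' := lt_min hN.hr (div_pos (by linarith) (by positivity))
  have hCr : 2 * C * r' ≤ ‖l‖ - 1 := by
    have : r' ≤ (‖l‖ - 1) / (2 * C) := min_le_right _ _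
    rwa [le_div_iff₀' (by positivity)] at this
  have hc : ContinuousAt Ξ p := (hdif.differentiableAt (ball_mem_nhds p h0)).continuousAt
  obtain ⟨δ, hδ, hδ'⟩ := Metric.continuousAt_iff.1 hc r' hr'p
  rw [hp] at hδ'
  refine ⟨min δ r₀ / 2, by positivity, fun z hz => ?_⟩
  have hmin : 0 < min δ r₀ := lt_min hδ h0
  have z1 : ∀ n : ℕ, dist ((f ^ n) z) p < δ := fun n => by
    rw [dist_eq_norm]
    linarith [hz n, min_le_left δ r₀]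
  have z2 : ∀ n : ℕ, (f ^ n) z ∈ ball p r₀ := fun n => by
    rw [mem_ball, dist_eq_norm]
    linarith [hz n, min_le_right δ r₀]
  have g1 : ∀ n : ℕ, ‖Ξ ((f ^ n) z)‖ < r' := fun n => by simpa using hδ' (z1 n)
  set θ := (‖l‖ + 1) / 2 with hθ
  have hθ1 : 1 < θ := by rw [hθ]; linarith
  have g2 : ∀ n : ℕ, θ * ‖(Ξ ((f ^ n) z)).1‖ ≤ ‖(Ξ ((f ^ (n + 1)) z)).1‖ := fun n => by
    have e := hN.e1 (Ξ ((f ^ n) z)) (mem_ball_zero_iff.2 ((g1 n).trans_le (min_le_left _ _)))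
    rw [hright _ (z2 n), ← Equiv.Perm.mul_apply, ← pow_succ'] at e
    have a := (norm_snd_le _).trans (g1 n).le
    have b := norm_sub_norm_le (l * (Ξ ((f ^ n) z)).1) (Ξ ((f ^ (n + 1)) z)).1
    rw [norm_sub_rev, norm_mul] at b
    have c : C * ‖(Ξ ((f ^ n) z)).1‖ * ‖(Ξ ((f ^ n) z)).2‖ ≤ C * ‖(Ξ ((f ^ n) z)).1‖ * r' := by
      gcongr
    have d := mul_le_mul_of_nonneg_left hCr (norm_nonneg (Ξ ((f ^ n) z)).1)
    rw [hθ]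
    nlinarith
  have g3 : ∀ n : ℕ, θ ^ n * ‖(Ξ z).1‖ ≤ ‖(Ξ ((f ^ n) z)).1‖ := fun n => by
    induction n with
    | zero => simp
    | succ n ih =>
      refine le_trans ?_ (g2 n)
      rw [pow_succ', mul_assoc]
      exact mul_le_mul_of_nonneg_left ih (by linarith)
  have g4 : (Ξ z).1 = 0 := by
    by_contra hne
    have hpos : 0 < ‖(Ξ z).1‖ := norm_pos_iff.2 hne
    obtain ⟨n, hn⟩ := pow_unbounded_of_one_lt (r' / ‖(Ξ z).1‖) hθ1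
    rw [div_lt_iff₀ hpos] at hn
    linarith [g3 n, norm_fst_le (Ξ ((f ^ n) z)), g1 n]
  refine ⟨(Ξ z).2, ?_⟩
  rw [← h.th_s, ← g4]
  simpa using hright _ (z2 0)

/- `(f⁻¹ ^ n) (ψ z) = ψ (l⁻¹ ^ n * z) → p`; conversely `Chart.loc` for `h.symm`. -/
theorem Chart.range_u (hf : Differentiable ℂ (⇑f)) (hi : Differentiable ℂ (⇑f⁻¹))
    (h : Chart f p ψ σ l m) : range ψ = Wu f p := by
  have hs := h.symm hf hi
  have hp : ∀ n : ℕ, (f⁻¹ ^ n) p = p := fun n => by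
    have := hs.pow_s n 0
    rwa [mul_zero, h.u0] at this
  ext q
  simp only [Wu, mem_ofPred_eq, hp]
  constructor
  · rintro ⟨z, rfl⟩
    simp only [hs.pow_s]
    rw [← tendsto_iff_dist_tendsto_zero, ← h.u0]
    refine (h.iu.dif.continuous.tendsto 0).comp ?_
    simpa using (tendsto_pow_atTop_nhds_zero_of_norm_lt_one hs.hm).mul_const z
  · intro hq
    obtain ⟨ε, hε, hε'⟩ := hs.loc hi
    obtain ⟨N, hN⟩ := eventually_atTop.1 (hq.eventually (gt_mem_nhds hε))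
    obtain ⟨t, ht⟩ := hε' ((f⁻¹ ^ N) q) fun n => by
      rw [← Equiv.Perm.mul_apply, ← pow_add, ← dist_eq_norm]
      exact (hN _ (Nat.le_add_left _ _)).le
    refine ⟨l ^ N * t, ?_⟩
    rw [← h.pow_u, ht, ← Equiv.Perm.mul_apply, inv_pow, mul_inv_cancel, Equiv.Perm.one_apply]

theorem Nf_bound {r r' K₁ K₂ : ℝ} {x y : ℂ × ℂ} {j n : ℕ} (hl : 1 < ‖l‖) (hm : ‖m‖ < 1)
    (hK₁ : 0 < K₁) (hK₂ : 0 < K₂) (r1 : 2 * r' ≤ r) (r2 : K₁ * r' ≤ 1) (r3 : K₂ * r' ≤ 1)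
    (hx : x ∈ ball (0 : ℂ × ℂ) r') (hj : j ≤ n)
    (i1 : ‖y.1 - l ^ j * (x.1 / l ^ n)‖ ≤
      K₁ * (1 - ‖m‖ ^ j) * (‖x.1‖ * ‖x.2‖ * (‖l‖ ^ j / ‖l‖ ^ n)))
    (i2 : ‖y.2 - m ^ j * x.2‖ ≤ K₂ * (‖l‖ ^ j / ‖l‖ ^ n) * (‖x.1‖ * ‖x.2‖ * ‖m‖ ^ j)) :
    y ∈ ball (0 : ℂ × ℂ) r ∧ ‖y.1‖ ≤ 2 * ‖x.1‖ * (‖l‖ ^ j / ‖l‖ ^ n) ∧
      ‖y.2‖ ≤ 2 * ‖m‖ ^ j * ‖x.2‖ := by
  have hL0 : 0 < ‖l‖ := by linarith
  have xa : ‖x.1‖ < r' := (norm_fst_le x).trans_lt (mem_ball_zero_iff.1 hx)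
  have xb : ‖x.2‖ < r' := (norm_snd_le x).trans_lt (mem_ball_zero_iff.1 hx)
  set w := ‖l‖ ^ j / ‖l‖ ^ n with hw
  have hw0 : 0 ≤ w := by positivity
  have hw1 : w ≤ 1 := by
    rw [hw, div_le_one (by positivity)]
    exact pow_le_pow_right₀ hl.le hj
  have hμ0 : 0 ≤ ‖m‖ ^ j := by positivity
  have hμ1 : ‖m‖ ^ j ≤ 1 := pow_le_one₀ (norm_nonneg m) hm.le
  have a0 := norm_nonneg x.1
  have b0 := norm_nonneg x.2
  have ka : K₂ * ‖x.1‖ ≤ 1 := by nlinarith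
  have kb : K₁ * ‖x.2‖ ≤ 1 := by nlinarith
  have n1 : ‖l ^ j * (x.1 / l ^ n)‖ = ‖x.1‖ * w := by
    rw [norm_mul, norm_div, norm_pow, norm_pow, hw]
    ring
  have n2 : ‖m ^ j * x.2‖ = ‖m‖ ^ j * ‖x.2‖ := by rw [norm_mul, norm_pow]
  have c1 : ‖y.1‖ ≤ 2 * ‖x.1‖ * w := by
    have t := norm_sub_norm_le y.1 (l ^ j * (x.1 / l ^ n))
    have u : K₁ * (1 - ‖m‖ ^ j) * (‖x.1‖ * ‖x.2‖ * w) ≤ ‖x.1‖ * w := by
      calc K₁ * (1 - ‖m‖ ^ j) * (‖x.1‖ * ‖x.2‖ * w)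
          = (K₁ * ‖x.2‖) * (1 - ‖m‖ ^ j) * (‖x.1‖ * w) := by ring
        _ ≤ 1 * 1 * (‖x.1‖ * w) := by
          gcongr
          linarith
        _ = _ := by ring
    linarith
  have c2 : ‖y.2‖ ≤ 2 * ‖m‖ ^ j * ‖x.2‖ := by
    have t := norm_sub_norm_le y.2 (m ^ j * x.2)
    have u : K₂ * w * (‖x.1‖ * ‖x.2‖ * ‖m‖ ^ j) ≤ ‖m‖ ^ j * ‖x.2‖ := by
      calc K₂ * w * (‖x.1‖ * ‖x.2‖ * ‖m‖ ^ j)
          = (K₂ * ‖x.1‖) * w * (‖m‖ ^ j * ‖x.2‖) := by ring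
        _ ≤ 1 * 1 * (‖m‖ ^ j * ‖x.2‖) := by gcongr
        _ = _ := by ring
    linarith
  refine ⟨?_, c1, c2⟩
  rw [mem_ball_zero_iff, Prod.norm_def]
  exact max_lt (by nlinarith) (by nlinarith)

/- Let `(s j, t j)` be the orbit of `(x.1 / l ^ n, x.2)`.  By induction on `j ≤ n`:
`‖s j / l ^ j - x.1 / l ^ n‖ ≤ a j * ‖x.1‖ * ‖x.2‖ / ‖l‖ ^ n` with `a j = ∑ i < j, 4 C ‖m‖ ^ i / ‖l‖`, and
`‖t j / m ^ j - x.2‖ ≤ b j * ‖x.1‖ * ‖x.2‖` with `b j = ∑ i < j, 4 C / (‖m‖ ‖l‖ ^ (n - i))`; both sums are bounded by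
a constant `C'`, and `C' r' ≤ 1`, `2 r' ≤ r` give `‖s j‖ ≤ 2 ‖x.1‖ / ‖l‖ ^ (n - j)`, `‖t j‖ ≤ 2 ‖m‖ ^ j ‖x.2‖`. -/
theorem NF.orbit {F : ℂ × ℂ → ℂ × ℂ} {r C : ℝ} (h : NF F l m r C) (hl : 1 < ‖l‖) (hm : ‖m‖ < 1)
    (m0 : m ≠ 0) : ∃ r' C' : ℝ, 0 < r' ∧ r' ≤ r ∧ 0 < C' ∧ ∀ n : ℕ,
      DifferentiableOn ℂ (fun x : ℂ × ℂ => F^[n] (x.1 / l ^ n, x.2)) (ball 0 r') ∧
      ∀ x ∈ ball (0 : ℂ × ℂ) r', (∀ j ≤ n, F^[j] (x.1 / l ^ n, x.2) ∈ ball (0 : ℂ × ℂ) r) ∧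
        ‖(F^[n] (x.1 / l ^ n, x.2)).1 - x.1‖ ≤ C' * ‖x.1‖ * ‖x.2‖ ∧
        ‖(F^[n] (x.1 / l ^ n, x.2)).2‖ ≤ 2 * ‖m‖ ^ n * ‖x.2‖ := by
  have hC := h.hC
  have hr := h.hr
  have hμ : 0 < ‖m‖ := norm_pos_iff.2 m0
  have hL0 : 0 < ‖l‖ := by linarith
  have l0 : l ≠ 0 := norm_pos_iff.1 hL0
  obtain ⟨K₁, hK₁, eK₁⟩ : ∃ K : ℝ, 0 < K ∧ K * (‖l‖ * (1 - ‖m‖)) = 4 * C := by
    have : 0 < ‖l‖ * (1 - ‖m‖) := mul_pos hL0 (by linarith)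
    exact ⟨4 * C / (‖l‖ * (1 - ‖m‖)), by positivity, div_mul_cancel₀ _ this.ne'⟩
  obtain ⟨K₂, hK₂, eK₂⟩ : ∃ K : ℝ, 0 < K ∧ K * (‖m‖ * (‖l‖ - 1)) = 4 * C := by
    have : 0 < ‖m‖ * (‖l‖ - 1) := mul_pos hμ (by linarith)
    exact ⟨4 * C / (‖m‖ * (‖l‖ - 1)), by positivity, div_mul_cancel₀ _ this.ne'⟩
  obtain ⟨r', hr', r1, r2, r3⟩ : ∃ r' : ℝ, 0 < r' ∧ 2 * r' ≤ r ∧ K₁ * r' ≤ 1 ∧ K₂ * r' ≤ 1 := by
    refine ⟨min (r / 2) (min (1 / K₁) (1 / K₂)), by positivity, ?_, ?_, ?_⟩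
    · linarith [min_le_left (r / 2) (min (1 / K₁) (1 / K₂))]
    · rw [← le_div_iff₀' hK₁]
      exact (min_le_right _ _).trans (min_le_left _ _)
    · rw [← le_div_iff₀' hK₂]
      exact (min_le_right _ _).trans (min_le_right _ _)
  refine ⟨r', K₁, hr', by linarith, hK₁, fun n => ?_⟩
  have key : ∀ x ∈ ball (0 : ℂ × ℂ) r', ∀ j ≤ n,
      ‖(F^[j] (x.1 / l ^ n, x.2)).1 - l ^ j * (x.1 / l ^ n)‖ ≤
        K₁ * (1 - ‖m‖ ^ j) * (‖x.1‖ * ‖x.2‖ * (‖l‖ ^ j / ‖l‖ ^ n)) ∧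
      ‖(F^[j] (x.1 / l ^ n, x.2)).2 - m ^ j * x.2‖ ≤
        K₂ * (‖l‖ ^ j / ‖l‖ ^ n) * (‖x.1‖ * ‖x.2‖ * ‖m‖ ^ j) := by
    intro x hx j hj
    induction j with
    | zero => simp; positivity
    | succ j ih =>
      obtain ⟨i1, i2⟩ := ih (Nat.le_of_succ_le hj)
      obtain ⟨b0, b1, b2⟩ := Nf_bound hl hm hK₁ hK₂ r1 r2 r3 hx (Nat.le_of_succ_le hj) i1 i2
      have e1 := h.e1 _ b0
      have e2 := h.e2 _ b0
      rw [Function.iterate_succ_apply']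
      set y := F^[j] (x.1 / l ^ n, x.2) with hy
      set w := ‖l‖ ^ j / ‖l‖ ^ n with hw
      have hw0 : 0 ≤ w := by positivity
      have ew : ‖l‖ ^ (j + 1) / ‖l‖ ^ n = ‖l‖ * w := by rw [hw, pow_succ']; ring
      have pr : C * ‖y.1‖ * ‖y.2‖ ≤ 4 * C * (‖x.1‖ * ‖x.2‖ * w * ‖m‖ ^ j) := by
        calc C * ‖y.1‖ * ‖y.2‖ ≤ C * (2 * ‖x.1‖ * w) * (2 * ‖m‖ ^ j * ‖x.2‖) := by gcongr
          _ = _ := by ring
      rw [ew]
      constructor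
      · have e : (F y).1 - l ^ (j + 1) * (x.1 / l ^ n) =
            ((F y).1 - l * y.1) + l * (y.1 - l ^ j * (x.1 / l ^ n)) := by ring
        rw [e]
        refine (norm_add_le _ _).trans ?_
        rw [norm_mul]
        refine (add_le_add (e1.trans pr) (mul_le_mul_of_nonneg_left i1 hL0.le)).trans_eq ?_
        rw [← eK₁]
        ring
      · have e : (F y).2 - m ^ (j + 1) * x.2 =
            ((F y).2 - m * y.2) + m * (y.2 - m ^ j * x.2) := by ring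
        rw [e]
        refine (norm_add_le _ _).trans ?_
        rw [norm_mul]
        refine (add_le_add (e2.trans pr) (mul_le_mul_of_nonneg_left i2 hμ.le)).trans_eq ?_
        rw [← eK₂]
        ring
  have key' := fun x (hx : x ∈ ball (0 : ℂ × ℂ) r') j (hj : j ≤ n) =>
    Nf_bound hl hm hK₁ hK₂ r1 r2 r3 hx hj (key x hx j hj).1 (key x hx j hj).2
  refine ⟨?_, fun x hx => ⟨fun j hj => (key' x hx j hj).1, ?_, (key' x hx n le_rfl).2.2⟩⟩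
  · have d : ∀ j ≤ n, DifferentiableOn ℂ (fun x : ℂ × ℂ => F^[j] (x.1 / l ^ n, x.2)) (ball 0 r') := by
      intro j hj
      induction j with
      | zero =>
        simp only [Function.iterate_zero, id]
        fun_prop
      | succ j ih =>
        simp only [Function.iterate_succ_apply']
        exact h.dif.comp (ih (Nat.le_of_succ_le hj)) fun x hx =>
          (key' x hx j (Nat.le_of_succ_le hj)).1
    exact d n le_rfl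
  · have a := (key x hx n le_rfl).1
    rw [mul_div_cancel₀ _ (pow_ne_zero n l0), div_self (pow_pos hL0 n).ne', mul_one] at a
    refine a.trans ?_
    have b : 0 ≤ K₁ * ‖m‖ ^ n * (‖x.1‖ * ‖x.2‖) := by positivity
    nlinarith

end Pool.Agent.Lib.MP_7b5e47_an.Hq
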