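import Pool.Agent.Lib.MP_7b5e47_an.Hq.Calc

/-! Integration by parts and the algebra of mixed determinants. -/

namespace Pool.Agent.Lib.MP_7b5e47_an.Hq

open Complex MeasureTheory Set Metric Filter Topology

section general

variable {E : Type} [NormedAddCommGroup E] [NormedSpace ℝ E] [FiniteDimensional ℝ E]
  [MeasureSpace E] [BorelSpace E] [(volume : Measure E).IsAddHaarMeasure] {u Φ : E → ℝ}

omit [FiniteDimensional ℝ E] [MeasureSpace E] [BorelSpace E]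
  [(volume : Measure E).IsAddHaarMeasure] in
theorem Parts_cs_dv (hc : HasCompactSupport Φ) (v : E) : HasCompactSupport (Dv v Φ) :=
  hc.fderiv_apply ℝ v

omit [FiniteDimensional ℝ E] [MeasureSpace E] [BorelSpace E]
  [(volume : Measure E).IsAddHaarMeasure] in
theorem Parts_cont (hu : Sm u) : Continuous u := ContDiff.continuous hu

omit [FiniteDimensional ℝ E] [MeasureSpace E] [BorelSpace E]
  [(volume : Measure E).IsAddHaarMeasure] in
theorem Parts_sm_mul (hΦ : Sm Φ) (hu : Sm u) : Sm fun z => Φ z * u z := ContDiff.mul hΦ hu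

omit [FiniteDimensional ℝ E] [MeasureSpace E] [BorelSpace E]
  [(volume : Measure E).IsAddHaarMeasure] in
theorem Parts_sm_sub (hΦ : Sm Φ) (hu : Sm u) : Sm fun z => Φ z - u z := ContDiff.sub hΦ hu

omit [FiniteDimensional ℝ E] [MeasureSpace E] [BorelSpace E]
  [(volume : Measure E).IsAddHaarMeasure] in
theorem Parts_sm_add (hΦ : Sm Φ) (hu : Sm u) : Sm fun z => Φ z + u z := ContDiff.add hΦ hu

theorem Parts_intl (hΦ : Sm Φ) (hc : HasCompactSupport Φ) (hu : Sm u) :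
    Integrable fun z => Φ z * u z :=
  ((Parts_cont hΦ).mul (Parts_cont hu)).integrable_of_hasCompactSupport hc.mul_right

theorem Parts_intr (hΦ : Sm Φ) (hc : HasCompactSupport Φ) (hu : Sm u) :
    Integrable fun z => u z * Φ z :=
  ((Parts_cont hu).mul (Parts_cont hΦ)).integrable_of_hasCompactSupport hc.mul_left

/- `integral_mul_fderiv_eq_neg_fderiv_mul_of_integrable`. -/
theorem parts_dv (hΦ : Sm Φ) (hc : HasCompactSupport Φ) (hu : Sm u) (v : E) :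
    ∫ z, Φ z * Dv v u z = -∫ z, u z * Dv v Φ z := by
  have h := integral_mul_fderiv_eq_neg_fderiv_mul_of_integrable (μ := (volume : Measure E))
    (f := Φ) (g := u) (v := v) (Parts_intl (hΦ.dv v) (Parts_cs_dv hc v) hu)
    (Parts_intl hΦ hc (hu.dv v)) (Parts_intl hΦ hc hu)
    (fun x _ => (ContDiff.differentiable hΦ (by simp)).differentiableAt)
    (fun x _ => (ContDiff.differentiable hu (by simp)).differentiableAt)
  refine h.trans ?_
  congr 1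
  refine integral_congr_ae (Eventually.of_forall fun z => ?_)
  simp only [Dv, mul_comm]

theorem Parts_dv2 (hΦ : Sm Φ) (hc : HasCompactSupport Φ) (hu : Sm u) (v w : E) :
    ∫ z, Φ z * Dv v (Dv w u) z = ∫ z, u z * Dv v (Dv w Φ) z := by
  rw [parts_dv hΦ hc (hu.dv w) v, hΦ.dv_comm v w]
  have h := parts_dv (hΦ.dv v) (Parts_cs_dv hc v) hu w
  have e : ∫ z, Dv w u z * Dv v Φ z = ∫ z, Dv v Φ z * Dv w u z :=
    integral_congr_ae (Eventually.of_forall fun z => mul_comm _ _)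
  rw [e, h, neg_neg]

theorem Parts_dv_zero (hΦ : Sm Φ) (hc : HasCompactSupport Φ) (v : E) :
    Integrable (Dv v Φ) ∧ ∫ z, Dv v Φ z = 0 := by
  refine ⟨(Parts_cont (hΦ.dv v)).integrable_of_hasCompactSupport (Parts_cs_dv hc v), ?_⟩
  have h := parts_dv hΦ hc (u := fun _ => 1) contDiff_const v
  simp only [Dv, fderiv_fun_const, Pi.zero_apply, zero_apply, mul_zero,
    integral_zero, one_mul] at h
  simpa [Dv] using h.symm

theorem parts_lev [NormedSpace ℂ E] (hΦ : Sm Φ) (hc : HasCompactSupport Φ) (hu : Sm u) (v w : E) :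
    ∫ z, Φ z * Lev u v w z = ∫ z, u z * Lev Φ v w z := by
  simp only [Lev, mul_add]
  rw [integral_add (Parts_intl hΦ hc ((hu.dv w).dv v))
      (Parts_intl hΦ hc ((hu.dv (I • w)).dv (I • v))),
    integral_add (Parts_intr ((hΦ.dv w).dv v) (Parts_cs_dv (Parts_cs_dv hc w) v) hu)
      (Parts_intr ((hΦ.dv (I • w)).dv (I • v)) (Parts_cs_dv (Parts_cs_dv hc _) _) hu),
    Parts_dv2 hΦ hc hu, Parts_dv2 hΦ hc hu]

end general

variable {Φ u v : ℂ × ℂ → ℝ}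

theorem parts_gsq {φ : ℂ → ℝ} (hφ : Sm φ) (hc : HasCompactSupport φ) :
    ∫ z, Gsq φ z = -∫ z, φ z * Lap φ z := by
  simp only [Gsq, Lap, Gr, Lev, mul_add]
  rw [integral_add (Parts_intl (hφ.dv 1) (Parts_cs_dv hc 1) (hφ.dv 1))
      (Parts_intl (hφ.dv _) (Parts_cs_dv hc _) (hφ.dv _)),
    integral_add (Parts_intl hφ hc ((hφ.dv 1).dv 1)) (Parts_intl hφ hc ((hφ.dv _).dv _)),
    parts_dv hφ hc (hφ.dv 1) 1, parts_dv hφ hc (hφ.dv _) _]
  ring

theorem gsq_nonneg (φ : ℂ → ℝ) (z : ℂ) : 0 ≤ Gsq φ z := by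
  simp only [Gsq, Gr]
  exact add_nonneg (mul_self_nonneg _) (mul_self_nonneg _)

theorem Sm.tr (hu : Sm u) : Sm (tr u) := by
  exact Parts_sm_add (hu.lev (1, 0) (1, 0)) (hu.lev (0, 1) (0, 1))

theorem Sm.ma (hu : Sm u) (hv : Sm v) : Sm (MA u v) := by
  exact Parts_sm_sub (Parts_sm_add (Parts_sm_mul (hu.lev (1, 0) (1, 0)) (hv.lev (0, 1) (0, 1)))
    (Parts_sm_mul (hu.lev (0, 1) (0, 1)) (hv.lev (1, 0) (1, 0))))
    (Parts_sm_mul (Φ := fun _ => 2) contDiff_const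
      (Parts_sm_add (Parts_sm_mul (hu.lev (1, 0) (0, 1)) (hv.lev (1, 0) (0, 1)))
        (Parts_sm_mul (hu.lev (1, 0) (0, I)) (hv.lev (1, 0) (0, I)))))

theorem ma_comm (u v : ℂ × ℂ → ℝ) : MA u v = MA v u := by
  funext γ
  simp only [MA]
  ring

theorem ma_eq_zero {γ : ℂ × ℂ} (h : γ ∉ tsupport u) : MA u v γ = 0 := by
  simp only [MA, L1, L2, LA, LB, lev_eq_zero h]
  ring

instance Parts_haar : (volume : Measure (ℂ × ℂ)).IsAddHaarMeasure :=
  Measure.prod.instIsAddHaarMeasure _ _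

theorem Parts_dv_add {f g : ℂ × ℂ → ℝ} (hf : Sm f) (hg : Sm g) (a z : ℂ × ℂ) :
    Dv a (fun y => f y + g y) z = Dv a f z + Dv a g z := by
  have h := dv_lin hf hg 1 1 0 a z
  simpa using h

theorem Parts_dv_sub {f g : ℂ × ℂ → ℝ} (hf : Sm f) (hg : Sm g) (a z : ℂ × ℂ) :
    Dv a (fun y => f y - g y) z = Dv a f z - Dv a g z := by
  have h := dv_lin hf hg 1 (-1) 0 a z
  simpa [sub_eq_add_neg] using h

theorem Parts_L1 (u : ℂ × ℂ → ℝ) : L1 u = fun z =>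
    Dv (1, 0) (Dv (1, 0) u) z + Dv (I, 0) (Dv (I, 0) u) z := by
  funext z
  simp [L1, Lev]

theorem Parts_L2 (u : ℂ × ℂ → ℝ) : L2 u = fun z =>
    Dv (0, 1) (Dv (0, 1) u) z + Dv (0, I) (Dv (0, I) u) z := by
  funext z
  simp [L2, Lev]

theorem Parts_LA (u : ℂ × ℂ → ℝ) : LA u = fun z =>
    Dv (1, 0) (Dv (0, 1) u) z + Dv (I, 0) (Dv (0, I) u) z := by
  funext z
  simp [LA, Lev]

theorem Parts_LB (u : ℂ × ℂ → ℝ) : LB u = fun z =>
    Dv (1, 0) (Dv (0, I) u) z - Dv (I, 0) (Dv (0, 1) u) z := by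
  funext z
  have e : Dv ((0, -1) : ℂ × ℂ) u = fun y => -Dv (0, 1) u y := by
    funext y
    have e0 : ((0, -1) : ℂ × ℂ) = -(0, 1) := by simp
    simp only [Dv, e0, map_neg]
  have e1 : I • ((0, I) : ℂ × ℂ) = (0, -1) := by simp
  have e2 : I • ((1, 0) : ℂ × ℂ) = (I, 0) := by simp
  simp only [LB, Lev, e1, e2, e]
  have e3 : Dv (I, 0) (fun y => -Dv (0, 1) u y) z = -Dv (I, 0) (Dv (0, 1) u) z := by
    unfold Dv
    rw [fderiv_fun_neg]
    rfl
  rw [e3, sub_eq_add_neg]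

theorem Parts_c12 (hv : Sm v) (a b c : ℂ × ℂ) :
    Dv a (Dv b (Dv c v)) = Dv b (Dv a (Dv c v)) := (hv.dv c).dv_comm a b

theorem Parts_c23 (hv : Sm v) (a b c : ℂ × ℂ) :
    Dv a (Dv b (Dv c v)) = Dv a (Dv c (Dv b v)) := by rw [hv.dv_comm b c]

theorem Parts_div (hv : Sm v) (z : ℂ × ℂ) :
    Dv (1, 0) (L2 v) z - Dv (0, 1) (LA v) z - Dv (0, I) (LB v) z = 0 ∧
    Dv (I, 0) (L2 v) z - Dv (0, I) (LA v) z + Dv (0, 1) (LB v) z = 0 ∧
    Dv (0, 1) (L1 v) z - Dv (1, 0) (LA v) z + Dv (I, 0) (LB v) z = 0 ∧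
    Dv (0, I) (L1 v) z - Dv (I, 0) (LA v) z - Dv (1, 0) (LB v) z = 0 := by
  have s : ∀ a b : ℂ × ℂ, Sm (Dv a (Dv b v)) := fun a b => (hv.dv b).dv a
  simp only [Parts_L1, Parts_L2, Parts_LA, Parts_LB, Parts_dv_add (s _ _) (s _ _),
    Parts_dv_sub (s _ _) (s _ _)]
  generalize ((1, 0) : ℂ × ℂ) = a
  generalize ((I, 0) : ℂ × ℂ) = b
  generalize ((0, 1) : ℂ × ℂ) = c
  generalize ((0, I) : ℂ × ℂ) = d
  have p := fun a b c => congrFun (Parts_c12 hv a b c) z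
  have q := fun a b c => congrFun (Parts_c23 hv a b c) z
  refine ⟨?_, ?_, ?_, ?_⟩
  · linear_combination p a c c + p a d d + p d b c - p c b d + q b d c
  · linear_combination p b c c + p b d d - p d a c + p c a d + q a c d
  · linear_combination p c a a + q a c a + p c b b + q b c b - p a b d
  · linear_combination p d a a + q a d a + p d b b + q b d b + p a b c

/-- A field with compact support whose derivative is one term of the integration by parts. -/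
noncomputable def Parts_F (Φ u c : ℂ × ℂ → ℝ) (a b : ℂ × ℂ) : ℂ × ℂ → ℝ :=
  Dv a fun y => c y * (Φ y * Dv b u y - u y * Dv b Φ y)

theorem Parts_F_zero {c : ℂ × ℂ → ℝ} (hΦ : Sm Φ) (hc : HasCompactSupport Φ) (hu : Sm u)
    (h : Sm c) (a b : ℂ × ℂ) :
    Integrable (Parts_F Φ u c a b) ∧ ∫ z, Parts_F Φ u c a b z = 0 := by
  refine Parts_dv_zero (Parts_sm_mul h (Parts_sm_sub (Parts_sm_mul hΦ (hu.dv b))
    (Parts_sm_mul hu (hΦ.dv b)))) ?_ a
  have h1 : HasCompactSupport fun y => Φ y * Dv b u y := hc.mul_right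
  have h2 : HasCompactSupport fun y => u y * Dv b Φ y := (Parts_cs_dv hc b).mul_left
  have h3 : HasCompactSupport fun y => Φ y * Dv b u y - u y * Dv b Φ y := h1.sub h2
  exact h3.mul_left

theorem Parts_F_eq {c : ℂ × ℂ → ℝ} (hΦ : Sm Φ) (hu : Sm u) (h : Sm c) (a b z : ℂ × ℂ) :
    Parts_F Φ u c a b z = c z * (Φ z * Dv a (Dv b u) z - u z * Dv a (Dv b Φ) z) +
      Dv a c z * (Φ z * Dv b u z - u z * Dv b Φ z) +
      c z * (Dv a Φ z * Dv b u z - Dv a u z * Dv b Φ z) := by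
  rw [Parts_F, dv_mul h (Parts_sm_sub (Parts_sm_mul hΦ (hu.dv b)) (Parts_sm_mul hu (hΦ.dv b))),
    Parts_dv_sub (Parts_sm_mul hΦ (hu.dv b)) (Parts_sm_mul hu (hΦ.dv b)),
    dv_mul hΦ (hu.dv b), dv_mul hu (hΦ.dv b)]
  ring

theorem Parts_zadd {f g : ℂ × ℂ → ℝ} (hf : Integrable f ∧ ∫ z, f z = 0)
    (hg : Integrable g ∧ ∫ z, g z = 0) :
    Integrable (fun z => f z + g z) ∧ ∫ z, f z + g z = 0 :=
  ⟨hf.1.add hg.1, by rw [integral_add hf.1 hg.1, hf.2, hg.2, add_zero]⟩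

theorem Parts_zsub {f g : ℂ × ℂ → ℝ} (hf : Integrable f ∧ ∫ z, f z = 0)
    (hg : Integrable g ∧ ∫ z, g z = 0) :
    Integrable (fun z => f z - g z) ∧ ∫ z, f z - g z = 0 :=
  ⟨hf.1.sub hg.1, by rw [integral_sub hf.1 hg.1, hf.2, hg.2, sub_zero]⟩

theorem Parts_cs_ma (hc : HasCompactSupport Φ) (v : ℂ × ℂ → ℝ) : HasCompactSupport (MA Φ v) :=
  HasCompactSupport.intro hc fun _ h => ma_eq_zero h

/- Let `D1 .. D4` be the derivatives in the directions `(1,0), (I,0), (0,1), (0,I)`; then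
`L1 = D1 D1 + D2 D2`, `L2 = D3 D3 + D4 D4`, `LA = D1 D3 + D2 D4`, `LB = D1 D4 - D2 D3`, so
`MA u v = ∑ i j, c i j * Di Dj u` with the symmetric coefficients `c 1 1 = c 2 2 = L2 v`,
`c 3 3 = c 4 4 = L1 v`, `c 1 3 = c 2 4 = - LA v`, `c 1 4 = - LB v`, `c 2 3 = LB v`, `c 1 2 = c 3 4 = 0`,
and `∑ i, Di (c i j) = 0` (`Sm.dv_comm`).  Both sides are `- ∫ ∑ i j, c i j * Di Φ * Dj u` (`parts_dv`;
to be symmetric prove it for `Φ * u` of compact support, or apply `parts_dv` to `Φ * u * c`-type products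
with the constant function `1`). -/
theorem parts_ma (hΦ : Sm Φ) (hc : HasCompactSupport Φ) (hu : Sm u) (hv : Sm v) :
    ∫ γ, Φ γ * MA u v γ = ∫ γ, u γ * MA Φ v γ := by
  have s1 : Sm (L1 v) := hv.lev _ _
  have s2 : Sm (L2 v) := hv.lev _ _
  have sA : Sm (LA v) := hv.lev _ _
  have sB : Sm (LB v) := hv.lev _ _
  have F := fun (c : ℂ × ℂ → ℝ) (h : Sm c) a b => Parts_F_zero hΦ hc hu h a b
  have Z := (Parts_zadd (Parts_zadd (Parts_zsub (Parts_zsub (Parts_zsub (Parts_zsub (Parts_zsub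
    (Parts_zsub (Parts_zadd (Parts_zadd (Parts_zadd (F _ s2 (1, 0) (1, 0)) (F _ s2 (I, 0) (I, 0)))
    (F _ s1 (0, 1) (0, 1))) (F _ s1 (0, I) (0, I))) (F _ sA (1, 0) (0, 1))) (F _ sA (0, 1) (1, 0)))
    (F _ sA (I, 0) (0, I))) (F _ sA (0, I) (I, 0))) (F _ sB (1, 0) (0, I))) (F _ sB (0, I) (1, 0)))
    (F _ sB (I, 0) (0, 1))) (F _ sB (0, 1) (I, 0))).2
  rw [← sub_eq_zero, ← integral_sub (Parts_intl hΦ hc (hu.ma hv))
    (Parts_intr (hΦ.ma hv) (Parts_cs_ma hc v) hu), ← Z]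
  refine integral_congr_ae (Eventually.of_forall fun z => ?_)
  obtain ⟨d1, d2, d3, d4⟩ := Parts_div hv z
  simp only [Parts_F_eq hΦ hu s1, Parts_F_eq hΦ hu s2, Parts_F_eq hΦ hu sA, Parts_F_eq hΦ hu sB,
    MA]
  rw [Parts_L1 u, Parts_L2 u, Parts_LA u, Parts_LB u, Parts_L1 Φ, Parts_L2 Φ, Parts_LA Φ,
    Parts_LB Φ, hu.dv_comm (0, 1) (1, 0), hu.dv_comm (0, I) (I, 0), hu.dv_comm (0, I) (1, 0),
    hu.dv_comm (0, 1) (I, 0), hΦ.dv_comm (0, 1) (1, 0), hΦ.dv_comm (0, I) (I, 0),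
    hΦ.dv_comm (0, I) (1, 0), hΦ.dv_comm (0, 1) (I, 0)]
  linear_combination (-(Φ z * Dv (1, 0) u z - u z * Dv (1, 0) Φ z)) * d1 -
    (Φ z * Dv (I, 0) u z - u z * Dv (I, 0) Φ z) * d2 -
    (Φ z * Dv (0, 1) u z - u z * Dv (0, 1) Φ z) * d3 -
    (Φ z * Dv (0, I) u z - u z * Dv (0, I) Φ z) * d4

theorem Parts_lev_add (hu : Sm u) (hv : Sm v) (a b z : ℂ × ℂ) :
    Lev (fun y => u y + v y) a b z = Lev u a b z + Lev v a b z := by
  have h := lev_lin hu hv 1 1 0 a b z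
  simpa using h

theorem Parts_lev_sub (hu : Sm u) (hv : Sm v) (a b z : ℂ × ℂ) :
    Lev (fun y => u y - v y) a b z = Lev u a b z - Lev v a b z := by
  have h := lev_lin hu hv 1 (-1) 0 a b z
  simpa [sub_eq_add_neg] using h

/- `MA u u - MA v v = MA (u - v) (u + v)` by `lev_lin`, then `parts_ma`. -/
theorem parts_ma_sub (hΦ : Sm Φ) (hc : HasCompactSupport Φ) (hu : Sm u) (hv : Sm v) :
    (∫ γ, Φ γ * MA u u γ) - ∫ γ, Φ γ * MA v v γ =
      ∫ γ, (u γ - v γ) * (MA Φ u γ + MA Φ v γ) := by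
  have h := parts_ma hΦ hc (Parts_sm_sub hu hv) (Parts_sm_add hu hv)
  rw [← integral_sub (Parts_intl hΦ hc (hu.ma hu)) (Parts_intl hΦ hc (hv.ma hv))]
  refine Eq.trans ?_ (h.trans ?_)
  · refine integral_congr_ae (Eventually.of_forall fun z => ?_)
    simp only [MA, L1, L2, LA, LB, Parts_lev_add hu hv, Parts_lev_sub hu hv]
    ring
  · refine integral_congr_ae (Eventually.of_forall fun z => ?_)
    simp only [MA, L1, L2, LA, LB, Parts_lev_add hu hv]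
    ring

theorem Psd.tr_nonneg {γ : ℂ × ℂ} (h : Psd 0 u γ) : 0 ≤ tr u γ := by
  exact add_nonneg h.1 h.2.1

theorem Parts_cs {x y A B p q P Q : ℝ} (hx : 0 ≤ x) (hy : 0 ≤ y) (hA : 0 ≤ A) (hB : 0 ≤ B)
    (h : p ^ 2 + q ^ 2 ≤ x * y) (H : P ^ 2 + Q ^ 2 ≤ A * B) :
    |2 * (p * P + q * Q)| ≤ x * B + y * A := by
  refine abs_le_of_sq_le_sq' ?_ (by positivity) |> abs_le.2
  have h1 : (p * P + q * Q) ^ 2 ≤ (p ^ 2 + q ^ 2) * (P ^ 2 + Q ^ 2) := by
    nlinarith [sq_nonneg (p * Q - q * P)]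
  have h2 : (p ^ 2 + q ^ 2) * (P ^ 2 + Q ^ 2) ≤ (x * y) * (A * B) :=
    mul_le_mul h H (by positivity) (by positivity)
  nlinarith [sq_nonneg (x * B - y * A)]

/- Cauchy-Schwarz and the inequality of the means. -/
theorem ma_ge {c : ℝ} {γ : ℂ × ℂ} (hu : Psd c u γ) (hv : Psd 0 v γ) : c * tr v γ ≤ MA u v γ := by
  obtain ⟨a1, a2, a3⟩ := hu
  obtain ⟨b1, b2, b3⟩ := hv
  simp only [sub_zero] at b3
  have h := (abs_le.1 (Parts_cs (sub_nonneg.2 a1) (sub_nonneg.2 a2) b1 b2 a3 b3)).2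
  simp only [MA, tr]
  linarith

theorem Parts_lev_bdd (hΦ : Sm Φ) (hc : HasCompactSupport Φ) (a b : ℂ × ℂ) :
    ∃ M : ℝ, 0 ≤ M ∧ ∀ z, |Lev Φ a b z| ≤ M := by
  have h1 : HasCompactSupport (Lev Φ a b) :=
    HasCompactSupport.intro hc fun _ h => lev_eq_zero h a b
  obtain ⟨M, hM⟩ := (Parts_cont (hΦ.lev a b)).bounded_above_of_compact_support h1
  exact ⟨M, (norm_nonneg _).trans (hM 0), hM⟩

theorem ma_abs_le (hΦ : Sm Φ) (hc : HasCompactSupport Φ) : ∃ C : ℝ, 0 ≤ C ∧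
    ∀ (v : ℂ × ℂ → ℝ) (γ : ℂ × ℂ), Psd 0 v γ → |MA Φ v γ| ≤ C * tr v γ := by
  obtain ⟨M1, p1, h1⟩ := Parts_lev_bdd hΦ hc (1, 0) (1, 0)
  obtain ⟨M2, p2, h2⟩ := Parts_lev_bdd hΦ hc (0, 1) (0, 1)
  obtain ⟨MA', pA, hA⟩ := Parts_lev_bdd hΦ hc (1, 0) (0, 1)
  obtain ⟨MB, pB, hB⟩ := Parts_lev_bdd hΦ hc (1, 0) (0, I)
  refine ⟨M1 + M2 + (MA' + MB), by positivity, fun v γ hv => ?_⟩
  obtain ⟨b1, b2, b3⟩ := hv
  simp only [sub_zero] at b3
  have k1 : |L1 Φ γ| ≤ M1 := h1 γ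
  have k2 : |L2 Φ γ| ≤ M2 := h2 γ
  have kA : LA Φ γ ^ 2 ≤ MA' ^ 2 := sq_le_sq' (abs_le.1 (hA γ)).1 (abs_le.1 (hA γ)).2
  have kB : LB Φ γ ^ 2 ≤ MB ^ 2 := sq_le_sq' (abs_le.1 (hB γ)).1 (abs_le.1 (hB γ)).2
  have k : LA Φ γ ^ 2 + LB Φ γ ^ 2 ≤ (MA' + MB) * (MA' + MB) := by
    nlinarith [mul_nonneg pA pB]
  have h := abs_le.1 (Parts_cs (by positivity) (by positivity) b1 b2 k b3)
  have e1 := abs_le.1 k1
  have e2 := abs_le.1 k2
  simp only [MA, tr]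
  have t1 := mul_le_mul_of_nonneg_right e1.1 b2
  have t2 := mul_le_mul_of_nonneg_right e1.2 b2
  have t3 := mul_le_mul_of_nonneg_right e2.1 b1
  have t4 := mul_le_mul_of_nonneg_right e2.2 b1
  have t5 := mul_nonneg p1 b1
  have t6 := mul_nonneg p2 b2
  rw [abs_le]
  constructor <;> linarith [h.1, h.2]

/-- An upper bound in which the mixed term is split with a weight. -/
theorem ma_le {γ : ℂ × ℂ} (hv : Psd 0 v γ) {x y : ℝ} (hx : 0 ≤ x) (hy : 0 ≤ y)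
    (h : LA u γ ^ 2 + LB u γ ^ 2 ≤ x * y) :
    MA u v γ ≤ (L1 u γ + x) * L2 v γ + (L2 u γ + y) * L1 v γ := by
  obtain ⟨b1, b2, b3⟩ := hv
  simp only [sub_zero] at b3
  have k := (abs_le.1 (Parts_cs hx hy b1 b2 h b3)).1
  simp only [MA]
  linarith

/- Take a smooth `χ` with `0 ≤ χ ≤ 1`, equal to one on `K`, supported in the interior of `K'`
(`exists_contMDiff_support_eq`, `exists_smooth_one_nhds_of_subset_interior` or
`exists_contDiff_tsupport_subset` and compactness); `parts_lev`. -/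
theorem mass_sup {K K' : Set (ℂ × ℂ)} (hK : IsCompact K) (hK' : IsCompact K')
    (h : K ⊆ interior K') : ∃ C : ℝ, 0 ≤ C ∧ ∀ (v : ℂ × ℂ → ℝ) (B : ℝ), Sm v → (∀ γ, Psd 0 v γ) →
      0 ≤ B → (∀ γ ∈ K', |v γ| ≤ B) → ∫ γ in K, tr v γ ≤ C * B := by
  obtain ⟨χ, hχ1, hχ0, hχs, hχr⟩ : ∃ χ : ℂ × ℂ → ℝ, (∀ γ ∈ K, χ γ = 1) ∧
      tsupport χ ⊆ K' ∧ Sm χ ∧ ∀ γ, 0 ≤ χ γ := by
    obtain ⟨f, hf0, hf1, hf⟩ := exists_contMDiffMap_zero_one_of_isClosed (n := (⊤ : ℕ∞))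
      (modelWithCornersSelf ℝ (ℂ × ℂ)) (s := (interior K')ᶜ) (t := K)
      isOpen_interior.isClosed_compl hK.isClosed
      (disjoint_compl_left_iff_subset.2 h)
    refine ⟨f, fun γ hγ => hf1 hγ, ?_, f.contMDiff.contDiff, fun γ => (hf γ).1⟩
    refine closure_minimal (fun γ hγ => ?_) hK'.isClosed
    by_contra hn
    exact hγ (hf0 fun hi => hn (interior_subset hi))
  have hc : HasCompactSupport χ := hK'.of_isClosed_subset (isClosed_tsupport χ) hχ0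
  have hct : HasCompactSupport (tr χ) := HasCompactSupport.intro hc fun γ hγ => by
    simp only [tr, L1, L2, lev_eq_zero hγ, add_zero]
  have hint : Integrable (tr χ) := (Parts_cont hχs.tr).integrable_of_hasCompactSupport hct
  refine ⟨∫ γ, |tr χ γ|, integral_nonneg fun γ => abs_nonneg _, fun v B hv hP hB hvB => ?_⟩
  have e : ∫ γ, χ γ * tr v γ = ∫ γ, v γ * tr χ γ := by
    have c1 : HasCompactSupport (L1 χ) := HasCompactSupport.intro hc fun γ hγ => lev_eq_zero hγ _ _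
    have c2 : HasCompactSupport (L2 χ) := HasCompactSupport.intro hc fun γ hγ => lev_eq_zero hγ _ _
    simp only [tr, mul_add]
    rw [integral_add (Parts_intl (u := L1 v) hχs hc (hv.lev _ _))
        (Parts_intl (u := L2 v) hχs hc (hv.lev _ _)),
      integral_add (Parts_intr (Φ := L1 χ) (hχs.lev _ _) c1 hv)
        (Parts_intr (Φ := L2 χ) (hχs.lev _ _) c2 hv)]
    simp only [L1, L2]
    rw [parts_lev hχs hc hv, parts_lev hχs hc hv]
  calc ∫ γ in K, tr v γ = ∫ γ in K, χ γ * tr v γ :=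
        setIntegral_congr_fun hK.measurableSet fun γ hγ => by simp only [hχ1 γ hγ, one_mul]
    _ ≤ ∫ γ, χ γ * tr v γ :=
        setIntegral_le_integral (Parts_intl hχs hc hv.tr)
          (Eventually.of_forall fun γ => mul_nonneg (hχr γ) (hP γ).tr_nonneg)
    _ = ∫ γ, v γ * tr χ γ := e
    _ ≤ ∫ γ, |tr χ γ| * B := by
        refine integral_mono (Parts_intr hχs.tr hct hv) (hint.abs.mul_const B) fun γ => ?_
        by_cases hγ : γ ∈ K'
        · calc v γ * tr χ γ ≤ |v γ * tr χ γ| := le_abs_self _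
            _ = |tr χ γ| * |v γ| := by rw [abs_mul, mul_comm]
            _ ≤ |tr χ γ| * B := mul_le_mul_of_nonneg_left (hvB γ hγ) (abs_nonneg _)
        · have h0 : tr χ γ = 0 := by
            have hγ' : γ ∉ tsupport χ := fun hh => hγ (hχ0 hh)
            simp only [tr, L1, L2, lev_eq_zero hγ', add_zero]
          simp only [h0, mul_zero, abs_zero, zero_mul, le_refl]
    _ = (∫ γ, |tr χ γ|) * B := integral_mul_const _ _

end Pool.Agent.Lib.MP_7b5e47_an.Hq
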